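import Pool.Agent.CPD.AH

/-!
[A1] The alternating trace of a null-homotopic matrix.
-/

set_option autoImplicit false

namespace Pool.Agent.CPD

open Matrix

theorem A1 : St_A1 := by
  intro Λ A W _ _ _ _ t deg d M htr hd hM
  obtain ⟨e, he, rfl⟩ := hM
  unfold str
  have h1 : ∀ x, ((-1 : ℤ) ^ deg x) • t ((e * d + d * e) x x) =
      ∑ y, ((-1 : ℤ) ^ deg x) • t (e x y * d y x) +
      ∑ y, ((-1 : ℤ) ^ deg x) • t (e y x * d x y) := by
    intro x
    rw [Matrix.add_apply, Matrix.mul_apply, Matrix.mul_apply, map_add, map_sum, map_sum, smul_add,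
      Finset.smul_sum, Finset.smul_sum]
    congr 1
    exact Finset.sum_congr rfl fun y _ => by rw [htr (d x y)]
  simp only [h1]
  rw [Finset.sum_add_distrib, Finset.sum_comm (f := fun x y =>
    ((-1 : ℤ) ^ deg x) • t (e y x * d x y)), ← Finset.sum_add_distrib]
  refine Finset.sum_eq_zero fun x _ => ?_
  rw [← Finset.sum_add_distrib]
  refine Finset.sum_eq_zero fun y _ => ?_
  by_cases h : e x y = 0
  · rw [h, zero_mul, map_zero, smul_zero, smul_zero, add_zero]
  · rw [he _ _ h, pow_succ, mul_neg, mul_one, neg_smul, add_neg_cancel]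

end Pool.Agent.CPD
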