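import Pool.Agent.CPD.AH

/-!
[A2] Null-homotopic matrices.
-/

set_option autoImplicit false

namespace Pool.Agent.CPD

open Matrix

theorem A2 : St_A2 := by
  intro Λ W _ _ _ deg d
  refine ⟨⟨0, fun x y h => absurd rfl h, by simp⟩, ?_, ?_, ?_⟩
  · rintro M N ⟨e, he, rfl⟩ ⟨f, hf, rfl⟩
    refine ⟨e + f, AH.Up.add he hf, ?_⟩
    rw [Matrix.add_mul, Matrix.mul_add]
    abel
  · rintro M ⟨e, he, rfl⟩
    refine ⟨-e, AH.Up.neg he, ?_⟩
    rw [Matrix.neg_mul, Matrix.mul_neg, neg_add]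
  · rintro M B hB hdB ⟨e, he, rfl⟩
    constructor
    · refine ⟨e * B, AH.Up.mul_zr he hB, ?_⟩
      rw [Matrix.add_mul, Matrix.mul_assoc e d B, hdB, ← Matrix.mul_assoc e B d,
        Matrix.mul_assoc d e B]
    · refine ⟨B * e, AH.Zr.mul_up hB he, ?_⟩
      rw [Matrix.mul_add, ← Matrix.mul_assoc B e d, ← Matrix.mul_assoc B d e, ← hdB,
        Matrix.mul_assoc d B e]

end Pool.Agent.CPD
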