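import Pool.Agent.CPD.AH

/-!
[A3] The normal form of a homotopy idempotent.
-/

set_option autoImplicit false

namespace Pool.Agent.CPD

open Matrix

namespace A3aux

variable {Λ : Type} [Ring Λ] {W : Type} [Fintype W] {deg : W → ℕ}

lemma vm_zero {c : W → Λ} {A : Matrix W W Λ} (h : ∀ u, c u ≠ 0 → ∀ w, A u w = 0) :
    c ᵥ* A = 0 := by
  funext w
  change ∑ u, c u * A u w = 0
  refine Finset.sum_eq_zero fun u _ => ?_
  by_cases h1 : c u = 0
  · rw [h1, zero_mul]
  · rw [h u h1 w, mul_zero]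

lemma row_mul (A B : Matrix W W Λ) (x : W) : (A * B) x = A x ᵥ* B := rfl

lemma row_add (A B : Matrix W W Λ) (x : W) : (A + B) x = A x + B x := rfl

lemma row_sub (A B : Matrix W W Λ) (x : W) : (A - B) x = A x - B x := rfl

lemma hg_row {A : Matrix W W Λ} (hA : Zr deg A) (x : W) : Hg deg (deg x) (A x) :=
  fun y hy => (hA x y hy).symm

end A3aux

open A3aux AH

theorem A3 (h2 : St_A2) : St_A3 := by
  intro Λ W _ _ _ deg d k z yv hdeg hd dd hk hdk hkk ha hz hzd hzk hb hyv hyk hc
  classical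
  obtain ⟨n0, nadd, nneg, nmul⟩ := h2 Λ W deg d
  have nsub : ∀ M N, NullH deg d M → NullH deg d N → NullH deg d (M - N) := by
    intro M N hM hN
    rw [sub_eq_add_neg]
    exact nadd _ _ hM (nneg _ hN)
  -- step 0
  have hsingle : ∀ (x : W) (n : ℕ), deg x = n → Hg deg n (Pi.single x (1 : Λ)) := by
    intro x n hx u hu
    by_cases h1 : u = x
    · rw [h1, hx]
    · exact absurd (by rw [Pi.single_eq_of_ne h1]) hu
  have h0 : ∀ x, ∃ y : W → Λ, deg x = 0 → k x = y ᵥ* d := by
    intro x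
    by_cases hx : deg x = 0
    · obtain ⟨y, hy⟩ := ha (Pi.single x 1) (hsingle x 0 hx)
      rw [Matrix.single_one_vecMul] at hy
      exact ⟨y, fun _ => hy⟩
    · exact ⟨0, fun h => absurd h hx⟩
  choose y0 hy0 using h0
  let e0 : Matrix W W Λ := Matrix.of fun x => if deg x = 0 then pr deg 1 (y0 x) else 0
  have e0row : ∀ x, deg x ≠ 0 → ∀ w, e0 x w = 0 := by
    intro x hx w
    change (if deg x = 0 then pr deg 1 (y0 x) else 0) w = 0
    rw [if_neg hx]
    rfl
  have e0row0 : ∀ x, deg x = 0 → e0 x = pr deg 1 (y0 x) := by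
    intro x hx
    change (if deg x = 0 then pr deg 1 (y0 x) else 0) = _
    rw [if_pos hx]
  have e0up : Up deg e0 := by
    intro x y h
    by_cases hx : deg x = 0
    · rw [e0row0 x hx] at h
      rw [pr_hg 1 (y0 x) y h, hx]
    · exact absurd (e0row x hx y) h
  have drow : ∀ x n, deg x = n + 1 → Hg deg n (d x) := by
    intro x n hx y hy
    have := hd x y hy
    omega
  have drow0 : ∀ x, deg x = 0 → d x = 0 := by
    intro x hx
    funext y
    by_contra h1
    have := hd x y h1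
    omega
  obtain ⟨k1, hk1⟩ : ∃ k1, k1 = k - (e0 * d + d * e0) := ⟨_, rfl⟩
  have n1 : NullH deg d (e0 * d + d * e0) := ⟨e0, e0up, rfl⟩
  have k1zr : Zr deg k1 := by
    rw [hk1]
    exact Zr.sub hk (null_zr hd e0up)
  have k1d : d * k1 = k1 * d := by
    rw [hk1, Matrix.mul_sub, Matrix.sub_mul, hdk, null_comm dd]
  have k1row0 : ∀ x, deg x = 0 → k1 x = 0 := by
    intro x hx
    rw [hk1, row_sub, row_add, row_mul, row_mul, e0row0 x hx, pr_vecMul_dn hd, ← hy0 x hx,
      drow0 x hx, zero_vecMul, add_zero, pr_of_hg (hx ▸ hg_row hk x), sub_self]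
  have k1row3 : ∀ x, deg x = 3 → k1 x = k x := by
    intro x hx
    rw [hk1, row_sub, row_add, row_mul, row_mul]
    have t1 : e0 x = 0 := by
      funext w
      exact e0row x (by omega) w
    rw [t1, zero_vecMul, vm_zero (c := d x) (A := e0), add_zero, sub_zero]
    intro u hu w
    exact e0row u (by have := drow x 2 hx u hu; omega) w
  have k1row1 : ∀ x, deg x = 1 → k1 x ᵥ* d = 0 := by
    intro x hx
    rw [← row_mul, ← k1d, row_mul]
    apply vm_zero
    intro u hu w
    rw [k1row0 u (drow x 0 hx u hu)]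
    rfl
  have k1row1' : ∀ x, deg x = 1 → k1 x ᵥ* k1 = k1 x ᵥ* k := by
    intro x hx
    rw [hk1, Matrix.vecMul_sub, Matrix.vecMul_add, ← hk1, ← Matrix.vecMul_vecMul,
      ← Matrix.vecMul_vecMul, k1row1 x hx, zero_vecMul, vm_zero (c := k1 x) (A := e0), zero_vecMul,
      add_zero, sub_zero]
    intro u hu w
    exact e0row u (by have := k1zr x u hu; omega) w
  have h1 : ∀ x, ∃ (a : Λ) (y : W → Λ), deg x = 1 → k1 x ᵥ* k1 = a • z + y ᵥ* d := by
    intro x
    by_cases hx : deg x = 1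
    · obtain ⟨a, y, hy⟩ := hb (k1 x) (hx ▸ hg_row k1zr x) (k1row1 x hx)
      exact ⟨a, y, fun _ => by rw [k1row1' x hx, hy]⟩
    · exact ⟨0, 0, fun h => absurd h hx⟩
  choose a1 y1 hy1 using h1
  let γ : Matrix W W Λ := Matrix.of fun x => if deg x = 1 then pr deg 2 (y1 x) else 0
  have γrow : ∀ x, deg x ≠ 1 → ∀ w, γ x w = 0 := by
    intro x hx w
    change (if deg x = 1 then pr deg 2 (y1 x) else 0) w = 0
    rw [if_neg hx]
    rfl
  have γrow' : ∀ x, deg x ≠ 1 → γ x = 0 := fun x hx => funext fun w => γrow x hx w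
  have γrow1 : ∀ x, deg x = 1 → γ x = pr deg 2 (y1 x) := by
    intro x hx
    change (if deg x = 1 then pr deg 2 (y1 x) else 0) = _
    rw [if_pos hx]
  have γup : Up deg γ := by
    intro x y h
    by_cases hx : deg x = 1
    · rw [γrow1 x hx] at h
      rw [pr_hg 2 (y1 x) y h, hx]
    · exact absurd (γrow x hx y) h
  obtain ⟨α, hα⟩ : ∃ α : W → Λ, α = fun x => if deg x = 1 then a1 x else 0 := ⟨_, rfl⟩
  have α1 : ∀ x, deg x = 1 → α x = a1 x := fun x hx => by rw [hα]; exact if_pos hx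
  have αhg : Hg deg 1 α := by
    intro x h
    by_contra hx
    exact h (by rw [hα]; exact if_neg hx)
  obtain ⟨k2, hk2⟩ : ∃ k2, k2 = k1 * k1 - (γ * d + d * γ) := ⟨_, rfl⟩
  have n2 : NullH deg d (γ * d + d * γ) := ⟨γ, γup, rfl⟩
  have k2zr : Zr deg k2 := by
    rw [hk2]
    exact Zr.sub (Zr.mul k1zr k1zr) (null_zr hd γup)
  have k2d : d * k2 = k2 * d := by
    rw [hk2, Matrix.mul_sub, Matrix.sub_mul, null_comm dd, ← Matrix.mul_assoc, k1d,
      Matrix.mul_assoc, k1d, Matrix.mul_assoc]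
  have k2row0 : ∀ x, deg x = 0 → k2 x = 0 := by
    intro x hx
    rw [hk2, row_sub, row_add, row_mul, row_mul, row_mul, k1row0 x hx, γrow' x (by omega),
      drow0 x hx, zero_vecMul, zero_vecMul, zero_vecMul, add_zero, sub_zero]
  have k2row1 : ∀ x, deg x = 1 → k2 x = α x • z := by
    intro x hx
    have t1 : d x ᵥ* γ = 0 := vm_zero fun u hu w =>
      γrow u (by have := drow x 0 hx u hu; omega) w
    have t2 : pr deg 1 (k1 x ᵥ* k1) = k1 x ᵥ* k1 :=
      pr_of_hg (hx ▸ hg_row (Zr.mul k1zr k1zr) x)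
    have t3 : pr deg 1 (a1 x • z + y1 x ᵥ* d) = a1 x • z + pr deg 1 (y1 x ᵥ* d) := by
      funext w
      unfold pr
      by_cases hw : deg w = 1
      · rw [if_pos hw]
        simp only [Pi.add_apply, if_pos hw]
      · rw [if_neg hw]
        simp only [Pi.add_apply, Pi.smul_apply, if_neg hw, hg_zero hz hw, smul_zero, add_zero]
    rw [hk2, row_sub, row_add, row_mul, row_mul, row_mul, t1, γrow1 x hx, pr_vecMul_dn hd, ← t2,
      hy1 x hx, t3, α1 x hx, add_zero, add_sub_cancel_right]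
  have k2row3 : ∀ x, deg x = 3 → k2 x = (k * k) x := by
    intro x hx
    have t1 : d x ᵥ* γ = 0 := vm_zero fun u hu w =>
      γrow u (by have := drow x 2 hx u hu; omega) w
    rw [hk2, row_sub, row_add, row_mul, row_mul, row_mul, row_mul, t1, γrow' x (by omega),
      zero_vecMul, add_zero, sub_zero, k1row3 x hx]
    funext w
    change ∑ u, k x u * k1 u w = ∑ u, k x u * k u w
    refine Finset.sum_congr rfl fun u _ => ?_
    by_cases hu : k x u = 0
    · rw [hu, zero_mul, zero_mul]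
    · rw [k1row3 u (by have := hk x u hu; omega)]
  -- step 3
  have h3 : ∀ w, ∃ (b : Λ) (v : W → Λ), deg w = 3 →
      ∀ x, k x w = yv x * b + (d *ᵥ v) x := by
    intro w
    by_cases hw : deg w = 3
    · obtain ⟨b, v, hv⟩ := hc (Pi.single w 1) (hsingle w 3 hw)
      refine ⟨b, v, fun _ x => ?_⟩
      have := congrFun hv x
      rw [Matrix.mulVec_single_one] at this
      exact this
    · exact ⟨0, 0, fun h => absurd h hw⟩
  choose b0 v0' hv0 using h3
  obtain ⟨β0, hβ0⟩ : ∃ β0 : W → Λ, β0 = fun w => if deg w = 3 then b0 w else 0 := ⟨_, rfl⟩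
  let v0 : Matrix W W Λ := Matrix.of fun u w => if deg w = 3 then pr deg 2 (v0' w) u else 0
  have v0row : ∀ u, deg u ≠ 2 → ∀ w, v0 u w = 0 := by
    intro u hu w
    change (if deg w = 3 then pr deg 2 (v0' w) u else 0) = 0
    by_cases hw : deg w = 3
    · rw [if_pos hw]
      exact hg_zero (pr_hg 2 (v0' w)) hu
    · rw [if_neg hw]
  have v0up : Up deg v0 := by
    intro u w h
    by_cases hu : deg u = 2
    · by_cases hw : deg w = 3
      · omega
      · exact absurd (show (if deg w = 3 then pr deg 2 (v0' w) u else 0) = 0 from if_neg hw) h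
    · exact absurd (v0row u hu w) h
  have kr3 : ∀ x, deg x = 3 → k x = yv x • β0 + d x ᵥ* v0 := by
    intro x hx
    funext w
    change k x w = yv x * β0 w + ∑ u, d x u * v0 u w
    by_cases hw : deg w = 3
    · have e1 : ∑ u, d x u * v0 u w = (d *ᵥ pr deg 2 (v0' w)) x := by
        change _ = ∑ u, d x u * pr deg 2 (v0' w) u
        refine Finset.sum_congr rfl fun u _ => ?_
        change d x u * (if deg w = 3 then pr deg 2 (v0' w) u else 0) = _
        rw [if_pos hw]
      rw [e1, pr_mulVec_dn hd, hv0 w hw x, hβ0]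
      unfold pr
      rw [if_pos (by omega)]
      simp only [if_pos hw]
    · have e1 : ∑ u, d x u * v0 u w = 0 := by
        refine Finset.sum_eq_zero fun u _ => ?_
        change d x u * (if deg w = 3 then pr deg 2 (v0' w) u else 0) = _
        rw [if_neg hw, mul_zero]
      rw [e1, hβ0]
      simp only [if_neg hw, mul_zero, add_zero]
      by_contra h
      exact hw (by rw [← hk x w h, hx])
  obtain ⟨β, hβ⟩ : ∃ β : W → Λ, β = β0 ᵥ* k := ⟨_, rfl⟩
  have βhg : Hg deg 3 β := by
    intro w h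
    rw [hβ] at h
    obtain ⟨u, _, hu⟩ := Finset.exists_ne_zero_of_sum_ne_zero h
    have t1 := left_ne_zero_of_mul hu
    have t2 := hk u w (right_ne_zero_of_mul hu)
    rw [← t2]
    by_contra h3
    exact t1 (by rw [hβ0]; exact if_neg h3)
  have v1up : Up deg (v0 * k) := Up.mul_zr v0up hk
  have v1row : ∀ u, deg u ≠ 2 → ∀ w, (v0 * k) u w = 0 := by
    intro u hu w
    rw [row_mul, show v0 u = 0 from funext fun w => v0row u hu w, zero_vecMul]
    rfl
  obtain ⟨v1, hv1⟩ : ∃ v1, v1 = v0 * k := ⟨_, rfl⟩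
  rw [← hv1] at v1up v1row
  obtain ⟨k', hk'⟩ : ∃ k', k' = k2 - (v1 * d + d * v1) := ⟨_, rfl⟩
  have n3 : NullH deg d (v1 * d + d * v1) := ⟨v1, v1up, rfl⟩
  have k'zr : Zr deg k' := by
    rw [hk']
    exact Zr.sub k2zr (null_zr hd v1up)
  have k'd : d * k' = k' * d := by
    rw [hk', Matrix.mul_sub, Matrix.sub_mul, null_comm dd, k2d]
  have k'row : ∀ x, deg x ≤ 1 → k' x = k2 x := by
    intro x hx
    have t1 : v1 x = 0 := funext fun w => v1row x (by omega) w
    have t2 : d x ᵥ* v1 = 0 := vm_zero fun u hu w =>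
      v1row u (by have := hd x u hu; omega) w
    rw [hk', row_sub, row_add, row_mul, row_mul, t1, t2, zero_vecMul, add_zero, sub_zero]
  have k'row3 : ∀ x, deg x = 3 → k' x = yv x • β := by
    intro x hx
    have t1 : v1 x = 0 := funext fun w => v1row x (by omega) w
    have t2 : (yv x • β0) ᵥ* k = yv x • (β0 ᵥ* k) := Matrix.smul_vecMul _ _ _
    rw [hk', row_sub, row_add, row_mul, row_mul, t1, zero_vecMul, zero_add, k2row3 x hx, row_mul,
      kr3 x hx, Matrix.add_vecMul, t2, ← hβ, Matrix.vecMul_vecMul, ← hv1, add_sub_cancel_right]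
  have nk : NullH deg d (k' - k) := by
    have e1 : k' - k = ((k1 - k) * k1 + k * (k1 - k)) + (k * k - k) - (γ * d + d * γ) -
        (v1 * d + d * v1) := by
      rw [hk', hk2]
      noncomm_ring
    have e2 : NullH deg d (k1 - k) := by
      have : k1 - k = -(e0 * d + d * e0) := by
        rw [hk1]
        abel
      rw [this]
      exact nneg _ n1
    rw [e1]
    exact nsub _ _ (nsub _ _ (nadd _ _ (nadd _ _ (nmul _ _ k1zr k1d e2).1 (nmul _ _ hk hdk e2).2)
      hkk) n2) n3
  have nidem : NullH deg d (k' * k' - k') := by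
    have e1 : k' * k' - k' = ((k' - k) * k' + k * (k' - k)) + (k * k - k) - (k' - k) := by
      noncomm_ring
    rw [e1]
    exact nsub _ _ (nadd _ _ (nadd _ _ (nmul _ _ k'zr k'd nk).1 (nmul _ _ hk hdk nk).2) hkk) nk
  -- the two relations
  obtain ⟨e, he, hek⟩ := id nk
  have hk'e : k' = k + (e * d + d * e) := by
    rw [← hek]
    abel
  have zk' : z ᵥ* k' = (z ⬝ᵥ α) • z := by
    funext w
    change ∑ u, z u * k' u w = (∑ u, z u * α u) * z w
    rw [Finset.sum_mul]
    refine Finset.sum_congr rfl fun u _ => ?_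
    by_cases hu : z u = 0
    · rw [hu, zero_mul, zero_mul, zero_mul]
    · have t1 := hz u hu
      rw [k'row u (by omega), k2row1 u t1, mul_assoc]
      rfl
  have k'y : k' *ᵥ yv = fun x => yv x * (β ⬝ᵥ yv) := by
    funext x
    change ∑ w, k' x w * yv w = yv x * ∑ w, β w * yv w
    by_cases hx : deg x = 3
    · rw [Finset.mul_sum]
      refine Finset.sum_congr rfl fun w _ => ?_
      rw [k'row3 x hx, ← mul_assoc]
      rfl
    · rw [hg_zero hyv hx, zero_mul]
      refine Finset.sum_eq_zero fun w _ => ?_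
      by_cases h1 : k' x w = 0
      · rw [h1, zero_mul]
      · rw [hg_zero hyv (x := w) (by rw [← k'zr x w h1]; exact hx), mul_zero]
  obtain ⟨y2, hy2⟩ := hzk
  obtain ⟨v2, hv2⟩ := hyk
  have dyv : d *ᵥ yv = 0 := by
    funext x
    change ∑ w, d x w * yv w = 0
    refine Finset.sum_eq_zero fun w _ => ?_
    by_cases h1 : d x w = 0
    · rw [h1, zero_mul]
    · rw [hg_zero hyv (x := w) (by have := hd x w h1; have := hdeg x; omega), mul_zero]
  have az1 : (z ⬝ᵥ α) • z = z + (y2 + z ᵥ* e) ᵥ* d := by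
    rw [← zk', hk'e, Matrix.vecMul_add, hy2, Matrix.vecMul_add, ← Matrix.vecMul_vecMul,
      ← Matrix.vecMul_vecMul, hzd, zero_vecMul, add_zero, Matrix.add_vecMul, add_assoc]
  have yb1 : (fun x => yv x * (β ⬝ᵥ yv)) = yv + d *ᵥ (v2 + e *ᵥ yv) := by
    rw [← k'y, hk'e, Matrix.add_mulVec, hv2, Matrix.add_mulVec, ← Matrix.mulVec_mulVec,
      ← Matrix.mulVec_mulVec, dyv, Matrix.mulVec_zero, zero_add, Matrix.mulVec_add, add_assoc]
  refine ⟨k', α, β, pr deg 2 (v2 + e *ᵥ yv), pr deg 2 (y2 + z ᵥ* e), ?_, nk⟩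
  refine
    { deg_le := hdeg
      d_dn := hd
      dd := dd
      k_zr := k'zr
      kd := k'd
      idem := nidem
      k0 := ?_
      k1 := ?_
      k3 := ?_
      z_hg := hz
      α_hg := αhg
      yv_hg := hyv
      β_hg := βhg
      v_hg := pr_hg _ _
      w_hg := pr_hg _ _
      zd := hzd
      az := ?_
      yb := ?_ }
  · intro x y hx
    rw [k'row x (by omega), k2row0 x hx]
    rfl
  · intro x y hx
    rw [k'row x (by omega), k2row1 x hx]
    rfl
  · intro x y hx
    rw [k'row3 x hx]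
    rfl
  · intro y
    rw [pr_vecMul_dn hd]
    have t1 := congrFun az1 y
    have t2 : (z ⬝ᵥ α) * z y = z y + ((y2 + z ᵥ* e) ᵥ* d) y := t1
    unfold pr
    by_cases hy : deg y = 1
    · rw [if_pos hy, t2, add_sub_cancel_left]
    · rw [if_neg hy, hg_zero hz hy, mul_zero, sub_zero]
  · intro x
    rw [pr_mulVec_dn hd]
    have t1 := congrFun yb1 x
    have t2 : yv x * (β ⬝ᵥ yv) = yv x + (d *ᵥ (v2 + e *ᵥ yv)) x := t1
    unfold pr
    by_cases hx : deg x = 3
    · rw [if_pos hx, t2, add_sub_cancel_left]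
    · rw [if_neg hx, hg_zero hyv hx, zero_mul, sub_zero]

end Pool.Agent.CPD
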