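import Pool.Agent.CPD.AH

/-!
[A4a] The enlarged complex.
-/

set_option autoImplicit false

namespace Pool.Agent.CPD

open Matrix

namespace AN

variable {Λ : Type} [Ring Λ] {W : Type}

lemma mul_ap [Fintype W] (A B : Matrix (W ⊕ Bool) (W ⊕ Bool) Λ) (i j : W ⊕ Bool) :
    (A * B) i j = ∑ w, A i (Sum.inl w) * B (Sum.inl w) j +
      (A i (Sum.inr true) * B (Sum.inr true) j + A i (Sum.inr false) * B (Sum.inr false) j) := by
  rw [Matrix.mul_apply, Fintype.sum_sum_type, Fintype.sum_bool]

lemma dN_ll (d : Matrix W W Λ) (z yv : W → Λ) (x y : W) :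
    dN d z yv (Sum.inl x) (Sum.inl y) = d x y := rfl
lemma dN_lt (d : Matrix W W Λ) (z yv : W → Λ) (x : W) :
    dN d z yv (Sum.inl x) (Sum.inr true) = yv x := rfl
lemma dN_lf (d : Matrix W W Λ) (z yv : W → Λ) (x : W) :
    dN d z yv (Sum.inl x) (Sum.inr false) = 0 := rfl
lemma dN_tl (d : Matrix W W Λ) (z yv : W → Λ) (y : W) :
    dN d z yv (Sum.inr true) (Sum.inl y) = 0 := rfl
lemma dN_fl (d : Matrix W W Λ) (z yv : W → Λ) (y : W) :
    dN d z yv (Sum.inr false) (Sum.inl y) = z y := rfl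
lemma dN_rr (d : Matrix W W Λ) (z yv : W → Λ) (b c : Bool) :
    dN d z yv (Sum.inr b) (Sum.inr c) = 0 := rfl

lemma kN_ll (k : Matrix W W Λ) (v w' : W → Λ) (x y : W) :
    kN k v w' (Sum.inl x) (Sum.inl y) = k x y := rfl
lemma kN_lt (k : Matrix W W Λ) (v w' : W → Λ) (x : W) :
    kN k v w' (Sum.inl x) (Sum.inr true) = v x := rfl
lemma kN_lf (k : Matrix W W Λ) (v w' : W → Λ) (x : W) :
    kN k v w' (Sum.inl x) (Sum.inr false) = 0 := rfl
lemma kN_tl (k : Matrix W W Λ) (v w' : W → Λ) (y : W) :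
    kN k v w' (Sum.inr true) (Sum.inl y) = 0 := rfl
lemma kN_fl (k : Matrix W W Λ) (v w' : W → Λ) (y : W) :
    kN k v w' (Sum.inr false) (Sum.inl y) = w' y := rfl
lemma kN_tt (k : Matrix W W Λ) (v w' : W → Λ) :
    kN k v w' (Sum.inr true) (Sum.inr true) = 1 := rfl
lemma kN_ff (k : Matrix W W Λ) (v w' : W → Λ) :
    kN k v w' (Sum.inr false) (Sum.inr false) = 1 := rfl
lemma kN_tf (k : Matrix W W Λ) (v w' : W → Λ) :
    kN k v w' (Sum.inr true) (Sum.inr false) = 0 := rfl
lemma kN_ft (k : Matrix W W Λ) (v w' : W → Λ) :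
    kN k v w' (Sum.inr false) (Sum.inr true) = 0 := rfl

lemma eN_ll (α β : W → Λ) (x y : W) : eN α β (Sum.inl x) (Sum.inl y) = 0 := rfl
lemma eN_lt (α β : W → Λ) (x : W) : eN α β (Sum.inl x) (Sum.inr true) = 0 := rfl
lemma eN_lf (α β : W → Λ) (x : W) : eN α β (Sum.inl x) (Sum.inr false) = α x := rfl
lemma eN_tl (α β : W → Λ) (y : W) : eN α β (Sum.inr true) (Sum.inl y) = β y := rfl
lemma eN_fl (α β : W → Λ) (y : W) : eN α β (Sum.inr false) (Sum.inl y) = 0 := rfl
lemma eN_rr (α β : W → Λ) (b c : Bool) : eN α β (Sum.inr b) (Sum.inr c) = 0 := rfl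

lemma degN_l (deg : W → ℕ) (x : W) : degN deg (Sum.inl x) = deg x := rfl
lemma degN_r (deg : W → ℕ) (b : Bool) : degN deg (Sum.inr b) = 2 := rfl

end AN

open AN AH

theorem A4a : St_A4a := by
  intro Λ W _ _ _ deg d k z α yv β v w' h
  have F1 : ∀ x y, ∑ w, d x w * d w y = 0 := fun x y => by
    have := congrFun (congrFun h.dd x) y
    rw [Matrix.mul_apply] at this
    exact this
  have F2 : ∀ x, ∑ w, d x w * yv w = 0 := by
    intro x
    refine Finset.sum_eq_zero fun w _ => ?_
    by_cases h1 : d x w = 0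
    · rw [h1, zero_mul]
    · rw [hg_zero h.yv_hg (x := w) (by have := h.d_dn x w h1; have := h.deg_le x; omega), mul_zero]
  have F3 : ∀ y, ∑ w, z w * d w y = 0 := fun y => congrFun h.zd y
  have Fhh : ∀ (p q : W → Λ) (m n : ℕ), Hg deg m p → Hg deg n q → m ≠ n → ∑ w, p w * q w = 0 := by
    intro p q m n hp hq hmn
    refine Finset.sum_eq_zero fun w _ => ?_
    by_cases h1 : p w = 0
    · rw [h1, zero_mul]
    · rw [hg_zero hq (x := w) (by rw [hp w h1]; exact hmn), mul_zero]
  have F4 : ∑ w, z w * yv w = 0 := Fhh _ _ 1 3 h.z_hg h.yv_hg (by omega)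
  have F7 : ∑ w, z w * v w = 0 := Fhh _ _ 1 2 h.z_hg h.v_hg (by omega)
  have F8 : ∑ w, w' w * yv w = 0 := Fhh _ _ 2 3 h.w_hg h.yv_hg (by omega)
  have F5 : ∀ x, ∑ w, k x w * yv w = ∑ w, d x w * v w + yv x := by
    intro x
    have t1 : yv x * (β ⬝ᵥ yv) - yv x = ∑ w, d x w * v w := h.yb x
    rw [← t1, sub_add_cancel]
    change _ = yv x * ∑ w, β w * yv w
    by_cases hx : deg x = 3
    · rw [Finset.mul_sum]
      exact Finset.sum_congr rfl fun w _ => by rw [h.k3 x w hx, mul_assoc]
    · rw [hg_zero h.yv_hg hx, zero_mul]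
      refine Finset.sum_eq_zero fun w _ => ?_
      by_cases h1 : k x w = 0
      · rw [h1, zero_mul]
      · rw [hg_zero h.yv_hg (x := w) (by rw [← h.k_zr x w h1]; exact hx), mul_zero]
  have F6 : ∀ y, ∑ w, z w * k w y = ∑ w, w' w * d w y + z y := by
    intro y
    have t1 : (z ⬝ᵥ α) * z y - z y = ∑ w, w' w * d w y := h.az y
    rw [← t1, sub_add_cancel]
    change _ = (∑ w, z w * α w) * z y
    rw [Finset.sum_mul]
    refine Finset.sum_congr rfl fun w _ => ?_
    by_cases h1 : z w = 0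
    · rw [h1, zero_mul, zero_mul, zero_mul]
    · rw [h.k1 w y (h.z_hg w h1), mul_assoc]
  have F9 : ∀ x y, ∑ w, d x w * k w y = ∑ w, k x w * d w y := fun x y => by
    have := congrFun (congrFun h.kd x) y
    rw [Matrix.mul_apply, Matrix.mul_apply] at this
    exact this
  refine ⟨?_, ?_, ?_, ?_, ?_⟩
  · rintro (x | b) (y | c) hxy
    · exact h.d_dn x y hxy
    · cases c
      · exact absurd rfl hxy
      · have := h.yv_hg x hxy
        rw [degN_l, degN_r, this]
    · cases b
      · have := h.z_hg y hxy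
        rw [degN_l, degN_r, this]
      · exact absurd rfl hxy
    · exact absurd rfl hxy
  · ext i j
    rw [mul_ap, Matrix.zero_apply]
    rcases i with x | b
    · rcases j with y | c
      · simp only [dN_ll, dN_lt, dN_lf, dN_tl, F1, mul_zero, zero_mul, add_zero]
      · cases c
        · simp only [dN_ll, dN_lt, dN_lf, dN_rr, mul_zero, zero_mul, add_zero,
            Finset.sum_const_zero]
        · simp only [dN_ll, dN_lt, dN_lf, dN_rr, mul_zero, zero_mul, add_zero, F2]
    · cases b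
      · rcases j with y | c
        · simp only [dN_ll, dN_fl, dN_tl, dN_rr, mul_zero, zero_mul, add_zero, F3]
        · cases c
          · simp only [dN_fl, dN_lf, dN_rr, mul_zero, add_zero, Finset.sum_const_zero]
          · simp only [dN_fl, dN_lt, dN_rr, mul_zero, add_zero, F4]
      · simp only [dN_tl, dN_rr, zero_mul, add_zero, Finset.sum_const_zero]
  · rintro (x | b) (y | c) hxy
    · exact h.k_zr x y hxy
    · cases c
      · exact absurd rfl hxy
      · exact h.v_hg x hxy
    · cases b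
      · exact (h.w_hg y hxy).symm
      · exact absurd rfl hxy
    · rfl
  · ext i j
    rw [mul_ap, mul_ap]
    rcases i with x | b
    · rcases j with y | c
      · simp only [dN_ll, dN_lt, dN_lf, dN_tl, dN_fl, kN_ll, kN_lt, kN_lf, kN_tl, kN_fl, F9,
          mul_zero, zero_mul, add_zero]
      · cases c
        · simp only [dN_lf, dN_rr, kN_lf, kN_tf, mul_zero, zero_mul, add_zero,
            Finset.sum_const_zero]
        · simp only [dN_ll, dN_lt, dN_lf, dN_rr, kN_ll, kN_lt, kN_lf, kN_tt, kN_ft, mul_zero,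
            zero_mul, add_zero, mul_one, F5]
    · cases b
      · rcases j with y | c
        · simp only [dN_ll, dN_fl, dN_tl, dN_rr, kN_ll, kN_fl, kN_tl, kN_ff, kN_ft, mul_zero,
            zero_mul, add_zero, zero_add, one_mul, F6]
        · cases c
          · simp only [dN_fl, dN_lf, dN_rr, kN_fl, kN_lf, kN_tf, kN_ff, mul_zero, zero_mul,
              add_zero, Finset.sum_const_zero]
          · simp only [dN_fl, dN_lt, dN_rr, kN_fl, kN_lt, kN_tt, kN_ft, mul_zero, zero_mul,
              add_zero, F7, F8]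
      · rcases j with y | c
        · simp only [dN_tl, dN_fl, dN_rr, kN_tl, kN_tt, kN_tf, mul_zero, zero_mul, add_zero,
            Finset.sum_const_zero]
        · simp only [dN_tl, dN_rr, kN_tl, mul_zero, zero_mul, add_zero,
            Finset.sum_const_zero]
  · rintro (x | b) (y | c) hxy
    · exact absurd rfl hxy
    · cases c
      · rw [degN_l, degN_r, h.α_hg x hxy]
      · exact absurd rfl hxy
    · cases b
      · exact absurd rfl hxy
      · rw [degN_l, degN_r, h.β_hg y hxy]
    · exact absurd rfl hxy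

end Pool.Agent.CPD
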