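import Pool.Agent.CPD.A4a

/-!
[A4b] The endomorphism `PN` is concentrated in degree two.
-/

set_option autoImplicit false

namespace Pool.Agent.CPD

open Matrix AN AH

theorem A4b (h : St_A4a) : St_A4b := by
  intro Λ W _ _ _ deg d k z α yv β v w' hN
  obtain ⟨g1, g2, g3, g4, g5⟩ := h Λ W deg d k z α yv β v w' hN
  have hzr : Zr (degN deg) (PN d k z α yv β v w') := Zr.sub g3 (null_zr g1 g5)
  have hcomm : dN d z yv * PN d k z α yv β v w' = PN d k z α yv β v w' * dN d z yv := by
    unfold PN
    rw [Matrix.mul_sub, Matrix.sub_mul, g4, null_comm g2]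
  have hrow : ∀ x j, deg x ≠ 2 → PN d k z α yv β v w' (Sum.inl x) j = 0 := by
    intro x j hx
    have hda : ∑ w, d x w * α w = 0 := by
      refine Finset.sum_eq_zero fun w _ => ?_
      by_cases h1 : d x w = 0
      · rw [h1, zero_mul]
      · rw [hg_zero hN.α_hg (x := w) (by have := hN.d_dn x w h1; omega), mul_zero]
    have hv : v x = 0 := hg_zero hN.v_hg hx
    have hk : ∀ y, k x y = α x * z y + yv x * β y := by
      intro y
      have hle := hN.deg_le x
      have hx' : deg x = 0 ∨ deg x = 1 ∨ deg x = 3 := by omega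
      rcases hx' with h0 | h1 | h3
      · rw [hN.k0 x y h0, hg_zero hN.α_hg (x := x) (by omega),
          hg_zero hN.yv_hg (x := x) (by omega), zero_mul, zero_mul, add_zero]
      · rw [hN.k1 x y h1, hg_zero hN.yv_hg (x := x) (by omega), zero_mul, add_zero]
      · rw [hN.k3 x y h3, hg_zero hN.α_hg (x := x) (by omega), zero_mul, zero_add]
    unfold PN
    rw [Matrix.sub_apply, Matrix.add_apply, mul_ap, mul_ap]
    rcases j with y | c
    · simp only [dN_ll, dN_lt, dN_lf, dN_tl, dN_fl, kN_ll, eN_ll, eN_lt, eN_lf, eN_tl, eN_fl,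
        mul_zero, zero_mul, add_zero, zero_add, Finset.sum_const_zero, hk, sub_self]
    · cases c
      · simp only [dN_ll, dN_lt, dN_lf, dN_rr, kN_lf, eN_ll, eN_lt, eN_lf, eN_rr,
          mul_zero, zero_mul, add_zero, Finset.sum_const_zero, hda, sub_self]
      · simp only [dN_ll, dN_lt, dN_lf, dN_rr, kN_lt, eN_ll, eN_lt, eN_lf, eN_rr,
          mul_zero, zero_mul, add_zero, Finset.sum_const_zero, hv, sub_self]
  have hdeg : ∀ a b, PN d k z α yv β v w' a b ≠ 0 → degN deg a = 2 ∧ degN deg b = 2 := by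
    intro a b hab
    have h1 : degN deg a = 2 := by
      rcases a with x | c
      · by_contra hx
        exact hab (hrow x b hx)
      · rfl
    exact ⟨h1, by rw [← hzr a b hab, h1]⟩
  have hzero : dN d z yv * PN d k z α yv β v w' = 0 := by
    ext a b
    by_contra hab
    obtain ⟨u, hu1, hu2⟩ := mul_ne hab
    have e1 := g1 _ _ hu1
    have e2 := (hdeg _ _ hu2).1
    rw [hcomm] at hab
    obtain ⟨u', hu3, _⟩ := mul_ne hab
    have e3 := (hdeg _ _ hu3).1
    omega
  exact ⟨hdeg, hzero, by rw [← hcomm, hzero]⟩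

end Pool.Agent.CPD
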