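import Pool.Agent.CPD.A4a

/-!
[A4c] The cube of `kN kN - kN` is null-homotopic.
-/

set_option autoImplicit false

namespace Pool.Agent.CPD

open Matrix AN AH

theorem A4c (h2 : St_A2) (h : St_A4a) : St_A4c := by
  intro Λ W _ _ _ deg d k z α yv β v w' hN
  obtain ⟨g1, g2, g3, g4, g5⟩ := h Λ W deg d k z α yv β v w' hN
  obtain ⟨n0, nadd, nneg, nmul⟩ := h2 Λ (W ⊕ Bool) (degN deg) (dN d z yv)
  obtain ⟨η, hη, hkk⟩ := hN.idem
  obtain ⟨ηN, hηN⟩ : ∃ ηN : Matrix (W ⊕ Bool) (W ⊕ Bool) Λ, ηN = fromBlocks η 0 0 0 := ⟨_, rfl⟩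
  have e_ll : ∀ x y, ηN (Sum.inl x) (Sum.inl y) = η x y := fun x y => by rw [hηN]; rfl
  have e_lr : ∀ x b, ηN (Sum.inl x) (Sum.inr b) = 0 := fun x b => by rw [hηN]; rfl
  have e_rl : ∀ b y, ηN (Sum.inr b) (Sum.inl y) = 0 := fun b y => by rw [hηN]; rfl
  have e_rr : ∀ b c, ηN (Sum.inr b) (Sum.inr c) = 0 := fun b c => by rw [hηN]; rfl
  have ηup : Up (degN deg) ηN := by
    rintro (x | b) (y | c) hxy
    · rw [e_ll] at hxy
      exact hη x y hxy
    · exact absurd (e_lr x c) hxy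
    · exact absurd (e_rl b y) hxy
    · exact absurd (e_rr b c) hxy
  obtain ⟨χ, hχ⟩ : ∃ χ, χ = kN k v w' * kN k v w' - kN k v w' := ⟨_, rfl⟩
  obtain ⟨φ, hφ⟩ : ∃ φ, φ = χ - (ηN * dN d z yv + dN d z yv * ηN) := ⟨_, rfl⟩
  have hK : ∀ x y, ∑ w, k x w * k w y - k x y = ∑ w, η x w * d w y + ∑ w, d x w * η w y := by
    intro x y
    have := congrFun (congrFun hkk x) y
    rw [Matrix.sub_apply, Matrix.add_apply, Matrix.mul_apply, Matrix.mul_apply,
      Matrix.mul_apply] at this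
    exact this
  have φap : ∀ i j, φ i j = ((kN k v w' * kN k v w') i j - kN k v w' i j) -
      ((ηN * dN d z yv) i j + (dN d z yv * ηN) i j) := by
    intro i j
    rw [hφ, hχ]
    rfl
  have φll : ∀ x y, φ (Sum.inl x) (Sum.inl y) = 0 := by
    intro x y
    rw [φap, mul_ap, mul_ap, mul_ap]
    simp only [dN_ll, dN_lt, dN_lf, dN_tl, dN_fl, kN_ll, kN_lt, kN_lf, kN_tl, kN_fl, e_ll, e_lr,
      e_rl, mul_zero, zero_mul, add_zero, hK, sub_self]
  have φlf : ∀ i, φ i (Sum.inr false) = 0 := by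
    intro i
    rw [φap, mul_ap, mul_ap, mul_ap]
    rcases i with x | b
    · simp only [dN_lf, dN_rr, kN_lf, kN_tf, e_ll, e_lr, e_rr, mul_zero, zero_mul, add_zero,
        Finset.sum_const_zero, sub_self]
    · cases b
      · simp only [dN_lf, dN_rr, kN_lf, kN_tf, kN_ff, e_lr, e_rl, e_rr, mul_zero, zero_mul,
          add_zero, zero_add, mul_one, Finset.sum_const_zero, sub_self]
      · simp only [dN_lf, dN_rr, kN_lf, kN_tf, kN_ff, e_lr, e_rl, e_rr, mul_zero, zero_mul,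
          add_zero, Finset.sum_const_zero, sub_self]
  have φt : ∀ j, φ (Sum.inr true) j = 0 := by
    intro j
    rw [φap, mul_ap, mul_ap, mul_ap]
    simp only [dN_tl, dN_rr, kN_tl, kN_tt, kN_tf, e_rl, e_rr, zero_mul, one_mul, zero_add,
      add_zero, Finset.sum_const_zero, sub_self]
  let rk : W ⊕ Bool → ℕ := Sum.elim (fun _ => 1) (fun b => if b then 0 else 2)
  have hrk : ∀ i j, φ i j ≠ 0 → rk j + 1 ≤ rk i := by
    rintro (x | b) (y | c) hij
    · exact absurd (φll x y) hij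
    · cases c
      · exact absurd (φlf _) hij
      · exact le_refl 1
    · cases b
      · exact le_refl 2
      · exact absurd (φt _) hij
    · cases b
      · cases c
        · exact absurd (φlf _) hij
        · exact one_le_two
      · exact absurd (φt _) hij
  have φ3 : φ * φ * φ = 0 := by
    ext i j
    by_contra hij
    obtain ⟨u, hu1, hu2⟩ := mul_ne hij
    obtain ⟨u', hu3, hu4⟩ := mul_ne hu1
    have t1 := hrk _ _ hu2
    have t2 := hrk _ _ hu3
    have t3 := hrk _ _ hu4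
    have t4 : rk i ≤ 2 := by
      rcases i with x | b
      · exact one_le_two
      · cases b
        · exact le_refl 2
        · exact Nat.zero_le 2
    omega
  have χzr : Zr (degN deg) χ := by
    rw [hχ]
    exact Zr.sub (Zr.mul g3 g3) g3
  have χc : dN d z yv * χ = χ * dN d z yv := by
    rw [hχ, Matrix.mul_sub, Matrix.sub_mul, g4, ← Matrix.mul_assoc, g4, Matrix.mul_assoc, g4,
      Matrix.mul_assoc]
  have φzr : Zr (degN deg) φ := by
    rw [hφ]
    exact Zr.sub χzr (null_zr g1 ηup)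
  have φc : dN d z yv * φ = φ * dN d z yv := by
    rw [hφ, Matrix.mul_sub, Matrix.sub_mul, χc, null_comm g2]
  have nd : NullH (degN deg) (dN d z yv) (χ - φ) := by
    refine ⟨ηN, ηup, ?_⟩
    rw [hφ]
    abel
  have χχ : Zr (degN deg) (χ * χ) ∧ dN d z yv * (χ * χ) = (χ * χ) * dN d z yv :=
    ⟨Zr.mul χzr χzr, by rw [← Matrix.mul_assoc, χc, Matrix.mul_assoc, χc, Matrix.mul_assoc]⟩
  have φφ : Zr (degN deg) (φ * φ) ∧ dN d z yv * (φ * φ) = (φ * φ) * dN d z yv :=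
    ⟨Zr.mul φzr φzr, by rw [← Matrix.mul_assoc, φc, Matrix.mul_assoc, φc, Matrix.mul_assoc]⟩
  have key : (kN k v w' * kN k v w' - kN k v w') ^ 3 =
      (χ * χ) * (χ - φ) + (χ * ((χ - φ) * φ) + (χ - φ) * (φ * φ)) := by
    rw [← hχ]
    have e1 : χ ^ 3 = (χ * χ) * (χ - φ) + (χ * ((χ - φ) * φ) + (χ - φ) * (φ * φ)) +
        φ * φ * φ := by
      noncomm_ring
    rw [e1, φ3, add_zero]
  rw [key]
  exact nadd _ _ (nmul _ _ χχ.1 χχ.2 nd).2
    (nadd _ _ (nmul _ _ χzr χc (nmul _ _ φzr φc nd).1).2 (nmul _ _ φφ.1 φφ.2 nd).1)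

end Pool.Agent.CPD
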