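import Pool.Agent.CPD.StA

/-!
# CPD (A4d): block triangular trace
-/

set_option autoImplicit false

namespace Pool.Agent.CPD

open Matrix

section

variable {Λ : Type} [Ring Λ] {W : Type}

/-- triangular matrices with diagonal blocks `B`, `p`, `q` -/
private structure A4d_T (A : Matrix (W ⊕ Bool) (W ⊕ Bool) Λ) (B : Matrix W W Λ) (p q : Λ) : Prop
    where
  ww : ∀ x y, A (Sum.inl x) (Sum.inl y) = B x y
  ss : A (Sum.inr false) (Sum.inr false) = p
  tt : A (Sum.inr true) (Sum.inr true) = q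
  ws : ∀ x, A (Sum.inl x) (Sum.inr false) = 0
  tw : ∀ y, A (Sum.inr true) (Sum.inl y) = 0
  ts : A (Sum.inr true) (Sum.inr false) = 0

variable [Fintype W]

private lemma A4d_mul_apply (A A' : Matrix (W ⊕ Bool) (W ⊕ Bool) Λ) (a b : W ⊕ Bool) :
    (A * A') a b = (∑ z, A a (Sum.inl z) * A' (Sum.inl z) b) +
      (A a (Sum.inr true) * A' (Sum.inr true) b + A a (Sum.inr false) * A' (Sum.inr false) b) := by
  rw [Matrix.mul_apply, Fintype.sum_sum_type, Fintype.sum_bool]

private lemma A4d_mul {A A' : Matrix (W ⊕ Bool) (W ⊕ Bool) Λ} {B B' : Matrix W W Λ}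
    {p q p' q' : Λ} (h : A4d_T A B p q) (h' : A4d_T A' B' p' q') :
    A4d_T (A * A') (B * B') (p * p') (q * q') where
  ww x y := by
    rw [A4d_mul_apply, h.ws, h'.tw, mul_zero, zero_mul, add_zero, add_zero, Matrix.mul_apply]
    exact Finset.sum_congr rfl fun z _ => by rw [h.ww, h'.ww]
  ss := by
    rw [A4d_mul_apply, h'.ts, h.ss, h'.ss, mul_zero, zero_add,
      Finset.sum_eq_zero fun z _ => by rw [h'.ws, mul_zero], zero_add]
  tt := by
    rw [A4d_mul_apply, h.ts, h.tt, h'.tt, zero_mul, add_zero,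
      Finset.sum_eq_zero fun z _ => by rw [h.tw, zero_mul], zero_add]
  ws x := by
    rw [A4d_mul_apply, h.ws, h'.ts, mul_zero, zero_mul,
      Finset.sum_eq_zero fun z _ => by rw [h'.ws, mul_zero], zero_add, zero_add]
  tw y := by
    rw [A4d_mul_apply, h.ts, h'.tw, mul_zero, zero_mul,
      Finset.sum_eq_zero fun z _ => by rw [h.tw, zero_mul], zero_add, zero_add]
  ts := by
    rw [A4d_mul_apply, h.ts, h'.ts, mul_zero, zero_mul,
      Finset.sum_eq_zero fun z _ => by rw [h.tw, zero_mul], zero_add, zero_add]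

variable [DecidableEq W]

omit [Fintype W] in
private lemma A4d_one : A4d_T (1 : Matrix (W ⊕ Bool) (W ⊕ Bool) Λ) 1 1 1 where
  ww x y := by
    by_cases h : x = y
    · rw [h, Matrix.one_apply_eq, Matrix.one_apply_eq]
    · rw [Matrix.one_apply_ne h, Matrix.one_apply_ne fun e => h (Sum.inl_injective e)]
  ss := Matrix.one_apply_eq _
  tt := Matrix.one_apply_eq _
  ws x := Matrix.one_apply_ne (by simp)
  tw y := Matrix.one_apply_ne (by simp)
  ts := Matrix.one_apply_ne (by simp)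

omit [Fintype W] [DecidableEq W] in
private lemma A4d_sub {A A' : Matrix (W ⊕ Bool) (W ⊕ Bool) Λ} {B B' : Matrix W W Λ}
    {p q p' q' : Λ} (h : A4d_T A B p q) (h' : A4d_T A' B' p' q') :
    A4d_T (A - A') (B - B') (p - p') (q - q') where
  ww x y := by rw [Matrix.sub_apply, Matrix.sub_apply, h.ww, h'.ww]
  ss := by rw [Matrix.sub_apply, h.ss, h'.ss]
  tt := by rw [Matrix.sub_apply, h.tt, h'.tt]
  ws x := by rw [Matrix.sub_apply, h.ws, h'.ws, sub_zero]
  tw y := by rw [Matrix.sub_apply, h.tw, h'.tw, sub_zero]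
  ts := by rw [Matrix.sub_apply, h.ts, h'.ts, sub_zero]

private lemma A4d_pow {A : Matrix (W ⊕ Bool) (W ⊕ Bool) Λ} {B : Matrix W W Λ}
    {p q : Λ} (h : A4d_T A B p q) (n : ℕ) : A4d_T (A ^ n) (B ^ n) (p ^ n) (q ^ n) := by
  induction n with
  | zero =>
    rw [pow_zero, pow_zero, pow_zero, pow_zero]
    exact A4d_one
  | succ n ih =>
    rw [pow_succ, pow_succ, pow_succ, pow_succ]
    exact A4d_mul ih h

private lemma A4d_FF {A : Matrix (W ⊕ Bool) (W ⊕ Bool) Λ} {B : Matrix W W Λ}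
    {p q : Λ} (h : A4d_T A B p q) : A4d_T (FF A) (FF B) (FF p) (FF q) :=
  A4d_sub A4d_one (A4d_pow (A4d_sub A4d_one (A4d_pow h 5)) 5)

omit [Fintype W] in
private lemma A4d_kN (k : Matrix W W Λ) (v w' : W → Λ) : A4d_T (kN k v w') k 1 1 where
  ww x y := rfl
  ss := by simp [kN]
  tt := by simp [kN]
  ws x := by simp [kN]
  tw y := by simp [kN]
  ts := by simp [kN]

end

theorem A4d : St_A4d := by
  intro Λ A W _ _ _ _ t deg k v w'
  have h := A4d_FF (A4d_kN k v w')
  have h1 : FF (1 : Λ) = 1 := by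
    simp [FF]
  rw [h1] at h
  unfold str
  rw [Fintype.sum_sum_type, Fintype.sum_bool, h.ss, h.tt]
  have h2 : ∀ b : Bool, ((-1 : ℤ) ^ degN deg (Sum.inr b)) • t 1 = t 1 := by
    intro b
    have h3 : degN deg (Sum.inr b) = 2 := rfl
    rw [h3]
    simp
  rw [h2, h2, two_nsmul]
  congr 1
  refine Finset.sum_congr rfl fun x _ => ?_
  rw [h.ww]
  rfl

end Pool.Agent.CPD
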