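import Pool.Agent.CPD.StA

/-!
# [A5] From the normal form to an explicit cycle
-/

set_option autoImplicit false

namespace Pool.Agent.CPD

open Matrix

section A5poly

variable {R : Type} [Ring R]

private theorem A5_n5 (x : R) : (Polynomial.aeval x) (5 : Polynomial ℤ) = (5 : R) :=
  map_ofNat (Polynomial.aeval x) 5

private theorem A5_n10 (x : R) : (Polynomial.aeval x) (10 : Polynomial ℤ) = (10 : R) :=
  map_ofNat (Polynomial.aeval x) 10

private theorem A5_id1 (x : R) : 1 - (1 - x ^ 5) ^ 5 =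
    x ^ 5 * (5 - 10 * x ^ 5 + 10 * x ^ 10 - 5 * x ^ 15 + x ^ 20) := by
  have h : (1 - (1 - (Polynomial.X : Polynomial ℤ) ^ 5) ^ 5) =
      Polynomial.X ^ 5 * (5 - 10 * Polynomial.X ^ 5 + 10 * Polynomial.X ^ 10 -
        5 * Polynomial.X ^ 15 + Polynomial.X ^ 20) := by ring
  have h2 := congrArg (Polynomial.aeval x) h
  simpa [A5_n5, A5_n10] using h2

private theorem A5_id2 (x : R) : (1 - x ^ 5) ^ 5 =
    (1 - x) ^ 5 * (1 + x + x ^ 2 + x ^ 3 + x ^ 4) ^ 5 := by
  have h : (1 - (Polynomial.X : Polynomial ℤ) ^ 5) ^ 5 =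
      (1 - Polynomial.X) ^ 5 *
        (1 + Polynomial.X + Polynomial.X ^ 2 + Polynomial.X ^ 3 + Polynomial.X ^ 4) ^ 5 := by ring
  have h2 := congrArg (Polynomial.aeval x) h
  simpa using h2

private theorem A5_id3 (x : R) : x ^ 5 * (1 - x) ^ 5 = - (x * x - x) ^ 5 := by
  have h : (Polynomial.X : Polynomial ℤ) ^ 5 * (1 - Polynomial.X) ^ 5 =
      - (Polynomial.X * Polynomial.X - Polynomial.X) ^ 5 := by ring
  have h2 := congrArg (Polynomial.aeval x) h
  simpa using h2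

private theorem A5_id4 (x : R) : FF x * FF x - FF x =
    - (x ^ 5 * (1 - x) ^ 5 * ((1 + x + x ^ 2 + x ^ 3 + x ^ 4) ^ 5 *
      (5 - 10 * x ^ 5 + 10 * x ^ 10 - 5 * x ^ 15 + x ^ 20))) := by
  have h : (1 - (1 - (Polynomial.X : Polynomial ℤ) ^ 5) ^ 5) *
      (1 - (1 - (Polynomial.X : Polynomial ℤ) ^ 5) ^ 5) -
      (1 - (1 - (Polynomial.X : Polynomial ℤ) ^ 5) ^ 5) =
      - (Polynomial.X ^ 5 * (1 - Polynomial.X) ^ 5 *
        ((1 + Polynomial.X + Polynomial.X ^ 2 + Polynomial.X ^ 3 + Polynomial.X ^ 4) ^ 5 *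
      (5 - 10 * Polynomial.X ^ 5 + 10 * Polynomial.X ^ 10 -
        5 * Polynomial.X ^ 15 + Polynomial.X ^ 20))) := by ring
  have h2 := congrArg (Polynomial.aeval x) h
  simpa [FF, A5_n5, A5_n10] using h2

private theorem A5_id5 (x : R) : FF x - x = 5 • (x ^ 5 - x) - 10 • (x ^ 10 - x) +
    10 • (x ^ 15 - x) - 5 • (x ^ 20 - x) + (x ^ 25 - x) := by
  have h : (1 - (1 - (Polynomial.X : Polynomial ℤ) ^ 5) ^ 5) - Polynomial.X =
      5 * (Polynomial.X ^ 5 - Polynomial.X) - 10 * (Polynomial.X ^ 10 - Polynomial.X) +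
      10 * (Polynomial.X ^ 15 - Polynomial.X) - 5 * (Polynomial.X ^ 20 - Polynomial.X) +
      (Polynomial.X ^ 25 - Polynomial.X) := by ring
  have h2 := congrArg (Polynomial.aeval x) h
  simpa [FF, nsmul_eq_mul, A5_n5, A5_n10] using h2

end A5poly

section A5null

variable {Λ W : Type} [Ring Λ] [Fintype W] [DecidableEq W]

/-- chain maps of degree `0` -/
private structure A5C (deg : W → ℕ) (d B : Matrix W W Λ) : Prop where
  zr : Zr deg B
  cm : d * B = B * d

private theorem A5_zr_mul {deg : W → ℕ} {A B : Matrix W W Λ} (hA : Zr deg A) (hB : Zr deg B) :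
    Zr deg (A * B) := by
  intro x y h
  rw [Matrix.mul_apply] at h
  obtain ⟨c, -, hc⟩ := Finset.exists_ne_zero_of_sum_ne_zero h
  have h1 : A x c ≠ 0 := fun h0 => hc (by rw [h0, zero_mul])
  have h2 : B c y ≠ 0 := fun h0 => hc (by rw [h0, mul_zero])
  rw [hA x c h1, hB c y h2]

private theorem A5C.mul {deg : W → ℕ} {d A B : Matrix W W Λ} (hA : A5C deg d A)
    (hB : A5C deg d B) : A5C deg d (A * B) :=
  ⟨A5_zr_mul hA.zr hB.zr, by rw [← mul_assoc, hA.cm, mul_assoc, hB.cm, mul_assoc]⟩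

private theorem A5C.one {deg : W → ℕ} {d : Matrix W W Λ} : A5C deg d 1 :=
  ⟨by
    intro x y h
    by_contra hne
    exact h (Matrix.one_apply_ne (fun h => hne (by rw [h]))), by rw [mul_one, one_mul]⟩

private theorem A5C.sub {deg : W → ℕ} {d A B : Matrix W W Λ} (hA : A5C deg d A)
    (hB : A5C deg d B) : A5C deg d (A - B) :=
  ⟨by
    intro x y h
    by_contra hne
    apply h
    have h1 : A x y = 0 := by_contra fun h0 => hne (hA.zr x y h0)
    have h2 : B x y = 0 := by_contra fun h0 => hne (hB.zr x y h0)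
    rw [Matrix.sub_apply, h1, h2, sub_zero], by rw [mul_sub, sub_mul, hA.cm, hB.cm]⟩

private theorem A5C.pow {deg : W → ℕ} {d A : Matrix W W Λ} (hA : A5C deg d A) (n : ℕ) :
    A5C deg d (A ^ n) := by
  induction n with
  | zero => rw [pow_zero]; exact A5C.one
  | succ n ih => rw [pow_succ]; exact ih.mul hA

/-- null-homotopic matrices -/
private def A5I (h2 : St_A2) (deg : W → ℕ) (d : Matrix W W Λ) : AddSubgroup (Matrix W W Λ) where
  carrier := {M | NullH deg d M}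
  zero_mem' := (h2 Λ W deg d).1
  add_mem' := fun {a b} ha hb => (h2 Λ W deg d).2.1 a b ha hb
  neg_mem' := fun {a} ha => (h2 Λ W deg d).2.2.1 a ha

private theorem A5I_mul_right (h2 : St_A2) {deg : W → ℕ} {d M B : Matrix W W Λ}
    (hM : M ∈ A5I h2 deg d) (hB : A5C deg d B) : M * B ∈ A5I h2 deg d :=
  ((h2 Λ W deg d).2.2.2 M B hB.zr hB.cm hM).1

private theorem A5I_mul_left (h2 : St_A2) {deg : W → ℕ} {d M B : Matrix W W Λ}
    (hM : M ∈ A5I h2 deg d) (hB : A5C deg d B) : B * M ∈ A5I h2 deg d :=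
  ((h2 Λ W deg d).2.2.2 M B hB.zr hB.cm hM).2

private theorem A5I_mul (h2 : St_A2) {deg : W → ℕ} {d A B A' B' : Matrix W W Λ}
    (h : A - B ∈ A5I h2 deg d) (h' : A' - B' ∈ A5I h2 deg d) (hB : A5C deg d B)
    (hA' : A5C deg d A') : A * A' - B * B' ∈ A5I h2 deg d := by
  have e : A * A' - B * B' = (A - B) * A' + B * (A' - B') := by
    rw [sub_mul, mul_sub]; abel
  rw [e]
  exact add_mem (A5I_mul_right h2 h hA') (A5I_mul_left h2 h' hB)

private theorem A5I_pow (h2 : St_A2) {deg : W → ℕ} {d A B : Matrix W W Λ}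
    (h : A - B ∈ A5I h2 deg d) (hA : A5C deg d A) (hB : A5C deg d B) (n : ℕ) :
    A ^ n - B ^ n ∈ A5I h2 deg d := by
  induction n with
  | zero => rw [pow_zero, pow_zero, sub_self]; exact zero_mem _
  | succ n ih =>
    rw [pow_succ, pow_succ]
    exact A5I_mul h2 ih h (hB.pow n) hA

private theorem A5I_idem (h2 : St_A2) {deg : W → ℕ} {d A : Matrix W W Λ}
    (h : A * A - A ∈ A5I h2 deg d) (hA : A5C deg d A) (n : ℕ) :
    A ^ (n + 1) - A ∈ A5I h2 deg d := by
  induction n with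
  | zero => rw [zero_add, pow_one, sub_self]; exact zero_mem _
  | succ n ih =>
    have e : A ^ (n + 1 + 1) - A = (A ^ (n + 1) - A) * A + (A * A - A) := by
      rw [pow_succ, sub_mul]; abel
    rw [e]
    exact add_mem (A5I_mul_right h2 ih hA) h

private theorem A5I_FF_sub (h2 : St_A2) {deg : W → ℕ} {d A : Matrix W W Λ}
    (h : A * A - A ∈ A5I h2 deg d) (hA : A5C deg d A) : FF A - A ∈ A5I h2 deg d := by
  rw [A5_id5]
  exact add_mem (sub_mem (add_mem (sub_mem (nsmul_mem (A5I_idem h2 h hA 4) 5)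
    (nsmul_mem (A5I_idem h2 h hA 9) 10)) (nsmul_mem (A5I_idem h2 h hA 14) 10))
    (nsmul_mem (A5I_idem h2 h hA 19) 5)) (A5I_idem h2 h hA 24)

private theorem A5I_FF (h2 : St_A2) {deg : W → ℕ} {d A B : Matrix W W Λ}
    (h : A - B ∈ A5I h2 deg d) (hA : A5C deg d A) (hB : A5C deg d B) :
    FF A - FF B ∈ A5I h2 deg d := by
  have h5 := A5I_pow h2 h hA hB 5
  have h6 : (1 - A ^ 5) - (1 - B ^ 5) ∈ A5I h2 deg d := by
    have e : (1 - A ^ 5) - (1 - B ^ 5) = -(A ^ 5 - B ^ 5) := by abel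
    rw [e]
    exact neg_mem h5
  have h7 := A5I_pow h2 h6 (A5C.one.sub (hA.pow 5)) (A5C.one.sub (hB.pow 5)) 5
  have e : FF A - FF B = -((1 - A ^ 5) ^ 5 - (1 - B ^ 5) ^ 5) := by
    unfold FF; abel
  rw [e]
  exact neg_mem h7

private theorem A5_str_sub (t : Λ →+ ℤ) (deg : W → ℕ) (M N : Matrix W W Λ) :
    str t deg (M - N) = str t deg M - str t deg N := by
  unfold str
  rw [← Finset.sum_sub_distrib]
  refine Finset.sum_congr rfl fun x _ => ?_
  rw [Matrix.sub_apply, map_sub, smul_sub]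

private theorem A5_str_eq (h1 : St_A1) (h2 : St_A2) (t : Λ →+ ℤ)
    (ht : ∀ a b, t (a * b) = t (b * a)) {deg : W → ℕ} {d M N : Matrix W W Λ} (hd : Dn deg d)
    (h : M - N ∈ A5I h2 deg d) : str t deg M = str t deg N := by
  have h3 := h1 Λ ℤ W t deg d (M - N) ht hd h
  rw [A5_str_sub] at h3
  linarith

end A5null

theorem A5 (h1 : St_A1) (h2 : St_A2) (ha : St_A4a) (hb : St_A4b) (hc : St_A4c) (hd : St_A4d) :
    St_A5 := by
  intro Λ W _ _ _ t deg d k z α yv β v w' ht ht1 hidem hNF hstr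
  obtain ⟨a1, a2, a3, a4, a5⟩ := ha Λ W deg d k z α yv β v w' hNF
  obtain ⟨b1, b2, b3⟩ := hb Λ W deg d k z α yv β v w' hNF
  have c1 := hc Λ W deg d k z α yv β v w' hNF
  have d1 := hd Λ ℤ W t deg k v w'
  set D := dN d z yv with hD
  set K := kN k v w' with hK
  set P := PN d k z α yv β v w' with hP
  set dg := degN deg with hdg
  have hPK : P - K ∈ A5I h2 dg D := by
    have e : P - K = -(eN α β * D + D * eN α β) := by
      rw [hP, PN]
      abel
    rw [e]
    apply neg_mem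
    exact ⟨eN α β, a5, rfl⟩
  have hPC : A5C dg D P := ⟨fun x y h => by rw [(b1 x y h).1, (b1 x y h).2], by rw [b2, b3]⟩
  have hKC : A5C dg D K := ⟨a3, a4⟩
  -- the matrix Q
  obtain ⟨Q, hQ⟩ : ∃ Q, Q = P * P - P := ⟨_, rfl⟩
  have hQK : Q - (K * K - K) ∈ A5I h2 dg D := by
    have e : Q - (K * K - K) = (P * P - K * K) - (P - K) := by
      rw [hQ]; abel
    rw [e]
    exact sub_mem (A5I_mul h2 hPK hPK hKC hPC) hPK
  have hQC : A5C dg D Q := by
    rw [hQ]
    exact (hPC.mul hPC).sub hPC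
  have hQ3 : Q ^ 3 ∈ A5I h2 dg D := by
    have h3 := A5I_pow h2 hQK hQC ((hKC.mul hKC).sub hKC) 3
    have e : Q ^ 3 = (Q ^ 3 - (K * K - K) ^ 3) + (K * K - K) ^ 3 := by abel
    rw [e]
    exact add_mem h3 c1
  have hDQ : D * Q = 0 := by
    rw [hQ, mul_sub, ← mul_assoc, b2, zero_mul, sub_zero]
  have hQD : Q * D = 0 := by
    rw [hQ, sub_mul, mul_assoc, b3, mul_zero, sub_zero]
  have hQ5 : Q ^ 5 = 0 := by
    obtain ⟨ξ, -, hξ⟩ := hQ3
    have e : Q ^ 5 = Q * Q ^ 3 * Q := by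
      rw [← pow_succ', ← pow_succ]
    rw [e, hξ, mul_add, add_mul]
    have e1 : Q * (ξ * D) * Q = Q * ξ * (D * Q) := by
      simp only [mul_assoc]
    have e2 : Q * (D * ξ) * Q = (Q * D) * ξ * Q := by
      simp only [mul_assoc]
    rw [e1, e2, hDQ, hQD, mul_zero, zero_mul, zero_mul, add_zero]
  have hP5 : P ^ 5 * (1 - P) ^ 5 = 0 := by
    rw [A5_id3, ← hQ, hQ5, neg_zero]
  have hqq : FF P * FF P = FF P := by
    have h3 := A5_id4 P
    rw [hP5, zero_mul, neg_zero] at h3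
    exact sub_eq_zero.1 h3
  have hqdeg : ∀ x y, FF P x y ≠ 0 → dg x = 2 := by
    intro x y h
    have e : FF P = P * (P ^ 4 * (5 - 10 * P ^ 5 + 10 * P ^ 10 - 5 * P ^ 15 + P ^ 20)) := by
      rw [← mul_assoc, ← pow_succ', ← A5_id1]
      rfl
    rw [e, Matrix.mul_apply] at h
    obtain ⟨c, -, hc⟩ := Finset.exists_ne_zero_of_sum_ne_zero h
    have h4 : P x c ≠ 0 := fun h0 => hc (by rw [h0, zero_mul])
    exact (b1 x c h4).1
  have hkC : A5C deg d k := ⟨hNF.k_zr, hNF.kd⟩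
  have hstr0 : str t dg (FF P) = 0 := by
    rw [A5_str_eq h1 h2 t ht a1 (A5I_FF h2 hPK hPC hKC), d1,
      A5_str_eq h1 h2 t ht hNF.d_dn (A5I_FF_sub h2 (d := d) hNF.idem hkC), hstr, ht1]
    norm_num
  have hsum : ∑ x, t (FF P x x) = 0 := by
    rw [← hstr0]
    unfold str
    refine Finset.sum_congr rfl fun x _ => ?_
    by_cases h : FF P x x = 0
    · rw [h, map_zero, smul_zero]
    · rw [hqdeg x x h]
      norm_num
  have hq0 : FF P = 0 := hidem (W ⊕ Bool) (FF P) hqq hsum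
  have hone : (1 - P ^ 5) ^ 5 = 1 := by
    have h3 : 1 - (1 - P ^ 5) ^ 5 = 0 := hq0
    exact (sub_eq_zero.1 h3).symm
  have hP50 : P ^ 5 = 0 := by
    calc P ^ 5 = P ^ 5 * (1 - P ^ 5) ^ 5 := by rw [hone, mul_one]
      _ = (P ^ 5 * (1 - P) ^ 5) * (1 + P + P ^ 2 + P ^ 3 + P ^ 4) ^ 5 := by
          rw [A5_id2, mul_assoc]
      _ = 0 := by rw [hP5, zero_mul]
  have hK5 : K ^ 5 ∈ A5I h2 dg D := by
    have h3 := A5I_pow h2 hPK hPC hKC 5
    rw [hP50, zero_sub] at h3
    have h4 := neg_mem h3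
    rwa [neg_neg] at h4
  obtain ⟨ξ, hξ1, hξ⟩ := hK5
  -- the row t
  have hKrow : ∀ b, K (Sum.inr true) b = (1 : Matrix (W ⊕ Bool) (W ⊕ Bool) Λ) (Sum.inr true) b := by
    intro b
    rcases b with y | b
    · rw [Matrix.one_apply_ne (by simp)]
      simp [hK, kN, fromBlocks]
    · simp [hK, kN, fromBlocks, Matrix.one_apply]
  have hKn : ∀ n : ℕ, ∀ b, (K ^ n) (Sum.inr true) b =
      (1 : Matrix (W ⊕ Bool) (W ⊕ Bool) Λ) (Sum.inr true) b := by
    intro n
    induction n with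
    | zero => intro b; rw [pow_zero]
    | succ n ih =>
      intro b
      rw [pow_succ, Matrix.mul_apply]
      rw [Finset.sum_eq_single (Sum.inr true)]
      · rw [ih, Matrix.one_apply_eq, one_mul, hKrow]
      · intro c _ hc
        rw [ih, Matrix.one_apply_ne (Ne.symm hc), zero_mul]
      · intro h
        exact absurd (Finset.mem_univ _) h
  have hDrow : ∀ b, D (Sum.inr true) b = 0 := by
    intro b
    rcases b with y | b
    · simp [hD, dN, fromBlocks]
    · simp [hD, dN, fromBlocks]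
  have hrow : ∀ b, ∑ y, ξ (Sum.inr true) (Sum.inl y) * D (Sum.inl y) b =
      (1 : Matrix (W ⊕ Bool) (W ⊕ Bool) Λ) (Sum.inr true) b := by
    intro b
    rw [← hKn 5 b, hξ, Matrix.add_apply, Matrix.mul_apply, Matrix.mul_apply]
    have e1 : ∑ j, D (Sum.inr true) j * ξ j b = 0 := by
      apply Finset.sum_eq_zero
      intro j _
      rw [hDrow, zero_mul]
    rw [e1, add_zero, Fintype.sum_sum_type]
    have e2 : ∑ x : Bool, ξ (Sum.inr true) (Sum.inr x) * D (Sum.inr x) b = 0 := by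
      apply Finset.sum_eq_zero
      intro x _
      have h3 : ξ (Sum.inr true) (Sum.inr x) = 0 := by
        by_contra h0
        have := hξ1 _ _ h0
        simp [hdg, degN] at this
      rw [h3, zero_mul]
    rw [e2, add_zero]
  refine ⟨fun y => ξ (Sum.inr true) (Sum.inl y), ?_, ?_, ?_⟩
  · intro y hy
    have := hξ1 _ _ hy
    simpa [hdg, degN] using this
  · funext y
    have h3 := hrow (Sum.inl y)
    rw [Matrix.one_apply_ne (by simp)] at h3
    have h4 : ∀ x, D (Sum.inl x) (Sum.inl y) = d x y := fun x => by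
      simp [hD, dN, fromBlocks]
    simp only [h4] at h3
    exact h3
  · have h3 := hrow (Sum.inr true)
    rw [Matrix.one_apply_eq] at h3
    have h4 : ∀ x, D (Sum.inl x) (Sum.inr true) = yv x := fun x => by
      simp [hD, dN, fromBlocks]
    simp only [h4] at h3
    exact h3

end Pool.Agent.CPD
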