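import Pool.Agent.CPD.StA

/-!
Auxiliary facts on graded matrices (for A1 - A4c).
-/

set_option autoImplicit false

namespace Pool.Agent.CPD.AH

open Matrix Pool.Agent.CPD

variable {Λ : Type} [Ring Λ] {W : Type} {deg : W → ℕ}

lemma Up.add {A B : Matrix W W Λ} (hA : Up deg A) (hB : Up deg B) : Up deg (A + B) := by
  intro x y h
  by_cases h1 : A x y = 0
  · apply hB
    intro h2
    exact h (by rw [Matrix.add_apply, h1, h2, add_zero])
  · exact hA x y h1

lemma Up.neg {A : Matrix W W Λ} (hA : Up deg A) : Up deg (-A) := by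
  intro x y h
  apply hA
  intro h1
  exact h (by rw [Matrix.neg_apply, h1, neg_zero])

lemma Zr.add {A B : Matrix W W Λ} (hA : Zr deg A) (hB : Zr deg B) : Zr deg (A + B) := by
  intro x y h
  by_cases h1 : A x y = 0
  · apply hB
    intro h2
    exact h (by rw [Matrix.add_apply, h1, h2, add_zero])
  · exact hA x y h1

lemma Zr.neg {A : Matrix W W Λ} (hA : Zr deg A) : Zr deg (-A) := by
  intro x y h
  apply hA
  intro h1
  exact h (by rw [Matrix.neg_apply, h1, neg_zero])

lemma Zr.sub {A B : Matrix W W Λ} (hA : Zr deg A) (hB : Zr deg B) : Zr deg (A - B) := by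
  rw [sub_eq_add_neg]
  exact Zr.add hA (Zr.neg hB)

variable [Fintype W]

lemma mul_ne {A B : Matrix W W Λ} {x y : W} (h : (A * B) x y ≠ 0) :
    ∃ u, A x u ≠ 0 ∧ B u y ≠ 0 := by
  rw [Matrix.mul_apply] at h
  obtain ⟨u, _, hu⟩ := Finset.exists_ne_zero_of_sum_ne_zero h
  exact ⟨u, left_ne_zero_of_mul hu, right_ne_zero_of_mul hu⟩

lemma Up.mul_zr {A B : Matrix W W Λ} (hA : Up deg A) (hB : Zr deg B) : Up deg (A * B) := by
  intro x y h
  obtain ⟨u, h1, h2⟩ := mul_ne h
  rw [← hB _ _ h2, hA _ _ h1]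

lemma Zr.mul_up {A B : Matrix W W Λ} (hA : Zr deg A) (hB : Up deg B) : Up deg (A * B) := by
  intro x y h
  obtain ⟨u, h1, h2⟩ := mul_ne h
  rw [hB _ _ h2, hA _ _ h1]

lemma Zr.mul {A B : Matrix W W Λ} (hA : Zr deg A) (hB : Zr deg B) : Zr deg (A * B) := by
  intro x y h
  obtain ⟨u, h1, h2⟩ := mul_ne h
  rw [hA _ _ h1, hB _ _ h2]

lemma Up.mul_dn {A B : Matrix W W Λ} (hA : Up deg A) (hB : Dn deg B) : Zr deg (A * B) := by
  intro x y h
  obtain ⟨u, h1, h2⟩ := mul_ne h
  have h3 := hA _ _ h1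
  have h4 := hB _ _ h2
  omega

lemma Dn.mul_up {A B : Matrix W W Λ} (hA : Dn deg A) (hB : Up deg B) : Zr deg (A * B) := by
  intro x y h
  obtain ⟨u, h1, h2⟩ := mul_ne h
  have h3 := hA _ _ h1
  have h4 := hB _ _ h2
  omega

lemma null_zr {d e : Matrix W W Λ} (hd : Dn deg d) (he : Up deg e) : Zr deg (e * d + d * e) :=
  Zr.add (Up.mul_dn he hd) (Dn.mul_up hd he)

/-- the null-homotopic matrices are chain maps -/
lemma null_comm {d e : Matrix W W Λ} (dd : d * d = 0) :
    d * (e * d + d * e) = (e * d + d * e) * d := by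
  rw [Matrix.mul_add, Matrix.add_mul, ← Matrix.mul_assoc d d e, dd, Matrix.zero_mul, add_zero,
    Matrix.mul_assoc e d d, dd, Matrix.mul_zero, zero_add, Matrix.mul_assoc]

/-- the part of degree `n` of a vector -/
def pr (deg : W → ℕ) (n : ℕ) (v : W → Λ) : W → Λ := fun x => if deg x = n then v x else 0

lemma pr_hg (n : ℕ) (v : W → Λ) : Hg deg n (pr deg n v) := by
  intro x h
  by_contra h1
  exact h (by unfold pr; rw [if_neg h1])

lemma pr_of_hg {n : ℕ} {v : W → Λ} (h : Hg deg n v) : pr deg n v = v := by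
  funext x
  unfold pr
  by_cases h1 : deg x = n
  · rw [if_pos h1]
  · rw [if_neg h1]
    by_contra h2
    exact h1 (h x (fun h3 => h2 h3.symm))

lemma hg_zero {n : ℕ} {v : W → Λ} (h : Hg deg n v) {x : W} (hx : deg x ≠ n) : v x = 0 := by
  by_contra h1
  exact hx (h x h1)

lemma pr_vecMul_dn {d : Matrix W W Λ} (hd : Dn deg d) (n : ℕ) (y : W → Λ) :
    pr deg (n + 1) y ᵥ* d = pr deg n (y ᵥ* d) := by
  funext w
  have h0 : ∀ x, pr deg (n + 1) y x * d x w = if deg w = n then y x * d x w else 0 := by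
    intro x
    unfold pr
    by_cases h1 : d x w = 0
    · rw [h1, mul_zero, mul_zero, ite_self]
    · have h2 := hd _ _ h1
      by_cases hw : deg w = n
      · rw [if_pos hw, if_pos (by omega)]
      · rw [if_neg hw, if_neg (by omega), zero_mul]
  have h1 : (pr deg (n + 1) y ᵥ* d) w = ∑ x, pr deg (n + 1) y x * d x w := rfl
  have h2 : (pr deg n (y ᵥ* d)) w = if deg w = n then ∑ x, y x * d x w else 0 := rfl
  rw [h1, h2, Finset.sum_congr rfl fun x _ => h0 x]
  by_cases hw : deg w = n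
  · simp only [if_pos hw]
  · simp only [if_neg hw, Finset.sum_const_zero]

lemma pr_mulVec_dn {d : Matrix W W Λ} (hd : Dn deg d) (n : ℕ) (y : W → Λ) :
    d *ᵥ pr deg n y = pr deg (n + 1) (d *ᵥ y) := by
  funext w
  have h0 : ∀ x, d w x * pr deg n y x = if deg w = n + 1 then d w x * y x else 0 := by
    intro x
    unfold pr
    by_cases h1 : d w x = 0
    · rw [h1, zero_mul, zero_mul, ite_self]
    · have h2 := hd _ _ h1
      by_cases hw : deg w = n + 1
      · rw [if_pos hw, if_pos (by omega)]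
      · rw [if_neg hw, if_neg (by omega), mul_zero]
  have h1 : (d *ᵥ pr deg n y) w = ∑ x, d w x * pr deg n y x := rfl
  have h2 : (pr deg (n + 1) (d *ᵥ y)) w = if deg w = n + 1 then ∑ x, d w x * y x else 0 := rfl
  rw [h1, h2, Finset.sum_congr rfl fun x _ => h0 x]
  by_cases hw : deg w = n + 1
  · simp only [if_pos hw]
  · simp only [if_neg hw, Finset.sum_const_zero]

end Pool.Agent.CPD.AH
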