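import Pool.Agent.CPD.AutDefs

/-!
# Automatic groups have bounded combings with a departure function
-/

set_option autoImplicit false

namespace Pool.Agent.CPD

variable {G : Type} [Group G] {n : ℕ}

theorem value_append (f : Fin n → G) (u v : List (Fin n × Bool)) :
    value f (u ++ v) = value f u * value f v := by
  unfold value
  rw [List.map_append, List.prod_append]

theorem value_nil (f : Fin n → G) : value f [] = 1 := rfl

theorem value_single (f : Fin n → G) (a : Fin n × Bool) : value f [a] = letter f a := by
  unfold value
  rw [List.map_singleton, List.prod_singleton]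

theorem wlen_le (f : Fin n → G) (w : List (Fin n × Bool)) : wlen f (value f w) ≤ w.length :=
  Nat.sInf_le ⟨w, rfl, rfl⟩

theorem exists_word (f : Fin n → G) (hf : Function.Surjective (FreeGroup.lift f)) (g : G) :
    ∃ w : List (Fin n × Bool), value f w = g := by
  obtain ⟨x, hx⟩ := hf g
  refine ⟨x.toWord, ?_⟩
  rw [← hx]
  conv_rhs => rw [← FreeGroup.mk_toWord (x := x)]
  rw [FreeGroup.lift_mk]
  unfold value
  congr 1
  apply List.map_congr_left
  intro a _
  unfold letter
  cases a.2 <;> rfl

theorem exists_min_word (f : Fin n → G) (hf : Function.Surjective (FreeGroup.lift f)) (g : G) :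
    ∃ w : List (Fin n × Bool), w.length = wlen f g ∧ value f w = g := by
  obtain ⟨w, hw⟩ := exists_word f hf g
  exact Nat.sInf_mem (s := {k | ∃ w : List (Fin n × Bool), w.length = k ∧ value f w = g})
    ⟨w.length, w, rfl, hw⟩

theorem ball_finite (f : Fin n → G) (hf : Function.Surjective (FreeGroup.lift f)) (R : ℕ) :
    {g : G | wlen f g ≤ R}.Finite := by
  have h1 : {w : List (Fin n × Bool) | w.length ≤ R}.Finite := List.finite_length_le _ R
  refine (h1.image (value f)).subset ?_
  intro g hg
  obtain ⟨w, hw1, hw2⟩ := exists_min_word f hf g
  exact ⟨w, by rw [Set.mem_ofPred_eq, hw1]; exact hg, hw2⟩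

theorem AUT (G : Type) [Group G] (h : Automatic G) : Combable G := by
  classical
  obtain ⟨n, f, L, k, hf, ⟨S, hS, M, hM⟩, hsur, hfel⟩ := h
  -- shortest representatives in the language
  have hmin : ∀ x : G, ∃ w : List (Fin n × Bool), w ∈ L ∧ value f w = x ∧
      ∀ w' ∈ L, value f w' = x → w.length ≤ w'.length := by
    intro x
    obtain ⟨w0, hw0, hv0⟩ := hsur x
    have hne : ∃ l : ℕ, ∃ w ∈ L, value f w = x ∧ w.length = l := ⟨_, w0, hw0, hv0, rfl⟩
    obtain ⟨w, hw, hv, hl⟩ := Nat.find_spec hne
    refine ⟨w, hw, hv, fun w' hw' hv' => ?_⟩
    rw [hl]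
    exact Nat.find_min' hne ⟨w', hw', hv', rfl⟩
  choose W hWL hWv hWm using hmin
  refine ⟨n, f, fun x j => value f ((W x).take j), fun x => (W x).length, hf, ?_⟩
  refine ⟨?_, ?_, ?_, ?_, ?_⟩
  · intro x
    simp only [List.take_zero]
    exact value_nil f
  · intro x j hj
    rw [List.take_of_length_le hj]
    exact hWv x
  · intro x j
    rcases Nat.lt_or_ge j (W x).length with hj | hj
    · rw [List.take_succ_eq_append_getElem hj, value_append, inv_mul_cancel_left]
      exact wlen_le f _
    · rw [List.take_of_length_le hj, List.take_of_length_le (by omega), inv_mul_cancel]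
      have := wlen_le f ([] : List (Fin n × Bool))
      rw [value_nil] at this
      simp only [List.length_nil] at this
      omega
  · refine ⟨k, fun x a j => ?_⟩
    apply hfel _ (hWL _) _ (hWL _)
    rw [hWv, hWv, inv_mul_cancel_left, ← value_single]
    exact wlen_le f _
  · intro R
    -- the finite set of triples
    have hB := ball_finite f hf R
    let B : Finset G := hB.toFinset
    let P : S × S × G → Prop := fun q => ∃ v : List (Fin n × Bool),
      M.evalFrom q.1 v = q.2.1 ∧ value f v = q.2.2
    let ln : S × S × G → ℕ := fun q =>
      if hq : P q then hq.choose.length else 0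
    refine ⟨((Finset.univ : Finset S) ×ˢ (Finset.univ : Finset S) ×ˢ B).sup ln, ?_⟩
    intro x i j hij hj hR
    set w := W x with hw
    let u := w.take i
    let v := (w.take j).drop i
    let t := w.drop j
    have huv : u ++ v = w.take j := by
      have h1 : (w.take j).take i = w.take i := by
        rw [List.take_take, min_eq_left hij]
      show w.take i ++ (w.take j).drop i = w.take j
      rw [← h1]
      exact List.take_append_drop i (w.take j)
    have hwt : u ++ v ++ t = w := by
      rw [huv]
      exact List.take_append_drop j w
    have hvlen : v.length = j - i := by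
      show ((w.take j).drop i).length = j - i
      rw [List.length_drop, List.length_take, min_eq_left hj]
    have hval : (value f (w.take i))⁻¹ * value f (w.take j) = value f v := by
      rw [← huv, value_append]
      exact inv_mul_cancel_left _ _
    rw [hval] at hR
    let q : S × S × G := (M.eval u, M.eval (u ++ v), value f v)
    have hP : P q := by
      refine ⟨v, ?_, rfl⟩
      show M.evalFrom (M.evalFrom M.start u) v = M.evalFrom M.start (u ++ v)
      rw [DFA.evalFrom_of_append]
    obtain ⟨hv1, hv2⟩ := hP.choose_spec
    set v' := hP.choose with hv'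
    have hL' : u ++ v' ++ t ∈ L := by
      rw [← hM]
      show M.evalFrom M.start (u ++ v' ++ t) ∈ M.accept
      rw [DFA.evalFrom_of_append, DFA.evalFrom_of_append]
      have h1 : M.evalFrom (M.evalFrom M.start u) v' = M.evalFrom M.start (u ++ v) := hv1
      rw [h1, ← DFA.evalFrom_of_append, hwt]
      have h2 : w ∈ L := hWL x
      rw [← hM] at h2
      exact h2
    have hval' : value f (u ++ v' ++ t) = x := by
      rw [value_append, value_append, hv2]
      show value f u * value f v * value f t = x
      rw [← value_append, ← value_append, hwt]
      exact hWv x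
    have hle := hWm x _ hL' hval'
    have hle2 : v.length ≤ v'.length := by
      have h1 : w.length = u.length + v.length + t.length := by
        conv_lhs => rw [← hwt]
        rw [List.length_append, List.length_append]
      rw [← hw] at hle
      rw [h1, List.length_append, List.length_append] at hle
      omega
    have hq : q ∈ (Finset.univ : Finset S) ×ˢ (Finset.univ : Finset S) ×ˢ B := by
      rw [Finset.mem_product, Finset.mem_product]
      refine ⟨Finset.mem_univ _, Finset.mem_univ _, ?_⟩
      rw [Set.Finite.mem_toFinset]
      exact hR
    have hln : ln q = v'.length := by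
      show (if hq : P q then hq.choose.length else 0) = _
      rw [dif_pos hP]
    calc j - i = v.length := hvlen.symm
      _ ≤ v'.length := hle2
      _ = ln q := hln.symm
      _ ≤ _ := Finset.le_sup (f := ln) hq

end Pool.Agent.CPD
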