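import Mathlib

/-!
# Combable PD₃-groups : finite complexes in matrix form

Row convention: a row vector `x` is mapped to `x ᵥ* d`; the composite (first `A`, then `B`) is
`A * B`. Everything is a total complex: one index type `W` with a degree.
-/

set_option autoImplicit false

namespace Pool.Agent.CPD

open Matrix

section

variable {Λ : Type} [Ring Λ] {W : Type}

/-- `A` raises the degree by one. -/
def Up (deg : W → ℕ) (A : Matrix W W Λ) : Prop := ∀ x y, A x y ≠ 0 → deg y = deg x + 1

/-- `A` lowers the degree by one. -/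
def Dn (deg : W → ℕ) (A : Matrix W W Λ) : Prop := ∀ x y, A x y ≠ 0 → deg x = deg y + 1

/-- `A` preserves the degree. -/
def Zr (deg : W → ℕ) (A : Matrix W W Λ) : Prop := ∀ x y, A x y ≠ 0 → deg x = deg y

/-- The vector `v` is concentrated in degree `n`. -/
def Hg (deg : W → ℕ) (n : ℕ) (v : W → Λ) : Prop := ∀ x, v x ≠ 0 → deg x = n

variable [Fintype W]

/-- `A` is null-homotopic. -/
def NullH (deg : W → ℕ) (d A : Matrix W W Λ) : Prop := ∃ e, Up deg e ∧ A = e * d + d * e

/-- The alternating trace. -/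
def str {A : Type} [AddCommGroup A] (tr : Λ →+ A) (deg : W → ℕ) (M : Matrix W W Λ) : A :=
  ∑ x, ((-1 : ℤ) ^ deg x) • tr (M x x)

/-- The polynomial `1 - (1 - X⁵)⁵`. -/
def FF {R : Type} [Ring R] (x : R) : R := 1 - (1 - x ^ 5) ^ 5

variable [DecidableEq W]

/-- The data of a homotopy idempotent of a finite free complex of length three whose image in
homology vanishes in degree `0`, is cyclic in degree `1` (generator `z`) and whose dual image is
cyclic in degree `3` (generator `yv`), in normal form. -/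
structure NF (deg : W → ℕ) (d k : Matrix W W Λ) (z α yv β v w' : W → Λ) : Prop where
  deg_le : ∀ x, deg x ≤ 3
  d_dn : Dn deg d
  dd : d * d = 0
  k_zr : Zr deg k
  kd : d * k = k * d
  idem : NullH deg d (k * k - k)
  k0 : ∀ x y, deg x = 0 → k x y = 0
  k1 : ∀ x y, deg x = 1 → k x y = α x * z y
  k3 : ∀ x y, deg x = 3 → k x y = yv x * β y
  z_hg : Hg deg 1 z
  α_hg : Hg deg 1 α
  yv_hg : Hg deg 3 yv
  β_hg : Hg deg 3 β
  v_hg : Hg deg 2 v
  w_hg : Hg deg 2 w'
  zd : z ᵥ* d = 0
  az : ∀ y, (z ⬝ᵥ α) * z y - z y = (w' ᵥ* d) y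
  yb : ∀ x, yv x * (β ⬝ᵥ yv) - yv x = (d *ᵥ v) x

/-- The degrees of the enlarged complex: two new generators `s = inr false`, `t = inr true` of
degree two. -/
def degN (deg : W → ℕ) : W ⊕ Bool → ℕ := Sum.elim deg (fun _ => 2)

/-- The differential of the enlarged complex: `s ↦ z`, `x ↦ x d + yv(x) t`, `t ↦ 0`. -/
def dN (d : Matrix W W Λ) (z yv : W → Λ) : Matrix (W ⊕ Bool) (W ⊕ Bool) Λ :=
  fromBlocks d (Matrix.of fun x b => if b then yv x else 0)
    (Matrix.of fun b y => if b then 0 else z y) 0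

/-- The extended endomorphism: `x ↦ x k + v(x) t`, `s ↦ s + w'`, `t ↦ t`. -/
def kN (k : Matrix W W Λ) (v w' : W → Λ) : Matrix (W ⊕ Bool) (W ⊕ Bool) Λ :=
  fromBlocks k (Matrix.of fun x b => if b then v x else 0)
    (Matrix.of fun b y => if b then 0 else w' y) 1

/-- The homotopy `x ↦ α(x) s`, `t ↦ β`. -/
def eN (α β : W → Λ) : Matrix (W ⊕ Bool) (W ⊕ Bool) Λ :=
  fromBlocks 0 (Matrix.of fun x b => if b then 0 else α x)
    (Matrix.of fun b y => if b then β y else 0) 0

/-- The endomorphism homotopic to `kN` which is concentrated in degree two. -/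
def PN (d k : Matrix W W Λ) (z α yv β v w' : W → Λ) : Matrix (W ⊕ Bool) (W ⊕ Bool) Λ :=
  kN k v w' - (eN α β * dN d z yv + dN d z yv * eN α β)

end

end Pool.Agent.CPD
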