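import Pool.Agent.CPD.StD

/-!
# [D0] Elementary facts on words
-/

set_option autoImplicit false

namespace Pool.Agent.CPD

section WordsD0

variable {G α : Type} [Group G]

theorem d0_value_append (f : α → G) (u v : List (α × Bool)) :
    value f (u ++ v) = value f u * value f v := by
  simp only [value, List.map_append, List.prod_append]

theorem d0_value_nil (f : α → G) : value f [] = 1 := by
  simp only [value, List.map_nil, List.prod_nil]

theorem d0_value_cons (f : α → G) (a : α × Bool) (v : List (α × Bool)) :
    value f (a :: v) = letter f a * value f v := by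
  simp only [value, List.map_cons, List.prod_cons]

theorem d0_letter_inv (f : α → G) (a : α × Bool) :
    letter f (a.1, !a.2) = (letter f a)⁻¹ := by
  obtain ⟨x, b⟩ := a
  cases b <;> simp [letter]

/-- Formal inverse of a word. -/
def winvD0 (w : List (α × Bool)) : List (α × Bool) := (w.map (fun a => (a.1, !a.2))).reverse

theorem winvD0_nil : winvD0 ([] : List (α × Bool)) = [] := rfl

theorem winvD0_cons (a : α × Bool) (w : List (α × Bool)) :
    winvD0 (a :: w) = winvD0 w ++ [(a.1, !a.2)] := by
  simp [winvD0]

theorem winvD0_concat (a : α × Bool) (w : List (α × Bool)) :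
    winvD0 (w ++ [a]) = (a.1, !a.2) :: winvD0 w := by
  simp [winvD0]

theorem winvD0_winvD0 (w : List (α × Bool)) : winvD0 (winvD0 w) = w := by
  induction w with
  | nil => rfl
  | cons a w ih => rw [winvD0_cons, winvD0_concat, ih, Bool.not_not]

theorem d0_value_winv (f : α → G) (w : List (α × Bool)) :
    value f (winvD0 w) = (value f w)⁻¹ := by
  induction w with
  | nil => rw [winvD0_nil, d0_value_nil, inv_one]
  | cons a w ih =>
    rw [winvD0_cons, d0_value_append, ih, d0_value_cons, d0_value_cons, d0_value_nil, mul_one,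
      d0_letter_inv, mul_inv_rev]

theorem d0_avoids_nil (f : α → G) (K : Set G) (g : G) : Avoids f K g [] ↔ g ∉ K := by
  constructor
  · intro h
    have := h 0 (Nat.zero_le _)
    rwa [List.take_nil, d0_value_nil, mul_one] at this
  · intro h n _
    rwa [List.take_nil, d0_value_nil, mul_one]

theorem d0_avoids_cons (f : α → G) (K : Set G) (g : G) (a : α × Bool) (w : List (α × Bool)) :
    Avoids f K g (a :: w) ↔ g ∉ K ∧ Avoids f K (g * letter f a) w := by
  constructor
  · intro h
    refine ⟨?_, ?_⟩
    · have := h 0 (Nat.zero_le _)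
      rwa [List.take_zero, d0_value_nil, mul_one] at this
    · intro n hn
      have := h (n + 1) (by simpa using hn)
      rwa [List.take_succ_cons, d0_value_cons, ← mul_assoc] at this
  · rintro ⟨h0, h1⟩ n hn
    cases n with
    | zero => rwa [List.take_zero, d0_value_nil, mul_one]
    | succ n =>
      rw [List.take_succ_cons, d0_value_cons, ← mul_assoc]
      exact h1 n (by simpa using hn)

theorem d0_avoids_start (f : α → G) (K : Set G) (g : G) (w : List (α × Bool))
    (h : Avoids f K g w) : g ∉ K := by
  have := h 0 (Nat.zero_le _)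
  rwa [List.take_zero, d0_value_nil, mul_one] at this

theorem d0_avoids_append (f : α → G) (K : Set G) (g : G) (u v : List (α × Bool)) :
    Avoids f K g (u ++ v) ↔ Avoids f K g u ∧ Avoids f K (g * value f u) v := by
  induction u generalizing g with
  | nil =>
    rw [List.nil_append, d0_value_nil, mul_one, d0_avoids_nil]
    exact ⟨fun h => ⟨d0_avoids_start f K g v h, h⟩, fun h => h.2⟩
  | cons a u ih =>
    rw [List.cons_append, d0_avoids_cons, ih, d0_avoids_cons, d0_value_cons, ← mul_assoc, and_assoc]

theorem d0_avoids_winv_aux (f : α → G) (K : Set G) (g : G) (w : List (α × Bool))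
    (h : Avoids f K g w) : Avoids f K (g * value f w) (winvD0 w) := by
  induction w generalizing g with
  | nil => rwa [winvD0_nil, d0_value_nil, mul_one]
  | cons a w ih =>
    rw [d0_avoids_cons] at h
    rw [winvD0_cons, d0_avoids_append, d0_value_cons, ← mul_assoc]
    refine ⟨ih _ h.2, ?_⟩
    rw [d0_value_winv, mul_inv_cancel_right, d0_avoids_cons, d0_avoids_nil, d0_letter_inv,
      mul_inv_cancel_right]
    exact ⟨d0_avoids_start f K _ w h.2, h.1⟩

theorem d0_avoids_winv (f : α → G) (K : Set G) (g : G) (w : List (α × Bool)) :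
    Avoids f K g w ↔ Avoids f K (g * value f w) (winvD0 w) := by
  constructor
  · exact d0_avoids_winv_aux f K g w
  · intro h
    have := d0_avoids_winv_aux f K _ _ h
    rwa [winvD0_winvD0, d0_value_winv, mul_inv_cancel_right] at this

theorem d0_hol_append {π : Type} [Group π] (f : α → G) (τ : G → (α × Bool) → π) (g : G)
    (u v : List (α × Bool)) :
    hol f τ g (u ++ v) = hol f τ g u * hol f τ (g * value f u) v := by
  induction u generalizing g with
  | nil => rw [List.nil_append, d0_value_nil, mul_one, hol, one_mul]
  | cons a u ih =>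
    rw [List.cons_append, hol, ih, hol, d0_value_cons, ← mul_assoc, ← mul_assoc]

theorem d0_insert (f : α → G) (R : Set (List (α × Bool))) (K : Set G) (g : G)
    (u w v : List (α × Bool)) (huv : Avoids f K g (u ++ v))
    (hw : Avoids f K (g * value f u) w) :
    Relation.EqvGen (Move f R K g) (u ++ w ++ winvD0 w ++ v) (u ++ v) := by
  induction w using List.reverseRecOn with
  | nil => simpa [winvD0_nil] using Relation.EqvGen.refl (r := Move f R K g) (u ++ v)
  | append_singleton w a ih =>
    have hw' := (d0_avoids_append f K _ w [a]).1 hw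
    have h1 := ih hw'.1
    have hav : Avoids f K g ((u ++ w) ++ (a.1, a.2) :: (a.1, !a.2) :: (winvD0 w ++ v)) := by
      have e : (u ++ w) ++ (a.1, a.2) :: (a.1, !a.2) :: (winvD0 w ++ v)
          = u ++ ((w ++ [a]) ++ (winvD0 (w ++ [a]) ++ v)) := by
        rw [winvD0_concat]
        simp
      have huv' := (d0_avoids_append f K g u v).1 huv
      have h3 : Avoids f K (g * value f u * value f (w ++ [a])) (winvD0 (w ++ [a]) ++ v) := by
        rw [d0_avoids_append]
        refine ⟨d0_avoids_winv_aux f K _ _ hw, ?_⟩
        rw [d0_value_winv, mul_inv_cancel_right]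
        exact huv'.2
      rw [e]
      exact (d0_avoids_append f K g u _).2 ⟨huv'.1, (d0_avoids_append f K _ (w ++ [a]) _).2 ⟨hw, h3⟩⟩
    have h2 := Move.back (R := R) (u ++ w) (winvD0 w ++ v) a.1 a.2 hav
    have e1 : u ++ (w ++ [a]) ++ winvD0 (w ++ [a]) ++ v
        = (u ++ w) ++ (a.1, a.2) :: (a.1, !a.2) :: (winvD0 w ++ v) := by
      rw [winvD0_concat]
      simp
    have e2 : u ++ w ++ (winvD0 w ++ v) = u ++ w ++ winvD0 w ++ v := by
      simp
    rw [e1]
    rw [e2] at h2
    exact Relation.EqvGen.trans _ _ _ (Relation.EqvGen.symm _ _ (Relation.EqvGen.rel _ _ h2)) h1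

end WordsD0

theorem D0 : St_D0 := by
  intro G α _ f
  exact ⟨d0_value_append f, d0_value_winv f, d0_avoids_append f, d0_avoids_winv f,
    fun π _ τ g u v => d0_hol_append f τ g u v, fun R K g u w v => d0_insert f R K g u w v⟩

end Pool.Agent.CPD
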