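import Pool.Agent.CPD.StD

/-!
# Combable PD₃-groups : homotopies in a context
-/

set_option autoImplicit false

namespace Pool.Agent.CPD

private theorem D1_letter_inv {G α : Type} [Group G] (f : α → G) (a : α) (b : Bool) :
    letter f (a, b) * letter f (a, !b) = 1 := by
  cases b <;> simp [letter]

/-- Two words with the same value can be exchanged in a word which avoids `K`. -/
private theorem D1_ctx {G α : Type} [Group G] {f : α → G} (h0 : St_D0) {K : Set G} {g : G}
    {u w w' v : List (α × Bool)} (hv : value f w = value f w')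
    (hw : Avoids f K (g * value f u) w → Avoids f K (g * value f u) w')
    (h : Avoids f K g (u ++ w ++ v)) : Avoids f K g (u ++ w' ++ v) := by
  obtain ⟨h1, -, h3, -⟩ := h0 G α f
  rw [h3, h3, h1] at h ⊢
  obtain ⟨⟨ha, hb⟩, hc⟩ := h
  exact ⟨⟨ha, hw hb⟩, by rw [← hv]; exact hc⟩

private theorem D1_nil {G α : Type} [Group G] {f : α → G} {K : Set G} {g : G}
    {w : List (α × Bool)} (h : Avoids f K g w) : Avoids f K g [] := by
  intro n _
  have h1 := h 0 (Nat.zero_le _)
  simpa using h1

/-- Deleting a piece with value `1`. -/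
private theorem D1_del {G α : Type} [Group G] {f : α → G} (h0 : St_D0) {K : Set G} {g : G}
    {u r v : List (α × Bool)} (hr : value f r = 1) (h : Avoids f K g (u ++ r ++ v)) :
    Avoids f K g (u ++ v) := by
  have h1 := D1_ctx (w' := []) h0 (by rw [hr]; rfl) D1_nil h
  simpa using h1

/-- A move does not change the value, and both sides avoid `K`. -/
private theorem D1_move {G α : Type} [Group G] {f : α → G} (h0 : St_D0)
    {R : Set (List (α × Bool))} (hR : ∀ r ∈ R, value f r = 1) {K : Set G} {g : G}
    {w w' : List (α × Bool)} (h : Move f R K g w w') :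
    value f w = value f w' ∧ Avoids f K g w ∧ Avoids f K g w' := by
  have h1 := (h0 G α f).1
  cases h with
  | back u v a b h =>
    have e : u ++ (a, b) :: (a, !b) :: v = u ++ [(a, b), (a, !b)] ++ v := by simp
    have h2 : value f [(a, b), (a, !b)] = 1 := by
      simp only [value, List.map_cons, List.map_nil, List.prod_cons, List.prod_nil, mul_one]
      exact D1_letter_inv f a b
    rw [e] at h ⊢
    refine ⟨?_, D1_del h0 h2 h, h⟩
    rw [h1, h1, h1, h2, mul_one]
  | rel u r v hr h =>
    refine ⟨?_, D1_del h0 (hR r hr) h, h⟩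
    rw [h1, h1, h1, hR r hr, mul_one]

/-- The classes of `EqvGen Move`: value and avoidance are constant. -/
private theorem D1_eqv {G α : Type} [Group G] {f : α → G} (h0 : St_D0)
    {R : Set (List (α × Bool))} (hR : ∀ r ∈ R, value f r = 1) {K : Set G} {g : G}
    {w w' : List (α × Bool)} (h : Relation.EqvGen (Move f R K g) w w') :
    value f w = value f w' ∧ (Avoids f K g w ↔ Avoids f K g w') := by
  induction h with
  | rel x y h =>
    obtain ⟨h1, h2, h3⟩ := D1_move h0 hR h
    exact ⟨h1, ⟨fun _ => h3, fun _ => h2⟩⟩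
  | refl x => exact ⟨rfl, Iff.rfl⟩
  | symm x y _ ih => exact ⟨ih.1.symm, ih.2.symm⟩
  | trans x y z _ _ ih1 ih2 => exact ⟨ih1.1.trans ih2.1, ih1.2.trans ih2.2⟩

theorem D1 (h0 : St_D0) : St_D1 := by
  intro G α _ f R hR
  refine ⟨fun K g w w' h => D1_eqv h0 hR h, ?_⟩
  intro K g u w w' v hav h
  induction h with
  | rel x y h =>
    obtain ⟨h1, h2, h3⟩ := D1_move h0 hR h
    have h4 : Avoids f K g (u ++ y ++ v) := D1_ctx h0 h1 (fun _ => h3) hav
    apply Relation.EqvGen.rel
    cases h with
    | back p q a b h =>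
      have e1 : u ++ (p ++ q) ++ v = (u ++ p) ++ (q ++ v) := by simp
      have e2 : u ++ (p ++ (a, b) :: (a, !b) :: q) ++ v =
          (u ++ p) ++ (a, b) :: (a, !b) :: (q ++ v) := by simp
      rw [e2] at h4
      rw [e1, e2]
      exact Move.back _ _ a b h4
    | rel p r q hr h =>
      have e1 : u ++ (p ++ q) ++ v = (u ++ p) ++ (q ++ v) := by simp
      have e2 : u ++ (p ++ r ++ q) ++ v = (u ++ p) ++ r ++ (q ++ v) := by simp
      rw [e2] at h4
      rw [e1, e2]
      exact Move.rel _ r _ hr h4
  | refl x => exact Relation.EqvGen.refl _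
  | symm x y hxy ih =>
    have h1 := D1_eqv h0 hR hxy
    exact (ih (D1_ctx h0 h1.1.symm h1.2.2 hav)).symm
  | trans x y z hxy _ ih1 ih2 =>
    have h1 := D1_eqv h0 hR hxy
    exact (ih1 hav).trans _ _ _ (ih2 (D1_ctx h0 h1.1 h1.2.1 hav))

end Pool.Agent.CPD
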