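import Pool.Agent.CPD.StD

/-!
# The edge group (statement and proof: helper24; Lean: helper15)
-/

set_option autoImplicit false

namespace Pool.Agent.CPD

private theorem D2_value_nil {G α : Type} [Group G] (f : α → G) : value f [] = 1 := rfl

/-- the monoid of the closed paths at `g`, modulo homotopy -/
private theorem D2_mon (h0 : St_D0) (h1 : St_D1) {G α : Type} [Group G] (f : α → G)
    (R : Set (List (α × Bool))) (K : Set G) (hR : ∀ r ∈ R, value f r = 1) (g : G) (hg : g ∉ K) :
    ∃ (Q : Type) (_ : Monoid Q) (cls : List (α × Bool) → Q), cls [] = 1 ∧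
      (∀ w w', (value f w = 1 ∧ Avoids f K g w) → (value f w' = 1 ∧ Avoids f K g w') →
        cls (w ++ w') = cls w * cls w') ∧
      (∀ w w', (value f w = 1 ∧ Avoids f K g w) → (value f w' = 1 ∧ Avoids f K g w') →
        (cls w = cls w' ↔ Relation.EqvGen (Move f R K g) w w')) := by
  classical
  obtain ⟨v1, -, a1, -, -, -⟩ := h0 G α f
  obtain ⟨-, c2⟩ := h1 G α f R hR
  have hnil : value f ([] : List (α × Bool)) = 1 ∧ Avoids f K g [] := by
    refine ⟨rfl, ?_⟩
    intro n _
    rw [List.take_nil, D2_value_nil, mul_one]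
    exact hg
  have happ : ∀ w w' : List (α × Bool), (value f w = 1 ∧ Avoids f K g w) →
      (value f w' = 1 ∧ Avoids f K g w') →
      (value f (w ++ w') = 1 ∧ Avoids f K g (w ++ w')) := by
    intro w w' hw hw'
    refine ⟨by rw [v1, hw.1, hw'.1, mul_one], (a1 K g w w').2 ⟨hw.2, ?_⟩⟩
    rw [hw.1, mul_one]
    exact hw'.2
  let S : Submonoid (FreeMonoid (α × Bool)) :=
    { carrier := {w | value f (FreeMonoid.toList w) = 1 ∧ Avoids f K g (FreeMonoid.toList w)}
      mul_mem' := by
        intro a b ha hb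
        exact happ _ _ ha hb
      one_mem' := hnil }
  let c : Con S :=
    { r := fun x y => Relation.EqvGen (Move f R K g) (FreeMonoid.toList x.1)
        (FreeMonoid.toList y.1)
      iseqv := ⟨fun x => Relation.EqvGen.refl _, fun h => Relation.EqvGen.symm _ _ h,
        fun h h' => Relation.EqvGen.trans _ _ _ h h'⟩
      mul' := by
        intro w x y z h h'
        have e1 := c2 K g [] (FreeMonoid.toList w.1) (FreeMonoid.toList x.1)
          (FreeMonoid.toList y.1) (by
            rw [List.nil_append]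
            exact (happ _ _ w.2 y.2).2) (by
            rw [D2_value_nil, mul_one]
            exact h)
        have e2 := c2 K g (FreeMonoid.toList x.1) (FreeMonoid.toList y.1)
          (FreeMonoid.toList z.1) [] (by
            rw [List.append_nil]
            exact (happ _ _ x.2 y.2).2) (by
            rw [x.2.1, mul_one]
            exact h')
        rw [List.nil_append, List.nil_append] at e1
        rw [List.append_nil, List.append_nil] at e2
        exact Relation.EqvGen.trans _ _ _ e1 e2 }
  have hS : ∀ w : List (α × Bool), (value f w = 1 ∧ Avoids f K g w) →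
      FreeMonoid.ofList w ∈ S := fun w h => h
  refine ⟨c.Quotient, inferInstance, fun w =>
    if h : FreeMonoid.ofList w ∈ S then ((⟨FreeMonoid.ofList w, h⟩ : S) : c.Quotient)
    else 1, ?_, ?_, ?_⟩
  · show (if h : FreeMonoid.ofList [] ∈ S then ((⟨FreeMonoid.ofList [], h⟩ : S) : c.Quotient)
      else 1) = 1
    rw [dif_pos (hS [] hnil)]
    rfl
  · intro w w' hw hw'
    show (if h : FreeMonoid.ofList (w ++ w') ∈ S then
        ((⟨FreeMonoid.ofList (w ++ w'), h⟩ : S) : c.Quotient) else 1) =
      (if h : FreeMonoid.ofList w ∈ S then ((⟨FreeMonoid.ofList w, h⟩ : S) : c.Quotient)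
        else 1) *
      (if h : FreeMonoid.ofList w' ∈ S then ((⟨FreeMonoid.ofList w', h⟩ : S) : c.Quotient)
        else 1)
    rw [dif_pos (hS w hw), dif_pos (hS w' hw'), dif_pos (hS _ (happ w w' hw hw'))]
    rfl
  · intro w w' hw hw'
    show (if h : FreeMonoid.ofList w ∈ S then ((⟨FreeMonoid.ofList w, h⟩ : S) : c.Quotient)
        else 1) =
      (if h : FreeMonoid.ofList w' ∈ S then ((⟨FreeMonoid.ofList w', h⟩ : S) : c.Quotient)
        else 1) ↔ _
    rw [dif_pos (hS w hw), dif_pos (hS w' hw'), Con.eq]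
    rfl

private theorem D2_letter {G α : Type} [Group G] (f : α → G) (a : α × Bool) :
    letter f (a.1, !a.2) = (letter f a)⁻¹ := by
  obtain ⟨a, b⟩ := a
  cases b
  · show f a = ((f a)⁻¹)⁻¹
    rw [inv_inv]
  · rfl

private theorem D2_value_one {G α : Type} [Group G] (f : α → G) (a : α × Bool) :
    value f [a] = letter f a := by
  unfold value
  rw [List.map_cons, List.map_nil, List.prod_cons, List.prod_nil, mul_one]

private theorem D2_av0 {G α : Type} [Group G] (f : α → G) (K : Set G) (g : G)
    (w : List (α × Bool)) (h : Avoids f K g w) : g ∉ K := by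
  have h1 := h 0 (Nat.zero_le _)
  rwa [List.take_zero, D2_value_nil, mul_one] at h1

private theorem D2_av1 {G α : Type} [Group G] (f : α → G) (K : Set G) (g : G)
    (w : List (α × Bool)) (h : Avoids f K g w) : g * value f w ∉ K := by
  have h1 := h w.length le_rfl
  rwa [List.take_length] at h1

private theorem D2_avnil {G α : Type} [Group G] (f : α → G) (K : Set G) (g : G)
    (h : g ∉ K) : Avoids f K g [] := by
  intro n _
  rw [List.take_nil, D2_value_nil, mul_one]
  exact h

private theorem D2_avone {G α : Type} [Group G] (f : α → G) (K : Set G) (g : G)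
    (a : α × Bool) (h : g ∉ K) (h' : g * letter f a ∉ K) : Avoids f K g [a] := by
  intro n hn
  rw [List.length_singleton] at hn
  rcases Nat.le_one_iff_eq_zero_or_eq_one.1 hn with rfl | rfl
  · rw [List.take_zero, D2_value_nil, mul_one]
    exact h
  · have e : List.take 1 [a] = [a] := rfl
    rw [e, D2_value_one]
    exact h'

private theorem D2_one (h0 : St_D0) (h1 : St_D1) {G α : Type} [Group G] (f : α → G)
    (R : Set (List (α × Bool))) (K : Set G) (hR : ∀ r ∈ R, value f r = 1) (g : G) (hg : g ∉ K) :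
    ∃ (π : Type) (_ : Group π) (τ : G → (α × Bool) → π), IsLabel f R K τ ∧
      ∀ w : List (α × Bool), value f w = 1 → Avoids f K g w → hol f τ g w = 1 →
        Relation.EqvGen (Move f R K g) w [] := by
  classical
  obtain ⟨v1, v2, a1, a2, -, m1⟩ := h0 G α f
  obtain ⟨Q, _, cls, q1, qm, qe⟩ := D2_mon h0 h1 f R K hR g hg
  have hii : ∀ w : List (α × Bool), (((w.map (fun a => (a.1, !a.2))).reverse).map
      (fun a => (a.1, !a.2))).reverse = w := by
    intro w
    rw [List.map_reverse, List.reverse_reverse, List.map_map]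
    have e : ((fun a : α × Bool => (a.1, !a.2)) ∘ fun a : α × Bool => (a.1, !a.2)) = id := by
      funext a
      show (a.1, !!a.2) = a
      rw [Bool.not_not]
    rw [e, List.map_id]
  obtain ⟨Re, hRe⟩ : ∃ Re : G → Prop, ∀ v, Re v ↔ ∃ c, Avoids f K g c ∧ g * value f c = v :=
    ⟨fun v => ∃ c, Avoids f K g c ∧ g * value f c = v, fun v => Iff.rfl⟩
  obtain ⟨cw, cw1, cw2⟩ : ∃ cw : G → List (α × Bool), cw g = [] ∧
      ∀ v, Re v → Avoids f K g (cw v) ∧ g * value f (cw v) = v := by
    refine ⟨fun v => if h : v = g then [] else if h : Re v then ((hRe v).1 h).choose else [],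
      dif_pos rfl, ?_⟩
    intro v hv
    by_cases h : v = g
    · subst h
      simp only [dif_pos]
      exact ⟨D2_avnil f K v hg, mul_one _⟩
    · simp only [dif_neg h, dif_pos hv]
      exact ((hRe v).1 hv).choose_spec
  have hReg : Re g := (hRe g).2 ⟨[], D2_avnil f K g hg, mul_one _⟩
  have hReK : ∀ v, Re v → v ∉ K := by
    intro v hv
    obtain ⟨c, hc, rfl⟩ := (hRe v).1 hv
    exact D2_av1 f K g c hc
  have hReE : ∀ v u, Re v → Avoids f K v u → Re (v * value f u) := by
    intro v u hv hu
    obtain ⟨c, hc, rfl⟩ := (hRe v).1 hv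
    exact (hRe _).2 ⟨c ++ u, (a1 K g c u).2 ⟨hc, hu⟩, by rw [v1, mul_assoc]⟩
  -- loops
  obtain ⟨lp, hlp⟩ : ∃ lp : G → List (α × Bool) → List (α × Bool), ∀ v u, lp v u =
      cw v ++ u ++ ((cw (v * value f u)).map (fun a => (a.1, !a.2))).reverse :=
    ⟨fun v u => cw v ++ u ++ ((cw (v * value f u)).map (fun a => (a.1, !a.2))).reverse,
      fun v u => rfl⟩
  have lpI : ∀ v u, Re v → Avoids f K v u → (value f (lp v u) = 1 ∧ Avoids f K g (lp v u)) := by
    intro v u hv hu
    obtain ⟨x1, x2⟩ := cw2 v hv
    obtain ⟨y1, y2⟩ := cw2 (v * value f u) (hReE v u hv hu)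
    rw [hlp]
    constructor
    · rw [v1, v1, v2]
      have e1 : value f (cw v) = g⁻¹ * v := by rw [← x2, inv_mul_cancel_left, x2]
      have e2 : value f (cw (v * value f u)) = g⁻¹ * (v * value f u) := by
        rw [eq_inv_mul_iff_mul_eq]
        exact y2
      rw [e1, e2, mul_assoc g⁻¹ v, mul_inv_cancel]
    · rw [a1, a1]
      refine ⟨⟨x1, ?_⟩, ?_⟩
      · rw [x2]
        exact hu
      · rw [v1, ← mul_assoc, x2]
        have h := (a2 K g (cw (v * value f u))).1 y1
        rwa [y2] at h
  have lpM : ∀ v u u', Re v → Avoids f K v (u ++ u') →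
      cls (lp v (u ++ u')) = cls (lp v u) * cls (lp (v * value f u) u') := by
    intro v u u' hv hu
    obtain ⟨hu1, hu2⟩ := (a1 K v u u').1 hu
    have hv' := hReE v u hv hu1
    obtain ⟨x1, x2⟩ := cw2 v hv
    obtain ⟨y1, y2⟩ := cw2 (v * value f u) hv'
    have i1 := lpI v u hv hu1
    have i2 := lpI (v * value f u) u' hv' hu2
    have i3 := lpI v (u ++ u') hv hu
    rw [← qm _ _ i1 i2]
    have hcat : value f (lp v u ++ lp (v * value f u) u') = 1 ∧
        Avoids f K g (lp v u ++ lp (v * value f u) u') := by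
      refine ⟨by rw [v1, i1.1, i2.1, mul_one], (a1 K g _ _).2 ⟨i1.2, ?_⟩⟩
      rw [i1.1, mul_one]
      exact i2.2
    refine (qe _ _ i3 hcat).2 ?_
    have e3 : lp v (u ++ u') = (cw v ++ u) ++
        (u' ++ ((cw (v * value f u * value f u')).map (fun a => (a.1, !a.2))).reverse) := by
      rw [hlp, v1, ← mul_assoc]
      simp only [List.append_assoc]
    have h := m1 R K g (cw v ++ u) (((cw (v * value f u)).map (fun a => (a.1, !a.2))).reverse)
      (u' ++ ((cw (v * value f u * value f u')).map (fun a => (a.1, !a.2))).reverse)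
      (by rw [← e3]; exact i3.2)
      (by
        rw [v1, ← mul_assoc, x2]
        have h := (a2 K g (cw (v * value f u))).1 y1
        rwa [y2] at h)
    rw [hii] at h
    have e4 : lp v u ++ lp (v * value f u) u' = (cw v ++ u) ++
        ((cw (v * value f u)).map (fun a => (a.1, !a.2))).reverse ++ cw (v * value f u) ++
        (u' ++ ((cw (v * value f u * value f u')).map (fun a => (a.1, !a.2))).reverse) := by
      rw [hlp, hlp]
      simp only [List.append_assoc]
    rw [e3, e4]
    exact Relation.EqvGen.symm _ _ h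
  have lp1 : ∀ v, Re v → cls (lp v []) = 1 := by
    intro v hv
    obtain ⟨x1, x2⟩ := cw2 v hv
    rw [← q1]
    refine (qe _ _ (lpI v [] hv (D2_avnil f K v (hReK v hv))) ⟨rfl, D2_avnil f K g hg⟩).2 ?_
    have h := m1 R K g [] (cw v) [] (D2_avnil f K g hg)
      (by rw [D2_value_nil, mul_one]; exact x1)
    rw [hlp, D2_value_nil, mul_one]
    simpa using h
  have lpc : ∀ v r, Re v → Avoids f K v r → r ∈ R → cls (lp v r) = 1 := by
    intro v r hv hr hrR
    have i1 := lpI v r hv hr
    rw [← lp1 v hv]
    refine (qe _ _ i1 (lpI v [] hv (D2_avnil f K v (hReK v hv)))).2 ?_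
    have e1 : lp v r = cw v ++ r ++ ((cw v).map (fun a => (a.1, !a.2))).reverse := by
      rw [hlp, hR r hrR, mul_one]
    have e2 : lp v [] = cw v ++ ((cw v).map (fun a => (a.1, !a.2))).reverse := by
      rw [hlp, D2_value_nil, mul_one, List.append_nil]
    rw [e1, e2]
    refine Relation.EqvGen.symm _ _ (Relation.EqvGen.rel _ _ (Move.rel _ r _ hrR ?_))
    rw [← e1]
    exact i1.2
  have lpb : ∀ v a b, Re v → v * letter f (a, b) ∉ K → cls (lp v [(a, b), (a, !b)]) = 1 := by
    intro v a b hv hva
    have hlet : letter f (a, !b) = (letter f (a, b))⁻¹ := D2_letter f (a, b)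
    have hval : value f [(a, b), (a, !b)] = 1 := by
      have h := v1 [(a, b)] [(a, !b)]
      rw [D2_value_one, D2_value_one, hlet, mul_inv_cancel] at h
      exact h
    have hav : Avoids f K v [(a, b), (a, !b)] := by
      refine (a1 K v [(a, b)] [(a, !b)]).2 ⟨D2_avone f K v _ (hReK v hv) hva, ?_⟩
      rw [D2_value_one]
      refine D2_avone f K _ _ hva ?_
      rw [hlet, mul_inv_cancel_right]
      exact hReK v hv
    have i1 := lpI v _ hv hav
    rw [← lp1 v hv]
    refine (qe _ _ i1 (lpI v [] hv (D2_avnil f K v (hReK v hv)))).2 ?_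
    have e1 : lp v [(a, b), (a, !b)] = cw v ++ (a, b) :: (a, !b) ::
        ((cw v).map (fun a => (a.1, !a.2))).reverse := by
      rw [hlp, hval, mul_one]
      simp
    have e2 : lp v [] = cw v ++ ((cw v).map (fun a => (a.1, !a.2))).reverse := by
      rw [hlp, D2_value_nil, mul_one, List.append_nil]
    rw [e1, e2]
    refine Relation.EqvGen.symm _ _ (Relation.EqvGen.rel _ _ (Move.back _ _ a b ?_))
    rw [← e1]
    exact i1.2
  -- the labels
  have hav2 : ∀ v (a : α × Bool), Re v → v * letter f a ∉ K →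
      Avoids f K v ([a] ++ [(a.1, !a.2)]) := by
    intro v a hv hva
    refine (a1 K v [a] _).2 ⟨D2_avone f K v _ (hReK v hv) hva, ?_⟩
    rw [D2_value_one]
    refine D2_avone f K _ _ hva ?_
    rw [D2_letter, mul_inv_cancel_right]
    exact hReK v hv
  have hun1 : ∀ v (a : α × Bool), Re v → v * letter f a ∉ K →
      cls (lp v [a]) * cls (lp (v * letter f a) [(a.1, !a.2)]) = 1 := by
    intro v a hv hva
    have h := lpM v [a] [(a.1, !a.2)] hv (hav2 v a hv hva)
    rw [D2_value_one] at h
    rw [← h]
    exact lpb v a.1 a.2 hv hva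
  have hstep : ∀ v (a : α × Bool), Re v → v * letter f a ∉ K → Re (v * letter f a) := by
    intro v a hv hva
    have h := hReE v [a] hv (D2_avone f K v a (hReK v hv) hva)
    rwa [D2_value_one] at h
  have hun2 : ∀ v (a : α × Bool), Re v → v * letter f a ∉ K →
      cls (lp (v * letter f a) [(a.1, !a.2)]) * cls (lp v [a]) = 1 := by
    intro v a hv hva
    have hva' := hstep v a hv hva
    have e1 : v * letter f a * letter f (a.1, !a.2) = v := by
      rw [D2_letter, mul_inv_cancel_right]
    have h := hun1 (v * letter f a) (a.1, !a.2) hva' (by rw [e1]; exact hReK v hv)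
    rw [e1] at h
    simp only [Bool.not_not] at h
    exact h
  obtain ⟨τ, hτ1, hτ2⟩ : ∃ τ : G → (α × Bool) → Qˣ,
      (∀ v a, Re v → v * letter f a ∉ K → ((τ v a : Qˣ) : Q) = cls (lp v [a])) ∧
      ∀ v a, ¬ Re v → τ v a = 1 := by
    refine ⟨fun v a => if h : Re v ∧ v * letter f a ∉ K then
      ⟨cls (lp v [a]), cls (lp (v * letter f a) [(a.1, !a.2)]), hun1 v a h.1 h.2,
        hun2 v a h.1 h.2⟩ else 1, ?_, ?_⟩
    · intro v a hv hva
      simp only [dif_pos (And.intro hv hva)]
    · intro v a hv
      simp only [dif_neg (fun h : Re v ∧ v * letter f a ∉ K => hv h.1)]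
  have avc : ∀ v (a : α × Bool) u, Avoids f K v (a :: u) →
      v * letter f a ∉ K ∧ Avoids f K (v * letter f a) u := by
    intro v a u h
    obtain ⟨h1, h2⟩ := (a1 K v [a] u).1 h
    have h3 := D2_av1 f K v [a] h1
    rw [D2_value_one] at h2 h3
    exact ⟨h3, h2⟩
  have hol1 : ∀ u v, Re v → Avoids f K v u → ((hol f τ v u : Qˣ) : Q) = cls (lp v u) := by
    intro u
    induction u with
    | nil =>
      intro v hv _
      rw [lp1 v hv]
      rfl
    | cons a u ih =>
      intro v hv hu
      obtain ⟨h2, h3⟩ := avc v a u hu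
      show ((τ v a * hol f τ (v * letter f a) u : Qˣ) : Q) = _
      rw [Units.val_mul, hτ1 v a hv h2, ih _ (hstep v a hv h2) h3]
      have h := lpM v [a] u hv hu
      rw [D2_value_one] at h
      exact h.symm
  have hol2 : ∀ u v, ¬ Re v → Avoids f K v u → hol f τ v u = 1 := by
    intro u
    induction u with
    | nil =>
      intro v _ _
      rfl
    | cons a u ih =>
      intro v hv hu
      obtain ⟨h2, h3⟩ := avc v a u hu
      show τ v a * hol f τ (v * letter f a) u = 1
      have hva : ¬ Re (v * letter f a) := by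
        intro h
        have e1 : v * letter f a * letter f (a.1, !a.2) = v := by
          rw [D2_letter, mul_inv_cancel_right]
        have h4 := hstep (v * letter f a) (a.1, !a.2) h (by
          rw [e1]
          exact D2_av0 f K v _ hu)
        rw [e1] at h4
        exact hv h4
      rw [hτ2 v a hv, ih _ hva h3, mul_one]
  refine ⟨Qˣ, inferInstance, τ, ⟨?_, ?_⟩, ?_⟩
  · intro v a b hv hva
    have hav : Avoids f K v [(a, b), (a, !b)] := by
      refine (a1 K v [(a, b)] [(a, !b)]).2 ⟨D2_avone f K v _ hv hva, ?_⟩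
      rw [D2_value_one]
      refine D2_avone f K _ _ hva ?_
      have hlet : letter f (a, !b) = (letter f (a, b))⁻¹ := D2_letter f (a, b)
      rw [hlet, mul_inv_cancel_right]
      exact hv
    have h : hol f τ v [(a, b), (a, !b)] = 1 := by
      by_cases hr : Re v
      · refine Units.ext ?_
        rw [hol1 _ v hr hav, lpb v a b hr hva]
        rfl
      · exact hol2 _ v hr hav
    have e : hol f τ v [(a, b), (a, !b)] =
        τ v (a, b) * (τ (v * letter f (a, b)) (a, !b) * 1) := rfl
    rw [e, mul_one] at h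
    exact h
  · intro r hr v hv
    by_cases hre : Re v
    · refine Units.ext ?_
      rw [hol1 _ v hre hv, lpc v r hre hv hr]
      rfl
    · exact hol2 _ v hre hv
  · intro w hw hav hh
    have h := hol1 w g hReg hav
    rw [hh] at h
    have e : lp g w = w := by
      rw [hlp, hw, mul_one, cw1]
      simp
    rw [e] at h
    refine (qe w [] ⟨hw, hav⟩ ⟨rfl, D2_avnil f K g hg⟩).1 ?_
    rw [← h, q1]
    rfl

private theorem D2_pi {G α ι : Type} [Group G] (f : α → G) (π : ι → Type)
    [∀ i, Group (π i)] (τ : ∀ i, G → (α × Bool) → π i) (w : List (α × Bool)) :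
    ∀ g : G, hol f (fun v a => (fun i => τ i v a : ∀ i, π i)) g w =
      fun i => hol f (τ i) g w := by
  induction w with
  | nil =>
    intro g
    rfl
  | cons a w ih =>
    intro g
    show (fun i => τ i g a : ∀ i, π i) * hol f _ (g * letter f a) w = _
    rw [ih]
    rfl

theorem D2 (h0 : St_D0) (h1 : St_D1) : St_D2 := by
  intro G α _ f R K hR
  have h := fun g : {g : G // g ∉ K} => D2_one h0 h1 f R K hR g.1 g.2
  choose π hπ τ hτ1 hτ2 using h
  refine ⟨∀ g : {g : G // g ∉ K}, π g, inferInstance, fun v a g => τ g v a, ⟨?_, ?_⟩, ?_⟩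
  · intro v a b hv hva
    funext g
    exact (hτ1 g).edge v a b hv hva
  · intro r hr v hv
    rw [D2_pi f π τ]
    funext g
    exact (hτ1 g).cell r hr v hv
  · intro g w hw hav hh
    rw [D2_pi f π τ] at hh
    exact hτ2 ⟨g, D2_av0 f K g w hav⟩ w hw hav (congrFun hh ⟨g, D2_av0 f K g w hav⟩)

end Pool.Agent.CPD
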