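import Pool.Agent.CPD.StD

/-!
# Combable PD₃-groups : labels define an asymptotic local system
-/

set_option autoImplicit false

namespace Pool.Agent.CPD

open Filter

private theorem D3_letter {G α : Type} [Group G] (f : α → G) (a : α) (b : Bool) :
    letter f (a, b) * letter f (a, !b) = 1 := by
  cases b <;> simp [letter]

private theorem D3_value {G α : Type} [Group G] (f : α → G) (w : List (α × Bool)) :
    FreeGroup.lift f (FreeGroup.mk w) = value f w := by
  rw [FreeGroup.lift_mk]
  unfold value
  congr 1
  apply List.map_congr_left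
  rintro ⟨x, b⟩ _
  cases b <;> simp [letter]

private theorem D3_cof {G : Type} [Group G] {K : Set G} (hK : K.Finite) (s : G) :
    ∀ᶠ v : G in cofinite, v * s ∉ K := by
  have h1 : Tendsto (fun v : G => v * s) cofinite cofinite :=
    (mul_left_injective s).tendsto_cofinite
  exact h1.eventually (hK.eventually_cofinite_notMem)

private theorem D3_avoids {G α : Type} [Group G] (f : α → G) {K : Set G} (hK : K.Finite)
    (w : List (α × Bool)) : ∀ᶠ v : G in cofinite, Avoids f K v w := by
  unfold Avoids
  have h : ∀ᶠ v : G in cofinite, ∀ n ∈ Finset.range (w.length + 1),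
      v * value f (w.take n) ∉ K := by
    rw [Finset.eventually_all]
    intro n _
    exact D3_cof hK _
  filter_upwards [h] with v hv n hn
  exact hv n (Finset.mem_range.2 (by omega))

private theorem D3_main {G α π : Type} [Group G] [Group π] (f : α → G)
    (R : Set (List (α × Bool))) (K : Set G) (τ : G → (α × Bool) → π)
    (hP : IsPresentation f R) (hK : K.Finite) (hτ : IsLabel f R K τ) (u u' : List (α × Bool))
    (huu : value f u = value f u') :
    ∀ᶠ v : G in cofinite, hol f τ v u = hol f τ v u' := by
  have htr : ∀ s : G, Tendsto (fun v : G => v * s) cofinite cofinite :=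
    fun s => (mul_left_injective s).tendsto_cofinite
  let act : (α × Bool) → Germ (cofinite : Filter G) π → Germ (cofinite : Filter G) π :=
    fun a φ => ((fun v => τ v a : G → π) : Germ (cofinite : Filter G) π) *
      φ.compTendsto (fun v => v * letter f a) (htr _)
  have hact : ∀ (a : α × Bool) (ψ : G → π), act a (ψ : Germ (cofinite : Filter G) π) =
      ((fun v => τ v a * ψ (v * letter f a) : G → π) : Germ (cofinite : Filter G) π) :=
    fun a ψ => rfl
  have hinv : ∀ (x : α) (b : Bool) (φ : Germ (cofinite : Filter G) π),
      act (x, b) (act (x, !b) φ) = φ := by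
    intro x b φ
    induction φ using Germ.inductionOn with
    | h ψ =>
      rw [hact, hact, Germ.coe_eq]
      have h1 := D3_cof hK (1 : G)
      have h2 := D3_cof hK (letter f (x, b))
      filter_upwards [h1, h2] with v hv1 hv2
      rw [mul_one] at hv1
      have h3 := hτ.edge v x b hv1 hv2
      rw [← mul_assoc, h3, one_mul, mul_assoc v, D3_letter, mul_one]
  let Pm : α → Equiv.Perm (Germ (cofinite : Filter G) π) := fun x =>
    { toFun := act (x, true)
      invFun := act (x, false)
      left_inv := fun φ => hinv x false φ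
      right_inv := fun φ => hinv x true φ }
  let Φ : FreeGroup α →* Equiv.Perm (Germ (cofinite : Filter G) π) := FreeGroup.lift Pm
  have hΦ1 : ∀ (a : α × Bool) (φ : Germ (cofinite : Filter G) π),
      Φ (FreeGroup.mk [a]) φ = act a φ := by
    rintro ⟨x, b⟩ φ
    have e : Φ (FreeGroup.mk [(x, b)]) = cond b (Pm x) (Pm x)⁻¹ := by
      show FreeGroup.lift Pm (FreeGroup.mk [(x, b)]) = _
      rw [FreeGroup.lift_mk]
      simp
    rw [e]
    cases b <;> rfl
  have hΦ : ∀ (w : List (α × Bool)) (ψ : G → π),
      Φ (FreeGroup.mk w) (ψ : Germ (cofinite : Filter G) π) =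
        ((fun v => hol f τ v w * ψ (v * value f w) : G → π) : Germ (cofinite : Filter G) π) := by
    intro w
    induction w with
    | nil =>
      intro ψ
      have e1 : FreeGroup.mk ([] : List (α × Bool)) = 1 := rfl
      rw [e1, map_one]
      show (ψ : Germ (cofinite : Filter G) π) = _
      rw [Germ.coe_eq]
      refine Eventually.of_forall fun v => ?_
      simp [hol, value]
    | cons a w ih =>
      intro ψ
      have e1 : FreeGroup.mk (a :: w) = FreeGroup.mk [a] * FreeGroup.mk w := by
        rw [FreeGroup.mul_mk]
        rfl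
      rw [e1, map_mul, Equiv.Perm.mul_apply, ih, hΦ1, hact, Germ.coe_eq]
      refine Eventually.of_forall fun v => ?_
      show τ v a * (hol f τ (v * letter f a) w * ψ (v * letter f a * value f w)) =
        τ v a * hol f τ (v * letter f a) w * ψ (v * value f (a :: w))
      have e2 : value f (a :: w) = letter f a * value f w := by simp [value]
      rw [e2, mul_assoc v, mul_assoc (τ v a)]
  have hker : (FreeGroup.lift f).ker ≤ Φ.ker := by
    rw [hP.2]
    apply Subgroup.normalClosure_le_normal
    rintro x ⟨r, hr, rfl⟩
    show Φ (FreeGroup.mk r) = 1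
    have hval : value f r = 1 := by
      rw [← D3_value]
      have h3 : FreeGroup.mk r ∈ (FreeGroup.lift f).ker := by
        rw [hP.2]
        exact Subgroup.subset_normalClosure ⟨r, hr, rfl⟩
      exact h3
    ext φ
    induction φ using Germ.inductionOn with
    | h ψ =>
      rw [hΦ, hval]
      show _ = (ψ : Germ (cofinite : Filter G) π)
      rw [Germ.coe_eq]
      filter_upwards [D3_avoids f hK r] with v hv
      rw [hτ.cell r hr v hv, one_mul, mul_one]
  have h4 : Φ (FreeGroup.mk u) = Φ (FreeGroup.mk u') := by
    have h5 : (FreeGroup.mk u)⁻¹ * FreeGroup.mk u' ∈ (FreeGroup.lift f).ker := by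
      rw [MonoidHom.mem_ker, map_mul, map_inv, D3_value, D3_value, huu, inv_mul_cancel]
    have h6 := hker h5
    rw [MonoidHom.mem_ker, map_mul, map_inv, inv_mul_eq_one] at h6
    exact h6
  have h7 := hΦ u (fun _ => 1)
  rw [h4, hΦ u' (fun _ => 1), Germ.coe_eq] at h7
  filter_upwards [h7] with v hv
  simpa using hv.symm

theorem D3 (h0 : St_D0) : St_D3 := by
  intro G α π _ _ _ f R K τ hP _ hK hτ
  have hs : ∀ h : G, ∃ w : List (α × Bool), value f w = h := by
    intro h
    obtain ⟨x, hx⟩ := hP.1 h
    obtain ⟨w, rfl⟩ := Quot.exists_rep x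
    exact ⟨w, (D3_value f w).symm.trans hx⟩
  choose c hc using hs
  obtain ⟨h1, _, _, _, h5, _⟩ := h0 G α f
  refine ⟨fun v h => hol f τ v (c h), fun h h' => ?_, fun a => ?_⟩
  · have h6 := D3_main f R K τ hP hK hτ (c h ++ c h') (c (h * h')) (by
      rw [h1, hc, hc, hc])
    filter_upwards [h6] with v hv
    rw [h5, hc] at hv
    exact hv
  · have h6 := D3_main f R K τ hP hK hτ (c (letter f a)) [a] (by
      rw [hc]
      simp [value])
    filter_upwards [h6] with v hv
    show hol f τ v (c (letter f a)) = τ v a
    rw [hv]
    show τ v a * 1 = τ v a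
    rw [mul_one]

end Pool.Agent.CPD
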