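import Pool.Agent.CPD.StD

/-!
# Combable PD₃-groups : reduction to asymptotic local systems (helper25)
-/

set_option autoImplicit false
set_option linter.unusedVariables false

namespace Pool.Agent.CPD

private theorem D4_value {G α : Type} [Group G] (f : α → G) (w : List (α × Bool)) :
    value f w = FreeGroup.lift f (FreeGroup.mk w) := by
  rw [FreeGroup.lift_mk]
  unfold value
  congr 1
  apply List.map_congr_left
  rintro ⟨a, b⟩ _
  cases b <;> simp [letter]

private theorem D4_cons {G α : Type} [Group G] (f : α → G) (a : α × Bool)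
    (w : List (α × Bool)) : value f (a :: w) = letter f a * value f w := by
  simp [value]

/-- transport along a word is the product of the labels -/
private theorem D4_tr {G α π : Type} [Group G] [Group π] (f : α → G) (T : G → G → π)
    (τ : G → (α × Bool) → π) (p : ℕ → G) : ∀ (w : List (α × Bool)) (g : G) (k : ℕ),
    (∀ i ≤ w.length, p (k + i) = g * value f (w.take i)) →
    (∀ i ≤ w.length, ∀ a, T (p (k + i)) (letter f a) = τ (p (k + i)) a) →
    tr T p k w.length = hol f τ g w := by
  intro w
  induction w with
  | nil =>
    intro g k _ _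
    rfl
  | cons a w ih =>
    intro g k h1 h2
    have e0 : p k = g := by
      have := h1 0 (Nat.zero_le _)
      simpa [value] using this
    have e1 : p (k + 1) = g * letter f a := by
      have := h1 1 (by simp)
      simpa [value] using this
    have e2 : T (p k) (letter f a) = τ g a := by
      have := h2 0 (Nat.zero_le _) a
      rw [add_zero, e0] at this
      rw [e0]
      exact this
    change T (p k) ((p k)⁻¹ * p (k + 1)) * tr T p (k + 1) w.length =
      τ g a * hol f τ (g * letter f a) w
    have e3 : (p k)⁻¹ * p (k + 1) = letter f a := by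
      rw [e0, e1, inv_mul_cancel_left]
    rw [e3, e2, ih (g * letter f a) (k + 1)]
    · intro i hi
      have h3 := h1 (i + 1) (by simpa using hi)
      rw [List.take_succ_cons, D4_cons, ← mul_assoc] at h3
      rw [← h3]
      congr 1
      omega
    · intro i hi b
      have h3 := h2 (i + 1) (by simpa using hi) b
      have h4 : k + 1 + i = k + (i + 1) := by omega
      rw [h4]
      exact h3

theorem D4 (h0 : St_D0) (h2 : St_D2) (h3 : St_D3) : St_D4 := by
  intro G _ L hL α _ f R hRf hP K hK
  have hR : ∀ r ∈ R, value f r = 1 := by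
    intro r hr
    rw [D4_value, ← MonoidHom.mem_ker, hP.2]
    exact Subgroup.subset_normalClosure ⟨r, hr, rfl⟩
  obtain ⟨π, hπ, τ, hlab, hmain⟩ := h2 G α f R K hR
  obtain ⟨T, hT, hTτ⟩ := h3 G α π f R K τ hP hRf hK hlab
  obtain ⟨B, hB⟩ : ∃ B : ℕ, ∀ a : α × Bool, L.l (letter f a) ≤ B := by
    obtain ⟨B, hB⟩ := (Set.finite_range fun a : α × Bool => L.l (letter f a)).bddAbove
    exact ⟨B, fun a => hB ⟨a, rfl⟩⟩
  obtain ⟨D₀, hD₀, hD⟩ := hL π T hT B
  set E : Set G := ⋃ a : α × Bool, {v : G | T v (letter f a) ≠ τ v a} with hE
  have hEf : E.Finite := by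
    rw [hE]
    refine Set.finite_iUnion fun a => ?_
    have := hTτ a
    rw [Filter.eventually_cofinite] at this
    exact this
  refine ⟨D₀ ∪ K ∪ E, (hD₀.union hK).union hEf, ?_, ?_⟩
  · intro x hx
    exact Or.inl (Or.inr hx)
  intro g w hw hav
  have hK' : Avoids f K g w := fun n hn hx => hav n hn (Or.inl (Or.inr hx))
  refine hmain g w hw hK' ?_
  set p : ℕ → G := fun i => g * value f (w.take i) with hp
  have htr : tr T p 0 w.length = hol f τ g w := by
    apply D4_tr
    · intro i _
      rw [zero_add]
    · intro i hi a
      rw [zero_add]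
      by_contra hne
      exact hav i hi (Or.inr (Set.mem_iUnion.2 ⟨a, hne⟩))
  rw [← htr]
  apply hD
  · rw [hp]
    simp only
    rw [List.take_length, hw]
    simp [value]
  · intro i hi hx
    exact hav i hi (Or.inl (Or.inl hx))
  · intro i hi
    have h4 : (p i)⁻¹ * p (i + 1) = letter f w[i] := by
      rw [hp]
      simp only [value]
      rw [← List.take_concat_get' w i hi, List.map_append, List.prod_append]
      simp only [List.map_cons, List.map_nil, List.prod_cons, List.prod_nil, mul_one]
      group
    rw [h4]
    exact hB _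

end Pool.Agent.CPD
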