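import Pool.Agent.CPD.StE

/-!
# CPD, E1 : chains and row vectors (helper81 for helper24)
-/

set_option autoImplicit false

namespace Pool.Agent.CPD

open Matrix

section E1

variable {G I : Type} [Group G]

private theorem E1_coeff (c : (G × I) →₀ ℤ) (g : G) (i : I) : (toV c i).coeff g = c (g, i) := rfl

private theorem E1_add (c c' : (G × I) →₀ ℤ) : toV (c + c') = toV c + toV c' := by
  funext i
  apply MonoidAlgebra.ext
  ext g
  rfl

private theorem E1_zero : toV (0 : (G × I) →₀ ℤ) = 0 := by
  funext i
  apply MonoidAlgebra.ext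
  ext g
  rfl

private theorem E1_inj (c c' : (G × I) →₀ ℤ) (h : toV c = toV c') : c = c' := by
  ext ⟨g, i⟩
  exact congrArg (fun v : I → ZG G => (v i).coeff g) h

private theorem E1_surj [Fintype I] (v : I → ZG G) : ∃ c : (G × I) →₀ ℤ, toV c = v := by
  by_cases hI : Nonempty I
  · obtain ⟨i0⟩ := hI
    refine ⟨row (Matrix.of fun _ j => v j) (1, i0), ?_⟩
    funext i
    apply MonoidAlgebra.ext
    ext g
    rw [E1_coeff, row_apply, Matrix.of_apply, inv_one, one_mul]
  · refine ⟨0, ?_⟩
    funext i
    exact absurd ⟨i⟩ hI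

private theorem E1_single [DecidableEq I] (g : G) (i : I) (n : ℤ) :
    toV (Finsupp.single (g, i) n) = Pi.single i (MonoidAlgebra.single g n) := by
  classical
  funext j
  apply MonoidAlgebra.ext
  ext h
  rw [E1_coeff]
  by_cases hj : j = i
  · subst hj
    rw [Pi.single_eq_same, MonoidAlgebra.coeff_single, Finsupp.single_apply, Finsupp.single_apply]
    by_cases hg : g = h
    · rw [if_pos hg, if_pos (by rw [hg])]
    · rw [if_neg hg, if_neg (fun h1 => hg (congrArg Prod.fst h1))]
  · rw [Pi.single_eq_of_ne hj, Finsupp.single_apply, if_neg]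
    · rfl
    · intro h1
      exact hj (congrArg Prod.snd h1).symm

private theorem E1_mul [Fintype I] [DecidableEq I] (A : Matrix I I (ZG G)) (c : (G × I) →₀ ℤ) :
    toV (opZ A c) = toV c ᵥ* A := by
  induction c using Finsupp.induction_linear with
  | zero => rw [map_zero, E1_zero, zero_vecMul]
  | add c c' hc hc' => rw [map_add, E1_add, E1_add, hc, hc', add_vecMul]
  | single x n =>
    obtain ⟨g, i⟩ := x
    rw [E1_single]
    funext j
    apply MonoidAlgebra.ext
    ext h
    have h1 : (Pi.single i (MonoidAlgebra.single g n : ZG G) ᵥ* A) j =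
        MonoidAlgebra.single g n * A i j := single_dotProduct _ _ _
    rw [h1, MonoidAlgebra.coeff_single_mul_apply, E1_coeff]
    unfold opZ
    rw [Finsupp.linearCombination_single, Finsupp.smul_apply, row_apply, smul_eq_mul]

private theorem E1_augZ_add (e : I → ℤ) (c c' : (G × I) →₀ ℤ) :
    augZ e (c + c') = augZ e c + augZ e c' := by
  classical
  unfold augZ
  exact Finsupp.sum_add_index' (fun x => zero_mul _) (fun x a b => add_mul _ _ _)

private theorem E1_augZ_single (e : I → ℤ) (x : G × I) (n : ℤ) :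
    augZ e (Finsupp.single x n) = n * e x.2 := by
  unfold augZ
  exact Finsupp.sum_single_index (zero_mul _)

private theorem E1_au_single (g : G) (n : ℤ) : au (MonoidAlgebra.single g n : ZG G) = n := by
  unfold au
  rw [MonoidAlgebra.lift_single]
  simp

private theorem E1_aug [Fintype I] (e : I → ℤ) (c : (G × I) →₀ ℤ) :
    augZ e c = ∑ i, au (toV c i) * e i := by
  classical
  induction c using Finsupp.induction_linear with
  | zero =>
    rw [E1_zero]
    unfold augZ
    simp
  | add c c' hc hc' =>
    rw [E1_augZ_add, E1_add, hc, hc', ← Finset.sum_add_distrib]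
    refine Finset.sum_congr rfl fun i _ => ?_
    rw [Pi.add_apply, map_add, add_mul]
  | single x n =>
    obtain ⟨g, i⟩ := x
    rw [E1_augZ_single, E1_single, Finset.sum_eq_single i]
    · rw [Pi.single_eq_same, E1_au_single]
    · intro j _ hj
      rw [Pi.single_eq_of_ne hj, map_zero, zero_mul]
    · intro h
      exact absurd (Finset.mem_univ _) h

private theorem E1_tl (g : G) (c : (G × I) →₀ ℤ) (y : G × I) : tl g c y = c (g⁻¹ * y.1, y.2) := by
  unfold tl
  have h1 : y = (g * (g⁻¹ * y.1), y.2) := by rw [mul_inv_cancel_left]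
  have h2 : Function.Injective (fun x : G × I => (g * x.1, x.2)) := by
    intro a b hab
    have h3 : (g * a.1, a.2) = (g * b.1, b.2) := hab
    obtain ⟨h4, h5⟩ := Prod.mk.inj h3
    exact Prod.ext (mul_left_cancel h4) h5
  conv_lhs => rw [h1]
  exact Finsupp.mapDomain_apply h2 c (g⁻¹ * y.1, y.2)

private theorem E1_op_tl [Fintype I] (A : Matrix I I (ZG G)) (g : G) (c : (G × I) →₀ ℤ) :
    opZ A (tl g c) = tl g (opZ A c) := by
  induction c using Finsupp.induction_linear with
  | zero =>
    unfold tl
    rw [Finsupp.mapDomain_zero, map_zero, Finsupp.mapDomain_zero]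
  | add c c' hc hc' =>
    unfold tl at hc hc' ⊢
    rw [Finsupp.mapDomain_add, map_add, map_add, Finsupp.mapDomain_add, hc, hc']
  | single x n =>
    ext y
    rw [E1_tl]
    unfold opZ tl
    rw [Finsupp.mapDomain_single, Finsupp.linearCombination_single,
      Finsupp.linearCombination_single, Finsupp.smul_apply, Finsupp.smul_apply, row_apply,
      row_apply]
    change n • (A x.2 y.2).coeff ((g * x.1)⁻¹ * y.1) =
      n • (A x.2 y.2).coeff (x.1⁻¹ * (g⁻¹ * y.1))
    rw [_root_.mul_inv_rev, mul_assoc]

private theorem E1_aug_tl (e : I → ℤ) (g : G) (c : (G × I) →₀ ℤ) :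
    augZ e (tl g c) = augZ e c := by
  classical
  unfold augZ tl
  exact Finsupp.sum_mapDomain_index (fun x => zero_mul _) (fun x a b => add_mul _ _ _)

end E1

/-- [E1] -/
theorem E1 : St_E1 := by
  intro G I _ _ _
  refine ⟨E1_mul, E1_add, E1_inj, E1_surj, E1_aug, fun A B c => ?_, E1_op_tl, E1_aug_tl, E1_tl⟩
  apply E1_inj
  rw [E1_mul, E1_mul, E1_mul, vecMul_vecMul]

end Pool.Agent.CPD
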