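import Pool.Agent.CPD.StE

/-!
# CPD / E2a: truncation to length three
-/

set_option autoImplicit false

namespace Pool.Agent.CPD

variable {G : Type} [Group G]

/-- complemented images -/
theorem e2a_comp (F : FPRes G) (hF : DualPD F) : ∀ i, 3 ≤ i →
    ∃ ρ : F.P i →ₗ[ZG G] F.P i, (∀ x, ∃ y, F.d i y = ρ x) ∧ ∀ y, ρ (F.d i y) = F.d i y := by
  obtain ⟨n, hn⟩ := F.len
  have key : ∀ k i, n < i + k → 3 ≤ i → ∃ ρ : F.P i →ₗ[ZG G] F.P i,
      (∀ x, ∃ y, F.d i y = ρ x) ∧ ∀ y, ρ (F.d i y) = F.d i y := by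
    intro k
    induction k with
    | zero =>
      intro i hi _
      have := hn i hi
      exact ⟨0, fun x => ⟨0, Subsingleton.elim _ _⟩, fun y => Subsingleton.elim _ _⟩
    | succ k ih =>
      intro i hi h3
      obtain ⟨ρ', h1, h2⟩ := ih (i + 1) (by omega) (by omega)
      have := F.fin (i + 1)
      have := F.proj (i + 1)
      obtain ⟨m, p, hp⟩ := Module.Finite.exists_fin' (ZG G) (F.P (i + 1))
      obtain ⟨s, hs⟩ := Module.projective_lifting_property p LinearMap.id hp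
      have hs' : ∀ x, p (s x) = x := fun x => LinearMap.congr_fun hs x
      let q : F.P (i + 1) →ₗ[ZG G] F.P (i + 1) := LinearMap.id - ρ'
      have hq : ∀ x, q x = x - ρ' x := fun x => rfl
      have hqd : ∀ y, q (F.d (i + 1) y) = 0 := fun y => by rw [hq, h2, sub_self]
      have hc : ∀ j : Fin m, ∃ ψ : F.P i →ₗ[ZG G] ZG G,
          (LinearMap.proj j ∘ₗ s ∘ₗ q : F.P (i + 1) →ₗ[ZG G] ZG G) = ψ ∘ₗ F.d i := by
        intro j
        apply hF.2.1 i (by omega)
        change (LinearMap.proj j ∘ₗ s ∘ₗ q) ∘ₗ F.d (i + 1) = 0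
        apply LinearMap.ext
        intro y
        change (s (q (F.d (i + 1) y))) j = 0
        rw [hqd, map_zero]
        rfl
      choose ψ hψ using hc
      let Ψ : F.P i →ₗ[ZG G] F.P (i + 1) := p ∘ₗ LinearMap.pi ψ
      have hΨ : ∀ y, Ψ (F.d i y) = q y := by
        intro y
        change p (fun j => ψ j (F.d i y)) = q y
        have : (fun j => ψ j (F.d i y)) = s (q y) := by
          funext j
          exact (LinearMap.congr_fun (hψ j) y).symm
        rw [this, hs']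
      refine ⟨F.d i ∘ₗ Ψ, fun x => ⟨Ψ x, rfl⟩, fun y => ?_⟩
      change F.d i (Ψ (F.d i y)) = F.d i y
      rw [hΨ, hq, map_sub]
      obtain ⟨z, hz⟩ := h1 y
      rw [← hz, (F.exact_succ i (F.d (i + 1) z)).mpr ⟨z, rfl⟩, sub_zero]
  intro i hi
  exact key (n + 1) i (by omega) hi

/-- the image of `P_3` in `P_2` -/
noncomputable abbrev B2 (F : FPRes G) : Submodule (ZG G) (F.P 2) := LinearMap.range (F.d 2)

theorem e2a_proj (F : FPRes G) (hF : DualPD F) : Module.Projective (ZG G) (B2 F) := by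
  obtain ⟨ρ, h1, h2⟩ := e2a_comp F hF 3 le_rfl
  have := F.proj 3
  let q : F.P 3 →ₗ[ZG G] F.P 3 := LinearMap.id - ρ
  have hq : ∀ x, q x = x - ρ x := fun x => rfl
  have hk : LinearMap.ker (F.d 2).rangeRestrict ≤ LinearMap.ker q := by
    intro x hx
    rw [LinearMap.ker_rangeRestrict, LinearMap.mem_ker] at hx
    obtain ⟨y, hy⟩ := (F.exact_succ 2 x).mp hx
    rw [LinearMap.mem_ker, hq, ← hy, h2, sub_self]
  -- the section
  have hsurj : Function.Surjective (F.d 2).rangeRestrict := LinearMap.surjective_rangeRestrict _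
  let e := LinearMap.quotKerEquivOfSurjective (F.d 2).rangeRestrict hsurj
  let σ : B2 F →ₗ[ZG G] F.P 3 := (LinearMap.ker (F.d 2).rangeRestrict).liftQ q hk ∘ₗ
    (e.symm : B2 F →ₗ[ZG G] _)
  have hσ : ∀ x, σ ((F.d 2).rangeRestrict x) = q x := by
    intro x
    change (LinearMap.ker (F.d 2).rangeRestrict).liftQ q hk
      (e.symm ((F.d 2).rangeRestrict x)) = q x
    have h3 : e.symm ((F.d 2).rangeRestrict x) = Submodule.Quotient.mk x := by
      rw [LinearEquiv.symm_apply_eq]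
      rfl
    rw [h3]
    rfl
  apply Module.Projective.of_split σ (F.d 2).rangeRestrict
  apply LinearMap.ext
  intro b
  obtain ⟨x, rfl⟩ := hsurj b
  apply Subtype.ext
  change F.d 2 (σ ((F.d 2).rangeRestrict x)) = F.d 2 x
  rw [hσ, hq, map_sub]
  obtain ⟨z, hz⟩ := h1 x
  rw [← hz, (F.exact_succ 2 (F.d 3 z)).mpr ⟨z, rfl⟩, sub_zero]

/-- the modules of the truncation -/
def TrP (F : FPRes G) : ℕ → Type
  | 0 => F.P 0
  | 1 => F.P 1
  | 2 => F.P 2
  | 3 => B2 F
  | (_ + 4) => PUnit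

noncomputable instance trAb (F : FPRes G) : ∀ i, AddCommGroup (TrP F i)
  | 0 => inferInstanceAs (AddCommGroup (F.P 0))
  | 1 => inferInstanceAs (AddCommGroup (F.P 1))
  | 2 => inferInstanceAs (AddCommGroup (F.P 2))
  | 3 => inferInstanceAs (AddCommGroup (B2 F))
  | (_ + 4) => inferInstanceAs (AddCommGroup PUnit)

noncomputable instance trMod (F : FPRes G) : ∀ i, Module (ZG G) (TrP F i)
  | 0 => inferInstanceAs (Module (ZG G) (F.P 0))
  | 1 => inferInstanceAs (Module (ZG G) (F.P 1))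
  | 2 => inferInstanceAs (Module (ZG G) (F.P 2))
  | 3 => inferInstanceAs (Module (ZG G) (B2 F))
  | (_ + 4) => inferInstanceAs (Module (ZG G) PUnit)

/-- the differential of the truncation -/
noncomputable def trD (F : FPRes G) : ∀ i, TrP F (i + 1) →ₗ[ZG G] TrP F i
  | 0 => F.d 0
  | 1 => F.d 1
  | 2 => (B2 F).subtype
  | (_ + 3) => 0

/-- the truncation -/
noncomputable def trF (F : FPRes G) (hF : DualPD F) : FPRes G where
  P := TrP F
  ab := trAb F
  mod := trMod F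
  fin := fun i => match i with
    | 0 => F.fin 0
    | 1 => F.fin 1
    | 2 => F.fin 2
    | 3 => by
      have := F.fin 3
      exact Module.Finite.range (F.d 2)
    | (_ + 4) => inferInstanceAs (Module.Finite (ZG G) PUnit)
  proj := fun i => match i with
    | 0 => F.proj 0
    | 1 => F.proj 1
    | 2 => F.proj 2
    | 3 => e2a_proj F hF
    | (_ + 4) => inferInstanceAs (Module.Projective (ZG G) PUnit)
  len := ⟨3, fun i hi => by
    obtain ⟨k, rfl⟩ : ∃ k, i = k + 4 := ⟨i - 4, by omega⟩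
    exact inferInstanceAs (Subsingleton PUnit)⟩
  d := trD F
  aug := F.aug
  aug_smul := F.aug_smul
  aug_surj := F.aug_surj
  exact_zero := F.exact_zero
  exact_succ := fun i => match i with
    | 0 => F.exact_succ 0
    | 1 => fun x => by
      constructor
      · intro h
        obtain ⟨y, hy⟩ := (F.exact_succ 1 x).mp h
        exact ⟨⟨x, ⟨y, hy⟩⟩, rfl⟩
      · rintro ⟨⟨y, z, hz⟩, rfl⟩
        exact (F.exact_succ 1 y).mpr ⟨z, hz⟩
    | 2 => fun x => by
      constructor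
      · intro h
        exact ⟨0, (Subtype.ext h : x = 0).symm ▸ rfl⟩
      · rintro ⟨y, rfl⟩
        exact rfl
    | (_ + 3) => fun x => ⟨fun _ => ⟨0, rfl⟩, fun _ => rfl⟩

theorem thm_E2a : St_E2a := by
  intro G _ ⟨F, hF⟩
  have hF : DualPD F := hF
  refine ⟨trF F hF, ?_, ?_⟩
  · intro i hi
    obtain ⟨k, rfl⟩ : ∃ k, i = k + 4 := ⟨i - 4, by omega⟩
    exact inferInstanceAs (Subsingleton PUnit)
  obtain ⟨h0, h1, w, hw1, hw2, hw3⟩ := hF
  have hF : DualPD F := ⟨h0, h1, w, hw1, hw2, hw3⟩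
  have hsurj : Function.Surjective (F.d 2).rangeRestrict := LinearMap.surjective_rangeRestrict _
  -- cocycles of degree three
  have hcoc : ∀ φ : B2 F →ₗ[ZG G] ZG G, (φ ∘ₗ (F.d 2).rangeRestrict) ∈ F.cocycles 3 := by
    intro φ
    change (φ ∘ₗ (F.d 2).rangeRestrict) ∘ₗ F.d 3 = 0
    apply LinearMap.ext
    intro y
    change φ ((F.d 2).rangeRestrict (F.d 3 y)) = 0
    have : (F.d 2).rangeRestrict (F.d 3 y) = 0 :=
      Subtype.ext ((F.exact_succ 2 (F.d 3 y)).mpr ⟨y, rfl⟩)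
    rw [this, map_zero]
  have hcoc' : ∀ φ ∈ F.cocycles 3, ∃ φ' : B2 F →ₗ[ZG G] ZG G,
      φ' ∘ₗ (F.d 2).rangeRestrict = φ := by
    intro φ hφ
    have hk : LinearMap.ker (F.d 2).rangeRestrict ≤ LinearMap.ker φ := by
      intro x hx
      rw [LinearMap.ker_rangeRestrict, LinearMap.mem_ker] at hx
      obtain ⟨y, hy⟩ := (F.exact_succ 2 x).mp hx
      rw [LinearMap.mem_ker, ← hy]
      exact LinearMap.congr_fun hφ y
    let e := LinearMap.quotKerEquivOfSurjective (F.d 2).rangeRestrict hsurj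
    refine ⟨(LinearMap.ker (F.d 2).rangeRestrict).liftQ φ hk ∘ₗ
      (e.symm : B2 F →ₗ[ZG G] _), ?_⟩
    apply LinearMap.ext
    intro x
    change (LinearMap.ker (F.d 2).rangeRestrict).liftQ φ hk
      (e.symm ((F.d 2).rangeRestrict x)) = φ x
    have h3 : e.symm ((F.d 2).rangeRestrict x) = Submodule.Quotient.mk x := by
      rw [LinearEquiv.symm_apply_eq]
      rfl
    rw [h3]
    rfl
  have hinj : ∀ φ φ' : B2 F →ₗ[ZG G] ZG G,
      φ ∘ₗ (F.d 2).rangeRestrict = φ' ∘ₗ (F.d 2).rangeRestrict → φ = φ' := by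
    intro φ φ' h
    apply LinearMap.ext
    intro b
    obtain ⟨x, rfl⟩ := hsurj b
    exact LinearMap.congr_fun h x
  refine ⟨h0, ?_, ?_⟩
  · intro i hi φ hφ
    match i, hi, φ, hφ with
    | 0, hi, φ, hφ => exact h1 0 hi φ hφ
    | 1, hi, φ, hφ =>
      apply h1 1 hi φ
      change φ ∘ₗ F.d 2 = 0
      apply LinearMap.ext
      intro y
      exact LinearMap.congr_fun (show φ ∘ₗ (B2 F).subtype = 0 from hφ)
        ((F.d 2).rangeRestrict y)
    | 2, hi, _, _ => exact absurd rfl hi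
    | (k + 3), hi, φ, hφ =>
      refine ⟨0, ?_⟩
      apply LinearMap.ext
      intro y
      have hy : y = 0 := rfl
      rw [hy, map_zero, map_zero]
  · have hiff : ∀ φ : B2 F →ₗ[ZG G] ZG G, w ⟨φ ∘ₗ (F.d 2).rangeRestrict, hcoc φ⟩ = 0 ↔
        ∃ ψ : F.P 2 →ₗ[ZG G] ZG G, φ = ψ ∘ₗ (B2 F).subtype := by
      intro φ
      rw [hw2]
      constructor
      · rintro ⟨ψ, hψ⟩
        refine ⟨ψ, hinj _ _ ?_⟩
        exact hψ
      · rintro ⟨ψ, hψ⟩
        refine ⟨ψ, ?_⟩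
        change φ ∘ₗ (F.d 2).rangeRestrict = ψ ∘ₗ F.d 2
        rw [hψ]
        rfl
    have hrm : ∀ (g : G) (φ φ' : B2 F →ₗ[ZG G] ZG G), φ' = rmul g φ →
        w ⟨φ' ∘ₗ (F.d 2).rangeRestrict, hcoc φ'⟩ = w ⟨φ ∘ₗ (F.d 2).rangeRestrict, hcoc φ⟩ := by
      intro g φ φ' h
      apply hw3 g
      change φ' ∘ₗ (F.d 2).rangeRestrict = rmul g (φ ∘ₗ (F.d 2).rangeRestrict)
      rw [h]
      rfl
    have hsw : ∀ z : ℤ, ∃ φ : B2 F →ₗ[ZG G] ZG G,
        w ⟨φ ∘ₗ (F.d 2).rangeRestrict, hcoc φ⟩ = z := by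
      intro z
      obtain ⟨⟨φ, hφ⟩, hz⟩ := hw1 z
      obtain ⟨φ', hφ'⟩ := hcoc' φ hφ
      refine ⟨φ', ?_⟩
      rw [← hz]
      congr 1
      exact Subtype.ext hφ'
    have hall : ∀ φ : B2 F →ₗ[ZG G] ZG G, φ ∘ₗ (0 : PUnit →ₗ[ZG G] B2 F) = 0 :=
      fun φ => LinearMap.comp_zero φ
    let w' : (trF F hF).cocycles 3 →+ ℤ :=
      { toFun := fun φ => w ⟨(φ.1 : B2 F →ₗ[ZG G] ZG G) ∘ₗ (F.d 2).rangeRestrict, hcoc _⟩
        map_zero' := by
          rw [← map_zero w]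
          congr 1
        map_add' := by
          intro x y
          rw [← map_add w]
          congr 1 }
    refine ⟨w', ?_, ?_, ?_⟩
    · intro z
      obtain ⟨φ, hφ⟩ := hsw z
      exact ⟨⟨φ, hall φ⟩, hφ⟩
    · intro φ
      exact hiff φ.1
    · intro g φ φ' h
      exact hrm g φ.1 φ'.1 h

end Pool.Agent.CPD
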