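import Pool.Agent.CPD.StE

/-!
# CPD / E2b: matrix models exist
-/

set_option autoImplicit false

namespace Pool.Agent.CPD

open Matrix

/-- the matrix of a linear map -/
theorem e2b_mat {R I : Type} [Ring R] [Fintype I] [DecidableEq I]
    (L : (I → R) →ₗ[R] (I → R)) : ∃ A : Matrix I I R, ∀ v, v ᵥ* A = L v := by
  refine ⟨Matrix.of fun i j => L (fun k => if i = k then 1 else 0) j, fun v => ?_⟩
  funext j
  rw [LinearMap.pi_apply_eq_sum_univ L v, Finset.sum_apply]
  rfl

theorem e2b_fac {R P : Type} [Ring R] [AddCommGroup P] [Module R P] [Module.Finite R P]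
    [Module.Projective R P] (J : Type) [Fintype J] (h : ∃ f : (J → R) →ₗ[R] P,
    Function.Surjective f) : ∃ (s : P →ₗ[R] (J → R)) (p : (J → R) →ₗ[R] P),
    ∀ x, p (s x) = x := by
  obtain ⟨f, hf⟩ := h
  obtain ⟨s, hs⟩ := Module.projective_lifting_property f LinearMap.id hf
  exact ⟨s, f, fun x => LinearMap.congr_fun hs x⟩

theorem thm_E2b : St_E2b := by
  intro G _ F hsub
  -- a common index set
  have hJ : ∃ (J : Type) (_ : Fintype J) (_ : DecidableEq J), ∀ i : ℕ,
      ∃ (s : F.P i →ₗ[ZG G] (J → ZG G)) (p : (J → ZG G) →ₗ[ZG G] F.P i),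
        ∀ x, p (s x) = x := by
    have h1 : ∀ i : Fin 4, ∃ (n : ℕ) (f : (Fin n → ZG G) →ₗ[ZG G] F.P i),
        Function.Surjective f := by
      intro i
      have := F.fin i
      exact Module.Finite.exists_fin' (ZG G) (F.P i)
    choose n f hf using h1
    refine ⟨(i : Fin 4) × Fin (n i), inferInstance, inferInstance, ?_⟩
    intro i
    by_cases hi : i < 4
    · have h2 := F.fin i
      have h3 := F.proj i
      apply e2b_fac
      refine ⟨f ⟨i, hi⟩ ∘ₗ LinearMap.funLeft (ZG G) (ZG G)
        (fun j : Fin (n ⟨i, hi⟩) => (⟨⟨i, hi⟩, j⟩ : (i : Fin 4) × Fin (n i))), ?_⟩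
      apply (hf ⟨i, hi⟩).comp
      apply LinearMap.funLeft_surjective_of_injective
      intro a b hab
      simpa using hab
    · have := hsub i (by omega)
      exact ⟨0, 0, fun x => Subsingleton.elim _ _⟩
  obtain ⟨J, _, _, hJ⟩ := hJ
  choose s' p' hsp using hJ
  -- the maps
  let ext : ℕ → (J → ZG G) →ₗ[ZG G] (Fin 4 × J → ZG G) := fun i =>
    { toFun := fun v x => if x.1.val = i then v x.2 else 0
      map_add' := by
        intro u v
        funext x
        by_cases h : x.1.val = i
        · simp [h]
        · simp [h]
      map_smul' := by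
        intro a v
        funext x
        by_cases h : x.1.val = i
        · simp [h]
        · simp [h] }
  let res : ℕ → (Fin 4 × J → ZG G) →ₗ[ZG G] (J → ZG G) := fun i =>
    { toFun := fun v j => if h : i < 4 then v (⟨i, h⟩, j) else 0
      map_add' := by
        intro u v
        funext x
        by_cases h : i < 4
        · simp [h]
        · simp [h]
      map_smul' := by
        intro a v
        funext x
        by_cases h : i < 4
        · simp [h]
        · simp [h] }
  have hext : ∀ i v x, ext i v x = if x.1.val = i then v x.2 else 0 := fun _ _ _ => rfl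
  have hres : ∀ i v j, res i v j = if h : i < 4 then v (⟨i, h⟩, j) else 0 := fun _ _ _ => rfl
  let s : ∀ i, F.P i →ₗ[ZG G] (Fin 4 × J → ZG G) := fun i => ext i ∘ₗ s' i
  let p : ∀ i, (Fin 4 × J → ZG G) →ₗ[ZG G] F.P i := fun i => p' i ∘ₗ res i
  obtain ⟨E, hE⟩ := e2b_mat (∑ i ∈ Finset.range 4, s i ∘ₗ p i)
  obtain ⟨D, hD⟩ := e2b_mat (∑ i ∈ Finset.range 3, s i ∘ₗ F.d i ∘ₗ p (i + 1))
  refine ⟨Fin 4 × J, inferInstance, inferInstance, fun x => x.1.val, D, E, ⟨?_⟩⟩
  exact
    { s := s
      p := p
      deg_le := fun x => by have := x.1.isLt; omega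
      ps := by
        intro i x
        by_cases hi : i < 4
        · change p' i (res i (ext i (s' i x))) = x
          have h1 : res i (ext i (s' i x)) = s' i x := by
            funext j
            rw [hres, dif_pos hi, hext, if_pos rfl]
          rw [h1, hsp]
        · have := hsub i (by omega)
          exact Subsingleton.elim _ _
      s_deg := by
        intro i x j hj
        by_contra hcon
        apply hj
        change ext i (s' i x) j = 0
        rw [hext, if_neg hcon]
      p_deg := by
        intro i v hv
        change p' i (res i v) = 0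
        have h1 : res i v = 0 := by
          funext j
          rw [hres]
          by_cases hi : i < 4
          · rw [dif_pos hi]
            exact hv (⟨i, hi⟩, j) rfl
          · rw [dif_neg hi]
            rfl
        rw [h1, map_zero]
      E_eq := by
        intro v
        rw [hE, LinearMap.sum_apply]
        rfl
      D_eq := by
        intro v
        rw [hD, LinearMap.sum_apply]
        rfl }

end Pool.Agent.CPD
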