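import Pool.Agent.CPD.StE

/-!
# [E2c] The primal resolution of a model
-/

set_option autoImplicit false

namespace Pool.Agent.CPD

open Matrix

private theorem E2c_vec {G I : Type} [Group G] [Fintype I] [DecidableEq I]
    {A B : Matrix I I (ZG G)} (h : ∀ v : I → ZG G, v ᵥ* A = v ᵥ* B) : A = B := by
  ext i j : 2
  have h1 := congrFun (h (Pi.single i 1)) j
  simpa [Matrix.vecMul, dotProduct, Pi.single_apply] using h1

private theorem E2c_row {G I : Type} [Group G] [Fintype I] [DecidableEq I]
    (A : Matrix I I (ZG G)) (i j : I) : (Pi.single i (1 : ZG G) ᵥ* A) j = A i j := by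
  simp [Matrix.vecMul, dotProduct, Pi.single_apply]

private theorem E2c_aug {G : Type} [Group G] (F : FPRes G) (a : ZG G) (x : F.P 0) :
    F.aug (a • x) = au a * F.aug x := by
  induction a using MonoidAlgebra.induction_linear with
  | zero => rw [zero_smul, map_zero, map_zero, zero_mul]
  | add a b ha hb => rw [add_smul, map_add, map_add, ha, hb, add_mul]
  | single g n =>
    have h1 : (MonoidAlgebra.single g n : ZG G) = n • MonoidAlgebra.single g (1 : ℤ) := by
      rw [MonoidAlgebra.smul_single, smul_eq_mul, mul_one]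
    have h2 : au (MonoidAlgebra.single g n : ZG G) = n := by
      unfold au
      rw [MonoidAlgebra.lift_single]
      simp
    rw [h2]
    conv_lhs => rw [h1]
    rw [smul_assoc, map_zsmul, F.aug_smul, smul_eq_mul]

theorem E2c : St_E2c := by
  intro G _ F I _ _ deg D E hsub m
  -- elementary facts
  have hps : ∀ i k (x : F.P k), i ≠ k → m.p i (m.s k x) = 0 := by
    intro i k x hik
    refine m.p_deg i _ ?_
    intro j hj
    by_contra h
    exact hik (hj.symm.trans (m.s_deg k x j h))
  have hz : ∀ i, 3 < i → ∀ x : F.P i, x = 0 := fun i hi x => (hsub i hi).elim _ _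
  have hpE : ∀ i v, m.p i (v ᵥ* E) = m.p i v := by
    intro i v
    by_cases hi : 3 < i
    · rw [hz i hi (m.p i (v ᵥ* E)), hz i hi (m.p i v)]
    · rw [m.E_eq, map_sum, Finset.sum_eq_single i, m.ps]
      · intro k _ hk
        exact hps i k _ (Ne.symm hk)
      · intro h
        exact absurd (Finset.mem_range.2 (by omega)) h
  have hpD : ∀ i v, m.p i (v ᵥ* D) = F.d i (m.p (i + 1) v) := by
    intro i v
    by_cases hi : i < 3
    · rw [m.D_eq, map_sum, Finset.sum_eq_single i, m.ps]
      · intro k _ hk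
        exact hps i k _ (Ne.symm hk)
      · intro h
        exact absurd (Finset.mem_range.2 hi) h
    · rw [hz (i + 1) (by omega) (m.p (i + 1) v), map_zero, m.D_eq, map_sum]
      refine Finset.sum_eq_zero fun k hk => ?_
      refine hps i k _ ?_
      have := Finset.mem_range.1 hk
      omega
  have hdd : ∀ i (y : F.P (i + 1 + 1)), F.d i (F.d (i + 1) y) = 0 := fun i y =>
    (F.exact_succ i _).2 ⟨y, rfl⟩
  have hp1 : ∀ k i, m.p k (Pi.single i (1 : ZG G)) ≠ 0 → deg i = k := by
    intro k i h
    by_contra hk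
    refine h (m.p_deg k _ ?_)
    intro j hj
    rw [Pi.single_apply, if_neg]
    rintro rfl
    exact hk hj
  have hsum : ∀ v : I → ZG G,
      ∑ i, au (v i) * F.aug (m.p 0 (Pi.single i (1 : ZG G))) = F.aug (m.p 0 v) := by
    intro v
    have h1 : v = ∑ i, v i • (Pi.single i (1 : ZG G) : I → ZG G) := by
      funext j
      simp [Finset.sum_apply, Pi.single_apply]
    conv_rhs => rw [h1]
    rw [map_sum, map_sum]
    refine Finset.sum_congr rfl fun i _ => ?_
    rw [map_smul, E2c_aug]
  refine ⟨fun j => F.aug (m.p 0 (Pi.single j (1 : ZG G))), ?_⟩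
  refine ⟨?_, ?_, ?_, ?_, ?_, ?_, ?_, ?_, ?_, ?_, ?_⟩
  · -- D_deg
    intro i j h
    rw [← E2c_row D i j, m.D_eq, Finset.sum_apply] at h
    obtain ⟨k, -, hk⟩ := Finset.exists_ne_zero_of_sum_ne_zero h
    have h1 := m.s_deg k _ j hk
    have h2 : deg i = k + 1 := by
      refine hp1 (k + 1) i ?_
      intro h0
      apply hk
      rw [h0, map_zero, map_zero, Pi.zero_apply]
    omega
  · -- E_deg
    intro i j h
    rw [← E2c_row E i j, m.E_eq, Finset.sum_apply] at h
    obtain ⟨k, -, hk⟩ := Finset.exists_ne_zero_of_sum_ne_zero h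
    have h1 := m.s_deg k _ j hk
    have h2 : deg i = k := by
      refine hp1 k i ?_
      intro h0
      apply hk
      rw [h0, map_zero, Pi.zero_apply]
    omega
  · -- DD
    refine E2c_vec fun v => ?_
    rw [← Matrix.vecMul_vecMul, m.D_eq, Matrix.vecMul_zero]
    refine Finset.sum_eq_zero fun k _ => ?_
    rw [hpD, hdd, map_zero]
  · -- EE
    refine E2c_vec fun v => ?_
    rw [← Matrix.vecMul_vecMul, m.E_eq (v ᵥ* E), m.E_eq v]
    refine Finset.sum_congr rfl fun k _ => ?_
    rw [← m.E_eq v, hpE]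
  · -- ED
    refine E2c_vec fun v => ?_
    rw [← Matrix.vecMul_vecMul, m.D_eq (v ᵥ* E), m.D_eq v]
    refine Finset.sum_congr rfl fun k _ => ?_
    rw [hpE]
  · -- DE
    refine E2c_vec fun v => ?_
    rw [← Matrix.vecMul_vecMul, m.E_eq (v ᵥ* D), Finset.sum_range_succ, hpD 3,
      hz 4 (by norm_num) (m.p (3 + 1) v), map_zero, map_zero, add_zero, m.D_eq v]
    refine Finset.sum_congr rfl fun k _ => ?_
    rw [← m.D_eq v, hpD]
  · -- e_deg
    intro i h
    refine hp1 0 i ?_
    intro h0
    apply h
    rw [h0, map_zero]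
  · -- De
    intro i
    have h1 : ∀ j, D i j = (Pi.single i (1 : ZG G) ᵥ* D) j := fun j => (E2c_row D i j).symm
    simp only [h1]
    rw [hsum, hpD]
    exact (F.exact_zero _).2 ⟨_, rfl⟩
  · -- Ee
    intro i
    have h1 : ∀ j, E i j = (Pi.single i (1 : ZG G) ᵥ* E) j := fun j => (E2c_row E i j).symm
    simp only [h1]
    rw [hsum, hpE]
  · -- surj
    obtain ⟨x, hx⟩ := F.aug_surj 1
    refine ⟨m.s 0 x, ?_, ?_⟩
    · rw [m.E_eq, Finset.sum_eq_single 0, m.ps]
      · intro k _ hk
        rw [hps k 0 x hk, map_zero]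
      · intro h
        exact absurd (Finset.mem_range.2 (by norm_num)) h
    · rw [hsum, m.ps, hx]
  · -- exact
    intro v hvE hvD hv
    rw [hsum] at hv
    have hex : ∀ i, ∃ y : F.P (i + 1), F.d i y = m.p i v := by
      intro i
      cases i with
      | zero => exact (F.exact_zero _).1 hv
      | succ k =>
        refine (F.exact_succ k _).1 ?_
        rw [← hpD, hvD, map_zero]
    choose y hy using hex
    have hpu : ∀ k, k < 3 → m.p (k + 1) (∑ i ∈ Finset.range 3, m.s (i + 1) (y i)) = y k := by
      intro k hk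
      rw [map_sum, Finset.sum_eq_single k, m.ps]
      · intro i _ hi
        refine hps (k + 1) (i + 1) _ ?_
        intro h
        exact hi (by omega)
      · intro h
        exact absurd (Finset.mem_range.2 hk) h
    have hpu0 : m.p 0 (∑ i ∈ Finset.range 3, m.s (i + 1) (y i)) = 0 := by
      rw [map_sum]
      exact Finset.sum_eq_zero fun i _ => hps 0 (i + 1) _ (by omega)
    refine ⟨∑ i ∈ Finset.range 3, m.s (i + 1) (y i), ?_, ?_⟩
    · rw [m.E_eq, Finset.sum_range_succ', hpu0, map_zero, add_zero]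
      refine Finset.sum_congr rfl fun k hk => ?_
      rw [hpu k (Finset.mem_range.1 hk)]
    · have h3 : m.p 3 v = 0 := by
        rw [← hy 3, hz 4 (by norm_num) (y 3), map_zero]
      have h4 : v = ∑ k ∈ Finset.range 3, m.s k (m.p k v) := by
        conv_lhs => rw [← hvE, m.E_eq, Finset.sum_range_succ, h3, map_zero, add_zero]
      rw [m.D_eq, h4]
      refine Finset.sum_congr rfl fun k hk => ?_
      rw [hpu k (Finset.mem_range.1 hk), hy]

end Pool.Agent.CPD
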