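import Pool.Agent.CPD.StE

/-!
# CPD, E2d: the dual resolution of a model
-/

set_option autoImplicit false

namespace Pool.Agent.CPD

open Matrix

namespace E2dx

theorem au_single {G : Type} [Group G] (g : G) (n : ℤ) :
    au (MonoidAlgebra.single g n : ZG G) = n := by
  unfold au
  rw [MonoidAlgebra.lift_single]
  simp

theorem au_star {G : Type} [Group G] (a : ZG G) : au (star a) = au a := by
  show au (gs a) = au a
  induction a using MonoidAlgebra.induction_linear with
  | zero => rw [gs_zero]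
  | add x y hx hy => rw [gs_add, map_add, hx, hy, map_add]
  | single g n => rw [gs_single, au_single, au_single]

/-- an additive function on the group ring which is invariant under right multiplications is a
multiple of the augmentation -/
theorem inv_eq {G : Type} [Group G] (θ : ZG G →+ ℤ)
    (h : ∀ (a : ZG G) (g : G), θ (a * MonoidAlgebra.single g (1 : ℤ)) = θ a) (a : ZG G) :
    θ a = au a * θ 1 := by
  induction a using MonoidAlgebra.induction_linear with
  | zero => rw [map_zero, map_zero, zero_mul]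
  | add x y hx hy => rw [map_add, hx, hy, map_add, add_mul]
  | single g n =>
    have h1 : (MonoidAlgebra.single g n : ZG G) = n • MonoidAlgebra.single g (1 : ℤ) := by
      rw [MonoidAlgebra.smul_single, smul_eq_mul, mul_one]
    have h2 : θ (MonoidAlgebra.single g (1 : ℤ)) = θ 1 := by
      have h3 := h 1 g
      rwa [one_mul] at h3
    rw [au_single, h1, map_zsmul, h2, smul_eq_mul]

section model

variable {G : Type} [Group G] {F : FPRes G} {I : Type} [Fintype I] [DecidableEq I]
  {deg : I → ℕ} {D E : Matrix I I (ZG G)} (M : Model F I deg D E)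

include M

theorem p_s_ne {i k : ℕ} (h : i ≠ k) (x : F.P i) : M.p k (M.s i x) = 0 := by
  refine M.p_deg k _ fun j hj => ?_
  by_contra hne
  exact h ((M.s_deg i x j hne).symm.trans hj)

theorem p_E {k : ℕ} (hk : k < 4) (v : I → ZG G) : M.p k (v ᵥ* E) = M.p k v := by
  rw [M.E_eq, map_sum, Finset.sum_eq_single k]
  · exact M.ps k _
  · intro i _ hi
    exact p_s_ne M hi _
  · intro h
    exact absurd (Finset.mem_range.mpr hk) h

theorem p_D {k : ℕ} (hk : k < 3) (v : I → ZG G) : M.p k (v ᵥ* D) = F.d k (M.p (k + 1) v) := by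
  rw [M.D_eq, map_sum, Finset.sum_eq_single k]
  · exact M.ps k _
  · intro i _ hi
    exact p_s_ne M hi _
  · intro h
    exact absurd (Finset.mem_range.mpr hk) h

theorem s_E {i : ℕ} (hi : i < 4) (x : F.P i) : M.s i x ᵥ* E = M.s i x := by
  rw [M.E_eq, Finset.sum_eq_single i]
  · rw [M.ps]
  · intro k _ hk
    rw [p_s_ne M (Ne.symm hk), map_zero]
  · intro h
    exact absurd (Finset.mem_range.mpr hi) h

theorem s_D {i : ℕ} (hi : i < 3) (y : F.P (i + 1)) : M.s (i + 1) y ᵥ* D = M.s i (F.d i y) := by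
  rw [M.D_eq, Finset.sum_eq_single i]
  · rw [M.ps]
  · intro k _ hk
    rw [p_s_ne M (fun h => hk (Nat.succ_injective h).symm), map_zero, map_zero]
  · intro h
    exact absurd (Finset.mem_range.mpr hi) h

omit M in
theorem lin_eq (Φ : (I → ZG G) →ₗ[ZG G] ZG G) (v : I → ZG G) :
    v ⬝ᵥ (fun j => Φ (Pi.single j 1)) = Φ v := by
  have h1 : v = ∑ j, v j • (Pi.single j (1 : ZG G) : I → ZG G) := by
    ext i
    rw [Finset.sum_apply, Finset.sum_eq_single i]
    · rw [Pi.smul_apply, Pi.single_eq_same, smul_eq_mul, mul_one]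
    · intro j _ hj
      rw [Pi.smul_apply, Pi.single_eq_of_ne (Ne.symm hj), smul_zero]
    · intro h
      exact absurd (Finset.mem_univ _) h
  conv_rhs => rw [h1]
  rw [map_sum]
  refine Finset.sum_congr rfl fun j _ => ?_
  rw [map_smul, smul_eq_mul]

/-- the homomorphism given by a column -/
noncomputable def ph (i : ℕ) (c : I → ZG G) : F.P i →ₗ[ZG G] ZG G where
  toFun x := M.s i x ⬝ᵥ c
  map_add' x y := by rw [map_add, add_dotProduct]
  map_smul' a x := by rw [map_smul, smul_dotProduct, RingHom.id_apply]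

theorem ph_apply (i : ℕ) (c : I → ZG G) (x : F.P i) : ph M i c x = M.s i x ⬝ᵥ c := rfl

/-- the column given by a homomorphism -/
noncomputable def co (i : ℕ) (ψ : F.P i →ₗ[ZG G] ZG G) (j : I) : ZG G :=
  ψ (M.p i (Pi.single j 1))

theorem dot_co (i : ℕ) (ψ : F.P i →ₗ[ZG G] ZG G) (v : I → ZG G) :
    v ⬝ᵥ co M i ψ = ψ (M.p i v) := lin_eq (ψ ∘ₗ M.p i) v

theorem ph_co (i : ℕ) (ψ : F.P i →ₗ[ZG G] ZG G) : ph M i (co M i ψ) = ψ := by
  ext x
  rw [ph_apply, dot_co, M.ps]

omit M in
theorem mulVec_eq (A : Matrix I I (ZG G)) (c : I → ZG G) (j : I) :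
    (A *ᵥ c) j = (Pi.single j (1 : ZG G) ᵥ* A) ⬝ᵥ c := by
  rw [← dotProduct_mulVec, single_one_dotProduct]

theorem E_co {i : ℕ} (hi : i < 4) (ψ : F.P i →ₗ[ZG G] ZG G) : E *ᵥ co M i ψ = co M i ψ := by
  ext1 j
  rw [mulVec_eq, dot_co, p_E M hi]
  rfl

theorem D_co {i : ℕ} (hi : i < 3) (ψ : F.P i →ₗ[ZG G] ZG G) :
    D *ᵥ co M i ψ = co M (i + 1) (ψ ∘ₗ F.d i) := by
  ext1 j
  rw [mulVec_eq, dot_co, p_D M hi]
  rfl

/-- a column fixed by `E` is the sum of its homogeneous parts -/
theorem col_eq (c : I → ZG G) (hc : E *ᵥ c = c) :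
    c = ∑ i ∈ Finset.range 4, co M i (ph M i c) := by
  ext1 j
  conv_lhs => rw [← hc, mulVec_eq, M.E_eq]
  rw [Finset.sum_apply]
  have h1 : ∀ (s : Finset ℕ) (f : ℕ → I → ZG G), (∑ i ∈ s, f i) ⬝ᵥ c = ∑ i ∈ s, f i ⬝ᵥ c := by
    intro s f
    exact sum_dotProduct s f c
  rw [h1]
  rfl

theorem ph_cocycle (hP : ∀ i, 3 < i → Subsingleton (F.P i)) {i : ℕ} (hi : i < 4) (c : I → ZG G)
    (hc : D *ᵥ c = 0) : ph M i c ∈ F.cocycles i := by
  show ph M i c ∘ₗ F.d i = 0
  ext y
  rw [LinearMap.comp_apply, ph_apply, LinearMap.zero_apply]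
  rcases Nat.lt_or_ge i 3 with h | h
  · rw [← s_D M h, ← dotProduct_mulVec, hc, dotProduct_zero]
  · have := hP (i + 1) (by omega)
    rw [Subsingleton.elim y 0, map_zero, map_zero, zero_dotProduct]

theorem ph3_cocycle (hP : ∀ i, 3 < i → Subsingleton (F.P i)) (c : I → ZG G) :
    ph M 3 c ∈ F.cocycles 3 := by
  show ph M 3 c ∘ₗ F.d 3 = 0
  ext y
  have := hP (3 + 1) (by omega)
  rw [LinearMap.comp_apply, Subsingleton.elim y 0, map_zero, map_zero, LinearMap.zero_apply]

/-- the functional on columns -/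
noncomputable def Wf (hP : ∀ i, 3 < i → Subsingleton (F.P i)) (w : F.cocycles 3 →+ ℤ) :
    (I → ZG G) →+ ℤ where
  toFun c := w ⟨ph M 3 c, ph3_cocycle M hP c⟩
  map_zero' := by
    have h : (⟨ph M 3 0, ph3_cocycle M hP 0⟩ : F.cocycles 3) = 0 := by
      apply Subtype.ext
      show ph M 3 0 = 0
      ext x
      rw [ph_apply, dotProduct_zero, LinearMap.zero_apply]
    rw [h, map_zero]
  map_add' a b := by
    rw [← map_add]
    congr 1
    apply Subtype.ext
    show ph M 3 (a + b) = ph M 3 a + ph M 3 b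
    ext x
    rw [ph_apply, dotProduct_add, LinearMap.add_apply, ph_apply, ph_apply]

theorem Wf_eq (hP : ∀ i, 3 < i → Subsingleton (F.P i)) (w : F.cocycles 3 →+ ℤ)
    (hw : ∀ (g : G) (φ φ' : F.cocycles 3), (φ' : F.P 3 →ₗ[ZG G] ZG G) = rmul g φ → w φ' = w φ)
    (c : I → ZG G) : ∑ j, au (c j) * Wf M hP w (Pi.single j 1) = Wf M hP w c := by
  have h1 : ∀ (j : I) (a : ZG G), Wf M hP w (Pi.single j a) =
      au a * Wf M hP w (Pi.single j 1) := by
    intro j a
    refine inv_eq ((Wf M hP w).comp (AddMonoidHom.single (fun _ : I => ZG G) j)) ?_ a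
    intro a g
    show Wf M hP w (Pi.single j (a * MonoidAlgebra.single g (1 : ℤ))) = Wf M hP w (Pi.single j a)
    refine hw g _ _ ?_
    show ph M 3 (Pi.single j (a * MonoidAlgebra.single g (1 : ℤ))) = rmul g (ph M 3 (Pi.single j a))
    refine LinearMap.ext fun x => ?_
    show M.s 3 x ⬝ᵥ Pi.single j (a * MonoidAlgebra.single g (1 : ℤ)) =
      (M.s 3 x ⬝ᵥ Pi.single j a) * MonoidAlgebra.single g (1 : ℤ)
    rw [dotProduct_single, dotProduct_single, mul_assoc]
  rw [Finset.sum_congr rfl fun j _ => (h1 j (c j)).symm, ← map_sum, Finset.univ_sum_single]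

end model

end E2dx

open E2dx in
theorem E2d : St_E2d := by
  intro G _ F I _ _ deg D E e hP hpd M hres
  obtain ⟨hz, hex, wF, hsurj, hker, hinv⟩ := hpd
  set w : I → ℤ := fun j => Wf M hP wF (Pi.single j 1) with hw
  have hW : ∀ c : I → ZG G, ∑ j, au (c j) * w j = Wf M hP wF c := fun c =>
    Wf_eq M hP wF hinv c
  have hWφ : ∀ c c' : I → ZG G, ph M 3 c = ph M 3 c' → Wf M hP wF c = Wf M hP wF c' := by
    intro c c' h
    show wF _ = wF _
    congr 1
    exact Subtype.ext h
  have hstar : ∀ (A : Matrix I I (ZG G)) (u : I → ZG G), u ᵥ* Aᴴ = star (A *ᵥ star u) :=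
    fun A u => vecMul_conjTranspose A u
  refine ⟨w, ?_⟩
  refine { D_deg := ?_, E_deg := ?_, DD := ?_, EE := ?_, ED := ?_, DE := ?_, e_deg := ?_,
           De := ?_, Ee := ?_, surj := ?_, exact := ?_ }
  · intro i j h
    have h1 : D j i ≠ 0 := fun h0 => h (by rw [conjTranspose_apply, h0, star_zero])
    have h2 := hres.D_deg j i h1
    have h3 := M.deg_le j
    show 3 - deg i = 3 - deg j + 1
    omega
  · intro i j h
    have h1 : E j i ≠ 0 := fun h0 => h (by rw [conjTranspose_apply, h0, star_zero])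
    have h2 := hres.E_deg j i h1
    show 3 - deg i = 3 - deg j
    omega
  · rw [← conjTranspose_mul, hres.DD, conjTranspose_zero]
  · rw [← conjTranspose_mul, hres.EE]
  · rw [← conjTranspose_mul, hres.DE]
  · rw [← conjTranspose_mul, hres.ED]
  · intro i hi
    show 3 - deg i = 0
    by_contra hne
    apply hi
    have h1 : ph M 3 (Pi.single i (1 : ZG G)) = ph M 3 0 := by
      refine LinearMap.ext fun x => ?_
      rw [ph_apply, ph_apply, dotProduct_zero, dotProduct_single, mul_one]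
      by_contra h2
      have h3 := M.s_deg 3 x i h2
      omega
    show Wf M hP wF (Pi.single i 1) = 0
    rw [hWφ _ _ h1, map_zero]
  · intro i
    have h1 : ∑ j, au (Dᴴ i j) * w j = ∑ j, au (D j i) * w j :=
      Finset.sum_congr rfl fun j _ => by rw [conjTranspose_apply, au_star]
    rw [h1, hW fun j => D j i]
    refine (hker _).mpr ⟨ph M 2 (Pi.single i 1), ?_⟩
    show ph M 3 (fun j => D j i) = ph M 2 (Pi.single i 1) ∘ₗ F.d 2
    ext x
    rw [LinearMap.comp_apply, ph_apply, ph_apply, dotProduct_single, mul_one,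
      ← s_D M (by norm_num : 2 < 3)]
    rfl
  · intro i
    have h1 : ∑ j, au (Eᴴ i j) * w j = ∑ j, au (E j i) * w j :=
      Finset.sum_congr rfl fun j _ => by rw [conjTranspose_apply, au_star]
    rw [h1, hW fun j => E j i]
    refine hWφ _ _ ?_
    ext x
    rw [ph_apply, ph_apply, dotProduct_single, mul_one]
    conv_rhs => rw [← s_E M (by norm_num : 3 < 4) x]
    rfl
  · obtain ⟨φ, hφ⟩ := hsurj 1
    refine ⟨star (co M 3 (φ : F.P 3 →ₗ[ZG G] ZG G)), ?_, ?_⟩
    · rw [hstar, star_star, E_co M (by norm_num)]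
    · have h1 : ∑ i, au (star (co M 3 (φ : F.P 3 →ₗ[ZG G] ZG G)) i) * w i =
          ∑ i, au (co M 3 (φ : F.P 3 →ₗ[ZG G] ZG G) i) * w i :=
        Finset.sum_congr rfl fun j _ => by rw [Pi.star_apply, au_star]
      rw [h1, hW, ← hφ]
      show wF _ = wF _
      congr 1
      exact Subtype.ext (ph_co M 3 _)
  · intro u hE hD hau
    set c : I → ZG G := star u with hc
    have huc : u = star c := by rw [hc, star_star]
    have hEc : E *ᵥ c = c := by
      have h1 : star (E *ᵥ c) = u := by rw [← hstar, hE]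
      have h2 : star (star (E *ᵥ c)) = star u := congrArg star h1
      rwa [star_star] at h2
    have hDc : D *ᵥ c = 0 := by
      have h1 : star (D *ᵥ c) = 0 := by rw [← hstar, hD]
      rw [← star_star (D *ᵥ c), h1, star_zero]
    have hWc : Wf M hP wF c = 0 := by
      rw [← hW c, ← hau]
      exact Finset.sum_congr rfl fun j _ => by rw [hc, Pi.star_apply, au_star]
    obtain ⟨ψ₂, h₂⟩ := (hker ⟨ph M 3 c, ph3_cocycle M hP c⟩).mp hWc
    obtain ⟨ψ₁, h₁⟩ := hex 1 (by norm_num) (ph M 2 c) (ph_cocycle M hP (by norm_num) c hDc)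
    obtain ⟨ψ₀, h₀⟩ := hex 0 (by norm_num) (ph M 1 c) (ph_cocycle M hP (by norm_num) c hDc)
    have hz0 : ph M 0 c = 0 := hz _ (ph_cocycle M hP (by norm_num) c hDc)
    have h₂' : ph M 3 c = ψ₂ ∘ₗ F.d 2 := h₂
    have hsum := col_eq M c hEc
    rw [Finset.sum_range_succ, Finset.sum_range_succ, Finset.sum_range_succ,
      Finset.sum_range_succ, Finset.sum_range_zero, hz0, h₀, h₁, h₂'] at hsum
    have hco0 : co M 0 (0 : F.P 0 →ₗ[ZG G] ZG G) = 0 := by
      ext1 j
      rfl
    refine ⟨star (co M 0 ψ₀ + co M 1 ψ₁ + co M 2 ψ₂), ?_, ?_⟩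
    · rw [hstar, star_star, mulVec_add, mulVec_add, E_co M (by norm_num), E_co M (by norm_num),
        E_co M (by norm_num)]
    · rw [hstar, star_star, mulVec_add, mulVec_add, D_co M (by norm_num), D_co M (by norm_num),
        D_co M (by norm_num), huc]
      congr 1
      rw [hsum, hco0]
      simp only [zero_add, Nat.reduceAdd]

end Pool.Agent.CPD
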