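import Pool.Agent.CPD.StE

/-!
# E3a: comparison of resolutions, existence of a chain map covering the identity
-/

set_option autoImplicit false

namespace Pool.Agent.CPD

open Matrix

namespace E3aL

variable {G : Type} [Group G] {I : Type} [Fintype I] [DecidableEq I]

theorem vm (v : I → ZG G) (M : Matrix I I (ZG G)) (j : I) : (v ᵥ* M) j = ∑ i, v i * M i j := rfl

/-- homogeneous part -/
noncomputable def part (deg : I → ℕ) (n : ℕ) (v : I → ZG G) : I → ZG G :=
  fun j => if deg j = n then v j else 0

theorem part_E {deg : I → ℕ} {E : Matrix I I (ZG G)} (hE : ∀ i j, E i j ≠ 0 → deg i = deg j)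
    (n : ℕ) (v : I → ZG G) : part deg n (v ᵥ* E) = part deg n v ᵥ* E := by
  funext j
  rw [vm]
  unfold part
  by_cases hj : deg j = n
  · rw [if_pos hj, vm]
    refine Finset.sum_congr rfl fun i _ => ?_
    by_cases h0 : E i j = 0
    · rw [h0, mul_zero, mul_zero]
    · rw [if_pos (by rw [hE i j h0]; exact hj)]
  · rw [if_neg hj]
    symm
    refine Finset.sum_eq_zero fun i _ => ?_
    by_cases h0 : E i j = 0
    · rw [h0, mul_zero]
    · rw [if_neg (fun h => hj (by rw [← hE i j h0]; exact h)), zero_mul]

theorem part_D {deg : I → ℕ} {D : Matrix I I (ZG G)} (hD : ∀ i j, D i j ≠ 0 → deg i = deg j + 1)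
    (n : ℕ) (v : I → ZG G) : part deg n (v ᵥ* D) = part deg (n + 1) v ᵥ* D := by
  funext j
  rw [vm]
  unfold part
  by_cases hj : deg j = n
  · rw [if_pos hj, vm]
    refine Finset.sum_congr rfl fun i _ => ?_
    by_cases h0 : D i j = 0
    · rw [h0, mul_zero, mul_zero]
    · rw [if_pos (by rw [hD i j h0, hj])]
  · rw [if_neg hj]
    symm
    refine Finset.sum_eq_zero fun i _ => ?_
    by_cases h0 : D i j = 0
    · rw [h0, mul_zero]
    · rw [if_neg (fun h => hj (by have := hD i j h0; omega)), zero_mul]

theorem part_self {deg : I → ℕ} {n : ℕ} {v : I → ZG G} (h : ∀ j, v j ≠ 0 → deg j = n) :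
    part deg n v = v := by
  funext j
  unfold part
  split_ifs with hj
  · rfl
  · by_contra hc
    exact hj (h j (Ne.symm hc))

/-- a nonzero entry of a product -/
theorem exists_mul {A B : Matrix I I (ZG G)} {i j : I} (h : (A * B) i j ≠ 0) :
    ∃ k, A i k ≠ 0 ∧ B k j ≠ 0 := by
  rw [Matrix.mul_apply] at h
  obtain ⟨k, _, hk⟩ := Finset.exists_ne_zero_of_sum_ne_zero h
  exact ⟨k, left_ne_zero_of_mul hk, right_ne_zero_of_mul hk⟩

/-- the claim of the induction -/
def Cl (deg deg' : I → ℕ) (D E D' E' : Matrix I I (ZG G)) (e e' : I → ℤ) (n : ℕ) : Prop :=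
  ∃ F : Matrix I I (ZG G), (∀ i j, F i j ≠ 0 → deg i = deg' j) ∧ E * F = F ∧ F * E' = F ∧
    (∀ i, n ≤ deg i → ∀ j, F i j = 0) ∧ (∀ i, deg i < n → ∀ j, (D * F) i j = (F * D') i j) ∧
    ∀ i, deg i = 0 → ∑ j, au (F i j) * e' j = e i

theorem base {deg deg' : I → ℕ} {D E D' E' : Matrix I I (ZG G)} {e e' : I → ℤ}
    (h : Res deg D E e) (h' : Res deg' D' E' e') : Cl deg deg' D E D' E' e e' 1 := by
  obtain ⟨o, ho1, ho2⟩ := h'.surj
  set p := part deg' 0 o with hp
  have hp1 : p ᵥ* E' = p := by
    rw [hp, ← part_E h'.E_deg, ho1]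
  have hp2 : ∑ j, au (p j) * e' j = 1 := by
    rw [← ho2]
    refine Finset.sum_congr rfl fun j _ => ?_
    by_cases h0 : e' j = 0
    · rw [h0, mul_zero, mul_zero]
    · rw [hp]
      unfold part
      rw [if_pos (h'.e_deg j h0)]
  set M : Matrix I I (ZG G) := Matrix.of fun i j => (e i : ZG G) * p j with hM
  have hMa : ∀ i j, M i j = (e i : ZG G) * p j := fun i j => rfl
  have hM0 : ∀ i j, M i j ≠ 0 → deg i = 0 ∧ deg' j = 0 := by
    intro i j hij
    rw [hMa] at hij
    constructor
    · apply h.e_deg
      intro h0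
      rw [h0] at hij
      simp at hij
    · by_contra hc
      apply hij
      have : p j = 0 := by
        rw [hp]
        unfold part
        rw [if_neg hc]
      rw [this, mul_zero]
  have hME : M * E' = M := by
    apply Matrix.ext
    intro i j
    have h1 := congrFun hp1 j
    rw [vm] at h1
    rw [Matrix.mul_apply, hMa]
    conv_rhs => rw [← h1]
    rw [Finset.mul_sum]
    refine Finset.sum_congr rfl fun k _ => ?_
    rw [hMa, mul_assoc]
  have hF0 : ∀ i j, (E * M) i j ≠ 0 → deg i = 0 ∧ deg' j = 0 := by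
    intro i j hij
    obtain ⟨k, hk1, hk2⟩ := exists_mul hij
    have h1 := hM0 k j hk2
    exact ⟨by rw [h.E_deg i k hk1]; exact h1.1, h1.2⟩
  refine ⟨E * M, ?_, ?_, ?_, ?_, ?_, ?_⟩
  · intro i j hij
    have h1 := hF0 i j hij
    rw [h1.1, h1.2]
  · rw [← Matrix.mul_assoc, h.EE]
  · rw [Matrix.mul_assoc, hME]
  · intro i hi j
    by_contra hc
    have h1 := hF0 i j hc
    omega
  · intro i hi j
    have e1 : (D * (E * M)) i j = 0 := by
      by_contra hc
      obtain ⟨k, hk1, _⟩ := exists_mul hc
      have := h.D_deg i k hk1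
      omega
    have e2 : (E * M * D') i j = 0 := by
      by_contra hc
      obtain ⟨k, hk1, hk2⟩ := exists_mul hc
      have h1 := hF0 i k hk1
      have h2 := h'.D_deg k j hk2
      omega
    rw [e1, e2]
  · intro i _
    have h1 : ∀ j, au ((E * M) i j) * e' j = ∑ k, (au (E i k) * e k) * (au (p j) * e' j) := by
      intro j
      rw [Matrix.mul_apply, map_sum, Finset.sum_mul]
      refine Finset.sum_congr rfl fun k _ => ?_
      rw [map_mul, hMa, map_mul, map_intCast]
      simp only [Int.cast_id]
      ring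
    rw [Finset.sum_congr rfl fun j _ => h1 j, Finset.sum_comm]
    have h2 : ∀ k, ∑ j, (au (E i k) * e k) * (au (p j) * e' j) = au (E i k) * e k := by
      intro k
      rw [← Finset.mul_sum, hp2, mul_one]
    rw [Finset.sum_congr rfl fun k _ => h2 k]
    exact h.Ee i

theorem step {deg deg' : I → ℕ} {D E D' E' : Matrix I I (ZG G)} {e e' : I → ℤ}
    (h : Res deg D E e) (h' : Res deg' D' E' e') (n : ℕ) (hn : 1 ≤ n)
    (hC : Cl deg deg' D E D' E' e e' n) : Cl deg deg' D E D' E' e e' (n + 1) := by
  obtain ⟨F, ha, hb, hc, hd, he, hf⟩ := hC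
  have hf' : ∀ i, ∑ j, au (F i j) * e' j = e i := by
    intro i
    by_cases hi : deg i = 0
    · exact hf i hi
    · have h1 : e i = 0 := by
        by_contra h0
        exact hi (h.e_deg i h0)
      rw [h1]
      refine Finset.sum_eq_zero fun j _ => ?_
      by_cases h2 : e' j = 0
      · rw [h2, mul_zero]
      · by_cases h3 : F i j = 0
        · rw [h3, map_zero, zero_mul]
        · exact absurd (by rw [ha i j h3]; exact h'.e_deg j h2) hi
  -- the rows
  have key : ∀ i, deg i = n → ∃ u : I → ZG G, u ᵥ* E' = u ∧ (∀ j, u j ≠ 0 → deg' j = n) ∧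
      ∀ j, (u ᵥ* D') j = (D * F) i j := by
    intro i hi
    set v : I → ZG G := fun j => (D * F) i j with hv
    have hvE : v ᵥ* E' = v := by
      funext j
      rw [vm]
      change ∑ k, (D * F) i k * E' k j = (D * F) i j
      rw [← Matrix.mul_apply, Matrix.mul_assoc, hc]
    have hvD : v ᵥ* D' = 0 := by
      funext j
      rw [vm]
      change ∑ k, (D * F) i k * D' k j = 0
      rw [← Matrix.mul_apply, Matrix.mul_assoc, Matrix.mul_apply]
      have h1 : ∀ k, D i k * (F * D') k j = D i k * (D * F) k j := by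
        intro k
        by_cases h0 : D i k = 0
        · rw [h0, zero_mul, zero_mul]
        · have := h.D_deg i k h0
          rw [he k (by omega) j]
      rw [Finset.sum_congr rfl fun k _ => h1 k, ← Matrix.mul_apply, ← Matrix.mul_assoc, h.DD,
        Matrix.zero_mul]
      rfl
    have hva : ∑ j, au (v j) * e' j = 0 := by
      have h1 : ∀ j, au (v j) * e' j = ∑ k, au (D i k) * (au (F k j) * e' j) := by
        intro j
        change au ((D * F) i j) * e' j = _
        rw [Matrix.mul_apply, map_sum, Finset.sum_mul]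
        refine Finset.sum_congr rfl fun k _ => ?_
        rw [map_mul, mul_assoc]
      rw [Finset.sum_congr rfl fun j _ => h1 j, Finset.sum_comm]
      have h2 : ∀ k, ∑ j, au (D i k) * (au (F k j) * e' j) = au (D i k) * e k := by
        intro k
        rw [← Finset.mul_sum, hf' k]
      rw [Finset.sum_congr rfl fun k _ => h2 k]
      exact h.De i
    have hvd : ∀ j, v j ≠ 0 → deg' j = n - 1 := by
      intro j hj
      obtain ⟨k, hk1, hk2⟩ := exists_mul hj
      have h1 := h.D_deg i k hk1
      have h2 := ha k j hk2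
      omega
    obtain ⟨u, hu1, hu2⟩ := h'.exact v hvE hvD hva
    refine ⟨part deg' n u, ?_, ?_, ?_⟩
    · rw [← part_E h'.E_deg, hu1]
    · intro j hj
      unfold part at hj
      by_contra hc2
      exact hj (if_neg hc2)
    · intro j
      obtain ⟨m, rfl⟩ : ∃ m, n = m + 1 := ⟨n - 1, by omega⟩
      have hvd' : ∀ j, v j ≠ 0 → deg' j = m := fun j hj => hvd j hj
      rw [← part_D h'.D_deg, hu2, part_self hvd']
  classical
  choose! u hu1 hu2 hu3 using key
  set M : Matrix I I (ZG G) := Matrix.of fun i j => if deg i = n then u i j else 0 with hM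
  have hMa : ∀ i j, M i j = if deg i = n then u i j else 0 := fun i j => rfl
  have hM0 : ∀ i j, M i j ≠ 0 → deg i = n ∧ deg' j = n := by
    intro i j hij
    rw [hMa] at hij
    by_cases hi : deg i = n
    · rw [if_pos hi] at hij
      exact ⟨hi, hu2 i hi j hij⟩
    · rw [if_neg hi] at hij
      exact absurd rfl hij
  have hME : M * E' = M := by
    apply Matrix.ext
    intro i j
    rw [Matrix.mul_apply]
    by_cases hi : deg i = n
    · have h1 := congrFun (hu1 i hi) j
      rw [vm] at h1
      rw [hMa, if_pos hi]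
      conv_rhs => rw [← h1]
      refine Finset.sum_congr rfl fun k _ => ?_
      rw [hMa, if_pos hi]
    · rw [hMa, if_neg hi]
      refine Finset.sum_eq_zero fun k _ => ?_
      rw [hMa, if_neg hi, zero_mul]
  have hMD : ∀ i, deg i = n → ∀ j, (M * D') i j = (D * F) i j := by
    intro i hi j
    rw [← hu3 i hi j, vm, Matrix.mul_apply]
    refine Finset.sum_congr rfl fun k _ => ?_
    rw [hMa, if_pos hi]
  have hEM0 : ∀ i j, (E * M) i j ≠ 0 → deg i = n ∧ deg' j = n := by
    intro i j hij
    obtain ⟨k, hk1, hk2⟩ := exists_mul hij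
    have h1 := hM0 k j hk2
    exact ⟨by rw [h.E_deg i k hk1]; exact h1.1, h1.2⟩
  have hDM0 : ∀ i j, deg i ≤ n → (D * M) i j = 0 := by
    intro i j hi
    by_contra hc2
    obtain ⟨k, hk1, hk2⟩ := exists_mul hc2
    have h1 := hM0 k j hk2
    have h2 := h.D_deg i k hk1
    omega
  have hDEM : D * (E * M) = D * M := by rw [← Matrix.mul_assoc, h.DE]
  refine ⟨F + E * M, ?_, ?_, ?_, ?_, ?_, ?_⟩
  · intro i j hij
    rw [Matrix.add_apply] at hij
    by_cases h0 : F i j = 0
    · rw [h0, zero_add] at hij
      have h1 := hEM0 i j hij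
      rw [h1.1, h1.2]
    · exact ha i j h0
  · rw [Matrix.mul_add, hb, ← Matrix.mul_assoc, h.EE]
  · rw [Matrix.add_mul, hc, Matrix.mul_assoc, hME]
  · intro i hi j
    rw [Matrix.add_apply, hd i (by omega) j, zero_add]
    by_contra hc2
    have h1 := hEM0 i j hc2
    omega
  · intro i hi j
    rw [Matrix.mul_add, Matrix.add_mul, Matrix.add_apply, Matrix.add_apply, hDEM,
      hDM0 i j (by omega), add_zero]
    by_cases hin : deg i = n
    · have h1 : (F * D') i j = 0 := by
        rw [Matrix.mul_apply]
        refine Finset.sum_eq_zero fun k _ => ?_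
        rw [hd i (by omega) k, zero_mul]
      have h2 : ∀ k, E i k * (M * D') k j = E i k * (D * F) k j := by
        intro k
        by_cases h0 : E i k = 0
        · rw [h0, zero_mul, zero_mul]
        · rw [hMD k (by rw [← h.E_deg i k h0]; exact hin) j]
      have h3 : (E * (M * D')) i j = (E * (D * F)) i j := by
        rw [Matrix.mul_apply, Matrix.mul_apply]
        exact Finset.sum_congr rfl fun k _ => h2 k
      rw [h1, zero_add, Matrix.mul_assoc, h3, ← Matrix.mul_assoc, h.ED]
    · have h1 : (E * M * D') i j = 0 := by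
        rw [Matrix.mul_apply]
        refine Finset.sum_eq_zero fun k _ => ?_
        have h2 : (E * M) i k = 0 := by
          by_contra hc2
          exact hin (hEM0 i k hc2).1
        rw [h2, zero_mul]
      rw [h1, add_zero]
      exact he i (by omega) j
  · intro i hi
    rw [← hf i hi]
    refine Finset.sum_congr rfl fun j _ => ?_
    have h2 : (E * M) i j = 0 := by
      by_contra hc2
      have := (hEM0 i j hc2).1
      omega
    rw [Matrix.add_apply, h2, add_zero]

end E3aL

open E3aL

/-- [E3a] comparison: existence of a chain map which covers the identity of the integers -/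
theorem E3a : St_E3a := by
  intro G _ I _ _ deg deg' D E D' E' e e' hdeg h h'
  have h1 := base h h'
  have h2 := step h h' 1 le_rfl h1
  have h3 := step h h' 2 (by norm_num) h2
  obtain ⟨F, ha, hb, hc, -, he, hf⟩ := step h h' 3 (by norm_num) h3
  refine ⟨F, ha, hb, hc, ?_, ?_⟩
  · apply Matrix.ext
    intro i j
    exact he i (Nat.lt_succ_of_le (hdeg i)) j
  · intro i
    by_cases hi : deg i = 0
    · exact hf i hi
    · have h1 : e i = 0 := by
        by_contra h0
        exact hi (h.e_deg i h0)
      rw [h1]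
      refine Finset.sum_eq_zero fun j _ => ?_
      by_cases h2 : e' j = 0
      · rw [h2, mul_zero]
      · by_cases h3 : F i j = 0
        · rw [h3, map_zero, zero_mul]
        · exact absurd (by rw [ha i j h3]; exact h'.e_deg j h2) hi

end Pool.Agent.CPD
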