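import Pool.Agent.CPD.StE

/-!
# CPD (E3b): a chain map which covers zero is null-homotopic
-/

set_option autoImplicit false

namespace Pool.Agent.CPD

open Matrix

section

variable {G I : Type} [Group G] [Fintype I]

private lemma E3b_ne {A B : Matrix I I (ZG G)} {i j : I} (h : (A * B) i j ≠ 0) :
    ∃ k, A i k ≠ 0 ∧ B k j ≠ 0 := by
  rw [Matrix.mul_apply] at h
  obtain ⟨k, -, hk⟩ := Finset.exists_ne_zero_of_sum_ne_zero h
  exact ⟨k, left_ne_zero_of_mul hk, right_ne_zero_of_mul hk⟩

private lemma E3b_step {deg : I → ℕ} {D E A : Matrix I I (ZG G)} {e : I → ℤ}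
    (hR : Res deg D E e) (hA : ∀ i j, A i j ≠ 0 → deg i = deg j) (hEA : E * A = A)
    (hAE : A * E = A) (hDA : D * A = A * D) (hau : ∀ i, ∑ j, au (A i j) * e j = 0) (n : ℕ)
    {h : Matrix I I (ZG G)} (h0 : ∀ i j, n ≤ deg i → h i j = 0)
    (h1 : ∀ i j, h i j ≠ 0 → deg j = deg i + 1) (h2 : E * h = h) (h3 : h * E = h)
    (h4 : ∀ i, deg i < n → ∀ j, A i j = (h * D + D * h) i j) :
    ∃ h' : Matrix I I (ZG G), (∀ i j, n + 1 ≤ deg i → h' i j = 0) ∧
      (∀ i j, h' i j ≠ 0 → deg j = deg i + 1) ∧ E * h' = h' ∧ h' * E = h' ∧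
      ∀ i, deg i < n + 1 → ∀ j, A i j = (h' * D + D * h') i j := by
  classical
  obtain ⟨V, hV⟩ : ∃ V : Matrix I I (ZG G), V = A - D * h := ⟨_, rfl⟩
  have hVE : V * E = V := by
    rw [hV, Matrix.sub_mul, hAE, Matrix.mul_assoc, h3]
  have hEV : E * V = V := by
    rw [hV, Matrix.mul_sub, hEA, ← Matrix.mul_assoc, hR.ED]
  have hVd : ∀ i j, V i j ≠ 0 → deg i = deg j := by
    intro i j hij
    by_cases ha : A i j = 0
    · have hb : (D * h) i j ≠ 0 := by
        intro hb
        apply hij
        rw [hV, Matrix.sub_apply, ha, hb, sub_zero]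
      obtain ⟨k, hk1, hk2⟩ := E3b_ne hb
      have e1 := hR.D_deg i k hk1
      have e2 := h1 k j hk2
      omega
    · exact hA i j ha
  have hVD : ∀ i, deg i = n → ∀ j, (V * D) i j = 0 := by
    intro i hi j
    have e1 : V * D = D * (A - h * D) := by
      rw [hV, Matrix.sub_mul, ← hDA, Matrix.mul_sub, Matrix.mul_assoc]
    have e2 : (D * (D * h)) i j = 0 := by
      rw [← Matrix.mul_assoc, hR.DD, Matrix.zero_mul, Matrix.zero_apply]
    rw [e1, ← e2, Matrix.mul_apply, Matrix.mul_apply]
    refine Finset.sum_congr rfl fun k _ => ?_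
    by_cases hk : D i k = 0
    · rw [hk, zero_mul, zero_mul]
    · have e3 := hR.D_deg i k hk
      rw [Matrix.sub_apply, h4 k (by omega) j, Matrix.add_apply, add_sub_cancel_left]
  have hVau : ∀ i, ∑ j, au (V i j) * e j = 0 := by
    intro i
    rw [← hau i]
    refine Finset.sum_congr rfl fun j _ => ?_
    by_cases hj : e j = 0
    · rw [hj, mul_zero, mul_zero]
    · have e1 := hR.e_deg j hj
      have e2 : (D * h) i j = 0 := by
        by_contra hb
        obtain ⟨k, hk1, hk2⟩ := E3b_ne hb
        have e3 := h1 k j hk2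
        omega
      rw [hV, Matrix.sub_apply, e2, sub_zero]
  have hu : ∀ i, ∃ u : I → ZG G, deg i = n →
      (u ᵥ* E = u ∧ (∀ j, u j ≠ 0 → deg j = n + 1) ∧ u ᵥ* D = fun j => V i j) := by
    intro i
    by_cases hi : deg i = n
    · obtain ⟨u, hu1, hu2⟩ := hR.exact (fun j => V i j)
        (by
          funext j
          exact congrFun (congrFun hVE i) j)
        (by
          funext j
          exact hVD i hi j) (hVau i)
      refine ⟨fun j => if deg j = n + 1 then u j else 0, fun _ => ⟨?_, ?_, ?_⟩⟩
      · funext j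
        show ∑ k, (if deg k = n + 1 then u k else 0) * E k j = if deg j = n + 1 then u j else 0
        by_cases hj : deg j = n + 1
        · rw [if_pos hj]
          have e1 : (u ᵥ* E) j = u j := congrFun hu1 j
          rw [← e1]
          show _ = ∑ k, u k * E k j
          refine Finset.sum_congr rfl fun k _ => ?_
          by_cases hk : E k j = 0
          · rw [hk, mul_zero, mul_zero]
          · have e2 := hR.E_deg k j hk
            rw [if_pos (by omega)]
        · rw [if_neg hj]
          refine Finset.sum_eq_zero fun k _ => ?_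
          by_cases hk : E k j = 0
          · rw [hk, mul_zero]
          · have e2 := hR.E_deg k j hk
            rw [if_neg (by omega), zero_mul]
      · intro j hj
        by_contra h5
        exact hj (if_neg h5)
      · funext j
        show ∑ k, (if deg k = n + 1 then u k else 0) * D k j = V i j
        by_cases hj : deg j = n
        · have e1 : (u ᵥ* D) j = V i j := congrFun hu2 j
          rw [← e1]
          show _ = ∑ k, u k * D k j
          refine Finset.sum_congr rfl fun k _ => ?_
          by_cases hk : D k j = 0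
          · rw [hk, mul_zero, mul_zero]
          · have e2 := hR.D_deg k j hk
            rw [if_pos (by omega)]
        · have e3 : V i j = 0 := by
            by_contra h5
            have := hVd i j h5
            omega
          rw [e3]
          refine Finset.sum_eq_zero fun k _ => ?_
          by_cases hk : D k j = 0
          · rw [hk, mul_zero]
          · have e2 := hR.D_deg k j hk
            rw [if_neg (by omega), zero_mul]
    · exact ⟨0, fun h5 => absurd h5 hi⟩
  choose u hu using hu
  obtain ⟨Q, hQ⟩ : ∃ Q : Matrix I I (ZG G), Q = Matrix.of fun i j =>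
    if deg i = n then u i j else 0 := ⟨_, rfl⟩
  have hQa : ∀ i j, Q i j = if deg i = n then u i j else 0 := fun i j => by rw [hQ]; rfl
  have hQ0 : ∀ i j, Q i j ≠ 0 → deg i = n ∧ deg j = n + 1 := by
    intro i j hij
    rw [hQa] at hij
    by_cases hi : deg i = n
    · rw [if_pos hi] at hij
      exact ⟨hi, (hu i hi).2.1 j hij⟩
    · exact absurd (if_neg hi) hij
  have hQE : Q * E = Q := by
    refine Matrix.ext fun i j => ?_
    rw [Matrix.mul_apply]
    by_cases hi : deg i = n
    · have e1 : (u i ᵥ* E) j = u i j := congrFun (hu i hi).1 j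
      rw [hQa, if_pos hi, ← e1]
      show _ = ∑ k, u i k * E k j
      exact Finset.sum_congr rfl fun k _ => by rw [hQa, if_pos hi]
    · rw [hQa, if_neg hi]
      exact Finset.sum_eq_zero fun k _ => by rw [hQa, if_neg hi, zero_mul]
  have hQD : ∀ i, deg i = n → ∀ j, (Q * D) i j = V i j := by
    intro i hi j
    rw [Matrix.mul_apply]
    have e1 : (u i ᵥ* D) j = V i j := congrFun (hu i hi).2.2 j
    rw [← e1]
    show _ = ∑ k, u i k * D k j
    exact Finset.sum_congr rfl fun k _ => by rw [hQa, if_pos hi]
  have hEQ0 : ∀ i j, (E * Q) i j ≠ 0 → deg i = n ∧ deg j = n + 1 := by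
    intro i j hij
    obtain ⟨k, hk1, hk2⟩ := E3b_ne hij
    have e1 := hR.E_deg i k hk1
    have e2 := hQ0 k j hk2
    exact ⟨by omega, e2.2⟩
  refine ⟨h + E * Q, ?_, ?_, ?_, ?_, ?_⟩
  · intro i j hi
    rw [Matrix.add_apply, h0 i j (by omega), zero_add]
    by_contra h5
    have := hEQ0 i j h5
    omega
  · intro i j hij
    by_cases hb : h i j = 0
    · have hc : (E * Q) i j ≠ 0 := by
        intro hc
        apply hij
        rw [Matrix.add_apply, hb, hc, add_zero]
      have := hEQ0 i j hc
      omega
    · exact h1 i j hb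
  · rw [Matrix.mul_add, h2, ← Matrix.mul_assoc, hR.EE]
  · rw [Matrix.add_mul, h3, Matrix.mul_assoc, hQE]
  · intro i hi j
    have hDEQ : D * (E * Q) = D * Q := by rw [← Matrix.mul_assoc, hR.DE]
    have e0 : (D * Q) i j = 0 := by
      by_contra h5
      obtain ⟨k, hk1, hk2⟩ := E3b_ne h5
      have e1 := hR.D_deg i k hk1
      have e2 := hQ0 k j hk2
      omega
    rw [Matrix.add_mul, Matrix.mul_add, hDEQ]
    rw [Matrix.add_apply, Matrix.add_apply, Matrix.add_apply, e0, add_zero]
    by_cases hin : deg i = n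
    · have e1 : (h * D) i j = 0 := by
        rw [Matrix.mul_apply]
        exact Finset.sum_eq_zero fun k _ => by rw [h0 i k (by omega), zero_mul]
      have e2 : (E * Q * D) i j = V i j := by
        have e3 : (E * V) i j = V i j := congrFun (congrFun hEV i) j
        rw [← e3, Matrix.mul_assoc, Matrix.mul_apply, Matrix.mul_apply]
        refine Finset.sum_congr rfl fun k _ => ?_
        by_cases hk : E i k = 0
        · rw [hk, zero_mul, zero_mul]
        · have e4 := hR.E_deg i k hk
          rw [hQD k (by omega) j]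
      rw [e1, e2, zero_add, hV, Matrix.sub_apply, sub_add_cancel]
    · have e1 : (E * Q * D) i j = 0 := by
        rw [Matrix.mul_apply]
        refine Finset.sum_eq_zero fun k _ => ?_
        by_cases hk : (E * Q) i k = 0
        · rw [hk, zero_mul]
        · exact absurd (hEQ0 i k hk).1 hin
      rw [e1, add_zero, h4 i (by omega) j, Matrix.add_apply]

end

theorem E3b : St_E3b := by
  intro G _ I _ _ deg D E A e hd hR hA hEA hAE hDA hau
  have key : ∀ n : ℕ, ∃ h : Matrix I I (ZG G), (∀ i j, n ≤ deg i → h i j = 0) ∧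
      (∀ i j, h i j ≠ 0 → deg j = deg i + 1) ∧ E * h = h ∧ h * E = h ∧
      ∀ i, deg i < n → ∀ j, A i j = (h * D + D * h) i j := by
    intro n
    induction n with
    | zero =>
      refine ⟨0, fun _ _ _ => rfl, fun _ _ h => absurd rfl h, Matrix.mul_zero _,
        Matrix.zero_mul _, fun i hi => absurd hi (by omega)⟩
    | succ n ih =>
      obtain ⟨h, h0, h1, h2, h3, h4⟩ := ih
      exact E3b_step hR hA hEA hAE hDA hau n h0 h1 h2 h3 h4
  obtain ⟨h, -, h1, h2, h3, h4⟩ := key 4
  refine ⟨h, h1, h2, h3, ?_⟩
  refine Matrix.ext fun i j => ?_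
  exact h4 i (by have := hd i; omega) j

end Pool.Agent.CPD
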