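import Pool.Agent.CPD.StE

/-!
# [E4] Duality data exist
-/

set_option autoImplicit false

namespace Pool.Agent.CPD

open Matrix

theorem E4 (ha : St_E2a) (hb : St_E2b) (hc : St_E2c) (hd : St_E2d) (h3 : St_E3a) (h3b : St_E3b) :
    St_E4 := by
  intro G _ hG
  obtain ⟨F, hF, hdual⟩ := ha G hG
  obtain ⟨I, fI, dI, deg, D, E, ⟨M⟩⟩ := hb G F hF
  obtain ⟨e, resP⟩ := hc G F I deg D E hF M
  obtain ⟨w, resQ⟩ := hd G F I deg D E e hF hdual M resP
  obtain ⟨Ps, hPs, EPs, PsE, DPs, augPs⟩ :=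
    h3 G I deg (fun i => 3 - deg i) D E Dᴴ Eᴴ e w M.deg_le resP resQ
  obtain ⟨Ph, hPh, EPh, PhE, DPh, augPh⟩ :=
    h3 G I (fun i => 3 - deg i) deg Dᴴ Eᴴ D E w e (fun i => Nat.sub_le 3 (deg i)) resQ resP
  have hdeg : ∀ i j, (Ps * Ph - E) i j ≠ 0 → deg i = deg j := by
    intro i j h
    rw [Matrix.sub_apply] at h
    by_cases hE : E i j = 0
    · rw [hE, sub_zero, Matrix.mul_apply] at h
      obtain ⟨k, -, hk⟩ := Finset.exists_ne_zero_of_sum_ne_zero h
      have h1 := hPs i k (left_ne_zero_of_mul hk)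
      have h2 := hPh k j (right_ne_zero_of_mul hk)
      exact h1.trans h2
    · exact resP.E_deg i j hE
  have hEA : E * (Ps * Ph - E) = Ps * Ph - E := by
    rw [Matrix.mul_sub, ← Matrix.mul_assoc, EPs, resP.EE]
  have hAE : (Ps * Ph - E) * E = Ps * Ph - E := by
    rw [Matrix.sub_mul, Matrix.mul_assoc, PhE, resP.EE]
  have hDA : D * (Ps * Ph - E) = (Ps * Ph - E) * D := by
    rw [Matrix.mul_sub, Matrix.sub_mul, ← Matrix.mul_assoc, DPs, Matrix.mul_assoc, DPh,
      ← Matrix.mul_assoc, resP.DE, resP.ED]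
  have haug : ∀ i, ∑ j, au ((Ps * Ph - E) i j) * e j = 0 := by
    intro i
    have h1 : ∀ j, au ((Ps * Ph - E) i j) * e j =
        ∑ k, au (Ps i k) * (au (Ph k j) * e j) - au (E i j) * e j := by
      intro j
      rw [Matrix.sub_apply, Matrix.mul_apply, map_sub, map_sum, sub_mul, Finset.sum_mul]
      congr 1
      refine Finset.sum_congr rfl fun k _ => ?_
      rw [map_mul, mul_assoc]
    rw [Finset.sum_congr rfl fun j _ => h1 j, Finset.sum_sub_distrib, resP.Ee, Finset.sum_comm]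
    have h2 : ∀ k, ∑ j, au (Ps i k) * (au (Ph k j) * e j) = au (Ps i k) * w k := by
      intro k
      rw [← Finset.mul_sum, augPh]
    rw [Finset.sum_congr rfl fun k _ => h2 k, augPs, sub_self]
  obtain ⟨h, h_deg, Eh, hE, homot⟩ :=
    h3b G I deg D E (Ps * Ph - E) e M.deg_le resP hdeg hEA hAE hDA haug
  exact ⟨{
    I := I
    deg := deg
    deg_le := M.deg_le
    D := D
    E := E
    e := e
    w := w
    resP := resP
    resQ := resQ
    Ps := Ps
    Ph := Ph
    h := h
    Ps_deg := fun i j hne => by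
      have h1 := hPs i j hne
      have h2 := M.deg_le j
      have h3 : deg i = 3 - deg j := h1
      omega
    Ph_deg := fun i j hne => by
      have h1 := hPh i j hne
      have h2 := M.deg_le i
      have h3 : 3 - deg i = deg j := h1
      omega
    h_deg := h_deg
    EPs := EPs
    PsE := PsE
    DPs := DPs
    EPh := EPh
    PhE := PhE
    DPh := DPh
    Eh := Eh
    hE := hE
    homot := homot }⟩

end Pool.Agent.CPD
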