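import Pool.Agent.CPD.StE

/-!
# E5 : uniform filling
-/

set_option autoImplicit false

namespace Pool.Agent.CPD

open Matrix

private lemma E5_filter {G I : Type} [Group G] [Fintype I] {A : Matrix I I (ZG G)} (P Q : I → Prop)
    [DecidablePred P] [DecidablePred Q] (h : ∀ i j, A i j ≠ 0 → (P i ↔ Q j))
    (b : (G × I) →₀ ℤ) :
    opZ A (b.filter (fun y => P y.2)) = (opZ A b).filter (fun y => Q y.2) := by
  have hr : ∀ (n : ℤ) (x y : G × I), (n • row A x) y ≠ 0 → (P x.2 ↔ Q y.2) := by
    intro n x y hy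
    apply h
    intro h0
    apply hy
    rw [Finsupp.smul_apply, row_apply, h0]
    simp
  induction b using Finsupp.induction_linear with
  | zero => rw [Finsupp.filter_zero, map_zero, Finsupp.filter_zero]
  | add f g hf hg => rw [Finsupp.filter_add, map_add, hf, hg, map_add, Finsupp.filter_add]
  | single x n =>
    have e : opZ A (Finsupp.single x n) = n • row A x := Finsupp.linearCombination_single _ _ _
    by_cases hx : P x.2
    · rw [Finsupp.filter_single_of_pos (p := fun y : G × I => P y.2) (h := hx), e]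
      symm
      rw [Finsupp.filter_eq_self_iff]
      intro y hy
      exact (hr n x y hy).1 hx
    · rw [Finsupp.filter_single_of_neg (p := fun y : G × I => P y.2) (h := hx), map_zero, e]
      symm
      rw [Finsupp.filter_eq_zero_iff]
      intro y hy
      by_contra hy'
      exact hx ((hr n x y hy').2 hy)

theorem E5 (h1 : St_E1) : St_E5 := by
  intro G _ L I _ _ deg D E e hR R
  obtain ⟨a1, a2, a3, a4, a5, a6, a7, a8, a9⟩ := h1 G I
  -- exactness for chains
  have t0 : toV (0 : (G × I) →₀ ℤ) = 0 := by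
    have h := a2 0 0
    rw [add_zero] at h
    exact left_eq_add.1 h
  have hex : ∀ c : (G × I) →₀ ℤ, opZ E c = c → opZ D c = 0 → augZ e c = 0 →
      ∃ b : (G × I) →₀ ℤ, opZ E b = b ∧ opZ D b = c := by
    intro c hc1 hc2 hc3
    obtain ⟨v, hv1, hv2⟩ := hR.exact (toV c) (by rw [← a1, hc1]) (by rw [← a1, hc2, t0])
      (by rw [← a5, hc3])
    obtain ⟨b, rfl⟩ := a4 v
    refine ⟨b, a3 _ _ ?_, a3 _ _ ?_⟩
    · rw [a1, hv1]
    · rw [a1, hv2]
  -- the cycles near 1
  let S : Set (G × I) := {y | L.l y.1 ≤ R}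
  have hS : S.Finite := by
    have h2 : S = {x : G | L.l x ≤ R} ×ˢ (Set.univ : Set I) := by
      ext y
      simp [S]
    rw [h2]
    exact (L.fin R).prod Set.finite_univ
  have : Finite S := hS
  let N : Submodule ℤ ((G × I) →₀ ℤ) := Finsupp.supported ℤ ℤ S
  let Z : Submodule ℤ ((G × I) →₀ ℤ) := N ⊓ (LinearMap.ker (opZ E - LinearMap.id) ⊓
    (LinearMap.ker (opZ D) ⊓ LinearMap.ker (Finsupp.linearCombination ℤ (fun x : G × I => e x.2))))
  have : IsNoetherian ℤ N := by
    have : IsNoetherian ℤ (S →₀ ℤ) := isNoetherian_of_isNoetherianRing_of_finite ℤ (S →₀ ℤ)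
    exact isNoetherian_of_linearEquiv (Finsupp.supportedEquivFinsupp S).symm
  have hfg : Z.FG := by
    have h2 : (Z.comap N.subtype).FG := IsNoetherian.noetherian _
    have h3 := h2.map N.subtype
    rw [Submodule.map_comap_subtype] at h3
    have h4 : N ⊓ Z = Z := inf_eq_right.2 inf_le_left
    rwa [h4] at h3
  obtain ⟨T, hT⟩ := hfg
  have hZ : ∀ c : (G × I) →₀ ℤ, c ∈ Z ↔ (∀ y, c y ≠ 0 → L.l y.1 ≤ R) ∧ opZ E c = c ∧
      opZ D c = 0 ∧ augZ e c = 0 := by
    intro c
    have e1 : augZ e c = Finsupp.linearCombination ℤ (fun x : G × I => e x.2) c := by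
      rw [Finsupp.linearCombination_apply]
      rfl
    rw [e1]
    show c ∈ N ∧ c ∈ LinearMap.ker (opZ E - LinearMap.id) ∧ c ∈ LinearMap.ker (opZ D) ∧
      c ∈ LinearMap.ker (Finsupp.linearCombination ℤ (fun x : G × I => e x.2)) ↔ _
    rw [LinearMap.mem_ker, LinearMap.mem_ker, LinearMap.mem_ker, LinearMap.sub_apply,
      LinearMap.id_apply, sub_eq_zero]
    refine and_congr ?_ Iff.rfl
    rw [Finsupp.mem_supported]
    constructor
    · intro h y hy
      exact h (Finset.mem_coe.2 (Finsupp.mem_support_iff.2 hy))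
    · intro h y hy
      exact h y (Finsupp.mem_support_iff.1 (Finset.mem_coe.1 hy))
  have hβ' : ∀ t ∈ T, ∃ b : (G × I) →₀ ℤ, opZ E b = b ∧ opZ D b = t := by
    intro t ht
    have h2 : t ∈ Z := by
      rw [← hT]
      exact Submodule.subset_span ht
    obtain ⟨-, h3, h4, h5⟩ := (hZ t).1 h2
    exact hex t h3 h4 h5
  choose! β hβ using hβ'
  let R' : ℕ := T.sup (fun t => (β t).support.sup (fun y => L.l y.1))
  have hR' : ∀ t ∈ T, ∀ y, β t y ≠ 0 → L.l y.1 ≤ R' := by
    intro t ht y hy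
    exact le_trans (Finset.le_sup (f := fun y : G × I => L.l y.1) (Finsupp.mem_support_iff.2 hy))
      (Finset.le_sup (f := fun t => (β t).support.sup (fun y : G × I => L.l y.1)) ht)
  have key : ∀ c ∈ Z, ∃ b : (G × I) →₀ ℤ, (∀ y, b y ≠ 0 → L.l y.1 ≤ R') ∧ opZ E b = b ∧
      opZ D b = c := by
    intro c hc
    rw [← hT] at hc
    induction hc using Submodule.span_induction with
    | mem t ht => exact ⟨β t, hR' t ht, hβ t ht⟩
    | zero => exact ⟨0, fun y hy => absurd rfl hy, map_zero _, map_zero _⟩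
    | add x y _ _ hx hy =>
      obtain ⟨b, b1, b2, b3⟩ := hx
      obtain ⟨b', b1', b2', b3'⟩ := hy
      refine ⟨b + b', ?_, by rw [map_add, b2, b2'], by rw [map_add, b3, b3']⟩
      intro z hz
      by_cases h0 : b z = 0
      · refine b1' z (fun h0' => hz ?_)
        rw [Finsupp.add_apply, h0, h0', add_zero]
      · exact b1 z h0
    | smul n x _ hx =>
      obtain ⟨b, b1, b2, b3⟩ := hx
      refine ⟨n • b, ?_, by rw [map_smul, b2], by rw [map_smul, b3]⟩
      intro z hz
      refine b1 z (fun h0 => hz ?_)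
      rw [Finsupp.smul_apply, h0, smul_zero]
  refine ⟨R', fun g i c hc hcE hcD hce => ?_⟩
  obtain ⟨b, b1, b2, b3⟩ := key (tl g⁻¹ c) ((hZ _).2 ⟨by
      intro y hy
      rw [a9, inv_inv] at hy
      have h2 := (hc _ hy).1
      rwa [inv_mul_cancel_left] at h2, by rw [a7, hcE], by
      rw [a7, hcD]
      ext y
      rw [a9, Finsupp.zero_apply, Finsupp.zero_apply], by rw [a8, hce]⟩)
  have hdeg : (tl g⁻¹ c).filter (fun y => deg y.2 = i) = tl g⁻¹ c := by
    rw [Finsupp.filter_eq_self_iff]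
    intro y hy
    rw [a9, inv_inv] at hy
    exact (hc _ hy).2
  have f1 := E5_filter (A := E) (fun j => deg j = i + 1) (fun j => deg j = i + 1)
    (fun j k hjk => by
      have h2 := hR.E_deg j k hjk
      show deg j = i + 1 ↔ deg k = i + 1
      rw [h2]) b
  have f2 := E5_filter (A := D) (fun j => deg j = i + 1) (fun j => deg j = i)
    (fun j k hjk => by
      have h2 := hR.D_deg j k hjk
      show deg j = i + 1 ↔ deg k = i
      rw [h2]
      omega) b
  rw [b2] at f1
  rw [b3, hdeg] at f2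
  refine ⟨tl g (b.filter (fun y => deg y.2 = i + 1)), ?_, ?_, ?_⟩
  · intro y hy
    rw [a9] at hy
    rw [Finsupp.filter_apply] at hy
    by_cases h2 : deg y.2 = i + 1
    · rw [if_pos h2] at hy
      exact ⟨b1 _ hy, h2⟩
    · rw [if_neg h2] at hy
      exact absurd rfl hy
  · rw [a7, f1]
  · rw [a7, f2]
    ext y
    rw [a9, a9, inv_inv, mul_inv_cancel_left]

end Pool.Agent.CPD
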