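import Pool.Agent.CPD.StE

/-!
# Sets with finite boundary are finite or cofinite
-/

set_option autoImplicit false

namespace Pool.Agent.CPD

open Matrix

section E6aaux

variable {G I : Type} [Group G] [Fintype I]

/-- Pairing of a function on cells with chains. -/
private noncomputable def pr (f : G × I → ℤ) : ((G × I) →₀ ℤ) →ₗ[ℤ] ℤ :=
  Finsupp.linearCombination ℤ f

omit [Group G] [Fintype I] in
private theorem pr_apply (f : G × I → ℤ) (c : (G × I) →₀ ℤ) :
    pr f c = ∑ x ∈ c.support, c x * f x := by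
  unfold pr
  rw [Finsupp.linearCombination_apply, Finsupp.sum]
  rfl

omit [Group G] [Fintype I] in
private theorem pr_of_subset (f : G × I → ℤ) (c : (G × I) →₀ ℤ) (s : Finset (G × I))
    (hs : c.support ⊆ s) : pr f c = ∑ x ∈ s, c x * f x := by
  rw [pr_apply]
  apply Finset.sum_subset hs
  intro x _ hx
  rw [Finsupp.notMem_support_iff.mp hx, zero_mul]

private theorem row_star (A : Matrix I I (ZG G)) (x y : G × I) :
    row Aᴴ x y = row A y x := by
  rw [row_apply, row_apply, Matrix.conjTranspose_apply, star_coeff, _root_.mul_inv_rev, inv_inv]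

private theorem opZ_apply (A : Matrix I I (ZG G)) (u : (G × I) →₀ ℤ) (y : G × I) :
    opZ A u y = ∑ x ∈ u.support, u x * row A x y := by
  unfold opZ
  rw [Finsupp.linearCombination_apply, Finsupp.sum, Finsupp.finsetSum_apply]
  rfl

private theorem opZ_star (A : Matrix I I (ZG G)) (u : (G × I) →₀ ℤ) (y : G × I) :
    opZ Aᴴ u y = pr (⇑u) (row A y) := by
  classical
  rw [opZ_apply, pr_of_subset (⇑u) (row A y) (u.support ∪ (row A y).support)
    Finset.subset_union_right]
  rw [← Finset.sum_subset (Finset.subset_union_left (s₁ := u.support) (s₂ := (row A y).support))]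
  · apply Finset.sum_congr rfl
    intro x _
    rw [row_star, mul_comm]
  · intro x _ hx
    rw [Finsupp.notMem_support_iff.mp hx, mul_zero]

private theorem opZ_single (A : Matrix I I (ZG G)) (x : G × I) :
    opZ A (Finsupp.single x 1) = row A x := by
  unfold opZ
  rw [Finsupp.linearCombination_single, one_smul]

private theorem pr_opZ (f : G × I → ℤ) (A : Matrix I I (ZG G)) (c : (G × I) →₀ ℤ) :
    pr (fun x => pr f (row A x)) c = pr f (opZ A c) := by
  induction c using Finsupp.induction_linear with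
  | zero => rw [map_zero, map_zero, map_zero]
  | add a b ha hb => rw [map_add, map_add, map_add, ha, hb]
  | single x n =>
    have h1 : (Finsupp.single x n : (G × I) →₀ ℤ) = n • Finsupp.single x 1 := by
      rw [Finsupp.smul_single, smul_eq_mul, mul_one]
    rw [h1, map_smul, map_smul, map_smul, opZ_single]
    congr 1
    unfold pr
    rw [Finsupp.linearCombination_single, one_smul]

omit [Fintype I] in
private theorem au_eq (a : ZG G) : au a = a.coeff.sum (fun _ n => n) := by
  unfold au
  rw [MonoidAlgebra.lift_apply]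
  apply Finsupp.sum_congr
  intro x _
  simp

private theorem pr_row (f : G × I → ℤ) (A : Matrix I I (ZG G)) (x : G × I) :
    pr f (row A x) = ∑ j, (A x.2 j).coeff.sum (fun h n => n * f (x.1 * h, j)) := by
  unfold row
  rw [map_sum]
  apply Finset.sum_congr rfl
  intro j _
  unfold pr
  rw [Finsupp.linearCombination_mapDomain, Finsupp.linearCombination_apply]
  rfl

/-- The pairing of `row A x` with a function which is `k * e` near `x`. -/
private theorem pr_row_const (f : G × I → ℤ) (A : Matrix I I (ZG G)) (x : G × I) (k : ℤ)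
    (e : I → ℤ) (hf : ∀ j h, (A x.2 j).coeff h ≠ 0 → f (x.1 * h, j) = k * e j) :
    pr f (row A x) = k * ∑ j, au (A x.2 j) * e j := by
  rw [pr_row, Finset.mul_sum]
  apply Finset.sum_congr rfl
  intro j _
  rw [au_eq, Finsupp.sum, Finsupp.sum, Finset.sum_mul, Finset.mul_sum]
  apply Finset.sum_congr rfl
  intro h hh
  rw [hf j h (Finsupp.mem_support_iff.mp hh)]
  ring

/-- Off a finite set a set with finite boundary is constant on balls. -/
private theorem ball_const (L : Len G) (V : Set G)
    (hV : {v | v ∈ V ∧ ∃ s, L.l s ≤ 1 ∧ v * s ∉ V}.Finite) (ρ : ℕ) :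
    {g : G | ∃ h, L.l h ≤ ρ ∧ ¬ (g * h ∈ V ↔ g ∈ V)}.Finite := by
  induction ρ with
  | zero =>
    convert Set.finite_empty
    ext g
    simp only [Set.mem_ofPred_eq, Set.mem_empty_iff_false, iff_false]
    rintro ⟨h, h1, h2⟩
    have h3 : h = 1 := L.eq_one h (Nat.le_zero.mp h1)
    apply h2
    rw [h3, mul_one]
  | succ n ih =>
    refine (ih.union (Set.Finite.image2 (fun v h => v * h⁻¹) hV (L.fin (n + 1)))).subset ?_
    rintro g ⟨h, h1, h2⟩
    by_cases h3 : L.l h ≤ n
    · exact Or.inl ⟨h, h3, h2⟩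
    · have h4 : L.l h = n + 1 := by omega
      obtain ⟨s, hs, hs'⟩ := L.path h n h4
      by_cases h5 : g * (h * s) ∈ V ↔ g ∈ V
      · right
        by_cases h6 : g * h ∈ V
        · refine ⟨g * h, ⟨h6, s, hs.le, ?_⟩, h, h1, by simp⟩
          intro h7
          rw [mul_assoc] at h7
          exact h2 ⟨fun _ => h5.mp h7, fun _ => h6⟩
        · have h7 : g * (h * s) ∈ V := by
            by_contra h8
            exact h2 ⟨fun h9 => absurd h9 h6, fun h9 => absurd (h5.mpr h9) h8⟩
          refine ⟨g * (h * s), ⟨h7, s⁻¹, ?_, ?_⟩, h * s, ?_, ?_⟩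
          · rw [L.inv, hs]
          · rw [mul_assoc, mul_assoc, mul_inv_cancel, mul_one]
            exact h6
          · show L.l (h * s) ≤ n + 1
            omega
          · show g * (h * s) * (h * s)⁻¹ = g
            rw [mul_inv_cancel_right]
      · exact Or.inl ⟨h * s, hs'.le, h5⟩

/-- A bound for the lengths in the supports of the entries. -/
private theorem exists_bound (L : Len G) (A : Matrix I I (ZG G)) :
    ∃ ρ : ℕ, ∀ i j h, (A i j).coeff h ≠ 0 → L.l h ≤ ρ := by
  classical
  refine ⟨(Finset.univ : Finset (I × I)).sup (fun p => (A p.1 p.2).coeff.support.sup L.l), ?_⟩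
  intro i j h hh
  have h1 : L.l h ≤ (A i j).coeff.support.sup L.l :=
    Finset.le_sup (f := L.l) (Finsupp.mem_support_iff.mpr hh)
  exact h1.trans (Finset.le_sup (f := fun p : I × I => (A p.1 p.2).coeff.support.sup L.l)
    (Finset.mem_univ (i, j)))

end E6aaux

theorem E6a (h1 : St_E1) : St_E6a := by
  classical
  intro G _ L M V hV
  obtain ⟨e1, e2, e3, e4, e5, e6, e7, e8, e9⟩ := h1 G M.I
  -- the function
  let χ : G → ℤ := fun g => if g ∈ V then 1 else 0
  let f : G × M.I → ℤ := fun x => χ x.1 * M.e x.2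
  have hχ : ∀ g g' : G, (g' ∈ V ↔ g ∈ V) → χ g' = χ g := by
    intro g g' h
    show (if g' ∈ V then (1 : ℤ) else 0) = if g ∈ V then 1 else 0
    by_cases h2 : g ∈ V
    · rw [if_pos h2, if_pos (h.mpr h2)]
    · rw [if_neg h2, if_neg (fun h3 => h2 (h.mp h3))]
  obtain ⟨ρ, hρ⟩ := exists_bound L M.D
  have hB := ball_const L V hV ρ
  -- the coboundary of `f`
  have hq0 : ∀ x : G × M.I, pr f (row M.D x) ≠ 0 →
      x.1 ∈ {g : G | ∃ h, L.l h ≤ ρ ∧ ¬ (g * h ∈ V ↔ g ∈ V)} := by
    intro x hx
    by_contra hn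
    apply hx
    rw [pr_row_const f M.D x (χ x.1) M.e, M.resP.De x.2, mul_zero]
    intro j h hh
    show χ (x.1 * h) * M.e j = χ x.1 * M.e j
    rw [hχ x.1 (x.1 * h)]
    by_contra hc
    exact hn ⟨h, hρ _ _ _ hh, hc⟩
  have hfin : (Function.support (fun x : G × M.I => pr f (row M.D x))).Finite := by
    refine ((hB.prod (Set.finite_univ (α := M.I)))).subset ?_
    intro x hx
    exact ⟨hq0 x hx, Set.mem_univ _⟩
  let u : (G × M.I) →₀ ℤ := Finsupp.ofSupportFinite (fun x : G × M.I => pr f (row M.D x)) hfin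
  have hu : ∀ x, u x = pr f (row M.D x) := fun x => rfl
  have hu' : ⇑u = fun x => pr f (row M.D x) := rfl
  have hdeg : ∀ x, u x ≠ 0 → M.deg x.2 = 1 := by
    intro x hx
    rw [hu, pr_row] at hx
    obtain ⟨j, _, hj⟩ := Finset.exists_ne_zero_of_sum_ne_zero hx
    rw [Finsupp.sum] at hj
    obtain ⟨h, hh, hh2⟩ := Finset.exists_ne_zero_of_sum_ne_zero hj
    have h2 : M.D x.2 j ≠ 0 := by
      intro h3
      rw [h3] at hh2
      exact hh2 (by simp)
    have h3 : M.e j ≠ 0 := by
      intro h4
      apply hh2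
      show _ * (χ _ * M.e j) = 0
      rw [h4, mul_zero, mul_zero]
    have h4 := M.resP.D_deg x.2 j h2
    have h5 := M.resP.e_deg j h3
    omega
  have hzero : ∀ c : (G × M.I) →₀ ℤ, opZ (0 : Matrix M.I M.I (ZG G)) c = 0 := by
    intro c
    apply e3
    rw [e1, Matrix.vecMul_zero]
    have h := e2 0 0
    rw [add_zero] at h
    exact (left_eq_add.mp h).symm
  have hDD : ∀ x, opZ M.D (row M.D x) = 0 := by
    intro x
    rw [← opZ_single M.D x, ← e6, M.resP.DD, hzero]
  have hED : ∀ x, opZ M.D (row M.E x) = row M.D x := by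
    intro x
    rw [← opZ_single M.E x, ← e6, M.resP.ED, opZ_single]
  have hD0 : opZ M.Dᴴ u = 0 := by
    ext y
    rw [opZ_star, hu', pr_opZ, hDD, map_zero, Finsupp.zero_apply]
  have hE0 : opZ M.Eᴴ u = u := by
    ext y
    rw [opZ_star, hu', pr_opZ, hED]
  have hw0 : ∑ i, au (toV u i) * M.w i = 0 := by
    rw [← e5]
    unfold augZ
    rw [Finsupp.sum]
    apply Finset.sum_eq_zero
    intro x hx
    by_cases h2 : M.w x.2 = 0
    · rw [h2, mul_zero]
    · have h3 := M.resQ.e_deg x.2 h2
      have h4 := hdeg x (Finsupp.mem_support_iff.mp hx)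
      omega
  have htoV0 : toV (0 : (G × M.I) →₀ ℤ) = 0 := by
    have h := e2 0 0
    rw [add_zero] at h
    exact (left_eq_add.mp h)
  obtain ⟨v', hv1, hv2⟩ := M.resQ.exact (toV u) (by rw [← e1, hE0])
    (by rw [← e1, hD0, htoV0]) hw0
  obtain ⟨u', hu'2⟩ := e4 v'
  have hdu : opZ M.Dᴴ u' = u := by
    apply e3
    rw [e1, hu'2, hv2]
  have hfu : ∀ c : (G × M.I) →₀ ℤ, pr f (opZ M.D c) = pr (⇑u') (opZ M.D c) := by
    intro c
    rw [← pr_opZ, ← pr_opZ]
    congr 2
    ext x
    rw [← opZ_star, hdu, hu]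
  -- the base cycle
  obtain ⟨v, hvE, hve⟩ := M.resP.surj
  let o : M.I → ZG G := fun i => if M.deg i = 0 then v i else 0
  have hoE : o ᵥ* M.E = o := by
    ext1 j
    show ∑ i, o i * M.E i j = o j
    by_cases hj : M.deg j = 0
    · have h2 : o j = v j := if_pos hj
      rw [h2, ← congrFun hvE j]
      show ∑ i, o i * M.E i j = ∑ i, v i * M.E i j
      apply Finset.sum_congr rfl
      intro i _
      by_cases hi : M.E i j = 0
      · rw [hi, mul_zero, mul_zero]
      · have h3 := M.resP.E_deg i j hi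
        have h4 : o i = v i := if_pos (h3.trans hj)
        rw [h4]
    · have h2 : o j = 0 := if_neg hj
      rw [h2]
      apply Finset.sum_eq_zero
      intro i _
      by_cases hi : M.E i j = 0
      · rw [hi, mul_zero]
      · have h3 := M.resP.E_deg i j hi
        have h4 : o i = 0 := if_neg (fun h5 => hj (h3.symm.trans h5))
        rw [h4, zero_mul]
  have hoD : o ᵥ* M.D = 0 := by
    ext1 j
    show ∑ i, o i * M.D i j = 0
    apply Finset.sum_eq_zero
    intro i _
    by_cases hi : M.D i j = 0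
    · rw [hi, mul_zero]
    · have h3 := M.resP.D_deg i j hi
      have h4 : o i = 0 := if_neg (by omega)
      rw [h4, zero_mul]
  have hoe : ∑ i, au (o i) * M.e i = 1 := by
    rw [← hve]
    apply Finset.sum_congr rfl
    intro i _
    by_cases hi : M.e i = 0
    · rw [hi, mul_zero, mul_zero]
    · have h4 : o i = v i := if_pos (M.resP.e_deg i hi)
      rw [h4]
  obtain ⟨c0, hc0⟩ := e4 o
  have hcE : opZ M.E c0 = c0 := by
    apply e3
    rw [e1, hc0, hoE]
  have hcD : opZ M.D c0 = 0 := by
    apply e3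
    rw [e1, hc0, hoD, htoV0]
  have hce : augZ M.e c0 = 1 := by
    rw [e5, hc0, hoe]
  have htl0 : ∀ g : G, tl g (0 : (G × M.I) →₀ ℤ) = 0 := fun g => Finsupp.mapDomain_zero
  have haug : ∀ c c' : (G × M.I) →₀ ℤ, augZ M.e (c - c') = augZ M.e c - augZ M.e c' := by
    intro c c'
    have h2 : ∀ a : (G × M.I) →₀ ℤ, augZ M.e a = pr (fun x => M.e x.2) a := by
      intro a
      rw [pr_apply]
      rfl
    rw [h2, h2, h2, map_sub]
  have hconst : ∀ g g' : G, pr f (tl g c0) - pr (⇑u') (tl g c0) =
      pr f (tl g' c0) - pr (⇑u') (tl g' c0) := by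
    intro g g'
    have hz1 : opZ M.E (tl g c0 - tl g' c0) = tl g c0 - tl g' c0 := by
      rw [map_sub, e7, e7, hcE]
    have hz2 : opZ M.D (tl g c0 - tl g' c0) = 0 := by
      rw [map_sub, e7, e7, hcD, htl0, htl0, sub_zero]
    have hz3 : augZ M.e (tl g c0 - tl g' c0) = 0 := by
      rw [haug, e8, e8, sub_self]
    obtain ⟨a, _, ha⟩ := M.resP.exact (toV (tl g c0 - tl g' c0)) (by rw [← e1, hz1])
      (by rw [← e1, hz2, htoV0]) (by rw [← e5, hz3])
    obtain ⟨c, hc⟩ := e4 a
    have hdc : opZ M.D c = tl g c0 - tl g' c0 := by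
      apply e3
      rw [e1, hc, ha]
    have h2 := hfu c
    rw [hdc, map_sub, map_sub] at h2
    linarith
  -- conclusion off a finite set
  have hB' := ball_const L V hV (c0.support.sup (fun x => L.l x.1))
  have hS2 : {g : G | ∃ x ∈ c0.support, (g * x.1, x.2) ∈ u'.support}.Finite := by
    refine ((Set.Finite.image2 (fun (y x : G × M.I) => y.1 * x.1⁻¹)
      (Finset.finite_toSet u'.support) (Finset.finite_toSet c0.support))).subset ?_
    rintro g ⟨x, hx, hx2⟩
    exact ⟨(g * x.1, x.2), hx2, x, hx, by simp⟩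
  have hpr : ∀ (F : G × M.I → ℤ) (g : G),
      pr F (tl g c0) = ∑ x ∈ c0.support, c0 x * F (g * x.1, x.2) := by
    intro F g
    unfold pr tl
    rw [Finsupp.linearCombination_mapDomain, Finsupp.linearCombination_apply, Finsupp.sum]
    rfl
  have hkey : ∀ g, g ∉ {g : G | ∃ h, L.l h ≤ c0.support.sup (fun x => L.l x.1) ∧
        ¬ (g * h ∈ V ↔ g ∈ V)} ∪ {g : G | ∃ x ∈ c0.support, (g * x.1, x.2) ∈ u'.support} →
      χ g = pr f (tl 1 c0) - pr (⇑u') (tl 1 c0) := by
    intro g hg
    rw [← hconst g 1]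
    have h2 : pr (⇑u') (tl g c0) = 0 := by
      rw [hpr]
      apply Finset.sum_eq_zero
      intro x hx
      have h3 : u' (g * x.1, x.2) = 0 := by
        by_contra h4
        exact hg (Or.inr ⟨x, hx, Finsupp.mem_support_iff.mpr h4⟩)
      rw [h3, mul_zero]
    have h3 : pr f (tl g c0) = χ g * augZ M.e c0 := by
      rw [hpr]
      unfold augZ
      rw [Finsupp.sum, Finset.mul_sum]
      apply Finset.sum_congr rfl
      intro x hx
      show c0 x * (χ (g * x.1) * M.e x.2) = _
      rw [hχ g (g * x.1)]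
      · ring
      · by_contra hc
        exact hg (Or.inl ⟨x.1, Finset.le_sup (f := fun x : G × M.I => L.l x.1) hx, hc⟩)
    rw [h2, h3, hce, mul_one, sub_zero]
  by_cases hK : pr f (tl 1 c0) - pr (⇑u') (tl 1 c0) = 1
  · right
    refine (hB'.union hS2).subset ?_
    intro g hg
    by_contra hn
    have h2 := hkey g hn
    rw [hK] at h2
    have h3 : χ g = 0 := if_neg hg
    rw [h3] at h2
    exact absurd h2 (by norm_num)
  · left
    refine (hB'.union hS2).subset ?_
    intro g hg
    by_contra hn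
    have h2 := hkey g hn
    have h3 : χ g = 1 := if_pos hg
    exact hK (h2.symm.trans h3)

end Pool.Agent.CPD
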