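import Pool.Agent.CPD.StE

/-!
# CPD, module E6b: one-endedness
-/

set_option autoImplicit false

namespace Pool.Agent.CPD

namespace E6bx

variable {G : Type} [Group G]

theorem joined_symm (L : Len G) (S : Set G) {x y : G} (h : Joined L S x y) :
    Joined L S y x := by
  induction h with
  | refl => exact Relation.ReflTransGen.refl
  | @tail b c _ hbc ih =>
    obtain ⟨h1, h2, h3⟩ := hbc
    refine Relation.ReflTransGen.head ⟨h2, h1, ?_⟩ ih
    have h4 : (c⁻¹ * b) = (b⁻¹ * c)⁻¹ := by rw [_root_.mul_inv_rev, inv_inv]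
    rw [h4, L.inv]
    exact h3

theorem joined_mem (L : Len G) (S : Set G) {x y : G} (hx : x ∈ S) (h : Joined L S x y) :
    y ∈ S := by
  rcases Relation.ReflTransGen.cases_tail h with h1 | ⟨c, _, h1⟩
  · rw [h1]; exact hx
  · exact h1.2.1

theorem joined_step (L : Len G) (S : Set G) {x y : G} (hx : x ∈ S) (hy : y ∈ S)
    (h : L.l (x⁻¹ * y) ≤ 1) : Joined L S x y :=
  Relation.ReflTransGen.single ⟨hx, hy, h⟩

/-- every class contains an element of length `R + 1` -/
theorem exists_sphere (L : Len G) (R : ℕ) : ∀ (n : ℕ) (x : G), L.l x = R + 1 + n →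
    ∃ z, L.l z = R + 1 ∧ Joined L {v | R < L.l v} x z := by
  intro n
  induction n with
  | zero => exact fun x hx => ⟨x, hx, Relation.ReflTransGen.refl⟩
  | succ n ih =>
    intro x hx
    obtain ⟨s, hs, hxs⟩ := L.path x (R + 1 + n) (by omega)
    obtain ⟨z, hz, hj⟩ := ih (x * s) hxs
    refine ⟨z, hz, Relation.ReflTransGen.trans (joined_step L _ ?_ ?_ ?_) hj⟩
    · change R < L.l x
      omega
    · change R < L.l (x * s)
      omega
    · rw [inv_mul_cancel_left, hs]

end E6bx

open E6bx

theorem E6b (h : St_E6a) : St_E6b := by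
  intro G _ _ L hM R
  obtain ⟨M⟩ := hM
  classical
  -- the classes are finite or cofinite
  have hC : ∀ x : G, R < L.l x → {y | Joined L {v | R < L.l v} x y}.Finite ∨
      ({y | Joined L {v | R < L.l v} x y}ᶜ).Finite := by
    intro x hx
    refine h G L M _ ((L.fin (R + 1)).subset ?_)
    rintro v ⟨hv, s, hs, hvs⟩
    have hv1 : v ∈ {v | R < L.l v} := joined_mem L _ hx hv
    have h1 : ¬ R < L.l (v * s) := by
      intro h2
      apply hvs
      refine Relation.ReflTransGen.trans hv (joined_step L _ hv1 h2 ?_)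
      rw [inv_mul_cancel_left]
      exact hs
    have h2 : L.l v ≤ L.l (v * s) + L.l s⁻¹ := by
      have h3 := L.mul (v * s) s⁻¹
      rwa [mul_inv_cancel_right] at h3
    rw [L.inv] at h2
    change L.l v ≤ R + 1
    omega
  have hsph : ∀ x : G, R < L.l x → ∃ z, L.l z = R + 1 ∧ Joined L {v | R < L.l v} x z := by
    intro x hx
    exact exists_sphere L R (L.l x - (R + 1)) x (by omega)
  -- some class is cofinite
  have hco : ∃ z : G, R < L.l z ∧ ({y | Joined L {v | R < L.l v} z y}ᶜ).Finite := by
    by_contra hno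
    push Not at hno
    have hfin : ∀ z : G, R < L.l z → {y | Joined L {v | R < L.l v} z y}.Finite := by
      intro z hz
      rcases hC z hz with h1 | h1
      · exact h1
      · exact absurd h1 (hno z hz)
    have hsf : {z : G | L.l z = R + 1}.Finite :=
      (L.fin (R + 1)).subset (fun z hz => le_of_eq hz)
    have hU : (⋃ z ∈ {z : G | L.l z = R + 1}, {y | Joined L {v | R < L.l v} z y}).Finite := by
      refine hsf.biUnion fun z hz => hfin z ?_
      have : L.l z = R + 1 := hz
      omega
    have hS : {v : G | R < L.l v}.Finite := by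
      refine hU.subset ?_
      intro x hx
      obtain ⟨z, hz, hj⟩ := hsph x hx
      simp only [Set.mem_iUnion]
      exact ⟨z, hz, joined_symm L _ hj⟩
    have huniv : (Set.univ : Set G).Finite := by
      refine (hS.union (L.fin R)).subset ?_
      intro x _
      rcases lt_or_ge R (L.l x) with h1 | h1
      · exact Or.inl h1
      · exact Or.inr h1
    exact Set.infinite_univ huniv
  obtain ⟨z, hz, hzf⟩ := hco
  obtain ⟨N, hN⟩ : ∃ N : ℕ, ∀ y, y ∈ {y | Joined L {v | R < L.l v} z y}ᶜ → L.l y ≤ N := by
    obtain ⟨N, hN⟩ := (hzf.image L.l).bddAbove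
    exact ⟨N, fun y hy => hN (Set.mem_image_of_mem _ hy)⟩
  refine ⟨max R N, le_max_left _ _, ?_⟩
  intro x y hx hy
  have key : ∀ w : G, max R N < L.l w → Joined L {v | R < L.l v} z w := by
    intro w hw
    by_contra hnw
    have := hN w hnw
    have := lt_of_le_of_lt (le_max_right R N) hw
    omega
  exact Relation.ReflTransGen.trans (joined_symm L _ (key x hx)) (key y hy)

end Pool.Agent.CPD
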