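import Pool.Agent.CPD.StE

/-!
# E7 : combings for the word length
-/

set_option autoImplicit false

namespace Pool.Agent.CPD

theorem E7_word {G α : Type} [Group G] (f : α → G) (L : Len G) (hL : ∀ x, L.l x = wlen f x)
    (x : G) (hx : L.l x ≤ 1) : x = 1 ∨ ∃ a, x = letter f a := by
  by_cases h0 : L.l x = 0
  · exact Or.inl (L.eq_one x h0)
  · have h1 : wlen f x = 1 := by
      rw [← hL]
      omega
    have hne : {n | ∃ w : List (α × Bool), w.length = n ∧ value f w = x}.Nonempty := by
      by_contra hne
      rw [Set.not_nonempty_iff_eq_empty] at hne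
      rw [wlen, hne, Nat.sInf_empty] at h1
      exact absurd h1 (by norm_num)
    have h2 := Nat.sInf_mem hne
    obtain ⟨w, hw, hv⟩ := h2
    have h3 : w.length = 1 := by
      rw [hw]
      exact h1
    obtain ⟨a, rfl⟩ := List.length_eq_one_iff.1 h3
    right
    refine ⟨a, ?_⟩
    rw [← hv, value, List.map_singleton, List.prod_singleton]

theorem E7 : St_E7 := by
  intro G _
  constructor
  · intro n f σ τ L hL hc
    obtain ⟨k, hk⟩ := hc.fellow
    refine ⟨k, ⟨hc.start, hc.stop, ?_, ?_, ?_⟩⟩
    · intro x j
      rw [hL]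
      exact hc.step x j
    · intro x y j hxy
      rcases E7_word f L hL _ hxy with h | ⟨a, ha⟩
      · have : y = x := by
          rw [← mul_one x, ← h, mul_inv_cancel_left]
        rw [this, inv_mul_cancel, L.one]
        exact Nat.zero_le _
      · have : y = x * letter f a := by
          rw [← ha, mul_inv_cancel_left]
        rw [this, hL]
        exact hk x a j
    · intro R
      obtain ⟨t, ht⟩ := hc.departure R
      refine ⟨t, fun x i j hij hj h => ht x i j hij hj ?_⟩
      rw [← hL]
      exact h
  · intro L σ τ k hc R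
    induction R with
    | zero =>
      intro x y j h
      have h1 := L.eq_one _ (Nat.le_zero.1 h)
      have : y = x := by
        rw [← mul_one x, ← h1, mul_inv_cancel_left]
      rw [this, inv_mul_cancel, L.one]
      exact Nat.zero_le _
    | succ R ih =>
      intro x y j h
      by_cases h1 : L.l (x⁻¹ * y) ≤ R
      · exact (ih x y j h1).trans (Nat.mul_le_mul_left k (Nat.le_succ R))
      · obtain ⟨s, hs, hs'⟩ := L.path (x⁻¹ * y) R (by omega)
        have h2 : L.l (x⁻¹ * (y * s)) ≤ R := by
          rw [← mul_assoc, hs']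
        have h3 := ih x (y * s) j h2
        have h4 : L.l ((y * s)⁻¹ * y) ≤ 1 := by
          rw [mul_inv_rev, mul_assoc, inv_mul_cancel, mul_one, L.inv, hs]
        have h5 := hc.fellow (y * s) y j h4
        have h6 := L.mul ((σ x j)⁻¹ * σ (y * s) j) ((σ (y * s) j)⁻¹ * σ y j)
        rw [mul_assoc, mul_inv_cancel_left] at h6
        rw [Nat.mul_succ]
        omega

end Pool.Agent.CPD
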