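import Pool.Agent.CPD.StE

/-!
# [E8] The integral flow, chain maps (helper7)
-/

set_option autoImplicit false
set_option linter.unusedVariables false
set_option linter.unusedSectionVars false

namespace Pool.Agent.CPD

open Matrix

section E8aux

variable {G : Type} [Group G] {I : Type}

private theorem e8_congr {f g : (G × I) → ((G × I) →₀ ℤ)} {c : (G × I) →₀ ℤ}
    (h : ∀ y, c y ≠ 0 → f y = g y) : ext f c = ext g c := by
  unfold ext
  rw [Finsupp.linearCombination_apply, Finsupp.linearCombination_apply]
  apply Finsupp.sum_congr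
  intro y hy
  rw [h y (Finsupp.mem_support_iff.1 hy)]

private theorem e8_map (T : ((G × I) →₀ ℤ) →ₗ[ℤ] ((G × I) →₀ ℤ))
    (f : (G × I) → ((G × I) →₀ ℤ)) (c : (G × I) →₀ ℤ) :
    T (ext f c) = ext (fun x => T (f x)) c := by
  unfold ext
  rw [Finsupp.linearCombination_apply, Finsupp.linearCombination_apply, Finsupp.sum, Finsupp.sum,
    map_sum]
  exact Finset.sum_congr rfl fun x _ => map_smul T _ _

private theorem e8_apply (f : (G × I) → ((G × I) →₀ ℤ)) (c : (G × I) →₀ ℤ) (z : G × I) :
    ext f c z = ∑ y ∈ c.support, c y * f y z := by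
  unfold ext
  rw [Finsupp.linearCombination_apply, Finsupp.sum, Finsupp.finsetSum_apply]
  rfl

private theorem e8_supp {f : (G × I) → ((G × I) →₀ ℤ)} {c : (G × I) →₀ ℤ} {z : G × I}
    (h : ext f c z ≠ 0) : ∃ y, c y ≠ 0 ∧ f y z ≠ 0 := by
  by_contra hcon
  push Not at hcon
  apply h
  rw [e8_apply]
  apply Finset.sum_eq_zero
  intro y hy
  rw [hcon y (Finsupp.mem_support_iff.1 hy), mul_zero]

private theorem e8_ext_row [Fintype I] (A : Matrix I I (ZG G)) : ext (row A) = opZ A := rfl

private theorem e8_row_supp [Fintype I] {A : Matrix I I (ZG G)} {x y : G × I}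
    (h : row A x y ≠ 0) : (A x.2 y.2).coeff (x.1⁻¹ * y.1) ≠ 0 ∧ A x.2 y.2 ≠ 0 := by
  rw [row_apply] at h
  refine ⟨h, ?_⟩
  intro h1
  apply h
  rw [h1]
  rfl

private theorem e8_row_mul [Fintype I] [DecidableEq I] (h1 : St_E1) (A B : Matrix I I (ZG G))
    (x : G × I) : opZ B (row A x) = row (A * B) x := by
  have h2 := (h1 G I).2.2.2.2.2.1 A B (Finsupp.single x 1)
  have h3 : ∀ C : Matrix I I (ZG G), opZ C (Finsupp.single x 1) = row C x := by
    intro C
    unfold opZ
    rw [Finsupp.linearCombination_single, one_smul]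
  rw [h3, h3] at h2
  exact h2.symm

private theorem e8_row_zero [Fintype I] (x : G × I) : row (0 : Matrix I I (ZG G)) x = 0 := by
  ext y
  rw [row_apply]
  rfl

private theorem e8_aug (e : I → ℤ) (c : (G × I) →₀ ℤ) :
    augZ e c = Finsupp.linearCombination ℤ (fun x : G × I => e x.2) c := by
  unfold augZ
  rw [Finsupp.linearCombination_apply]
  rfl

private theorem e8_aug_ext (e : I → ℤ) {f : (G × I) → ((G × I) →₀ ℤ)} {c : (G × I) →₀ ℤ}
    (h : ∀ y, c y ≠ 0 → augZ e (f y) = e y.2) : augZ e (ext f c) = augZ e c := by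
  rw [e8_aug, e8_aug]
  have h2 : ext f c = ∑ y ∈ c.support, c y • f y := by
    unfold ext
    rw [Finsupp.linearCombination_apply, Finsupp.sum]
  rw [h2, map_sum]
  conv_rhs => rw [Finsupp.linearCombination_apply, Finsupp.sum]
  apply Finset.sum_congr rfl
  intro y hy
  rw [map_smul, ← e8_aug, h y (Finsupp.mem_support_iff.1 hy)]

private theorem e8_aug_row [Fintype I] [DecidableEq I] (h1 : St_E1) (e : I → ℤ)
    (A : Matrix I I (ZG G)) (x : G × I) : augZ e (row A x) = ∑ j, au (A x.2 j) * e j := by
  rw [(h1 G I).2.2.2.2.1 e (row A x)]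
  apply Finset.sum_congr rfl
  intro j _
  congr 1
  have h2 : toV (row A x) j = MonoidAlgebra.single x.1 (1 : ℤ) * A x.2 j := by
    apply MonoidAlgebra.ext
    ext g
    rw [MonoidAlgebra.coeff_single_mul_apply, one_mul]
    exact row_apply A x (g, j)
  rw [h2, map_mul]
  have h3 : au (MonoidAlgebra.single x.1 (1 : ℤ) : ZG G) = 1 := by
    unfold au
    rw [MonoidAlgebra.lift_single]
    simp
  rw [h3, one_mul]

/-- a bound for the lengths in the supports of the entries -/
private theorem e8_bound (L : Len G) [Finite I] (A : Matrix I I (ZG G)) :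
    ∃ ρ : ℕ, ∀ i j g, (A i j).coeff g ≠ 0 → L.l g ≤ ρ := by
  classical
  have := Fintype.ofFinite I
  refine ⟨∑ i, ∑ j, ∑ g ∈ (A i j).coeff.support, L.l g, ?_⟩
  intro i j g hg
  calc L.l g ≤ ∑ g ∈ (A i j).coeff.support, L.l g :=
        Finset.single_le_sum (f := fun g => L.l g) (fun _ _ => Nat.zero_le _)
          (Finsupp.mem_support_iff.2 hg)
    _ ≤ ∑ j, ∑ g ∈ (A i j).coeff.support, L.l g :=
        Finset.single_le_sum (f := fun j => ∑ g ∈ (A i j).coeff.support, L.l g)
          (fun _ _ => Nat.zero_le _) (Finset.mem_univ j)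
    _ ≤ _ := Finset.single_le_sum (f := fun i => ∑ j, ∑ g ∈ (A i j).coeff.support, L.l g)
          (fun _ _ => Nat.zero_le _) (Finset.mem_univ i)

/-- a bound for the lengths in the support of a chain -/
private theorem e8_boundc (L : Len G) (c : (G × I) →₀ ℤ) :
    ∃ ρ : ℕ, ∀ y, c y ≠ 0 → L.l y.1 ≤ ρ := by
  classical
  refine ⟨∑ y ∈ c.support, L.l y.1, ?_⟩
  intro y hy
  exact Finset.single_le_sum (f := fun y : G × I => L.l y.1) (fun _ _ => Nat.zero_le _)
    (Finsupp.mem_support_iff.2 hy)

private theorem e8_tri (L : Len G) (a b c : G) : L.l (a⁻¹ * c) ≤ L.l (a⁻¹ * b) + L.l (b⁻¹ * c) := by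
  have h := L.mul (a⁻¹ * b) (b⁻¹ * c)
  have h2 : a⁻¹ * b * (b⁻¹ * c) = a⁻¹ * c := by group
  rw [h2] at h
  exact h

/-- a base chain of degree zero -/
private theorem e8_base [Fintype I] [DecidableEq I] (h1 : St_E1) {deg : I → ℕ}
    {D E : Matrix I I (ZG G)} {e : I → ℤ} (hR : Res deg D E e) :
    ∃ o : (G × I) →₀ ℤ, opZ E o = o ∧ augZ e o = 1 ∧ (∀ y, o y ≠ 0 → deg y.2 = 0) ∧ opZ D o = 0 := by
  classical
  obtain ⟨a1, a2, a3, a4, a5, a6, a7, a8, a9⟩ := h1 G I
  obtain ⟨v, hv, hv1⟩ := hR.surj
  obtain ⟨c, hc⟩ := a4 v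
  have hEc : opZ E c = c := by
    apply a3
    rw [a1, hc, hv]
  have hec : augZ e c = 1 := by
    rw [a5, hc]
    exact hv1
  let o : (G × I) →₀ ℤ := c.filter (fun y => deg y.2 = 0)
  let o' : (G × I) →₀ ℤ := c.filter (fun y => ¬ deg y.2 = 0)
  have hoo : o + o' = c := Finsupp.filter_add_filter_not c (fun y : G × I => deg y.2 = 0)
  have ho : ∀ y, o y ≠ 0 → deg y.2 = 0 := by
    intro y hy
    by_contra h
    exact hy (Finsupp.filter_apply_neg (fun y : G × I => deg y.2 = 0) c h)
  have ho' : ∀ y, o' y ≠ 0 → deg y.2 ≠ 0 := by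
    intro y hy h
    exact hy (Finsupp.filter_apply_neg (fun y : G × I => ¬ deg y.2 = 0) c (not_not.2 h))
  have hEo : ∀ z, opZ E o z ≠ 0 → deg z.2 = 0 := by
    intro z hz
    rw [← e8_ext_row] at hz
    obtain ⟨y, h2, h3⟩ := e8_supp hz
    rw [← hR.E_deg _ _ (e8_row_supp h3).2]
    exact ho y h2
  have hEo' : ∀ z, opZ E o' z ≠ 0 → deg z.2 ≠ 0 := by
    intro z hz
    rw [← e8_ext_row] at hz
    obtain ⟨y, h2, h3⟩ := e8_supp hz
    rw [← hR.E_deg _ _ (e8_row_supp h3).2]
    exact ho' y h2
  refine ⟨o, ?_, ?_, ho, ?_⟩
  · ext z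
    have h2 : opZ E o z + opZ E o' z = o z + o' z := by
      rw [← Finsupp.add_apply, ← map_add, hoo, hEc, ← Finsupp.add_apply, hoo]
    by_cases hz : deg z.2 = 0
    · have h3 : opZ E o' z = 0 := by
        by_contra h
        exact hEo' z h hz
      have h4 : o' z = 0 := by
        by_contra h
        exact ho' z h hz
      rw [h3, h4, add_zero, add_zero] at h2
      exact h2
    · have h3 : opZ E o z = 0 := by
        by_contra h
        exact hz (hEo z h)
      have h4 : o z = 0 := by
        by_contra h
        exact hz (ho z h)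
      rw [h3, h4]
  · have h2 : augZ e o' = 0 := by
      unfold augZ
      rw [Finsupp.sum]
      apply Finset.sum_eq_zero
      intro y hy
      have h3 : e y.2 = 0 := by
        by_contra h
        exact ho' y (Finsupp.mem_support_iff.1 hy) (hR.e_deg _ h)
      rw [h3, mul_zero]
    have h3 : augZ e o + augZ e o' = augZ e c := by
      rw [← hoo, e8_aug, e8_aug, e8_aug, map_add]
    rw [h2, add_zero, hec] at h3
    exact h3
  · ext z
    rw [← e8_ext_row]
    by_contra h
    obtain ⟨y, h2, h3⟩ := e8_supp h
    have h4 := hR.D_deg _ _ (e8_row_supp h3).2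
    rw [ho y h2] at h4
    omega

end E8aux

theorem E8 (h1 : St_E1) (h5 : St_E5) (h7 : St_E7) : St_E8 := by
  classical
  intro G _ L M σ τ k hC
  obtain ⟨a1, a2, a3, a4, a5, a6, a7, a8, a9⟩ := h1 G M.I
  have hk := (h7 G).2 L σ τ k hC
  have hR := M.resP
  obtain ⟨ρD, hρD⟩ := e8_bound L M.D
  obtain ⟨ρE, hρE⟩ := e8_bound L M.E
  obtain ⟨ρ, hρD', hρE'⟩ : ∃ ρ : ℕ, ρD ≤ ρ ∧ ρE ≤ ρ := ⟨max ρD ρE, le_max_left _ _, le_max_right _ _⟩
  -- supports of the rows
  have rD : ∀ x y : G × M.I, row M.D x y ≠ 0 → L.l (x.1⁻¹ * y.1) ≤ ρ ∧ M.deg x.2 = M.deg y.2 + 1 := by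
    intro x y h
    obtain ⟨b1, b2⟩ := e8_row_supp h
    exact ⟨(hρD _ _ _ b1).trans hρD', hR.D_deg _ _ b2⟩
  have rE : ∀ x y : G × M.I, row M.E x y ≠ 0 → L.l (x.1⁻¹ * y.1) ≤ ρ ∧ M.deg x.2 = M.deg y.2 := by
    intro x y h
    obtain ⟨b1, b2⟩ := e8_row_supp h
    exact ⟨(hρE _ _ _ b1).trans hρE', hR.E_deg _ _ b2⟩
  have rEE : ∀ x : G × M.I, opZ M.E (row M.E x) = row M.E x := by
    intro x
    rw [e8_row_mul h1, hR.EE]
  have rED : ∀ x : G × M.I, opZ M.D (row M.E x) = row M.D x := by
    intro x
    rw [e8_row_mul h1, hR.ED]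
  have rDE : ∀ x : G × M.I, opZ M.E (row M.D x) = row M.D x := by
    intro x
    rw [e8_row_mul h1, hR.DE]
  have rDD : ∀ x : G × M.I, opZ M.D (row M.D x) = 0 := by
    intro x
    rw [e8_row_mul h1, hR.DD, e8_row_zero]
  have augE : ∀ x : G × M.I, augZ M.e (row M.E x) = M.e x.2 := by
    intro x
    rw [e8_aug_row h1, hR.Ee]
  have augD : ∀ x : G × M.I, augZ M.e (row M.D x) = 0 := by
    intro x
    rw [e8_aug_row h1, hR.De]
  obtain ⟨o, oE, oa, od, oD⟩ := e8_base h1 hR
  obtain ⟨R0, hR0⟩ := e8_boundc L o
  -- the claim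
  have key : ∀ n : ℕ, ∃ (c : ℕ) (rr : ℕ → (G × M.I) → ((G × M.I) →₀ ℤ)),
      (∀ j x, M.deg x.2 < n → opZ M.E (rr j x) = rr j x) ∧
      (∀ j x, M.deg x.2 < n → ext (rr j) (row M.E x) = rr j x) ∧
      (∀ j x, M.deg x.2 < n → opZ M.D (rr j x) = ext (rr j) (row M.D x)) ∧
      (∀ j x, M.deg x.2 < n → augZ M.e (rr j x) = M.e x.2) ∧
      (∀ j x y, M.deg x.2 < n → rr j x y ≠ 0 →
        L.l ((σ x.1 j)⁻¹ * y.1) ≤ c ∧ M.deg y.2 = M.deg x.2) ∧
      (∀ j x, M.deg x.2 < n → (∀ y, L.l (x.1⁻¹ * y) ≤ c → τ y ≤ j) → rr j x = row M.E x) := by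
    intro n
    induction n with
    | zero =>
      exact ⟨0, fun _ _ => 0, fun _ _ h => absurd h (Nat.not_lt_zero _),
        fun _ _ h => absurd h (Nat.not_lt_zero _), fun _ _ h => absurd h (Nat.not_lt_zero _),
        fun _ _ h => absurd h (Nat.not_lt_zero _), fun _ _ _ h => absurd h (Nat.not_lt_zero _),
        fun _ _ h => absurd h (Nat.not_lt_zero _)⟩
    | succ n ih =>
      obtain ⟨c, rr, P1, P2, P3, P4, P5, P6⟩ := ih
      obtain ⟨R', hR'⟩ := h5 G L M.I M.deg M.D M.E M.e hR (c + k * ρ)
      -- the rows of the new degree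
      have step : ∀ (j : ℕ) (x : G × M.I), ∃ b : (G × M.I) →₀ ℤ, M.deg x.2 = n →
          opZ M.E b = b ∧ opZ M.D b = ext (rr j) (row M.D x) ∧ augZ M.e b = M.e x.2 ∧
          (∀ y, b y ≠ 0 → L.l ((σ x.1 j)⁻¹ * y.1) ≤ ρ + R0 + R' ∧ M.deg y.2 = n) ∧
          ((∀ y, L.l (x.1⁻¹ * y) ≤ c + ρ → τ y ≤ j) → b = row M.E x) := by
        intro j x
        by_cases hx : M.deg x.2 = n
        swap
        · exact ⟨0, fun h => absurd h hx⟩
        by_cases hf : ∀ y, L.l (x.1⁻¹ * y) ≤ c + ρ → τ y ≤ j
        · refine ⟨row M.E x, fun _ => ⟨rEE x, ?_, augE x, ?_, fun _ => rfl⟩⟩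
          · rw [rED, ← rDE x]
            conv_lhs => rw [← e8_ext_row]
            rw [rDE x]
            apply e8_congr
            intro y hy
            obtain ⟨b1, b2⟩ := rD x y hy
            symm
            apply P6 j y (by omega)
            intro z hz
            apply hf
            have := e8_tri L x.1 y.1 z
            omega
          · intro y hy
            obtain ⟨b1, b2⟩ := rE x y hy
            have b3 : σ x.1 j = x.1 := by
              apply hC.stop
              apply hf
              rw [inv_mul_cancel, L.one]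
              exact Nat.zero_le _
            rw [b3]
            exact ⟨by omega, by omega⟩
        · rcases Nat.eq_zero_or_pos n with hn | hn
          · -- degree zero
            refine ⟨M.e x.2 • tl (σ x.1 j) o, fun _ => ⟨?_, ?_, ?_, ?_, fun h => absurd h hf⟩⟩
            · rw [map_smul, a7, oE]
            · have b1 : row M.D x = 0 := by
                ext y
                by_contra h
                have := (rD x y h).2
                omega
              rw [map_smul, a7, oD, b1, map_zero]
              have b2 : tl (σ x.1 j) (0 : (G × M.I) →₀ ℤ) = 0 := by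
                unfold tl
                exact Finsupp.mapDomain_zero
              rw [b2, smul_zero]
            · rw [e8_aug, map_smul, ← e8_aug, a8, oa, smul_eq_mul, mul_one]
            · intro y hy
              have b1 : tl (σ x.1 j) o y ≠ 0 := by
                intro h
                apply hy
                rw [Finsupp.smul_apply, h, smul_zero]
              rw [a9] at b1
              have b2 := hR0 _ b1
              have b3 := od _ b1
              simp only at b2 b3
              exact ⟨by omega, by omega⟩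
          · -- positive degree
            have v1 : opZ M.E (ext (rr j) (row M.D x)) = ext (rr j) (row M.D x) := by
              rw [e8_map]
              apply e8_congr
              intro y hy
              have := (rD x y hy).2
              exact P1 j y (by omega)
            have v2 : opZ M.D (ext (rr j) (row M.D x)) = 0 := by
              rw [e8_map]
              have b1 : ext (fun y => opZ M.D (rr j y)) (row M.D x) =
                  ext (fun y => ext (rr j) (row M.D y)) (row M.D x) := by
                apply e8_congr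
                intro y hy
                have := (rD x y hy).2
                exact P3 j y (by omega)
              rw [b1, ← e8_map, e8_ext_row, rDD, map_zero]
            have v3 : augZ M.e (ext (rr j) (row M.D x)) = 0 := by
              rw [e8_aug_ext, augD]
              intro y hy
              have := (rD x y hy).2
              exact P4 j y (by omega)
            have v4 : ∀ z, ext (rr j) (row M.D x) z ≠ 0 →
                L.l ((σ x.1 j)⁻¹ * z.1) ≤ c + k * ρ ∧ M.deg z.2 = n - 1 := by
              intro z hz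
              obtain ⟨y, b1, b2⟩ := e8_supp hz
              obtain ⟨b3, b4⟩ := rD x y b1
              obtain ⟨b5, b6⟩ := P5 j y z (by omega) b2
              have b7 := hk ρ x.1 y.1 j b3
              have b8 := e8_tri L (σ x.1 j) (σ y.1 j) z.1
              exact ⟨by omega, by omega⟩
            obtain ⟨b, b1, b2, b3⟩ := hR' (σ x.1 j) (n - 1) _ v4 v1 v2 v3
            refine ⟨b, fun _ => ⟨b2, b3, ?_, ?_, fun h => absurd h hf⟩⟩
            · have b4 : M.e x.2 = 0 := by
                by_contra h
                have := hR.e_deg _ h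
                omega
              rw [b4]
              unfold augZ
              rw [Finsupp.sum]
              apply Finset.sum_eq_zero
              intro y hy
              have b5 := (b1 y (Finsupp.mem_support_iff.1 hy)).2
              have b6 : M.e y.2 = 0 := by
                by_contra h
                have := hR.e_deg _ h
                omega
              rw [b6, mul_zero]
            · intro y hy
              obtain ⟨b4, b5⟩ := b1 y hy
              exact ⟨by omega, by omega⟩
      choose r' hr' using step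
      -- values on cells of degree `n`
      have hlow : ∀ j x, M.deg x.2 < n →
          (fun j x => if M.deg x.2 = n then ext (r' j) (row M.E x) else rr j x) j x = rr j x := by
        intro j x hx
        exact if_neg (by omega)
      have hnew : ∀ j x, M.deg x.2 = n →
          (fun j x => if M.deg x.2 = n then ext (r' j) (row M.E x) else rr j x) j x =
            ext (r' j) (row M.E x) := by
        intro j x hx
        exact if_pos hx
      generalize (fun (j : ℕ) (x : G × M.I) =>
        if M.deg x.2 = n then ext (r' j) (row M.E x) else rr j x) = rn at hlow hnew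
      -- properties of `ext (r' j) (row E x)`
      have Q1 : ∀ j x, M.deg x.2 = n →
          opZ M.E (ext (r' j) (row M.E x)) = ext (r' j) (row M.E x) := by
        intro j x hx
        rw [e8_map]
        apply e8_congr
        intro y hy
        have := (rE x y hy).2
        exact (hr' j y (by omega)).1
      have Q2 : ∀ j x, M.deg x.2 = n → ext (rn j) (row M.E x) = ext (r' j) (row M.E x) := by
        intro j x hx
        have b1 : ext (rn j) (row M.E x) = ext (fun y => ext (r' j) (row M.E y)) (row M.E x) := by
          apply e8_congr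
          intro y hy
          have := (rE x y hy).2
          exact hnew j y (by omega)
        rw [b1, ← e8_map, e8_ext_row, rEE]
      have QD : ∀ j x, M.deg x.2 ≤ n → ext (rn j) (row M.D x) = ext (rr j) (row M.D x) := by
        intro j x hx
        apply e8_congr
        intro y hy
        have := (rD x y hy).2
        exact hlow j y (by omega)
      have Q3 : ∀ j x, M.deg x.2 = n →
          opZ M.D (ext (r' j) (row M.E x)) = ext (rr j) (row M.D x) := by
        intro j x hx
        rw [e8_map]
        have b1 : ext (fun y => opZ M.D (r' j y)) (row M.E x) =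
            ext (fun y => ext (rr j) (row M.D y)) (row M.E x) := by
          apply e8_congr
          intro y hy
          have := (rE x y hy).2
          exact (hr' j y (by omega)).2.1
        rw [b1, ← e8_map, e8_ext_row, rED]
      have hlt : ∀ x : G × M.I, M.deg x.2 < n + 1 → M.deg x.2 < n ∨ M.deg x.2 = n := fun x hx => by
        omega
      refine ⟨c + 2 * ρ + (ρ + R0 + R') + k * ρ, rn, ?_, ?_, ?_, ?_, ?_, ?_⟩
      · intro j x hx
        rcases hlt x hx with h | h
        · rw [hlow j x h]
          exact P1 j x h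
        · rw [hnew j x h]
          exact Q1 j x h
      · intro j x hx
        rcases hlt x hx with h | h
        · rw [hlow j x h, ← P2 j x h]
          rw [P2 j x h, ← P2 j x h]
          apply e8_congr
          intro y hy
          have := (rE x y hy).2
          exact hlow j y (by omega)
        · rw [hnew j x h]
          exact Q2 j x h
      · intro j x hx
        rw [QD j x (by omega)]
        rcases hlt x hx with h | h
        · rw [hlow j x h]
          exact P3 j x h
        · rw [hnew j x h]
          exact Q3 j x h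
      · intro j x hx
        rcases hlt x hx with h | h
        · rw [hlow j x h]
          exact P4 j x h
        · rw [hnew j x h, e8_aug_ext, augE]
          intro y hy
          have := (rE x y hy).2
          exact (hr' j y (by omega)).2.2.1
      · intro j x z hx hz
        rcases hlt x hx with h | h
        · rw [hlow j x h] at hz
          obtain ⟨b1, b2⟩ := P5 j x z h hz
          exact ⟨by omega, b2⟩
        · rw [hnew j x h] at hz
          obtain ⟨y, b1, b2⟩ := e8_supp hz
          obtain ⟨b3, b4⟩ := rE x y b1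
          obtain ⟨b5, b6⟩ := (hr' j y (by omega)).2.2.2.1 z b2
          have b7 := hk ρ x.1 y.1 j b3
          have b8 := e8_tri L (σ x.1 j) (σ y.1 j) z.1
          exact ⟨by omega, by omega⟩
      · intro j x hx hf
        rcases hlt x hx with h | h
        · rw [hlow j x h]
          exact P6 j x h fun y hy => hf y (by omega)
        · rw [hnew j x h]
          have b1 : ext (r' j) (row M.E x) = ext (row M.E) (row M.E x) := by
            apply e8_congr
            intro y hy
            obtain ⟨b2, b3⟩ := rE x y hy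
            apply (hr' j y (by omega)).2.2.2.2
            intro z hz
            apply hf
            have := e8_tri L x.1 y.1 z
            omega
          rw [b1, e8_ext_row, rEE]
  obtain ⟨c, rr, P1, P2, P3, P4, P5, P6⟩ := key 4
  have hd : ∀ x : G × M.I, M.deg x.2 < 4 := fun x => by
    have := M.deg_le x.2
    omega
  exact ⟨c, rr, fun j x => P1 j x (hd x), fun j x => P2 j x (hd x), fun j x => P3 j x (hd x),
    fun j x => P4 j x (hd x), fun j x y => P5 j x y (hd x), fun j x => P6 j x (hd x)⟩

end Pool.Agent.CPD
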