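import Pool.Agent.CPD.StE

/-!
# CPD, E9: the integral flow, homotopies
-/

set_option autoImplicit false

namespace Pool.Agent.CPD

open Matrix

section

variable {G I : Type} [Group G]

private lemma E9_ext_apply (f : (G × I) → ((G × I) →₀ ℤ)) (c : (G × I) →₀ ℤ) :
    ext f c = c.sum fun x n => n • f x := Finsupp.linearCombination_apply _ _

private lemma E9_ext_congr {f g : (G × I) → ((G × I) →₀ ℤ)} {c : (G × I) →₀ ℤ}
    (h : ∀ x, c x ≠ 0 → f x = g x) : ext f c = ext g c := by
  rw [E9_ext_apply, E9_ext_apply]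
  exact Finsupp.sum_congr fun x hx => by rw [h x (Finsupp.mem_support_iff.1 hx)]

private lemma E9_map_ext (T : ((G × I) →₀ ℤ) →ₗ[ℤ] ((G × I) →₀ ℤ))
    (f : (G × I) → ((G × I) →₀ ℤ)) (c : (G × I) →₀ ℤ) :
    T (ext f c) = ext (fun x => T (f x)) c := by
  rw [E9_ext_apply, E9_ext_apply, map_finsuppSum]
  exact Finsupp.sum_congr fun x _ => by rw [map_smul]

private lemma E9_ext_opZ [Fintype I] (f : (G × I) → ((G × I) →₀ ℤ)) (A : Matrix I I (ZG G))
    (c : (G × I) →₀ ℤ) : ext f (opZ A c) = ext (fun x => ext f (row A x)) c :=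
  E9_map_ext (ext f) (row A) c

private lemma E9_ext_sub (f g : (G × I) → ((G × I) →₀ ℤ)) (c : (G × I) →₀ ℤ) :
    ext (fun x => f x - g x) c = ext f c - ext g c := by
  rw [E9_ext_apply, E9_ext_apply, E9_ext_apply, ← Finsupp.sum_sub]
  exact Finsupp.sum_congr fun x _ => by rw [smul_sub]

private lemma E9_ext_supp {f : (G × I) → ((G × I) →₀ ℤ)} {c : (G × I) →₀ ℤ} {y : G × I}
    (h : ext f c y ≠ 0) : ∃ x, c x ≠ 0 ∧ f x y ≠ 0 := by
  by_contra hc
  push Not at hc
  apply h
  rw [E9_ext_apply, Finsupp.sum, Finsupp.finsetSum_apply]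
  refine Finset.sum_eq_zero fun x hx => ?_
  rw [Finsupp.smul_apply, hc x (Finsupp.mem_support_iff.1 hx), smul_zero]

private lemma E9_opZ_single [Fintype I] (A : Matrix I I (ZG G)) (x : G × I) :
    opZ A (Finsupp.single x 1) = row A x := by
  unfold opZ
  rw [Finsupp.linearCombination_single, one_smul]

private lemma E9_opZ_row [Fintype I] [DecidableEq I] (h1 : St_E1) (A B : Matrix I I (ZG G))
    (x : G × I) : opZ B (row A x) = row (A * B) x := by
  rw [← E9_opZ_single, ← E9_opZ_single, (h1 G I).2.2.2.2.2.1]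

private lemma E9_bound [Fintype I] (L : Len G) (A : Matrix I I (ZG G)) :
    ∃ ρ : ℕ, ∀ x y : G × I, row A x y ≠ 0 → L.l (x.1⁻¹ * y.1) ≤ ρ := by
  refine ⟨∑ i, ∑ j, ∑ g ∈ (A i j).coeff.support, L.l g, fun x y h => ?_⟩
  rw [row_apply] at h
  calc L.l (x.1⁻¹ * y.1) ≤ ∑ g ∈ (A x.2 y.2).coeff.support, L.l g :=
        Finset.single_le_sum (f := fun g => L.l g) (fun _ _ => Nat.zero_le _)
          (Finsupp.mem_support_iff.2 h)
    _ ≤ ∑ j, ∑ g ∈ (A x.2 j).coeff.support, L.l g :=
        Finset.single_le_sum (f := fun j => ∑ g ∈ (A x.2 j).coeff.support, L.l g)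
          (fun _ _ => Nat.zero_le _) (Finset.mem_univ _)
    _ ≤ _ := Finset.single_le_sum (f := fun i => ∑ j, ∑ g ∈ (A i j).coeff.support, L.l g)
          (fun _ _ => Nat.zero_le _) (Finset.mem_univ _)

private lemma E9_row_ne [Fintype I] {A : Matrix I I (ZG G)} {x y : G × I} (h : row A x y ≠ 0) :
    A x.2 y.2 ≠ 0 := by
  intro h0
  apply h
  rw [row_apply, h0]
  rfl

private lemma E9_augZ_sub (e : I → ℤ) (c c' : (G × I) →₀ ℤ) :
    augZ e (c - c') = augZ e c - augZ e c' := by
  unfold augZ
  exact Finsupp.sum_sub_index fun x m n => by ring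

private lemma E9_augZ_zero {e : I → ℤ} {c : (G × I) →₀ ℤ} (h : ∀ x, c x ≠ 0 → e x.2 = 0) :
    augZ e c = 0 := by
  unfold augZ
  refine Finset.sum_eq_zero fun x hx => ?_
  change c x * e x.2 = 0
  rw [h x (Finsupp.mem_support_iff.1 hx), mul_zero]

end

theorem E9 (h1 : St_E1) (h5 : St_E5) (h7 : St_E7) : St_E9 := by
  intro G _ L M σ τ k c rr hC rE rEx rD raug rsup rfin
  obtain ⟨ρD, hρD⟩ := E9_bound L M.D
  obtain ⟨ρE, hρE⟩ := E9_bound L M.E
  have hclose := (h7 G).2 L σ τ k hC
  -- the claim by induction on the degree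
  have key : ∀ n : ℕ, ∃ (c' : ℕ) (hh : ℕ → (G × M.I) → ((G × M.I) →₀ ℤ)),
      (∀ j x, M.deg x.2 < n →
        rr (j + 1) x - rr j x = opZ M.D (hh j x) + ext (hh j) (row M.D x)) ∧
      (∀ j x, opZ M.E (hh j x) = hh j x) ∧
      (∀ j x, ext (hh j) (row M.E x) = hh j x) ∧
      (∀ j x y, hh j x y ≠ 0 → L.l ((σ x.1 j)⁻¹ * y.1) ≤ c' ∧ M.deg y.2 = M.deg x.2 + 1) ∧
      (∀ j x, (∀ y, L.l (x.1⁻¹ * y) ≤ c' → τ y ≤ j) → hh j x = 0) := by
    intro n
    induction n with
    | zero =>
      refine ⟨0, fun _ _ => 0, fun j x h => absurd h (Nat.not_lt_zero _), fun j x => map_zero _,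
        fun j x => ?_, fun j x y h => absurd rfl h, fun j x _ => rfl⟩
      rw [E9_ext_apply]
      exact Finset.sum_eq_zero fun x _ => smul_zero _
    | succ n ih =>
      obtain ⟨c0, hh, P1, P2, P3, P4, P5⟩ := ih
      set v : ℕ → (G × M.I) → ((G × M.I) →₀ ℤ) :=
        fun j x => rr (j + 1) x - rr j x - ext (hh j) (row M.D x) with hv
      have hvE : ∀ j x, opZ M.E (v j x) = v j x := by
        intro j x
        simp only [hv, map_sub, rE, E9_map_ext, P2]
      have hvD : ∀ j x, M.deg x.2 = n → opZ M.D (v j x) = 0 := by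
        intro j x hx
        have e1 : ext (fun y => opZ M.D (hh j y)) (row M.D x) =
            ext (fun y => rr (j + 1) y - rr j y - ext (hh j) (row M.D y)) (row M.D x) := by
          refine E9_ext_congr fun y hy => ?_
          have h2 := M.resP.D_deg _ _ (E9_row_ne hy)
          have h3 := P1 j y (by omega)
          rw [h3]
          abel
        simp only [hv, map_sub, rD, E9_map_ext]
        rw [e1, E9_ext_sub, E9_ext_sub, ← E9_ext_opZ, E9_opZ_row h1, M.resP.DD]
        have e2 : row (0 : Matrix M.I M.I (ZG G)) x = 0 := by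
          ext y
          rw [row_apply]
          rfl
        rw [e2, map_zero]
        abel
      have hvsup : ∀ j x, M.deg x.2 = n → ∀ y, v j x y ≠ 0 →
          L.l ((σ x.1 j)⁻¹ * y.1) ≤ c + 1 + c0 + k * ρD ∧ M.deg y.2 = n := by
        intro j x hx y hy
        have h2 : rr (j + 1) x y ≠ 0 ∨ rr j x y ≠ 0 ∨ ext (hh j) (row M.D x) y ≠ 0 := by
          by_contra hc
          push Not at hc
          apply hy
          simp only [hv, Finsupp.sub_apply, hc.1, hc.2.1, hc.2.2, sub_zero]
        rcases h2 with h2 | h2 | h2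
        · have h3 := rsup _ _ _ h2
          refine ⟨?_, by omega⟩
          have h4 : (σ x.1 j)⁻¹ * y.1 =
              ((σ x.1 j)⁻¹ * σ x.1 (j + 1)) * ((σ x.1 (j + 1))⁻¹ * y.1) := by group
          rw [h4]
          have h5' := L.mul ((σ x.1 j)⁻¹ * σ x.1 (j + 1)) ((σ x.1 (j + 1))⁻¹ * y.1)
          have h6 := hC.step x.1 j
          have h8 := h3.1
          omega
        · have h3 := rsup _ _ _ h2
          refine ⟨?_, by omega⟩
          have := h3.1
          omega
        · obtain ⟨z, hz1, hz2⟩ := E9_ext_supp h2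
          have h3 := P4 _ _ _ hz2
          have h4 := M.resP.D_deg _ _ (E9_row_ne hz1)
          refine ⟨?_, by omega⟩
          have h5' := hclose ρD x.1 z.1 j (hρD _ _ hz1)
          have h6 : (σ x.1 j)⁻¹ * y.1 =
              ((σ x.1 j)⁻¹ * σ z.1 j) * ((σ z.1 j)⁻¹ * y.1) := by group
          rw [h6]
          have h8 := L.mul ((σ x.1 j)⁻¹ * σ z.1 j) ((σ z.1 j)⁻¹ * y.1)
          have h9 := h3.1
          omega
      have hvaug : ∀ j x, M.deg x.2 = n → augZ M.e (v j x) = 0 := by
        intro j x hx
        rcases Nat.eq_zero_or_pos n with h0 | h0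
        · have e1 : row M.D x = 0 := by
            ext y
            by_contra hy
            have := M.resP.D_deg _ _ (E9_row_ne hy)
            omega
          simp only [hv]
          rw [e1, map_zero, sub_zero, E9_augZ_sub, raug, raug, sub_self]
        · refine E9_augZ_zero fun y hy => ?_
          have h2 := (hvsup j x hx y hy).2
          by_contra hc
          have := M.resP.e_deg _ hc
          omega
      obtain ⟨R', hR'⟩ := h5 G L M.I M.deg M.D M.E M.e M.resP (c + 1 + c0 + k * ρD)
      -- the fillings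
      have hfill : ∀ (j : ℕ) (x : G × M.I), ∃ b : (G × M.I) →₀ ℤ, M.deg x.2 = n →
          (∀ y, b y ≠ 0 → L.l ((σ x.1 j)⁻¹ * y.1) ≤ R' ∧ M.deg y.2 = n + 1) ∧
          opZ M.E b = b ∧ opZ M.D b = v j x ∧
          ((∀ y, L.l (x.1⁻¹ * y) ≤ c + c0 + ρD → τ y ≤ j) → b = 0) := by
        intro j x
        by_cases hx : M.deg x.2 = n
        · by_cases hf : ∀ y, L.l (x.1⁻¹ * y) ≤ c + c0 + ρD → τ y ≤ j
          · refine ⟨0, fun _ => ⟨fun y hy => absurd rfl hy, map_zero _, ?_, fun _ => rfl⟩⟩
            rw [map_zero]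
            have e1 : rr (j + 1) x = row M.E x :=
              rfin _ _ fun y hy => (hf y (by omega)).trans (Nat.le_succ _)
            have e2 : rr j x = row M.E x := rfin _ _ fun y hy => hf y (by omega)
            have e3 : ext (hh j) (row M.D x) = ext (fun _ => 0) (row M.D x) := by
              refine E9_ext_congr fun y hy => P5 j y fun z hz => hf z ?_
              have h2 := hρD _ _ hy
              have h3 : x.1⁻¹ * z = (x.1⁻¹ * y.1) * (y.1⁻¹ * z) := by group
              rw [h3]
              have h4 := L.mul (x.1⁻¹ * y.1) (y.1⁻¹ * z)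
              omega
            have e4 : ext (fun _ => (0 : (G × M.I) →₀ ℤ)) (row M.D x) = 0 := by
              rw [E9_ext_apply]
              exact Finset.sum_eq_zero fun x _ => smul_zero _
            simp only [hv]
            rw [e1, e2, e3, e4, sub_self, sub_zero]
          · obtain ⟨b, hb1, hb2, hb3⟩ := hR' (σ x.1 j) n (v j x)
              (hvsup j x hx) (hvE j x) (hvD j x hx) (hvaug j x hx)
            exact ⟨b, fun _ => ⟨hb1, hb2, hb3, fun h => absurd h hf⟩⟩
        · exact ⟨0, fun h => absurd h hx⟩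
      choose h' hh' using hfill
      refine ⟨c0 + R' + k * ρE + (c + c0 + ρD) + ρE,
        fun j x => if M.deg x.2 = n then ext (h' j) (row M.E x) else hh j x, ?_, ?_, ?_, ?_, ?_⟩
      · intro j x hx
        have e0 : ext (fun x => if M.deg x.2 = n then ext (h' j) (row M.E x) else hh j x)
            (row M.D x) = ext (hh j) (row M.D x) := by
          refine E9_ext_congr fun y hy => ?_
          have := M.resP.D_deg _ _ (E9_row_ne hy)
          exact if_neg (by omega)
        rw [e0]
        by_cases hxn : M.deg x.2 = n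
        · simp only [if_pos hxn]
          have e1 : ext (fun y => opZ M.D (h' j y)) (row M.E x) = ext (v j) (row M.E x) := by
            refine E9_ext_congr fun y hy => (hh' j y ?_).2.2.1
            have := M.resP.E_deg _ _ (E9_row_ne hy)
            omega
          rw [E9_map_ext, e1]
          simp only [hv]
          rw [E9_ext_sub, E9_ext_sub, rEx, rEx, ← E9_ext_opZ, E9_opZ_row h1, M.resP.ED]
          abel
        · simp only [if_neg hxn]
          exact P1 j x (by omega)
      · intro j x
        by_cases hxn : M.deg x.2 = n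
        · simp only [if_pos hxn]
          rw [E9_map_ext]
          refine E9_ext_congr fun y hy => (hh' j y ?_).2.1
          have := M.resP.E_deg _ _ (E9_row_ne hy)
          omega
        · simp only [if_neg hxn]
          exact P2 j x
      · intro j x
        by_cases hxn : M.deg x.2 = n
        · simp only [if_pos hxn]
          have e1 : ext (fun x => if M.deg x.2 = n then ext (h' j) (row M.E x) else hh j x)
              (row M.E x) = ext (fun x => ext (h' j) (row M.E x)) (row M.E x) := by
            refine E9_ext_congr fun y hy => ?_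
            have := M.resP.E_deg _ _ (E9_row_ne hy)
            exact if_pos (by omega)
          rw [e1, ← E9_ext_opZ, E9_opZ_row h1, M.resP.EE]
        · simp only [if_neg hxn]
          have e1 : ext (fun x => if M.deg x.2 = n then ext (h' j) (row M.E x) else hh j x)
              (row M.E x) = ext (hh j) (row M.E x) := by
            refine E9_ext_congr fun y hy => ?_
            have := M.resP.E_deg _ _ (E9_row_ne hy)
            exact if_neg (by omega)
          rw [e1, P3]
      · intro j x y hy
        by_cases hxn : M.deg x.2 = n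
        · simp only [if_pos hxn] at hy
          obtain ⟨z, hz1, hz2⟩ := E9_ext_supp hy
          have hdz := M.resP.E_deg _ _ (E9_row_ne hz1)
          have h3 := (hh' j z (by omega)).1 y hz2
          refine ⟨?_, by omega⟩
          have h5' := hclose ρE x.1 z.1 j (hρE _ _ hz1)
          have h6 : (σ x.1 j)⁻¹ * y.1 =
              ((σ x.1 j)⁻¹ * σ z.1 j) * ((σ z.1 j)⁻¹ * y.1) := by group
          rw [h6]
          have h8 := L.mul ((σ x.1 j)⁻¹ * σ z.1 j) ((σ z.1 j)⁻¹ * y.1)
          have h9 := h3.1
          omega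
        · simp only [if_neg hxn] at hy
          have h3 := P4 j x y hy
          exact ⟨by have := h3.1; omega, h3.2⟩
      · intro j x hf
        by_cases hxn : M.deg x.2 = n
        · simp only [if_pos hxn]
          have e1 : ext (h' j) (row M.E x) = ext (fun _ => 0) (row M.E x) := by
            refine E9_ext_congr fun y hy => ?_
            have hdz := M.resP.E_deg _ _ (E9_row_ne hy)
            refine (hh' j y (by omega)).2.2.2 fun z hz => hf z ?_
            have h2 := hρE _ _ hy
            have h3 : x.1⁻¹ * z = (x.1⁻¹ * y.1) * (y.1⁻¹ * z) := by group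
            rw [h3]
            have h4 := L.mul (x.1⁻¹ * y.1) (y.1⁻¹ * z)
            omega
          rw [e1, E9_ext_apply]
          exact Finset.sum_eq_zero fun x _ => smul_zero _
        · simp only [if_neg hxn]
          exact P5 j x fun y hy => hf y (by omega)
  obtain ⟨c', hh, P1, P2, P3, P4, P5⟩ := key 4
  exact ⟨c', hh, fun j x => P1 j x (by have := M.deg_le x.2; omega), P2, P3, P4, P5⟩

end Pool.Agent.CPD
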