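import Pool.Agent.CPD.StE

/-!
# CPD, EGeo: the integral package exists
-/

set_option autoImplicit false

namespace Pool.Agent.CPD

open Matrix

private lemma EGeo_bound {G I : Type} [Group G] [Fintype I] (L : Len G) (A : Matrix I I (ZG G)) :
    ∃ ρ : ℕ, ∀ i j g, (A i j).coeff g ≠ 0 → L.l g ≤ ρ := by
  refine ⟨∑ i, ∑ j, ∑ g ∈ (A i j).coeff.support, L.l g, fun i j g h => ?_⟩
  calc L.l g ≤ ∑ g ∈ (A i j).coeff.support, L.l g :=
        Finset.single_le_sum (f := fun g => L.l g) (fun _ _ => Nat.zero_le _)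
          (Finsupp.mem_support_iff.2 h)
    _ ≤ ∑ j, ∑ g ∈ (A i j).coeff.support, L.l g :=
        Finset.single_le_sum (f := fun j => ∑ g ∈ (A i j).coeff.support, L.l g)
          (fun _ _ => Nat.zero_le _) (Finset.mem_univ _)
    _ ≤ _ := Finset.single_le_sum (f := fun i => ∑ j, ∑ g ∈ (A i j).coeff.support, L.l g)
          (fun _ _ => Nat.zero_le _) (Finset.mem_univ _)

theorem EGeo (h0 : St_E0) (h4 : St_E4) (h7 : St_E7) (h8 : St_E8) (h9 : St_E9) : St_EGeo := by
  intro G _ hPD hCo
  obtain ⟨M⟩ := h4 G hPD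
  obtain ⟨n, f, σ, τ, hf, hC⟩ := hCo
  obtain ⟨L, hL⟩ := h0 G n f hf
  obtain ⟨k, hk⟩ := (h7 G).1 n f σ τ L hL hC
  obtain ⟨c1, rr, r1, r2, r3, r4, r5, r6⟩ := h8 G L M σ τ k hk
  obtain ⟨c2, hh, s1, s2, s3, s4, s5⟩ := h9 G L M σ τ k c1 rr hk r1 r2 r3 r4 r5 r6
  obtain ⟨b1, hb1⟩ := EGeo_bound L M.D
  obtain ⟨b2, hb2⟩ := EGeo_bound L M.E
  obtain ⟨b3, hb3⟩ := EGeo_bound L M.Ps
  obtain ⟨b4, hb4⟩ := EGeo_bound L M.Ph
  obtain ⟨b5, hb5⟩ := EGeo_bound L M.h
  set c := k + c1 + c2 + b1 + b2 + b3 + b4 + b5 with hc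
  obtain ⟨t0, ht0⟩ := hk.departure (10 * (c + 1))
  refine ⟨{ toPDM := M, L := L, c := c, t0 := t0,
            prop_D := fun i j g h => (hb1 i j g h).trans (by omega),
            prop_E := fun i j g h => (hb2 i j g h).trans (by omega),
            prop_Ps := fun i j g h => (hb3 i j g h).trans (by omega),
            prop_Ph := fun i j g h => (hb4 i j g h).trans (by omega),
            prop_h := fun i j g h => (hb5 i j g h).trans (by omega),
            σ := σ, τ := τ, start := hk.start, stop := hk.stop, step := hk.step,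
            fellow := fun x y j h => (hk.fellow x y j h).trans (by omega),
            esc := ?_, dep := ?_, rr := rr, hh := hh, f_id := s1, f_Er := r1, f_rE := r2,
            f_Eh := s2, f_hE := s3,
            f_rsup := fun j x y h => (r5 j x y h).1.trans (by omega),
            f_hsup := fun j x y h => (s4 j x y h).1.trans (by omega),
            f_rdeg := fun j x y h => (r5 j x y h).2,
            f_hdeg := fun j x y h => (s4 j x y h).2,
            f_rfin := fun j x h => r6 j x fun y hy => h y (hy.trans (by omega)),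
            f_hfin := fun j x h => s5 j x fun y hy => h y (hy.trans (by omega)) }⟩
  · intro R
    obtain ⟨t, ht⟩ := hk.departure R
    refine ⟨t + 1, fun x j hj hjt => ?_⟩
    by_contra hcon
    push Not at hcon
    have h2 := ht x 0 j (Nat.zero_le _) hjt.le
    rw [hk.start, inv_one, one_mul] at h2
    have := h2 hcon
    omega
  · intro x j hj hl
    refine ht0 x j (τ x) hj le_rfl ?_
    rw [hk.stop x (τ x) le_rfl]
    exact hl

end Pool.Agent.CPD
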