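import Pool.Agent.CPD.AlgDefs

/-!
# Statements, part A : trace of idempotents of integral group rings; Lemma K; Lemma EU

Pure algebra of finite matrices over a noncommutative ring. Row convention (see `AlgDefs`).
-/

set_option autoImplicit false

namespace Pool.Agent.CPD

open Matrix

/-- [KA1] Orthogonal projection onto an invariant closed subspace. Let `J` be a set (here
`π × n`) on which the group `π` acts by `g • (h, i) = (g h, i)`; let `S` be a set of finitely
supported real functions on `π × n`, closed under the translations. There is a function `p`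
(`p (h,i) (k,j)` is the matrix of the orthogonal projection of `ℓ²` onto the closed span of `S`)
such that (1) it is symmetric and invariant, (2) it fixes the elements of `S`,
(3) `∑_j p a (j) ^ 2 = p a a` (`P e_a` has norm `p a a`), (4) `P e_a` is a limit in `ℓ²` of
elements of the span of `S`.

Proof. Take the real Hilbert space `H = lp (fun _ : π × n => ℝ) 2`, `V` the closure of the span
of the images of the elements of `S`, `P` the orthogonal projection on `V`
(`Submodule.starProjection` or `orthogonalProjection`), `p a b = ⟪P e_a, e_b⟫`, `e_a =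
lp.single 2 a 1`. Symmetric: `P` is self-adjoint. `p a a = ⟪P e_a, e_a⟫ = ‖P e_a‖² = ∑_b (P e_a)(b)^2`
and `(P e_a)(b) = ⟪P e_a, e_b⟫`. Invariance: for `g ∈ π` the permutation of `π × n` induces a
linear isometric equivalence of `H` which maps `V` onto `V` (it permutes the generating set), so it
commutes with `P`. (If no reindexing of `lp` is in Mathlib: avoid the operator by using that
`P e_a` is the unique element `v ∈ V` with `e_a - v ⟂ V`, and that `x ↦ x ∘ g` preserves `ℓ²`,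
inner products and `V`.) (2): for `s ∈ S`, `P s = s`, read coordinate `b`:
`s b = ⟪P s, e_b⟫ = ⟪s, P e_b⟫ = ∑_a s a * p b a`. (4) is the membership of `P e_a` in the closure
of the span: for `ε > 0` there is a finitely supported `u` in the span with
`|∑_b (p a b - u b) y b| ≤ ε ‖y‖` for all finitely supported `y`; it is enough to state it for one
finitely supported `y` at a time. -/
def St_KA1 : Prop := ∀ (π n : Type) [Group π] [Fintype n] [DecidableEq n]
  (S : Set ((π × n) →₀ ℝ)),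
  (∀ s ∈ S, ∀ g : π, s.mapDomain (fun x => (g * x.1, x.2)) ∈ S) →
  ∃ p : π × n → π × n → ℝ,
    (∀ a b, p a b = p b a) ∧
    (∀ (g : π) a b, p (g * a.1, a.2) (g * b.1, b.2) = p a b) ∧
    (∀ s ∈ S, ∀ b, s.sum (fun a r => r * p b a) = s b) ∧
    (∀ a, p a a = 0 → ∀ b, p a b = 0) ∧
    (∀ a, 0 ≤ p a a) ∧
    (∀ (a : π × n) (y : (π × n) →₀ ℝ) (ε : ℝ), 0 < ε → ∃ u ∈ Submodule.span ℝ S,
      |y.sum (fun b r => r * p a b) - y.sum (fun b r => r * u b)| ≤ ε)

/-- [KAP] (uses KA1) Kaplansky: an idempotent matrix over `ℤ[π]` whose diagonal entries have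
coefficients at `1` with sum `0` is zero.

Proof. For a row vector `x : n → ℤ[π]` and its real version as a finitely supported function on
`π × n`: `x ↔ ∑ x_i(h) δ_(h,i)`. Right multiplication by `q` is the linear map `x ↦ x ᵥ* q`; it
commutes with left translations. Let `S` be the set of the real versions of the vectors
`g • (e_i ᵥ* q)` (`g ∈ π`, `i ∈ n`), i.e. of all rows of `q` translated: `S` is translation
invariant. Apply KA1, get `p`. Let `Q : (π × n →₀ ℝ) → (π × n →₀ ℝ)` be the real linear extension,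
`Q δ_(g,i) = ∑_{j,h} q_ij(h) δ_(g h, j)`, and `Q* δ_(k,j) = ∑_{i,h} q_ij(h) δ_(k h⁻¹, i)` its
transpose: `⟪Q x, y⟫ = ⟪x, Q* y⟫` for finitely supported `x, y`. `Q Q = Q` as `q q = q`, so `Q u = u`
for every `u ∈ span S` (`S` consists of `Q δ_a`). Write `a_i = (1, i)` and `⟪p_a, y⟫ = ∑_b y b p a b`.
Claim `p a_i a_i = ⟪p_{a_i}, Q* δ_{a_i}⟫`: for `ε > 0` choose by (6) `u ∈ span S` which is `ε`-close
when paired with the finitely supported function `δ_{a_i} - Q* δ_{a_i}`; and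
`⟪u, δ_{a_i} - Q* δ_{a_i}⟫ = ⟪u, δ_{a_i}⟫ - ⟪Q u, δ_{a_i}⟫ = 0`. So
`∑_i p a_i a_i = ∑_i ∑_{k,h} q_ki(h) p (1,i) (h⁻¹, k) = ∑_i ∑_{k,h} q_ki(h) p (h, i) (1, k)` (invariance)
`= ∑_k [∑_{i,h} q_ki(h) p (1,k) (h,i)] = ∑_k (Q δ_{a_k})(a_k)` (by (3) with `s = Q δ_{a_k} ∈ S`, `b = a_k`)
`= ∑_k q_kk(1) = 0`. All `p a_i a_i ≥ 0`, so they are `0`, so `p a_i b = 0` for all `b`, and by
invariance `p a b = 0` for all `a, b`. By (3) every element of `S` is `0`, so `q = 0`. -/
def St_KAP : Prop := ∀ (π n : Type) [Group π] [Fintype n] [DecidableEq n]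
  (q : Matrix n n (MonoidAlgebra ℤ π)), q * q = q → ∑ i, (q i i).coeff 1 = 0 → q = 0

/-- [TR1] The coefficient at `1` is a trace on `ℤ[π]`.
Proof. Bilinear; on single elements `g h = 1 ↔ h g = 1`. -/
def St_TR1 : Prop := ∀ (π : Type) [Group π] (a b : MonoidAlgebra ℤ π),
  (a * b).coeff 1 = (b * a).coeff 1

/-- [A1] The alternating trace of a null-homotopic matrix is `0`.
Proof. `M = e d + d e`. `∑_x (-1)^deg x ∑_y (tr (e x y * d y x) + tr (d x y * e y x))`; in the
second sum use `tr (d x y * e y x) = tr (e y x * d x y)` and exchange the names: the total is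
`∑_{x,y} ((-1)^deg x + (-1)^deg y) tr (e x y * d y x)` and `e x y ≠ 0` only if
`deg y = deg x + 1`. -/
def St_A1 : Prop := ∀ (Λ A W : Type) [Ring Λ] [AddCommGroup A] [Fintype W] [DecidableEq W]
  (t : Λ →+ A) (deg : W → ℕ) (d M : Matrix W W Λ),
  (∀ a b, t (a * b) = t (b * a)) → Dn deg d → NullH deg d M → str t deg M = 0

/-- [A2] Null-homotopic matrices form an additive group, stable under multiplication by chain
maps of degree zero.
Proof. `(e d + d e) B = (e B) d + d (e B)` as `d B = B d`; `e B` raises the degree by one. The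
zero matrix: `e = 0`; sums and negatives: add and negate `e`. -/
def St_A2 : Prop := ∀ (Λ W : Type) [Ring Λ] [Fintype W] [DecidableEq W]
  (deg : W → ℕ) (d : Matrix W W Λ),
  NullH deg d 0 ∧
  (∀ M N, NullH deg d M → NullH deg d N → NullH deg d (M + N)) ∧
  (∀ M, NullH deg d M → NullH deg d (-M)) ∧
  (∀ M B, Zr deg B → d * B = B * d → NullH deg d M → NullH deg d (M * B) ∧ NullH deg d (B * M))

/-- [A3] (uses A2) Normal form. A chain map `k`, homotopic to its square, with `k` trivial on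
`H₀`, cyclic on `H₁`, and dually cyclic on `H³`, is homotopic to a chain map which is zero in
degree `0`, of the form `x ↦ α(x) z` in degree `1` and `x ↦ yv(x) β` in degree `3`.

Proof. (Rows.) Step 0. For every `x` of degree `0` the unit row vector `e_x` has
`e_x k = y_x d`; choose `y_x` homogeneous of degree `1` (keep the part of degree `1`; `d` lowers the
degree by one). Let `e0` be the matrix with rows `y_x` (`deg x = 0`), other rows `0`: `Up deg e0`.
`k1 := k - (e0 d + d e0)`: rows of degree `0`: `k - y_x d - (x d) e0 = 0` (`x d = 0` in degree `0`,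
as `d x y ≠ 0` needs `deg x = deg y + 1`). `d k1 = k1 d`, `Zr k1`. For `x` of degree `1`,
`(x k1) d = (x d) k1 = 0` (rows of degree `0` of `k1` vanish), so `x k1` is a cycle `c` of degree
`1`, and `c k1 = c k - (c e0 d + c d e0) = c k - 0` (`e0` is supported on rows of degree `0`,
`c d = 0`) `= a z + y d` by (b). So `x k1 k1 = α(x) z + γ_x d` with `γ_x` homogeneous of degree `2`.
`k2 := k1 k1 - (γ d + d γ)`, `γ` = rows `γ_x` for `deg x = 1`, else `0`: in degree `0`: `0`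
(`d γ` in row degree `0` is `0`), in degree `1`: `α(x) z` (`x d` has degree `0`, so `(x d) γ = 0`).
Top degree: `k1` and `k` have the same rows of degree `3` (`e0 d` and `d e0` have rows of
degree `0, 1` only), `k2` has rows of degree `3`: `k k` (`(x d) γ`: `x d` has degree `2`, `γ = 0`
there; rows of `γ` of degree `3` are `0`). By (c) for the coordinate column vectors `u = e_w`,
`deg w = 3`: `k x w = yv(x) b_w + (d v_w)(x)`, so with `β0 = (b_w)_w`, `v0(x', w) = v_w(x')`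
(restricted to `deg x' = 2`, `deg w = 3`): `x k = yv(x) β0 + (x d) v0` for `deg x = 3` (rows and
columns of degree `3`). Then `x k k = yv(x) (β0 k) + (x d) (v0 k)`. `k' := k2 - ((v0 k) d + d (v0 k))`:
rows of degree `3`: `yv(x) β`, `β := β0 k`; rows of degree `0`, `1` unchanged (`v0 k` has rows of degree
`2` only). `k'` is a chain map of degree `0`, homotopic to `k2`, `k1 k1`, `k k` and `k`.
`k' k' - k' ~ k k - k ~ 0`. Put `α = 0` off degree `1`, `β = 0` off degree `3`.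
`a := z ⬝ α`: `z k' = (z ⬝ α) z` and `z k' - z k k` is a boundary (homotopic maps on a cycle), `z k - z`
is a boundary, so `z k k - z` is, so `a z - z = w' d`, `w'` homogeneous of degree `2`.
`b := β ⬝ yv`: `k' yv = yv b` (column vectors; rows of degree `3`), `k' yv - k k yv ∈ d (column
vectors)` and `k yv - yv` too; so `yv b - yv = d v`, `v` of degree `2`. -/
def St_A3 : Prop := ∀ (Λ W : Type) [Ring Λ] [Fintype W] [DecidableEq W]
  (deg : W → ℕ) (d k : Matrix W W Λ) (z yv : W → Λ),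
  (∀ x, deg x ≤ 3) → Dn deg d → d * d = 0 → Zr deg k → d * k = k * d →
  NullH deg d (k * k - k) →
  (∀ x : W → Λ, Hg deg 0 x → ∃ y : W → Λ, x ᵥ* k = y ᵥ* d) →
  Hg deg 1 z → z ᵥ* d = 0 → (∃ y : W → Λ, z ᵥ* k = z + y ᵥ* d) →
  (∀ x : W → Λ, Hg deg 1 x → x ᵥ* d = 0 → ∃ (a : Λ) (y : W → Λ), x ᵥ* k = a • z + y ᵥ* d) →
  Hg deg 3 yv → (∃ v : W → Λ, k *ᵥ yv = yv + d *ᵥ v) →
  (∀ u : W → Λ, Hg deg 3 u → ∃ (b : Λ) (v : W → Λ), k *ᵥ u = (fun x => yv x * b) + d *ᵥ v) →
  ∃ (k' : Matrix W W Λ) (α β v w' : W → Λ), NF deg d k' z α yv β v w' ∧ NullH deg d (k' - k)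

/-- [A4a] The enlarged complex: `dN dN = 0`, `kN` is a chain map of degree `0`, `eN` raises the
degree.
Proof. Rows. `x dN dN = (x d + yv(x) t) dN = x d d + yv(x') ...`: the `t`-component of `x dN dN` is
`(x d) ⬝ yv`, which vanishes: `(d *ᵥ yv)(x) ≠ 0` needs a `y` with `deg x = deg y + 1 = 4`.
`s dN dN = z d = 0` and `z ⬝ yv = 0` (degrees `1` and `3`). `t dN = 0`.
Chain map, row `x`: `x dN kN = (x d) k + [(x d) ⬝ v + yv(x)] t`,
`x kN dN = (x k) d + [(x k) ⬝ yv] t + v(x) (t dN)`; and `(x k) ⬝ yv = (k *ᵥ yv)(x)`, which is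
`yv(x) (β ⬝ yv)` for `deg x = 3` by `k3`, and `0` for `deg x ≠ 3` (`Zr k`, `Hg 3 yv`); by `yb` it is
`yv(x) + (d *ᵥ v)(x)`. The other components: `(s-component)` both `0`. Row `s`:
`s dN kN = z k + (z ⬝ v) t`, `z ⬝ v = 0` by degrees, `z k = (z ⬝ α) z` by `k1`;
`s kN dN = (s + w') dN = z + w' d + (w' ⬝ yv) t`, `w' ⬝ yv = 0` by degrees; equal by `az`.
Row `t`: `0` and `t dN = 0`. -/
def St_A4a : Prop := ∀ (Λ W : Type) [Ring Λ] [Fintype W] [DecidableEq W]
  (deg : W → ℕ) (d k : Matrix W W Λ) (z α yv β v w' : W → Λ), NF deg d k z α yv β v w' →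
  Dn (degN deg) (dN d z yv) ∧ dN d z yv * dN d z yv = 0 ∧ Zr (degN deg) (kN k v w') ∧
    dN d z yv * kN k v w' = kN k v w' * dN d z yv ∧ Up (degN deg) (eN α β)

/-- [A4b] (uses A4a) `PN` is concentrated in degree two and annihilates and is annihilated by
`dN`.
Proof. `PN = kN - (eN dN + dN eN)` is a chain map of degree `0`. Rows: degree `0`: `x kN = 0`
(`k0`; `v x = 0`), `x eN = 0` (`α x = 0`), `x dN = 0` by degrees. Degree `1`: `x kN = α(x) z`,
`x eN dN = α(x) (s dN) = α(x) z`, `x dN eN = (x d) eN = 0` (degree `0` rows of `eN` vanish). Degree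
`3`: `x kN = yv(x) β` (`k3`, `v x = 0`), `x eN = 0`, `x dN eN = (x d) eN + yv(x) (t eN) = 0 + yv(x) β`
(`(x d)` has degree `2`, where `α = 0`). So rows of degree `≠ 2` vanish, and so do the columns
(`Zr`). `dN PN = PN dN` has rows of degree `3` for `dN PN` (column index of degree `2`, so the row
index of `dN` has degree `3`), while `PN dN` has rows of degree `2`: both are zero. -/
def St_A4b : Prop := ∀ (Λ W : Type) [Ring Λ] [Fintype W] [DecidableEq W]
  (deg : W → ℕ) (d k : Matrix W W Λ) (z α yv β v w' : W → Λ), NF deg d k z α yv β v w' →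
  (∀ a b, PN d k z α yv β v w' a b ≠ 0 → degN deg a = 2 ∧ degN deg b = 2) ∧
    dN d z yv * PN d k z α yv β v w' = 0 ∧ PN d k z α yv β v w' * dN d z yv = 0

/-- [A4c] (uses A2, A4a) The cube of `χ = kN kN - kN` is null-homotopic.
Proof. Let `k k - k = η d + d η`, `Up deg η`, and `ηN = fromBlocks η 0 0 0`. Put
`φ := χ - (ηN dN + dN ηN)`. Then `NullH (χ - φ)`, `φ` is a chain map of degree `0` and `φ³ = 0`:
`φ x s = 0` for all `x` (`χ x s`: the column `s` of `kN` is `e_s`, so `(kN kN - kN) x s = 0`; columns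
`s` of `ηN dN` and `dN ηN` are `0`); row `t` of `φ` is `0` (`t kN = t`, `t ηN = 0`, `t dN = 0`); for
`x, y ∈ W`: `φ x y = (k k - k) x y + v-part * (t kN)_y - (η d + d η) x y = 0` (the component `t` is
mapped by `kN` to `t`, no `W`-component; `(x ηN) dN` has `W`-components `(x η) d`; `(x dN) ηN =
(x d) η + yv(x) (t ηN)`). So `φ` maps `W`-vectors to multiples of `t`, `t` to `0`, `s` to a
combination of `W` and `t`: `φ³ = 0`. `χ³ - φ³ = χ²(χ-φ) + χ(χ-φ)φ + (χ-φ)φ²` is null-homotopic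
by A2. -/
def St_A4c : Prop := ∀ (Λ W : Type) [Ring Λ] [Fintype W] [DecidableEq W]
  (deg : W → ℕ) (d k : Matrix W W Λ) (z α yv β v w' : W → Λ), NF deg d k z α yv β v w' →
  NullH (degN deg) (dN d z yv) ((kN k v w' * kN k v w' - kN k v w') ^ 3)

/-- [A4d] (block triangular) The alternating trace of `FF kN` is that of `FF k` plus `2 t(1)`.
Proof. Call a matrix `A` on `W ⊕ Bool` triangular if `A (inl x) (inr false) = 0`,
`A (inr true) (inl y) = 0`, `A (inr true) (inr false) = 0`. Triangular matrices form a subring and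
`A ↦ (A_WW, A_ss, A_tt)` is a ring homomorphism on it (in a product the sums over the intermediate
index reduce to one block). `kN` is triangular with image `(k, 1, 1)`, so `FF kN` has image
`(FF k, FF 1, FF 1) = (FF k, 1, 1)`. `str` is the sum over `W` plus the two entries at `s`, `t` with
sign `(-1)^2`. -/
def St_A4d : Prop := ∀ (Λ A W : Type) [Ring Λ] [AddCommGroup A] [Fintype W] [DecidableEq W]
  (t : Λ →+ A) (deg : W → ℕ) (k : Matrix W W Λ) (v w' : W → Λ),
  str t (degN deg) (FF (kN k v w')) = str t deg (FF k) + (2 : ℕ) • t 1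

/-- [A5] (uses A1, A2, A4a, A4b, A4c, A4d) From the normal form to an explicit cycle.
Proof. `P = PN`. `P - kN` is null-homotopic, so `Q := P P - P` and `χ = kN kN - kN` differ by a
null-homotopic matrix (A2), and so do `Q³` and `χ³`; so `Q³ = ξ dN + dN ξ`. `Q dN = dN Q = 0`
(A4b). `Q⁵ = Q Q³ Q = (Q ξ)(dN Q) + (Q dN)(ξ Q) = 0`. `q := FF P = 1 - (1 - P⁵)⁵`. `q q - q` is
`-(1 - P⁵)⁵ (1 - (1 - P⁵)⁵)`, a multiple (commutative polynomial identity in `P`) of
`(1 - P)⁵ P⁵ = ± Q⁵`, so `q q = q`. `str q = str (FF kN)` (`FF P - FF kN` is null-homotopic: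
difference of powers, A2) `= str (FF k) + 2 = str k + 2` (`FF X - X` is a multiple of `X² - X` by an
integral polynomial, so `FF k - k` is null-homotopic) `= 0` by the hypothesis `str k = -2`. `q` is
concentrated in degree `2` (it is a polynomial in `P` without constant term), so
`∑ tr (q x x) = str q = 0` and `q = 0` by the hypothesis on idempotents. So `(1 - P⁵)⁵ = 1`;
`(1 - P)` is then a unit (`(1-P⁵)⁵ = (1-P)(...)`, polynomials in `P` commute), and
`P⁵ (1 - P)⁵ = ± Q⁵ = 0` gives `P⁵ = 0`. `kN⁵ ~ P⁵ = 0`: `kN⁵ = ξ' dN + dN ξ'`. Row `t`: `t kN⁵ = t`,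
`t dN = 0`, so `t = (t ξ') dN`. Let `o` be the part of degree `3` of `t ξ'` (`Up`: it is homogeneous
of degree `3`, so supported in `W`): `o dN = t`, i.e. `o d = 0` and `o ⬝ yv = 1`. -/
def St_A5 : Prop := ∀ (Λ W : Type) [Ring Λ] [Fintype W] [DecidableEq W] (t : Λ →+ ℤ)
  (deg : W → ℕ) (d k : Matrix W W Λ) (z α yv β v w' : W → Λ),
  (∀ a b, t (a * b) = t (b * a)) → t 1 = 1 →
  (∀ (n : Type) [Fintype n] [DecidableEq n] (q : Matrix n n Λ), q * q = q →
    ∑ i, t (q i i) = 0 → q = 0) →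
  NF deg d k z α yv β v w' → str t deg k = -2 →
  ∃ o : W → Λ, Hg deg 3 o ∧ o ᵥ* d = 0 ∧ o ⬝ᵥ yv = 1

/-- [LK] (uses A1, A2, A3, A5) Lemma K.
Proof. A3, `str k' = str k` by A1, then A5. -/
def St_LK : Prop := ∀ (Λ W : Type) [Ring Λ] [Fintype W] [DecidableEq W] (t : Λ →+ ℤ)
  (deg : W → ℕ) (d k : Matrix W W Λ) (z yv : W → Λ),
  (∀ a b, t (a * b) = t (b * a)) → t 1 = 1 →
  (∀ (n : Type) [Fintype n] [DecidableEq n] (q : Matrix n n Λ), q * q = q →
    ∑ i, t (q i i) = 0 → q = 0) →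
  (∀ x, deg x ≤ 3) → Dn deg d → d * d = 0 → Zr deg k → d * k = k * d →
  NullH deg d (k * k - k) →
  (∀ x : W → Λ, Hg deg 0 x → ∃ y : W → Λ, x ᵥ* k = y ᵥ* d) →
  Hg deg 1 z → z ᵥ* d = 0 → (∃ y : W → Λ, z ᵥ* k = z + y ᵥ* d) →
  (∀ x : W → Λ, Hg deg 1 x → x ᵥ* d = 0 → ∃ (a : Λ) (y : W → Λ), x ᵥ* k = a • z + y ᵥ* d) →
  Hg deg 3 yv → (∃ v : W → Λ, k *ᵥ yv = yv + d *ᵥ v) →
  (∀ u : W → Λ, Hg deg 3 u → ∃ (b : Λ) (v : W → Λ), k *ᵥ u = (fun x => yv x * b) + d *ᵥ v) →
  str t deg k = -2 →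
  ∃ o : W → Λ, Hg deg 3 o ∧ o ᵥ* d = 0 ∧ o ⬝ᵥ yv = 1

/-- [EU] (uses A1, A2, A3) Lemma EU: the Euler number over `ℚ`.
Proof. A3 gives `k' ~ k` in normal form; `str k = str k'` (A1 with `t = id`). In degree `2`: for
`x` of degree `2`, `(x d) k' = x k' d`; the left side is `((x d) ⬝ α) z`; pairing with `φ`
(`d *ᵥ φ = 0`, so `(x k' d) ⬝ φ = 0`) and `z ⬝ φ = 1` give `(x d) ⬝ α = 0`, so `x k' d = 0`. So `x k'` is
a cycle of degree `2`, `x k' k' = (x k') k + boundary` (homotopic maps on a cycle) is a boundary: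
`x k' k' = ζ_x d`, `ζ_x` of degree `3`. Let `ζ` be the matrix with these rows for `deg x = 2`,
`k3 := k' k' - (ζ d + d ζ)`: rows of degree `0`: `0`; of degree `1`: `x k' k' = α(x) (z ⬝ α) z`;
of degree `2`: `0` (`(x d) ζ = 0` as `x d` has degree `1`); of degree `3`: `χ(x) = x k' k' - (x d) ζ`.
`a := z ⬝ α = 1`: by `az` in `NF`, `a z - z = w' d`; pair with `φ`: `a - 1 = 0`. `Om` is a cycle of
degree `3`, where homotopic maps agree on cycles exactly (there is no degree `4`): `Om k' = Om k =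
Om`, and `Om k' = (Om ⬝ yv) β`, so `λ := Om ⬝ yv ≠ 0` and `β = λ⁻¹ Om`, so `β d = 0` and
`b := β ⬝ yv = 1`. So `x k' k' = yv(x) β` (degree `3`) and `χ(x) = yv(x) β - (x d) ζ`, `χ(x) d = 0`
(chain map `k3`, rows of degree `2` are `0`). For a cycle `c` of degree `3`: `c χ = (c ⬝ yv) β`. So
`x χ χ = (χ(x) ⬝ yv) β` and the trace of `χ χ` is `∑_x (χ(x) ⬝ yv) β_x = (β χ) ⬝ yv = ((β ⬝ yv) β) ⬝ yv
= 1`. `k3 ~ k' k' ~ k'`, `k3 k3 ~ k3`, so `str (k3 k3) = str k3`; in degree `1` both are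
`x ↦ α(x) z` with trace `z ⬝ α = 1`, degrees `0, 2` are zero, so the traces of `χ χ` and `χ` agree:
`tr χ = 1`. `str k = str k3 = - 1 - 1 = -2`. -/
def St_EU : Prop := ∀ (W : Type) [Fintype W] [DecidableEq W]
  (deg : W → ℕ) (d k : Matrix W W ℚ) (z yv φ Om : W → ℚ),
  (∀ x, deg x ≤ 3) → Dn deg d → d * d = 0 → Zr deg k → d * k = k * d →
  NullH deg d (k * k - k) →
  (∀ x : W → ℚ, Hg deg 0 x → ∃ y : W → ℚ, x ᵥ* k = y ᵥ* d) →
  Hg deg 1 z → z ᵥ* d = 0 → (∃ y : W → ℚ, z ᵥ* k = z + y ᵥ* d) →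
  (∀ x : W → ℚ, Hg deg 1 x → x ᵥ* d = 0 → ∃ (a : ℚ) (y : W → ℚ), x ᵥ* k = a • z + y ᵥ* d) →
  Hg deg 3 yv → (∃ v : W → ℚ, k *ᵥ yv = yv + d *ᵥ v) →
  (∀ u : W → ℚ, Hg deg 3 u → ∃ (b : ℚ) (v : W → ℚ), k *ᵥ u = (fun x => yv x * b) + d *ᵥ v) →
  d *ᵥ φ = 0 → z ⬝ᵥ φ = 1 →
  (∀ x : W → ℚ, Hg deg 2 x → x ᵥ* d = 0 → ∃ y : W → ℚ, x ᵥ* k = y ᵥ* d) →
  Hg deg 3 Om → Om ᵥ* d = 0 → Om ᵥ* k = Om → Om ≠ 0 →
  str (AddMonoidHom.id ℚ) deg k = -2

end Pool.Agent.CPD
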