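import Mathlib
import Pool.Agent.CPD.StA

/-!
# CPD, EU: the Euler number over the rational numbers
-/

set_option autoImplicit false
set_option linter.unusedSectionVars false

namespace Pool.Agent.CPD

open Matrix

section

variable {W : Type} [Fintype W] [DecidableEq W]

private theorem eu_zr_mul {deg : W → ℕ} {A B : Matrix W W ℚ} (hA : Zr deg A) (hB : Zr deg B) :
    Zr deg (A * B) := by
  intro x y h
  rw [mul_apply] at h
  obtain ⟨u, -, hu⟩ := Finset.exists_ne_zero_of_sum_ne_zero h
  exact (hA x u (left_ne_zero_of_mul hu)).trans (hB u y (right_ne_zero_of_mul hu))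

private theorem eu_zr_ud {deg : W → ℕ} {A B : Matrix W W ℚ} (hA : Up deg A) (hB : Dn deg B) :
    Zr deg (A * B) := by
  intro x y h
  rw [mul_apply] at h
  obtain ⟨u, -, hu⟩ := Finset.exists_ne_zero_of_sum_ne_zero h
  have h1 := hA x u (left_ne_zero_of_mul hu)
  have h2 := hB u y (right_ne_zero_of_mul hu)
  omega

private theorem eu_zr_du {deg : W → ℕ} {A B : Matrix W W ℚ} (hA : Dn deg A) (hB : Up deg B) :
    Zr deg (A * B) := by
  intro x y h
  rw [mul_apply] at h
  obtain ⟨u, -, hu⟩ := Finset.exists_ne_zero_of_sum_ne_zero h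
  have h1 := hA x u (left_ne_zero_of_mul hu)
  have h2 := hB u y (right_ne_zero_of_mul hu)
  omega

private theorem eu_zr_add {deg : W → ℕ} {A B : Matrix W W ℚ} (hA : Zr deg A) (hB : Zr deg B) :
    Zr deg (A + B) := by
  intro x y h
  by_cases h1 : A x y = 0
  · refine hB x y ?_
    intro h2
    apply h
    rw [Matrix.add_apply, h1, h2, add_zero]
  · exact hA x y h1

private theorem eu_zr_sub {deg : W → ℕ} {A B : Matrix W W ℚ} (hA : Zr deg A) (hB : Zr deg B) :
    Zr deg (A - B) := by
  intro x y h
  by_cases h1 : A x y = 0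
  · refine hB x y ?_
    intro h2
    apply h
    rw [Matrix.sub_apply, h1, h2, sub_zero]
  · exact hA x y h1

private theorem eu_str_sub (deg : W → ℕ) (M N : Matrix W W ℚ) :
    str (AddMonoidHom.id ℚ) deg (M - N) =
      str (AddMonoidHom.id ℚ) deg M - str (AddMonoidHom.id ℚ) deg N := by
  unfold str
  rw [← Finset.sum_sub_distrib]
  refine Finset.sum_congr rfl fun x _ => ?_
  rw [Matrix.sub_apply, map_sub, smul_sub]

end

theorem EU (h1 : St_A1) (h2 : St_A2) (h3 : St_A3) : St_EU := by
  intro W _ _ deg d k z yv φ Om hdeg hdn hdd hkz hkd hkk hH0 hz hzd hzk hH1 hyv hyvk hH3 hdφ hzφ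
    hH2 hOm hOmd hOmk hOm0
  obtain ⟨k', α, β, v, w', nf, hk'⟩ := h3 ℚ W deg d k z yv hdeg hdn hdd hkz hkd hkk hH0 hz hzd
    hzk hH1 hyv hyvk hH3
  -- `z ⬝ α = 1`
  have ha : z ⬝ᵥ α = 1 := by
    have e1 : (fun y => (z ⬝ᵥ α) * z y - z y) ⬝ᵥ φ = 0 := by
      have e0 : (fun y => (z ⬝ᵥ α) * z y - z y) = w' ᵥ* d := funext nf.az
      rw [e0, ← dotProduct_mulVec, hdφ, dotProduct_zero]
    have e2 : (fun y => (z ⬝ᵥ α) * z y - z y) = ((z ⬝ᵥ α) - 1) • z := by
      ext y
      rw [Pi.smul_apply, smul_eq_mul]
      ring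
    rw [e2, smul_dotProduct, hzφ, smul_eq_mul, mul_one] at e1
    linarith
  -- `d α = 0`
  have hdα : ∀ x, ∑ u, d x u * α u = 0 := by
    intro x
    by_cases hx : deg x = 2
    · have e1 : ((d * k') *ᵥ φ) x = ∑ u, d x u * α u := by
        rw [← mulVec_mulVec]
        show ∑ u, d x u * (k' *ᵥ φ) u = _
        refine Finset.sum_congr rfl fun u _ => ?_
        by_cases hu : d x u = 0
        · rw [hu, zero_mul, zero_mul]
        · have hu1 : deg u = 1 := by
            have := hdn x u hu
            omega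
          have e3 : (k' *ᵥ φ) u = α u := by
            show ∑ y, k' u y * φ y = α u
            have e4 : ∀ y, k' u y * φ y = α u * (z y * φ y) := by
              intro y
              rw [nf.k1 u y hu1]
              ring
            rw [Finset.sum_congr rfl fun y _ => e4 y, ← Finset.mul_sum]
            have e5 : ∑ y, z y * φ y = 1 := hzφ
            rw [e5, mul_one]
          rw [e3]
      rw [← e1, nf.kd, ← mulVec_mulVec, hdφ, mulVec_zero]
      rfl
    · refine Finset.sum_eq_zero fun u _ => ?_
      by_contra h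
      have h4 := hdn x u (left_ne_zero_of_mul h)
      have h5 := nf.α_hg u (right_ne_zero_of_mul h)
      omega
  -- the rows of degree two of `k'` are cycles
  have hcyc : ∀ x, deg x = 2 → ∀ y, ∑ u, k' x u * d u y = 0 := by
    intro x hx y
    have e1 : (k' * d) x y = ∑ u, k' x u * d u y := mul_apply
    rw [← e1, ← nf.kd, mul_apply]
    have e2 : ∀ u, d x u * k' u y = d x u * α u * z y := by
      intro u
      by_cases hu : d x u = 0
      · rw [hu]; ring
      · have hu1 : deg u = 1 := by
          have := hdn x u hu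
          omega
        rw [nf.k1 u y hu1]
        ring
    rw [Finset.sum_congr rfl fun u _ => e2 u, ← Finset.sum_mul, hdα, zero_mul]
  obtain ⟨e, he, hke⟩ := hk'
  have hke' : k' = k + (e * d + d * e) := by rw [← hke]; abel
  have hkk' : Zr deg (k' * k') := eu_zr_mul nf.k_zr nf.k_zr
  -- the homotopy in degree two
  have hζ : ∀ x, ∃ ζx : W → ℚ, (∀ y, ζx y ≠ 0 → deg x = 2 ∧ deg y = 3) ∧
      (deg x = 2 → ∀ y, (k' * k') x y = ∑ u, ζx u * d u y) := by
    intro x
    by_cases hx : deg x = 2
    · obtain ⟨r, hrx⟩ : ∃ r : W → ℚ, ∀ y, r y = k' x y := ⟨fun y => k' x y, fun _ => rfl⟩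
      have hr : Hg deg 2 r := by
        intro y hy
        rw [hrx] at hy
        rw [← nf.k_zr x y hy, hx]
      have hrd : r ᵥ* d = 0 := by
        ext y
        show ∑ u, r u * d u y = 0
        rw [← hcyc x hx y]
        exact Finset.sum_congr rfl fun u _ => by rw [hrx]
      obtain ⟨y0, hy0⟩ := hH2 r hr hrd
      have e1 : r ᵥ* k' = (y0 + r ᵥ* e) ᵥ* d := by
        rw [hke', vecMul_add, vecMul_add, hy0, ← vecMul_vecMul, ← vecMul_vecMul, hrd,
          zero_vecMul, add_zero, add_vecMul]
      obtain ⟨f, hf⟩ : ∃ f : W → ℚ, f = y0 + r ᵥ* e := ⟨_, rfl⟩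
      rw [← hf] at e1
      refine ⟨fun u => if deg u = 3 then f u else 0, ?_, ?_⟩
      · intro y hy
        refine ⟨hx, ?_⟩
        by_contra h
        apply hy
        simp only [if_neg h]
      · intro _ y
        have e0 : (k' * k') x y = (r ᵥ* k') y := by
          rw [mul_apply]
          show _ = ∑ u, r u * k' u y
          exact Finset.sum_congr rfl fun u _ => by rw [hrx]
        by_cases hy : deg y = 2
        · rw [e0, e1]
          show ∑ u, f u * d u y = _
          refine Finset.sum_congr rfl fun u _ => ?_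
          by_cases hu : d u y = 0
          · rw [hu, mul_zero, mul_zero]
          · have hu3 : deg u = 3 := by
              have := hdn u y hu
              omega
            simp only [if_pos hu3]
        · have e2 : (k' * k') x y = 0 := by
            by_contra h
            have := hkk' x y h
            omega
          rw [e2]
          symm
          refine Finset.sum_eq_zero fun u _ => ?_
          by_cases hu : d u y = 0
          · rw [hu, mul_zero]
          · have hu3 : deg u ≠ 3 := by
              have := hdn u y hu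
              omega
            simp only [if_neg hu3, zero_mul]
    · exact ⟨fun _ => 0, fun y hy => absurd rfl hy, fun h => absurd h hx⟩
  choose ζ hζ1 hζ2 using hζ
  obtain ⟨Z, hZ⟩ : ∃ Z : Matrix W W ℚ, Z = Matrix.of ζ := ⟨_, rfl⟩
  have hZa : ∀ x y, Z x y = ζ x y := by intro x y; rw [hZ]; rfl
  have hZup : Up deg Z := by
    intro x y h
    rw [hZa] at h
    obtain ⟨h4, h5⟩ := hζ1 x y h
    omega
  obtain ⟨k3, hk3⟩ : ∃ k3, k3 = k' * k' - (Z * d + d * Z) := ⟨_, rfl⟩
  have hk3a : ∀ x y, k3 x y = (k' * k') x y - ((Z * d) x y + (d * Z) x y) := by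
    intro x y
    rw [hk3]
    rfl
  have hZd : ∀ x y, deg x ≠ 2 → (Z * d) x y = 0 := by
    intro x y hx
    rw [mul_apply]
    refine Finset.sum_eq_zero fun u _ => ?_
    have : Z x u = 0 := by
      rw [hZa]
      by_contra h
      exact hx (hζ1 x u h).1
    rw [this, zero_mul]
  have hdZ : ∀ x y, deg x ≠ 3 → (d * Z) x y = 0 := by
    intro x y hx
    rw [mul_apply]
    refine Finset.sum_eq_zero fun u _ => ?_
    by_contra h
    have h4 := hdn x u (left_ne_zero_of_mul h)
    have h5 := right_ne_zero_of_mul h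
    rw [hZa] at h5
    have h6 := (hζ1 u y h5).1
    omega
  have hzk' : ∀ y, ∑ u, z u * k' u y = z y := by
    intro y
    have e1 : ∀ u, z u * k' u y = z u * α u * z y := by
      intro u
      by_cases hu : z u = 0
      · rw [hu]; ring
      · rw [nf.k1 u y (nf.z_hg u hu)]
        ring
    rw [Finset.sum_congr rfl fun u _ => e1 u, ← Finset.sum_mul]
    have e2 : ∑ u, z u * α u = 1 := ha
    rw [e2, one_mul]
  -- the top degree
  have hOmk' : Om ᵥ* k' = Om := by
    have e1 : Om ᵥ* e = 0 := by
      ext y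
      show ∑ u, Om u * e u y = 0
      refine Finset.sum_eq_zero fun u _ => ?_
      by_contra h
      have h4 := hOm u (left_ne_zero_of_mul h)
      have h5 := he u y (right_ne_zero_of_mul h)
      have h6 := hdeg y
      omega
    rw [hke', vecMul_add, vecMul_add, ← vecMul_vecMul, ← vecMul_vecMul, e1, hOmd, zero_vecMul,
      zero_vecMul, add_zero, add_zero, hOmk]
  have hOmβ : Om = (Om ⬝ᵥ yv) • β := by
    ext y
    have e1 : Om y = ∑ u, Om u * k' u y := by
      conv_lhs => rw [← hOmk']
      rfl
    have e2 : ∀ u, Om u * k' u y = Om u * yv u * β y := by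
      intro u
      by_cases hu : Om u = 0
      · rw [hu]; ring
      · rw [nf.k3 u y (hOm u hu)]
        ring
    rw [e1, Finset.sum_congr rfl fun u _ => e2 u, ← Finset.sum_mul]
    rfl
  have hlam : Om ⬝ᵥ yv ≠ 0 := by
    intro h
    apply hOm0
    rw [hOmβ, h, zero_smul]
  have hβd : β ᵥ* d = 0 := by
    have e1 : (Om ⬝ᵥ yv) • (β ᵥ* d) = 0 := by
      rw [← smul_vecMul, ← hOmβ, hOmd]
    exact (smul_eq_zero.1 e1).resolve_left hlam
  have hb : β ⬝ᵥ yv = 1 := by
    have e1 : (Om ⬝ᵥ yv) * (β ⬝ᵥ yv) = (Om ⬝ᵥ yv) * 1 := by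
      rw [mul_one]
      conv_rhs => rw [hOmβ]
      rw [smul_dotProduct, smul_eq_mul]
    exact mul_left_cancel₀ hlam e1
  -- the rows of `k3`
  have r0 : ∀ x, deg x = 0 → ∀ y, k3 x y = 0 := by
    intro x hx y
    rw [hk3a, hZd x y (by omega), hdZ x y (by omega), mul_apply]
    rw [Finset.sum_eq_zero fun u _ => by rw [nf.k0 x u hx, zero_mul]]
    ring
  have r1 : ∀ x, deg x = 1 → ∀ y, k3 x y = α x * z y := by
    intro x hx y
    rw [hk3a, hZd x y (by omega), hdZ x y (by omega), mul_apply]
    have e1 : ∀ u, k' x u * k' u y = α x * (z u * k' u y) := by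
      intro u
      rw [nf.k1 x u hx]
      ring
    rw [Finset.sum_congr rfl fun u _ => e1 u, ← Finset.mul_sum, hzk']
    ring
  have r2 : ∀ x, deg x = 2 → ∀ y, k3 x y = 0 := by
    intro x hx y
    have e1 : (Z * d) x y = ∑ u, ζ x u * d u y := by
      rw [mul_apply]
      exact Finset.sum_congr rfl fun u _ => by rw [hZa]
    rw [hk3a, hdZ x y (by omega), hζ2 x hx y, e1]
    ring
  have r3 : ∀ x, deg x = 3 → ∀ y, k3 x y = yv x * β y - (d * Z) x y := by
    intro x hx y
    have e1 : (k' * k') x y = yv x * β y := by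
      rw [mul_apply]
      have e2 : ∀ u, k' x u * k' u y = yv x * β y * (β u * yv u) := by
        intro u
        rw [nf.k3 x u hx]
        by_cases hu : β u = 0
        · rw [hu]; ring
        · rw [nf.k3 u y (nf.β_hg u hu)]
          ring
      rw [Finset.sum_congr rfl fun u _ => e2 u, ← Finset.mul_sum]
      have e3 : ∑ u, β u * yv u = 1 := hb
      rw [e3, mul_one]
    rw [hk3a, hZd x y (by omega), e1]
    ring
  -- `k3` is a chain map of degree zero, homotopic to `k'`
  have hz3 : Zr deg k3 := by
    rw [hk3]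
    exact eu_zr_sub hkk' (eu_zr_add (eu_zr_ud hZup hdn) (eu_zr_du hdn hZup))
  have hd3 : d * k3 = k3 * d := by
    have e1 : d * (Z * d) = d * Z * d := by rw [mul_assoc]
    have e2 : d * (d * Z) = 0 := by rw [← mul_assoc, hdd, zero_mul]
    have e3 : Z * d * d = 0 := by rw [mul_assoc, hdd, mul_zero]
    have e4 : d * (k' * k') = k' * k' * d := by
      rw [← mul_assoc, nf.kd, mul_assoc, nf.kd, ← mul_assoc]
    rw [hk3, mul_sub, sub_mul, mul_add, add_mul, e1, e2, e3, e4, add_zero, zero_add]
  obtain ⟨n0, nadd, nneg, nmul⟩ := h2 ℚ W deg d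
  have hn1 : NullH deg d (k3 - k') := by
    have e1 : k3 - k' = (k' * k' - k') + -(Z * d + d * Z) := by rw [hk3]; abel
    rw [e1]
    exact nadd _ _ nf.idem (nneg _ ⟨Z, hZup, rfl⟩)
  have hn2 : NullH deg d (k3 * k3 - k) := by
    have e1 : k3 * k3 - k = k3 * (k3 - k') + (k3 - k') * k' + (k' * k' - k') + (k' - k) := by
      rw [mul_sub, sub_mul]
      abel
    rw [e1]
    exact nadd _ _ (nadd _ _ (nadd _ _ (nmul _ _ hz3 hd3 hn1).2 (nmul _ _ nf.k_zr nf.kd hn1).1)
      nf.idem) ⟨e, he, hke⟩
  have hstr := h1 ℚ ℚ W (AddMonoidHom.id ℚ) deg d (k3 * k3 - k) (fun a b => mul_comm a b) hdn hn2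
  rw [eu_str_sub] at hstr
  have hval : str (AddMonoidHom.id ℚ) deg (k3 * k3) = -2 := by
    have hterm : ∀ x, ((-1 : ℤ) ^ deg x) • (AddMonoidHom.id ℚ) ((k3 * k3) x x) =
        -(z x * α x) - β x * ∑ u, k3 x u * yv u := by
      intro x
      rw [AddMonoidHom.id_apply, mul_apply]
      have hx := hdeg x
      have hαx : deg x ≠ 1 → α x = 0 := by
        intro h
        by_contra h4
        exact h (nf.α_hg x h4)
      have hβx : deg x ≠ 3 → β x = 0 := by
        intro h
        by_contra h4
        exact h (nf.β_hg x h4)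
      obtain h4 | h4 | h4 | h4 : deg x = 0 ∨ deg x = 1 ∨ deg x = 2 ∨ deg x = 3 := by omega
      · rw [Finset.sum_eq_zero fun u _ => by rw [r0 x h4 u, zero_mul], hαx (by omega),
          hβx (by omega)]
        simp
      · have e1 : ∀ u, k3 x u * k3 u x = α x * z x * (z u * α u) := by
          intro u
          rw [r1 x h4 u]
          by_cases hu : z u = 0
          · rw [hu]; ring
          · rw [r1 u (nf.z_hg u hu) x]
            ring
        rw [Finset.sum_congr rfl fun u _ => e1 u, ← Finset.mul_sum, hβx (by omega), h4]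
        have e2 : ∑ u, z u * α u = 1 := ha
        rw [e2]
        simp
        ring
      · rw [Finset.sum_eq_zero fun u _ => by rw [r2 x h4 u, zero_mul], hαx (by omega),
          hβx (by omega)]
        simp
      · have e1 : ∀ u, k3 x u * k3 u x = β x * (k3 x u * yv u) - k3 x u * (d * Z) u x := by
          intro u
          by_cases hu : k3 x u = 0
          · rw [hu]; ring
          · rw [r3 u (by rw [← hz3 x u hu, h4]) x]
            ring
        have e2 : ∑ u, k3 x u * (d * Z) u x = 0 := by
          have e3 : ∑ u, k3 x u * (d * Z) u x = (k3 * (d * Z)) x x := mul_apply.symm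
          rw [e3, ← mul_assoc, ← hd3, mul_assoc, mul_apply]
          refine Finset.sum_eq_zero fun u _ => ?_
          by_cases hu : d x u = 0
          · rw [hu, zero_mul]
          · have hu2 : deg u = 2 := by
              have := hdn x u hu
              omega
            rw [mul_apply, Finset.sum_eq_zero fun t _ => by rw [r2 u hu2 t, zero_mul], mul_zero]
        rw [Finset.sum_congr rfl fun u _ => e1 u, Finset.sum_sub_distrib, ← Finset.mul_sum, e2,
          hαx (by omega), h4]
        simp

    unfold str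
    rw [Finset.sum_congr rfl fun x _ => hterm x, Finset.sum_sub_distrib, Finset.sum_neg_distrib]
    have e1 : ∑ x, z x * α x = 1 := ha
    have e2 : ∑ x, β x * ∑ u, k3 x u * yv u = 1 := by
      have e3 : ∑ x, β x * ∑ u, k3 x u * yv u = β ⬝ᵥ (k3 *ᵥ yv) := rfl
      have e4 : β ᵥ* k3 = β := by
        ext y
        show ∑ x, β x * k3 x y = β y
        have e5 : ∀ x, β x * k3 x y = β x * yv x * β y - β x * (d * Z) x y := by
          intro x
          by_cases hx : β x = 0
          · rw [hx]; ring
          · rw [r3 x (nf.β_hg x hx) y]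
            ring
        have e6 : ∑ x, β x * (d * Z) x y = 0 := by
          have e7 : ∑ x, β x * (d * Z) x y = (β ᵥ* (d * Z)) y := rfl
          rw [e7, ← vecMul_vecMul, hβd, zero_vecMul]
          rfl
        have e8 : ∑ x, β x * yv x = 1 := hb
        rw [Finset.sum_congr rfl fun x _ => e5 x, Finset.sum_sub_distrib, ← Finset.sum_mul, e6, e8]
        ring
      rw [e3, dotProduct_mulVec, e4, hb]
    rw [e1, e2]
    norm_num
  rw [hval] at hstr
  linarith

end Pool.Agent.CPD
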