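import Pool.Agent.CPD.StF

/-!
# F0 : elementary facts
-/

set_option autoImplicit false

namespace Pool.Agent.CPD

open Matrix

theorem F0_one {G : Type} [Group G] {L : Len G} {π : Type} [Ring π] [StarRing π]
    {T : G → G → unitary π} {K : ℕ} {v : G} (h : GoodAt L T K v) : T v 1 = 1 := by
  have h1 := h 1 1 (by rw [L.one]; exact Nat.zero_le _) (by rw [L.one]; exact Nat.zero_le _)
  rw [mul_one, mul_one] at h1
  exact mul_left_cancel (h1.trans (mul_one _).symm)

theorem F0_path {G : Type} [Group G] (L : Len G) (p : ℕ → G)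
    (hp : ∀ i, L.l ((p i)⁻¹ * p (i + 1)) ≤ 1) : ∀ n a, L.l ((p a)⁻¹ * p (a + n)) ≤ n := by
  intro n
  induction n with
  | zero => intro a; rw [add_zero, inv_mul_cancel, L.one]
  | succ n ih =>
    intro a
    have h1 : (p a)⁻¹ * p (a + (n + 1)) = ((p a)⁻¹ * p (a + n)) * ((p (a + n))⁻¹ *
        p (a + n + 1)) := by
      rw [mul_assoc, mul_inv_cancel_left, add_assoc]
    rw [h1]
    exact le_trans (L.mul _ _) (Nat.add_le_add (ih a) (hp _))

theorem F0_tr {G : Type} [Group G] {L : Len G} {π : Type} [Ring π] [StarRing π]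
    {T : G → G → unitary π} (p : ℕ → G) (K : ℕ)
    (hp : ∀ i, L.l ((p i)⁻¹ * p (i + 1)) ≤ 1) (hK : 1 ≤ K) :
    ∀ n a, n ≤ K → (∀ i, a ≤ i → i ≤ a + n → GoodAt L T K (p i)) →
    tr T p a n = T (p a) ((p a)⁻¹ * p (a + n)) := by
  intro n
  induction n with
  | zero =>
    intro a _ hg
    rw [add_zero, inv_mul_cancel, F0_one (hg a le_rfl (Nat.le_add_right _ _))]
    rfl
  | succ n ih =>
    intro a hn hg
    have h1 : tr T p a (n + 1) = T (p a) ((p a)⁻¹ * p (a + 1)) * tr T p (a + 1) n := rfl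
    have h2 := ih (a + 1) (by omega) (fun i hi hi' => hg i (by omega) (by omega))
    have h3 := hg a le_rfl (Nat.le_add_right _ _) ((p a)⁻¹ * p (a + 1))
      ((p (a + 1))⁻¹ * p (a + 1 + n)) (le_trans (hp a) hK)
      (le_trans (F0_path L p hp n (a + 1)) (by omega))
    rw [mul_inv_cancel_left, mul_assoc, mul_inv_cancel_left] at h3
    rw [h1, h2, h3, show a + (n + 1) = a + 1 + n by omega]

/-- **F0.** Elementary facts. -/
theorem F0 : St_F0 := by
  intro G _ M Λ _ _ T
  have hs : ∀ A : Matrix M.I M.I (ZG G), Five M A → Five M Aᴴ := by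
    intro A hA i j g hg
    rw [Matrix.conjTranspose_apply, star_coeff] at hg
    have := hA j i g⁻¹ hg
    rwa [M.L.inv] at this
  have hD : Five M M.D := M.prop_D
  have hE : Five M M.E := M.prop_E
  have hp : ∀ x i, M.L.l ((M.σ x i)⁻¹ * M.σ x (i + 1)) ≤ 1 := M.step
  have hU : ∀ j x, M.τ x ≤ j → U M T j x = 1 := by
    intro j x h
    unfold U
    rw [Nat.sub_eq_zero_of_le h]
    exact inv_one
  refine ⟨⟨hD, hE, M.prop_Ps, M.prop_Ph, M.prop_h, hs _ hD, hs _ hE⟩, ?_, ?_, hU, ?_, ?_, ?_⟩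
  · intro p h a n
    exact F0_path M.L p h n a
  · intro p K a n h hn hK hg
    exact F0_tr p K h hK n a hn hg
  · intro j x hg
    by_cases h : M.τ x ≤ j
    · rw [hU j x h, hU (j + 1) x (by omega), M.stop x j h, M.stop x (j + 1) (by omega),
        inv_mul_cancel]
      rw [M.stop x j h] at hg
      rw [F0_one hg, inv_one, mul_one]
    · unfold U
      rw [inv_inv, inv_inv]
      have h1 : M.τ x - j = (M.τ x - (j + 1)) + 1 := by omega
      rw [h1]
      rfl
  · intro j x
    have h := F0_path M.L (M.σ x) (hp x) j 0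
    rwa [M.start, inv_one, one_mul, Nat.zero_add] at h
  · intro V g0 m hA x hx y hy
    have h1 : g0 < M.L.l y := by
      have h2 : x = y * (x⁻¹ * y)⁻¹ := by
        rw [_root_.mul_inv_rev, inv_inv, mul_inv_cancel_left]
      have h3 := M.L.mul y (x⁻¹ * y)⁻¹
      rw [← h2, M.L.inv] at h3
      omega
    refine ⟨hA.far y h1, ?_⟩
    intro j hj
    by_cases h4 : j < M.τ y
    · have := hA.late y j hj h4
      exact hA.far _ (by omega)
    · rw [M.stop y j (by omega)]
      exact hA.far y h1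

end Pool.Agent.CPD
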