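import Pool.Agent.CPD.StF

/-!
# F1 : lifting laws at one good base point
-/

set_option autoImplicit false

namespace Pool.Agent.CPD

open Matrix

theorem F1_lc {G : Type} [Group G] {I : Type} {Λ : Type} [Ring Λ] [StarRing Λ]
    (T : G → G → unitary Λ) (b : G) (c : (G × I) →₀ ℤ) (v : G × I → ((G × I) →₀ Λ)) :
    Finsupp.linearCombination Λ v (bl T b c) =
      ∑ z ∈ c.support, ((c z : Λ) * (T b (b⁻¹ * z.1) : Λ)) • v z := by
  rw [Finsupp.linearCombination_apply]
  unfold bl
  rw [Finsupp.onFinset_sum]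
  intro z
  rw [zero_smul]

/-- **F1.** Lifting laws at one good base point. -/
theorem F1 : St_F1 := by
  intro G _ L I _ _ Λ _ _ T K b hg
  have h1 : T b 1 = 1 := by
    have h1 := hg 1 1 (by rw [L.one]; exact Nat.zero_le _) (by rw [L.one]; exact Nat.zero_le _)
    rw [mul_one, mul_one] at h1
    exact mul_left_cancel (h1.trans (mul_one _).symm)
  have hm : ∀ y z : G, L.l (b⁻¹ * y) ≤ K → L.l (y⁻¹ * z) ≤ K →
      (T b (b⁻¹ * y) : Λ) * (T y (y⁻¹ * z) : Λ) = (T b (b⁻¹ * z) : Λ) := by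
    intro y z hy hz
    have h2 := hg (b⁻¹ * y) (y⁻¹ * z) hy hz
    rw [mul_inv_cancel_left, mul_assoc, mul_inv_cancel_left] at h2
    rw [← h2]
    rfl
  refine ⟨?_, ?_, h1, ?_⟩
  · intro A c hA hc
    unfold lo
    rw [F1_lc]
    ext z
    rw [Finsupp.finsetSum_apply, bl_apply]
    have e1 : opZ A c z = ∑ y ∈ c.support, c y * row A y z := by
      unfold opZ
      rw [Finsupp.linearCombination_apply, Finsupp.sum, Finsupp.finsetSum_apply]
      exact Finset.sum_congr rfl fun y _ => by rw [Finsupp.smul_apply, smul_eq_mul]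
    rw [e1, Int.cast_sum, Finset.sum_mul]
    apply Finset.sum_congr rfl
    intro y hy
    rw [Finsupp.smul_apply, smul_eq_mul, bl_apply, Int.cast_mul]
    by_cases hr : row A y z = 0
    · rw [hr, Int.cast_zero, zero_mul, mul_zero, mul_zero, zero_mul]
    · have hy1 := hc y (Finsupp.mem_support_iff.1 hy)
      have hy2 : L.l (y.1⁻¹ * z.1) ≤ K := by
        rw [row_apply] at hr
        exact hA _ _ _ hr
      rw [← hm y.1 z.1 hy1 hy2, mul_assoc, mul_assoc, ← mul_assoc (T b (b⁻¹ * y.1) : Λ),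
        ← (Int.cast_commute (row A y z) (T b (b⁻¹ * y.1) : Λ)).eq, mul_assoc]
  · intro b' c hb hc
    ext y
    rw [Finsupp.smul_apply, smul_eq_mul, bl_apply, bl_apply]
    by_cases h : c y = 0
    · rw [h, Int.cast_zero, zero_mul, zero_mul, mul_zero]
    · rw [← hm b' y.1 hb (hc y h), ← mul_assoc, ← mul_assoc,
        (Int.cast_commute (c y) (T b (b⁻¹ * b') : Λ)).eq]
  · intro h hh
    have h2 := hg h h⁻¹ hh (by rw [L.inv]; exact hh)
    rw [mul_inv_cancel, h1] at h2
    exact eq_inv_of_mul_eq_one_right h2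

end Pool.Agent.CPD
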