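import Pool.Agent.CPD.StF

/-!
# F10a: the transposed flow identity, for chains which are far away
-/

set_option autoImplicit false

namespace Pool.Agent.CPD

open Matrix

private lemma F10a_mem {X Λ : Type} [Ring Λ] (S : Submodule Λ (X →₀ Λ)) (v : X →₀ Λ)
    (h : ∀ x, v x ≠ 0 → Finsupp.single x 1 ∈ S) : v ∈ S := by
  rw [← Finsupp.sum_single v]
  refine S.sum_mem fun x hx => ?_
  have h1 : Finsupp.single x (v x) = v x • (Finsupp.single x 1 : X →₀ Λ) := by
    rw [Finsupp.smul_single, smul_eq_mul, mul_one]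
  rw [h1]
  exact S.smul_mem _ (h x (Finsupp.mem_support_iff.1 hx))

private lemma F10a_supp {X Λ : Type} [Ring Λ] (F : (X →₀ Λ) →ₗ[Λ] (X →₀ Λ)) (v : X →₀ Λ) (y : X)
    (h : F v y ≠ 0) : ∃ x, v x ≠ 0 ∧ F (Finsupp.single x 1) y ≠ 0 := by
  by_contra hcon
  push Not at hcon
  apply h
  let K : Submodule Λ (X →₀ Λ) := LinearMap.ker ((Finsupp.lapply y) ∘ₗ F)
  have h1 : v ∈ K := by
    apply F10a_mem
    intro x hx
    rw [LinearMap.mem_ker]
    exact hcon x hx
  exact h1

/-- the pairing as a linear map -/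
private noncomputable def F10a_pl {X Λ : Type} [Ring Λ] (f : X → Λ) : (X →₀ Λ) →ₗ[Λ] Λ :=
  Finsupp.linearCombination Λ f

private lemma F10a_pl_eq {X Λ : Type} [Ring Λ] (f : X → Λ) (c : X →₀ Λ) :
    pair c f = F10a_pl f c := rfl

/-- the pairing of the image of a chain -/
private lemma F10a_pair {X Λ : Type} [Ring Λ] (F : (X →₀ Λ) →ₗ[Λ] (X →₀ Λ)) (v : X →₀ Λ)
    (f : X → Λ) : pair (F v) f = pair v (fun x => pair (F (Finsupp.single x 1)) f) := by
  rw [F10a_pl_eq, F10a_pl_eq]
  induction v using Finsupp.induction_linear with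
  | zero => rw [map_zero, map_zero, map_zero]
  | add a b ha hb => rw [map_add, map_add, map_add, ha, hb]
  | single x l =>
    have h1 : Finsupp.single x l = l • (Finsupp.single x 1 : X →₀ Λ) := by
      rw [Finsupp.smul_single, smul_eq_mul, mul_one]
    rw [h1, map_smul, map_smul, map_smul]
    congr 1
    unfold F10a_pl
    rw [Finsupp.linearCombination_single, one_smul]
    rfl

private lemma F10a_congr {X Λ : Type} [Ring Λ] (v : X →₀ Λ) (f g : X → Λ)
    (h : ∀ x, v x ≠ 0 → f x = g x) : pair v f = pair v g := by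
  unfold pair
  refine Finsupp.sum_congr fun x hx => ?_
  rw [h x (Finsupp.mem_support_iff.1 hx)]

private lemma F10a_zero {X Λ : Type} [Ring Λ] (v : X →₀ Λ) (f : X → Λ)
    (h : ∀ x, v x ≠ 0 → f x = 0) : pair v f = 0 := by
  unfold pair
  refine Finset.sum_eq_zero fun x hx => ?_
  show v x * f x = 0
  rw [h x (Finsupp.mem_support_iff.1 hx), mul_zero]

/-- exchanging the roles of two finite chains -/
private lemma F10a_star {X Λ : Type} [Ring Λ] [StarRing Λ] (a v : X →₀ Λ) :
    a.sum (fun y l => l * star (v y)) = star (pair v (fun y => star (a y))) := by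
  classical
  unfold pair
  have e1 : a.sum (fun y l => l * star (v y)) =
      ∑ y ∈ a.support ∪ v.support, a y * star (v y) :=
    Finsupp.sum_of_support_subset a Finset.subset_union_left _ (fun i _ => zero_mul _)
  have e2 : v.sum (fun y l => l * star (a y)) =
      ∑ y ∈ a.support ∪ v.support, v y * star (a y) :=
    Finsupp.sum_of_support_subset v Finset.subset_union_right _ (fun i _ => zero_mul _)
  rw [e1, e2, star_sum]
  refine Finset.sum_congr rfl fun y _ => ?_
  rw [star_mul, star_star]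

private lemma F10a_trunc {G : Type} [Group G] (M : Geo G) {Λ : Type} [Ring Λ] [StarRing Λ] (Q : ℕ)
    (f : G × M.I → Λ) (x : G × M.I) (h : M.L.l x.1 ≤ Q) : trunc M Q f x = f x := by
  unfold trunc
  rw [Finsupp.onFinset_apply]
  exact if_pos h

private lemma F10a_trunc' {G : Type} [Group G] (M : Geo G) {Λ : Type} [Ring Λ] [StarRing Λ] (Q : ℕ)
    (f : G × M.I → Λ) (x : G × M.I) (h : f x = 0) : trunc M Q f x = 0 := by
  unfold trunc
  rw [Finsupp.onFinset_apply]
  by_cases h' : M.L.l x.1 ≤ Q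
  · exact (if_pos h').trans h
  · exact if_neg h'

private lemma F10a_len {G : Type} [Group G] (L : Len G) (g x : G) :
    L.l g ≤ L.l x + L.l (g⁻¹ * x) := by
  have h1 : g = x * (g⁻¹ * x)⁻¹ := by group
  have h2 := L.mul x (g⁻¹ * x)⁻¹
  rw [← h1, L.inv] at h2
  exact h2

private lemma F10a_len' {G : Type} [Group G] (L : Len G) (g x : G) :
    L.l x ≤ L.l g + L.l (g⁻¹ * x) := by
  have h1 : x = g * (g⁻¹ * x) := by group
  have h2 := L.mul g (g⁻¹ * x)
  rw [← h1] at h2
  exact h2

theorem F10a (h0 : St_F0) (h4 : St_F4) (_h6 : St_F6) (h7 : St_F7) (h9 : St_F9) : St_F10a := by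
  intro G _ M Λ _ _ T V g0 m hAdm
  obtain ⟨h7a, _, h7r, h7H, h7n⟩ := h7 G M Λ T m
  obtain ⟨n', hn'⟩ := h7n (g0 + 10 * M.u)
  obtain ⟨⟨hFD, hFE, _, _, _, hFDH, hFEH⟩, _, _, _, _, h05, h06⟩ := h0 G M Λ T
  set N2 := m + 5 * M.u + (g0 + 20 * M.u) + n' with hN2
  have hcu : M.c + 1 = M.u := rfl
  -- supports of the images
  have hsup : ∀ (A : Matrix M.I M.I (ZG G)), Five M A → ∀ (b : Ch M Λ) (z : G × M.I),
      op M T A b z ≠ 0 → ∃ y, b y ≠ 0 ∧ M.L.l (y.1⁻¹ * z.1) ≤ M.c := by
    intro A hA b z hz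
    obtain ⟨y, hy1, hy2⟩ := F10a_supp _ _ _ hz
    exact ⟨y, hy1, hA _ _ _ (h7a A y z hy2)⟩
  -- (1), for the smaller radius
  have h1 : ∀ b : Ch M Λ, (∀ y, b y ≠ 0 → N2 < M.L.l y.1) →
      ∀ z : G × M.I, M.L.l z.1 ≤ g0 + 10 * M.u → tH M T m b z = 0 := by
    intro b hb z hz
    unfold tH
    refine Finset.sum_eq_zero fun y hy => ?_
    show b y * star (Hm M T m (Finsupp.single z 1) y) = 0
    by_cases h : Hm M T m (Finsupp.single z 1) y = 0
    · rw [h, star_zero, mul_zero]
    · exfalso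
      obtain ⟨j, _, hj, _⟩ := h7H z y h
      have h2 := hn' z y j hz (Or.inl hj)
      have h3 := hb y (Finsupp.mem_support_iff.1 hy)
      omega
  have htH : ∀ (b : Ch M Λ) (z : G × M.I), tH M T m b z =
      star (pair (Hm M T m (Finsupp.single z 1)) (fun y => star (b y))) := fun b z =>
    F10a_star b _
  refine ⟨N2 + M.u, fun b hb => ?_⟩
  have hb' : ∀ y, b y ≠ 0 → N2 < M.L.l y.1 := fun y hy => by
    have := hb y hy
    omega
  have hbV : ∀ y, b y ≠ 0 → y.1 ∈ V := fun y hy => hAdm.far _ (by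
    have := hb' y hy
    omega)
  refine ⟨h1 b hb', fun Q z hQ => ?_⟩
  have hDb : ∀ y, op M T M.Dᴴ b y ≠ 0 → N2 < M.L.l y.1 := by
    intro y hy
    obtain ⟨x, hx1, hx2⟩ := hsup _ hFDH b y hy
    have h2 := hb x hx1
    have h3 := F10a_len M.L x.1 y.1
    omega
  set ξ : Ch M Λ := trunc M Q (tH M T m b) with hξ
  have hξ0 : ∀ y, ξ y ≠ 0 → g0 + 10 * M.u < M.L.l y.1 := by
    intro y hy
    by_contra hle
    exact hy (F10a_trunc' M Q _ y (h1 b hb' y (by omega)))
  by_cases hz : M.L.l z.1 ≤ g0 + 3 * M.u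
  · have e1 : op M T M.Eᴴ b z = 0 := by
      by_contra h
      obtain ⟨y, hy1, hy2⟩ := hsup _ hFEH b z h
      have h2 := hb' y hy1
      have h3 := F10a_len M.L y.1 z.1
      omega
    have e2 : tH M T m (op M T M.Dᴴ b) z = 0 := h1 _ hDb z (by omega)
    have e3 : op M T M.Dᴴ ξ z = 0 := by
      by_contra h
      obtain ⟨y, hy1, hy2⟩ := hsup _ hFDH ξ z h
      have h2 := hξ0 y hy1
      have h3 := F10a_len M.L y.1 z.1
      omega
    rw [e1, e2, e3, add_zero]
  · have hok : OkV M V m z.1 := h06 V g0 m hAdm z.1 (by omega)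
    have hflow := h4 G M Λ T V m z hAdm.good hok
    have hpair : pair (op M T M.E (Finsupp.single z 1)) (fun y => star (b y)) -
        pair (rm M T m (Finsupp.single z 1)) (fun y => star (b y)) =
        pair (op M T M.D (Hm M T m (Finsupp.single z 1))) (fun y => star (b y)) +
        pair (Hm M T m (op M T M.D (Finsupp.single z 1))) (fun y => star (b y)) := by
      simp only [F10a_pl_eq]
      rw [← map_sub, ← map_add, hflow]
    have e1 : pair (op M T M.E (Finsupp.single z 1)) (fun y => star (b y)) =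
        star (op M T M.Eᴴ b z) :=
      h9 G M Λ T V M.E b z hAdm.good hFE (fun y hy _ => hbV y hy)
    have e2 : pair (rm M T m (Finsupp.single z 1)) (fun y => star (b y)) = 0 := by
      apply F10a_zero
      intro y hy
      by_cases h : b y = 0
      · rw [h, star_zero]
      · exfalso
        have h2 := hb' y h
        have h3 := (h7r z y hy).1
        have h5 := h05 m z.1
        have h6 := F10a_len' M.L (M.σ z.1 m) y.1
        omega
    have e3 : pair (op M T M.D (Hm M T m (Finsupp.single z 1))) (fun y => star (b y)) =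
        star (tH M T m (op M T M.Dᴴ b) z) := by
      rw [htH, star_star, F10a_pair]
      apply F10a_congr
      intro v _
      exact h9 G M Λ T V M.D b v hAdm.good hFD (fun y hy _ => hbV y hy)
    have e4 : pair (Hm M T m (op M T M.D (Finsupp.single z 1))) (fun y => star (b y)) =
        star (op M T M.Dᴴ ξ z) := by
      rw [F10a_pair, ← h9 G M Λ T V M.D ξ z hAdm.good hFD (fun y hy _ => hAdm.far _ (by
        have := hξ0 y hy
        omega))]
      apply F10a_congr
      intro v hv
      have h2 := hFD _ _ _ (h7a M.D z v hv)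
      have h3 := F10a_len' M.L z.1 v.1
      rw [hξ, F10a_trunc M Q _ v (by omega), htH, star_star]
    rw [e1, e2, e3, e4, sub_zero, ← star_add] at hpair
    exact star_injective hpair

end Pool.Agent.CPD
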