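import Pool.Agent.CPD.F8

/-!
# F13 : entries of the outward flow near the diagonal
-/

set_option autoImplicit false

namespace Pool.Agent.CPD

open Matrix

section

variable {G : Type} [Group G] (M : Geo G) {Λ : Type} [Ring Λ] [StarRing Λ]
  (T : G → G → unitary Λ)

theorem f13_op_apply (A : Matrix M.I M.I (ZG G)) (a : Ch M Λ) (y : G × M.I) :
    op M T A a y = a.sum (fun z l => l * ((row A z y : Λ) * (T z.1 (z.1⁻¹ * y.1) : Λ))) := by
  unfold op lo
  rw [Finsupp.linearCombination_apply, Finsupp.sum, Finsupp.finsetSum_apply, Finsupp.sum]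
  apply Finset.sum_congr rfl
  intro z _
  rw [Finsupp.smul_apply, bl_apply, smul_eq_mul]

omit [StarRing Λ] in
theorem f13_trunc_sum (Q : ℕ) (f : G × M.I → Λ) (g : G × M.I → Λ) :
    (trunc M Q f).sum (fun z l => l * g z) =
      ∑ z ∈ M.L.ball Q ×ˢ (Finset.univ : Finset M.I), f z * g z := by
  unfold trunc
  rw [Finsupp.onFinset_sum]
  · apply Finset.sum_congr rfl
    intro z hz
    have h1 : M.L.l z.1 ≤ Q := (M.L.mem_ball _ _).1 (Finset.mem_product.1 hz).1
    rw [if_pos h1]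
  · intro z
    rw [zero_mul]

theorem f13_bl_sum (b : G) (c : (G × M.I) →₀ ℤ) (g : G × M.I → Λ) :
    (bl T b c).sum (fun z l => l * g z) =
      ∑ z ∈ c.support, ((c z : Λ) * (T b (b⁻¹ * z.1) : Λ)) * g z := by
  unfold bl
  rw [Finsupp.onFinset_sum]
  intro z
  rw [zero_mul]

theorem f13_Ho (m Q : ℕ) (x y : G × M.I) :
    Ho M T m Q (Finsupp.single x 1) y =
      (∑ z ∈ M.L.ball Q ×ˢ (Finset.univ : Finset M.I),
        (∑ a ∈ (row M.Ps x).support, ((row M.Ps x a : Λ) * (T x.1 (x.1⁻¹ * a.1) : Λ)) *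
          star (Hm M T m (Finsupp.single z 1) a)) *
          ((row M.Ph z y : Λ) * (T z.1 (z.1⁻¹ * y.1) : Λ))) -
      (row M.h x y : Λ) * (T x.1 (x.1⁻¹ * y.1) : Λ) := by
  unfold Ho
  rw [Finsupp.linearCombination_single, one_smul, Finsupp.sub_apply, bl_apply, f13_op_apply,
    f13_trunc_sum]
  congr 1
  apply Finset.sum_congr rfl
  intro z _
  unfold tH
  rw [f13_bl_sum]

theorem f13_Ho_triv (m Q : ℕ) (x y : G × M.I) :
    Ho M (triv G ℤ) m Q (Finsupp.single x 1) y =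
      (∑ z ∈ M.L.ball Q ×ˢ (Finset.univ : Finset M.I),
        (∑ a ∈ (row M.Ps x).support, row M.Ps x a *
          Hm M (triv G ℤ) m (Finsupp.single z 1) a) * row M.Ph z y) - row M.h x y := by
  rw [f13_Ho]
  simp only [triv, OneMemClass.coe_one, mul_one, Int.cast_id, star_trivial]

end

/-- **F13.** Entries of the outward flow near the diagonal. -/
theorem F13 (h0 : St_F0) (_h1 : St_F1) (_h7 : St_F7) (h8 : St_F8) (_h10 : St_F10a) : St_F13 := by
  intro G _ M Λ _ _ T V g0 m hA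
  classical
  obtain ⟨-, -, -, -, -, -, hOk⟩ := h0 G M Λ T
  have hu : M.u = M.c + 1 := rfl
  have hR0 : 10 * M.u ≤ M.R0 := by
    unfold Geo.R0
    nlinarith [Nat.zero_le M.t0, Nat.zero_le M.c, hu]
  refine ⟨g0 + 10 * M.u, ?_⟩
  intro Q x y hx hxy
  have hxOk := hOk V g0 m hA x.1 (by omega)
  have hxV : x.1 ∈ V := by
    refine (hxOk x.1 ?_).1
    rw [inv_mul_cancel, M.L.one]
    exact Nat.zero_le _
  have hg := hA.good _ hxV
  rw [f13_Ho, f13_Ho_triv, Int.cast_sub, sub_mul]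
  congr 1
  · rw [Int.cast_sum, Finset.sum_mul]
    apply Finset.sum_congr rfl
    intro z _
    by_cases hz : row M.Ph z y = 0
    · rw [hz, Int.cast_zero, zero_mul, mul_zero]
      simp
    · have hzy : M.L.l (z.1⁻¹ * y.1) ≤ M.c := by
        rw [row_apply] at hz
        exact M.prop_Ph _ _ _ hz
      have hxz : M.L.l (x.1⁻¹ * z.1) ≤ 3 * M.u := by
        have e1 : x.1⁻¹ * z.1 = (x.1⁻¹ * y.1) * (z.1⁻¹ * y.1)⁻¹ := by group
        rw [e1]
        have := M.L.mul (x.1⁻¹ * y.1) (z.1⁻¹ * y.1)⁻¹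
        rw [M.L.inv] at this
        omega
      have hzl : M.L.l x.1 ≤ M.L.l z.1 + M.L.l (x.1⁻¹ * z.1) := by
        have e1 : x.1 = z.1 * (x.1⁻¹ * z.1)⁻¹ := by group
        have := M.L.mul z.1 (x.1⁻¹ * z.1)⁻¹
        rw [M.L.inv, ← e1] at this
        exact this
      have hzOk := hOk V g0 m hA z.1 (by omega)
      have hxzy : T x.1 (x.1⁻¹ * z.1) * T z.1 (z.1⁻¹ * y.1) = T x.1 (x.1⁻¹ * y.1) := by
        have := hg (x.1⁻¹ * z.1) (z.1⁻¹ * y.1) (by omega) (by omega)
        rw [mul_inv_cancel_left] at this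
        rw [this]
        congr 1
        group
      have key : ∀ a ∈ (row M.Ps x).support,
          ((row M.Ps x a : Λ) * (T x.1 (x.1⁻¹ * a.1) : Λ)) *
            star (Hm M T m (Finsupp.single z 1) a) =
          ((row M.Ps x a * Hm M (triv G ℤ) m (Finsupp.single z 1) a : ℤ) : Λ) *
            (T x.1 (x.1⁻¹ * z.1) : Λ) := by
        intro a ha
        have hxa : M.L.l (x.1⁻¹ * a.1) ≤ M.c := by
          have h := Finsupp.mem_support_iff.1 ha
          rw [row_apply] at h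
          exact M.prop_Ps _ _ _ h
        have hza : M.L.l (z.1⁻¹ * a.1) ≤ 4 * M.u := by
          have e1 : z.1⁻¹ * a.1 = (x.1⁻¹ * z.1)⁻¹ * (x.1⁻¹ * a.1) := by group
          rw [e1]
          have := M.L.mul (x.1⁻¹ * z.1)⁻¹ (x.1⁻¹ * a.1)
          rw [M.L.inv] at this
          omega
        have hxza : T x.1 (x.1⁻¹ * z.1) * T z.1 (z.1⁻¹ * a.1) = T x.1 (x.1⁻¹ * a.1) := by
          have := hg (x.1⁻¹ * z.1) (z.1⁻¹ * a.1) (by omega) (by omega)
          rw [mul_inv_cancel_left] at this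
          rw [this]
          congr 1
          group
        have e2 : (T x.1 (x.1⁻¹ * a.1) : Λ) * star (T z.1 (z.1⁻¹ * a.1) : Λ) =
            (T x.1 (x.1⁻¹ * z.1) : Λ) := by
          rw [← hxza, Submonoid.coe_mul, mul_assoc,
            Unitary.mul_star_self_of_mem (T z.1 (z.1⁻¹ * a.1)).2, mul_one]
        rw [h8 G M Λ T V m z a hA.good hzOk (by omega), star_mul, star_intCast, Int.cast_mul,
          mul_assoc, ← mul_assoc (T x.1 (x.1⁻¹ * a.1) : Λ), e2, ← (Int.cast_commute _ _).eq,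
          mul_assoc]
      rw [Finset.sum_congr rfl key]
      rw [← Finset.sum_mul, ← Int.cast_sum, Int.cast_mul, mul_assoc,
        ← mul_assoc (T x.1 (x.1⁻¹ * z.1) : Λ), ← (Int.cast_commute _ _).eq, mul_assoc,
        ← Submonoid.coe_mul, hxzy, mul_assoc]

end Pool.Agent.CPD
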