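import Pool.Agent.CPD.F13

/-!
# F14 : trace locality
-/

set_option autoImplicit false

namespace Pool.Agent.CPD

open Matrix

section

variable {G : Type} [Group G] (M : Geo G) {Λ : Type} [Ring Λ] [StarRing Λ]
  (T : G → G → unitary Λ)

theorem f14_op_single (A : Matrix M.I M.I (ZG G)) (x y : G × M.I) :
    op M T A (Finsupp.single x 1) y = (row A x y : Λ) * (T x.1 (x.1⁻¹ * y.1) : Λ) := by
  unfold op
  rw [lo_single, one_smul, bl_apply]

/-- The value of a linear map on a lifted row. -/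
theorem f14_lin (F : Ch M Λ →ₗ[Λ] Ch M Λ) (A : Matrix M.I M.I (ZG G)) (x y : G × M.I) :
    F (op M T A (Finsupp.single x 1)) y = ∑ a ∈ (row A x).support,
      ((row A x a : Λ) * (T x.1 (x.1⁻¹ * a.1) : Λ)) * F (Finsupp.single a 1) y := by
  have e0 : op M T A (Finsupp.single x 1) = bl T x.1 (row A x) := by
    unfold op
    rw [lo_single, one_smul]
  have e1 : bl T x.1 (row A x) = ∑ a ∈ (row A x).support,
      ((row A x a : Λ) * (T x.1 (x.1⁻¹ * a.1) : Λ)) • Finsupp.single a (1 : Λ) := by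
    classical
    ext y
    rw [bl_apply, Finsupp.finsetSum_apply]
    simp only [Finsupp.smul_apply, Finsupp.single_apply, smul_eq_mul, mul_ite, mul_one, mul_zero]
    rw [Finset.sum_ite_eq']
    by_cases hy : y ∈ (row A x).support
    · rw [if_pos hy]
    · rw [if_neg hy, Finsupp.notMem_support_iff.1 hy, Int.cast_zero, zero_mul]
  rw [e0, e1, map_sum, Finsupp.finsetSum_apply]
  apply Finset.sum_congr rfl
  intro a _
  rw [map_smul, Finsupp.smul_apply, smul_eq_mul]

/-- The part of the homotopy on one cell. -/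
noncomputable def thc (m n' N' Q : ℕ) (a y : G × M.I) : Λ :=
  open scoped Classical in
  (if M.L.l a.1 ≤ n' + M.u then Hm M T m (Finsupp.single a 1) y else 0) +
    (if N' ≤ M.L.l a.1 + M.u then Ho M T m Q (Finsupp.single a 1) y else 0)

omit [StarRing Λ] in
theorem f14_cut_single (S : Set (G × M.I)) (a : G × M.I) [Decidable (a ∈ S)] :
    cut S (Finsupp.single a (1 : Λ)) = if a ∈ S then Finsupp.single a 1 else 0 := by
  classical
  ext y
  unfold cut
  by_cases h : a ∈ S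
  · rw [if_pos h]
    by_cases hy : y ∈ S
    · simp [hy]
    · have : a ≠ y := fun e => hy (e ▸ h)
      simp [hy, this]
  · rw [if_neg h]
    by_cases hy : y ∈ S
    · have : a ≠ y := fun e => h (e ▸ hy)
      simp [hy, this]
    · simp [hy]

theorem f14_th (m n' N' Q : ℕ) (x y : G × M.I) :
    th M T m n' N' Q (Finsupp.single x 1) y = ∑ a ∈ (row M.E x).support,
      ((row M.E x a : Λ) * (T x.1 (x.1⁻¹ * a.1) : Λ)) * thc M T m n' N' Q a y := by
  classical
  unfold th
  rw [LinearMap.add_apply, Finsupp.add_apply]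
  have e1 := f14_lin M T (Hm M T m ∘ₗ cut {x : G × M.I | M.L.l x.1 ≤ n' + M.u}) M.E x y
  have e2 := f14_lin M T (Ho M T m Q ∘ₗ cut {x : G × M.I | N' ≤ M.L.l x.1 + M.u}) M.E x y
  have e3 : (Hm M T m ∘ₗ cut {x : G × M.I | M.L.l x.1 ≤ n' + M.u} ∘ₗ op M T M.E)
      (Finsupp.single x 1) y = (Hm M T m ∘ₗ cut {x : G × M.I | M.L.l x.1 ≤ n' + M.u})
      (op M T M.E (Finsupp.single x 1)) y := rfl
  have e4 : (Ho M T m Q ∘ₗ cut {x : G × M.I | N' ≤ M.L.l x.1 + M.u} ∘ₗ op M T M.E)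
      (Finsupp.single x 1) y = (Ho M T m Q ∘ₗ cut {x : G × M.I | N' ≤ M.L.l x.1 + M.u})
      (op M T M.E (Finsupp.single x 1)) y := rfl
  rw [e3, e4, e1, e2, ← Finset.sum_add_distrib]
  apply Finset.sum_congr rfl
  intro a _
  rw [← mul_add]
  congr 1
  unfold thc
  congr 1
  · rw [LinearMap.comp_apply, f14_cut_single]
    by_cases h : M.L.l a.1 ≤ n' + M.u
    · rw [if_pos h, if_pos (show a ∈ {x : G × M.I | M.L.l x.1 ≤ n' + M.u} from h)]
    · rw [if_neg h, if_neg (show a ∉ {x : G × M.I | M.L.l x.1 ≤ n' + M.u} from h), map_zero,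
        Finsupp.zero_apply]
  · rw [LinearMap.comp_apply, f14_cut_single]
    by_cases h : N' ≤ M.L.l a.1 + M.u
    · rw [if_pos h, if_pos (show a ∈ {x : G × M.I | N' ≤ M.L.l x.1 + M.u} from h)]
    · rw [if_neg h, if_neg (show a ∉ {x : G × M.I | N' ≤ M.L.l x.1 + M.u} from h), map_zero,
        Finsupp.zero_apply]

/-- Diagonal entries of the endomorphism. -/
theorem f14_ka (m n' N' Q : ℕ) (x : G × M.I) (S : Finset (G × M.I))
    (hS : ∀ y, th M T m n' N' Q (Finsupp.single x 1) y ≠ 0 → row M.D y x ≠ 0 → y ∈ S) :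
    ka M T m n' N' Q (Finsupp.single x 1) x =
      (row M.E x x : Λ) * (T x.1 (x.1⁻¹ * x.1) : Λ) -
      (∑ y ∈ S, th M T m n' N' Q (Finsupp.single x 1) y *
        ((row M.D y x : Λ) * (T y.1 (y.1⁻¹ * x.1) : Λ))) -
      ∑ y ∈ (row M.D x).support, ((row M.D x y : Λ) * (T x.1 (x.1⁻¹ * y.1) : Λ)) *
        th M T m n' N' Q (Finsupp.single y 1) x := by
  classical
  unfold ka
  rw [LinearMap.sub_apply, LinearMap.sub_apply, Finsupp.sub_apply, Finsupp.sub_apply,
    f14_op_single, LinearMap.comp_apply, LinearMap.comp_apply, f14_lin, f13_op_apply]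
  congr 2
  rw [Finsupp.sum]
  rw [← Finset.sum_filter_add_sum_filter_not
    (th M T m n' N' Q (Finsupp.single x (1 : Λ))).support (fun y => row M.D y x ≠ 0),
    ← Finset.sum_filter_add_sum_filter_not S (fun y => row M.D y x ≠ 0)]
  congr 1
  · apply Finset.sum_subset
    · intro y hy
      rw [Finset.mem_filter, Finsupp.mem_support_iff] at hy
      rw [Finset.mem_filter]
      exact ⟨hS y hy.1 hy.2, hy.2⟩
    · intro y hy hy'
      rw [Finset.mem_filter] at hy hy'
      have : th M T m n' N' Q (Finsupp.single x 1) y = 0 := by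
        by_contra h
        exact hy' ⟨Finsupp.mem_support_iff.2 h, hy.2⟩
      rw [this, zero_mul]
  · rw [Finset.sum_eq_zero, Finset.sum_eq_zero]
    · intro y hy
      rw [Finset.mem_filter, not_not] at hy
      rw [hy.2, Int.cast_zero, zero_mul, mul_zero]
    · intro y hy
      rw [Finset.mem_filter, not_not] at hy
      rw [hy.2, Int.cast_zero, zero_mul, mul_zero]

theorem f14_th_triv (m n' N' Q : ℕ) (x y : G × M.I) :
    th M (triv G ℤ) m n' N' Q (Finsupp.single x 1) y = ∑ a ∈ (row M.E x).support,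
      row M.E x a * thc M (triv G ℤ) m n' N' Q a y := by
  rw [f14_th]
  simp only [triv, OneMemClass.coe_one, mul_one, Int.cast_id]

theorem f14_ka_triv (m n' N' Q : ℕ) (x : G × M.I) (S : Finset (G × M.I))
    (hS : ∀ y, th M (triv G ℤ) m n' N' Q (Finsupp.single x 1) y ≠ 0 → row M.D y x ≠ 0 → y ∈ S) :
    ka M (triv G ℤ) m n' N' Q (Finsupp.single x 1) x =
      row M.E x x -
      (∑ y ∈ S, th M (triv G ℤ) m n' N' Q (Finsupp.single x 1) y * row M.D y x) -
      ∑ y ∈ (row M.D x).support, row M.D x y *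
        th M (triv G ℤ) m n' N' Q (Finsupp.single y 1) x := by
  rw [f14_ka M (triv G ℤ) m n' N' Q x S hS]
  simp only [triv, OneMemClass.coe_one, mul_one, Int.cast_id]

end

/-- **F14.** Trace locality. -/
theorem F14 (h1 : St_F1) (_h7 : St_F7) (h8 : St_F8) (h13 : St_F13) : St_F14 := by
  intro G _ M Λ _ _ T V g0 m hA
  classical
  obtain ⟨N13, h13'⟩ := h13 G M Λ T V g0 m hA
  have hu : M.u = M.c + 1 := rfl
  have hR0 : 10 * M.u ≤ M.R0 := by
    unfold Geo.R0
    nlinarith [Nat.zero_le M.t0, Nat.zero_le M.c, hu]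
  refine ⟨N13 + M.u + 1, ?_⟩
  intro n' N' Q x hN hx
  -- the parts
  have hthc : ∀ a w : G × M.I, OkV M V m a.1 → M.L.l (a.1⁻¹ * w.1) ≤ 2 * M.u →
      thc M T m n' N' Q a w =
        ((thc M (triv G ℤ) m n' N' Q a w : ℤ) : Λ) * (T a.1 (a.1⁻¹ * w.1) : Λ) := by
    intro a w ha haw
    unfold thc
    rw [Int.cast_add, add_mul]
    congr 1
    · by_cases h : M.L.l a.1 ≤ n' + M.u
      · rw [if_pos h, if_pos h]
        exact h8 G M Λ T V m a w hA.good ha (by omega)
      · rw [if_neg h, if_neg h, Int.cast_zero, zero_mul]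
    · by_cases h : N' ≤ M.L.l a.1 + M.u
      · rw [if_pos h, if_pos h]
        exact h13' Q a w (by omega) haw
      · rw [if_neg h, if_neg h, Int.cast_zero, zero_mul]
  have hself : ∀ v : G, M.L.l (v⁻¹ * v) ≤ 3 * M.u := by
    intro v
    rw [inv_mul_cancel, M.L.one]
    exact Nat.zero_le _
  have hsym : ∀ v w : G, M.L.l (v⁻¹ * w) = M.L.l (w⁻¹ * v) := by
    intro v w
    have e1 : v⁻¹ * w = (w⁻¹ * v)⁻¹ := by group
    rw [e1, M.L.inv]
  have htri : ∀ v w z : G, M.L.l (v⁻¹ * z) ≤ M.L.l (v⁻¹ * w) + M.L.l (w⁻¹ * z) := by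
    intro v w z
    have e1 : v⁻¹ * z = (v⁻¹ * w) * (w⁻¹ * z) := by group
    rw [e1]
    exact M.L.mul _ _
  have hmulT : ∀ v w z : G, v ∈ V → M.L.l (v⁻¹ * w) ≤ M.R0 → M.L.l (w⁻¹ * z) ≤ M.R0 →
      (T v (v⁻¹ * w) : Λ) * (T w (w⁻¹ * z) : Λ) = (T v (v⁻¹ * z) : Λ) := by
    intro v w z hv h h'
    have := hA.good v hv (v⁻¹ * w) (w⁻¹ * z) h h'
    rw [mul_inv_cancel_left] at this
    rw [← Submonoid.coe_mul, this]
    congr 2
    group
  have hth : ∀ v w : G × M.I, v.1 ∈ V → (∀ a : G × M.I, M.L.l (v.1⁻¹ * a.1) ≤ M.c →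
      OkV M V m a.1) → M.L.l (v.1⁻¹ * w.1) ≤ M.u →
      th M T m n' N' Q (Finsupp.single v 1) w =
        ((th M (triv G ℤ) m n' N' Q (Finsupp.single v 1) w : ℤ) : Λ) *
          (T v.1 (v.1⁻¹ * w.1) : Λ) := by
    intro v w hv hva hvw
    rw [f14_th, f14_th_triv, Int.cast_sum, Finset.sum_mul]
    apply Finset.sum_congr rfl
    intro a ha
    have hva' : M.L.l (v.1⁻¹ * a.1) ≤ M.c := by
      have h := Finsupp.mem_support_iff.1 ha
      rw [row_apply] at h
      exact M.prop_E _ _ _ h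
    have haw : M.L.l (a.1⁻¹ * w.1) ≤ 2 * M.u := by
      have h := htri a.1 v.1 w.1
      rw [hsym a.1 v.1] at h
      omega
    rw [hthc a w (hva a hva') haw, Int.cast_mul, mul_assoc, mul_assoc,
      ← mul_assoc (T v.1 (v.1⁻¹ * a.1) : Λ), ← (Int.cast_commute _ _).eq, mul_assoc,
      hmulT v.1 a.1 w.1 hv (by omega) (by omega)]
  have hxV : x.1 ∈ V := (hx x.1 (by have := hself x.1; rw [inv_mul_cancel, M.L.one]; omega)
    x.1 (hself x.1)).1
  have hT1 : (T x.1 1 : Λ) = 1 := by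
    obtain ⟨-, -, h, -⟩ := h1 G M.L M.I Λ T M.R0 x.1 (hA.good _ hxV)
    rw [h]
    rfl
  have hback : ∀ y : G, M.L.l (x.1⁻¹ * y) ≤ M.c →
      (T x.1 (x.1⁻¹ * y) : Λ) * (T y (y⁻¹ * x.1) : Λ) = 1 := by
    intro y hy
    rw [hmulT x.1 y x.1 hxV (by omega) (by rw [hsym y x.1]; omega), inv_mul_cancel, hT1]
  set S : Finset (G × M.I) := (th M T m n' N' Q (Finsupp.single x 1)).support ∪
    (th M (triv G ℤ) m n' N' Q (Finsupp.single x 1)).support with hS
  rw [f14_ka M T m n' N' Q x S (fun y hy _ => by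
      rw [hS, Finset.mem_union]
      exact Or.inl (Finsupp.mem_support_iff.2 hy)),
    f14_ka_triv M m n' N' Q x S (fun y hy _ => by
      rw [hS, Finset.mem_union]
      exact Or.inr (Finsupp.mem_support_iff.2 hy)),
    Int.cast_sub, Int.cast_sub, inv_mul_cancel, hT1, mul_one, Int.cast_sum, Int.cast_sum]
  congr 1
  · congr 1
    apply Finset.sum_congr rfl
    intro y _
    by_cases hy : row M.D y x = 0
    · rw [hy, Int.cast_zero, zero_mul, mul_zero, mul_zero, Int.cast_zero]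
    · have hyx : M.L.l (y.1⁻¹ * x.1) ≤ M.c := by
        rw [row_apply] at hy
        exact M.prop_D _ _ _ hy
      rw [hsym] at hyx
      rw [hth x y hxV (fun a ha => hx a.1 (by omega)) (by omega), Int.cast_mul, mul_assoc,
        ← mul_assoc (T x.1 (x.1⁻¹ * y.1) : Λ), ← (Int.cast_commute _ _).eq, mul_assoc,
        hback y.1 hyx, mul_one]
  · apply Finset.sum_congr rfl
    intro y hy
    have hxy : M.L.l (x.1⁻¹ * y.1) ≤ M.c := by
      have h := Finsupp.mem_support_iff.1 hy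
      rw [row_apply] at h
      exact M.prop_D _ _ _ h
    rw [hth y x (hx y.1 (by omega) y.1 (hself y.1)).1 (fun a ha => hx a.1 (by
        have := htri x.1 y.1 a.1
        omega)) (by rw [hsym]; omega), Int.cast_mul, mul_assoc,
      ← mul_assoc (T x.1 (x.1⁻¹ * y.1) : Λ), ← (Int.cast_commute _ _).eq, mul_assoc,
      hback y.1 hxy, mul_one]

end Pool.Agent.CPD
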