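import Pool.Agent.CPD.StF

/-!
# F2 : the ladder
-/

set_option autoImplicit false

namespace Pool.Agent.CPD

open Matrix

theorem F2_fellow {G : Type} [Group G] (M : Geo G) (i : ℕ) : ∀ (n : ℕ) (x y : G),
    M.L.l (x⁻¹ * y) = n → M.L.l ((M.σ x i)⁻¹ * M.σ y i) ≤ M.c * n := by
  intro n
  induction n with
  | zero =>
    intro x y h
    have h1 := M.L.eq_one _ h
    have h2 : x = y := by rwa [inv_mul_eq_one] at h1
    rw [h2, inv_mul_cancel, M.L.one]
    exact Nat.zero_le _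
  | succ n ih =>
    intro x y h
    obtain ⟨s, hs, hs'⟩ := M.L.path _ _ h
    rw [mul_assoc] at hs'
    have h1 := ih x (y * s) hs'
    have h2 : M.L.l ((y * s)⁻¹ * y) ≤ 1 := by
      rw [_root_.mul_inv_rev, inv_mul_cancel_right, M.L.inv, hs]
    have h3 := M.fellow (y * s) y i h2
    have h4 : (M.σ x i)⁻¹ * M.σ y i = ((M.σ x i)⁻¹ * M.σ (y * s) i) *
        ((M.σ (y * s) i)⁻¹ * M.σ y i) := by
      rw [mul_assoc, mul_inv_cancel_left]
    rw [h4]
    refine le_trans (M.L.mul _ _) ?_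
    rw [Nat.mul_succ]
    exact Nat.add_le_add h1 h3

/-- **F2.** The ladder. -/
theorem F2 (h0 : St_F0) (_h1 : St_F1) : St_F2 := by
  intro G _ M Λ _ _ T V hV
  obtain ⟨-, -, -, hU, hU', -, -⟩ := h0 G M Λ T
  have hfel : ∀ x y i, M.L.l ((M.σ x i)⁻¹ * M.σ y i) ≤ M.c * M.L.l (x⁻¹ * y) :=
    fun x y i => F2_fellow M i _ x y rfl
  refine ⟨hfel, ?_⟩
  intro x y j hxy hσ
  have hR0 : M.c * M.u + 1 ≤ M.R0 := by
    unfold Geo.R0 Geo.u
    nlinarith [Nat.zero_le M.t0, Nat.zero_le M.c, Nat.zero_le (M.c ^ 2)]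
  have hm : ∀ v a b : G, v ∈ V → M.L.l (v⁻¹ * a) ≤ M.R0 → M.L.l (a⁻¹ * b) ≤ M.R0 →
      T v (v⁻¹ * a) * T a (a⁻¹ * b) = T v (v⁻¹ * b) := by
    intro v a b hv ha hb
    have h2 := hV v hv (v⁻¹ * a) (a⁻¹ * b) ha hb
    rwa [mul_inv_cancel_left, mul_assoc, mul_inv_cancel_left] at h2
  have hstep : ∀ z i, M.L.l ((M.σ z i)⁻¹ * M.σ z (i + 1)) ≤ M.R0 := fun z i =>
    le_trans (M.step z i) (by omega)
  have hacr : ∀ i, M.L.l ((M.σ x i)⁻¹ * M.σ y i) ≤ M.R0 := fun i =>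
    le_trans (hfel x y i) (le_trans (Nat.mul_le_mul_left _ hxy) (by omega))
  have key : ∀ k j, max (M.τ x) (M.τ y) ≤ j + k → (∀ i, j ≤ i → M.σ x i ∈ V ∧ M.σ y i ∈ V) →
      (U M T j x)⁻¹ * T x (x⁻¹ * y) =
        T (M.σ x j) ((M.σ x j)⁻¹ * M.σ y j) * (U M T j y)⁻¹ := by
    intro k
    induction k with
    | zero =>
      intro j hj _
      have e1 : M.τ x ≤ j := le_trans (le_max_left _ _) hj
      have e2 : M.τ y ≤ j := le_trans (le_max_right _ _) hj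
      rw [hU j x e1, hU j y e2, M.stop x j e1, M.stop y j e2, inv_one, one_mul, mul_one]
    | succ k ih =>
      intro j hj hs
      have e1 := ih (j + 1) (by omega) (fun i hi => hs i (by omega))
      have e2 := hU' j x (hV _ (hs j le_rfl).1)
      have e3 := hU' j y (hV _ (hs j le_rfl).2)
      rw [e2, e3, mul_assoc, e1, ← mul_assoc, ← mul_assoc,
        hm _ _ _ (hs j le_rfl).1 (hstep x j) (hacr (j + 1)),
        hm _ _ _ (hs j le_rfl).1 (hacr j) (hstep y j)]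
  have e := key (max (M.τ x) (M.τ y)) j (Nat.le_add_left _ _) hσ
  rw [inv_mul_eq_iff_eq_mul] at e
  rw [e, mul_assoc, inv_mul_cancel_right]

end Pool.Agent.CPD
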