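import Pool.Agent.CPD.StF

/-!
# F3 : calculus at a fixed time
-/

set_option autoImplicit false

namespace Pool.Agent.CPD

open Matrix

section

variable {G : Type} [Group G] {I : Type} {Λ : Type} [Ring Λ] [StarRing Λ]
  (T : G → G → unitary Λ) (b : G)

theorem f3_bl_zsmul (n : ℤ) (c : (G × I) →₀ ℤ) : bl T b (n • c) = (n : Λ) • bl T b c := by
  ext y
  rw [bl_apply, Finsupp.smul_apply, Finsupp.smul_apply, bl_apply, smul_eq_mul, smul_eq_mul,
    Int.cast_mul, mul_assoc]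

theorem f3_bl_sum {α : Type} (s : Finset α) (g : α → ((G × I) →₀ ℤ)) :
    bl T b (∑ a ∈ s, g a) = ∑ a ∈ s, bl T b (g a) := by
  classical
  induction s using Finset.induction_on with
  | empty => rw [Finset.sum_empty, Finset.sum_empty, bl_zero]
  | insert a s ha ih => rw [Finset.sum_insert ha, Finset.sum_insert ha, bl_add, ih]

theorem f3_lc (c : (G × I) →₀ ℤ) (v : G × I → ((G × I) →₀ Λ)) :
    Finsupp.linearCombination Λ v (bl T b c) =
      ∑ z ∈ c.support, ((c z : Λ) * (T b (b⁻¹ * z.1) : Λ)) • v z := by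
  rw [Finsupp.linearCombination_apply]
  unfold bl
  rw [Finsupp.onFinset_sum]
  intro z
  rw [zero_smul]

end

/-- **F3.** Calculus at a fixed time. -/
theorem F3 (h0 : St_F0) (h1 : St_F1) (h2 : St_F2) : St_F3 := by
  intro G _ M Λ _ _ T V m j x hV hx hj A f hA hf
  classical
  obtain ⟨h2a, h2b⟩ := h2 G M Λ T V hV
  have hR0 : M.c + 1 ≤ M.R0 := by
    unfold Geo.R0 Geo.u
    nlinarith [Nat.zero_le M.t0, Nat.zero_le M.c, Nat.zero_le (M.c ^ 2)]
  have hR1 : M.c * M.c ≤ M.R0 := by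
    unfold Geo.R0 Geo.u
    nlinarith [Nat.zero_le M.t0, Nat.zero_le M.c, Nat.zero_le (M.c ^ 2)]
  have hu : M.u = M.c + 1 := rfl
  have hxx : M.L.l (x.1⁻¹ * x.1) ≤ 3 * M.u := by
    rw [inv_mul_cancel, M.L.one]
    exact Nat.zero_le _
  have hσV : ∀ i, m ≤ i → M.σ x.1 i ∈ V := (hx x.1 hxx).2
  obtain ⟨hb1, hb2, -, -⟩ := h1 G M.L M.I Λ T M.R0 (M.σ x.1 j) (hV _ (hσV j hj))
  constructor
  · rw [map_smul]
    congr 1
    exact hb1 A (f x) (fun i k g h => le_trans (hA i k g h) (by omega))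
      (fun y hy => le_trans (hf x y hy) (by omega))
  · have e0 : op M T A (Finsupp.single x 1) = bl T x.1 (row A x) := by
      unfold op
      rw [lo_single, one_smul]
    rw [e0, f3_lc]
    have e1 : ext f (row A x) = ∑ z ∈ (row A x).support, (row A x z) • f z := by
      unfold ext
      rw [Finsupp.linearCombination_apply, Finsupp.sum]
    rw [e1, f3_bl_sum, Finset.smul_sum]
    apply Finset.sum_congr rfl
    intro z hz
    have hz1 : (A x.2 z.2).coeff (x.1⁻¹ * z.1) ≠ 0 := by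
      rw [← row_apply]
      exact Finsupp.mem_support_iff.1 hz
    have hz2 : M.L.l (x.1⁻¹ * z.1) ≤ M.c := hA _ _ _ hz1
    have e2 := h2b x.1 z.1 j (by omega) (fun i hi => ⟨hσV i (by omega),
      (hx z.1 (by omega)).2 i (by omega)⟩)
    have hz3 : M.L.l ((M.σ x.1 j)⁻¹ * M.σ z.1 j) ≤ M.R0 :=
      le_trans (h2a x.1 z.1 j) (le_trans (Nat.mul_le_mul_left _ hz2) hR1)
    have e3 := hb2 (M.σ z.1 j) (f z) hz3 (fun y hy => le_trans (hf z y hy) (by omega))
    have e4 : (T x.1 (x.1⁻¹ * z.1) : Λ) * (U M T j z.1 : Λ) =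
        (U M T j x.1 : Λ) * (T (M.σ x.1 j) ((M.σ x.1 j)⁻¹ * M.σ z.1 j) : Λ) := by
      rw [← Submonoid.coe_mul, ← Submonoid.coe_mul, e2]
    rw [smul_smul, mul_assoc, e4, f3_bl_zsmul, ← e3, smul_smul, smul_smul]
    congr 1
    rw [← mul_assoc, (Int.cast_commute _ _).eq, mul_assoc]

end Pool.Agent.CPD
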