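import Pool.Agent.CPD.StF

/-!
# F4 : the lifted flow identity
-/

set_option autoImplicit false

namespace Pool.Agent.CPD

open Matrix

section

variable {G : Type} [Group G] (M : Geo G)

theorem f4_JJ (x y : G) (h : M.L.l (x⁻¹ * y) ≤ M.c) : M.τ y ≤ JJ M x := by
  have h1 : x⁻¹ * y ∈ M.L.ball M.c := (M.L.mem_ball _ _).2 h
  have h2 := Finset.le_sup (f := fun g => M.τ (x * g)) h1
  have h3 : M.τ (x * (x⁻¹ * y)) ≤ JJ M x := h2
  rwa [mul_inv_cancel_left] at h3

theorem f4_JJ_self (x : G) : M.τ x ≤ JJ M x := by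
  apply f4_JJ
  rw [inv_mul_cancel, M.L.one]
  exact Nat.zero_le _

variable {Λ : Type} [Ring Λ] [StarRing Λ] (T : G → G → unitary Λ)

theorem f4_hT_zero (j : ℕ) (x : G × M.I) (h : JJ M x.1 ≤ j) : hT M T j x = 0 := by
  unfold hT
  rw [M.f_hfin j x (fun y hy => le_trans (f4_JJ M x.1 y hy) h), bl_zero, smul_zero]

theorem f4_sum_ext (m J : ℕ) (x : G × M.I) (h : JJ M x.1 ≤ J) :
    ∑ j ∈ Finset.Ico m (JJ M x.1), hT M T j x = ∑ j ∈ Finset.Ico m J, hT M T j x := by
  apply Finset.sum_subset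
  · intro j hj
    rw [Finset.mem_Ico] at hj ⊢
    exact ⟨hj.1, lt_of_lt_of_le hj.2 h⟩
  · intro j hj hj'
    rw [Finset.mem_Ico] at hj hj'
    apply f4_hT_zero
    by_contra hlt
    exact hj' ⟨hj.1, not_le.1 hlt⟩

theorem f4_Hm_single (m J : ℕ) (x : G × M.I) (h : JJ M x.1 ≤ J) :
    Hm M T m (Finsupp.single x 1) = ∑ j ∈ Finset.Ico m J, hT M T j x := by
  unfold Hm
  rw [Finsupp.linearCombination_single, one_smul]
  exact f4_sum_ext M T m J x h

theorem f4_Hm_chain (m J : ℕ) (a : Ch M Λ) (h : ∀ z, a z ≠ 0 → JJ M z.1 ≤ J) :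
    Hm M T m a = ∑ j ∈ Finset.Ico m J, Finsupp.linearCombination Λ (hT M T j) a := by
  unfold Hm
  rw [Finsupp.linearCombination_apply, Finsupp.sum]
  have h1 : ∀ j ∈ Finset.Ico m J, Finsupp.linearCombination Λ (hT M T j) a =
      ∑ z ∈ a.support, a z • hT M T j z := fun j _ => by
    rw [Finsupp.linearCombination_apply, Finsupp.sum]
  rw [Finset.sum_congr rfl h1, Finset.sum_comm]
  apply Finset.sum_congr rfl
  intro z hz
  rw [f4_sum_ext M T m J z (h z (Finsupp.mem_support_iff.1 hz)), Finset.smul_sum]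

end

/-- **F4.** The lifted flow identity. -/
theorem F4 (h0 : St_F0) (h1 : St_F1) (_h2 : St_F2) (h3 : St_F3) : St_F4 := by
  intro G _ M Λ _ _ T V m x hV hx
  classical
  obtain ⟨⟨hFD, hFE, -⟩, -, -, hU1, hU2, -, -⟩ := h0 G M Λ T
  have hR0 : M.c + 1 ≤ M.R0 := by
    unfold Geo.R0 Geo.u
    nlinarith [Nat.zero_le M.t0, Nat.zero_le M.c, Nat.zero_le (M.c ^ 2)]
  have hxx : M.L.l (x.1⁻¹ * x.1) ≤ 3 * M.u := by
    rw [inv_mul_cancel, M.L.one]
    exact Nat.zero_le _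
  have hσV : ∀ j, m ≤ j → M.σ x.1 j ∈ V := (hx x.1 hxx).2
  -- transport of the base point
  have htr : ∀ j, m ≤ j → ∀ c : (G × M.I) →₀ ℤ,
      (∀ y, c y ≠ 0 → M.L.l ((M.σ x.1 (j + 1))⁻¹ * y.1) ≤ M.c) →
      (U M T (j + 1) x.1 : Λ) • bl T (M.σ x.1 (j + 1)) c =
        (U M T j x.1 : Λ) • bl T (M.σ x.1 j) c := by
    intro j hj c hc
    have hg : GoodAt M.L T M.R0 (M.σ x.1 j) := hV _ (hσV j hj)
    obtain ⟨-, hb2, -, -⟩ := h1 G M.L M.I Λ T M.R0 (M.σ x.1 j) hg
    have e1 := hb2 (M.σ x.1 (j + 1)) c (le_trans (M.step x.1 j) (by omega))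
      (fun y hy => le_trans (hc y hy) (by omega))
    have e2 := hU2 j x.1 hg
    have e3 : U M T (j + 1) x.1 =
        U M T j x.1 * T (M.σ x.1 j) ((M.σ x.1 j)⁻¹ * M.σ x.1 (j + 1)) := by
      have e4 : U M T j x.1 * (U M T j x.1)⁻¹ * U M T (j + 1) x.1 =
          U M T j x.1 * (T (M.σ x.1 j) ((M.σ x.1 j)⁻¹ * M.σ x.1 (j + 1)) *
            (U M T (j + 1) x.1)⁻¹) * U M T (j + 1) x.1 := by rw [← e2]
      rw [mul_inv_cancel, one_mul] at e4
      rw [e4]
      group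
    rw [← e1, smul_smul, e3, Submonoid.coe_mul]
  -- one step
  have hstep : ∀ j, m ≤ j → rT M T (j + 1) x - rT M T j x =
      op M T M.D (hT M T j x) +
        Finsupp.linearCombination Λ (hT M T j) (op M T M.D (Finsupp.single x 1)) := by
    intro j hj
    obtain ⟨ea, eb⟩ := h3 G M Λ T V m j x hV hx hj M.D (M.hh j) hFD
      (fun z y hy => M.f_hsup j z y hy)
    have e1 : rT M T (j + 1) x = (U M T j x.1 : Λ) • bl T (M.σ x.1 j) (M.rr (j + 1) x) :=
      htr j hj _ (fun y hy => M.f_rsup (j + 1) x y hy)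
    have e2 : op M T M.D (hT M T j x) =
        (U M T j x.1 : Λ) • bl T (M.σ x.1 j) (opZ M.D (M.hh j x)) := ea
    have e3 : Finsupp.linearCombination Λ (hT M T j) (op M T M.D (Finsupp.single x 1)) =
        (U M T j x.1 : Λ) • bl T (M.σ x.1 j) (ext (M.hh j) (row M.D x)) := eb
    rw [e1, e2, e3, ← smul_add, ← bl_add, ← M.f_id j x]
    have e4 : bl T (M.σ x.1 j) (M.rr (j + 1) x) =
        bl T (M.σ x.1 j) (M.rr (j + 1) x - M.rr j x) + bl T (M.σ x.1 j) (M.rr j x) := by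
      rw [← bl_add, sub_add_cancel]
    rw [e4, smul_add]
    unfold rT
    rw [add_sub_cancel_right]
  -- telescoping
  have htel : ∀ n, rT M T (m + n) x - rT M T m x =
      ∑ j ∈ Finset.Ico m (m + n), (op M T M.D (hT M T j x) +
        Finsupp.linearCombination Λ (hT M T j) (op M T M.D (Finsupp.single x 1))) := by
    intro n
    induction n with
    | zero => rw [add_zero, Finset.Ico_self, Finset.sum_empty, sub_self]
    | succ n ih =>
      rw [← add_assoc, Finset.sum_Ico_succ_top (by omega), ← ih, ← hstep (m + n) (by omega)]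
      abel
  -- the bound
  obtain ⟨J, hJ⟩ : ∃ J, JJ M x.1 ≤ m + J ∧
      ∀ z, op M T M.D (Finsupp.single x 1) z ≠ 0 → JJ M z.1 ≤ m + J := by
    refine ⟨JJ M x.1 +
      (op M T M.D (Finsupp.single x (1 : Λ))).support.sup (fun z => JJ M z.1), by omega, ?_⟩
    intro z hz
    have := Finset.le_sup (f := fun z : G × M.I => JJ M z.1) (Finsupp.mem_support_iff.2 hz)
    have h' : JJ M z.1 ≤ (op M T M.D (Finsupp.single x (1 : Λ))).support.sup
      (fun z => JJ M z.1) := this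
    omega
  have hτ : M.τ x.1 ≤ m + J := le_trans (f4_JJ_self M x.1) hJ.1
  have e1 := htel J
  rw [Finset.sum_add_distrib, ← map_sum, ← f4_Hm_single M T m (m + J) x hJ.1,
    ← f4_Hm_chain M T m (m + J) _ hJ.2] at e1
  have e2 : rT M T (m + J) x = op M T M.E (Finsupp.single x 1) := by
    unfold rT op
    rw [hU1 (m + J) x.1 hτ, lo_single, M.stop x.1 (m + J) hτ,
      M.f_rfin (m + J) x (fun y hy => le_trans (f4_JJ M x.1 y hy) hJ.1)]
    simp
  have e3 : rm M T m (Finsupp.single x 1) = rT M T m x := by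
    unfold rm
    rw [Finsupp.linearCombination_single, one_smul]
  rw [← e2, e3]
  exact e1

end Pool.Agent.CPD
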