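import Pool.Agent.CPD.F4

/-!
# F5 : the idempotent is absorbed by the inward flow
-/

set_option autoImplicit false

namespace Pool.Agent.CPD

open Matrix

/-- **F5.** `E` is absorbed by `Hm` and `rm`. -/
theorem F5 (h0 : St_F0) (_h1 : St_F1) (_h2 : St_F2) (h3 : St_F3) : St_F5 := by
  intro G _ M Λ _ _ T V m x hV hx
  classical
  obtain ⟨⟨-, hFE, -⟩, -⟩ := h0 G M Λ T
  have hh := fun j (hj : m ≤ j) => h3 G M Λ T V m j x hV hx hj M.E (M.hh j) hFE
    (fun z y hy => M.f_hsup j z y hy)
  have hr := h3 G M Λ T V m m x hV hx le_rfl M.E (M.rr m) hFE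
    (fun z y hy => M.f_rsup m z y hy)
  have hE1 : ∀ j, m ≤ j → op M T M.E (hT M T j x) = hT M T j x := by
    intro j hj
    have := (hh j hj).1
    rw [M.f_Eh] at this
    exact this
  have hE2 : ∀ j, m ≤ j →
      Finsupp.linearCombination Λ (hT M T j) (op M T M.E (Finsupp.single x 1)) = hT M T j x := by
    intro j hj
    have := (hh j hj).2
    rw [M.f_hE] at this
    exact this
  have hr0 : rm M T m (Finsupp.single x 1) = rT M T m x := by
    unfold rm
    rw [Finsupp.linearCombination_single, one_smul]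
  refine ⟨?_, ?_, ?_, ?_⟩
  · rw [f4_Hm_single M T m (JJ M x.1) x le_rfl, map_sum]
    apply Finset.sum_congr rfl
    intro j hj
    exact hE1 j (Finset.mem_Ico.1 hj).1
  · obtain ⟨J, hJ1, hJ2⟩ : ∃ J, JJ M x.1 ≤ J ∧
        ∀ z, op M T M.E (Finsupp.single x 1) z ≠ 0 → JJ M z.1 ≤ J := by
      refine ⟨JJ M x.1 +
        (op M T M.E (Finsupp.single x (1 : Λ))).support.sup (fun z => JJ M z.1), by omega, ?_⟩
      intro z hz
      have := Finset.le_sup (f := fun z : G × M.I => JJ M z.1) (Finsupp.mem_support_iff.2 hz)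
      have h' : JJ M z.1 ≤ (op M T M.E (Finsupp.single x (1 : Λ))).support.sup
        (fun z => JJ M z.1) := this
      omega
    rw [f4_Hm_chain M T m J _ hJ2, f4_Hm_single M T m J x hJ1]
    apply Finset.sum_congr rfl
    intro j hj
    exact hE2 j (Finset.mem_Ico.1 hj).1
  · rw [hr0]
    have := hr.1
    rw [M.f_Er] at this
    exact this
  · rw [hr0]
    have := hr.2
    rw [M.f_rE] at this
    exact this

end Pool.Agent.CPD
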