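import Pool.Agent.CPD.StF
import Pool.Agent.CPD.E1

/-!
# CPD, F6: composition of lifts
-/

set_option autoImplicit false

namespace Pool.Agent.CPD

open Matrix

private theorem F6_row_mul {G I : Type} [Group G] [Fintype I] [DecidableEq I]
    (A B : Matrix I I (ZG G)) (x : G × I) : opZ B (row A x) = row (A * B) x := by
  have h2 := (E1 G I).2.2.2.2.2.1 A B (Finsupp.single x 1)
  have h3 : ∀ C : Matrix I I (ZG G), opZ C (Finsupp.single x 1) = row C x := by
    intro C
    unfold opZ
    rw [Finsupp.linearCombination_single, one_smul]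
  rw [h3, h3] at h2
  exact h2.symm

private theorem F6_row_add {G I : Type} [Group G] [Fintype I]
    (A B : Matrix I I (ZG G)) (x : G × I) : row (A + B) x = row A x + row B x := by
  ext y
  rw [Finsupp.add_apply, row_apply, row_apply, row_apply, Matrix.add_apply,
    MonoidAlgebra.coeff_add, Finsupp.add_apply]

private theorem F6_row_sub {G I : Type} [Group G] [Fintype I]
    (A B : Matrix I I (ZG G)) (x : G × I) : row (A - B) x = row A x - row B x := by
  have h := F6_row_add (A - B) B x
  rw [sub_add_cancel] at h
  rw [h, add_sub_cancel_right]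

private theorem F6_row_zero {G I : Type} [Group G] [Fintype I] (x : G × I) :
    row (0 : Matrix I I (ZG G)) x = 0 := by
  ext y
  rw [row_apply]
  rfl

private theorem F6_bl_sub {G I Λ : Type} [Group G] [Ring Λ] [StarRing Λ] (T : G → G → unitary Λ)
    (b : G) (c c' : (G × I) →₀ ℤ) : bl T b (c - c') = bl T b c - bl T b c' := by
  have h := bl_add T b (c - c') c'
  rw [sub_add_cancel] at h
  rw [h, add_sub_cancel_right]

theorem F6 (_ : St_F0) (h1 : St_F1) : St_F6 := by
  intro G _ M Λ _ _ T V hV
  have hR : M.c ≤ M.R0 := by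
    unfold Geo.R0 Geo.u
    nlinarith
  have hext : ∀ (A : Matrix M.I M.I (ZG G)) (a : Ch M Λ),
      op M T A a = a.sum fun x l => l • bl T x.1 (row A x) := by
    intro A a
    unfold op lo
    rw [Finsupp.linearCombination_apply]
  refine ⟨?_, ?_, ?_⟩
  · intro A B a hA hB ha
    have h2 : ∀ x ∈ a.support, op M T B (bl T x.1 (row A x)) = bl T x.1 (row (A * B) x) := by
      intro x hx
      have hgood := hV x.1 (ha x (Finsupp.mem_support_iff.mp hx))
      have h3 := (h1 G M.L M.I Λ T M.R0 x.1 hgood).1 B (row A x)
        (fun i j g hg => (hB i j g hg).trans hR)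
        (fun y hy => by
          rw [row_apply] at hy
          exact (hA _ _ _ hy).trans hR)
      rw [F6_row_mul] at h3
      exact h3
    rw [hext A a, hext (A * B) a, Finsupp.sum, Finsupp.sum, map_sum]
    refine Finset.sum_congr rfl fun x hx => ?_
    rw [map_smul, h2 x hx]
  · intro A B a
    rw [hext, hext, hext, hext, Finsupp.sum, Finsupp.sum, Finsupp.sum, Finsupp.sum]
    constructor
    · rw [← Finset.sum_add_distrib]
      refine Finset.sum_congr rfl fun x _ => ?_
      rw [F6_row_add, bl_add, smul_add]
    · rw [← Finset.sum_sub_distrib]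
      refine Finset.sum_congr rfl fun x _ => ?_
      rw [F6_row_sub, F6_bl_sub, smul_sub]
  · intro a
    rw [hext, Finsupp.sum]
    refine Finset.sum_eq_zero fun x _ => ?_
    rw [F6_row_zero, bl_zero, smul_zero]

end Pool.Agent.CPD
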