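import Pool.Agent.CPD.StF

/-!
# F7 : supports and degrees
-/

set_option autoImplicit false

namespace Pool.Agent.CPD

open Matrix

theorem F7_op {G : Type} [Group G] (M : Geo G) {Λ : Type} [Ring Λ] [StarRing Λ]
    (T : G → G → unitary Λ) (A : Matrix M.I M.I (ZG G)) (x y : G × M.I) :
    op M T A (Finsupp.single x 1) y =
      (((A x.2 y.2).coeff (x.1⁻¹ * y.1) : ℤ) : Λ) * (T x.1 (x.1⁻¹ * y.1) : Λ) := by
  rw [op, lo_single, one_smul, bl_apply, row_apply]

theorem F7_JJ {G : Type} [Group G] (M : Geo G) (x : G) (j : ℕ) (hj : JJ M x ≤ j) (y : G)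
    (hy : M.L.l (x⁻¹ * y) ≤ M.c) : M.τ y ≤ j := by
  refine le_trans ?_ hj
  have h1 : x⁻¹ * y ∈ M.L.ball M.c := (M.L.mem_ball _ _).2 hy
  have h2 := Finset.le_sup (f := fun g => M.τ (x * g)) h1
  have h3 : x * (x⁻¹ * y) = y := mul_inv_cancel_left x y
  simp only [h3] at h2
  exact h2

theorem F7 : St_F7 := by
  intro G _ M Λ _ _ T m
  refine ⟨?_, ?_, ?_, ?_, ?_⟩
  · intro A x y h h0
    apply h
    rw [F7_op, h0, Int.cast_zero, zero_mul]
  · exact F7_op M T
  · intro x y h
    have h1 : M.rr m x y ≠ 0 := by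
      intro h0
      apply h
      rw [rm, Finsupp.linearCombination_single, one_smul, rT, Finsupp.smul_apply, bl_apply, h0,
        Int.cast_zero, zero_mul, smul_zero]
    exact ⟨M.f_rsup m x y h1, M.f_rdeg m x y h1⟩
  · intro x y h
    rw [Hm, Finsupp.linearCombination_single, one_smul, Finsupp.finsetSum_apply] at h
    obtain ⟨j, hj, hne⟩ := Finset.exists_ne_zero_of_sum_ne_zero h
    have h1 : M.hh j x y ≠ 0 := by
      intro h0
      apply hne
      rw [hT, Finsupp.smul_apply, bl_apply, h0, Int.cast_zero, zero_mul, smul_zero]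
    exact ⟨j, (Finset.mem_Ico.1 hj).1, h1, M.f_hsup j x y h1, M.f_hdeg j x y h1⟩
  · intro n
    classical
    let B : Finset (G × M.I) := M.L.ball n ×ˢ Finset.univ
    refine ⟨B.sup fun x => (Finset.range (JJ M x.1 + 1)).sup fun j =>
      ((M.hh j x).support ∪ (M.rr j x).support).sup fun y => M.L.l y.1, ?_⟩
    intro x y j hx hy
    have hxB : x ∈ B := Finset.mem_product.2 ⟨(M.L.mem_ball _ _).2 hx, Finset.mem_univ _⟩
    have key : ∃ i ∈ Finset.range (JJ M x.1 + 1), y ∈ (M.hh i x).support ∪ (M.rr i x).support := by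
      by_cases hj : j ≤ JJ M x.1
      · refine ⟨j, Finset.mem_range.2 (by omega), ?_⟩
        rw [Finset.mem_union, Finsupp.mem_support_iff, Finsupp.mem_support_iff]
        exact hy
      · refine ⟨JJ M x.1, Finset.mem_range.2 (by omega), ?_⟩
        rw [Finset.mem_union, Finsupp.mem_support_iff, Finsupp.mem_support_iff]
        right
        rw [M.f_rfin _ x (F7_JJ M x.1 _ le_rfl)]
        rcases hy with hy | hy
        · rw [M.f_hfin _ x (F7_JJ M x.1 _ (by omega))] at hy
          exact absurd rfl hy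
        · rw [M.f_rfin _ x (F7_JJ M x.1 _ (by omega))] at hy
          exact hy
    obtain ⟨i, hi, hyi⟩ := key
    have h1 := Finset.le_sup (f := fun y : G × M.I => M.L.l y.1) hyi
    have h2 := Finset.le_sup (f := fun i => ((M.hh i x).support ∪ (M.rr i x).support).sup
      fun y => M.L.l y.1) hi
    have h3 := Finset.le_sup (f := fun x : G × M.I => (Finset.range (JJ M x.1 + 1)).sup fun j =>
      ((M.hh j x).support ∪ (M.rr j x).support).sup fun y => M.L.l y.1) hxB
    exact (h1.trans h2).trans h3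

end Pool.Agent.CPD
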