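import Pool.Agent.CPD.F4

/-!
# F8 : entries of the inward flow near the diagonal
-/

set_option autoImplicit false

namespace Pool.Agent.CPD

open Matrix

section

variable {G : Type} [Group G]

theorem f8_tr_triv (Λ : Type) [Ring Λ] [StarRing Λ] (p : ℕ → G) (n : ℕ) :
    ∀ a, tr (triv G Λ) p a n = 1 := by
  induction n with
  | zero => intro a; rfl
  | succ n ih =>
    intro a
    change triv G Λ (p a) ((p a)⁻¹ * p (a + 1)) * tr (triv G Λ) p (a + 1) n = 1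
    rw [ih (a + 1), mul_one]
    rfl

theorem f8_U_triv (M : Geo G) (Λ : Type) [Ring Λ] [StarRing Λ] (j : ℕ) (x : G) :
    U M (triv G Λ) j x = 1 := by
  unfold U
  rw [f8_tr_triv, inv_one]

theorem f8_hT_triv (M : Geo G) (j : ℕ) (x y : G × M.I) :
    hT M (triv G ℤ) j x y = M.hh j x y := by
  unfold hT
  rw [f8_U_triv, Finsupp.smul_apply, bl_apply]
  simp [triv]

theorem f8_rT_triv (M : Geo G) (j : ℕ) (x y : G × M.I) :
    rT M (triv G ℤ) j x y = M.rr j x y := by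
  unfold rT
  rw [f8_U_triv, Finsupp.smul_apply, bl_apply]
  simp [triv]

end

/-- **F8.** Entries of the inward flow near the diagonal. -/
theorem F8 (h0 : St_F0) (h1 : St_F1) : St_F8 := by
  intro G _ M Λ _ _ T V m x y hV hx hxy
  classical
  obtain ⟨-, -, hpr, hU1, -, -, -⟩ := h0 G M Λ T
  have hu : M.u = M.c + 1 := rfl
  have hR0 : 10 * M.u ≤ M.R0 := by
    unfold Geo.R0
    nlinarith [Nat.zero_le M.t0, Nat.zero_le M.c, hu]
  have hR1 : M.t0 ≤ M.R0 := by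
    unfold Geo.R0
    omega
  have hxx : M.L.l (x.1⁻¹ * x.1) ≤ 3 * M.u := by
    rw [inv_mul_cancel, M.L.one]
    exact Nat.zero_le _
  have hσV : ∀ i, m ≤ i → M.σ x.1 i ∈ V := (hx x.1 hxx).2
  rw [f4_Hm_single M T m (JJ M x.1) x le_rfl, f4_Hm_single M (triv G ℤ) m (JJ M x.1) x le_rfl,
    Finsupp.finsetSum_apply, Finsupp.finsetSum_apply, Int.cast_sum, Finset.sum_mul]
  apply Finset.sum_congr rfl
  intro j hj
  have hmj : m ≤ j := (Finset.mem_Ico.1 hj).1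
  rw [f8_hT_triv]
  have e0 : hT M T j x y = (U M T j x.1 : Λ) * ((M.hh j x y : Λ) *
      (T (M.σ x.1 j) ((M.σ x.1 j)⁻¹ * y.1) : Λ)) := by
    unfold hT
    rw [Finsupp.smul_apply, bl_apply, smul_eq_mul]
  rw [e0]
  by_cases hz : M.hh j x y = 0
  · rw [hz, Int.cast_zero, zero_mul, zero_mul, mul_zero]
  · have hby : M.L.l ((M.σ x.1 j)⁻¹ * y.1) ≤ M.c := M.f_hsup j x y hz
    have hbx : M.L.l ((M.σ x.1 j)⁻¹ * x.1) ≤ 10 * (M.c + 1) := by
      have e1 : (M.σ x.1 j)⁻¹ * x.1 = ((M.σ x.1 j)⁻¹ * y.1) * (x.1⁻¹ * y.1)⁻¹ := by group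
      rw [e1]
      have := M.L.mul ((M.σ x.1 j)⁻¹ * y.1) (x.1⁻¹ * y.1)⁻¹
      rw [M.L.inv] at this
      omega
    have hg := hV _ (hσV j hmj)
    have e2 : (U M T j x.1)⁻¹ = T (M.σ x.1 j) ((M.σ x.1 j)⁻¹ * x.1) := by
      by_cases hτ : j ≤ M.τ x.1
      · have hd := M.dep x.1 j hτ hbx
        have e3 := hpr (M.σ x.1) M.R0 j (M.τ x.1 - j) (M.step x.1) (by omega) (by omega)
          (fun i hi _ => hV _ (hσV i (by omega)))
        have e4 : M.σ x.1 (j + (M.τ x.1 - j)) = x.1 := M.stop x.1 _ (by omega)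
        rw [e4] at e3
        unfold U
        rw [inv_inv]
        exact e3
      · have h5 : M.τ x.1 ≤ j := by omega
        rw [hU1 j x.1 h5, M.stop x.1 j h5, inv_one, inv_mul_cancel]
        obtain ⟨-, -, h6, -⟩ := h1 G M.L M.I Λ T M.R0 (M.σ x.1 j) hg
        rw [M.stop x.1 j h5] at h6
        exact h6.symm
    have e3 := hg ((M.σ x.1 j)⁻¹ * x.1) (x.1⁻¹ * y.1) (by omega) (by omega)
    rw [mul_inv_cancel_left, ← e2] at e3
    have e4 : (M.σ x.1 j)⁻¹ * x.1 * (x.1⁻¹ * y.1) = (M.σ x.1 j)⁻¹ * y.1 := by group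
    rw [e4] at e3
    have e5 : U M T j x.1 * T (M.σ x.1 j) ((M.σ x.1 j)⁻¹ * y.1) = T x.1 (x.1⁻¹ * y.1) := by
      rw [← e3, mul_inv_cancel_left]
    have e6 : (U M T j x.1 : Λ) * (T (M.σ x.1 j) ((M.σ x.1 j)⁻¹ * y.1) : Λ) =
        (T x.1 (x.1⁻¹ * y.1) : Λ) := by
      rw [← Submonoid.coe_mul, e5]
    rw [← mul_assoc, ← (Int.cast_commute _ _).eq, mul_assoc, e6]

end Pool.Agent.CPD
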