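import Pool.Agent.CPD.StG

/-!
# The theorem from its parts
-/

set_option autoImplicit false

namespace Pool.Agent.CPD

theorem FIN (e : St_EGeo) (d4 : St_D4) (g7 : St_G7) : St_FIN := by
  intro G _ hPD hC α _ f R hR hP
  obtain ⟨M⟩ := e G hPD hC
  exact d4 G M.L (fun π _ T hT => g7 G M π T hT) α f R hR hP

end Pool.Agent.CPD
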