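import Pool.Agent.CPD.StG

/-!
# G0: constants and level functions
-/

set_option autoImplicit false

namespace Pool.Agent.CPD

private lemma G0_len {G : Type} [Group G] (L : Len G) (g x : G) :
    L.l g ≤ L.l x + L.l (g⁻¹ * x) := by
  have h1 : g = x * (g⁻¹ * x)⁻¹ := by group
  have h2 := L.mul x (g⁻¹ * x)⁻¹
  rw [← h1, L.inv] at h2
  exact h2

private lemma G0_good {G : Type} [Group G] (L : Len G) {Λ : Type} [Ring Λ] [StarRing Λ]
    (T : G → G → unitary Λ) (hT : IsALS T) (K : ℕ) :
    ∃ g : ℕ, ∀ v, g < L.l v → GoodAt L T K v := by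
  have h1 : ∀ᶠ v in Filter.cofinite, ∀ h ∈ L.ball K, ∀ h' ∈ L.ball K,
      T v h * T (v * h) h' = T v (h * h') := by
    rw [Filter.eventually_all_finset]
    intro h _
    rw [Filter.eventually_all_finset]
    intro h' _
    exact hT h h'
  rw [Filter.eventually_cofinite] at h1
  obtain ⟨g, hg⟩ := (h1.image L.l).bddAbove
  refine ⟨g, fun v hv h h' hh hh' => ?_⟩
  by_contra hne
  have h2 : L.l v ≤ g := by
    apply hg
    refine ⟨v, ?_, rfl⟩
    intro hall
    exact hne (hall h ((L.mem_ball K h).2 hh) h' ((L.mem_ball K h').2 hh'))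
  omega

theorem G0 : St_G0 := by
  intro G _ M Λ _ _ T
  have hu : 1 ≤ M.u := Nat.le_add_left _ _
  refine ⟨fun hT K => G0_good M.L T hT K, ?_, ?_, ?_, ?_, ?_⟩
  · intro hT
    obtain ⟨g0, hg0⟩ := G0_good M.L T hT M.R0
    obtain ⟨m, hm⟩ := M.esc (g0 + 100 * M.u)
    exact ⟨g0, m, hg0, fun v hv => hv, hm⟩
  · intro g0 m hA
    have hlip : ∀ x y, M.L.l (x⁻¹ * y) ≤ 3 * M.u →
        min 30 ((M.L.l x - g0) / (3 * M.u)) ≤ min 30 ((M.L.l y - g0) / (3 * M.u)) + 1 := by
      intro x y h
      have h1 := G0_len M.L x y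
      have h2 : (M.L.l x - g0) / (3 * M.u) ≤ (M.L.l y - g0) / (3 * M.u) + 1 := by
        rw [← Nat.add_div_right _ (by omega : 0 < 3 * M.u)]
        exact Nat.div_le_div_right (by omega)
      omega
    have hbig : ∀ k x, g0 + 3 * M.u * k ≤ M.L.l x → k ≤ (M.L.l x - g0) / (3 * M.u) := by
      intro k x h
      rw [Nat.le_div_iff_mul_le (by omega : 0 < 3 * M.u), mul_comm]
      omega
    refine ⟨fun x => min 30 ((M.L.l x - g0) / (3 * M.u)), ?_, hlip, ?_, ?_, ?_⟩
    · intro x hx y hy
      have h1 : 3 ≤ (M.L.l x - g0) / (3 * M.u) := le_trans hx (min_le_right _ _)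
      rw [Nat.le_div_iff_mul_le (by omega : 0 < 3 * M.u)] at h1
      have h2 := G0_len M.L x y
      have h3 : g0 < M.L.l y := by omega
      refine ⟨h3, fun j hj => ?_⟩
      show g0 < M.L.l (M.σ y j)
      rcases Nat.lt_or_ge j (M.τ y) with h4 | h4
      · have := hA.late y j hj h4
        omega
      · rw [M.stop y j h4]
        exact h3
    · intro x x' y j h1 hj h2
      rcases Nat.lt_or_ge j (M.τ x') with h4 | h4
      · have h5 := hA.late x' j hj h4
        have h6 := G0_len M.L (M.σ x' j) y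
        have h7 := hbig 30 y (by omega)
        show min 30 _ ≤ min 30 _ + 1
        omega
      · apply hlip
        rw [M.stop x' j h4] at h2
        have h5 : x⁻¹ * y = (x⁻¹ * x') * (x'⁻¹ * y) := by group
        have h6 := M.L.mul (x⁻¹ * x') (x'⁻¹ * y)
        rw [← h5] at h6
        omega
    · intro x
      exact min_le_left _ _
    · refine ⟨g0 + 90 * M.u, fun x hx => ?_⟩
      have h7 := hbig 30 x (by omega)
      show min 30 _ = 30
      omega
  · intro g0 m hA
    refine ⟨?_, fun v _ => Set.mem_univ v, hA.late⟩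
    intro v _ h h' _ _
    exact mul_one _
  · intro m
    refine ⟨?_, ?_, ?_, ?_, ?_⟩
    · intro x _ y _
      exact ⟨Set.mem_univ _, fun _ _ => Set.mem_univ _⟩
    · intro x y _
      exact Nat.le_add_right _ _
    · intro x x' y j _ _ _
      exact Nat.le_add_right _ _
    · intro x
      exact le_rfl
    · exact ⟨0, fun _ _ => rfl⟩
  · intro h h'
    exact Filter.Eventually.of_forall fun v => mul_one _

end Pool.Agent.CPD
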