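import Pool.Agent.CPD.StG

/-!
# G1a: the geometric zone, part A
-/

set_option autoImplicit false

namespace Pool.Agent.CPD

open Matrix

private lemma G1a_single {X Λ : Type} [Ring Λ] (x z : X)
    (h : (Finsupp.single x 1 : X →₀ Λ) z ≠ 0) : z = x := by
  classical
  by_contra hne
  apply h
  rw [Finsupp.single_apply, if_neg (fun h => hne h.symm)]

private lemma G1a_len {G : Type} [Group G] (L : Len G) (g x : G) :
    L.l g ≤ L.l x + L.l (g⁻¹ * x) := by
  have h1 : g = x * (g⁻¹ * x)⁻¹ := by group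
  have h2 := L.mul x (g⁻¹ * x)⁻¹
  rw [← h1, L.inv] at h2
  exact h2

private lemma G1a_len' {G : Type} [Group G] (L : Len G) (g x : G) :
    L.l x ≤ L.l g + L.l (g⁻¹ * x) := by
  have h1 : x = g * (g⁻¹ * x) := by group
  have h2 := L.mul g (g⁻¹ * x)
  rw [← h1] at h2
  exact h2

theorem G1a (h0 : St_F0) (h4 : St_F4) (h5 : St_F5) (h6 : St_F6) (h7 : St_F7) : St_G1a := by
  intro G _ M Λ _ _ T V g0 m lev hAdm hLev
  obtain ⟨h7a, _, h7r, h7H, h7n⟩ := h7 G M Λ T m
  obtain ⟨⟨hFD, hFE, _⟩, _, _, _, _, h05, _⟩ := h0 G M Λ T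
  obtain ⟨h61, _, h63⟩ := h6 G M Λ T V hAdm.good
  obtain ⟨g1, hg1⟩ := hLev.big
  have hcu : M.c + 1 = M.u := rfl
  refine ⟨m + g1 + 10 * M.u, fun n hn => ?_⟩
  obtain ⟨R, hR⟩ := h7n n
  refine ⟨n + 10 * M.u + R, fun n' hn' => ⟨n' + 10 * M.u, fun N' hN' => ⟨N' + 10 * M.u,
    fun N hN => ⟨0, fun _ _ => ?_⟩⟩⟩⟩
  have hD : ∀ x y, op M T M.D (Finsupp.single x 1) y ≠ 0 →
      M.L.l (x.1⁻¹ * y.1) ≤ M.c ∧ M.deg x.2 = M.deg y.2 + 1 := by
    intro x y h
    have h1 := h7a M.D x y h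
    refine ⟨hFD _ _ _ h1, M.resP.D_deg _ _ fun h2 => h1 ?_⟩
    rw [h2]
    rfl
  have hE : ∀ x y, op M T M.E (Finsupp.single x 1) y ≠ 0 →
      M.L.l (x.1⁻¹ * y.1) ≤ M.c ∧ M.deg x.2 = M.deg y.2 := by
    intro x y h
    have h1 := h7a M.E x y h
    refine ⟨hFE _ _ _ h1, M.resP.E_deg _ _ fun h2 => h1 ?_⟩
    rw [h2]
    rfl
  have hV : ∀ x : G × M.I, 3 ≤ lev x.1 → x.1 ∈ V := by
    intro x hx
    refine ((hLev.ok x.1 hx) x.1 ?_).1
    rw [inv_mul_cancel, M.L.one]
    exact Nat.zero_le _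
  have hop : ∀ (A B : Matrix M.I M.I (ZG G)) (x : G × M.I), Five M A → Five M B → 5 ≤ lev x.1 →
      op M T B (op M T A (Finsupp.single x 1)) = op M T (A * B) (Finsupp.single x 1) := by
    intro A B x hA hB hx
    apply h61 A B _ hA hB
    intro z hz
    rw [G1a_single x z hz]
    exact hV x (by omega)
  have hBD : ∀ k : ℕ, ∀ x ∈ Bs M k, ∀ y, op M T M.D (Finsupp.single x 1) y ≠ 0 →
      y ∈ Bs M k := by
    intro k x hx y h
    have hx' : M.L.l x.1 + M.u * M.deg x.2 ≤ k := hx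
    show M.L.l y.1 + M.u * M.deg y.2 ≤ k
    obtain ⟨h1, h2⟩ := hD x y h
    have h3 := G1a_len' M.L x.1 y.1
    rw [h2, mul_add, mul_one] at hx'
    omega
  have hZD : ∀ k : ℕ, ∀ x ∈ Zs M k, ∀ y, op M T M.D (Finsupp.single x 1) y ≠ 0 →
      y ∈ Zs M k := by
    intro k x hx y h
    have hx' : k + M.u * M.deg x.2 ≤ M.L.l x.1 := hx
    show k + M.u * M.deg y.2 ≤ M.L.l y.1
    obtain ⟨h1, h2⟩ := hD x y h
    have h3 := G1a_len M.L x.1 y.1
    rw [h2, mul_add, mul_one] at hx'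
    omega
  have h3u : ∀ x : G × M.I, M.u * M.deg x.2 ≤ M.u * 3 := fun x =>
    Nat.mul_le_mul_left _ (M.deg_le _)
  constructor
  case deg_le => exact fun x => M.deg_le _
  case BB' =>
    intro x hx
    have hx' : M.L.l x.1 + M.u * M.deg x.2 ≤ n := hx
    show M.L.l x.1 + M.u * M.deg x.2 ≤ n'
    omega
  case ZZ' =>
    intro x hx
    have hx' : N + M.u * M.deg x.2 ≤ M.L.l x.1 := hx
    show N' + M.u * M.deg x.2 ≤ M.L.l x.1
    omega
  case disj =>
    rw [Set.disjoint_left]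
    intro x hx hx2
    have hx' : M.L.l x.1 + M.u * M.deg x.2 ≤ n' := hx
    have hx2' : N' + M.u * M.deg x.2 ≤ M.L.l x.1 := hx2
    omega
  case fin =>
    refine ((M.L.fin (N + 3 * M.u)).prod (Set.finite_univ (α := M.I))).subset ?_
    intro x hx
    refine ⟨?_, Set.mem_univ _⟩
    show M.L.l x.1 ≤ N + 3 * M.u
    by_contra hlt
    apply hx
    right
    show N + M.u * M.deg x.2 ≤ M.L.l x.1
    have := h3u x
    omega
  case levW =>
    intro x hx
    show 20 ≤ lev x.1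
    have h1 : ¬ (M.L.l x.1 + M.u * M.deg x.2 ≤ n) := hx
    have := h3u x
    rw [hg1 x.1 (by omega)]
    norm_num
  case lev_D =>
    intro x y h
    exact hLev.lip x.1 y.1 (by have := (hD x y h).1; omega)
  case lev_E =>
    intro x y h
    exact hLev.lip x.1 y.1 (by have := (hE x y h).1; omega)
  case lev_H =>
    intro x y h
    obtain ⟨j, hj, _, hj2, _⟩ := h7H x y h
    refine hLev.line x.1 x.1 y.1 j ?_ hj (by omega)
    rw [inv_mul_cancel, M.L.one]
    exact Nat.zero_le _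
  case lev_r =>
    intro x y h
    have h1 := (h7r x y h).1
    refine hLev.line x.1 x.1 y.1 m ?_ le_rfl (by omega)
    rw [inv_mul_cancel, M.L.one]
    exact Nat.zero_le _
  case deg_D => exact fun x y h => (hD x y h).2
  case deg_E => exact fun x y h => (hE x y h).2
  case deg_H =>
    intro x y h
    obtain ⟨_, _, _, _, hj⟩ := h7H x y h
    exact hj
  case deg_r => exact fun x y h => (h7r x y h).2.symm
  case DD =>
    intro x hx
    rw [hop M.D M.D x hFD hFD hx, M.resP.DD]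
    exact h63 _
  case EE =>
    intro x hx
    rw [hop M.E M.E x hFE hFE hx, M.resP.EE]
  case ED =>
    intro x hx
    rw [hop M.D M.E x hFD hFE hx, M.resP.DE]
  case DE =>
    intro x hx
    rw [hop M.E M.D x hFE hFD hx, M.resP.ED]
  case HE =>
    intro x hx
    have hx' : 5 ≤ lev x.1 := hx
    exact (h5 G M Λ T V m x hAdm.good (hLev.ok x.1 (by omega))).2.1
  case EH =>
    intro x hx
    have hx' : 5 ≤ lev x.1 := hx
    exact (h5 G M Λ T V m x hAdm.good (hLev.ok x.1 (by omega))).1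
  case flow =>
    intro x hx
    have hx' : 5 ≤ lev x.1 := hx
    exact h4 G M Λ T V m x hAdm.good (hLev.ok x.1 (by omega))
  case D_B => exact hBD n
  case D_B' => exact hBD n'
  case D_Z => exact hZD N
  case D_Z' => exact hZD N'
  case E_B =>
    intro x hx y h
    have hx' : M.L.l x.1 + M.u * M.deg x.2 ≤ n := hx
    show M.L.l y.1 + M.u * M.deg y.2 ≤ n'
    obtain ⟨h1, h2⟩ := hE x y h
    have h3 := G1a_len' M.L x.1 y.1
    rw [h2] at hx'
    omega
  case E_Z =>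
    intro x hx y h
    have hx' : N + M.u * M.deg x.2 ≤ M.L.l x.1 := hx
    show N' + M.u * M.deg y.2 ≤ M.L.l y.1
    obtain ⟨h1, h2⟩ := hE x y h
    have h3 := G1a_len M.L x.1 y.1
    rw [h2] at hx'
    omega
  case r_B =>
    intro x _ y h
    show M.L.l y.1 + M.u * M.deg y.2 ≤ n
    have h1 := (h7r x y h).1
    have h2 := h05 m x.1
    have h3 := G1a_len' M.L (M.σ x.1 m) y.1
    have h4 := h3u y
    omega
  case H_B =>
    intro x hx _ y h
    have hx' : M.L.l x.1 + M.u * M.deg x.2 ≤ n := hx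
    show M.L.l y.1 + M.u * M.deg y.2 ≤ n'
    obtain ⟨j, _, hj, _⟩ := h7H x y h
    have h1 := hR x y j (by omega) (Or.inl hj)
    have h4 := h3u y
    omega

end Pool.Agent.CPD
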