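import Pool.Agent.CPD.StG

/-!
# G1b: the geometric zone, part B
-/

set_option autoImplicit false

namespace Pool.Agent.CPD

open Matrix

private lemma G1b_mem {X Λ : Type} [Ring Λ] (S : Submodule Λ (X →₀ Λ)) (v : X →₀ Λ)
    (h : ∀ x, v x ≠ 0 → Finsupp.single x 1 ∈ S) : v ∈ S := by
  rw [← Finsupp.sum_single v]
  refine S.sum_mem fun x hx => ?_
  have h1 : Finsupp.single x (v x) = v x • (Finsupp.single x 1 : X →₀ Λ) := by
    rw [Finsupp.smul_single, smul_eq_mul, mul_one]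
  rw [h1]
  exact S.smul_mem _ (h x (Finsupp.mem_support_iff.1 hx))

private lemma G1b_supp {X Λ : Type} [Ring Λ] (F : (X →₀ Λ) →ₗ[Λ] (X →₀ Λ)) (v : X →₀ Λ) (y : X)
    (h : F v y ≠ 0) : ∃ x, v x ≠ 0 ∧ F (Finsupp.single x 1) y ≠ 0 := by
  by_contra hcon
  push Not at hcon
  apply h
  let K : Submodule Λ (X →₀ Λ) := LinearMap.ker ((Finsupp.lapply y) ∘ₗ F)
  have h1 : v ∈ K := by
    apply G1b_mem
    intro x hx
    rw [LinearMap.mem_ker]
    exact hcon x hx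
  exact h1

private lemma G1b_agree {X Λ : Type} [Ring Λ] (F F' : (X →₀ Λ) →ₗ[Λ] (X →₀ Λ)) (v : X →₀ Λ)
    (h : ∀ x, v x ≠ 0 → F (Finsupp.single x 1) = F' (Finsupp.single x 1)) : F v = F' v := by
  have h1 : v ∈ LinearMap.ker (F - F') := by
    apply G1b_mem
    intro x hx
    rw [LinearMap.mem_ker, LinearMap.sub_apply, h x hx, sub_self]
  rw [LinearMap.mem_ker, LinearMap.sub_apply, sub_eq_zero] at h1
  exact h1

private lemma G1b_cut {X Λ : Type} [Ring Λ] (S : Set X) (v : X →₀ Λ) (x : X)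
    (h : cut S v x ≠ 0) : x ∈ S ∧ v x ≠ 0 := by
  have h1 : x ∈ S := by
    by_contra hx
    exact h (cut_apply_of_notMem S v hx)
  refine ⟨h1, ?_⟩
  rwa [cut_apply_of_mem S v h1] at h

private lemma G1b_cut_id {X Λ : Type} [Ring Λ] (S : Set X) (v : X →₀ Λ)
    (h : ∀ x, v x ≠ 0 → x ∈ S) : cut S v = v := by
  ext x
  by_cases hx : x ∈ S
  · exact cut_apply_of_mem S v hx
  · rw [cut_apply_of_notMem S v hx]
    by_contra hne
    exact hx (h x fun h' => hne h'.symm)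

private lemma G1b_cut_zero {X Λ : Type} [Ring Λ] (S : Set X) (v : X →₀ Λ)
    (h : ∀ x, v x ≠ 0 → x ∉ S) : cut S v = 0 := by
  ext x
  rw [Finsupp.zero_apply]
  by_contra hne
  obtain ⟨h1, h2⟩ := G1b_cut S v x hne
  exact h x h2 h1

private lemma G1b_single {X Λ : Type} [Ring Λ] (x z : X)
    (h : (Finsupp.single x 1 : X →₀ Λ) z ≠ 0) : z = x := by
  classical
  by_contra hne
  apply h
  rw [Finsupp.single_apply, if_neg (fun h => hne h.symm)]

private lemma G1b_len {G : Type} [Group G] (L : Len G) (g x : G) :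
    L.l g ≤ L.l x + L.l (g⁻¹ * x) := by
  have h1 : g = x * (g⁻¹ * x)⁻¹ := by group
  have h2 := L.mul x (g⁻¹ * x)⁻¹
  rw [← h1, L.inv] at h2
  exact h2

private lemma G1b_len' {G : Type} [Group G] (L : Len G) (g x : G) :
    L.l x ≤ L.l g + L.l (g⁻¹ * x) := by
  have h1 : x = g * (g⁻¹ * x) := by group
  have h2 := L.mul g (g⁻¹ * x)
  rw [← h1] at h2
  exact h2

private lemma G1b_th {G : Type} [Group G] (M : Geo G) {Λ : Type} [Ring Λ] [StarRing Λ]
    (T : G → G → unitary Λ) (m n' N' Q : ℕ) (v : Ch M Λ) : th M T m n' N' Q v =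
      Hm M T m (cut {x | M.L.l x.1 ≤ n' + M.u} (op M T M.E v)) +
      Ho M T m Q (cut {x | N' ≤ M.L.l x.1 + M.u} (op M T M.E v)) := rfl

theorem G1b (h0 : St_F0) (h5 : St_F5) (h6 : St_F6) (h7 : St_F7) (hb : St_F10b) (h11 : St_F11)
    (h12 : St_F12) : St_G1b := by
  intro G _ M Λ _ _ T V g0 m lev hAdm hLev
  obtain ⟨N1, hN1⟩ := hb G M Λ T V g0 m hAdm
  obtain ⟨N2, hN2⟩ := h12 G M Λ T V g0 m hAdm
  obtain ⟨h11a, h11b⟩ := h11 G M Λ T m
  obtain ⟨h7a, _, _, h7H, _⟩ := h7 G M Λ T m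
  obtain ⟨⟨hFD, hFE, _⟩, _⟩ := h0 G M Λ T
  obtain ⟨h61, _, _⟩ := h6 G M Λ T V hAdm.good
  obtain ⟨g1, hg1⟩ := hLev.big
  obtain ⟨R1, hR1⟩ := h11a g1
  have hcu : M.c + 1 = M.u := rfl
  refine ⟨0, fun n' _ => ⟨n' + 10 * M.u + N1 + N2 + g0 + R1 + 1, fun N' hN' => ?_⟩⟩
  obtain ⟨R2, hR2⟩ := h11a (N' + 10 * M.u)
  refine ⟨N' + 20 * M.u + R2, fun N hN => ?_⟩
  obtain ⟨R3, hR3⟩ := h11a (N + 10 * M.u)
  refine ⟨N + 50 * M.u + R3, fun Q hQ => ?_⟩
  have hD : ∀ x y, op M T M.D (Finsupp.single x 1) y ≠ 0 →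
      M.L.l (x.1⁻¹ * y.1) ≤ M.c ∧ M.deg x.2 = M.deg y.2 + 1 := by
    intro x y h
    have h1 := h7a M.D x y h
    refine ⟨hFD _ _ _ h1, M.resP.D_deg _ _ fun h2 => h1 ?_⟩
    rw [h2]
    rfl
  have hE : ∀ x y, op M T M.E (Finsupp.single x 1) y ≠ 0 →
      M.L.l (x.1⁻¹ * y.1) ≤ M.c ∧ M.deg x.2 = M.deg y.2 := by
    intro x y h
    have h1 := h7a M.E x y h
    refine ⟨hFE _ _ _ h1, M.resP.E_deg _ _ fun h2 => h1 ?_⟩
    rw [h2]
    rfl
  have hV : ∀ x : G × M.I, 3 ≤ lev x.1 → x.1 ∈ V := by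
    intro x hx
    refine ((hLev.ok x.1 hx) x.1 ?_).1
    rw [inv_mul_cancel, M.L.one]
    exact Nat.zero_le _
  have hop : ∀ (A B : Matrix M.I M.I (ZG G)) (x : G × M.I), Five M A → Five M B → x.1 ∈ V →
      op M T B (op M T A (Finsupp.single x 1)) = op M T (A * B) (Finsupp.single x 1) := by
    intro A B x hA hB hx
    apply h61 A B _ hA hB
    intro z hz
    rw [G1b_single x z hz]
    exact hx
  -- the cells of `θ x`
  have hθ : ∀ x y : G × M.I, th M T m n' N' Q (Finsupp.single x 1) y ≠ 0 →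
      ∃ a : G × M.I, M.L.l (x.1⁻¹ * a.1) ≤ M.c ∧ M.deg x.2 = M.deg a.2 ∧
        ((M.L.l a.1 ≤ n' + M.u ∧ Hm M T m (Finsupp.single a 1) y ≠ 0) ∨
        (N' ≤ M.L.l a.1 + M.u ∧ Ho M T m Q (Finsupp.single a 1) y ≠ 0)) := by
    intro x y h
    rw [G1b_th, Finsupp.add_apply] at h
    by_cases h1 : Hm M T m (cut {x | M.L.l x.1 ≤ n' + M.u}
        (op M T M.E (Finsupp.single x 1))) y = 0
    · rw [h1, zero_add] at h
      obtain ⟨a, ha1, ha2⟩ := G1b_supp _ _ _ h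
      obtain ⟨ha3, ha4⟩ := G1b_cut _ _ _ ha1
      obtain ⟨ha5, ha6⟩ := hE x a ha4
      exact ⟨a, ha5, ha6, Or.inr ⟨ha3, ha2⟩⟩
    · obtain ⟨a, ha1, ha2⟩ := G1b_supp _ _ _ h1
      obtain ⟨ha3, ha4⟩ := G1b_cut _ _ _ ha1
      obtain ⟨ha5, ha6⟩ := hE x a ha4
      exact ⟨a, ha5, ha6, Or.inl ⟨ha3, ha2⟩⟩
  -- far away `θ` is the outward flow
  have hfar : ∀ v : Ch M Λ, (∀ a, op M T M.E v a ≠ 0 → N' ≤ M.L.l a.1 + M.c) →
      th M T m n' N' Q v = Ho M T m Q (op M T M.E v) := by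
    intro v hv
    rw [G1b_th, G1b_cut_zero, G1b_cut_id, map_zero, zero_add]
    · intro a ha
      show N' ≤ M.L.l a.1 + M.u
      have := hv a ha
      omega
    · intro a ha h
      have h1 : M.L.l a.1 ≤ n' + M.u := h
      have := hv a ha
      omega
  refine ⟨?_, ?_, ?_, ?_, ?_, ?_, ?_⟩
  · intro x y h
    show lev x.1 ≤ lev y.1 + 1
    obtain ⟨a, ha1, _, ⟨_, h2⟩ | ⟨h1, h2⟩⟩ := hθ x y h
    · obtain ⟨j, hj, _, hj2, _⟩ := h7H a y h2
      exact hLev.line x.1 a.1 y.1 j (by omega) hj (by omega)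
    · have h3 := hR1 Q a y (by omega) h2
      rw [hg1 y.1 h3]
      have := hLev.cap x.1
      omega
  · intro x y h
    show M.deg y.2 = M.deg x.2 + 1
    obtain ⟨a, _, ha2, ⟨_, h2⟩ | ⟨h1, h2⟩⟩ := hθ x y h
    · obtain ⟨j, _, _, _, hj3⟩ := h7H a y h2
      rw [hj3, ha2]
    · rw [h11b Q a y h2, ha2]
  · intro x hx
    have hx' : 5 ≤ lev x.1 := hx
    rw [G1b_th, G1b_th, hop M.E M.E x hFE hFE (hV x (by omega)), M.resP.EE]
  · intro x hx
    have hx' : 5 ≤ lev x.1 := hx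
    rw [G1b_th, map_add]
    congr 1
    · refine G1b_agree (op M T M.E ∘ₗ Hm M T m) (Hm M T m) _ fun a ha => ?_
      obtain ⟨ha3, ha4⟩ := G1b_cut _ _ _ ha
      obtain ⟨ha5, _⟩ := hE x a ha4
      have h1 := hLev.lip x.1 a.1 (by omega)
      exact (h5 G M Λ T V m a hAdm.good (hLev.ok a.1 (by omega))).1
    · refine G1b_agree (op M T M.E ∘ₗ Ho M T m Q) (Ho M T m Q) _ fun a ha => ?_
      obtain ⟨ha3, _⟩ := G1b_cut _ _ _ ha
      have ha3' : N' ≤ M.L.l a.1 + M.u := ha3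
      exact (hN2 Q a (by omega)).1
  · intro x hxB hx
    have hx' : 5 ≤ lev x.1 := hx
    have hxB' : M.L.l x.1 + M.u * M.deg x.2 ≤ n' := hxB
    rw [G1b_th, G1b_cut_id, G1b_cut_zero, map_zero, add_zero]
    · exact (h5 G M Λ T V m x hAdm.good (hLev.ok x.1 (by omega))).2.1
    · intro a ha h
      have h1 : N' ≤ M.L.l a.1 + M.u := h
      have h2 := (hE x a ha).1
      have h3 := G1b_len' M.L x.1 a.1
      omega
    · intro a ha
      show M.L.l a.1 ≤ n' + M.u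
      have h2 := (hE x a ha).1
      have h3 := G1b_len' M.L x.1 a.1
      omega
  · intro x hxZ y h
    have hxZ' : N + M.u * M.deg x.2 ≤ M.L.l x.1 := hxZ
    show N' + M.u * M.deg y.2 ≤ M.L.l y.1
    have hdeg : M.u * M.deg y.2 ≤ M.u * 3 := Nat.mul_le_mul_left _ (M.deg_le _)
    obtain ⟨a, ha1, _, ⟨h1, _⟩ | ⟨h1, h2⟩⟩ := hθ x y h
    · have h3 := G1b_len M.L x.1 a.1
      omega
    · have h3 := G1b_len M.L x.1 a.1
      have h4 := hR2 Q a y (by omega) h2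
      omega
  · intro x hxZ y h
    have hxZ' : N' + M.u * M.deg x.2 ≤ M.L.l x.1 := hxZ
    show N + M.u * M.deg y.2 ≤ M.L.l y.1
    have hdeg : M.u * M.deg y.2 ≤ M.u * 3 := Nat.mul_le_mul_left _ (M.deg_le _)
    have hxV : x.1 ∈ V := hAdm.far x.1 (by omega)
    have e1 : th M T m n' N' Q (Finsupp.single x 1) = Ho M T m Q (Finsupp.single x 1) := by
      rw [hfar]
      · exact (hN2 Q x (by omega)).2
      · intro a ha
        have h2 := (hE x a ha).1
        have h3 := G1b_len M.L x.1 a.1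
        omega
    have e2 : th M T m n' N' Q (op M T M.D (Finsupp.single x 1)) =
        Ho M T m Q (op M T M.D (Finsupp.single x 1)) := by
      have e3 : op M T M.E (op M T M.D (Finsupp.single x 1)) =
          op M T M.D (Finsupp.single x 1) := by
        rw [hop M.D M.E x hFD hFE hxV, M.resP.DE]
      rw [hfar, e3]
      intro a ha
      rw [e3] at ha
      obtain ⟨h2, h2'⟩ := hD x a ha
      have h3 := G1b_len M.L x.1 a.1
      have h4 : M.u * 1 ≤ M.u * M.deg x.2 := Nat.mul_le_mul_left _ (by omega)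
      omega
    rw [e1, e2] at h
    by_cases hxQ : M.L.l x.1 + 10 * M.u ≤ Q
    · have h2 := hN1 Q x y (by omega) hxQ h
      omega
    · by_cases hy1 : op M T M.E (Finsupp.single x 1) y = 0
      · by_cases hy2 : op M T M.D (Ho M T m Q (Finsupp.single x 1)) y = 0
        · have hy3 : Ho M T m Q (op M T M.D (Finsupp.single x 1)) y ≠ 0 := by
            intro hy3
            apply h
            rw [Finsupp.sub_apply, Finsupp.sub_apply, hy1, hy2, hy3, sub_zero, sub_zero]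
          obtain ⟨z, hz1, hz2⟩ := G1b_supp _ _ _ hy3
          have h2 := (hD x z hz1).1
          have h3 := G1b_len M.L x.1 z.1
          have h4 := hR3 Q z y (by omega) hz2
          omega
        · obtain ⟨z, hz1, hz2⟩ := G1b_supp _ _ _ hy2
          have h2 := (hD z y hz2).1
          have h3 := G1b_len M.L z.1 y.1
          have h4 := hR3 Q x z (by omega) hz1
          omega
      · have h2 := (hE x y hy1).1
        have h3 := G1b_len M.L x.1 y.1
        omega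

end Pool.Agent.CPD
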