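import Pool.Agent.CPD.StG

/-!
# G2: `H₁` of the zone is cyclic, geometrically
-/

set_option autoImplicit false

namespace Pool.Agent.CPD

open Matrix

/-! ## Linear algebra of chains -/

private lemma G2_mem {X Λ : Type} [Ring Λ] (S : Submodule Λ (X →₀ Λ)) (v : X →₀ Λ)
    (h : ∀ x, v x ≠ 0 → Finsupp.single x 1 ∈ S) : v ∈ S := by
  rw [← Finsupp.sum_single v]
  refine S.sum_mem fun x hx => ?_
  have h1 : Finsupp.single x (v x) = v x • (Finsupp.single x 1 : X →₀ Λ) := by
    rw [Finsupp.smul_single, smul_eq_mul, mul_one]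
  rw [h1]
  exact S.smul_mem _ (h x (Finsupp.mem_support_iff.1 hx))

private lemma G2_supp {X Λ : Type} [Ring Λ] (F : (X →₀ Λ) →ₗ[Λ] (X →₀ Λ)) (v : X →₀ Λ) (y : X)
    (h : F v y ≠ 0) : ∃ x, v x ≠ 0 ∧ F (Finsupp.single x 1) y ≠ 0 := by
  by_contra hcon
  push Not at hcon
  apply h
  let K : Submodule Λ (X →₀ Λ) := LinearMap.ker ((Finsupp.lapply y) ∘ₗ F)
  have h1 : v ∈ K := by
    apply G2_mem
    intro x hx
    rw [LinearMap.mem_ker]
    exact hcon x hx
  exact h1

/-- the chains `v` with `E v = a • v0 + D e`, `e` of degree one and far away -/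
private def G2_S {G : Type} [Group G] (M : Geo G) {Λ : Type} [Ring Λ] [StarRing Λ]
    (T : G → G → unitary Λ) (N' : ℕ) (v0 : Ch M Λ) : Submodule Λ (Ch M Λ) where
  carrier := {v | ∃ (a : Λ) (e : Ch M Λ), (∀ x, e x ≠ 0 → M.deg x.2 = 1 ∧ x ∈ Zs M N') ∧
    op M T M.E v = a • v0 + op M T M.D e}
  add_mem' := by
    rintro v w ⟨a, e, he, hv⟩ ⟨b, f, hf, hw⟩
    refine ⟨a + b, e + f, ?_, ?_⟩
    · intro x hx
      by_cases h : e x = 0
      · apply hf
        intro h'
        apply hx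
        rw [Finsupp.add_apply, h, h', add_zero]
      · exact he x h
    · rw [map_add, hv, hw, map_add, add_smul]
      abel
  zero_mem' := by
    refine ⟨0, 0, fun x hx => absurd rfl hx, ?_⟩
    rw [map_zero, map_zero, zero_smul, add_zero]
  smul_mem' := by
    rintro c v ⟨a, e, he, hv⟩
    refine ⟨c * a, c • e, ?_, ?_⟩
    · intro x hx
      apply he
      intro h
      apply hx
      rw [Finsupp.smul_apply, h, smul_zero]
    · rw [map_smul, hv, map_smul, smul_add, mul_smul]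

/-! ## Lengths, translations, paths -/

private lemma G2_len {G : Type} [Group G] (L : Len G) (g x : G) :
    L.l g ≤ L.l x + L.l (g⁻¹ * x) := by
  have h1 : g = x * (g⁻¹ * x)⁻¹ := by group
  have h2 := L.mul x (g⁻¹ * x)⁻¹
  rw [← h1, L.inv] at h2
  exact h2

private lemma G2_tl {G I : Type} [Group G] (g : G) (c : (G × I) →₀ ℤ) (y : G × I) :
    tl g c y = c (g⁻¹ * y.1, y.2) := by
  have h1 : y = (fun x : G × I => (g * x.1, x.2)) (g⁻¹ * y.1, y.2) := by
    simp
  have h2 : Function.Injective (fun x : G × I => (g * x.1, x.2)) := by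
    rintro ⟨a, i⟩ ⟨b, j⟩ hab
    simp only [Prod.mk.injEq, mul_right_inj] at hab
    rw [hab.1, hab.2]
  unfold tl
  conv_lhs => rw [h1]
  exact Finsupp.mapDomain_apply h2 _ _

private lemma G2_aug {G I : Type} [Group G] (e : I → ℤ) (g : G) (c : (G × I) →₀ ℤ) :
    augZ e (tl g c) = augZ e c := by
  unfold augZ tl
  rw [Finsupp.sum_mapDomain_index]
  · intro x
    rw [zero_mul]
  · intro x a b
    rw [add_mul]

private lemma G2_bl {G I : Type} [Group G] {Λ : Type} [Ring Λ] [StarRing Λ]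
    (T : G → G → unitary Λ) (g : G) (c : (G × I) →₀ ℤ) (x : G × I)
    (h : bl T g (tl g c) x ≠ 0) : c (g⁻¹ * x.1, x.2) ≠ 0 := by
  intro h1
  apply h
  rw [bl_apply, G2_tl, h1, Int.cast_zero, zero_mul]

private lemma G2_path {G : Type} [Group G] (L : Len G) (S : Set G) (x y : G)
    (h : Joined L S x y) : ∃ (k : ℕ) (p : ℕ → G), p 0 = x ∧ p k = y ∧ (∀ i < k, p i ∈ S) ∧
      ∀ i < k, L.l ((p i)⁻¹ * p (i + 1)) ≤ 1 := by
  unfold Joined at h
  induction h using Relation.ReflTransGen.head_induction_on with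
  | refl => exact ⟨0, fun _ => y, rfl, rfl, fun i hi => absurd hi (Nat.not_lt_zero i),
      fun i hi => absurd hi (Nat.not_lt_zero i)⟩
  | @head a b hab _ ih =>
    obtain ⟨k, p, hp0, hpk, hpS, hps⟩ := ih
    obtain ⟨ha, _, hl⟩ := hab
    refine ⟨k + 1, fun i => Nat.casesOn i a p, rfl, hpk, ?_, ?_⟩
    · intro i hi
      rcases i with _ | i
      · exact ha
      · exact hpS i (by omega)
    · intro i hi
      rcases i with _ | i
      · show L.l (a⁻¹ * p 0) ≤ 1
        rw [hp0]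
        exact hl
      · exact hps i (by omega)

theorem G2 (h6 : St_E6b) (_h0 : St_F0) (h6f : St_F6) (h7 : St_F7) (hb : St_F10b) (h11 : St_F11)
    (g0 : St_G0) (ga : St_G2a) (gb : St_G2b) : St_G2 := by
  intro G _ _ M Λ _ _ T V γ m lev hALS hAdm _ n
  obtain ⟨ρ, o, ex, es, hρ, hEo, haug, ho, hex, hes, _, _, hlift⟩ :=
    ga G M.L M.I M.deg M.D M.E M.e M.resP 1
  obtain ⟨g2, hg2⟩ := (g0 G M Λ T).1 hALS ρ
  obtain ⟨N1, hN1⟩ := hb G M Λ T V γ m hAdm
  obtain ⟨h11a, h11b⟩ := h11 G M Λ T m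
  have hu : 1 ≤ M.u := Nat.le_add_left _ _
  refine ⟨0, fun n' _ => ⟨0, fun N' _ => ?_⟩⟩
  set S : Set G := {v | N' + 10 * M.u + 2 * ρ + g2 + γ < M.L.l v} with hS
  obtain ⟨R1, hR1, hR1'⟩ := h6 G M.L ⟨M.toPDM⟩ (N' + 10 * M.u + 2 * ρ + g2 + γ)
  obtain ⟨R', hR'⟩ := h11a (N' + 10 * M.u + γ)
  refine ⟨R' + N1 + R1 + γ + 1, fun N hN => ⟨0, fun Q _ => ?_⟩⟩
  intro hA hB
  obtain ⟨g1, hg1⟩ := (M.L.fin (N + 10 * M.u + ρ + R1 + g2)).exists_notMem
  have hg1' : N + 10 * M.u + ρ + R1 + g2 < M.L.l g1 := not_le.1 hg1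
  set v0 : Ch M Λ := bl T g1 (tl g1 o) with hv0
  have hgood : ∀ g, g2 < M.L.l g → GoodAt M.L T ρ g := hg2
  -- single cells far away
  have hfar : ∀ y : G × M.I, M.deg y.2 = 0 → R1 + N' + M.u + ρ + g2 < M.L.l y.1 →
      (Finsupp.single y 1 : Ch M Λ) ∈ G2_S M T N' v0 := by
    intro y hy0 hy
    obtain ⟨_, hl2, hl3⟩ := hlift Λ T y.1 (hgood y.1 (by omega))
    obtain ⟨k, p, hp0, hpk, hpS, hps⟩ := G2_path M.L S y.1 g1 (hR1' y.1 g1 (by omega) (by omega))
    obtain ⟨e, he, hee⟩ := gb G M.L M.I M.deg M.D Λ T 1 ρ o es S hes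
      (fun g hg h hh => (hlift Λ T g (hgood g (by
        have : N' + 10 * M.u + 2 * ρ + g2 + γ < M.L.l g := hg
        omega))).2.2 h hh) k p hpS hps
    rw [hp0, hpk] at hee
    refine ⟨(M.e y.2 : Λ) * ((tr T p 0 k : unitary Λ) : Λ),
      (M.e y.2 : Λ) • e + bl T y.1 (tl y.1 (ex y.2)), ?_, ?_⟩
    · intro x hx
      by_cases h1 : e x = 0
      · have h2 : bl T y.1 (tl y.1 (ex y.2)) x ≠ 0 := by
          intro h2
          apply hx
          rw [Finsupp.add_apply, Finsupp.smul_apply, h1, h2, smul_zero, add_zero]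
        obtain ⟨h3, h4⟩ := hex y.2 _ (G2_bl T y.1 (ex y.2) x h2)
        refine ⟨h3, ?_⟩
        show N' + M.u * M.deg x.2 ≤ M.L.l x.1
        have h5 : M.deg x.2 = 1 := h3
        have h6 := G2_len M.L y.1 x.1
        have h7 : M.L.l (y.1⁻¹ * x.1) ≤ ρ := h4
        rw [h5, mul_one]
        omega
      · obtain ⟨h3, i, hi, h4⟩ := he x h1
        refine ⟨h3, ?_⟩
        show N' + M.u * M.deg x.2 ≤ M.L.l x.1
        have h6 := G2_len M.L (p i) x.1
        have h7 : N' + 10 * M.u + 2 * ρ + g2 + γ < M.L.l (p i) := hpS i hi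
        rw [h3, mul_one]
        omega
    · have h1 := hl2 y.2 hy0
      show lo T (row M.E) (Finsupp.single y 1) = _ • v0 + lo T (row M.D) _
      have h2 : (Finsupp.single y 1 : Ch M Λ) = Finsupp.single (y.1, y.2) 1 := rfl
      rw [h2, h1, hee, map_add, map_smul, smul_add, mul_smul]
      abel
  refine ⟨g1, tl g1 o, ?_, ?_, ?_, ?_⟩
  · rw [G2_aug]
    exact haug
  · intro x hx
    obtain ⟨h1, h2⟩ := ho _ (G2_bl T g1 o x hx)
    refine ⟨h1, ?_⟩
    show N + M.u * M.deg x.2 ≤ M.L.l x.1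
    have h3 := G2_len M.L g1 x.1
    have h4 : M.L.l (g1⁻¹ * x.1) ≤ ρ := h2
    have h5 : M.deg x.2 = 0 := h1
    rw [h5, mul_zero]
    omega
  · exact (hlift Λ T g1 (hgood g1 (by omega))).1
  · intro v hv
    show v ∈ G2_S M T N' v0
    apply G2_mem
    intro x hx
    obtain ⟨hx0, hxZ⟩ := hv x hx
    have hx0' : M.deg x.2 = 0 := hx0
    have hxN : N + M.u * M.deg x.2 ≤ M.L.l x.1 := hxZ
    rw [hx0', mul_zero, add_zero] at hxN
    set Q2 := M.L.l x.1 + 10 * M.u + (R1 + N' + ρ + g2) with hQ2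
    set s : Ch M Λ := Finsupp.single x 1 with hs
    set w : Ch M Λ := Ho M T m Q2 s with hw
    have hw1 : ∀ y, w y ≠ 0 → M.deg y.2 = 1 ∧ N' + 10 * M.u + γ < M.L.l y.1 := by
      intro y hy
      refine ⟨?_, hR' Q2 x y (by omega) hy⟩
      rw [h11b Q2 x y hy, hx0']
    obtain ⟨h7a, _⟩ := h7 G M Λ T m
    have hDx : op M T M.D s = 0 := by
      ext y
      by_contra hy
      have h1 := h7a M.D x y hy
      have h2 : M.D x.2 y.2 ≠ 0 := by
        intro h
        apply h1
        rw [h]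
        rfl
      have h3 := M.resP.D_deg _ _ h2
      omega
    obtain ⟨h61, _, _⟩ := h6f G M Λ T V hAdm.good
    have hF : ∀ A : Matrix M.I M.I (ZG G), A = M.D ∨ A = M.E → Five M A := by
      rintro A (rfl | rfl)
      · exact M.prop_D
      · exact M.prop_E
    have hEE : op M T M.E (op M T M.E s) = op M T M.E s := by
      rw [h61 M.E M.E s (hF _ (Or.inr rfl)) (hF _ (Or.inr rfl)), M.resP.EE]
      intro y hy
      have h1 : y = x := by
        classical
        by_contra hne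
        apply hy
        rw [hs, Finsupp.single_apply, if_neg (fun h => hne h.symm)]
      rw [h1]
      exact hAdm.far x.1 (by omega)
    have hED : op M T M.E (op M T M.D w) = op M T M.D w := by
      rw [h61 M.D M.E w (hF _ (Or.inl rfl)) (hF _ (Or.inr rfl)), M.resP.DE]
      intro y hy
      have h1 := (hw1 y hy).2
      exact hAdm.far y.1 (by omega)
    set gv : Ch M Λ := op M T M.E s - op M T M.D w with hgv
    have hEgv : op M T M.E gv = gv := by
      rw [hgv, map_sub, hEE, hED]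
    have hgv1 : ∀ y, gv y ≠ 0 → Q2 < M.L.l y.1 + 4 * M.u := by
      intro y hy
      refine hN1 Q2 x y (by omega) (by omega) ?_
      rw [← hs, hDx, map_zero, sub_zero]
      exact hy
    have hgv0 : ∀ y, gv y ≠ 0 → M.deg y.2 = 0 := by
      intro y hy
      by_cases h1 : op M T M.E s y = 0
      · have h2 : op M T M.D w y ≠ 0 := by
          intro h2
          apply hy
          rw [hgv, Finsupp.sub_apply, h1, h2, sub_zero]
        obtain ⟨z, hz1, hz2⟩ := G2_supp _ _ _ h2
        have h3 := h7a M.D z y hz2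
        have h4 : M.D z.2 y.2 ≠ 0 := by
          intro h
          apply h3
          rw [h]
          rfl
        have h5 := M.resP.D_deg _ _ h4
        have h6 := (hw1 z hz1).1
        omega
      · have h3 := h7a M.E x y h1
        have h4 : M.E x.2 y.2 ≠ 0 := by
          intro h
          apply h3
          rw [h]
          rfl
        have h5 := M.resP.E_deg _ _ h4
        omega
    have hmem : gv ∈ G2_S M T N' v0 := by
      apply G2_mem
      intro y hy
      apply hfar y (hgv0 y hy)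
      have h1 := hgv1 y hy
      omega
    obtain ⟨a, e, he, hae⟩ := hmem
    refine ⟨a, e + w, ?_, ?_⟩
    · intro y hy
      by_cases h1 : e y = 0
      · have h2 : w y ≠ 0 := by
          intro h2
          apply hy
          rw [Finsupp.add_apply, h1, h2, add_zero]
        obtain ⟨h3, h4⟩ := hw1 y h2
        refine ⟨h3, ?_⟩
        show N' + M.u * M.deg y.2 ≤ M.L.l y.1
        rw [h3, mul_one]
        omega
      · exact he y h1
    · rw [map_add, ← add_assoc, ← hae, hEgv, hgv, sub_add_cancel]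

end Pool.Agent.CPD
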