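import Pool.Agent.CPD.StG

/-!
# G2a: local connectivity of a resolution, and its lift at good elements
-/

set_option autoImplicit false

namespace Pool.Agent.CPD

open Matrix

section G2a

variable {G I : Type} [Group G]

private lemma G2a_opZ_apply [Fintype I] (A : Matrix I I (ZG G)) (c : (G × I) →₀ ℤ) (y : G × I) :
    opZ A c y = c.sum fun x n => n * row A x y := by
  unfold opZ
  rw [Finsupp.linearCombination_apply, Finsupp.sum_apply]
  rfl

private lemma G2a_row_ne [Fintype I] (A : Matrix I I (ZG G)) (x y : G × I) (h : row A x y ≠ 0) :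
    A x.2 y.2 ≠ 0 := by
  intro h1
  apply h
  rw [row_apply, h1]
  rfl

private lemma G2a_filter [Fintype I] (deg : I → ℕ) (A : Matrix I I (ZG G)) (s : ℕ)
    (hA : ∀ i j, A i j ≠ 0 → deg i = deg j + s) (c : (G × I) →₀ ℤ) (k : ℕ) (y : G × I) :
    opZ A (c.filter (fun x => deg x.2 = k + s)) y = if deg y.2 = k then opZ A c y else 0 := by
  classical
  induction c using Finsupp.induction_linear with
  | zero => rw [Finsupp.filter_zero, map_zero, Finsupp.zero_apply, ite_self]
  | add a b ha hb =>
    rw [Finsupp.filter_add, map_add, Finsupp.add_apply, ha, hb, map_add, Finsupp.add_apply]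
    split_ifs
    · rfl
    · rw [add_zero]
  | single x n =>
    have h1 : opZ A (Finsupp.single x n) y = n * row A x y := by
      rw [G2a_opZ_apply, Finsupp.sum_single_index (by rw [zero_mul])]
    by_cases h2 : row A x y = 0
    · rw [h1, h2, mul_zero]
      by_cases h3 : deg x.2 = k + s
      · rw [Finsupp.filter_single_of_pos (p := fun x : G × I => deg x.2 = k + s) h3, h1, h2, mul_zero, ite_self]
      · rw [Finsupp.filter_single_of_neg (p := fun x : G × I => deg x.2 = k + s) h3, map_zero, ite_self]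
        rfl
    · have h3 := hA _ _ (G2a_row_ne A x y h2)
      by_cases h4 : deg y.2 = k
      · have h5 : deg x.2 = k + s := by omega
        rw [Finsupp.filter_single_of_pos (p := fun x : G × I => deg x.2 = k + s) h5, if_pos h4]
      · have h5 : ¬ deg x.2 = k + s := by omega
        rw [Finsupp.filter_single_of_neg (p := fun x : G × I => deg x.2 = k + s) h5, if_neg h4, map_zero]
        rfl

private lemma G2a_aug (e : I → ℤ) (c : (G × I) →₀ ℤ) :
    augZ e c = Finsupp.linearCombination ℤ (fun x : G × I => e x.2) c := rfl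

private lemma G2a_tl_add (g : G) (c c' : (G × I) →₀ ℤ) : tl g (c + c') = tl g c + tl g c' :=
  Finsupp.mapDomain_add

private lemma G2a_tl_smul (g : G) (n : ℤ) (c : (G × I) →₀ ℤ) : tl g (n • c) = n • tl g c :=
  Finsupp.mapDomain_smul _ _

private lemma G2a_tl_tl (g h : G) (c : (G × I) →₀ ℤ) : tl g (tl h c) = tl (g * h) c := by
  unfold tl
  rw [← Finsupp.mapDomain_comp]
  congr 1
  funext x
  show (g * (h * x.1), x.2) = (g * h * x.1, x.2)
  rw [mul_assoc]

private lemma G2a_bl_smul {Λ : Type} [Ring Λ] [StarRing Λ] (T : G → G → unitary Λ) (b : G)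
    (n : ℤ) (c : (G × I) →₀ ℤ) : bl T b (n • c) = (n : Λ) • bl T b c := by
  ext y
  rw [Finsupp.smul_apply, bl_apply, bl_apply, Finsupp.smul_apply, smul_eq_mul, smul_eq_mul,
    Int.cast_mul, mul_assoc]

end G2a

theorem G2a (h1 : St_E1) (hF : St_F1) : St_G2a := by
  classical
  intro G _ L I _ _ deg D E e hres R
  obtain ⟨e1, e2, e3, e4, e5, e6, e7, e8, e9⟩ := h1 G I
  -- filling
  have hfill : ∀ c : (G × I) →₀ ℤ, opZ E c = c → (∀ x, c x ≠ 0 → deg x.2 = 0) → augZ e c = 0 →
      ∃ b : (G × I) →₀ ℤ, (∀ x, b x ≠ 0 → deg x.2 = 1) ∧ opZ D b = c := by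
    intro c hc hdeg haug
    have hD : opZ D c = 0 := by
      ext y
      rw [G2a_opZ_apply]
      refine Finset.sum_eq_zero fun x hx => ?_
      have h2 := hdeg x (Finsupp.mem_support_iff.1 hx)
      by_contra h3
      have h4 : row D x y ≠ 0 := fun h => h3 (by
        show c x * row D x y = 0
        rw [h, mul_zero])
      have h5 := hres.D_deg _ _ (G2a_row_ne D x y h4)
      omega
    obtain ⟨u, hu1, hu2⟩ := hres.exact (toV c) (by rw [← e1, hc])
      (by
        rw [← e1, hD]
        have h2 := e2 (0 : (G × I) →₀ ℤ) 0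
        rw [add_zero] at h2
        exact left_eq_add.1 h2) (by rw [← e5, haug])
    obtain ⟨b', hb'⟩ := e4 u
    have hDb' : opZ D b' = c := by
      apply e3
      rw [e1, hb', hu2]
    refine ⟨b'.filter (fun x => deg x.2 = 0 + 1), ?_, ?_⟩
    · intro x hx
      by_contra h2
      exact hx (Finsupp.filter_apply_neg _ _ (by rwa [zero_add]))
    · ext y
      rw [G2a_filter deg D 1 hres.D_deg b' 0 y, hDb']
      split_ifs with h2
      · rfl
      · by_contra h3
        exact h2 (hdeg y (fun h => h3 h.symm))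
  -- the augmentation one
  obtain ⟨v, hv1, hv2⟩ := hres.surj
  obtain ⟨c0, hc0⟩ := e4 v
  have hc0E : opZ E c0 = c0 := by
    apply e3
    rw [e1, hc0, hv1]
  have hE0 : ∀ i j, E i j ≠ 0 → deg i = deg j + 0 := hres.E_deg
  obtain ⟨o, ho0, hoE, hoa⟩ : ∃ o : (G × I) →₀ ℤ, (∀ x, o x ≠ 0 → deg x.2 = 0) ∧
      opZ E o = o ∧ augZ e o = 1 := by
    refine ⟨c0.filter (fun x => deg x.2 = 0 + 0), ?_, ?_, ?_⟩
    · intro x hx
      by_contra h2
      exact hx (Finsupp.filter_apply_neg _ _ (by rwa [zero_add]))
    · ext y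
      rw [G2a_filter deg E 0 hE0 c0 0 y, hc0E, Finsupp.filter_apply]
    · have h2 : augZ e (c0.filter (fun x => deg x.2 = 0 + 0)) = augZ e c0 := by
        have h3 := Finsupp.filter_add_filter_not c0 (fun x => deg x.2 = 0 + 0)
        have h6 : augZ e c0 = augZ e (c0.filter (fun x => deg x.2 = 0 + 0) +
            c0.filter (fun x => ¬ deg x.2 = 0 + 0)) := by rw [h3]
        rw [h6, G2a_aug, G2a_aug, map_add]
        have h4 : Finsupp.linearCombination ℤ (fun x : G × I => e x.2)
            (c0.filter (fun x => ¬ deg x.2 = 0 + 0)) = 0 := by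
          rw [Finsupp.linearCombination_apply]
          refine Finset.sum_eq_zero fun x hx => ?_
          rw [Finsupp.support_filter, Finset.mem_filter] at hx
          have h5 : e x.2 = 0 := by
            by_contra h6
            exact hx.2 (hres.e_deg _ h6)
          show _ • e x.2 = 0
          rw [h5, smul_zero]
        rw [h4]
        exact (add_zero _).symm
      rw [h2, e5, hc0, hv2]
  have htoV : ∀ (A : Matrix I I (ZG G)) (i j : I), toV (row A (1, i)) j = A i j := by
    intro A i j
    apply MonoidAlgebra.ext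
    ext g
    show row A (1, i) (g, j) = _
    rw [row_apply, inv_one, one_mul]
  have hrowE : ∀ i, opZ E (row E (1, i)) = row E (1, i) := by
    intro i
    have h2 : ∀ A : Matrix I I (ZG G), row A (1, i) = opZ A (Finsupp.single (1, i) 1) := by
      intro A
      unfold opZ
      rw [Finsupp.linearCombination_single, one_smul]
    rw [h2, ← e6, hres.EE]
  -- the local chains
  have hex : ∀ i, ∃ b : (G × I) →₀ ℤ, (∀ x, b x ≠ 0 → deg x.2 = 1) ∧
      (deg i = 0 → row E (1, i) = e i • o + opZ D b) := by
    intro i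
    by_cases hi : deg i = 0
    · obtain ⟨b, hb1, hb2⟩ := hfill (row E (1, i) - e i • o)
        (by rw [map_sub, map_smul, hrowE, hoE])
        (by
          intro x hx
          by_cases h2 : o x = 0
          · have h3 : row E (1, i) x ≠ 0 := by
              intro h3
              apply hx
              rw [Finsupp.sub_apply, Finsupp.smul_apply, h2, h3, smul_zero, sub_zero]
            have h4 := hres.E_deg _ _ (G2a_row_ne E _ x h3)
            have h5 : deg i = deg x.2 := h4
            omega
          · exact ho0 x h2)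
        (by
          rw [G2a_aug, map_sub, map_smul, ← G2a_aug, ← G2a_aug, hoa, e5]
          simp only [htoV]
          rw [hres.Ee]
          simp)
      refine ⟨b, hb1, fun _ => ?_⟩
      rw [hb2]
      abel
    · exact ⟨0, fun x hx => absurd rfl hx, fun h => absurd h hi⟩
  choose ex hex1 hex2 using hex
  have hes : ∀ h : G, ∃ b : (G × I) →₀ ℤ, (∀ x, b x ≠ 0 → deg x.2 = 1) ∧
      o = tl h o + opZ D b := by
    intro h
    obtain ⟨b, hb1, hb2⟩ := hfill (o - tl h o)
      (by rw [map_sub, e7, hoE])
      (by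
        intro x hx
        by_cases h2 : o x = 0
        · have h3 : tl h o x ≠ 0 := by
            intro h3
            apply hx
            rw [Finsupp.sub_apply, h2, h3, sub_zero]
          rw [e9] at h3
          exact ho0 (h⁻¹ * x.1, x.2) h3
        · exact ho0 x h2)
      (by
        rw [G2a_aug, map_sub, ← G2a_aug, ← G2a_aug, e8, sub_self])
    exact ⟨b, hb1, by rw [hb2]; abel⟩
  choose es hes1 hes2 using hes
  -- the radius
  set ρ1 := o.support.sup fun x => L.l x.1 with hρ1
  set ρ2 := (Finset.univ : Finset I).sup fun i => (ex i).support.sup fun x => L.l x.1 with hρ2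
  set ρ3 := (L.ball R).sup fun h => (es h).support.sup fun x => L.l x.1 with hρ3
  set ρ4 := (Finset.univ : Finset I).sup fun i => (Finset.univ : Finset I).sup fun j =>
    (D i j).coeff.support.sup L.l with hρ4
  set ρ5 := (Finset.univ : Finset I).sup fun i => (Finset.univ : Finset I).sup fun j =>
    (E i j).coeff.support.sup L.l with hρ5
  have ho2 : ∀ x, o x ≠ 0 → L.l x.1 ≤ ρ1 := fun x hx =>
    Finset.le_sup (f := fun x : G × I => L.l x.1) (Finsupp.mem_support_iff.2 hx)
  have hex3 : ∀ i x, ex i x ≠ 0 → L.l x.1 ≤ ρ2 := fun i x hx =>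
    (Finset.le_sup (f := fun x : G × I => L.l x.1) (Finsupp.mem_support_iff.2 hx)).trans
      (Finset.le_sup (f := fun i => (ex i).support.sup fun x => L.l x.1) (Finset.mem_univ i))
  have hes3 : ∀ h x, L.l h ≤ R → es h x ≠ 0 → L.l x.1 ≤ ρ3 := fun h x hh hx =>
    (Finset.le_sup (f := fun x : G × I => L.l x.1) (Finsupp.mem_support_iff.2 hx)).trans
      (Finset.le_sup (f := fun h => (es h).support.sup fun x => L.l x.1)
        ((L.mem_ball R h).2 hh))
  have hD3 : ∀ i j g, (D i j).coeff g ≠ 0 → L.l g ≤ ρ4 := fun i j g hg =>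
    ((Finset.le_sup (f := L.l) (Finsupp.mem_support_iff.2 hg)).trans
      (Finset.le_sup (f := fun j => (D i j).coeff.support.sup L.l) (Finset.mem_univ j))).trans
      (Finset.le_sup (f := fun i => (Finset.univ : Finset I).sup fun j =>
        (D i j).coeff.support.sup L.l) (Finset.mem_univ i))
  have hE3 : ∀ i j g, (E i j).coeff g ≠ 0 → L.l g ≤ ρ5 := fun i j g hg =>
    ((Finset.le_sup (f := L.l) (Finsupp.mem_support_iff.2 hg)).trans
      (Finset.le_sup (f := fun j => (E i j).coeff.support.sup L.l) (Finset.mem_univ j))).trans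
      (Finset.le_sup (f := fun i => (Finset.univ : Finset I).sup fun j =>
        (E i j).coeff.support.sup L.l) (Finset.mem_univ i))
  refine ⟨R + ρ1 + ρ2 + ρ3 + ρ4 + ρ5, o, ex, es, by omega, hoE, hoa, ?_, ?_, ?_, hex2,
    fun h _ => hes2 h, ?_⟩
  · intro x hx
    exact ⟨ho0 x hx, (ho2 x hx).trans (by omega)⟩
  · intro i x hx
    exact ⟨hex1 i x hx, (hex3 i x hx).trans (by omega)⟩
  · intro h x hh hx
    exact ⟨hes1 h x hx, (hes3 h x hh hx).trans (by omega)⟩
  · intro Λ _ _ T g hg
    obtain ⟨f1, f2, -, -⟩ := hF G L I Λ T _ g hg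
    have hE4 : ∀ i j g, (E i j).coeff g ≠ 0 → L.l g ≤ R + ρ1 + ρ2 + ρ3 + ρ4 + ρ5 :=
      fun i j g hg => (hE3 i j g hg).trans (by omega)
    have hD4 : ∀ i j g, (D i j).coeff g ≠ 0 → L.l g ≤ R + ρ1 + ρ2 + ρ3 + ρ4 + ρ5 :=
      fun i j g hg => (hD3 i j g hg).trans (by omega)
    have hbE : ∀ i, row E (g, i) = tl g (row E (1, i)) := by
      intro i
      ext y
      rw [e9, row_apply, row_apply, inv_one, one_mul]
    refine ⟨?_, ?_, ?_⟩
    · rw [f1 E (tl g o) hE4, e7, hoE]
      intro y hy
      rw [e9] at hy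
      exact (ho2 _ hy).trans (by omega)
    · intro i hi
      rw [lo_single, one_smul, hbE, hex2 i hi, G2a_tl_add, G2a_tl_smul, bl_add, G2a_bl_smul,
        ← e7, ← f1 D (tl g (ex i)) hD4]
      intro y hy
      rw [e9] at hy
      exact (hex3 i _ hy).trans (by omega)
    · intro h hh
      have h2 : bl T g (tl g o) = bl T g (tl (g * h) o) + bl T g (opZ D (tl g (es h))) := by
        conv_lhs => rw [hes2 h]
        rw [G2a_tl_add, G2a_tl_tl, bl_add, ← e7]
      rw [h2, ← f1 D (tl g (es h)) hD4 (by
        intro y hy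
        rw [e9] at hy
        exact (hes3 h _ hh hy).trans (by omega))]
      have h3 := f2 (g * h) (tl (g * h) o) (by
        rw [inv_mul_cancel_left]
        omega) (by
        intro y hy
        rw [e9] at hy
        exact (ho2 _ hy).trans (by omega))
      rw [inv_mul_cancel_left] at h3
      rw [h3]

end Pool.Agent.CPD
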