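import Pool.Agent.CPD.StG

/-!
# Transport along a path
-/

set_option autoImplicit false

namespace Pool.Agent.CPD

open Matrix

private theorem G2b_tl {G I : Type} [Group G] (g : G) (c : (G × I) →₀ ℤ) (y : G × I) :
    tl g c y = c (g⁻¹ * y.1, y.2) := by
  unfold tl
  have h1 : Function.Injective (fun x : G × I => (g * x.1, x.2)) := by
    intro a b hab
    have hab' : (g * a.1, a.2) = (g * b.1, b.2) := hab
    have h2 : g * a.1 = g * b.1 := congrArg Prod.fst hab'
    have h3 : a.2 = b.2 := (Prod.mk.injEq _ _ _ _ ▸ hab').2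
    exact Prod.ext (mul_left_cancel h2) h3
  have h2 : y = (fun x : G × I => (g * x.1, x.2)) (g⁻¹ * y.1, y.2) := by
    show y = (g * (g⁻¹ * y.1), y.2)
    rw [mul_inv_cancel_left]
  conv_lhs => rw [h2]
  exact Finsupp.mapDomain_apply h1 _ _

theorem G2b : St_G2b := by
  intro G _ L I _ _ deg D Λ _ _ T R ρ o es S hes hS k p hp hstep
  have key : ∀ (k a : ℕ), (∀ i < k, p (a + i) ∈ S) →
      (∀ i < k, L.l ((p (a + i))⁻¹ * p (a + i + 1)) ≤ R) →
      ∃ e : (G × I) →₀ Λ, (∀ x, e x ≠ 0 → deg x.2 = 1 ∧ ∃ i < k, L.l ((p (a + i))⁻¹ * x.1) ≤ ρ) ∧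
        bl T (p a) (tl (p a) o) =
          ((tr T p a k : unitary Λ) : Λ) • bl T (p (a + k)) (tl (p (a + k)) o) +
            lo T (row D) e := by
    intro k
    induction k with
    | zero =>
      intro a _ _
      refine ⟨0, fun x hx => absurd rfl hx, ?_⟩
      have h1 : tr T p a 0 = 1 := rfl
      rw [h1, map_zero, add_zero, Nat.add_zero, OneMemClass.coe_one, one_smul]
    | succ k ih =>
      intro a h1 h2
      obtain ⟨e, he1, he2⟩ := ih (a + 1)
        (fun i hi => by
          have h3 := h1 (i + 1) (by omega)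
          rwa [show a + (i + 1) = a + 1 + i by omega] at h3)
        (fun i hi => by
          have h3 := h2 (i + 1) (by omega)
          rwa [show a + (i + 1) = a + 1 + i by omega] at h3)
      have h3 := hS (p a) (h1 0 (by omega)) ((p a)⁻¹ * p (a + 1)) (h2 0 (by omega))
      rw [mul_inv_cancel_left] at h3
      refine ⟨((T (p a) ((p a)⁻¹ * p (a + 1)) : unitary Λ) : Λ) • e +
        bl T (p a) (tl (p a) (es ((p a)⁻¹ * p (a + 1)))), ?_, ?_⟩
      · intro x hx
        rw [Finsupp.add_apply] at hx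
        by_cases h4 : e x = 0
        · rw [Finsupp.smul_apply, h4, smul_zero, zero_add, bl_apply, G2b_tl] at hx
          have h5 : es ((p a)⁻¹ * p (a + 1)) ((p a)⁻¹ * x.1, x.2) ≠ 0 := by
            intro h6
            rw [h6, Int.cast_zero, zero_mul] at hx
            exact hx rfl
          have h6 := hes _ _ (h2 0 (by omega)) h5
          exact ⟨h6.1, 0, by omega, h6.2⟩
        · obtain ⟨h5, i, hi, h6⟩ := he1 x h4
          refine ⟨h5, i + 1, by omega, ?_⟩
          rwa [show a + (i + 1) = a + 1 + i by omega]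
      · have h4 : tr T p a (k + 1) = T (p a) ((p a)⁻¹ * p (a + 1)) * tr T p (a + 1) k := rfl
        rw [h3, he2, h4, smul_add, smul_smul, map_add, map_smul, Submonoid.coe_mul,
          show a + (k + 1) = a + 1 + k by omega, add_assoc]
  obtain ⟨e, h1, h2⟩ := key k 0 (fun i hi => by rw [Nat.zero_add]; exact hp i hi)
    (fun i hi => by rw [Nat.zero_add]; exact hstep i hi)
  refine ⟨e, fun x hx => ?_, ?_⟩
  · obtain ⟨h3, i, hi, h4⟩ := h1 x hx
    rw [Nat.zero_add] at h4
    exact ⟨h3, i, hi, h4⟩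
  · rw [Nat.zero_add] at h2
    exact h2

end Pool.Agent.CPD
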