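import Pool.Agent.CPD.StG

/-!
# G3b: `H³` of the zone is cyclic, geometrically, and monodromy
-/

set_option autoImplicit false

namespace Pool.Agent.CPD

open Matrix

/-! ## Linear algebra of chains -/

private lemma G3b_mem {X Λ : Type} [Ring Λ] (S : Submodule Λ (X →₀ Λ)) (v : X →₀ Λ)
    (h : ∀ x, v x ≠ 0 → Finsupp.single x 1 ∈ S) : v ∈ S := by
  rw [← Finsupp.sum_single v]
  refine S.sum_mem fun x hx => ?_
  have h1 : Finsupp.single x (v x) = v x • (Finsupp.single x 1 : X →₀ Λ) := by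
    rw [Finsupp.smul_single, smul_eq_mul, mul_one]
  rw [h1]
  exact S.smul_mem _ (h x (Finsupp.mem_support_iff.1 hx))

/-- the chains `v` with `E v = a • v0 + D e`, `e` with cells satisfying `P` -/
private def G3b_S {G : Type} [Group G] (M : Geo G) {Λ : Type} [Ring Λ] [StarRing Λ]
    (T : G → G → unitary Λ) (P : G × M.I → Prop) (v0 : Ch M Λ) : Submodule Λ (Ch M Λ) where
  carrier := {v | ∃ (a : Λ) (e : Ch M Λ), (∀ x, e x ≠ 0 → P x) ∧
    op M T M.Eᴴ v = a • v0 + op M T M.Dᴴ e}
  add_mem' := by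
    rintro v w ⟨a, e, he, hv⟩ ⟨b, f, hf, hw⟩
    refine ⟨a + b, e + f, ?_, ?_⟩
    · intro x hx
      by_cases h : e x = 0
      · apply hf
        intro h'
        apply hx
        rw [Finsupp.add_apply, h, h', add_zero]
      · exact he x h
    · rw [map_add, hv, hw, map_add, add_smul]
      abel
  zero_mem' := by
    refine ⟨0, 0, fun x hx => absurd rfl hx, ?_⟩
    rw [map_zero, map_zero, zero_smul, add_zero]
  smul_mem' := by
    rintro c v ⟨a, e, he, hv⟩
    refine ⟨c * a, c • e, ?_, ?_⟩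
    · intro x hx
      apply he
      intro h
      apply hx
      rw [Finsupp.smul_apply, h, smul_zero]
    · rw [map_smul, hv, map_smul, smul_add, mul_smul]

/-! ## Lengths, translations, paths -/

private lemma G3b_len {G : Type} [Group G] (L : Len G) (g x : G) :
    L.l g ≤ L.l x + L.l (g⁻¹ * x) := by
  have h1 : g = x * (g⁻¹ * x)⁻¹ := by group
  have h2 := L.mul x (g⁻¹ * x)⁻¹
  rw [← h1, L.inv] at h2
  exact h2

private lemma G3b_len' {G : Type} [Group G] (L : Len G) (g x : G) :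
    L.l x ≤ L.l g + L.l (g⁻¹ * x) := by
  have h2 := L.mul g (g⁻¹ * x)
  rwa [mul_inv_cancel_left] at h2

private lemma G3b_tl {G I : Type} [Group G] (g : G) (c : (G × I) →₀ ℤ) (y : G × I) :
    tl g c y = c (g⁻¹ * y.1, y.2) := by
  have h1 : y = (fun x : G × I => (g * x.1, x.2)) (g⁻¹ * y.1, y.2) := by
    simp
  have h2 : Function.Injective (fun x : G × I => (g * x.1, x.2)) := by
    rintro ⟨a, i⟩ ⟨b, j⟩ hab
    simp only [Prod.mk.injEq, mul_right_inj] at hab
    rw [hab.1, hab.2]
  unfold tl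
  conv_lhs => rw [h1]
  exact Finsupp.mapDomain_apply h2 _ _

private lemma G3b_bl {G I : Type} [Group G] {Λ : Type} [Ring Λ] [StarRing Λ]
    (T : G → G → unitary Λ) (g : G) (c : (G × I) →₀ ℤ) (x : G × I)
    (h : bl T g (tl g c) x ≠ 0) : c (g⁻¹ * x.1, x.2) ≠ 0 := by
  intro h1
  apply h
  rw [bl_apply, G3b_tl, h1, Int.cast_zero, zero_mul]

private lemma G3b_path {G : Type} [Group G] (L : Len G) (S : Set G) (x y : G)
    (h : Joined L S x y) : ∃ (k : ℕ) (p : ℕ → G), p 0 = x ∧ p k = y ∧ (∀ i < k, p i ∈ S) ∧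
      ∀ i < k, L.l ((p i)⁻¹ * p (i + 1)) ≤ 1 := by
  unfold Joined at h
  induction h using Relation.ReflTransGen.head_induction_on with
  | refl => exact ⟨0, fun _ => y, rfl, rfl, fun i hi => absurd hi (Nat.not_lt_zero i),
      fun i hi => absurd hi (Nat.not_lt_zero i)⟩
  | @head a b hab _ ih =>
    obtain ⟨k, p, hp0, hpk, hpS, hps⟩ := ih
    obtain ⟨ha, _, hl⟩ := hab
    refine ⟨k + 1, fun i => Nat.casesOn i a p, rfl, hpk, ?_, ?_⟩
    · intro i hi
      rcases i with _ | i
      · exact ha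
      · exact hpS i (by omega)
    · intro i hi
      rcases i with _ | i
      · show L.l (a⁻¹ * p 0) ≤ 1
        rw [hp0]
        exact hl
      · exact hps i (by omega)

/-- paths of bounded length to `v` from all elements of a finite set -/
private lemma G3b_paths {G : Type} [Group G] (L : Len G) (S : Set G) (v : G) (F : Finset G)
    (h : ∀ y ∈ F, Joined L S y v) : ∃ Nb : ℕ, ∀ y ∈ F, ∃ (k : ℕ) (p : ℕ → G), p 0 = y ∧ p k = v ∧
      (∀ i < k, p i ∈ S) ∧ (∀ i < k, L.l ((p i)⁻¹ * p (i + 1)) ≤ 1) ∧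
      ∀ i < k, L.l (p i) ≤ Nb := by
  classical
  induction F using Finset.induction_on with
  | empty => exact ⟨0, fun y hy => absurd hy (Finset.notMem_empty y)⟩
  | insert a s _ ih =>
    obtain ⟨Nb, hNb⟩ := ih fun y hy => h y (Finset.mem_insert_of_mem hy)
    obtain ⟨k, p, hp0, hpk, hpS, hps⟩ := G3b_path L S a v (h a (Finset.mem_insert_self a s))
    refine ⟨max Nb ((Finset.range k).sup fun i => L.l (p i)), ?_⟩
    intro y hy
    rw [Finset.mem_insert] at hy
    rcases hy with rfl | hy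
    · refine ⟨k, p, hp0, hpk, hpS, hps, ?_⟩
      intro i hi
      exact le_trans (Finset.le_sup (f := fun i => L.l (p i)) (Finset.mem_range.2 hi))
        (le_max_right _ _)
    · obtain ⟨k', p', h1, h2, h3, h4, h5⟩ := hNb y hy
      exact ⟨k', p', h1, h2, h3, h4, fun i hi => le_trans (h5 i hi) (le_max_left _ _)⟩

theorem G3b (h0 : St_F0) (h6 : St_F6) (h9 : St_F9) (g0 : St_G0) (ga : St_G2a)
    (gb : St_G2b) (h6b : St_E6b) (g3 : St_G3a) : St_G3b := by
  classical
  intro G _ _ M Λ _ _ T V γ m lev hALS hAdm hLev R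
  obtain ⟨ρ, o, ex, es, hρ, hEo, haug, ho, hex, hes, _, _, hlift⟩ :=
    ga G M.L M.I (fun i => 3 - M.deg i) M.Dᴴ M.Eᴴ M.w M.resQ (max R 1)
  obtain ⟨g2, hg2⟩ := (g0 G M Λ T).1 hALS ρ
  have hu : 1 ≤ M.u := Nat.le_add_left _ _
  obtain ⟨hF5, -⟩ := h0 G M Λ T
  have hFD : Five M M.D := hF5.1
  have hFE : Five M M.E := hF5.2.1
  have h9' := fun (A : Matrix M.I M.I (ZG G)) (ξ : Ch M Λ) (x : G × M.I) =>
    h9 G M Λ T V A ξ x hAdm.good
  refine ⟨g2 + γ + 10 * M.u, fun n hn => ?_⟩
  set S : Set G := {v | n + 10 * M.u + 2 * ρ < M.L.l v} with hS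
  obtain ⟨R1, hR1, hR1'⟩ := h6b G M.L ⟨M.toPDM⟩ (n + 10 * M.u + 2 * ρ)
  refine ⟨R1, ?_⟩
  intro k p hp0 hpR hpst
  set v : G := p 0 with hv
  have hvR : R1 < M.L.l v := hpR 0 (Nat.zero_le k)
  obtain ⟨a1, ha1⟩ := g3 G M Λ T V γ m hAdm n
  refine ⟨a1 + n, fun n' hn' => ?_⟩
  obtain ⟨a2, ha2⟩ := ha1 n' (by omega)
  refine ⟨a2 + n', fun N' hN' => ?_⟩
  obtain ⟨a3, ha3⟩ := ha2 N' (by omega)
  set Q3 : ℕ := a3 + R1 + 10 * M.u + ρ + g2 + γ + n + 10 with hQ3
  have hQ3' := ha3 Q3 (by omega)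
  obtain ⟨Nb, hNb⟩ := G3b_paths M.L S v
    ((M.L.ball (Q3 + M.u)).filter fun y => R1 < M.L.l y) (by
      intro y hy
      rw [Finset.mem_filter] at hy
      exact hR1' y v hy.2 hvR)
  set Nl : ℕ := (Finset.range (k + 1)).sup fun i => M.L.l (p i) with hNl
  have hNl' : ∀ i ≤ k, M.L.l (p i) ≤ Nl := fun i hi =>
    Finset.le_sup (f := fun i => M.L.l (p i)) (Finset.mem_range.2 (by omega))
  refine ⟨Q3 + Nb + Nl + 10 * M.u + ρ + 10, fun N hN => ⟨0, fun Q _ => ?_⟩⟩
  intro hA hB
  -- goodness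
  have hgood : ∀ g, g2 < M.L.l g → GoodAt M.L T ρ g := hg2
  set v0 : Ch M Λ := bl T v (tl v o) with hv0
  -- the zone
  have hWs : ∀ x : G × M.I, x ∈ (mkZone hA hB).Ws ↔ x ∉ Bs M n ∧ x ∉ Zs M N := by
    intro x
    show x ∈ (Bs M n ∪ Zs M N)ᶜ ↔ _
    rw [Set.mem_compl_iff, Set.mem_union, not_or]
  have hin : ∀ x : G × M.I, n < M.L.l x.1 → M.L.l x.1 < N → x ∈ (mkZone hA hB).Ws := by
    intro x h1 h2
    rw [hWs]
    constructor
    · intro h3
      have h4 : M.L.l x.1 + M.u * M.deg x.2 ≤ n := h3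
      omega
    · intro h3
      have h4 : N + M.u * M.deg x.2 ≤ M.L.l x.1 := h3
      omega
  have hVB : ∀ x : G × M.I, x ∉ Bs M n → x.1 ∈ V := by
    intro x hx
    have h1 : 20 ≤ lev x.1 := hA.levW x hx
    have h2 := (hLev.ok x.1 (by omega)) x.1 (by
      rw [inv_mul_cancel, M.L.one]
      exact Nat.zero_le _)
    exact h2.1
  -- transport along paths
  have htrans : ∀ (k' : ℕ) (p' : ℕ → G), (∀ i < k', p' i ∈ S) →
      (∀ i < k', M.L.l ((p' i)⁻¹ * p' (i + 1)) ≤ max R 1) →
      ∃ e : Ch M Λ, (∀ x, e x ≠ 0 → M.deg x.2 = 2 ∧ ∃ i < k', M.L.l ((p' i)⁻¹ * x.1) ≤ ρ) ∧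
        bl T (p' 0) (tl (p' 0) o) =
          ((tr T p' 0 k' : unitary Λ) : Λ) • bl T (p' k') (tl (p' k') o) + op M T M.Dᴴ e := by
    intro k' p' h1 h2
    obtain ⟨e, he, hee⟩ := gb G M.L M.I (fun i => 3 - M.deg i) M.Dᴴ Λ T (max R 1) ρ o es S hes
      (fun g hg h hh => (hlift Λ T g (hgood g (by
        have : n + 10 * M.u + 2 * ρ < M.L.l g := hg
        omega))).2.2 h hh) k' p' h1 h2
    refine ⟨e, ?_, hee⟩
    intro x hx
    obtain ⟨h3, h4⟩ := he x hx
    have h5 : 3 - M.deg x.2 = 1 := h3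
    exact ⟨by omega, h4⟩
  refine ⟨fun x => star (v0 x), ⟨?_, ?_⟩, ?_⟩
  · -- degrees
    intro x hx
    have hx' : v0 x ≠ 0 := by
      intro h
      apply hx
      rw [h, star_zero]
    obtain ⟨h1, h2⟩ := ho _ (G3b_bl T v o x hx')
    have h1' : 3 - M.deg x.2 = 0 := h1
    have h2' : M.L.l (v⁻¹ * x.1) ≤ ρ := h2
    refine ⟨?_, hin x ?_ ?_⟩
    · show M.deg x.2 = 3
      have := M.deg_le x.2
      omega
    · have h3 := G3b_len M.L v x.1
      omega
    · have h3 := G3b_len' M.L v x.1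
      have h4 := hNl' 0 (Nat.zero_le k)
      rw [← hv] at h4
      omega
  · -- generation
    intro ν₀ hν1 hν2
    set ν : G × M.I → Λ := ν₀ with hν
    have hν1' : ∀ x : G × M.I, ν x ≠ 0 → M.deg x.2 = 3 ∧ x ∉ Bs M n' ∧ x ∉ Zs M N' := hν1
    have hν2' : ∀ x : G × M.I, 10 ≤ lev x.1 → pair (op M T M.E (Finsupp.single x 1)) ν = ν x :=
      hν2
    have hBB : Bs M n ⊆ Bs M n' := hA.BB'
    set a : Ch M Λ := Finsupp.onFinset
      (M.L.ball (N' + 3 * M.u) ×ˢ (Finset.univ : Finset M.I)) (fun x => star (ν x)) (by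
        intro x hx
        rw [Finset.mem_product]
        refine ⟨?_, Finset.mem_univ _⟩
        rw [Len.mem_ball]
        have h1 := (hν1' x (by
          intro h
          apply hx
          rw [h, star_zero])).2.2
        have h2 : ¬ N' + M.u * M.deg x.2 ≤ M.L.l x.1 := h1
        have h3 : M.u * M.deg x.2 ≤ M.u * 3 := Nat.mul_le_mul_left _ (M.deg_le x.2)
        omega) with ha
    have ha_apply : ∀ x, a x = star (ν x) := fun x => rfl
    have hstar : (fun y => star (a y)) = ν := by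
      funext y
      rw [ha_apply, star_star]
    have haV : ∀ y, a y ≠ 0 → y ∉ Bs M n' ∧ y.1 ∈ V := by
      intro y hy
      have h1 := (hν1' y (by
        intro h
        apply hy
        rw [ha_apply, h, star_zero])).2.1
      exact ⟨h1, hVB y fun h => h1 (hBB h)⟩
    have hEa : op M T M.Eᴴ a = a := by
      ext z
      have h1 := h9' M.E a z hFE (fun y hy _ => (haV y hy).2)
      rw [hstar] at h1
      by_cases hz : 10 ≤ lev z.1
      · rw [hν2' z hz] at h1
        rw [ha_apply, h1, star_star]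
      · have hzB : z ∈ Bs M n := by
          by_contra h
          have := hA.levW z h
          omega
        have haz : a z = 0 := by
          by_contra h
          exact (haV z h).1 (hBB hzB)
        have h2 : pair (op M T M.E (Finsupp.single z 1)) ν = 0 := by
          unfold pair Finsupp.sum
          refine Finset.sum_eq_zero fun y hy => ?_
          have h3 := hA.E_B z hzB y (Finsupp.mem_support_iff.1 hy)
          have h4 : ν y = 0 := by
            by_contra h
            exact (hν1' y h).2.1 h3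
          show (op M T M.E (Finsupp.single z 1)) y * ν y = 0
          rw [h4, mul_zero]
        rw [h2] at h1
        have h5 : op M T M.Eᴴ a z = 0 := by
          have := congrArg star h1
          rw [star_star, star_zero] at this
          exact this.symm
        rw [h5, haz]
    obtain ⟨F, a', haF, hF1, ha'1, hEa'⟩ := hQ3' a (by
      intro x hx
      have hx' : ν x ≠ 0 := by
        intro h
        apply hx
        rw [ha_apply, h, star_zero]
      exact hν1' x hx') hEa
    -- `a'` is a multiple of `v0` up to a boundary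
    set P : G × M.I → Prop := fun x => M.deg x.2 = 2 ∧ n < M.L.l x.1 ∧ M.L.l x.1 < N with hP
    have hmem : a' ∈ G3b_S M T P v0 := by
      apply G3b_mem
      intro y hy
      obtain ⟨hy1, hy2, hy3⟩ := ha'1 y hy
      have hyR : R1 < M.L.l y.1 := by omega
      obtain ⟨_, hl2, hl3⟩ := hlift Λ T y.1 (hgood y.1 (by omega))
      obtain ⟨k', p', hp'0, hp'k, hp'S, hp's, hp'N⟩ := hNb y.1 (by
        rw [Finset.mem_filter, Len.mem_ball]
        exact ⟨hy3, hyR⟩)
      obtain ⟨e, he, hee⟩ := htrans k' p' hp'S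
        (fun i hi => le_trans (hp's i hi) (le_max_right _ _))
      rw [hp'0, hp'k] at hee
      refine ⟨(M.w y.2 : Λ) * ((tr T p' 0 k' : unitary Λ) : Λ),
        (M.w y.2 : Λ) • e + bl T y.1 (tl y.1 (ex y.2)), ?_, ?_⟩
      · intro x hx
        by_cases h1 : e x = 0
        · have h2 : bl T y.1 (tl y.1 (ex y.2)) x ≠ 0 := by
            intro h2
            apply hx
            rw [Finsupp.add_apply, Finsupp.smul_apply, h1, h2, smul_zero, add_zero]
          obtain ⟨h3, h4⟩ := hex y.2 _ (G3b_bl T y.1 (ex y.2) x h2)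
          have h3' : 3 - M.deg x.2 = 1 := h3
          have h4' : M.L.l (y.1⁻¹ * x.1) ≤ ρ := h4
          have h5 := G3b_len M.L y.1 x.1
          have h6 := G3b_len' M.L y.1 x.1
          refine ⟨by omega, by omega, by omega⟩
        · obtain ⟨h3, i, hi, h4⟩ := he x h1
          have h5 := G3b_len M.L (p' i) x.1
          have h6 := G3b_len' M.L (p' i) x.1
          have h7 : n + 10 * M.u + 2 * ρ < M.L.l (p' i) := hp'S i hi
          have h8 := hp'N i hi
          refine ⟨h3, by omega, by omega⟩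
      · have h1 := hl2 y.2 (by
          show 3 - M.deg y.2 = 0
          omega)
        show lo T (row M.Eᴴ) (Finsupp.single y 1) = _ • v0 + lo T (row M.Dᴴ) _
        have h2 : (Finsupp.single y 1 : Ch M Λ) = Finsupp.single (y.1, y.2) 1 := rfl
        have hee' : bl T y.1 (tl y.1 o) = ((tr T p' 0 k' : unitary Λ) : Λ) • v0 +
          lo T (row M.Dᴴ) e := hee
        rw [h2, h1, hee', map_add, map_smul, smul_add, mul_smul]
        abel
    obtain ⟨b', e', he', hbe⟩ := hmem
    rw [hEa'] at hbe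
    set F' : Ch M Λ := F + e' with hF'
    have haF' : a = b' • v0 + op M T M.Dᴴ F' := by
      rw [haF, hbe, hF', map_add]
      abel
    have hF'1 : ∀ x, F' x ≠ 0 → M.deg x.2 = 2 ∧ x ∉ Bs M n ∧ x ∉ Zs M N := by
      intro x hx
      by_cases h1 : F x = 0
      · have h2 : e' x ≠ 0 := by
          intro h2
          apply hx
          rw [hF', Finsupp.add_apply, h1, h2, add_zero]
        obtain ⟨h3, h4, h5⟩ := he' x h2
        exact ⟨h3, (hWs x).1 (hin x h4 h5)⟩
      · obtain ⟨h3, h4, h5⟩ := hF1 x h1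
        refine ⟨h3, h4, ?_⟩
        intro h6
        have h7 : N + M.u * M.deg x.2 ≤ M.L.l x.1 := h6
        omega
    refine ⟨star b', fun x => star (F' x), ?_, ?_⟩
    · intro x hx
      have hx' : F' x ≠ 0 := by
        intro h
        apply hx
        show star (F' x) = 0
        rw [h, star_zero]
      obtain ⟨h1, h2⟩ := hF'1 x hx'
      exact ⟨h1, (hWs x).2 h2⟩
    · intro x _
      show ν x = star (v0 x) * star b' + pair (op M T M.D (Finsupp.single x 1))
        (fun y => star (F' y))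
      rw [h9' M.D F' x hFD (fun y hy _ => hVB y (hF'1 y hy).2.1)]
      have h1 : ν x = star (a x) := by rw [ha_apply, star_star]
      rw [h1, haF', Finsupp.add_apply, Finsupp.smul_apply, smul_eq_mul, star_add, star_mul]
  · -- monodromy
    obtain ⟨e, he, hee⟩ := htrans k p (by
      intro i hi
      have h1 := hpR i hi.le
      show n + 10 * M.u + 2 * ρ < M.L.l (p i)
      omega) (fun i hi => le_trans (hpst i hi) (le_max_left _ _))
    rw [← hp0] at hee
    have hee' : v0 = ((tr T p 0 k : unitary Λ) : Λ) • v0 + op M T M.Dᴴ e := hee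
    have heW : ∀ x, e x ≠ 0 → n < M.L.l x.1 ∧ M.L.l x.1 < N := by
      intro x hx
      obtain ⟨-, i, hi, h4⟩ := he x hx
      have h5 := G3b_len M.L (p i) x.1
      have h6 := G3b_len' M.L (p i) x.1
      have h7 := hpR i hi.le
      have h8 := hNl' i hi.le
      exact ⟨by omega, by omega⟩
    refine ⟨fun x => star (e x), ?_, ?_⟩
    · intro x hx
      have hx' : e x ≠ 0 := by
        intro h
        apply hx
        show star (e x) = 0
        rw [h, star_zero]
      exact hin x (heW x hx').1 (heW x hx').2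
    · intro x _
      show star (v0 x) * (1 - star ((tr T p 0 k : unitary Λ) : Λ)) =
        pair (op M T M.D (Finsupp.single x 1)) (fun y => star (e y))
      rw [h9' M.D e x hFD (fun y hy _ => hVB y ((hWs y).1 (hin y (heW y hy).1 (heW y hy).2)).1)]
      have h1 : v0 x = ((tr T p 0 k : unitary Λ) : Λ) * v0 x + op M T M.Dᴴ e x := by
        conv_lhs => rw [hee']
        rw [Finsupp.add_apply, Finsupp.smul_apply, smul_eq_mul]
      have h2 : op M T M.Dᴴ e x = v0 x - ((tr T p 0 k : unitary Λ) : Λ) * v0 x := by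
        rw [eq_sub_iff_add_eq, add_comm]
        exact h1.symm
      rw [h2, star_sub, star_mul, mul_sub, mul_one]

end Pool.Agent.CPD
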