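import Pool.Agent.CPD.StG

/-!
# G4a: calculus of equivariant operators on infinite rational chains
-/

set_option autoImplicit false

namespace Pool.Agent.CPD

open Matrix

section

variable {G : Type} [Group G]

/-- the action of the group ring on functions, evaluated at `g`, as a function of the element
of the group ring -/
private noncomputable def G4a_act (φ : G → ℚ) (g : G) : ZG G →+ ℚ where
  toFun a := a.coeff.sum (fun h n => (n : ℚ) * φ (g * h⁻¹))
  map_zero' := Finsupp.sum_zero_index
  map_add' a b := by
    rw [MonoidAlgebra.coeff_add]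
    refine Finsupp.sum_add_index' (fun _ => ?_) (fun _ _ _ => ?_)
    · rw [Int.cast_zero, zero_mul]
    · rw [Int.cast_add, add_mul]

private lemma G4a_act_single (φ : G → ℚ) (g h : G) (n : ℤ) :
    G4a_act φ g (MonoidAlgebra.single h n) = (n : ℚ) * φ (g * h⁻¹) := by
  show (MonoidAlgebra.single h n : ZG G).coeff.sum (fun h n => (n : ℚ) * φ (g * h⁻¹)) = _
  rw [MonoidAlgebra.coeff_single, Finsupp.sum_single_index]
  rw [Int.cast_zero, zero_mul]

private lemma G4a_act_add (φ ψ : G → ℚ) (g : G) (a : ZG G) :
    G4a_act (fun x => φ x + ψ x) g a = G4a_act φ g a + G4a_act ψ g a := by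
  induction a using MonoidAlgebra.induction_linear with
  | zero => rw [map_zero, map_zero, map_zero, add_zero]
  | add x y hx hy => rw [map_add, map_add, map_add, hx, hy]; ring
  | single h n => rw [G4a_act_single, G4a_act_single, G4a_act_single, mul_add]

private lemma G4a_act_sub (φ ψ : G → ℚ) (g : G) (a : ZG G) :
    G4a_act (fun x => φ x - ψ x) g a = G4a_act φ g a - G4a_act ψ g a := by
  induction a using MonoidAlgebra.induction_linear with
  | zero => rw [map_zero, map_zero, map_zero, sub_zero]
  | add x y hx hy => rw [map_add, map_add, map_add, hx, hy]; ring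
  | single h n => rw [G4a_act_single, G4a_act_single, G4a_act_single, mul_sub]

private lemma G4a_act_sum {I : Type} (s : Finset I) (φ : I → G → ℚ) (g : G) (a : ZG G) :
    G4a_act (fun x => ∑ i ∈ s, φ i x) g a = ∑ i ∈ s, G4a_act (φ i) g a := by
  induction a using MonoidAlgebra.induction_linear with
  | zero => rw [map_zero, Finset.sum_eq_zero fun i _ => map_zero _]
  | add x y hx hy =>
    rw [map_add, hx, hy, ← Finset.sum_add_distrib]
    exact Finset.sum_congr rfl fun i _ => (map_add _ _ _).symm
  | single h n =>
    rw [G4a_act_single, Finset.mul_sum]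
    exact Finset.sum_congr rfl fun i _ => (G4a_act_single _ _ _ _).symm

private lemma G4a_act_act (φ : G → ℚ) (g : G) (a b : ZG G) :
    G4a_act (fun x => G4a_act φ x a) g b = G4a_act φ g (a * b) := by
  induction b using MonoidAlgebra.induction_linear with
  | zero => rw [mul_zero, map_zero, map_zero]
  | add x y hx hy => rw [mul_add, map_add, map_add, hx, hy]
  | single h n =>
    rw [G4a_act_single]
    induction a using MonoidAlgebra.induction_linear with
    | zero => rw [zero_mul, map_zero, map_zero, mul_zero]
    | add x y hx hy => rw [add_mul, map_add, map_add, mul_add, hx, hy]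
    | single k l =>
      rw [MonoidAlgebra.single_mul_single, G4a_act_single, G4a_act_single, Int.cast_mul,
        _root_.mul_inv_rev, mul_assoc]
      ring

private lemma G4a_act_star (φ : G → ℚ) (g : G) (a : ZG G) :
    G4a_act φ g (star a) = a.coeff.sum (fun h n => (n : ℚ) * φ (g * h)) := by
  induction a using MonoidAlgebra.induction_linear with
  | zero =>
    rw [star_zero, map_zero]
    exact Finsupp.sum_zero_index.symm
  | add x y hx hy =>
    rw [star_add, map_add, hx, hy, MonoidAlgebra.coeff_add]
    symm
    refine Finsupp.sum_add_index' (fun _ => ?_) (fun _ _ _ => ?_)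
    · rw [Int.cast_zero, zero_mul]
    · rw [Int.cast_add, add_mul]
  | single h n =>
    have h1 : star (MonoidAlgebra.single h n : ZG G) = MonoidAlgebra.single h⁻¹ n := gs_single h n
    rw [h1, G4a_act_single, MonoidAlgebra.coeff_single, Finsupp.sum_single_index, inv_inv]
    rw [Int.cast_zero, zero_mul]

private lemma G4a_lf {I : Type} [Fintype I] (A : Matrix I I (ZG G)) (c : G × I → ℚ)
    (y : G × I) : lf A c y = ∑ i, G4a_act (fun g => c (g, i)) y.1 (A i y.2) := rfl

private lemma G4a_bl {I : Type} (b : G) (c : (G × I) →₀ ℤ) (f : G × I → ℚ) :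
    pair (bl (triv G ℚ) b c) f = c.sum (fun y n => (n : ℚ) * f y) := by
  unfold pair
  rw [Finsupp.sum_of_support_subset (bl (triv G ℚ) b c) (s := c.support)]
  · refine Finset.sum_congr rfl fun y _ => ?_
    show bl (triv G ℚ) b c y * f y = (c y : ℚ) * f y
    rw [bl_apply]
    show (c y : ℚ) * 1 * f y = _
    rw [mul_one]
  · intro y hy
    rw [Finsupp.mem_support_iff] at hy ⊢
    intro h
    apply hy
    rw [bl_apply, h, Int.cast_zero, zero_mul]
  · intro i _
    rw [zero_mul]

end

theorem G4a : St_G4a := by
  intro G _ M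
  refine ⟨?_, ?_, ?_, ?_, ?_, ?_⟩
  · intro A B c
    funext y
    rw [G4a_lf, G4a_lf]
    have h1 : ∀ j, G4a_act (fun g => lf A c (g, j)) y.1 (B j y.2) =
        ∑ i, G4a_act (fun g => c (g, i)) y.1 (A i j * B j y.2) := by
      intro j
      have h2 : (fun g => lf A c (g, j)) =
          fun g => ∑ i, G4a_act (fun g => c (g, i)) g (A i j) := rfl
      rw [h2, G4a_act_sum]
      refine Finset.sum_congr rfl fun i _ => ?_
      rw [G4a_act_act]
    rw [Finset.sum_congr rfl fun j _ => h1 j, Finset.sum_comm]
    refine Finset.sum_congr rfl fun i _ => ?_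
    rw [← map_sum, Matrix.mul_apply]
  · intro A B c
    constructor
    · funext y
      rw [Pi.add_apply, G4a_lf, G4a_lf, G4a_lf, ← Finset.sum_add_distrib]
      refine Finset.sum_congr rfl fun i _ => ?_
      rw [Matrix.add_apply, map_add]
    · funext y
      rw [Pi.sub_apply, G4a_lf, G4a_lf, G4a_lf, ← Finset.sum_sub_distrib]
      refine Finset.sum_congr rfl fun i _ => ?_
      rw [Matrix.sub_apply, map_sub]
  · intro A c c'
    constructor
    · funext y
      rw [Pi.add_apply, G4a_lf, G4a_lf, G4a_lf, ← Finset.sum_add_distrib]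
      exact Finset.sum_congr rfl fun i _ => G4a_act_add _ _ _ _
    · funext y
      rw [Pi.sub_apply, G4a_lf, G4a_lf, G4a_lf, ← Finset.sum_sub_distrib]
      exact Finset.sum_congr rfl fun i _ => G4a_act_sub _ _ _ _
  · intro A a
    funext x
    induction a using Finsupp.induction_linear with
    | zero =>
      rw [map_zero, Finsupp.zero_apply, G4a_lf]
      symm
      refine Finset.sum_eq_zero fun i _ => ?_
      show (A i x.2).coeff.sum (fun h n => (n : ℚ) * (0 : Ch M ℚ) (x.1 * h⁻¹, i)) = 0
      refine Finset.sum_eq_zero fun h _ => ?_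
      show (((A i x.2).coeff h : ℤ) : ℚ) * 0 = 0
      rw [mul_zero]
    | add a b ha hb =>
      rw [map_add, Finsupp.add_apply, ha, hb, G4a_lf, G4a_lf, G4a_lf, ← Finset.sum_add_distrib]
      exact Finset.sum_congr rfl fun i _ => (G4a_act_add _ _ _ _).symm
    | single z l =>
      classical
      unfold op
      rw [lo_single, Finsupp.smul_apply, bl_apply, row_apply, G4a_lf,
        Finset.sum_eq_single z.2]
      · show _ = (A z.2 x.2).coeff.sum
          (fun h n => (n : ℚ) * (Finsupp.single z l : Ch M ℚ) (x.1 * h⁻¹, z.2))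
        rw [Finsupp.sum_eq_single (z.1⁻¹ * x.1)]
        · have h1 : (x.1 * (z.1⁻¹ * x.1)⁻¹, z.2) = z := by
            rw [_root_.mul_inv_rev, inv_inv, mul_inv_cancel_left]
          rw [h1, Finsupp.single_eq_same]
          show l • ((((A z.2 x.2).coeff (z.1⁻¹ * x.1) : ℤ) : ℚ) * 1) = _
          rw [smul_eq_mul]
          ring
        · intro h _ hne
          rw [Finsupp.single_apply, if_neg, mul_zero]
          intro h1
          apply hne
          rw [h1]
          simp
        · intro h
          rw [Int.cast_zero, zero_mul]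
      · intro i _ hi
        show (A i x.2).coeff.sum
          (fun h n => (n : ℚ) * (Finsupp.single z l : Ch M ℚ) (x.1 * h⁻¹, i)) = 0
        refine Finset.sum_eq_zero fun h _ => ?_
        show _ * (Finsupp.single z l : Ch M ℚ) (x.1 * h⁻¹, i) = 0
        rw [Finsupp.single_apply, if_neg, mul_zero]
        intro h1
        apply hi
        rw [h1]
      · intro h
        exact absurd (Finset.mem_univ _) h
  · intro A f x
    unfold op
    rw [lo_single, one_smul, G4a_bl, G4a_lf]
    unfold row
    rw [← Finsupp.sum_finsetSum_index]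
    · refine Finset.sum_congr rfl fun j _ => ?_
      rw [conjTranspose_apply, G4a_act_star, Finsupp.sum_mapDomain_index]
      · intro y
        rw [Int.cast_zero, zero_mul]
      · intro y a b
        rw [Int.cast_add, add_mul]
    · intro y
      rw [Int.cast_zero, zero_mul]
    · intro y a b
      rw [Int.cast_add, add_mul]
  · intro A c y hA hy
    rw [G4a_lf] at hy
    obtain ⟨i, _, hi⟩ := Finset.exists_ne_zero_of_sum_ne_zero hy
    obtain ⟨h, _, hh⟩ := Finset.exists_ne_zero_of_sum_ne_zero hi
    have h1 : ((A i y.2).coeff h : ℚ) * c (y.1 * h⁻¹, i) ≠ 0 := hh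
    have h2 : (y.1 * h⁻¹)⁻¹ * y.1 = h := by
      rw [_root_.mul_inv_rev, inv_inv, inv_mul_cancel_right]
    have h3 : (A i y.2).coeff h ≠ 0 := by
      intro h3
      apply h1
      rw [h3, Int.cast_zero, zero_mul]
    refine ⟨(y.1 * h⁻¹, i), right_ne_zero_of_mul h1, ?_, ?_⟩
    · show (A i y.2).coeff ((y.1 * h⁻¹)⁻¹ * y.1) ≠ 0
      rwa [h2]
    · show M.L.l ((y.1 * h⁻¹)⁻¹ * y.1) ≤ M.c
      rw [h2]
      exact hA _ _ _ h3

end Pool.Agent.CPD
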