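import Pool.Agent.CPD.StG

/-!
# CPD, module G4c : far cycles of degree one bound far away
-/

set_option autoImplicit false

namespace Pool.Agent.CPD

open Matrix

namespace G4c

variable {G : Type} [Group G]

/-! ## Elementary facts on `lf` -/

theorem lf_zero_mat {I : Type} [Fintype I] (c : G × I → ℚ) :
    lf (0 : Matrix I I (ZG G)) c = 0 := by
  funext y
  unfold lf
  apply Finset.sum_eq_zero
  intro i _
  exact Finsupp.sum_zero_index

theorem lf_zero {I : Type} [Fintype I] (A : Matrix I I (ZG G)) :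
    lf A (0 : G × I → ℚ) = 0 := by
  funext y
  unfold lf
  apply Finset.sum_eq_zero
  intro i _
  apply Finset.sum_eq_zero
  intro h _
  exact mul_zero _

/-- The part of degree `d` of a chain. -/
noncomputable def dp {I : Type} (deg : I → ℕ) (d : ℕ) (c : G × I → ℚ) (x : G × I) : ℚ :=
  if deg x.2 = d then c x else 0

theorem lf_dp {I : Type} [Fintype I] (deg : I → ℕ) (A : Matrix I I (ZG G)) (s d : ℕ)
    (hA : ∀ i j, A i j ≠ 0 → deg i = deg j + s) (c : G × I → ℚ) :
    lf A (dp deg (d + s) c) = dp deg d (lf A c) := by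
  funext y
  unfold dp lf
  by_cases hy : deg y.2 = d
  · rw [if_pos hy]
    refine Finset.sum_congr rfl ?_
    intro i _
    by_cases h0 : A i y.2 = 0
    · rw [h0]
      rfl
    · have h1 : deg i = d + s := by rw [hA i y.2 h0, hy]
      refine Finset.sum_congr rfl ?_
      intro h _
      show _ * (if deg i = d + s then _ else _) = _
      rw [if_pos h1]
  · rw [if_neg hy]
    apply Finset.sum_eq_zero
    intro i _
    by_cases h0 : A i y.2 = 0
    · rw [h0]
      rfl
    · have h1 : ¬ deg i = d + s := by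
        rw [hA i y.2 h0]
        omega
      apply Finset.sum_eq_zero
      intro h _
      show _ * (if deg i = d + s then _ else _) = _
      rw [if_neg h1, mul_zero]

omit [Group G] in
theorem dp_eq {I : Type} (deg : I → ℕ) (d : ℕ) (c : G × I → ℚ)
    (hc : ∀ x, c x ≠ 0 → deg x.2 = d) : dp deg d c = c := by
  funext x
  unfold dp
  by_cases h : deg x.2 = d
  · rw [if_pos h]
  · rw [if_neg h]
    by_contra h1
    exact h (hc x (fun h2 => h1 h2.symm))

/-! ## Integral and rational chains -/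

/-- The rational chain of an integral chain. -/
noncomputable def cq {X : Type} (c : X →₀ ℤ) : X →₀ ℚ :=
  Finsupp.mapRange (fun n : ℤ => (n : ℚ)) Int.cast_zero c

theorem cq_apply {X : Type} (c : X →₀ ℤ) (x : X) : cq c x = (c x : ℚ) := rfl

theorem cq_inj {X : Type} {c c' : X →₀ ℤ} (h : cq c = cq c') : c = c' := by
  ext x
  have h1 := DFunLike.congr_fun h x
  rw [cq_apply, cq_apply] at h1
  exact_mod_cast h1

theorem op_cq (M : Geo G) (A : Matrix M.I M.I (ZG G)) (c : (G × M.I) →₀ ℤ) :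
    op M (triv G ℚ) A (cq c) = cq (opZ A c) := by
  induction c using Finsupp.induction_linear with
  | zero =>
    have h1 : cq (0 : (G × M.I) →₀ ℤ) = 0 := by
      ext x
      rw [cq_apply, Finsupp.zero_apply, Finsupp.zero_apply, Int.cast_zero]
    rw [h1, map_zero, map_zero, h1]
  | add f g hf hg =>
    have h1 : ∀ a b : (G × M.I) →₀ ℤ, cq (a + b) = cq a + cq b := by
      intro a b
      ext x
      rw [cq_apply, Finsupp.add_apply, Finsupp.add_apply, cq_apply, cq_apply, Int.cast_add]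
    rw [h1, map_add, hf, hg, map_add, h1]
  | single x n =>
    have h1 : cq (Finsupp.single x n) = Finsupp.single x (n : ℚ) := by
      unfold cq
      exact Finsupp.mapRange_single
    rw [h1]
    unfold op opZ
    rw [lo_single, Finsupp.linearCombination_single]
    ext y
    rw [Finsupp.smul_apply, bl_apply, cq_apply, Finsupp.smul_apply]
    show (n : ℚ) * (((row A x) y : ℚ) * ((1 : unitary ℚ) : ℚ)) = (((n : ℤ) * (row A x) y : ℤ) : ℚ)
    rw [Int.cast_mul]
    show (n : ℚ) * (((row A x) y : ℚ) * 1) = _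
    rw [mul_one]

theorem clear_denoms {X : Type} (u : X →₀ ℚ) : ∃ (k : ℤ) (z : X →₀ ℤ), k ≠ 0 ∧
    (k : ℚ) • u = cq z := by
  induction u using Finsupp.induction_linear with
  | zero => exact ⟨1, 0, one_ne_zero, by
      ext x
      rw [smul_zero, cq_apply, Finsupp.zero_apply, Finsupp.zero_apply, Int.cast_zero]⟩
  | add f g hf hg =>
    obtain ⟨k, z, hk, hz⟩ := hf
    obtain ⟨k', z', hk', hz'⟩ := hg
    refine ⟨k * k', k' • z + k • z', mul_ne_zero hk hk', ?_⟩
    ext x
    have h1 := DFunLike.congr_fun hz x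
    have h2 := DFunLike.congr_fun hz' x
    rw [Finsupp.smul_apply, cq_apply, smul_eq_mul] at h1 h2
    rw [Finsupp.smul_apply, Finsupp.add_apply, cq_apply, Finsupp.add_apply, Finsupp.smul_apply,
      Finsupp.smul_apply, smul_eq_mul, smul_eq_mul, smul_eq_mul, Int.cast_add, Int.cast_mul,
      Int.cast_mul, Int.cast_mul, ← h1, ← h2]
    ring
  | single x q =>
    refine ⟨q.den, Finsupp.single x q.num, by exact_mod_cast q.den_nz, ?_⟩
    unfold cq
    rw [Finsupp.mapRange_single, Finsupp.smul_single, smul_eq_mul]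
    congr 1
    rw [Int.cast_natCast, mul_comm]
    exact Rat.mul_den_eq_num q

/-! ## Finite primitives -/

/-- A finite cycle of degree one is the boundary of a finite chain. -/
theorem fin_prim (hE1 : St_E1) (ha4 : St_G4a) (M : Geo G) (u : Ch M ℚ)
    (hdeg : ∀ x, u x ≠ 0 → M.deg x.2 = 1)
    (hD : op M (triv G ℚ) M.D u = 0) (hE : op M (triv G ℚ) M.E u = u) :
    ∃ e : Ch M ℚ, (∀ x, e x ≠ 0 → M.deg x.2 = 2) ∧ op M (triv G ℚ) M.D e = u ∧
      op M (triv G ℚ) M.E e = e := by
  classical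
  obtain ⟨e1, e2, e3, e4, e5, e6, -, -, -⟩ := hE1 G M.I
  obtain ⟨-, -, -, a4, -, -⟩ := ha4 G M
  obtain ⟨k, z, hk, hz⟩ := clear_denoms u
  have hkq : (k : ℚ) ≠ 0 := by exact_mod_cast hk
  have hcq0 : cq (0 : (G × M.I) →₀ ℤ) = 0 := by
    ext x
    rw [cq_apply, Finsupp.zero_apply, Finsupp.zero_apply, Int.cast_zero]
  have hzD : opZ M.D z = 0 := by
    apply cq_inj
    rw [← op_cq, ← hz, map_smul, hD, smul_zero, hcq0]
  have hzE : opZ M.E z = z := by
    apply cq_inj
    rw [← op_cq, ← hz, map_smul, hE]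
  have hz0 : ∀ x, z x ≠ 0 → M.deg x.2 = 1 := by
    intro x hx
    apply hdeg
    intro h1
    have h2 := DFunLike.congr_fun hz x
    rw [Finsupp.smul_apply, h1, smul_zero, cq_apply] at h2
    exact hx (by exact_mod_cast h2.symm)
  have haug : ∑ i, au (toV z i) * M.e i = 0 := by
    rw [← e5]
    unfold augZ
    apply Finset.sum_eq_zero
    intro x hx
    rw [Finsupp.mem_support_iff] at hx
    have h1 := hz0 x hx
    by_cases h2 : M.e x.2 = 0
    · show _ * _ = _
      rw [h2, mul_zero]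
    · have h3 := M.resP.e_deg x.2 h2
      omega
  have htv0 : toV (0 : (G × M.I) →₀ ℤ) = 0 := by
    have h1 := e2 0 0
    rw [add_zero] at h1
    have h2 : toV (0 : (G × M.I) →₀ ℤ) + 0 = toV (0 : (G × M.I) →₀ ℤ) +
      toV (0 : (G × M.I) →₀ ℤ) := by rw [add_zero]; exact h1
    exact (add_left_cancel h2).symm
  obtain ⟨v, hvE, hvD⟩ := M.resP.exact (toV z) (by rw [← e1, hzE]) (by rw [← e1, hzD, htv0]) haug
  obtain ⟨w, hw⟩ := e4 v
  have hwE : opZ M.E w = w := e3 _ _ (by rw [e1, hw, hvE])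
  have hwD : opZ M.D w = z := e3 _ _ (by rw [e1, hw, hvD])
  -- the rational chain
  set r : Ch M ℚ := (k : ℚ)⁻¹ • cq w with hr
  have hrD : op M (triv G ℚ) M.D r = u := by
    rw [hr, map_smul, op_cq, hwD, ← hz, smul_smul, inv_mul_cancel₀ hkq, one_smul]
  have hrE : op M (triv G ℚ) M.E r = r := by
    rw [hr, map_smul, op_cq, hwE]
  -- its part of degree two
  set f : Ch M ℚ := Finsupp.filter (fun x => M.deg x.2 = 2) r with hf
  have hfr : (fun x => f x) = dp M.deg 2 (fun x => r x) := by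
    funext x
    unfold dp
    rw [hf]
    exact Finsupp.filter_apply _ _ _
  have hDr : lf M.D (fun x => r x) = fun x => u x := by
    rw [← a4, hrD]
  have hEr : lf M.E (fun x => r x) = fun x => r x := by
    rw [← a4, hrE]
  refine ⟨f, ?_, ?_, ?_⟩
  · intro x hx
    have h1 := congrFun hfr x
    by_contra h2
    unfold dp at h1
    rw [if_neg h2] at h1
    exact hx h1
  · have h1 : lf M.D (fun x => f x) = fun x => u x := by
      rw [hfr]
      have h2 := lf_dp M.deg M.D 1 1 M.resP.D_deg (fun x => r x)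
      rw [h2, hDr]
      exact dp_eq M.deg 1 _ hdeg
    rw [← a4] at h1
    ext x
    exact congrFun h1 x
  · have h1 : lf M.E (fun x => f x) = fun x => f x := by
      rw [hfr]
      have h2 := lf_dp M.deg M.E 0 2 M.resP.E_deg (fun x => r x)
      rw [show (2 : ℕ) + 0 = 2 from rfl] at h2
      rw [h2, hEr]
    rw [← a4] at h1
    ext x
    exact congrFun h1 x

/-! ## Lengths -/

theorem len_le (L : Len G) (x y : G) : L.l y ≤ L.l x + L.l (x⁻¹ * y) := by
  have h1 := L.mul x (x⁻¹ * y)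
  rwa [mul_inv_cancel_left] at h1

theorem len_le' (L : Len G) (x y : G) : L.l x ≤ L.l y + L.l (x⁻¹ * y) := by
  have h1 := len_le L y x
  have h2 : y⁻¹ * x = (x⁻¹ * y)⁻¹ := by
    rw [_root_.mul_inv_rev, inv_inv]
  rw [h2, L.inv] at h1
  exact h1

theorem five_star (M : Geo G) (A : Matrix M.I M.I (ZG G)) (h : Five M A) : Five M Aᴴ := by
  intro i j g hg
  rw [Matrix.conjTranspose_apply, star_coeff] at hg
  have h1 := h j i g⁻¹ hg
  rwa [M.L.inv] at h1

end G4c

open G4c in
/-- Module G4c. -/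
theorem thm_G4c (hE1 : St_E1) (hF7 : St_F7) (hF10 : St_F10a) (hGa : St_G4a) (hGb : St_G4b) :
    St_G4c := by
  intro G _ M m g0 hAdm
  classical
  obtain ⟨a1, a2, a3, a4, -, a6⟩ := hGa G M
  obtain ⟨-, -, -, f4, f5⟩ := hF7 G M ℚ (triv G ℚ) m
  obtain ⟨N2, hN2⟩ := hF10 G M ℚ (triv G ℚ) Set.univ g0 m hAdm
  refine ⟨0, fun N' _ => ?_⟩
  obtain ⟨n1, hn1⟩ := f5 (N' + 10 * M.u)
  refine ⟨N2 + n1 + N' + 20 * M.u, fun N hN u hu hD hE => ?_⟩
  have hcu : M.u = M.c + 1 := rfl
  have hdegu : ∀ x, u x ≠ 0 → M.deg x.2 = 1 := fun x hx => (hu x hx).1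
  have hlenu : ∀ x, u x ≠ 0 → N ≤ M.L.l x.1 := fun x hx => by
    have h1 : N + M.u * M.deg x.2 ≤ M.L.l x.1 := (hu x hx).2
    omega
  obtain ⟨e', he'deg, he'D, he'E⟩ := fin_prim hE1 hGa M u hdegu hD hE
  have F1 : Five M M.D := M.prop_D
  have F2 : Five M M.E := M.prop_E
  have F3 : Five M M.Ps := M.prop_Ps
  have F4 : Five M M.Ph := M.prop_Ph
  have F5 : Five M M.h := M.prop_h
  have F6 : Five M M.Dᴴ := five_star M M.D F1
  -- function versions
  set U : G × M.I → ℚ := fun x => u x with hU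
  have hDU : lf M.D U = 0 := by
    rw [hU, ← a4, hD]
    rfl
  have hEU : lf M.E U = U := by
    rw [hU, ← a4, hE]
  set b : Ch M ℚ := op M (triv G ℚ) M.Ps u with hb
  have hbU : (fun x => b x) = lf M.Ps U := by
    rw [hb, a4]
  -- supports of b
  have hbsup : ∀ y, b y ≠ 0 → M.deg y.2 = 2 ∧ N ≤ M.L.l y.1 + M.c := by
    intro y hy
    have h1 : lf M.Ps U y ≠ 0 := by
      rw [← hbU]
      exact hy
    obtain ⟨x, hx, hx2, hx3⟩ := a6 M.Ps U y F3 h1
    have h2 : M.Ps x.2 y.2 ≠ 0 := fun h => hx2 (by rw [h]; rfl)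
    have h3 := M.Ps_deg x.2 y.2 h2
    have h4 := hdegu x hx
    have h5 := hlenu x hx
    have h6 := len_le' M.L x.1 y.1
    constructor <;> omega
  have hbD : op M (triv G ℚ) M.Dᴴ b = 0 := by
    ext x
    have h1 := congrFun (a4 M.Dᴴ b) x
    show op M (triv G ℚ) M.Dᴴ b x = 0
    rw [show op M (triv G ℚ) M.Dᴴ b x = lf M.Dᴴ (fun x => b x) x from h1, hbU, a1, ← M.DPs,
      ← a1, hDU, lf_zero]
    rfl
  have hbE : lf M.Eᴴ (lf M.Ps U) = lf M.Ps U := by
    rw [a1, M.PsE]
  obtain ⟨-, hQ⟩ := hN2 b (fun y hy => by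
    have h1 := (hbsup y hy).2
    omega)
  set t : G × M.I → ℚ := tH M (triv G ℚ) m b with ht
  have htH0 : ∀ z, tH M (triv G ℚ) m (0 : Ch M ℚ) z = 0 := fun z => Finsupp.sum_zero_index
  have hBt : lf M.Ps U = lf M.Dᴴ t := by
    funext z
    have h1 := hQ (M.L.l z.1 + M.c) z (le_refl _)
    rw [hbD, htH0, zero_add] at h1
    have h2 : op M (triv G ℚ) M.Eᴴ b z = lf M.Ps U z := by
      have h3 := congrFun (a4 M.Eᴴ b) z
      rw [hbU, hbE] at h3
      exact h3
    have h4 := congrFun (a4 M.Dᴴ (trunc M (M.L.l z.1 + M.c) t)) z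
    have h5 : lf M.Dᴴ (t - fun x => trunc M (M.L.l z.1 + M.c) t x) z = 0 := by
      by_contra h6
      obtain ⟨x, hx, -, hx3⟩ := a6 _ _ z F6 h6
      apply hx
      show t x - (if M.L.l x.1 ≤ M.L.l z.1 + M.c then t x else 0) = 0
      rw [if_pos, sub_self]
      have h7 := len_le' M.L x.1 z.1
      omega
    rw [(a3 _ _ _).2] at h5
    have h6 : lf M.Dᴴ t z = lf M.Dᴴ (fun x => trunc M (M.L.l z.1 + M.c) t x) z := by
      have h7 : lf M.Dᴴ t z - lf M.Dᴴ (fun x => trunc M (M.L.l z.1 + M.c) t x) z = 0 := h5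
      linarith
    rw [h6, ← h2, h1]
    exact h4
  -- the infinite chain
  set q : G × M.I → ℚ := lf M.Ph t - lf M.h U with hq
  have hPh : M.Ps * M.Ph - M.h * M.D = M.E + M.D * M.h := by
    have h1 := M.homot
    rw [sub_eq_iff_eq_add] at h1
    rw [h1]
    abel
  have hqD : lf M.D q = U := by
    rw [hq, (a3 _ _ _).2, a1, a1, ← M.DPh, ← a1, ← hBt, a1, ← (a2 _ _ _).2, hPh, (a2 _ _ _).1,
      hEU, ← a1, hDU, lf_zero, add_zero]
  have hqE : lf M.E q = q := by
    rw [hq, (a3 _ _ _).2, a1, a1, M.PhE, M.hE]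
  have htsup : ∀ z, t z ≠ 0 → M.deg z.2 = 1 ∧ N' + 10 * M.u < M.L.l z.1 := by
    intro z hz
    obtain ⟨y, hy, hy2⟩ : ∃ y, b y ≠ 0 ∧ Hm M (triv G ℚ) m (Finsupp.single z 1) y ≠ 0 := by
      by_contra hne
      push Not at hne
      apply hz
      apply Finset.sum_eq_zero
      intro y hy
      show b y * star _ = 0
      rw [hne y (Finsupp.mem_support_iff.1 hy), star_zero, mul_zero]
    obtain ⟨j, -, hj2, -, hj4⟩ := f4 z y hy2
    obtain ⟨hb1, hb2⟩ := hbsup y hy
    refine ⟨by omega, ?_⟩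
    by_contra hlt
    have h1 := hn1 z y j (by omega) (Or.inl hj2)
    omega
  have hqsup : ∀ z, q z ≠ 0 → M.deg z.2 = 2 ∧ N' + M.u * 2 ≤ M.L.l z.1 := by
    intro z hz
    by_cases h1 : lf M.Ph t z = 0
    · have h2 : lf M.h U z ≠ 0 := by
        intro h3
        apply hz
        show lf M.Ph t z - lf M.h U z = 0
        rw [h1, h3, sub_zero]
      obtain ⟨x, hx, hx2, hx3⟩ := a6 _ _ z F5 h2
      have h3 : M.h x.2 z.2 ≠ 0 := fun h => hx2 (by rw [h]; rfl)
      have h4 := M.h_deg x.2 z.2 h3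
      have h5 := hdegu x hx
      have h6 := hlenu x hx
      have h7 := len_le' M.L x.1 z.1
      constructor <;> omega
    · obtain ⟨x, hx, hx2, hx3⟩ := a6 _ _ z F4 h1
      have h3 : M.Ph x.2 z.2 ≠ 0 := fun h => hx2 (by rw [h]; rfl)
      have h4 := M.Ph_deg x.2 z.2 h3
      obtain ⟨h5, h6⟩ := htsup x hx
      have h7 := len_le' M.L x.1 z.1
      constructor <;> omega
  -- G4b
  set f : G × M.I → ℚ := fun x => e' x with hf
  have hfD : lf M.D f = U := by
    rw [hf, ← a4, he'D]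
  have hfE : lf M.E f = f := by
    rw [hf, ← a4, he'E]
  obtain ⟨b', hb'deg, hb'D⟩ := hGb G M (f - q) (by
    intro x hx
    by_cases h1 : f x = 0
    · refine (hqsup x ?_).1
      intro h2
      apply hx
      show f x - q x = 0
      rw [h1, h2, sub_zero]
    · exact he'deg x h1) (by rw [(a3 _ _ _).2, hfD, hqD, sub_self])
    (by rw [(a3 _ _ _).2, hfE, hqE])
  set bP : Ch M ℚ := trunc M (N' + 10 * M.u) b' with hbP
  have hfin : (fun x => (e' - op M (triv G ℚ) M.D bP) x) = q + lf M.D (b' - fun x => bP x) := by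
    have h1 : (fun x => (e' - op M (triv G ℚ) M.D bP) x) = f - lf M.D (fun x => bP x) := by
      rw [← a4]
      rfl
    rw [h1, (a3 _ _ _).2, hb'D]
    abel
  refine ⟨e' - op M (triv G ℚ) M.D bP, ?_, ?_⟩
  · intro x hx
    have h1 : q x + lf M.D (b' - fun x => bP x) x ≠ 0 := by
      have h2 := congrFun hfin x
      intro h3
      apply hx
      exact h2.trans h3
    by_cases h2 : q x = 0
    · have h3 : lf M.D (b' - fun x => bP x) x ≠ 0 := by
        intro h4
        exact h1 (by rw [h2, h4, add_zero])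
      obtain ⟨y, hy, hy2, hy3⟩ := a6 _ _ x F1 h3
      have h4 : M.D y.2 x.2 ≠ 0 := fun h => hy2 (by rw [h]; rfl)
      have h5 := M.resP.D_deg y.2 x.2 h4
      have hy' : b' y - (if M.L.l y.1 ≤ N' + 10 * M.u then b' y else 0) ≠ 0 := hy
      by_cases h6 : M.L.l y.1 ≤ N' + 10 * M.u
      · rw [if_pos h6, sub_self] at hy'
        exact absurd rfl hy'
      · rw [if_neg h6, sub_zero] at hy'
        have h7 := hb'deg y hy'
        have h8 := len_le' M.L y.1 x.1
        have h9 : M.deg x.2 = 2 := by omega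
        refine ⟨h9, ?_⟩
        show N' + M.u * M.deg x.2 ≤ M.L.l x.1
        rw [h9]
        omega
    · obtain ⟨h3, h4⟩ := hqsup x h2
      refine ⟨h3, ?_⟩
      show N' + M.u * M.deg x.2 ≤ M.L.l x.1
      rw [h3]
      exact h4
  · rw [map_sub, he'D]
    have h1 : op M (triv G ℚ) M.D (op M (triv G ℚ) M.D bP) = 0 := by
      ext x
      have h2 := congrFun (a4 M.D (op M (triv G ℚ) M.D bP)) x
      rw [a4, a1, M.resP.DD, lf_zero_mat] at h2
      exact h2
    rw [h1, sub_zero]

end Pool.Agent.CPD
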