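import Pool.Agent.CPD.StG

/-!
# The truncated fundamental class
-/

set_option autoImplicit false

namespace Pool.Agent.CPD

open Matrix

section G4daux

private theorem lin_apply_ne {X : Type} (F : (X →₀ ℚ) →ₗ[ℚ] (X →₀ ℚ)) (v : X →₀ ℚ) (y : X)
    (h : F v y ≠ 0) : ∃ a, v a ≠ 0 ∧ F (Finsupp.single a 1) y ≠ 0 := by
  by_contra hcon
  apply h
  have h1 : F v = ∑ a ∈ v.support, v a • F (Finsupp.single a 1) := by
    conv_lhs => rw [← Finsupp.sum_single v]
    rw [Finsupp.sum, map_sum]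
    apply Finset.sum_congr rfl
    intro a _
    rw [← map_smul, Finsupp.smul_single, smul_eq_mul, mul_one]
  rw [h1, Finsupp.finsetSum_apply]
  apply Finset.sum_eq_zero
  intro a ha
  rw [Finsupp.smul_apply]
  by_cases h2 : F (Finsupp.single a 1) y = 0
  · rw [h2, smul_zero]
  · exact absurd ⟨a, Finsupp.mem_support_iff.mp ha, h2⟩ hcon

variable {G : Type} [Group G]

private theorem G4d_au (a : ZG G) : au a = a.coeff.sum (fun _ n => n) := by
  unfold au
  rw [MonoidAlgebra.lift_apply]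
  apply Finsupp.sum_congr
  intro x _
  simp

private theorem G4d_au_star (a : ZG G) : au (star a) = au a := by
  rw [G4d_au, G4d_au]
  show (a.coeff.equivMapDomain (Equiv.inv G)).sum (fun _ n => n) = _
  rw [Finsupp.sum_equivMapDomain]

/-- Elements of every length exist. -/
private theorem G4d_len [Infinite G] (L : Len G) (k : ℕ) : ∃ g, L.l g = k := by
  have h1 : ∃ g, k < L.l g := by
    by_contra hcon
    have h2 : (Set.univ : Set G).Finite := (L.fin k).subset (fun g _ => by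
      by_contra h3
      exact hcon ⟨g, not_le.mp h3⟩)
    exact Set.infinite_univ h2
  obtain ⟨g, hg⟩ := h1
  have h2 : ∀ d, ∃ x, L.l x = L.l g - d := by
    intro d
    induction d with
    | zero => exact ⟨g, rfl⟩
    | succ d ih =>
      obtain ⟨x, hx⟩ := ih
      by_cases h3 : L.l g - d = 0
      · exact ⟨x, by omega⟩
      · obtain ⟨s, _, hs⟩ := L.path x (L.l g - (d + 1)) (by omega)
        exact ⟨x * s, hs⟩
  obtain ⟨x, hx⟩ := h2 (L.l g - k)
  exact ⟨x, by omega⟩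

end G4daux

theorem G4d (h7 : St_F7) (h11 : St_F11) (ga : St_G4a) : St_G4d := by
  classical
  intro G _ _ M m n
  obtain ⟨_, _, _, g4, _, g6⟩ := ga G M
  obtain ⟨f11, _⟩ := h11 G M ℚ (triv G ℚ) m
  refine ⟨0, fun n' _ => ⟨0, fun N' _ => ⟨n + 10 * M.u, fun N hN => ⟨0, fun Q _ => ?_⟩⟩⟩⟩
  obtain ⟨R', hR'⟩ := f11 (N + 10 * M.u)
  have hu : M.u = M.c + 1 := rfl
  obtain ⟨P, hP⟩ : ∃ P : ℕ, P = N + n' + R' + 20 * M.u := ⟨_, rfl⟩
  let Om : Ch M ℚ := trunc M P (fun x => (M.w x.2 : ℚ))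
  have hOm1 : ∀ x : G × M.I, M.L.l x.1 ≤ P → Om x = (M.w x.2 : ℚ) := fun x hx => if_pos hx
  have hOm2 : ∀ x : G × M.I, ¬ M.L.l x.1 ≤ P → Om x = 0 := fun x hx => if_neg hx
  have hdeg : ∀ i, M.w i ≠ 0 → M.deg i = 3 := by
    intro i hi
    have h1 := M.resQ.e_deg i hi
    have h2 := M.deg_le i
    omega
  have htri : ∀ x y : G, M.L.l (x * y) ≤ M.L.l x + M.L.l y := M.L.mul
  have hback : ∀ x y : G, M.L.l y ≤ M.L.l x + M.L.l (x⁻¹ * y) := by
    intro x y
    have h1 := M.L.mul x (x⁻¹ * y)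
    rw [mul_inv_cancel_left] at h1
    exact h1
  have hback2 : ∀ x y : G, M.L.l x ≤ M.L.l y + M.L.l (x⁻¹ * y) := by
    intro x y
    have h1 := hback y x
    have h2 : (y⁻¹ * x)⁻¹ = x⁻¹ * y := by rw [_root_.mul_inv_rev, inv_inv]
    rw [← h2, M.L.inv]
    exact h1
  -- values of equivariant operators on the class
  have hval : ∀ (A : Matrix M.I M.I (ZG G)), (∀ i j g, (A i j).coeff g ≠ 0 → M.L.l g ≤ M.c) →
      ∀ y : G × M.I, M.L.l y.1 + M.c ≤ P →
      op M (triv G ℚ) A Om y = ((∑ i, au (Aᴴ y.2 i) * M.w i : ℤ) : ℚ) := by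
    intro A hA y hy
    have h1 := congrFun (g4 A Om) y
    rw [show op M (triv G ℚ) A Om y = lf A (fun x => Om x) y from h1]
    unfold lf
    rw [Int.cast_sum]
    apply Finset.sum_congr rfl
    intro i _
    rw [Matrix.conjTranspose_apply, G4d_au_star, G4d_au, Finsupp.sum, Finsupp.sum, Int.cast_mul,
      Int.cast_sum, Finset.sum_mul]
    apply Finset.sum_congr rfl
    intro h hh
    have h2 := hA i y.2 h (Finsupp.mem_support_iff.mp hh)
    have h3 : M.L.l (y.1 * h⁻¹) ≤ P := by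
      have h4 := M.L.mul y.1 h⁻¹
      rw [M.L.inv] at h4
      omega
    show (((A i y.2).coeff h : ℤ) : ℚ) * Om (y.1 * h⁻¹, i) = _
    rw [hOm1 _ h3]
  have hD0 : ∀ y : G × M.I, op M (triv G ℚ) M.D Om y ≠ 0 → P < M.L.l y.1 + M.c := by
    intro y hy
    by_contra h1
    apply hy
    rw [hval M.D M.prop_D y (by omega), M.resQ.De y.2, Int.cast_zero]
  have hE0 : ∀ y : G × M.I, (op M (triv G ℚ) M.E Om - Om) y ≠ 0 → P < M.L.l y.1 + M.c := by
    intro y hy
    by_contra h1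
    apply hy
    rw [Finsupp.sub_apply, hval M.E M.prop_E y (by omega), M.resQ.Ee y.2,
      hOm1 y (by omega), sub_self]
  have hZ : ∀ x : G × M.I, N + 3 * M.u ≤ M.L.l x.1 → x ∈ Zs M N := by
    intro x hx
    show N + M.u * M.deg x.2 ≤ M.L.l x.1
    have h1 : M.u * M.deg x.2 ≤ M.u * 3 := Nat.mul_le_mul_left _ (M.deg_le x.2)
    omega
  refine ⟨Om, ?_, ?_, ?_, ?_, ?_⟩
  · intro x hx
    by_cases h1 : M.L.l x.1 ≤ P
    · rw [hOm1 x h1] at hx
      exact hdeg x.2 (fun h2 => hx (by rw [h2, Int.cast_zero]))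
    · exact absurd (hOm2 x h1) hx
  · intro x hx
    have h1 := hD0 x hx
    exact hZ x (by omega)
  · intro x hx
    have h1 := hE0 x hx
    exact hZ x (by omega)
  · intro x hx
    have hfar : ∀ a : G × M.I, op M (triv G ℚ) M.E (op M (triv G ℚ) M.D Om) a ≠ 0 →
        P < M.L.l a.1 + 2 * M.c := by
      intro a ha
      have h1 := congrFun (g4 M.E (op M (triv G ℚ) M.D Om)) a
      rw [show op M (triv G ℚ) M.E (op M (triv G ℚ) M.D Om) a =
        lf M.E (fun x => op M (triv G ℚ) M.D Om x) a from h1] at ha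
      obtain ⟨b, hb, _, hb2⟩ := g6 M.E (fun x => op M (triv G ℚ) M.D Om x) a M.prop_E ha
      have h2 := hD0 b hb
      have h3 := hback2 b.1 a.1
      omega
    have hc1 : cut {x : G × M.I | M.L.l x.1 ≤ n' + M.u}
        (op M (triv G ℚ) M.E (op M (triv G ℚ) M.D Om)) = 0 := by
      ext a
      rw [Finsupp.zero_apply]
      by_cases h1 : M.L.l a.1 ≤ n' + M.u
      · rw [cut_apply_of_mem _ _ (show a ∈ {x : G × M.I | M.L.l x.1 ≤ n' + M.u} from h1)]
        by_contra h2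
        have h3 := hfar a h2
        omega
      · exact cut_apply_of_notMem _ _ h1
    have hth : th M (triv G ℚ) m n' N' Q (op M (triv G ℚ) M.D Om) =
        Hm M (triv G ℚ) m (cut {x : G × M.I | M.L.l x.1 ≤ n' + M.u}
          (op M (triv G ℚ) M.E (op M (triv G ℚ) M.D Om))) +
        Ho M (triv G ℚ) m Q (cut {x : G × M.I | N' ≤ M.L.l x.1 + M.u}
          (op M (triv G ℚ) M.E (op M (triv G ℚ) M.D Om))) := rfl
    rw [hth, hc1, map_zero, zero_add] at hx
    obtain ⟨a, ha, ha2⟩ := lin_apply_ne _ _ _ hx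
    have h4 : op M (triv G ℚ) M.E (op M (triv G ℚ) M.D Om) a ≠ 0 := by
      intro h5
      apply ha
      by_cases h6 : a ∈ {x : G × M.I | N' ≤ M.L.l x.1 + M.u}
      · rw [cut_apply_of_mem _ _ h6, h5]
      · exact cut_apply_of_notMem _ _ h6
    have h5 := hfar a h4
    have h6 := hR' Q a x (by omega) ha2
    exact hZ x (by omega)
  · obtain ⟨v, _, hv⟩ := M.resQ.surj
    have h1 : ∑ i, au (v i) * M.w i ≠ 0 := by
      rw [hv]
      exact one_ne_zero
    obtain ⟨i, _, hi⟩ := Finset.exists_ne_zero_of_sum_ne_zero h1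
    have hw : M.w i ≠ 0 := fun h2 => hi (by rw [h2, mul_zero])
    have hd := hdeg i hw
    obtain ⟨g, hg⟩ := G4d_len M.L (n + 5 * M.u)
    intro h2
    have h3 : ((g, i) : G × M.I) ∈ (Bs M n ∪ Zs M N)ᶜ := by
      rintro (h4 | h4)
      · have h5 : M.L.l g + M.u * M.deg i ≤ n := h4
        rw [hg, hd] at h5
        omega
      · have h5 : N + M.u * M.deg i ≤ M.L.l g := h4
        rw [hg, hd] at h5
        omega
    have h4 := cut_apply_of_mem _ Om h3
    rw [h2, Finsupp.zero_apply, hOm1 (g, i) (by show M.L.l g ≤ P; omega)] at h4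
    exact hw (by exact_mod_cast h4.symm)

end Pool.Agent.CPD
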