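import Pool.Agent.CPD.StG

/-!
# Combable PD₃-groups : the Euler number of the geometric zone over `ℚ`
-/

set_option autoImplicit false

namespace Pool.Agent.CPD

open Matrix

private theorem G5_pair_bl {G I : Type} [Group G] (e : I → ℤ) (b : G) (c : (G × I) →₀ ℤ) :
    pair (bl (triv G ℚ) b c) (fun x => (e x.2 : ℚ)) = (augZ e c : ℚ) := by
  unfold pair bl augZ
  rw [Finsupp.onFinset_sum _ (fun _ => zero_mul _), Finsupp.sum, Int.cast_sum]
  refine Finset.sum_congr rfl fun y _ => ?_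
  rw [Int.cast_mul]
  simp [triv]

private theorem G5_augZ_add {G I : Type} [Group G] (e : I → ℤ) (c c' : (G × I) →₀ ℤ) :
    augZ e (c + c') = augZ e c + augZ e c' := by
  classical
  unfold augZ
  exact Finsupp.sum_add_index' (fun _ => zero_mul _) (fun _ _ _ => add_mul _ _ _)

private theorem G5_augZ_sum {G I ι : Type} [Group G] (e : I → ℤ) (s : Finset ι)
    (f : ι → (G × I) →₀ ℤ) : augZ e (∑ j ∈ s, f j) = ∑ j ∈ s, augZ e (f j) := by
  classical
  induction s using Finset.induction_on with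
  | empty => simp [augZ]
  | insert a s ha ih => rw [Finset.sum_insert ha, Finset.sum_insert ha, G5_augZ_add, ih]

private theorem G5_au {G : Type} [Group G] (a : ZG G) : au a = a.coeff.sum (fun _ n => n) := by
  classical
  induction a using MonoidAlgebra.induction_linear with
  | zero => simp
  | add x y hx hy =>
    rw [map_add, hx, hy, MonoidAlgebra.coeff_add]
    exact (Finsupp.sum_add_index' (fun _ => rfl) (fun _ _ _ => rfl)).symm
  | single g n =>
    rw [MonoidAlgebra.coeff_single, Finsupp.sum_single_index rfl]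
    unfold au
    rw [MonoidAlgebra.lift_single]
    simp

private theorem G5_augZ_row {G I : Type} [Group G] [Fintype I] (A : Matrix I I (ZG G))
    (e : I → ℤ) (x : G × I) : augZ e (row A x) = ∑ j, au (A x.2 j) * e j := by
  classical
  unfold row
  rw [G5_augZ_sum]
  refine Finset.sum_congr rfl fun j _ => ?_
  unfold augZ
  rw [Finsupp.sum_mapDomain_index (fun _ => zero_mul _) (fun _ _ _ => add_mul _ _ _), G5_au,
    Finsupp.sum, Finsupp.sum, Finset.sum_mul]

private theorem G5_pair_op {G : Type} [Group G] (M : Geo G) (A : Matrix M.I M.I (ZG G))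
    (x : G × M.I) : pair (op M (triv G ℚ) A (Finsupp.single x 1)) (fun y => (M.e y.2 : ℚ)) =
      ((∑ j, au (A x.2 j) * M.e j : ℤ) : ℚ) := by
  unfold op
  rw [lo_single, one_smul, G5_pair_bl, G5_augZ_row]

private theorem G5_lift {P : ℕ → ℕ → Prop} (h : Ev fun N' => Ev fun N => P N' N) :
    Ev4 fun _ N' N _ => P N' N :=
  ⟨0, fun _ _ => Ev.mono (fun _ h1 => Ev.mono (fun _ h2 => ⟨0, fun _ _ => h2⟩) h1) h⟩

private theorem G5_mono {P R : ℕ → ℕ → ℕ → ℕ → Prop} (h : ∀ a b c d, P a b c d → R a b c d)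
    (hP : Ev4 P) : Ev4 R :=
  Ev.mono (fun _ h1 => Ev.mono (fun _ h2 => Ev.mono (fun _ h3 => Ev.mono
    (fun _ h4 => h _ _ _ _ h4) h3) h2) h1) hP

theorem G5 (g0 : St_G0) (g2 : St_G2) (g3 : St_G3b) (_g4a : St_G4a) (g4c : St_G4c)
    (g4d : St_G4d) (z : St_Z10) : St_G5 := by
  intro G _ _ M γ m hadm
  obtain ⟨-, -, -, -, hlev, -⟩ := g0 G M ℚ (triv G ℚ)
  have hals : IsALS (triv G ℚ) := (g0 G M ℚ (triv G ℚ)).2.2.2.2.2
  have h3 := g3 G M ℚ (triv G ℚ) Set.univ γ m (fun _ => 30) hals hadm (hlev m) 1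
  refine Ev.mono (fun n hn => ?_) h3
  obtain ⟨R1, hR1⟩ := hn
  obtain ⟨g, hg⟩ := (M.L.fin R1).infinite_compl.nonempty
  have hg' : R1 < M.L.l g := not_le.1 hg
  have h3' := hR1 0 (fun _ => g) rfl (fun _ _ => hg') (fun i hi => absurd hi (Nat.not_lt_zero i))
  have h2 := g2 G M ℚ (triv G ℚ) Set.univ γ m (fun _ => 30) hals hadm (hlev m) n
  have h4 := g4d G M m n
  have h5 := G5_lift (g4c G M m γ hadm)
  refine G5_mono (fun n' N' N Q hall => ?_) ((h3'.and h2).and (h4.and h5))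
  obtain ⟨⟨k3, k2⟩, k4, k5⟩ := hall
  intro hA hB
  obtain ⟨b0, hb0, -⟩ := k3 hA hB
  obtain ⟨g1, c0, hc0, hcyc⟩ := k2 hA hB
  obtain ⟨Om, o1, o2, o3, o4, o5⟩ := k4
  refine z (mkZone hA hB) (bl (triv G ℚ) g1 c0) Om b0 (fun x => (M.e x.2 : ℚ))
    (fun _ => by change 20 ≤ 30; norm_num) hcyc hb0 ?_ ?_ ?_ ?_ o1 o2 o3 o4 o5 k5
  · intro x hx
    exact M.resP.e_deg x.2 (fun h => hx (by simp [h]))
  · intro x
    have h1 := G5_pair_op M M.D x
    rw [M.resP.De x.2, Int.cast_zero] at h1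
    exact h1
  · intro x
    have h1 := G5_pair_op M M.E x
    rw [M.resP.Ee x.2] at h1
    exact h1
  · have h1 := G5_pair_bl M.e g1 c0
    rw [hc0, Int.cast_one] at h1
    exact h1

end Pool.Agent.CPD
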