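import Pool.Agent.CPD.StG

/-!
# The core theorem: asymptotic local systems are trivial at infinity
-/

set_option autoImplicit false

namespace Pool.Agent.CPD

open Matrix

theorem Ev4.exists {P : ℕ → ℕ → ℕ → ℕ → Prop} (h : Ev4 P) : ∃ a b c d, P a b c d := by
  obtain ⟨a, ha⟩ := h
  obtain ⟨b, hb⟩ := ha a (le_refl _)
  obtain ⟨c, hc⟩ := hb b (le_refl _)
  obtain ⟨d, hd⟩ := hc c (le_refl _)
  exact ⟨a, b, c, d, hd d (le_refl _)⟩

/-- Group elements as unitary elements of the group ring. -/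
noncomputable def uhom (π : Type) [Group π] : π →* unitary (MonoidAlgebra ℤ π) where
  toFun g := ⟨MonoidAlgebra.single g 1, by
    have h1 : star (MonoidAlgebra.single g (1 : ℤ)) = MonoidAlgebra.single g⁻¹ 1 := gs_single g 1
    rw [Unitary.mem_iff, h1, MonoidAlgebra.single_mul_single, MonoidAlgebra.single_mul_single,
      inv_mul_cancel, mul_inv_cancel, mul_one]
    exact ⟨rfl, rfl⟩⟩
  map_one' := rfl
  map_mul' g h := by
    apply Subtype.ext
    show MonoidAlgebra.single (g * h) (1 : ℤ) = MonoidAlgebra.single g 1 * MonoidAlgebra.single h 1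
    rw [MonoidAlgebra.single_mul_single, mul_one]

theorem tr_hom {G π π' : Type} [Group G] [Group π] [Group π'] (F : π →* π') (T : G → G → π)
    (p : ℕ → G) : ∀ (n a : ℕ), tr (fun v h => F (T v h)) p a n = F (tr T p a n)
  | 0, a => by
    show (1 : π') = F 1
    rw [map_one]
  | n + 1, a => by
    show F (T (p a) ((p a)⁻¹ * p (a + 1))) * tr (fun v h => F (T v h)) p (a + 1) n = F (_ * _)
    rw [tr_hom F T p n (a + 1), map_mul]

theorem G7 (tr1 : St_TR1) (kap : St_KAP) (z9 : St_Z9) (g0 : St_G0) (g1a : St_G1a)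
    (g1b : St_G1b) (g2 : St_G2) (g3 : St_G3b) (g6 : St_G6) : St_G7 := by
  intro G _ M π _ T hT R
  by_cases hfin : Finite G
  · exact ⟨Set.univ, Set.finite_univ,
      fun n p _ h => absurd (Set.mem_univ _) (h 0 (Nat.zero_le _))⟩
  have hinf : Infinite G := not_finite_iff_infinite.mp hfin
  let Λ : Type := MonoidAlgebra ℤ π
  let T' : G → G → unitary (MonoidAlgebra ℤ π) := fun v h => uhom π (T v h)
  have hT' : IsALS T' := by
    intro h h'
    filter_upwards [hT h h'] with v hv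
    show uhom π (T v h) * uhom π (T (v * h) h') = uhom π (T v (h * h'))
    rw [← map_mul, hv]
  let t : MonoidAlgebra ℤ π →+ ℤ :=
    { toFun := fun a => a.coeff 1
      map_zero' := rfl
      map_add' := fun a b => rfl }
  have ht1 : t 1 = 1 := MonoidAlgebra.coeff_one_one
  have htr : ∀ a b, t (a * b) = t (b * a) := fun a b => tr1 π a b
  have hkap : ∀ (n : Type) [Fintype n] [DecidableEq n] (q : Matrix n n (MonoidAlgebra ℤ π)),
      q * q = q → ∑ i, t (q i i) = 0 → q = 0 := fun n _ _ q hq h0 => kap π n q hq h0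
  obtain ⟨gg, m, hAdm⟩ := (g0 G M (MonoidAlgebra ℤ π) T').2.1 hT'
  obtain ⟨lev, hlev⟩ := (g0 G M (MonoidAlgebra ℤ π) T').2.2.1 gg m hAdm
  have hAdmQ := (g0 G M (MonoidAlgebra ℤ π) T').2.2.2.1 gg m hAdm
  have e1 := g1a G M _ T' _ gg m lev hAdm hlev
  have e2 := g1b G M _ T' _ gg m lev hAdm hlev
  have e3 := g2 G M _ T' _ gg m lev hT' hAdm hlev
  have e4 := g3 G M _ T' _ gg m lev hT' hAdm hlev R
  have e5 := g6 G M _ T' _ gg m lev t ht1 hAdm hlev hAdmQ
  obtain ⟨n, hn⟩ := (e1.and e4).and e5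
  obtain ⟨⟨h1, R1, h4⟩, h5⟩ := hn n (le_refl _)
  refine ⟨{v | M.L.l v ≤ R1}, M.L.fin R1, ?_⟩
  intro k p hp hD hstep
  have h4' := h4 k p hp (fun i hi => not_le.mp (hD i hi)) hstep
  obtain ⟨n', N', N, Q, ⟨⟨⟨hA, hB⟩, hc1⟩, hc3⟩, hs⟩ :=
    (((h1.and e2).and (e3 n)).and h4' |>.and h5).exists
  obtain ⟨g1, c0, _, hC1⟩ := hc1 hA hB
  obtain ⟨b0, hC3, f, hf, hm⟩ := hc3 hA hB
  have hz := z9 _ (mkZone hA hB) t _ b0 htr ht1 hkap hC1 hC3 (hs hA hB) _ f hf hm
  have h6 : (uhom π (tr T p 0 k) : MonoidAlgebra ℤ π) = 1 := by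
    have h7 : star ((tr T' p 0 k : unitary (MonoidAlgebra ℤ π)) : MonoidAlgebra ℤ π) = 1 :=
      (sub_eq_zero.mp hz).symm
    have h8 := congrArg star h7
    rw [star_star, star_one] at h8
    rw [← tr_hom (uhom π) T p k 0]
    exact h8
  have h9 : MonoidAlgebra.single (tr T p 0 k) (1 : ℤ) = MonoidAlgebra.single 1 1 := h6
  rw [MonoidAlgebra.single_left_inj one_ne_zero] at h9
  exact h9

end Pool.Agent.CPD
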