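import Pool.Agent.CPD.StA

/-!
# CPD, module KA1: orthogonal projection onto an invariant closed subspace
-/

set_option autoImplicit false

namespace Pool.Agent.CPD

open scoped InnerProductSpace

section KA1

variable {ι H : Type} [NormedAddCommGroup H] [InnerProductSpace ℝ H] [CompleteSpace H]

/-- the linear map from the finitely supported functions -/
private noncomputable def KA1_E (b : HilbertBasis ι ℝ H) : (ι →₀ ℝ) →ₗ[ℝ] H :=
  Finsupp.linearCombination ℝ (fun i => b i)

/-- the closed span -/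
private noncomputable def KA1_V (b : HilbertBasis ι ℝ H) (S : Set (ι →₀ ℝ)) : Submodule ℝ H :=
  ((Submodule.span ℝ S).map (KA1_E b)).topologicalClosure

private instance KA1_proj (b : HilbertBasis ι ℝ H) (S : Set (ι →₀ ℝ)) :
    (KA1_V b S).HasOrthogonalProjection := by
  have : CompleteSpace (KA1_V b S) := (Submodule.isClosed_topologicalClosure _).completeSpace_coe
  infer_instance

private lemma KA1_inner (b : HilbertBasis ι ℝ H) (x : H) (y : ι →₀ ℝ) :
    ⟪x, KA1_E b y⟫_ℝ = y.sum (fun i r => r * ⟪x, b i⟫_ℝ) := by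
  unfold KA1_E
  rw [Finsupp.linearCombination_apply, Finsupp.sum, inner_sum, Finsupp.sum]
  refine Finset.sum_congr rfl fun i _ => ?_
  rw [inner_smul_right]

private lemma KA1_E_inner (b : HilbertBasis ι ℝ H) (y : ι →₀ ℝ) (i : ι) :
    ⟪KA1_E b y, b i⟫_ℝ = y i := by
  classical
  rw [real_inner_comm, KA1_inner]
  have h : ∀ j, ⟪b i, b j⟫_ℝ = if j = i then 1 else 0 := by
    intro j
    have := orthonormal_iff_ite.mp b.orthonormal i j
    rw [this]
    simp only [eq_comm]
  simp only [h, mul_ite, mul_one, mul_zero]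
  rw [Finsupp.sum_ite_eq']
  split_ifs with h2
  · rfl
  · exact (Finsupp.notMem_support_iff.mp h2).symm

private lemma KA1_isom (b : HilbertBasis ι ℝ H) (σ : ι ≃ ι) :
    ∃ U : H ≃ₗᵢ[ℝ] H, ∀ i, U (b i) = b (σ i) := by
  classical
  have ho : Orthonormal ℝ (fun i => b (σ i)) := b.orthonormal.comp σ σ.injective
  have hsp : ⊤ ≤ (Submodule.span ℝ (Set.range fun i => b (σ i))).topologicalClosure := by
    have hr : (Set.range fun i => b (σ i)) = Set.range b := by
      ext x
      constructor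
      · rintro ⟨i, rfl⟩
        exact ⟨σ i, rfl⟩
      · rintro ⟨i, rfl⟩
        exact ⟨σ.symm i, by simp⟩
    rw [hr, b.dense_span]
  set b' := HilbertBasis.mk ho hsp with hb'
  refine ⟨b.repr.trans b'.repr.symm, fun i => ?_⟩
  rw [LinearIsometryEquiv.trans_apply, HilbertBasis.repr_self, HilbertBasis.repr_symm_single,
    hb', HilbertBasis.coe_mk]

private lemma KA1_U_E (b : HilbertBasis ι ℝ H) (σ : ι → ι) (U : H →ₗ[ℝ] H)
    (hU : ∀ i, U (b i) = b (σ i)) (y : ι →₀ ℝ) : U (KA1_E b y) = KA1_E b (y.mapDomain σ) := by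
  unfold KA1_E
  rw [Finsupp.linearCombination_mapDomain, Finsupp.linearCombination_apply,
    Finsupp.linearCombination_apply, Finsupp.sum, Finsupp.sum, map_sum]
  refine Finset.sum_congr rfl fun i _ => ?_
  rw [map_smul, hU]
  rfl

private lemma KA1_span (S : Set (ι →₀ ℝ)) (σ : ι → ι) (h : ∀ s ∈ S, s.mapDomain σ ∈ S)
    (u : ι →₀ ℝ) (hu : u ∈ Submodule.span ℝ S) : u.mapDomain σ ∈ Submodule.span ℝ S := by
  induction hu using Submodule.span_induction with
  | mem x hx => exact Submodule.subset_span (h x hx)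
  | zero => simp
  | add x y _ _ hx hy =>
    rw [Finsupp.mapDomain_add]
    exact Submodule.add_mem _ hx hy
  | smul r x _ hx =>
    rw [Finsupp.mapDomain_smul]
    exact Submodule.smul_mem _ _ hx

private lemma KA1_V_map (b : HilbertBasis ι ℝ H) (S : Set (ι →₀ ℝ)) (σ : ι → ι)
    (h : ∀ s ∈ S, s.mapDomain σ ∈ S) (U : H ≃ₗᵢ[ℝ] H) (hU : ∀ i, U (b i) = b (σ i))
    (v : H) (hv : v ∈ KA1_V b S) : U v ∈ KA1_V b S := by
  unfold KA1_V at hv ⊢
  rw [← SetLike.mem_coe, Submodule.topologicalClosure_coe] at hv ⊢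
  refine map_mem_closure U.continuous hv ?_
  rintro x ⟨u, hu, rfl⟩
  refine ⟨u.mapDomain σ, KA1_span S σ h u hu, ?_⟩
  exact (KA1_U_E b σ (U.toLinearEquiv : H →ₗ[ℝ] H) hU u).symm

end KA1

theorem KA1 : St_KA1 := by
  classical
  intro π n _ _ _ S hS
  let b : HilbertBasis (π × n) ℝ (lp (fun _ : π × n => ℝ) 2) := default
  set V := KA1_V b S with hV
  set P := V.starProjection with hP
  have hsym : ∀ x y, ⟪P x, y⟫_ℝ = ⟪x, P y⟫_ℝ := fun x y =>
    Submodule.inner_starProjection_left_eq_right V x y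
  have hPP : ∀ x, P (P x) = P x := fun x =>
    Submodule.starProjection_eq_self_iff.mpr (Submodule.starProjection_apply_mem V x)
  have hself : ∀ x, ⟪P x, x⟫_ℝ = ‖P x‖ ^ 2 := by
    intro x
    rw [← real_inner_self_eq_norm_sq, hsym (x := x) (y := P x), hPP, real_inner_comm]
  have hES : ∀ u ∈ Submodule.span ℝ S, KA1_E b u ∈ V := fun u hu =>
    Submodule.le_topologicalClosure _ ⟨u, hu, rfl⟩
  refine ⟨fun a c => ⟪P (b a), b c⟫_ℝ, ?_, ?_, ?_, ?_, ?_, ?_⟩
  · intro a c
    show ⟪P (b a), b c⟫_ℝ = ⟪P (b c), b a⟫_ℝ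
    rw [hsym, real_inner_comm]
  · intro g a c
    show ⟪P (b (g * a.1, a.2)), b (g * c.1, c.2)⟫_ℝ = ⟪P (b a), b c⟫_ℝ
    let σ : (π × n) ≃ (π × n) := (Equiv.mulLeft g).prodCongr (Equiv.refl n)
    have hσ : ∀ x : π × n, σ x = (g * x.1, x.2) := fun x => rfl
    have hσ' : ∀ x : π × n, σ.symm x = (g⁻¹ * x.1, x.2) := fun x => rfl
    obtain ⟨U, hU⟩ := KA1_isom b σ
    have hUs : ∀ i, U.symm (b i) = b (σ.symm i) := by
      intro i
      rw [LinearIsometryEquiv.symm_apply_eq, hU, Equiv.apply_symm_apply]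
    have h1 : ∀ v ∈ V, U v ∈ V := KA1_V_map b S σ (fun s hs => hS s hs g) U hU
    have h2 : ∀ v ∈ V, U.symm v ∈ V :=
      KA1_V_map b S σ.symm (fun s hs => hS s hs g⁻¹) U.symm hUs
    have h3 : P (U (b a)) = U (P (b a)) := by
      apply Submodule.eq_starProjection_of_mem_of_inner_eq_zero
      · exact h1 _ (Submodule.starProjection_apply_mem V _)
      · intro w hw
        have h4 := Submodule.starProjection_inner_eq_zero (K := V) (b a) (U.symm w) (h2 w hw)
        rw [← map_sub]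
        rw [← LinearIsometryEquiv.inner_map_map U, LinearIsometryEquiv.apply_symm_apply] at h4
        exact h4
    have h5 : b (g * a.1, a.2) = U (b a) := by rw [hU, hσ]
    have h6 : b (g * c.1, c.2) = U (b c) := by rw [hU, hσ]
    rw [h5, h6, h3, LinearIsometryEquiv.inner_map_map]
  · intro s hs c
    show s.sum (fun a r => r * ⟪P (b c), b a⟫_ℝ) = s c
    rw [← KA1_inner, hsym, Submodule.starProjection_eq_self_iff.mpr
      (hES s (Submodule.subset_span hs)), real_inner_comm, KA1_E_inner]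
  · intro a h c
    have h' : ⟪P (b a), b a⟫_ℝ = 0 := h
    rw [hself] at h'
    have h1 : P (b a) = 0 := by
      rw [← norm_eq_zero]
      exact pow_eq_zero_iff (two_ne_zero) |>.mp h'
    show ⟪P (b a), b c⟫_ℝ = 0
    rw [h1, inner_zero_left]
  · intro a
    show 0 ≤ ⟪P (b a), b a⟫_ℝ
    rw [hself]
    positivity
  · intro a y ε hε
    have h1 : P (b a) ∈ closure (((Submodule.span ℝ S).map (KA1_E b) : Submodule ℝ _) : Set _) := by
      have h2 : P (b a) ∈ V := Submodule.starProjection_apply_mem V _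
      rw [hV] at h2
      unfold KA1_V at h2
      rw [← SetLike.mem_coe, Submodule.topologicalClosure_coe] at h2
      exact h2
    rw [Metric.mem_closure_iff] at h1
    set N : ℝ := ‖KA1_E b y‖ with hN
    have hN0 : 0 ≤ N := norm_nonneg _
    obtain ⟨v, ⟨u, hu, rfl⟩, huv⟩ := h1 (ε / (1 + N)) (by positivity)
    refine ⟨u, hu, ?_⟩
    show |y.sum (fun c r => r * ⟪P (b a), b c⟫_ℝ) - y.sum (fun c r => r * u c)| ≤ ε
    have h3 : y.sum (fun c r => r * u c) = ⟪KA1_E b u, KA1_E b y⟫_ℝ := by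
      rw [KA1_inner]
      refine Finsupp.sum_congr fun c _ => ?_
      rw [KA1_E_inner]
    rw [h3, ← KA1_inner, ← inner_sub_left]
    have h4 : |⟪P (b a) - KA1_E b u, KA1_E b y⟫_ℝ| ≤ ‖P (b a) - KA1_E b u‖ * N :=
      abs_real_inner_le_norm _ _
    rw [dist_eq_norm] at huv
    have h5 : ‖P (b a) - KA1_E b u‖ * N ≤ ε / (1 + N) * N :=
      mul_le_mul_of_nonneg_right huv.le hN0
    have h6 : ε / (1 + N) * N ≤ ε := by
      rw [div_mul_eq_mul_div, div_le_iff₀ (by positivity)]
      nlinarith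
    linarith

end Pool.Agent.CPD
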