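import Pool.Agent.CPD.StA

/-!
# CPD, module KAP: trace of idempotent matrices over integral group rings (Kaplansky)
-/

set_option autoImplicit false

namespace Pool.Agent.CPD

section KAP

variable {π n : Type} [Group π] [Fintype n]

private noncomputable def KAP_F (q : Matrix n n (MonoidAlgebra ℤ π)) (i j : n) : π →₀ ℝ :=
  (q i j).coeff.mapRange (fun z : ℤ => (z : ℝ)) Int.cast_zero

private noncomputable def KAP_row (q : Matrix n n (MonoidAlgebra ℤ π)) (a : π × n) :
    (π × n) →₀ ℝ :=
  ∑ j, (KAP_F q a.2 j).mapDomain (fun h => (a.1 * h, j))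

private noncomputable def KAP_T (q : Matrix n n (MonoidAlgebra ℤ π)) (i : n) :
    (π × n) →₀ ℝ :=
  ∑ k, (KAP_F q k i).mapDomain (fun h => (h⁻¹, k))

private lemma KAP_F_apply (q : Matrix n n (MonoidAlgebra ℤ π)) (i j : n) (h : π) :
    KAP_F q i j h = ((q i j).coeff h : ℝ) := by
  unfold KAP_F
  rw [Finsupp.mapRange_apply]

private lemma KAP_row_apply (q : Matrix n n (MonoidAlgebra ℤ π)) (a x : π × n) :
    KAP_row q a x = KAP_F q a.2 x.2 (a.1⁻¹ * x.1) := by
  classical
  obtain ⟨k, l⟩ := x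
  unfold KAP_row
  rw [Finsupp.finsetSum_apply, Finset.sum_eq_single l]
  · have hinj : Function.Injective (fun h : π => (a.1 * h, l)) := by
      intro h h' hh
      exact mul_left_cancel (congrArg Prod.fst hh)
    have h2 := Finsupp.mapDomain_apply hinj (KAP_F q a.2 l) (a.1⁻¹ * k)
    have h3 : (a.1 * (a.1⁻¹ * k), l) = (k, l) := by rw [mul_inv_cancel_left]
    rw [h3] at h2
    exact h2
  · intro j _ hj
    apply Finsupp.mapDomain_notin_range
    rintro ⟨h, hh⟩
    exact hj (congrArg Prod.snd hh)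
  · intro h
    exact absurd (Finset.mem_univ l) h

private lemma KAP_row_map (q : Matrix n n (MonoidAlgebra ℤ π)) (a : π × n) (g : π) :
    (KAP_row q a).mapDomain (fun x : π × n => (g * x.1, x.2)) = KAP_row q (g * a.1, a.2) := by
  unfold KAP_row
  rw [Finsupp.mapDomain_finset_sum]
  refine Finset.sum_congr rfl fun j _ => ?_
  rw [← Finsupp.mapDomain_comp]
  congr 1
  funext h
  show (g * (a.1 * h), j) = (g * a.1 * h, j)
  rw [mul_assoc]

private lemma KAP_row_lc (q : Matrix n n (MonoidAlgebra ℤ π)) (a : π × n) (φ : π × n → ℝ) :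
    Finsupp.linearCombination ℝ φ (KAP_row q a) =
      ∑ j, Finsupp.linearCombination ℝ (fun h => φ (a.1 * h, j)) (KAP_F q a.2 j) := by
  unfold KAP_row
  rw [map_sum]
  refine Finset.sum_congr rfl fun j _ => ?_
  rw [Finsupp.linearCombination_mapDomain]
  rfl

private lemma KAP_T_lc (q : Matrix n n (MonoidAlgebra ℤ π)) (i : n) (φ : π × n → ℝ) :
    Finsupp.linearCombination ℝ φ (KAP_T q i) =
      ∑ k, Finsupp.linearCombination ℝ (fun h => φ (h⁻¹, k)) (KAP_F q k i) := by
  unfold KAP_T
  rw [map_sum]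
  refine Finset.sum_congr rfl fun j _ => ?_
  rw [Finsupp.linearCombination_mapDomain]
  rfl

private lemma KAP_fix (q : Matrix n n (MonoidAlgebra ℤ π)) (hq : q * q = q) (i : n)
    (u : (π × n) →₀ ℝ) (hu : u ∈ Submodule.span ℝ (Set.range (KAP_row q))) :
    Finsupp.linearCombination ℝ (⇑u) (KAP_T q i) = u (1, i) := by
  have hlin : ∀ (w : (π × n) →₀ ℝ), Finsupp.linearCombination ℝ (⇑w) (KAP_T q i) =
      (KAP_T q i).sum (fun b r => r * w b) := fun w => rfl
  induction hu using Submodule.span_induction with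
  | mem x hx =>
    obtain ⟨⟨g, j⟩, rfl⟩ := hx
    rw [KAP_T_lc, KAP_row_apply, KAP_F_apply]
    have h1 : ∀ k, Finsupp.linearCombination ℝ
        (fun h => (KAP_row q (g, j)) (h⁻¹, k)) (KAP_F q k i) =
        (((q j k * q k i).coeff g⁻¹ : ℤ) : ℝ) := by
      intro k
      rw [MonoidAlgebra.coeff_mul_apply_right, Finsupp.linearCombination_apply]
      unfold KAP_F
      rw [Finsupp.sum_mapRange_index (by intro a; simp)]
      unfold Finsupp.sum
      rw [Int.cast_sum]
      refine Finset.sum_congr rfl fun h _ => ?_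
      have h5 : (KAP_row q (g, j)) (h⁻¹, k) = ((q j k).coeff (g⁻¹ * h⁻¹) : ℝ) := by
        rw [KAP_row_apply, KAP_F_apply]
      show (((q k i).coeff h : ℤ) : ℝ) • (KAP_row q (g, j)) (h⁻¹, k) =
        (((q j k).coeff (g⁻¹ * h⁻¹) * (q k i).coeff h : ℤ) : ℝ)
      rw [h5, smul_eq_mul, Int.cast_mul, mul_comm]
    rw [Finset.sum_congr rfl fun k _ => h1 k, ← Int.cast_sum]
    have h2 : (q j i).coeff g⁻¹ = ∑ k, (q j k * q k i).coeff g⁻¹ := by
      conv_lhs => rw [← hq, Matrix.mul_apply]
      have h3 : (∑ k, q j k * q k i).coeff = ∑ k, (q j k * q k i).coeff :=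
        map_sum (MonoidAlgebra.coeffAddEquiv : MonoidAlgebra ℤ π ≃+ (π →₀ ℤ)) _ _
      rw [h3, Finsupp.finsetSum_apply]
    rw [← h2]
    simp
  | zero =>
    rw [hlin]
    simp
  | add x y _ _ hx hy =>
    rw [hlin] at hx hy ⊢
    rw [Finsupp.add_apply, ← hx, ← hy, ← Finsupp.sum_add]
    refine Finsupp.sum_congr fun b _ => ?_
    rw [Finsupp.add_apply]
    ring
  | smul r x _ hx =>
    rw [hlin] at hx ⊢
    rw [Finsupp.smul_apply, ← hx, smul_eq_mul, Finsupp.mul_sum]
    refine Finsupp.sum_congr fun b _ => ?_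
    rw [Finsupp.smul_apply, smul_eq_mul]
    ring

end KAP

theorem KAP (h1 : St_KA1) : St_KAP := by
  classical
  intro π n _ _ _ q hq htr
  obtain ⟨p, hp1, hp2, hp3, hp4, hp5, hp6⟩ := h1 π n (Set.range (KAP_row q)) (by
    rintro _ ⟨a, rfl⟩ g
    exact ⟨_, (KAP_row_map q a g).symm⟩)
  have hrow : ∀ a b, Finsupp.linearCombination ℝ (p b) (KAP_row q a) = KAP_row q a b :=
    fun a b => hp3 _ ⟨a, rfl⟩ b
  have hdiag : ∀ i, p (1, i) (1, i) = Finsupp.linearCombination ℝ (p (1, i)) (KAP_T q i) := by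
    intro i
    set y : (π × n) →₀ ℝ := Finsupp.single (1, i) 1 - KAP_T q i with hy
    have hy1 : ∀ φ : π × n → ℝ, y.sum (fun b r => r * φ b) =
        φ (1, i) - Finsupp.linearCombination ℝ φ (KAP_T q i) := by
      intro φ
      have h2 : y.sum (fun b r => r * φ b) = Finsupp.linearCombination ℝ φ y := rfl
      rw [h2, hy, map_sub, Finsupp.linearCombination_single, one_smul]
    have hz : y.sum (fun b r => r * p (1, i) b) = 0 := by
      by_contra hne
      have hpos : 0 < |y.sum (fun b r => r * p (1, i) b)| / 2 := by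
        have := abs_pos.mpr hne
        linarith
      obtain ⟨u, hu, hle⟩ := hp6 (1, i) y _ hpos
      have h3 : y.sum (fun b r => r * u b) = 0 := by
        rw [hy1, KAP_fix q hq i u hu, sub_self]
      rw [h3, sub_zero] at hle
      linarith
    rw [hy1] at hz
    linarith
  have hsum : ∑ i, p (1, i) (1, i) = 0 := by
    have h2 : ∀ i k, Finsupp.linearCombination ℝ (fun h => p (1, i) (h⁻¹, k)) (KAP_F q k i) =
        Finsupp.linearCombination ℝ (fun h => p (1, k) (1 * h, i)) (KAP_F q k i) := by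
      intro i k
      congr 2
      funext h
      have h3 := hp2 h (1, i) (h⁻¹, k)
      simp only [mul_one, mul_inv_cancel] at h3
      rw [← h3, hp1, one_mul]
    calc ∑ i, p (1, i) (1, i)
        = ∑ i, ∑ k, Finsupp.linearCombination ℝ (fun h => p (1, k) (1 * h, i))
            (KAP_F q k i) := by
          refine Finset.sum_congr rfl fun i _ => ?_
          rw [hdiag i, KAP_T_lc]
          exact Finset.sum_congr rfl fun k _ => h2 i k
      _ = ∑ k, ∑ i, Finsupp.linearCombination ℝ (fun h => p (1, k) (1 * h, i))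
            (KAP_F q k i) := Finset.sum_comm
      _ = ∑ k, KAP_row q (1, k) (1, k) := by
          refine Finset.sum_congr rfl fun k _ => ?_
          rw [← hrow (1, k) (1, k), KAP_row_lc]
      _ = ∑ k, (((q k k).coeff 1 : ℤ) : ℝ) := by
          refine Finset.sum_congr rfl fun k _ => ?_
          rw [KAP_row_apply, KAP_F_apply]
          simp
      _ = 0 := by
          rw [← Int.cast_sum, htr, Int.cast_zero]
  have hzero : ∀ i, p (1, i) (1, i) = 0 := by
    intro i
    exact (Finset.sum_eq_zero_iff_of_nonneg fun i _ => hp5 (1, i)).mp hsum i (Finset.mem_univ i)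
  have hp0 : ∀ a b, p a b = 0 := by
    rintro ⟨g, i⟩ ⟨h, j⟩
    have h2 := hp2 g (1, i) (g⁻¹ * h, j)
    simp only [mul_one, mul_inv_cancel_left] at h2
    rw [h2]
    exact hp4 (1, i) (hzero i) _
  have hrow0 : ∀ a b, KAP_row q a b = 0 := by
    intro a b
    rw [← hrow a b, Finsupp.linearCombination_apply]
    unfold Finsupp.sum
    refine Finset.sum_eq_zero fun x _ => ?_
    show (KAP_row q a) x • p b x = 0
    rw [hp0, smul_zero]
  ext i j h
  have h2 := hrow0 (1, i) (h, j)
  rw [KAP_row_apply, KAP_F_apply] at h2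
  simp only [inv_one, one_mul, Int.cast_eq_zero] at h2
  rw [h2]
  simp

end Pool.Agent.CPD
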