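import Pool.Agent.CPD.StA

/-!
# Lemma K: assembly
-/

set_option autoImplicit false

namespace Pool.Agent.CPD

open Matrix

theorem LK (h1 : St_A1) (_h2 : St_A2) (h3 : St_A3) (h5 : St_A5) : St_LK := by
  intro Λ W _ _ _ t deg d k z yv htr ht1 hkap hdeg hdn hdd hzr hdk hid hb0 hz hzd hzk hb1 hyv
    hyvk hb3 hstr
  obtain ⟨k', α, β, v, w', hNF, hN⟩ := h3 Λ W deg d k z yv hdeg hdn hdd hzr hdk hid hb0 hz hzd hzk
    hb1 hyv hyvk hb3
  have hs := h1 Λ ℤ W t deg d (k' - k) htr hdn hN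
  have hs' : str t deg (k' - k) = str t deg k' - str t deg k := by
    unfold str
    rw [← Finset.sum_sub_distrib]
    refine Finset.sum_congr rfl fun x _ => ?_
    rw [Matrix.sub_apply, map_sub, smul_sub]
  have hk' : str t deg k' = -2 := by
    rw [hs'] at hs
    rw [← hstr]
    exact sub_eq_zero.1 hs
  exact h5 Λ W t deg d k' z α yv β v w' htr ht1 hkap hNF hk'

end Pool.Agent.CPD
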