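import Pool.Agent.CPD.StZ

/-!
# CPD, Z0: propagation of supports and of identities
-/

set_option autoImplicit false

namespace Pool.Agent.CPD

open Matrix

private theorem Z0_expand {Λ X : Type} [Ring Λ] (F : (X →₀ Λ) →ₗ[Λ] (X →₀ Λ)) (c : X →₀ Λ) :
    F c = ∑ x ∈ c.support, c x • F (Finsupp.single x 1) := by
  conv_lhs => rw [← Finsupp.sum_single c]
  rw [Finsupp.sum, map_sum]
  refine Finset.sum_congr rfl fun x _ => ?_
  rw [← map_smul, Finsupp.smul_single, smul_eq_mul, mul_one]

private theorem Z0_pair {Λ X : Type} [Ring Λ] (c : X →₀ Λ) (f : X → Λ) :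
    pair c f = Finsupp.linearCombination Λ f c := rfl

/-- [Z0] -/
theorem Z0 : St_Z0 := by
  intro Λ X _
  refine ⟨?_, ?_, ?_, ?_, ?_, ?_⟩
  · intro F P Q h c hc y hy
    by_contra hQ
    apply hy
    rw [Z0_expand F c, Finsupp.finsetSum_apply]
    refine Finset.sum_eq_zero fun x hx => ?_
    have h1 : F (Finsupp.single x 1) y = 0 := by
      by_contra h2
      exact hQ (h x (hc x (Finsupp.mem_support_iff.1 hx)) y h2)
    rw [Finsupp.smul_apply, h1, smul_zero]
  · intro F F' P h c hc
    rw [Z0_expand F c, Z0_expand F' c]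
    refine Finset.sum_congr rfl fun x hx => ?_
    rw [h x (hc x (Finsupp.mem_support_iff.1 hx))]
  · intro S c hc
    ext x
    by_cases hx : x ∈ S
    · exact cut_apply_of_mem S c hx
    · rw [cut_apply_of_notMem S c hx]
      by_contra h
      exact hx (hc x (Ne.symm h))
  · intro S c hc
    ext x
    by_cases hx : x ∈ S
    · rw [cut_apply_of_mem S c hx]
      by_contra h
      exact hc x h hx
    · exact cut_apply_of_notMem S c hx
  · intro F f c
    rw [Z0_pair, Z0_pair, Z0_expand F c, map_sum, Finsupp.linearCombination_apply, Finsupp.sum]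
    refine Finset.sum_congr rfl fun x _ => ?_
    rw [map_smul, Z0_pair]
  · intro f c c' a
    refine ⟨?_, ?_⟩
    · rw [Z0_pair, Z0_pair, Z0_pair, map_add]
    · rw [Z0_pair, Z0_pair, map_smul, smul_eq_mul]

end Pool.Agent.CPD
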