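import Pool.Agent.CPD.StZ

/-!
# CPD, Z1: behaviour of `κ` on good chains
-/

set_option autoImplicit false

namespace Pool.Agent.CPD

open Matrix

section

variable {Λ : Type} [Ring Λ] (A : Zone Λ)

/-- all cells of the chain have level at least `s` -/
def Z1Good (s : ℕ) (c : A.X →₀ Λ) : Prop := ∀ x, c x ≠ 0 → s ≤ A.lev x

variable {A}

theorem Z1Good.mono {s s' : ℕ} {c : A.X →₀ Λ} (h : Z1Good A s c) (hs : s' ≤ s) :
    Z1Good A s' c := fun x hx => hs.trans (h x hx)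

theorem Z1Good.add {s : ℕ} {c c' : A.X →₀ Λ} (h : Z1Good A s c) (h' : Z1Good A s c') :
    Z1Good A s (c + c') := by
  intro x hx
  by_cases h1 : c x = 0
  · refine h' x fun h2 => hx ?_
    rw [Finsupp.add_apply, h1, h2, add_zero]
  · exact h x h1

theorem Z1Good.sub {s : ℕ} {c c' : A.X →₀ Λ} (h : Z1Good A s c) (h' : Z1Good A s c') :
    Z1Good A s (c - c') := by
  intro x hx
  by_cases h1 : c x = 0
  · refine h' x fun h2 => hx ?_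
    rw [Finsupp.sub_apply, h1, h2, sub_zero]
  · exact h x h1

theorem Z1Good.map (h0 : St_Z0) {s : ℕ} {c : A.X →₀ Λ} {F : (A.X →₀ Λ) →ₗ[Λ] (A.X →₀ Λ)}
    (hF : ∀ x y, F (Finsupp.single x 1) y ≠ 0 → A.lev x ≤ A.lev y + 1) (h : Z1Good A (s + 1) c) :
    Z1Good A s (F c) := by
  have := (h0 Λ A.X).1 F (fun x => s + 1 ≤ A.lev x) (fun y => s ≤ A.lev y)
    (fun x hx y hy => by have := hF x y hy; omega) c h
  exact this

theorem Z1Good.D (h0 : St_Z0) {s : ℕ} {c : A.X →₀ Λ} (h : Z1Good A (s + 1) c) :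
    Z1Good A s (A.D c) := h.map h0 A.lev_D

theorem Z1Good.E (h0 : St_Z0) {s : ℕ} {c : A.X →₀ Λ} (h : Z1Good A (s + 1) c) :
    Z1Good A s (A.E c) := h.map h0 A.lev_E

theorem Z1Good.H (h0 : St_Z0) {s : ℕ} {c : A.X →₀ Λ} (h : Z1Good A (s + 1) c) :
    Z1Good A s (A.H c) := h.map h0 A.lev_H

theorem Z1Good.r (h0 : St_Z0) {s : ℕ} {c : A.X →₀ Λ} (h : Z1Good A (s + 1) c) :
    Z1Good A s (A.r c) := h.map h0 A.lev_r

theorem Z1Good.θ (h0 : St_Z0) {s : ℕ} {c : A.X →₀ Λ} (h : Z1Good A (s + 1) c) :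
    Z1Good A s (A.θ c) := h.map h0 A.lev_θ

theorem Z1_κ (c : A.X →₀ Λ) : A.κ c = A.E c - A.D (A.θ c) - A.θ (A.D c) := rfl

theorem Z1Good.κ (h0 : St_Z0) {s : ℕ} {c : A.X →₀ Λ} (h : Z1Good A (s + 2) c) :
    Z1Good A s (A.κ c) := by
  rw [Z1_κ]
  exact ((Z1Good.E h0 (h.mono (by omega))).sub (Z1Good.D h0 (Z1Good.θ h0 h))).sub
    (Z1Good.θ h0 (Z1Good.D h0 h))

theorem Z1Good.p {s : ℕ} {c : A.X →₀ Λ} (h : Z1Good A s c) : Z1Good A s (A.p c) := by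
  intro x hx
  by_cases h1 : x ∈ A.Ws
  · refine h x fun h2 => hx ?_
    show cut A.Ws c x = 0
    rw [cut_apply_of_mem _ _ h1, h2]
  · exact absurd (cut_apply_of_notMem A.Ws c h1) hx

/-! identities on good chains -/

theorem Z1_DD (h0 : St_Z0) {c : A.X →₀ Λ} (h : Z1Good A 5 c) : A.D (A.D c) = 0 :=
  (h0 Λ A.X).2.1 (A.D ∘ₗ A.D) 0 (fun x => 5 ≤ A.lev x) (fun x hx => A.DD x hx) c h

theorem Z1_EE (h0 : St_Z0) {c : A.X →₀ Λ} (h : Z1Good A 5 c) : A.E (A.E c) = A.E c :=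
  (h0 Λ A.X).2.1 (A.E ∘ₗ A.E) A.E (fun x => 5 ≤ A.lev x) (fun x hx => A.EE x hx) c h

theorem Z1_ED (h0 : St_Z0) {c : A.X →₀ Λ} (h : Z1Good A 5 c) : A.E (A.D c) = A.D c :=
  (h0 Λ A.X).2.1 (A.E ∘ₗ A.D) A.D (fun x => 5 ≤ A.lev x) (fun x hx => A.ED x hx) c h

theorem Z1_DE (h0 : St_Z0) {c : A.X →₀ Λ} (h : Z1Good A 5 c) : A.D (A.E c) = A.D c :=
  (h0 Λ A.X).2.1 (A.D ∘ₗ A.E) A.D (fun x => 5 ≤ A.lev x) (fun x hx => A.DE x hx) c h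

theorem Z1_HE (h0 : St_Z0) {c : A.X →₀ Λ} (h : Z1Good A 5 c) : A.H (A.E c) = A.H c :=
  (h0 Λ A.X).2.1 (A.H ∘ₗ A.E) A.H (fun x => 5 ≤ A.lev x) (fun x hx => A.HE x hx) c h

theorem Z1_EH (h0 : St_Z0) {c : A.X →₀ Λ} (h : Z1Good A 5 c) : A.E (A.H c) = A.H c :=
  (h0 Λ A.X).2.1 (A.E ∘ₗ A.H) A.H (fun x => 5 ≤ A.lev x) (fun x hx => A.EH x hx) c h

theorem Z1_θE (h0 : St_Z0) {c : A.X →₀ Λ} (h : Z1Good A 5 c) : A.θ (A.E c) = A.θ c :=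
  (h0 Λ A.X).2.1 (A.θ ∘ₗ A.E) A.θ (fun x => 5 ≤ A.lev x) (fun x hx => A.θE x hx) c h

theorem Z1_Eθ (h0 : St_Z0) {c : A.X →₀ Λ} (h : Z1Good A 5 c) : A.E (A.θ c) = A.θ c :=
  (h0 Λ A.X).2.1 (A.E ∘ₗ A.θ) A.θ (fun x => 5 ≤ A.lev x) (fun x hx => A.Eθ x hx) c h

theorem Z1_flow (h0 : St_Z0) {c : A.X →₀ Λ} (h : Z1Good A 5 c) :
    A.E c - A.r c = A.D (A.H c) + A.H (A.D c) :=
  (h0 Λ A.X).2.1 (A.E - A.r) (A.D ∘ₗ A.H + A.H ∘ₗ A.D) (fun x => 5 ≤ A.lev x)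
    (fun x hx => A.flow x hx) c h

theorem Z1_θB' (h0 : St_Z0) {c : A.X →₀ Λ} (h : Z1Good A 5 c) (hB : ∀ x, c x ≠ 0 → x ∈ A.B') :
    A.θ c = A.H c :=
  (h0 Λ A.X).2.1 A.θ A.H (fun x => x ∈ A.B' ∧ 5 ≤ A.lev x) (fun x hx => A.θ_B' x hx.1 hx.2) c
    fun x hx => ⟨hB x hx, h x hx⟩

/-- a part of the chain on `B` and a part on `Z` are removed by the projection -/
theorem Z1_cut (P : A.X → Prop) (F : (A.X →₀ Λ) →ₗ[Λ] (A.X →₀ Λ))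
    (hB : ∀ c : A.X →₀ Λ, (∀ x, c x ≠ 0 → P x ∧ x ∈ A.B) → A.p (F c) = 0)
    (hZ : ∀ c : A.X →₀ Λ, (∀ x, c x ≠ 0 → P x ∧ x ∈ A.Z) → A.p (F c) = 0)
    (c : A.X →₀ Λ) (hc : ∀ x, c x ≠ 0 → P x) : A.p (F c) = A.p (F (A.p c)) := by
  have hd : ∀ x, (c - A.p c) x ≠ 0 → c x ≠ 0 ∧ x ∉ A.Ws := by
    intro x hx
    by_cases h1 : x ∈ A.Ws
    · exfalso
      apply hx
      show c x - cut A.Ws c x = 0
      rw [cut_apply_of_mem _ _ h1, sub_self]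
    · refine ⟨fun h2 => hx ?_, h1⟩
      show c x - cut A.Ws c x = 0
      rw [cut_apply_of_notMem _ _ h1, h2, sub_zero]
  have e : c = A.p c + (cut A.B (c - A.p c) + (c - A.p c - cut A.B (c - A.p c))) := by
    abel
  have h1 := hB (cut A.B (c - A.p c)) (by
    intro x hx
    by_cases h1 : x ∈ A.B
    · rw [cut_apply_of_mem _ _ h1] at hx
      exact ⟨hc x (hd x hx).1, h1⟩
    · exact absurd (cut_apply_of_notMem A.B _ h1) hx)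
  have h2 := hZ (c - A.p c - cut A.B (c - A.p c)) (by
    intro x hx
    rw [Finsupp.sub_apply] at hx
    by_cases h1 : x ∈ A.B
    · rw [cut_apply_of_mem _ _ h1, sub_self] at hx
      exact absurd rfl hx
    · rw [cut_apply_of_notMem _ _ h1, sub_zero] at hx
      obtain ⟨h3, h4⟩ := hd x hx
      refine ⟨hc x h3, ?_⟩
      have h5 : x ∈ A.B ∪ A.Z := by
        by_contra h6
        exact h4 h6
      exact h5.resolve_left h1)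
  conv_lhs => rw [e, map_add, map_add, map_add, map_add, h1, h2, add_zero, add_zero]

theorem Z1_p0B (h0 : St_Z0) (c : A.X →₀ Λ) (h : ∀ x, c x ≠ 0 → x ∈ A.B) : A.p c = 0 :=
  (h0 Λ A.X).2.2.2.1 A.Ws c fun x hx hx' => hx' (Or.inl (h x hx))

theorem Z1_p0Z (h0 : St_Z0) (c : A.X →₀ Λ) (h : ∀ x, c x ≠ 0 → x ∈ A.Z) : A.p c = 0 :=
  (h0 Λ A.X).2.2.2.1 A.Ws c fun x hx hx' => hx' (Or.inr (h x hx))

theorem Z1_rB (h0 : St_Z0) {c : A.X →₀ Λ} (h : Z1Good A 5 c) : ∀ y, A.r c y ≠ 0 → y ∈ A.B :=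
  (h0 Λ A.X).1 A.r (fun x => 5 ≤ A.lev x) (fun y => y ∈ A.B) (fun x hx => A.r_B x hx) c h

end

/-- [Z1] -/
theorem Z1 (h0 : St_Z0) : St_Z1 := by
  intro Λ _ A
  have p1 : ∀ c : A.X →₀ Λ, Z1Good A 8 c →
      A.κ (A.E c) = A.κ c ∧ A.E (A.κ c) = A.κ c ∧ A.κ (A.D c) = A.D (A.κ c) := by
    intro c hc
    have c5 : Z1Good A 5 c := hc.mono (by norm_num)
    have cθ : Z1Good A 5 (A.θ c) := Z1Good.θ h0 (hc.mono (by norm_num))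
    have cD : Z1Good A 5 (A.D c) := Z1Good.D h0 (hc.mono (by norm_num))
    refine ⟨?_, ?_, ?_⟩
    · rw [Z1_κ, Z1_κ, Z1_EE h0 c5, Z1_θE h0 c5, Z1_DE h0 c5]
    · rw [Z1_κ, map_sub, map_sub, Z1_EE h0 c5, Z1_ED h0 cθ, Z1_Eθ h0 cD]
    · rw [Z1_κ, Z1_κ, map_sub, map_sub, Z1_ED h0 c5, Z1_DE h0 c5, Z1_DD h0 c5, Z1_DD h0 cθ,
        map_zero, sub_zero, sub_zero]
  have p3 : ∀ c : A.X →₀ Λ, (∀ x, c x ≠ 0 → 8 ≤ A.lev x ∧ x ∈ A.B') →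
      ∀ y, A.κ c y ≠ 0 → y ∈ A.B := by
    intro c hc
    have g8 : Z1Good A 8 c := fun x hx => (hc x hx).1
    have c5 : Z1Good A 5 c := g8.mono (by norm_num)
    have cD : Z1Good A 5 (A.D c) := Z1Good.D h0 (g8.mono (by norm_num))
    have hDB : ∀ y, A.D c y ≠ 0 → y ∈ A.B' :=
      (h0 Λ A.X).1 A.D (fun x => x ∈ A.B') (fun y => y ∈ A.B') (fun x hx => A.D_B' x hx) c
        fun x hx => (hc x hx).2
    have e : A.κ c = A.r c := by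
      rw [Z1_κ, Z1_θB' h0 c5 (fun x hx => (hc x hx).2), Z1_θB' h0 cD hDB, sub_sub,
        ← Z1_flow h0 c5, sub_sub_cancel]
    rw [e]
    exact Z1_rB h0 c5
  have p4 : ∀ c : A.X →₀ Λ, (∀ x, c x ≠ 0 → x ∈ A.Z') → ∀ y, A.κ c y ≠ 0 → y ∈ A.Z :=
    fun c hc => (h0 Λ A.X).1 A.κ (fun x => x ∈ A.Z') (fun y => y ∈ A.Z)
      (fun x hx => A.κ_Z' x hx) c hc
  refine ⟨p1, ?_, p3, p4, ?_, ?_⟩
  · intro c hc
    have g : Z1Good A 10 c := hc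
    have h1 := (p1 c (g.mono (by norm_num))).1
    have h2 := (p1 (A.θ c) (Z1Good.θ h0 (g.mono (by norm_num)))).2.2
    conv_lhs => rw [Z1_κ c, map_sub, map_sub, h1, h2]
  · intro c hc
    refine Z1_cut (fun x => 8 ≤ A.lev x) A.κ (fun c hc => ?_) (fun c hc => ?_) c hc
    · exact Z1_p0B h0 _ (p3 c fun x hx => ⟨(hc x hx).1, A.BB' (hc x hx).2⟩)
    · exact Z1_p0Z h0 _ (p4 c fun x hx => A.ZZ' (hc x hx).2)
  · intro c
    refine Z1_cut (fun _ => True) A.D (fun c hc => ?_) (fun c hc => ?_) c fun x _ => trivial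
    · exact Z1_p0B h0 _ ((h0 Λ A.X).1 A.D (fun x => x ∈ A.B) (fun y => y ∈ A.B)
        (fun x hx => A.D_B x hx) c fun x hx => (hc x hx).2)
    · exact Z1_p0Z h0 _ ((h0 Λ A.X).1 A.D (fun x => x ∈ A.Z) (fun y => y ∈ A.Z)
        (fun x hx => A.D_Z x hx) c fun x hx => (hc x hx).2)

end Pool.Agent.CPD
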