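import Pool.Agent.CPD.StZ
import Pool.Agent.CPD.StA

/-!
# The Euler number of the zone over the rational numbers
-/

set_option autoImplicit false

namespace Pool.Agent.CPD

open Matrix

section aux

variable {X : Type}

theorem pair_zero' (f : X → ℚ) : pair (0 : X →₀ ℚ) f = 0 := Finsupp.sum_zero_index

theorem pair_sub' (h0 : St_Z0) (f : X → ℚ) (c c' : X →₀ ℚ) :
    pair (c - c') f = pair c f - pair c' f := by
  have h1 := (((h0 ℚ X).2.2.2.2.2 f (c - c') c') 1).1
  rw [sub_add_cancel] at h1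
  rw [h1, add_sub_cancel_right]

theorem dot_inc (A : Zone ℚ) (h0 : St_Z0) (v : A.W → ℚ) (f : A.X → ℚ) :
    v ⬝ᵥ (fun x : A.W => f x.1) = pair (A.inc v) f := by
  classical
  have hadd : ∀ c c' : A.X →₀ ℚ, pair (c + c') f = pair c f + pair c' f :=
    fun c c' => (((h0 ℚ A.X).2.2.2.2.2 f c c') 1).1
  have hs : ∀ s : Finset A.W, pair (∑ x ∈ s, Finsupp.single x.1 (v x)) f =
      ∑ x ∈ s, v x * f x.1 := by
    intro s
    induction s using Finset.induction_on with
    | empty => rw [Finset.sum_empty, Finset.sum_empty, pair_zero']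
    | insert a s ha ih =>
      rw [Finset.sum_insert ha, Finset.sum_insert ha, hadd, ih]
      congr 1
      exact Finsupp.sum_single_index (zero_mul _)
  exact (hs Finset.univ).symm

end aux

theorem Z10 (h0 : St_Z0) (h1 : St_Z1) (_h2 : St_Z2) (h3 : St_Z3) (h4 : St_Z4) (h5 : St_Z5)
    (h6 : St_Z6) (h7 : St_Z7) (h8 : St_Z8) (hE : St_EU) : St_Z10 := by
  classical
  intro A v0 Om b0 ε hlev hC1 hC3 hεd hεD _hεE hv0 hOm hOmD hOmE hOmθ hOmp hH2
  obtain ⟨m1, m2, m3, m4, m5, m6, _, _, _⟩ := h4 ℚ A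
  obtain ⟨k1, k2, k3, k4, k5, k6⟩ := h5 ℚ A
  obtain ⟨z1, z2, z3, z4⟩ := h7 ℚ A v0 hC1
  obtain ⟨y1, y2, y3⟩ := h8 ℚ A b0 hC3
  obtain ⟨q1, q2, q3, q4, q5, q6⟩ := h0 ℚ A.X
  have hl5 : ∀ x, 5 ≤ A.lev x := fun x => le_trans (by norm_num) (hlev x)
  -- identities on all chains
  have idL : ∀ F F' : (A.X →₀ ℚ) →ₗ[ℚ] (A.X →₀ ℚ),
      (∀ x, F (Finsupp.single x 1) = F' (Finsupp.single x 1)) → ∀ c, F c = F' c :=
    fun F F' h c => q2 F F' (fun _ => True) (fun x _ => h x) c (fun _ _ => trivial)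
  have hDD : ∀ c, A.D (A.D c) = 0 := by
    intro c
    exact idL (A.D ∘ₗ A.D) 0 (fun x => A.DD x (hl5 x)) c
  have hED : ∀ c, A.E (A.D c) = A.D c := by
    intro c
    exact idL (A.E ∘ₗ A.D) A.D (fun x => A.ED x (hl5 x)) c
  have hDE : ∀ c, A.D (A.E c) = A.D c := by
    intro c
    exact idL (A.D ∘ₗ A.E) A.D (fun x => A.DE x (hl5 x)) c
  have hfl : ∀ c, A.E c - A.r c = A.D (A.H c) + A.H (A.D c) := by
    intro c
    exact idL (A.E - A.r) (A.D ∘ₗ A.H + A.H ∘ₗ A.D) (fun x => A.flow x (hl5 x)) c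
  have hBZ : ∀ x, x ∈ A.B → x ∉ A.Z := fun x hx hx' =>
    Set.disjoint_left.mp A.disj (A.BB' hx) (A.ZZ' hx')
  have hκ : ∀ c, A.κ c = A.E c - A.D (A.θ c) - A.θ (A.D c) := fun c => rfl
  -- the augmentation kills boundaries
  have hεD' : ∀ c : A.X →₀ ℚ, pair (A.D c) ε = 0 := by
    intro c
    rw [q5]
    have : (fun x => pair (A.D (Finsupp.single x 1)) ε) = fun _ => (0 : ℚ) := funext hεD
    rw [this]
    unfold pair
    simp
  have pz : ∀ c : A.X →₀ ℚ, (∀ y, c y ≠ 0 → y ∈ A.B) → cut A.Z c = 0 := fun c hc =>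
    q4 A.Z c (fun x hx => hBZ x (hc x hx))
  have hpadd : ∀ c c' : A.X →₀ ℚ, pair (c + c') ε = pair c ε + pair c' ε :=
    fun c c' => ((q6 ε c c') 1).1
  -- the cochain φ
  let φX : A.X → ℚ := fun x => pair (cut A.Z (A.D (Finsupp.single x 1))) ε
  have hφ0 : ∀ c : A.X →₀ ℚ, pair c φX = pair (cut A.Z (A.D c)) ε := by
    intro c
    exact (q5 (cut A.Z ∘ₗ A.D) ε c).symm
  have hsplit : ∀ c : A.X →₀ ℚ, c = A.p c + cut A.B c + cut A.Z c := by
    intro c
    ext x
    rw [Finsupp.add_apply, Finsupp.add_apply]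
    by_cases hB : x ∈ A.B
    · have hZ := hBZ x hB
      have hW : x ∉ A.Ws := fun h => h (Or.inl hB)
      rw [show A.p c x = 0 from cut_apply_of_notMem _ _ hW, cut_apply_of_mem _ _ hB,
        cut_apply_of_notMem _ _ hZ, zero_add, add_zero]
    · by_cases hZ : x ∈ A.Z
      · have hW : x ∉ A.Ws := fun h => h (Or.inr hZ)
        rw [show A.p c x = 0 from cut_apply_of_notMem _ _ hW, cut_apply_of_notMem _ _ hB,
          cut_apply_of_mem _ _ hZ, zero_add, zero_add]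
      · have hW : x ∈ A.Ws := fun h => h.elim hB hZ
        rw [show A.p c x = c x from cut_apply_of_mem _ _ hW, cut_apply_of_notMem _ _ hB,
          cut_apply_of_notMem _ _ hZ, add_zero, add_zero]
  have cutB : ∀ c : A.X →₀ ℚ, ∀ x, cut A.B c x ≠ 0 → x ∈ A.B := by
    intro c x hx
    by_contra h
    exact hx (cut_apply_of_notMem _ _ h)
  have cutZ : ∀ c : A.X →₀ ℚ, ∀ x, cut A.Z c x ≠ 0 → x ∈ A.Z := by
    intro c x hx
    by_contra h
    exact hx (cut_apply_of_notMem _ _ h)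
  have hDB : ∀ c : A.X →₀ ℚ, (∀ x, c x ≠ 0 → x ∈ A.B) → ∀ y, A.D c y ≠ 0 → y ∈ A.B :=
    fun c hc => q1 A.D (· ∈ A.B) (· ∈ A.B) A.D_B c hc
  have hDZ : ∀ c : A.X →₀ ℚ, (∀ x, c x ≠ 0 → x ∈ A.Z) → ∀ y, A.D c y ≠ 0 → y ∈ A.Z :=
    fun c hc => q1 A.D (· ∈ A.Z) (· ∈ A.Z) A.D_Z c hc
  have hφ1 : ∀ c : A.X →₀ ℚ, pair (A.p c) φX = pair (cut A.Z (A.D c)) ε := by
    intro c
    rw [hφ0]
    conv_rhs => rw [hsplit c]
    rw [map_add, map_add, map_add, map_add, hpadd, hpadd,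
      pz _ (hDB _ (cutB c)), q3 A.Z _ (hDZ _ (cutZ c)), hεD', pair_zero', add_zero, add_zero]
  -- the splitting of the boundary of a relative cycle
  have hbd : ∀ c : A.X →₀ ℚ, A.p (A.D c) = 0 →
      A.D c = cut A.B (A.D c) + cut A.Z (A.D c) ∧ A.E (cut A.Z (A.D c)) = cut A.Z (A.D c) ∧
        A.E (cut A.B (A.D c)) = cut A.B (A.D c) := by
    intro c hc
    have e1 : A.D c = cut A.B (A.D c) + cut A.Z (A.D c) := by
      conv_lhs => rw [hsplit (A.D c), hc, zero_add]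
    have sB : ∀ y, A.E (cut A.B (A.D c)) y ≠ 0 → y ∈ A.B' :=
      q1 A.E (· ∈ A.B) (· ∈ A.B') A.E_B _ (cutB _)
    have sZ : ∀ y, A.E (cut A.Z (A.D c)) y ≠ 0 → y ∈ A.Z' :=
      q1 A.E (· ∈ A.Z) (· ∈ A.Z') A.E_Z _ (cutZ _)
    have e2 : A.E (cut A.B (A.D c)) + A.E (cut A.Z (A.D c)) =
        cut A.B (A.D c) + cut A.Z (A.D c) := by
      rw [← map_add, ← e1, hED]
    have e3 : A.E (cut A.Z (A.D c)) = cut A.Z (A.D c) := by
      ext y
      by_cases hy : y ∈ A.Z'
      · have hyB : y ∉ A.B' := fun h => Set.disjoint_left.mp A.disj h hy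
        have hy1 : A.E (cut A.B (A.D c)) y = 0 := by
          by_contra h
          exact hyB (sB y h)
        have hy2 : cut A.B (A.D c) y = 0 := by
          by_contra h
          exact hyB (A.BB' (cutB _ y h))
        have e4 := DFunLike.congr_fun e2 y
        rw [Finsupp.add_apply, Finsupp.add_apply, hy1, hy2, zero_add, zero_add] at e4
        exact e4
      · have hy1 : A.E (cut A.Z (A.D c)) y = 0 := by
          by_contra h
          exact hy (sZ y h)
        have hy2 : cut A.Z (A.D c) y = 0 := by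
          by_contra h
          exact hy (A.ZZ' (cutZ _ y h))
        rw [hy1, hy2]
    refine ⟨e1, e3, ?_⟩
    rw [e3] at e2
    exact add_right_cancel e2
  have hdegD : ∀ (n : ℕ) (c : A.X →₀ ℚ), (∀ x, c x ≠ 0 → A.deg x = n + 1) →
      ∀ y, A.D c y ≠ 0 → A.deg y = n := by
    intro n c hc
    refine q1 A.D (fun x => A.deg x = n + 1) (fun x => A.deg x = n) ?_ c hc
    intro x hx y hy
    have := A.deg_D x y hy
    omega
  have hD0 : ∀ c : A.X →₀ ℚ, (∀ x, c x ≠ 0 → A.deg x = 0) → A.D c = 0 := by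
    intro c hc
    ext y
    by_contra h
    exact q1 A.D (fun x => A.deg x = 0) (fun _ => False) (fun x hx y hy => by
      have := A.deg_D x y hy
      omega) c hc y h
  -- φ is invariant under κ on cycles of degree one
  have hφ3 : ∀ c : A.X →₀ ℚ, (∀ x, c x ≠ 0 → A.deg x = 1) → A.p (A.D c) = 0 →
      pair (A.p (A.κ c)) φX = pair (cut A.Z (A.D c)) ε := by
    intro c hc hpc
    obtain ⟨e1, e2, e3⟩ := hbd c hpc
    set uB := cut A.B (A.D c) with huB
    set uZ := cut A.Z (A.D c) with huZ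
    have duB : ∀ x, uB x ≠ 0 → A.deg x = 0 := by
      intro x hx
      have hxB : x ∈ A.B := cutB _ x hx
      rw [huB, cut_apply_of_mem _ _ hxB] at hx
      exact hdegD 0 c hc x hx
    have duZ : ∀ x, uZ x ≠ 0 → A.deg x = 0 := by
      intro x hx
      have hxZ : x ∈ A.Z := cutZ _ x hx
      rw [huZ, cut_apply_of_mem _ _ hxZ] at hx
      exact hdegD 0 c hc x hx
    have e4 : A.θ uB = A.H uB := q2 A.θ A.H (· ∈ A.B')
      (fun x hx => A.θ_B' x hx (hl5 x)) uB (fun x hx => A.BB' (cutB _ x hx))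
    have e5 : A.κ c = A.E c - A.D (A.θ c) - A.H uB - A.θ uZ := by
      rw [hκ, e1, map_add, e4]
      abel
    have e6 : A.D (A.H uB) = uB - A.r uB := by
      have := hfl uB
      rw [e3, hD0 uB duB, map_zero, add_zero] at this
      exact this.symm
    have e7 : A.D (A.θ uZ) = uZ - A.κ uZ := by
      rw [hκ, e2, hD0 uZ duZ, map_zero, sub_zero]
      abel
    have e8 : cut A.Z (uB - A.r uB) = 0 := by
      apply pz
      intro y hy
      by_contra h
      have hy1 : uB y = 0 := by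
        by_contra h'
        exact h (cutB _ y h')
      have hy2 : A.r uB y = 0 := by
        by_contra h'
        exact h (q1 A.r (fun _ => True) (· ∈ A.B) (fun x _ => A.r_B x (hl5 x)) uB
          (fun _ _ => trivial) y h')
      rw [Finsupp.sub_apply, hy1, hy2, sub_zero] at hy
      exact hy rfl
    have e9 : cut A.Z (A.D (A.θ uZ)) = A.D (A.θ uZ) := by
      apply q3
      intro y hy
      by_contra h
      have hy1 : uZ y = 0 := by
        by_contra h'
        exact h (cutZ _ y h')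
      have hy2 : A.κ uZ y = 0 := by
        by_contra h'
        exact h ((h1 ℚ A).2.2.2.1 uZ (fun x hx => A.ZZ' (cutZ _ x hx)) y h')
      rw [e7, Finsupp.sub_apply, hy1, hy2, sub_zero] at hy
      exact hy rfl
    have e10 : A.D (A.κ c) = A.D c - (uB - A.r uB) - A.D (A.θ uZ) := by
      rw [e5, map_sub, map_sub, map_sub, hDE, hDD, sub_zero, e6]
    have e11 : cut A.Z (A.D (A.κ c)) = uZ - A.D (A.θ uZ) := by
      rw [e10, map_sub, map_sub, e8, e9, sub_zero]
    rw [hφ1, e11, pair_sub' h0, hεD', sub_zero]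
  -- the cycle p H v0
  have hv1 : A.D (A.H v0) = v0 - A.r v0 := by
    have := hfl v0
    rw [hC1.Ev0, hD0 v0 (fun x hx => (hC1.deg0 x hx).1), map_zero, add_zero] at this
    exact this.symm
  have hrB : ∀ c : A.X →₀ ℚ, ∀ y, A.r c y ≠ 0 → y ∈ A.B := fun c =>
    q1 A.r (fun _ => True) (· ∈ A.B) (fun x _ => A.r_B x (hl5 x)) c (fun _ _ => trivial)
  have pW : ∀ c : A.X →₀ ℚ, (∀ y, c y ≠ 0 → y ∈ A.B ∨ y ∈ A.Z) → A.p c = 0 := by
    intro c hc
    exact q4 A.Ws c (fun x hx h => h (hc x hx))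
  have hpDpH : A.p (A.D (A.p (A.H v0))) = 0 := by
    rw [← (h1 ℚ A).2.2.2.2.2, hv1]
    apply pW
    intro y hy
    by_contra h
    rw [not_or] at h
    have hy1 : v0 y = 0 := by
      by_contra h'
      exact h.2 (hC1.deg0 y h').2
    have hy2 : A.r v0 y = 0 := by
      by_contra h'
      exact h.1 (hrB v0 y h')
    rw [Finsupp.sub_apply, hy1, hy2, sub_zero] at hy
    exact hy rfl
  have hHdeg : ∀ x, A.H v0 x ≠ 0 → A.deg x = 1 := by
    refine q1 A.H (fun x => A.deg x = 0) (fun x => A.deg x = 1) ?_ v0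
      (fun x hx => (hC1.deg0 x hx).1)
    intro x hx y hy
    have := A.deg_H x y hy
    omega
  have hpdeg : ∀ x, A.p (A.H v0) x ≠ 0 → A.deg x = 1 := by
    intro x hx
    apply hHdeg x
    by_contra h
    by_cases hW : x ∈ A.Ws
    · exact hx ((cut_apply_of_mem A.Ws (A.H v0) hW).trans h)
    · exact hx (cut_apply_of_notMem A.Ws (A.H v0) hW)
  have hzφ : A.res (A.κ (A.p (A.H v0))) ⬝ᵥ (fun x : A.W => φX x.1) = 1 := by
    rw [dot_inc A h0, m3, hφ3 _ hpdeg hpDpH, ← hφ0, hφ1, hv1, map_sub,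
      q3 A.Z v0 (fun x hx => (hC1.deg0 x hx).2), pz _ (hrB v0), sub_zero]
    exact hv0
  refine hE A.W A.degW (A.mat A.D) (A.mat A.κ) _ _ (fun x : A.W => φX x.1) (A.res Om) k1 k2 k3 k4
    k5 k6 (h6 ℚ A) z1 z2 z3 z4 y1 y2 y3 ?_ hzφ ?_ ?_ ?_ ?_ ?_
  · -- d φ = 0
    funext x
    have e1 : (A.mat A.D *ᵥ fun y : A.W => φX y.1) x =
        A.res (A.D (Finsupp.single x.1 1)) ⬝ᵥ (fun y : A.W => φX y.1) := rfl
    rw [e1, dot_inc A h0, m3, hφ1, hDD, map_zero, pair_zero']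
    rfl
  · -- degree two
    intro x hx hxd
    have hc2 := m6 x 2 hx
    have hcW := m5 x
    set c := A.inc x with hc
    have hpc : A.p (A.D c) = 0 := by
      rw [← m3, m1, hxd]
      unfold Zone.inc
      simp
    obtain ⟨e1, e2, _⟩ := hbd c hpc
    have dD := hdegD 1 c hc2
    have hDuZ : A.D (cut A.Z (A.D c)) = 0 := by
      have e3 : A.D (cut A.B (A.D c)) + A.D (cut A.Z (A.D c)) = 0 := by
        rw [← map_add, ← e1, hDD]
      ext y
      by_contra h
      have hyZ := hDZ _ (cutZ _) y h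
      have hyB : A.D (cut A.B (A.D c)) y = 0 := by
        by_contra h'
        exact hBZ y (hDB _ (cutB _) y h') hyZ
      have e4 := DFunLike.congr_fun e3 y
      rw [Finsupp.add_apply, hyB, zero_add] at e4
      exact h e4
    obtain ⟨e, he1, he2⟩ := hH2 (cut A.Z (A.D c)) (fun y hy => by
      have hyZ := cutZ _ y hy
      rw [cut_apply_of_mem _ _ hyZ] at hy
      exact ⟨dD y hy, hyZ⟩) hDuZ e2
    have e5 := (h3 ℚ A).2.1 c hcW hpc
    rw [← he2, (h3 ℚ A).2.2 e (fun y hy => (he1 y hy).2)] at e5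
    refine ⟨A.res (A.κ (A.H c)) - A.res (A.κ (A.p (A.H e))), ?_⟩
    have e6 : ∀ w : A.X →₀ ℚ, A.res (A.D (A.p w)) = A.res w ᵥ* A.mat A.D := by
      intro w
      rw [← m3, m1]
    rw [← m1, ← m4 (A.κ (A.inc x)), ← hc, e5, Matrix.sub_vecMul, ← e6, ← e6]
    have e7 : ∀ w w' : A.X →₀ ℚ, A.res (- A.p w + A.p w') = A.res w' - A.res w := by
      intro w w'
      have a1 : A.res (- A.p w + A.p w') = - A.res (A.p w) + A.res (A.p w') := rfl
      rw [a1, m4, m4]
      abel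
    exact e7 _ _
  · -- Om is homogeneous
    intro x hx
    exact hOm x.1 hx
  · -- Om is a cycle
    have e6 : A.res Om ᵥ* A.mat A.D = A.res (A.p (A.D (A.p Om))) := by
      rw [← m1, m3, m4]
    rw [e6, ← (h1 ℚ A).2.2.2.2.2, pW _ (fun y hy => Or.inr (hOmD y hy))]
    rfl
  · -- Om is fixed
    have e6 : A.res Om ᵥ* A.mat A.κ = A.res (A.p (A.κ (A.p Om))) := by
      rw [← m1, m3, m4]
    have e7 : A.θ Om = 0 := by
      ext y
      by_contra h
      exact q1 A.θ (fun x => A.deg x = 3) (fun _ => False) (fun x hx y hy => by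
        have a1 := A.deg_θ x y hy
        have a2 := A.deg_le y
        omega) Om hOm y h
    have e8 : A.p (A.κ Om) = A.p Om := by
      rw [hκ, e7, map_zero, sub_zero, map_sub, pW (A.θ (A.D Om)) (fun y hy => Or.inr (hOmθ y hy)),
        sub_zero]
      have e9 : A.p (A.E Om - Om) = 0 := pW _ (fun y hy => Or.inr (hOmE y hy))
      rw [map_sub, sub_eq_zero] at e9
      exact e9
    rw [e6, ← (h1 ℚ A).2.2.2.2.1 Om (fun x _ => le_trans (by norm_num) (hlev x)), e8, m4]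
  · -- Om is nonzero
    intro h
    apply hOmp
    rw [← m3, h]
    unfold Zone.inc
    simp

end Pool.Agent.CPD
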