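import Pool.Agent.CPD.Z1

/-!
# CPD, Z2: `k = p κ` is a chain map of the zone, homotopic to its square
-/

set_option autoImplicit false

namespace Pool.Agent.CPD

open Matrix

section

variable {Λ : Type} [Ring Λ] {A : Zone Λ}

theorem Z2_good {c : A.X →₀ Λ} (h : ∀ x, c x ≠ 0 → x ∈ A.Ws) : Z1Good A 20 c :=
  fun x hx => A.levW x fun hB => h x hx (Or.inl hB)

/-- `θ` on `B` and on `Z` -/
theorem Z2_θB (h0 : St_Z0) (h1 : St_Z1) (c : A.X →₀ Λ)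
    (h : ∀ x, c x ≠ 0 → 9 ≤ A.lev x ∧ x ∈ A.B) : A.p (A.κ (A.θ c)) = 0 := by
  have g : Z1Good A 9 c := fun x hx => (h x hx).1
  have g5 : Z1Good A 5 c := g.mono (by norm_num)
  rw [Z1_θB' h0 g5 (fun x hx => A.BB' (h x hx).2)]
  refine Z1_p0B h0 _ ((h1 Λ A).2.2.1 (A.H c) fun x hx => ⟨Z1Good.H h0 g x hx, ?_⟩)
  exact (h0 Λ A.X).1 A.H (fun x => x ∈ A.B ∧ 5 ≤ A.lev x) (fun y => y ∈ A.B')
    (fun x hx => A.H_B x hx.1 hx.2) c (fun x hx => ⟨(h x hx).2, g5 x hx⟩) x hx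

theorem Z2_θZ (h0 : St_Z0) (h1 : St_Z1) (c : A.X →₀ Λ) (h : ∀ x, c x ≠ 0 → x ∈ A.Z) :
    A.p (A.κ (A.θ c)) = 0 := by
  refine Z1_p0Z h0 _ ((h1 Λ A).2.2.2.1 (A.θ c) ?_)
  exact (h0 Λ A.X).1 A.θ (fun x => x ∈ A.Z) (fun y => y ∈ A.Z') (fun x hx => A.θ_Z x hx) c h

end

/-- [Z2] -/
theorem Z2 (h0 : St_Z0) (h1 : St_Z1) : St_Z2 := by
  intro Λ _ A c hc
  have g : Z1Good A 20 c := Z2_good hc
  obtain ⟨q1, q2, q3, q4, q5, q6⟩ := h1 Λ A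
  refine ⟨?_, ?_, ?_⟩
  · rw [← q6 (A.D c), Z1_DD h0 (g.mono (by norm_num)), map_zero]
  · rw [← q6 (A.κ c), ← (q1 c (g.mono (by norm_num))).2.2,
      q5 (A.D c) (Z1Good.D h0 (g.mono (by norm_num)))]
  · have e1 : A.p (A.κ (A.θ (A.D c))) = A.p (A.κ (A.θ (A.p (A.D c)))) := by
      refine Z1_cut (fun x => 9 ≤ A.lev x) (A.κ ∘ₗ A.θ) (fun c hc => ?_) (fun c hc => ?_) (A.D c)
        (Z1Good.D h0 (g.mono (by norm_num)))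
      · exact Z2_θB h0 h1 c hc
      · exact Z2_θZ h0 h1 c fun x hx => (hc x hx).2
    rw [← q5 (A.κ c) (Z1Good.κ h0 (g.mono (by norm_num))), q2 c (g.mono (by norm_num)), map_sub,
      map_sub, q6 (A.κ (A.θ c)), e1]

end Pool.Agent.CPD
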