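import Pool.Agent.CPD.StZ

/-!
# CPD, Z4: matrices and chains
-/

set_option autoImplicit false

namespace Pool.Agent.CPD

open Matrix

section

variable {Λ : Type} [Ring Λ] (A : Zone Λ)

private lemma Z4_inc_mem (v : A.W → Λ) (x : A.W) : A.inc v x.1 = v x := by
  unfold Zone.inc
  rw [Finsupp.finsetSum_apply, Finset.sum_eq_single x]
  · exact Finsupp.single_eq_same
  · intro y _ hy
    exact Finsupp.single_eq_of_ne fun h => hy (Subtype.ext h.symm)
  · intro h
    exact absurd (Finset.mem_univ _) h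

private lemma Z4_inc_not (v : A.W → Λ) {x : A.X} (hx : x ∉ A.Ws) : A.inc v x = 0 := by
  unfold Zone.inc
  rw [Finsupp.finsetSum_apply]
  refine Finset.sum_eq_zero fun y _ => ?_
  exact Finsupp.single_eq_of_ne fun h => hx (h ▸ y.2)

private lemma Z4_one (F : (A.X →₀ Λ) →ₗ[Λ] (A.X →₀ Λ)) (v : A.W → Λ) :
    A.res (F (A.inc v)) = v ᵥ* A.mat F := by
  ext x
  change F (A.inc v) x.1 = v ⬝ᵥ (fun y => A.mat F y x)
  unfold Zone.inc
  rw [map_sum, Finsupp.finsetSum_apply]
  unfold dotProduct
  refine Finset.sum_congr rfl fun y _ => ?_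
  have h : (Finsupp.single y.1 (v y) : A.X →₀ Λ) = v y • Finsupp.single y.1 1 := by
    rw [Finsupp.smul_single, smul_eq_mul, mul_one]
  rw [h, map_smul, Finsupp.smul_apply, smul_eq_mul]
  rfl

private lemma Z4_three (c : A.X →₀ Λ) : A.inc (A.res c) = A.p c := by
  ext x
  by_cases hx : x ∈ A.Ws
  · have h1 := Z4_inc_mem A (A.res c) ⟨x, hx⟩
    have h2 : A.p c x = c x := cut_apply_of_mem _ _ hx
    rw [h2]
    exact h1
  · have h2 : A.p c x = 0 := cut_apply_of_notMem _ _ hx
    rw [h2, Z4_inc_not A _ hx]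

end

theorem Z4 (_h0 : St_Z0) : St_Z4 := by
  intro Λ _ A
  refine ⟨Z4_one A, fun v => ?_, Z4_three A, fun c => ?_, fun v x hx => ?_, fun v n hv x hx => ?_,
    fun F f hf x => ?_, fun F F' => ?_, fun F F' => ?_⟩
  · ext x
    exact Z4_inc_mem A v x
  · ext x
    exact cut_apply_of_mem _ _ x.2
  · by_contra h
    exact hx (Z4_inc_not A v h)
  · by_cases h : x ∈ A.Ws
    · have h1 := Z4_inc_mem A v ⟨x, h⟩
      have h2 : v ⟨x, h⟩ ≠ 0 := fun h3 => hx (h1.trans h3)
      exact hv _ h2
    · exact absurd (Z4_inc_not A v h) hx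
  · classical
    set c := F (Finsupp.single x.1 1) with hc
    change ∑ y : A.W, c y.1 * f y.1 = c.sum fun x l => l * f x
    have h1 : (c.sum fun x l => l * f x) =
        ∑ y ∈ (c.support ∪ Finset.univ.image fun y : A.W => y.1), c y * f y := by
      refine Finset.sum_subset Finset.subset_union_left fun y _ hy => ?_
      change c y * f y = 0
      rw [Finsupp.notMem_support_iff.1 hy, zero_mul]
    have h2 : ∑ y ∈ (Finset.univ.image fun y : A.W => y.1), c y * f y =
        ∑ y ∈ (c.support ∪ Finset.univ.image fun y : A.W => y.1), c y * f y := by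
      refine Finset.sum_subset Finset.subset_union_right fun y _ hy => ?_
      have h3 : f y = 0 := by
        by_contra h4
        exact hy (Finset.mem_image.2 ⟨⟨y, hf y h4⟩, Finset.mem_univ _, rfl⟩)
      rw [h3, mul_zero]
    rw [h1, ← h2, Finset.sum_image fun a _ b _ h => Subtype.ext h]
  · ext x y
    have h1 := congrFun (Z4_one A F (A.res (F' (Finsupp.single x.1 1)))) y
    rw [Z4_three] at h1
    exact h1
  · ext x y
    rfl

end Pool.Agent.CPD
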