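import Pool.Agent.CPD.StZ

/-!
# CPD, Z5: the matrices of the zone
-/

set_option autoImplicit false

namespace Pool.Agent.CPD

open Matrix

theorem Z5 (h0 : St_Z0) (h2 : St_Z2) (h4 : St_Z4) : St_Z5 := by
  intro Λ _ A
  obtain ⟨-, -, -, -, -, -, -, hcomp, -⟩ := h4 Λ A
  have hprop := (h0 Λ A.X).1
  have hW : ∀ (x : A.W) (z : A.X), (Finsupp.single x.1 (1 : Λ)) z ≠ 0 → z ∈ A.Ws := by
    intro x z hz
    have h3 : x.1 = z := by
      by_contra h
      exact hz (Finsupp.single_eq_of_ne fun h' => h h'.symm)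
    exact h3 ▸ x.2
  have hp : ∀ (c : A.X →₀ Λ) (y : A.W), A.p c y.1 = c y.1 := fun c y =>
    cut_apply_of_mem _ _ y.2
  -- degrees
  have hκ : ∀ x y, A.κ (Finsupp.single x 1) y ≠ 0 → A.deg x = A.deg y := by
    intro x y hy
    have h3 : A.E (Finsupp.single x 1) y ≠ 0 ∨ A.D (A.θ (Finsupp.single x 1)) y ≠ 0 ∨
        A.θ (A.D (Finsupp.single x 1)) y ≠ 0 := by
      by_contra hc
      push Not at hc
      apply hy
      change (A.E (Finsupp.single x 1) - A.D (A.θ (Finsupp.single x 1)) -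
        A.θ (A.D (Finsupp.single x 1))) y = 0
      rw [Finsupp.sub_apply, Finsupp.sub_apply, hc.1, hc.2.1, hc.2.2, sub_zero, sub_zero]
    rcases h3 with h3 | h3 | h3
    · exact A.deg_E _ _ h3
    · refine hprop A.D (fun z => A.deg z = A.deg x + 1) (fun z => A.deg x = A.deg z) ?_
        (A.θ (Finsupp.single x 1)) (fun z hz => A.deg_θ _ _ hz) y h3
      intro z hz w hw
      have := A.deg_D _ _ hw
      omega
    · refine hprop A.θ (fun z => A.deg x = A.deg z + 1) (fun z => A.deg x = A.deg z) ?_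
        (A.D (Finsupp.single x 1)) (fun z hz => A.deg_D _ _ hz) y h3
      intro z hz w hw
      have := A.deg_θ _ _ hw
      omega
  refine ⟨fun x => A.deg_le _, fun x y h => A.deg_D _ _ h, ?_, fun x y h => hκ _ _ h, ?_, ?_⟩
  · rw [← hcomp]
    ext x y
    change A.D (A.p (A.D (Finsupp.single x.1 1))) y.1 = 0
    rw [← hp (A.D (A.p (A.D (Finsupp.single x.1 1)))) y,
      (h2 Λ A (Finsupp.single x.1 1) (hW x)).1]
    rfl
  · rw [← hcomp, ← hcomp]
    ext x y
    change A.κ (A.p (A.D (Finsupp.single x.1 1))) y.1 =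
      A.D (A.p (A.κ (Finsupp.single x.1 1))) y.1
    rw [← hp (A.κ (A.p (A.D (Finsupp.single x.1 1)))) y,
      ← hp (A.D (A.p (A.κ (Finsupp.single x.1 1)))) y,
      (h2 Λ A (Finsupp.single x.1 1) (hW x)).2.1]
  · refine ⟨- A.mat (A.κ ∘ₗ A.θ), ?_, ?_⟩
    · intro x y h
      have h3 : A.κ (A.θ (Finsupp.single x.1 1)) y.1 ≠ 0 := by
        intro h5
        apply h
        change - (A.κ (A.θ (Finsupp.single x.1 1)) y.1) = 0
        rw [h5, neg_zero]
      refine hprop A.κ (fun z => A.deg z = A.deg x.1 + 1) (fun z => A.deg z = A.deg x.1 + 1) ?_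
        (A.θ (Finsupp.single x.1 1)) (fun z hz => A.deg_θ _ _ hz) y.1 h3
      intro z hz w hw
      have := hκ _ _ hw
      omega
    · rw [neg_mul, mul_neg, ← hcomp, ← hcomp, ← hcomp]
      ext x y
      change A.κ (A.p (A.κ (Finsupp.single x.1 1))) y.1 - A.κ (Finsupp.single x.1 1) y.1 =
        -(A.D (A.p (A.κ (A.θ (Finsupp.single x.1 1)))) y.1) +
          -(A.κ (A.θ (A.p (A.D (Finsupp.single x.1 1)))) y.1)
      have h3 := (h2 Λ A (Finsupp.single x.1 1) (hW x)).2.2
      have h5 := congrArg (fun c : A.X →₀ Λ => c y.1) h3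
      simp only [Finsupp.sub_apply, hp] at h5
      rw [h5]
      abel

end Pool.Agent.CPD
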