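import Pool.Agent.CPD.StZ

/-!
# Degree zero of the zone
-/

set_option autoImplicit false

namespace Pool.Agent.CPD

open Matrix

theorem Z6 (_h0 : St_Z0) (h3 : St_Z3) (h4 : St_Z4) : St_Z6 := by
  intro Λ _ A x hx
  obtain ⟨m1, _, m3, m4, m5, m6, _, _, _⟩ := h4 Λ A
  have h1 := (h3 Λ A).1 (A.inc x) (fun y hy => ⟨m5 x y hy, m6 x 0 hx y hy⟩)
  refine ⟨A.res (A.κ (A.p (A.H (A.inc x)))), ?_⟩
  rw [← m1, ← m1, m3, ← m4 (A.κ (A.inc x)), h1, m4]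

end Pool.Agent.CPD
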