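import Pool.Agent.CPD.StZ

/-!
# The first homology of the zone is cyclic
-/

set_option autoImplicit false

namespace Pool.Agent.CPD

open Matrix

private theorem Z7_res_add {Λ : Type} [Ring Λ] (A : Zone Λ) (c c' : A.X →₀ Λ) :
    A.res (c + c') = A.res c + A.res c' := rfl

private theorem Z7_res_sub {Λ : Type} [Ring Λ] (A : Zone Λ) (c c' : A.X →₀ Λ) :
    A.res (c - c') = A.res c - A.res c' := rfl

private theorem Z7_res_smul {Λ : Type} [Ring Λ] (A : Zone Λ) (a : Λ) (c : A.X →₀ Λ) :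
    A.res (a • c) = a • A.res c := rfl

theorem Z7 (h0 : St_Z0) (h1 : St_Z1) (h2 : St_Z2) (h3 : St_Z3) (h4 : St_Z4) : St_Z7 := by
  intro Λ _ A v0 hC
  obtain ⟨z01, z02, -, z04, -, -⟩ := h0 Λ A.X
  obtain ⟨-, -, -, -, -, z16⟩ := h1 Λ A
  have z2 := h2 Λ A
  obtain ⟨-, z32, z33⟩ := h3 Λ A
  obtain ⟨z41, -, z43, z44, z45, z46, -, -, -⟩ := h4 Λ A
  have hZB : ∀ x ∈ A.Z, x ∉ A.B := fun x hx hb =>
    Set.disjoint_left.1 A.disj (A.BB' hb) (A.ZZ' hx)
  have hlevZ : ∀ x ∈ A.Z, 20 ≤ A.lev x := fun x hx => A.levW x (hZB x hx)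
  -- degrees
  have hκdeg : ∀ (n : ℕ) (c : A.X →₀ Λ), (∀ x, c x ≠ 0 → A.deg x = n) →
      ∀ y, A.κ c y ≠ 0 → A.deg y = n := by
    intro n
    refine z01 A.κ (fun x => A.deg x = n) (fun y => A.deg y = n) ?_
    intro x hx y hy
    have hk : A.κ (Finsupp.single x 1) y = A.E (Finsupp.single x 1) y -
        A.D (A.θ (Finsupp.single x 1)) y - A.θ (A.D (Finsupp.single x 1)) y := rfl
    by_contra hne
    have hE : A.E (Finsupp.single x 1) y = 0 := by
      by_contra h
      exact hne ((A.deg_E x y h).symm.trans hx)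
    have hDθ : A.D (A.θ (Finsupp.single x 1)) y = 0 := by
      by_contra h
      exact hne (z01 A.D (fun x' => A.deg x' = n + 1) (fun y => A.deg y = n)
        (fun x' hx' y hy => by
          have h5 := A.deg_D x' y hy
          have h6 : A.deg x' = n + 1 := hx'
          show A.deg y = n
          omega) (A.θ (Finsupp.single x 1))
        (fun x' hx' => by
          show A.deg x' = n + 1
          rw [A.deg_θ x x' hx', hx]) y h)
    have hθD : A.θ (A.D (Finsupp.single x 1)) y = 0 := by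
      by_contra h
      exact hne (z01 A.θ (fun x' => A.deg x' + 1 = n) (fun y => A.deg y = n)
        (fun x' hx' y hy => by
          show A.deg y = n
          rw [A.deg_θ x' y hy]
          exact hx') (A.D (Finsupp.single x 1))
        (fun x' hx' => by
          show A.deg x' + 1 = n
          rw [← A.deg_D x x' hx', hx]) y h)
    apply hy
    rw [hk, hE, hDθ, hθD]
    simp
  have hHdeg : ∀ (n : ℕ) (c : A.X →₀ Λ), (∀ x, c x ≠ 0 → A.deg x = n) →
      ∀ y, A.H c y ≠ 0 → A.deg y = n + 1 := by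
    intro n
    refine z01 A.H (fun x => A.deg x = n) (fun y => A.deg y = n + 1) ?_
    intro x hx y hy
    rw [A.deg_H x y hy, hx]
  -- the projection
  have hpne : ∀ (c : A.X →₀ Λ) (y : A.X), A.p c y ≠ 0 → y ∈ A.Ws ∧ c y ≠ 0 := by
    intro c y hy
    by_cases hw : y ∈ A.Ws
    · refine ⟨hw, ?_⟩
      have h5 : A.p c y = c y := cut_apply_of_mem _ _ hw
      rwa [h5] at hy
    · exact absurd (cut_apply_of_notMem _ _ hw) hy
  have hpZ : ∀ c : A.X →₀ Λ, (∀ x, c x ≠ 0 → x ∈ A.Z) → A.p c = 0 := by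
    intro c hc
    refine z04 A.Ws c ?_
    intro x hx hw
    exact hw (Or.inr (hc x hx))
  have hpB : ∀ c : A.X →₀ Λ, (∀ x, c x ≠ 0 → x ∈ A.B) → A.p c = 0 := by
    intro c hc
    refine z04 A.Ws c ?_
    intro x hx hw
    exact hw (Or.inl (hc x hx))
  -- boundaries
  have hbd : ∀ w : A.X →₀ Λ, A.res (A.p (A.D (A.p w))) = A.res w ᵥ* A.mat A.D := by
    intro w
    rw [z44, ← z43, z41]
  have hkap : ∀ x : A.W → Λ, x ᵥ* A.mat A.κ = A.res (A.p (A.κ (A.inc x))) := by
    intro x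
    rw [z44, z41]
  set c0 := A.p (A.H v0) with hc0
  have hv0deg : ∀ x, v0 x ≠ 0 → A.deg x = 0 := fun x hx => (hC.deg0 x hx).1
  have hv0Z : ∀ x, v0 x ≠ 0 → x ∈ A.Z := fun x hx => (hC.deg0 x hx).2
  have hc0W : ∀ x, c0 x ≠ 0 → x ∈ A.Ws := fun x hx => (hpne _ x hx).1
  have hc0deg : ∀ x, c0 x ≠ 0 → A.deg x = 1 := fun x hx =>
    hHdeg 0 v0 hv0deg x (hpne _ x hx).2
  -- the boundary of `c0`
  have hDv0 : A.D v0 = 0 := by
    ext y
    by_contra hy
    exact z01 A.D (fun x => A.deg x = 0) (fun _ => False)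
      (fun x hx y hy => by
        have h5 := A.deg_D x y hy
        have h6 : A.deg x = 0 := hx
        omega) v0 hv0deg y hy
  have hflow : A.E v0 - A.r v0 = A.D (A.H v0) + A.H (A.D v0) :=
    z02 (A.E - A.r) (A.D ∘ₗ A.H + A.H ∘ₗ A.D) (fun x => 5 ≤ A.lev x)
      (fun x hx => A.flow x hx) v0 (fun x hx => by
        have := hlevZ x (hv0Z x hx)
        show 5 ≤ A.lev x
        omega)
  have hrv0 : A.p (A.r v0) = 0 := by
    refine hpB _ ?_
    refine z01 A.r (fun x => 5 ≤ A.lev x) (fun y => y ∈ A.B) (fun x hx => A.r_B x hx) v0 ?_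
    intro x hx
    have := hlevZ x (hv0Z x hx)
    show 5 ≤ A.lev x
    omega
  have hDH : A.D (A.H v0) = v0 - A.r v0 := by
    rw [hDv0, map_zero, add_zero, hC.Ev0] at hflow
    exact hflow.symm
  have hpDc0 : A.p (A.D c0) = 0 := by
    rw [hc0, ← z16, hDH, map_sub, hpZ v0 hv0Z, hrv0, sub_zero]
  obtain ⟨-, z22, z23⟩ := z2 c0 hc0W
  have hinc : A.inc (A.res (A.κ c0)) = A.p (A.κ c0) := z43 _
  refine ⟨?_, ?_, ?_, ?_⟩
  · intro w hw
    exact hκdeg 1 c0 hc0deg w.1 hw
  · rw [← z41, hinc, ← z44, z22, hpDc0, map_zero, map_zero]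
    rfl
  · refine ⟨-A.res (A.κ (A.θ c0)), ?_⟩
    rw [hkap, hinc, z23, hpDc0, map_zero, map_zero, map_zero, sub_zero, Z7_res_sub, hbd, z44,
      Matrix.neg_vecMul, sub_eq_add_neg]
  · intro x hx hxD
    set c := A.inc x with hc
    have hcW : ∀ y, c y ≠ 0 → y ∈ A.Ws := fun y hy => z45 x y hy
    have hcdeg : ∀ y, c y ≠ 0 → A.deg y = 1 := z46 x 1 hx
    have hpDc : A.p (A.D c) = 0 := by
      rw [← z43, hc, z41, hxD]
      unfold Zone.inc
      simp
    set u := cut A.Z (A.D c) with hu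
    have hune : ∀ y, u y ≠ 0 → A.deg y = 0 ∧ y ∈ A.Z := by
      intro y hy
      by_cases hyZ : y ∈ A.Z
      · refine ⟨?_, hyZ⟩
        have h5 : u y = A.D c y := cut_apply_of_mem _ _ hyZ
        rw [h5] at hy
        exact z01 A.D (fun x => A.deg x = 1) (fun y => A.deg y = 0)
          (fun x hx y hy => by
            have h5 := A.deg_D x y hy
            have h6 : A.deg x = 1 := hx
            show A.deg y = 0
            omega) c hcdeg y hy
      · exact absurd (cut_apply_of_notMem _ _ hyZ) hy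
    obtain ⟨a, e, he, hEu⟩ := hC.gen u hune
    have hHu : A.H (A.E u) = A.H u :=
      z02 (A.H ∘ₗ A.E) A.H (fun x => 5 ≤ A.lev x) (fun x hx => A.HE x hx) u (fun x hx => by
        have := hlevZ x (hune x hx).2
        show 5 ≤ A.lev x
        omega)
    have h54 := z32 c hcW hpDc
    rw [← hu, ← hHu, hEu] at h54
    have h55 := z33 e (fun y hy => (he y hy).2)
    have hsum : A.p (A.κ (A.p (A.H (a • v0 + A.D e)))) =
        a • A.p (A.κ c0) - A.p (A.D (A.p (A.κ (A.p (A.H e))))) := by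
      rw [map_add, map_smul, map_add, map_smul, map_add, map_smul, map_add, map_smul, h55,
        ← sub_eq_add_neg]
    rw [hsum] at h54
    refine ⟨a, A.res (A.κ (A.H c)) - A.res (A.κ (A.p (A.H e))), ?_⟩
    rw [hkap, ← hc, h54, Z7_res_add, Z7_res_sub, Z7_res_smul, hbd, hbd, z44,
      Matrix.sub_vecMul]
    abel

end Pool.Agent.CPD
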