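import Pool.Agent.CPD.StZ

/-!
# Combable PD₃-groups : the third cohomology of the zone is cyclic (helper25)
-/

set_option autoImplicit false
set_option linter.unusedVariables false

namespace Pool.Agent.CPD

open Matrix

private theorem Z8_single {X Λ : Type} [Ring Λ] {x z : X}
    (h : (Finsupp.single x (1 : Λ)) z ≠ 0) : z = x := by
  classical
  by_contra hne
  exact h (by rw [Finsupp.single_apply, if_neg (fun e => hne e.symm)])

private theorem Z8_zero {X Λ : Type} [Ring Λ] (c : X →₀ Λ) (f : X → Λ)
    (h : ∀ y, c y ≠ 0 → f y = 0) : pair c f = 0 := by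
  unfold pair Finsupp.sum
  refine Finset.sum_eq_zero fun y hy => ?_
  simp only
  rw [h y (Finsupp.mem_support_iff.1 hy), mul_zero]

private theorem Z8_congr {X Λ : Type} [Ring Λ] (c : X →₀ Λ) (f g : X → Λ)
    (h : ∀ y, c y ≠ 0 → f y = g y) : pair c f = pair c g := by
  unfold pair Finsupp.sum
  refine Finset.sum_congr rfl fun y hy => ?_
  simp only
  rw [h y (Finsupp.mem_support_iff.1 hy)]

private theorem Z8_kdeg {Λ : Type} [Ring Λ] (A : Zone Λ) (h0 : St_Z0) (x y : A.X)
    (h : A.κ (Finsupp.single x 1) y ≠ 0) : A.deg y = A.deg x := by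
  obtain ⟨hs, -⟩ := h0 Λ A.X
  have e1 : A.κ (Finsupp.single x 1) = A.E (Finsupp.single x 1) -
      A.D (A.θ (Finsupp.single x 1)) - A.θ (A.D (Finsupp.single x 1)) := rfl
  rw [e1, Finsupp.sub_apply, Finsupp.sub_apply] at h
  by_cases h1 : A.E (Finsupp.single x 1) y = 0
  · by_cases h2 : A.D (A.θ (Finsupp.single x 1)) y = 0
    · have h3 : A.θ (A.D (Finsupp.single x 1)) y ≠ 0 := by
        intro h3
        exact h (by rw [h1, h2, h3, sub_zero, sub_zero])
      refine hs A.θ (fun z => A.deg x = A.deg z + 1) (fun z => A.deg z = A.deg x) ?_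
        (A.D (Finsupp.single x 1)) (fun z hz => A.deg_D x z hz) y h3
      intro z hz w hw
      have := A.deg_θ z w hw
      omega
    · refine hs A.D (fun z => A.deg z = A.deg x + 1) (fun z => A.deg z = A.deg x) ?_
        (A.θ (Finsupp.single x 1)) (fun z hz => A.deg_θ x z hz) y h2
      intro z hz w hw
      have := A.deg_D z w hw
      omega
  · exact (A.deg_E x y h1).symm

theorem Z8 (h0 : St_Z0) (h1 : St_Z1) (h2 : St_Z2) (h4 : St_Z4) (h5 : St_Z5) : St_Z8 := by
  classical
  intro Λ _ A b0 hb0
  obtain ⟨hdeg, hDn, hdd, hZr, hdk, e, heUp, he⟩ := h5 Λ A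
  obtain ⟨hk1, -, hkB, hkZ, -, -⟩ := h1 Λ A
  obtain ⟨-, -, -, -, -, -, hmat, -, -⟩ := h4 Λ A
  obtain ⟨-, -, -, -, hpair, -⟩ := h0 Λ A.X
  set d : Matrix A.W A.W Λ := A.mat A.D with hd
  set k : Matrix A.W A.W Λ := A.mat A.κ with hk
  -- cochains of degree three are cocycles
  have hd3 : ∀ u : A.W → Λ, Hg A.degW 3 u → d *ᵥ u = 0 := by
    intro u hu
    funext x
    change ∑ y, d x y * u y = 0
    refine Finset.sum_eq_zero fun y _ => ?_
    by_cases h6 : d x y = 0
    · rw [h6, zero_mul]
    · by_cases h7 : u y = 0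
      · rw [h7, mul_zero]
      · exfalso
        have h8 := hDn x y h6
        have h9 := hu y h7
        have h10 := hdeg x
        omega
  have hb03 : Hg A.degW 3 (fun y : A.W => b0 y.1) := fun y hy => (hb0.deg3 y.1 hy).1
  have hkk : ∀ u : A.W → Λ, Hg A.degW 3 u → k *ᵥ (k *ᵥ u) = k *ᵥ u + d *ᵥ (e *ᵥ u) := by
    intro u hu
    have h6 : k * k = k + (e * d + d * e) := by
      rw [← he]
      abel
    rw [Matrix.mulVec_mulVec, h6, Matrix.add_mulVec, Matrix.add_mulVec, ← Matrix.mulVec_mulVec,
      ← Matrix.mulVec_mulVec, hd3 u hu, Matrix.mulVec_zero, zero_add]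
  refine ⟨?_, ⟨e *ᵥ (fun y : A.W => b0 y.1), hkk _ hb03⟩, ?_⟩
  · intro x hx
    have hex : ∃ y : A.W, k x y * b0 y.1 ≠ 0 := by
      by_contra hcon
      push Not at hcon
      exact hx (Finset.sum_eq_zero fun y _ => hcon y)
    obtain ⟨y, hy⟩ := hex
    have h6 : k x y ≠ 0 := fun h => hy (by rw [h, zero_mul])
    have h7 : b0 y.1 ≠ 0 := fun h => hy (by rw [h, mul_zero])
    rw [hZr x y h6]
    exact (hb0.deg3 y.1 h7).1
  · intro u hu
    -- extension by zero
    set U : A.X → Λ := fun x => if h : x ∈ A.Ws then u ⟨x, h⟩ else 0 with hU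
    have hUW : ∀ x, U x ≠ 0 → x ∈ A.Ws := by
      intro x hx
      by_contra hn
      apply hx
      rw [hU]
      simp only
      rw [dif_neg hn]
    have hU3 : ∀ x, U x ≠ 0 → A.deg x = 3 := by
      intro x hx
      have h6 := hUW x hx
      apply hu ⟨x, h6⟩
      intro h7
      apply hx
      rw [hU]
      simp only
      rw [dif_pos h6]
      exact h7
    have hUu : (fun y : A.W => U y.1) = u := by
      funext y
      rw [hU]
      simp only
      rw [dif_pos y.2]
    set ν : A.X → Λ := fun x => if A.deg x = 3 ∧ x ∉ A.B' ∧ x ∉ A.Z' then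
      pair (A.κ (Finsupp.single x 1)) U else 0 with hν
    -- the value of `ν`
    have hνv : ∀ x, 8 ≤ A.lev x → ν x = pair (A.κ (Finsupp.single x 1)) U := by
      intro x hx
      rw [hν]
      simp only
      split_ifs with h6
      · rfl
      · symm
        apply Z8_zero
        intro y hy
        by_contra hUy
        by_cases h7 : A.deg x = 3
        · by_cases h8 : x ∈ A.B'
          · have h9 : y ∈ A.B := by
              refine hkB (Finsupp.single x 1) ?_ y hy
              intro z hz
              rw [Z8_single hz]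
              exact ⟨hx, h8⟩
            exact (hUW y hUy) (Or.inl h9)
          · by_cases h9 : x ∈ A.Z'
            · have h10 : y ∈ A.Z := by
                refine hkZ (Finsupp.single x 1) ?_ y hy
                intro z hz
                rw [Z8_single hz]
                exact h9
              exact (hUW y hUy) (Or.inr h10)
            · exact h6 ⟨h7, h8, h9⟩
        · apply h7
          rw [← Z8_kdeg A h0 x y hy]
          exact hU3 y hUy
    obtain ⟨b, f, hf, hνf⟩ := hb0.gen ν (by
      intro x hx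
      by_contra hn
      apply hx
      rw [hν]
      simp only
      rw [if_neg hn]) (by
      intro x hx
      have h6 : pair (A.E (Finsupp.single x 1)) ν = pair (A.E (Finsupp.single x 1))
          (fun y => pair (A.κ (Finsupp.single y 1)) U) := by
        apply Z8_congr
        intro y hy
        have h7 := A.lev_E x y hy
        exact hνv y (by omega)
      rw [h6, ← hpair, hνv x (by omega), (hk1 (Finsupp.single x 1) (by
        intro z hz
        rw [Z8_single hz]
        omega)).1])
    -- `k u` on the zone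
    have hku : k *ᵥ u = (fun y : A.W => b0 y.1 * b) + d *ᵥ (fun y : A.W => f y.1) := by
      funext x
      have h6 : (k *ᵥ (fun y : A.W => U y.1)) x = pair (A.κ (Finsupp.single x.1 1)) U :=
        hmat A.κ U hUW x
      have h7 : (d *ᵥ (fun y : A.W => f y.1)) x = pair (A.D (Finsupp.single x.1 1)) f :=
        hmat A.D f (fun y hy => (hf y hy).2) x
      have h8 : 20 ≤ A.lev x.1 := A.levW x.1 (fun h => x.2 (Or.inl h))
      rw [hUu] at h6
      rw [Pi.add_apply, h6, h7, ← hνv x.1 (by omega)]
      exact hνf x.1 x.2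
    refine ⟨b, k *ᵥ (fun y : A.W => f y.1) - e *ᵥ u, ?_⟩
    have h9 := hkk u hu
    have h10 : k *ᵥ (k *ᵥ u) = (fun x => (k *ᵥ (fun y : A.W => b0 y.1)) x * b) +
        d *ᵥ (k *ᵥ (fun y : A.W => f y.1)) := by
      rw [hku, Matrix.mulVec_add, Matrix.mulVec_mulVec, Matrix.mulVec_mulVec, hdk]
      congr 1
      funext x
      change ∑ y, k x y * (b0 y.1 * b) = (∑ y, k x y * b0 y.1) * b
      rw [Finset.sum_mul]
      exact Finset.sum_congr rfl fun y _ => (mul_assoc _ _ _).symm
    rw [Matrix.mulVec_sub, ← add_sub_assoc, ← h10, h9, add_sub_cancel_right]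

end Pool.Agent.CPD
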