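import Pool.Agent.CPD.StZ
import Pool.Agent.CPD.StA

/-!
# The class of `b0` is free
-/

set_option autoImplicit false

namespace Pool.Agent.CPD

open Matrix

theorem Z9 (h4 : St_Z4) (h5 : St_Z5) (h6 : St_Z6) (h7 : St_Z7) (h8 : St_Z8) (hK : St_LK) :
    St_Z9 := by
  intro Λ _ A t v0 b0 htr ht1 hkap hC1 hC3 hs l f hf hl
  obtain ⟨m1, _, m3, m4, m5, m6, m7, _, _⟩ := h4 Λ A
  obtain ⟨k1, k2, k3, k4, k5, k6⟩ := h5 Λ A
  obtain ⟨z1, z2, z3, z4⟩ := h7 Λ A v0 hC1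
  obtain ⟨y1, y2, y3⟩ := h8 Λ A b0 hC3
  obtain ⟨o, _, ho2, ho3⟩ := hK Λ A.W t A.degW (A.mat A.D) (A.mat A.κ) _ _ htr ht1 hkap k1 k2 k3
    k4 k5 k6 (h6 Λ A) z1 z2 z3 z4 y1 y2 y3 hs
  set yv := A.mat A.κ *ᵥ (fun y : A.W => b0 y.1) with hyv
  -- yv l is a coboundary
  have h9 : (fun x => yv x * l) = A.mat A.D *ᵥ (A.mat A.κ *ᵥ (fun y : A.W => f y.1)) := by
    have h10 : (fun x : A.W => b0 x.1 * l) = A.mat A.D *ᵥ (fun y : A.W => f y.1) := by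
      funext x
      rw [m7 A.D f hf x]
      exact hl x.1 x.2
    rw [Matrix.mulVec_mulVec, k5, ← Matrix.mulVec_mulVec, ← h10]
    funext x
    show (∑ y, A.mat A.κ x y * b0 y.1) * l = ∑ y, A.mat A.κ x y * (b0 y.1 * l)
    rw [Finset.sum_mul]
    exact Finset.sum_congr rfl fun y _ => mul_assoc _ _ _
  have h11 : o ⬝ᵥ (fun x => yv x * l) = l := by
    have h12 : o ⬝ᵥ (fun x => yv x * l) = (o ⬝ᵥ yv) * l := by
      show ∑ x, o x * (yv x * l) = (∑ x, o x * yv x) * l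
      rw [Finset.sum_mul]
      exact Finset.sum_congr rfl fun y _ => (mul_assoc _ _ _).symm
    rw [h12, ho3, one_mul]
  rw [← h11, h9, Matrix.dotProduct_mulVec, ho2, zero_dotProduct]

end Pool.Agent.CPD
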