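import Pool.Agent.CPD.TR1
import Pool.Agent.CPD.KA1
import Pool.Agent.CPD.KAP
import Pool.Agent.CPD.A1
import Pool.Agent.CPD.A2
import Pool.Agent.CPD.A3
import Pool.Agent.CPD.A4a
import Pool.Agent.CPD.A4b
import Pool.Agent.CPD.A4c
import Pool.Agent.CPD.A4d
import Pool.Agent.CPD.A5
import Pool.Agent.CPD.LK
import Pool.Agent.CPD.EU
import Pool.Agent.CPD.D0
import Pool.Agent.CPD.D1
import Pool.Agent.CPD.D2
import Pool.Agent.CPD.D3
import Pool.Agent.CPD.D4
import Pool.Agent.CPD.E0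
import Pool.Agent.CPD.E1
import Pool.Agent.CPD.E2a
import Pool.Agent.CPD.E2b
import Pool.Agent.CPD.E2c
import Pool.Agent.CPD.E2d
import Pool.Agent.CPD.E3a
import Pool.Agent.CPD.E3b
import Pool.Agent.CPD.E4
import Pool.Agent.CPD.E5
import Pool.Agent.CPD.E6a
import Pool.Agent.CPD.E6b
import Pool.Agent.CPD.E7
import Pool.Agent.CPD.E8
import Pool.Agent.CPD.E9
import Pool.Agent.CPD.EGeo
import Pool.Agent.CPD.Z0
import Pool.Agent.CPD.Z1
import Pool.Agent.CPD.Z2
import Pool.Agent.CPD.Z3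
import Pool.Agent.CPD.Z4
import Pool.Agent.CPD.Z5
import Pool.Agent.CPD.Z6
import Pool.Agent.CPD.Z7
import Pool.Agent.CPD.Z8
import Pool.Agent.CPD.Z9
import Pool.Agent.CPD.Z10
import Pool.Agent.CPD.F0
import Pool.Agent.CPD.F1
import Pool.Agent.CPD.F2
import Pool.Agent.CPD.F3
import Pool.Agent.CPD.F4
import Pool.Agent.CPD.F5
import Pool.Agent.CPD.F6
import Pool.Agent.CPD.F7
import Pool.Agent.CPD.F8
import Pool.Agent.CPD.F9
import Pool.Agent.CPD.F10a
import Pool.Agent.CPD.F10b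
import Pool.Agent.CPD.F11
import Pool.Agent.CPD.F12
import Pool.Agent.CPD.F13
import Pool.Agent.CPD.F14
import Pool.Agent.CPD.G0
import Pool.Agent.CPD.G1a
import Pool.Agent.CPD.G1b
import Pool.Agent.CPD.G2a
import Pool.Agent.CPD.G2b
import Pool.Agent.CPD.G2
import Pool.Agent.CPD.G3a
import Pool.Agent.CPD.G3b
import Pool.Agent.CPD.G4a
import Pool.Agent.CPD.G4b
import Pool.Agent.CPD.G4c
import Pool.Agent.CPD.G4d
import Pool.Agent.CPD.G5
import Pool.Agent.CPD.G6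
import Pool.Agent.CPD.G7
import Pool.Agent.CPD.FIN

/-!
# Assembly : combable orientable PD₃-groups are 1-connected at infinity
-/

set_option autoImplicit false

namespace Pool.Agent.CPD

/-- Every finitely presentable orientable PD₃-group with a bounded combing with a departure
function is 1-connected at infinity. -/
theorem All : St_FIN := by
  have a1 := A1
  have a2 := A2
  have a3 := A3 a2
  have a4a := A4a
  have a4b := A4b a4a
  have a4c := A4c a2 a4a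
  have a4d := A4d
  have a5 := A5 a1 a2 a4a a4b a4c a4d
  have lk := LK a1 a2 a3 a5
  have eu := EU a1 a2 a3
  have kap := KAP KA1
  have d0 := D0
  have d1 := D1 d0
  have d2 := D2 d0 d1
  have d3 := D3 d0
  have d4 := D4 d0 d2 d3
  have e1 := E1
  have e4 := E4 thm_E2a thm_E2b E2c E2d E3a E3b
  have e5 := E5 e1
  have e6a := E6a e1
  have e6b := E6b e6a
  have e7 := E7
  have e8 := E8 e1 e5 e7
  have e9 := E9 e1 e5 e7
  have egeo := EGeo E0 e4 e7 e8 e9
  have z0 := Z0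
  have z1 := Z1 z0
  have z2 := Z2 z0 z1
  have z3 := Z3 z0 z1 z2
  have z4 := Z4 z0
  have z5 := Z5 z0 z2 z4
  have z6 := Z6 z0 z3 z4
  have z7 := Z7 z0 z1 z2 z3 z4
  have z8 := Z8 z0 z1 z2 z4 z5
  have z9 := Z9 z4 z5 z6 z7 z8 lk
  have z10 := Z10 z0 z1 z2 z3 z4 z5 z6 z7 z8 eu
  have f0 := F0
  have f1 := F1
  have f2 := F2 f0 f1
  have f3 := F3 f0 f1 f2
  have f4 := F4 f0 f1 f2 f3
  have f5 := F5 f0 f1 f2 f3
  have f6 := F6 f0 f1
  have f7 := F7
  have f8 := F8 f0 f1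
  have f9 := F9 f1
  have f10a := F10a f0 f4 f6 f7 f9
  have f10b := F10b f0 f6 f7 f10a
  have f11 := F11 f7
  have f12 := F12 f0 f6 f7 f10a
  have f13 := F13 f0 f1 f7 f8 f10a
  have f14 := F14 f1 f7 f8 f13
  have g0 := G0
  have g1a := G1a f0 f4 f5 f6 f7
  have g1b := G1b f0 f5 f6 f7 f10b f11 f12
  have g2b := G2b
  have g2a := G2a e1 f1
  have g2 := G2 e6b f0 f6 f7 f10b f11 g0 g2a g2b
  have g3a := G3a f0 f6 f7 f9 f10a
  have g3b := G3b f0 f6 f9 g0 g2a g2b e6b g3a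
  have g4a := G4a
  have g4b := G4b e1 g4a
  have g4c := thm_G4c e1 f7 f10a g4a g4b
  have g4d := G4d f7 f11 g4a
  have g5 := G5 g0 g2 g3b g4a g4c g4d z10
  have g6 := G6 f14 g1a g1b g5 g0
  have g7 := G7 TR1 kap z9 g0 g1a g1b g2 g3b g6
  exact FIN egeo d4 g7

end Pool.Agent.CPD
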