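import Pool.Agent.CPD.Words

/-!
# Automatic groups
-/

set_option autoImplicit false

namespace Pool.Agent.CPD

/-- `G` is automatic: for some finite generating set there is a regular language of words which
represents all elements of `G`, such that any two words of the language whose values are equal or
adjacent stay uniformly close at all times (the characterization of automatic groups by the
fellow traveller property). -/
def Automatic (G : Type) [Group G] : Prop :=
  ∃ (n : ℕ) (f : Fin n → G) (L : Language (Fin n × Bool)) (k : ℕ),
    Function.Surjective (FreeGroup.lift f) ∧ L.IsRegular ∧ (∀ g, ∃ w ∈ L, value f w = g) ∧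
    ∀ w ∈ L, ∀ w' ∈ L, wlen f ((value f w)⁻¹ * value f w') ≤ 1 →
      ∀ t, wlen f ((value f (w.take t))⁻¹ * value f (w'.take t)) ≤ k

end Pool.Agent.CPD
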