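import Pool.Agent.CPD.Defs

/-!
# Combable PD₃-groups : chains, equivariant matrices, lifts, the integral package `Geo`
-/

set_option autoImplicit false

namespace Pool.Agent.CPD

open Matrix

/-! ## The involution of the group ring -/

section Star

variable {G : Type} [Group G]

/-- The involution `g ↦ g⁻¹` of the integral group ring. -/
noncomputable def gs (a : ZG G) : ZG G :=
  MonoidAlgebra.ofCoeff (a.coeff.equivMapDomain (Equiv.inv G))

theorem gs_coeff (a : ZG G) (g : G) : (gs a).coeff g = a.coeff g⁻¹ := rfl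

theorem gs_single (g : G) (n : ℤ) :
    gs (MonoidAlgebra.single g n : ZG G) = MonoidAlgebra.single g⁻¹ n := by
  apply MonoidAlgebra.ext
  ext h
  classical
  rw [gs_coeff, MonoidAlgebra.coeff_single, MonoidAlgebra.coeff_single, Finsupp.single_apply,
    Finsupp.single_apply]
  by_cases h1 : g = h⁻¹
  · rw [if_pos h1, if_pos (by rw [h1, inv_inv])]
  · rw [if_neg h1, if_neg (fun h2 => h1 (by rw [← h2, inv_inv]))]

theorem gs_add (a b : ZG G) : gs (a + b) = gs a + gs b := by
  apply MonoidAlgebra.ext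
  ext h
  rw [gs_coeff, MonoidAlgebra.coeff_add, MonoidAlgebra.coeff_add]
  rfl

theorem gs_zero : gs (0 : ZG G) = 0 := by
  apply MonoidAlgebra.ext
  ext h
  rfl

theorem gs_mul (a b : ZG G) : gs (a * b) = gs b * gs a := by
  induction a using MonoidAlgebra.induction_linear with
  | zero => rw [zero_mul, gs_zero, mul_zero]
  | add x y hx hy => rw [add_mul, gs_add, hx, hy, gs_add, mul_add]
  | single g n =>
    induction b using MonoidAlgebra.induction_linear with
    | zero => rw [mul_zero, gs_zero, zero_mul]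
    | add x y hx hy => rw [mul_add, gs_add, hx, hy, gs_add, add_mul]
    | single h k =>
      rw [MonoidAlgebra.single_mul_single, gs_single, gs_single, gs_single,
        MonoidAlgebra.single_mul_single, _root_.mul_inv_rev, mul_comm n k]

theorem gs_gs (a : ZG G) : gs (gs a) = a := by
  apply MonoidAlgebra.ext
  ext h
  rw [gs_coeff, gs_coeff, inv_inv]

/-- `ℤ[G]` with the involution `g ↦ g⁻¹` is a star ring. -/
noncomputable instance instStarRingZG : StarRing (MonoidAlgebra ℤ G) where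
  star := gs
  star_involutive := gs_gs
  star_mul := gs_mul
  star_add := gs_add

theorem star_coeff (a : ZG G) (g : G) : (star a).coeff g = a.coeff g⁻¹ := rfl

/-- The augmentation of the group ring. -/
noncomputable def au : ZG G →ₐ[ℤ] ℤ := MonoidAlgebra.lift ℤ ℤ G 1

end Star

/-! ## Length functions -/

/-- A proper length function for which `G` is a length space on the integral scale. -/
structure Len (G : Type) [Group G] where
  l : G → ℕ
  one : l 1 = 0
  eq_one : ∀ x, l x = 0 → x = 1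
  inv : ∀ x, l x⁻¹ = l x
  mul : ∀ x y, l (x * y) ≤ l x + l y
  fin : ∀ n, {x | l x ≤ n}.Finite
  path : ∀ x n, l x = n + 1 → ∃ s, l s = 1 ∧ l (x * s) = n

variable {G : Type} [Group G]

/-- The ball of radius `n` about `1`. -/
noncomputable def Len.ball (L : Len G) (n : ℕ) : Finset G := (L.fin n).toFinset

theorem Len.mem_ball (L : Len G) (n : ℕ) (x : G) : x ∈ L.ball n ↔ L.l x ≤ n := by
  unfold Len.ball
  rw [Set.Finite.mem_toFinset]
  rfl

/-! ## Chains and operators -/

section Chains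

variable {I : Type}

/-- The image of the cell `x` under the equivariant operator with matrix `A`:
`(g, i) ↦ ∑ A i j (h) • (g h, j)`. -/
noncomputable def row [Fintype I] (A : Matrix I I (ZG G)) (x : G × I) : (G × I) →₀ ℤ :=
  ∑ j, (A x.2 j).coeff.mapDomain (fun h => (x.1 * h, j))

theorem row_apply [Fintype I] (A : Matrix I I (ZG G)) (x y : G × I) :
    row A x y = (A x.2 y.2).coeff (x.1⁻¹ * y.1) := by
  classical
  unfold row
  rw [Finsupp.finsetSum_apply, Finset.sum_eq_single y.2]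
  · have h1 : y = (x.1 * (x.1⁻¹ * y.1), y.2) := by rw [mul_inv_cancel_left]
    have h2 : Function.Injective (fun h : G => (x.1 * h, y.2)) := by
      intro a b hab
      exact mul_left_cancel (congrArg Prod.fst hab)
    conv_lhs => rw [h1]
    exact Finsupp.mapDomain_apply h2 _ _
  · intro j _ hj
    apply Finsupp.mapDomain_of_notMem_range
    rintro ⟨h, hh⟩
    exact hj (congrArg Prod.snd hh)
  · intro h
    exact absurd (Finset.mem_univ _) h

/-- The equivariant operator with matrix `A` on integral chains. -/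
noncomputable def opZ [Fintype I] (A : Matrix I I (ZG G)) : ((G × I) →₀ ℤ) →ₗ[ℤ] ((G × I) →₀ ℤ) :=
  Finsupp.linearCombination ℤ (row A)

/-- Linear extension of a map defined on cells. -/
noncomputable def ext (f : (G × I) → ((G × I) →₀ ℤ)) : ((G × I) →₀ ℤ) →ₗ[ℤ] ((G × I) →₀ ℤ) :=
  Finsupp.linearCombination ℤ f

variable {Λ : Type} [Ring Λ] [StarRing Λ]

/-- The lift of the integral chain `c` based at `b`: the coefficient of `y` is
`c(y) T(b, b⁻¹ y)`. -/
noncomputable def bl (T : G → G → unitary Λ) (b : G) (c : (G × I) →₀ ℤ) : (G × I) →₀ Λ :=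
  Finsupp.onFinset c.support (fun y => (c y : Λ) * (T b (b⁻¹ * y.1) : Λ)) (by
    intro y hy
    rw [Finsupp.mem_support_iff]
    intro h
    exact hy (by rw [h, Int.cast_zero, zero_mul]))

theorem bl_apply (T : G → G → unitary Λ) (b : G) (c : (G × I) →₀ ℤ) (y : G × I) :
    bl T b c y = (c y : Λ) * (T b (b⁻¹ * y.1) : Λ) := rfl

theorem bl_zero (T : G → G → unitary Λ) (b : G) : bl T b (0 : (G × I) →₀ ℤ) = 0 := by
  ext y
  rw [bl_apply, Finsupp.zero_apply, Finsupp.zero_apply, Int.cast_zero, zero_mul]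

theorem bl_add (T : G → G → unitary Λ) (b : G) (c c' : (G × I) →₀ ℤ) :
    bl T b (c + c') = bl T b c + bl T b c' := by
  ext y
  rw [Finsupp.add_apply, bl_apply, bl_apply, bl_apply, Finsupp.add_apply, Int.cast_add, add_mul]

/-- The lift to `Λ`-chains of an operator on integral chains which is given on cells: the image
of `x` is lifted based at `x`. -/
noncomputable def lo (T : G → G → unitary Λ) (a : (G × I) → ((G × I) →₀ ℤ)) :
    ((G × I) →₀ Λ) →ₗ[Λ] ((G × I) →₀ Λ) :=
  Finsupp.linearCombination Λ (fun x => bl T x.1 (a x))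

theorem lo_single (T : G → G → unitary Λ) (a : (G × I) → ((G × I) →₀ ℤ)) (x : G × I) (l : Λ) :
    lo T a (Finsupp.single x l) = l • bl T x.1 (a x) :=
  Finsupp.linearCombination_single _ _ _

/-- `T` is multiplicative at `v` up to the radius `R`. -/
def GoodAt (L : Len G) (T : G → G → unitary Λ) (R : ℕ) (v : G) : Prop :=
  ∀ h h', L.l h ≤ R → L.l h' ≤ R → T v h * T (v * h) h' = T v (h * h')

/-- Asymptotic local systems. -/
def IsALS {π : Type} [Group π] (T : G → G → π) : Prop :=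
  ∀ h h', ∀ᶠ v in Filter.cofinite, T v h * T (v * h) h' = T v (h * h')

/-- The product of `T` over `n` steps of the path `p`, from time `a`. -/
def tr {π : Type} [Group π] (T : G → G → π) (p : ℕ → G) : ℕ → ℕ → π
  | _, 0 => 1
  | a, n + 1 => T (p a) ((p a)⁻¹ * p (a + 1)) * tr T p (a + 1) n

end Chains

/-! ## Resolutions in matrix form -/

/-- A finite projective resolution of the trivial module, in matrix form: the projective modules
are the images of the idempotent matrix `E`, acting on row vectors. -/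
structure Res {I : Type} [Fintype I] (deg : I → ℕ) (D E : Matrix I I (ZG G)) (e : I → ℤ) :
    Prop where
  D_deg : ∀ i j, D i j ≠ 0 → deg i = deg j + 1
  E_deg : ∀ i j, E i j ≠ 0 → deg i = deg j
  DD : D * D = 0
  EE : E * E = E
  ED : E * D = D
  DE : D * E = D
  e_deg : ∀ i, e i ≠ 0 → deg i = 0
  De : ∀ i, ∑ j, au (D i j) * e j = 0
  Ee : ∀ i, ∑ j, au (E i j) * e j = e i
  surj : ∃ v : I → ZG G, v ᵥ* E = v ∧ ∑ i, au (v i) * e i = 1
  exact : ∀ v : I → ZG G, v ᵥ* E = v → v ᵥ* D = 0 → ∑ i, au (v i) * e i = 0 →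
    ∃ u : I → ZG G, u ᵥ* E = u ∧ u ᵥ* D = v

/-- Poincaré duality data: a resolution of length three whose dual is a resolution, and chain
maps `Ps`, `Ph` between them with `Ps Ph` homotopic to the identity. -/
structure PDM (G : Type) [Group G] where
  I : Type
  [fI : Fintype I]
  [dI : DecidableEq I]
  deg : I → ℕ
  deg_le : ∀ i, deg i ≤ 3
  D : Matrix I I (ZG G)
  E : Matrix I I (ZG G)
  e : I → ℤ
  w : I → ℤ
  resP : Res deg D E e
  resQ : Res (fun i => 3 - deg i) Dᴴ Eᴴ w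
  Ps : Matrix I I (ZG G)
  Ph : Matrix I I (ZG G)
  h : Matrix I I (ZG G)
  Ps_deg : ∀ i j, Ps i j ≠ 0 → deg i + deg j = 3
  Ph_deg : ∀ i j, Ph i j ≠ 0 → deg i + deg j = 3
  h_deg : ∀ i j, h i j ≠ 0 → deg j = deg i + 1
  EPs : E * Ps = Ps
  PsE : Ps * Eᴴ = Ps
  DPs : D * Ps = Ps * Dᴴ
  EPh : Eᴴ * Ph = Ph
  PhE : Ph * E = Ph
  DPh : Dᴴ * Ph = Ph * D
  Eh : E * h = h
  hE : h * E = h
  homot : Ps * Ph - E = h * D + D * h

attribute [instance] PDM.fI PDM.dI

/-- The integral package: duality data, length function, combing, and the integral flow along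
the combing. -/
structure Geo (G : Type) [Group G] extends PDM G where
  L : Len G
  c : ℕ
  t0 : ℕ
  prop_D : ∀ i j g, (D i j).coeff g ≠ 0 → L.l g ≤ c
  prop_E : ∀ i j g, (E i j).coeff g ≠ 0 → L.l g ≤ c
  prop_Ps : ∀ i j g, (Ps i j).coeff g ≠ 0 → L.l g ≤ c
  prop_Ph : ∀ i j g, (Ph i j).coeff g ≠ 0 → L.l g ≤ c
  prop_h : ∀ i j g, (h i j).coeff g ≠ 0 → L.l g ≤ c
  σ : G → ℕ → G
  τ : G → ℕ
  start : ∀ x, σ x 0 = 1
  stop : ∀ x j, τ x ≤ j → σ x j = x
  step : ∀ x j, L.l ((σ x j)⁻¹ * σ x (j + 1)) ≤ 1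
  fellow : ∀ x y j, L.l (x⁻¹ * y) ≤ 1 → L.l ((σ x j)⁻¹ * σ y j) ≤ c
  esc : ∀ R : ℕ, ∃ m : ℕ, ∀ x j, m ≤ j → j < τ x → R < L.l (σ x j)
  dep : ∀ x j, j ≤ τ x → L.l ((σ x j)⁻¹ * x) ≤ 10 * (c + 1) → τ x - j ≤ t0
  rr : ℕ → (G × I) → ((G × I) →₀ ℤ)
  hh : ℕ → (G × I) → ((G × I) →₀ ℤ)
  f_id : ∀ j x, rr (j + 1) x - rr j x = opZ D (hh j x) + ext (hh j) (row D x)
  f_Er : ∀ j x, opZ E (rr j x) = rr j x
  f_rE : ∀ j x, ext (rr j) (row E x) = rr j x
  f_Eh : ∀ j x, opZ E (hh j x) = hh j x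
  f_hE : ∀ j x, ext (hh j) (row E x) = hh j x
  f_rsup : ∀ j x y, rr j x y ≠ 0 → L.l ((σ x.1 j)⁻¹ * y.1) ≤ c
  f_hsup : ∀ j x y, hh j x y ≠ 0 → L.l ((σ x.1 j)⁻¹ * y.1) ≤ c
  f_rdeg : ∀ j x y, rr j x y ≠ 0 → deg y.2 = deg x.2
  f_hdeg : ∀ j x y, hh j x y ≠ 0 → deg y.2 = deg x.2 + 1
  f_rfin : ∀ j x, (∀ y, L.l (x.1⁻¹ * y) ≤ c → τ y ≤ j) → rr j x = row E x
  f_hfin : ∀ j x, (∀ y, L.l (x.1⁻¹ * y) ≤ c → τ y ≤ j) → hh j x = 0

end Pool.Agent.CPD
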