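import Pool.Agent.CPD.Words

/-!
# Combable Poincaré duality groups of dimension three : resolutions and `PD₃`-groups, as used in
the proof
-/

set_option autoImplicit false

namespace Pool.Agent.CPD

/-! ## Orientable `PD₃`-groups -/

/-- A finite projective resolution of the trivial module `ℤ` over `ℤ[G]`. -/
structure FPRes (G : Type) [Group G] where
  P : ℕ → Type
  [ab : ∀ i, AddCommGroup (P i)]
  [mod : ∀ i, Module (ZG G) (P i)]
  fin : ∀ i, Module.Finite (ZG G) (P i)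
  proj : ∀ i, Module.Projective (ZG G) (P i)
  len : ∃ n : ℕ, ∀ i, n < i → Subsingleton (P i)
  d : ∀ i, P (i + 1) →ₗ[ZG G] P i
  aug : P 0 →+ ℤ
  aug_smul : ∀ (g : G) (x : P 0), aug (MonoidAlgebra.single g (1 : ℤ) • x) = aug x
  aug_surj : Function.Surjective aug
  exact_zero : ∀ x : P 0, aug x = 0 ↔ ∃ y, d 0 y = x
  exact_succ : ∀ (i : ℕ) (x : P (i + 1)), d i x = 0 ↔ ∃ y, d (i + 1) y = x

attribute [instance] FPRes.ab FPRes.mod

/-- Right multiplication by `g` on homomorphisms into `ℤ[G]`. -/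
noncomputable def rmul {G M : Type} [Group G] [AddCommGroup M] [Module (ZG G) M] (g : G)
    (φ : M →ₗ[ZG G] ZG G) : M →ₗ[ZG G] ZG G where
  toFun x := φ x * MonoidAlgebra.single g (1 : ℤ)
  map_add' x y := by rw [map_add, add_mul]
  map_smul' a x := by rw [map_smul, smul_eq_mul, smul_eq_mul, mul_assoc, RingHom.id_apply]

/-- The `i`-cocycles of `Hom(P, ℤ[G])`. -/
def FPRes.cocycles {G : Type} [Group G] (F : FPRes G) (i : ℕ) :
    AddSubgroup (F.P i →ₗ[ZG G] ZG G) where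
  carrier := {φ | φ ∘ₗ F.d i = 0}
  add_mem' {a b} ha hb := by
    change (a + b) ∘ₗ F.d i = 0
    rw [LinearMap.add_comp, show a ∘ₗ F.d i = 0 from ha, show b ∘ₗ F.d i = 0 from hb, add_zero]
  zero_mem' := LinearMap.zero_comp _
  neg_mem' {a} ha := by
    change (-a) ∘ₗ F.d i = 0
    rw [LinearMap.neg_comp, show a ∘ₗ F.d i = 0 from ha, neg_zero]

/-- `G` is an orientable `PD₃`-group: it is of type `FP`, `Hⁱ(G; ℤ[G]) = 0` for `i ≠ 3`, and
`H³(G; ℤ[G])` is infinite cyclic with trivial action of `G`. -/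
def IsOrientablePD3 (G : Type) [Group G] : Prop :=
  ∃ F : FPRes G,
    (∀ φ ∈ F.cocycles 0, φ = 0) ∧
    (∀ i, i + 1 ≠ 3 → ∀ φ ∈ F.cocycles (i + 1), ∃ ψ : F.P i →ₗ[ZG G] ZG G, φ = ψ ∘ₗ F.d i) ∧
    ∃ w : F.cocycles 3 →+ ℤ, Function.Surjective w ∧
      (∀ φ, w φ = 0 ↔ ∃ ψ : F.P 2 →ₗ[ZG G] ZG G, (φ : F.P 3 →ₗ[ZG G] ZG G) = ψ ∘ₗ F.d 2) ∧
      ∀ (g : G) (φ φ' : F.cocycles 3), (φ' : F.P 3 →ₗ[ZG G] ZG G) = rmul g φ → w φ' = w φ

end Pool.Agent.CPD
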