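import Pool.Agent.CPD.StE

/-!
# Word length is a length function
-/

set_option autoImplicit false

namespace Pool.Agent.CPD

section E0aux

variable {α G : Type} [Group G] (f : α → G)

private theorem E0_nil : value f [] = 1 := rfl

private theorem E0_cons (a : α × Bool) (w : List (α × Bool)) :
    value f (a :: w) = letter f a * value f w := by
  simp [value]

private theorem E0_append (u v : List (α × Bool)) :
    value f (u ++ v) = value f u * value f v := by
  simp [value]

private theorem E0_letter (a : α × Bool) : letter f (a.1, !a.2) = (letter f a)⁻¹ := by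
  obtain ⟨x, b⟩ := a
  cases b <;> simp [letter]

private theorem E0_le {x : G} (w : List (α × Bool)) (h : value f w = x) :
    wlen f x ≤ w.length := Nat.sInf_le ⟨w, rfl, h⟩

private theorem E0_inv (w : List (α × Bool)) :
    ∃ w' : List (α × Bool), w'.length = w.length ∧ value f w' = (value f w)⁻¹ := by
  induction w with
  | nil => exact ⟨[], rfl, by simp [value]⟩
  | cons a w ih =>
    obtain ⟨w', h1, h2⟩ := ih
    refine ⟨w' ++ [(a.1, !a.2)], by simp [h1], ?_⟩
    rw [E0_append, h2, E0_cons, E0_nil, mul_one, E0_letter, E0_cons, mul_inv_rev]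

end E0aux

theorem E0 : St_E0 := by
  intro G _ n f hf
  have hword : ∀ x : G, ∃ w : List (Fin n × Bool), value f w = x := by
    intro x
    obtain ⟨u, hu⟩ := hf x
    refine ⟨u.toWord, ?_⟩
    have h1 : FreeGroup.lift f (FreeGroup.mk u.toWord) = x := by
      rw [FreeGroup.mk_toWord]
      exact hu
    rw [FreeGroup.lift_mk] at h1
    rw [← h1]
    unfold value
    congr 1
    refine List.map_congr_left fun a _ => ?_
    obtain ⟨y, b⟩ := a
    cases b <;> simp [letter]
  have hmin : ∀ x : G, ∃ w : List (Fin n × Bool), w.length = wlen f x ∧ value f w = x := by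
    intro x
    obtain ⟨w, hw⟩ := hword x
    exact Nat.sInf_mem (s := {m | ∃ w : List (Fin n × Bool), w.length = m ∧ value f w = x})
      ⟨w.length, w, rfl, hw⟩
  have hone : wlen f (1 : G) = 0 := Nat.le_zero.1 (E0_le f [] (E0_nil f))
  have hinvle : ∀ x : G, wlen f x⁻¹ ≤ wlen f x := by
    intro x
    obtain ⟨w, h1, h2⟩ := hmin x
    obtain ⟨w', h3, h4⟩ := E0_inv f w
    rw [← h1, ← h3]
    exact E0_le f w' (by rw [h4, h2])
  have hinv : ∀ x : G, wlen f x⁻¹ = wlen f x := by
    intro x
    refine le_antisymm (hinvle x) ?_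
    have := hinvle x⁻¹
    rwa [inv_inv] at this
  have hmul : ∀ x y : G, wlen f (x * y) ≤ wlen f x + wlen f y := by
    intro x y
    obtain ⟨u, h1, h2⟩ := hmin x
    obtain ⟨v, h3, h4⟩ := hmin y
    rw [← h1, ← h3, ← List.length_append]
    exact E0_le f (u ++ v) (by rw [E0_append, h2, h4])
  refine ⟨{ l := wlen f, one := hone, eq_one := ?_, inv := hinv, mul := hmul, fin := ?_,
            path := ?_ }, fun x => rfl⟩
  · intro x hx
    obtain ⟨w, h1, h2⟩ := hmin x
    rw [hx] at h1
    rw [List.length_eq_zero_iff.1 h1] at h2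
    exact h2.symm
  · intro m
    refine ((List.finite_length_le (Fin n × Bool) m).image (value f)).subset ?_
    intro x hx
    obtain ⟨w, h1, h2⟩ := hmin x
    exact ⟨w, by rw [Set.mem_ofPred_eq, h1]; exact hx, h2⟩
  · intro x m hx
    obtain ⟨w, h1, h2⟩ := hmin x
    rw [hx] at h1
    rcases List.eq_nil_or_concat w with rfl | ⟨w', a, rfl⟩
    · simp at h1
    · rw [List.concat_eq_append] at h1 h2
      have hlen : w'.length = m := by
        simp at h1
        exact h1
      rw [E0_append, E0_cons, E0_nil, mul_one] at h2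
      set s : G := (letter f a)⁻¹ with hs
      have hxs : x * s = value f w' := by
        rw [← h2, hs, mul_assoc, mul_inv_cancel, mul_one]
      have hle : wlen f (x * s) ≤ m := by
        rw [← hlen]
        exact E0_le f w' hxs.symm
      have hs1 : wlen f s ≤ 1 := by
        refine E0_le f [(a.1, !a.2)] ?_
        rw [E0_cons, E0_nil, mul_one, E0_letter]
      have hx' : wlen f x ≤ wlen f (x * s) + wlen f s := by
        have h3 := hmul (x * s) s⁻¹
        rw [mul_assoc, mul_inv_cancel, mul_one, hinv] at h3
        exact h3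
      refine ⟨s, ?_, ?_⟩ <;> omega

end Pool.Agent.CPD
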