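import Pool.Agent.CPD.StF

/-!
# F10b: the outward flow
-/

set_option autoImplicit false

namespace Pool.Agent.CPD

open Matrix

private lemma F10b_mem {X Λ : Type} [Ring Λ] (S : Submodule Λ (X →₀ Λ)) (v : X →₀ Λ)
    (h : ∀ x, v x ≠ 0 → Finsupp.single x 1 ∈ S) : v ∈ S := by
  rw [← Finsupp.sum_single v]
  refine S.sum_mem fun x hx => ?_
  have h1 : Finsupp.single x (v x) = v x • (Finsupp.single x 1 : X →₀ Λ) := by
    rw [Finsupp.smul_single, smul_eq_mul, mul_one]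
  rw [h1]
  exact S.smul_mem _ (h x (Finsupp.mem_support_iff.1 hx))

private lemma F10b_supp {X Λ : Type} [Ring Λ] (F : (X →₀ Λ) →ₗ[Λ] (X →₀ Λ)) (v : X →₀ Λ) (y : X)
    (h : F v y ≠ 0) : ∃ x, v x ≠ 0 ∧ F (Finsupp.single x 1) y ≠ 0 := by
  by_contra hcon
  push Not at hcon
  apply h
  let K : Submodule Λ (X →₀ Λ) := LinearMap.ker ((Finsupp.lapply y) ∘ₗ F)
  have h1 : v ∈ K := by
    apply F10b_mem
    intro x hx
    rw [LinearMap.mem_ker]
    exact hcon x hx
  exact h1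

private lemma F10b_len {G : Type} [Group G] (L : Len G) (g x : G) :
    L.l g ≤ L.l x + L.l (g⁻¹ * x) := by
  have h1 : g = x * (g⁻¹ * x)⁻¹ := by group
  have h2 := L.mul x (g⁻¹ * x)⁻¹
  rw [← h1, L.inv] at h2
  exact h2

section

variable {G : Type} [Group G] (M : Geo G) {Λ : Type} [Ring Λ] [StarRing Λ]
  (T : G → G → unitary Λ) (m : ℕ)

omit [StarRing Λ] in
private lemma F10b_trunc (Q : ℕ) (f : G × M.I → Λ) (x : G × M.I) (h : M.L.l x.1 ≤ Q) :
    trunc M Q f x = f x := by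
  unfold trunc
  rw [Finsupp.onFinset_apply]
  exact if_pos h

omit [StarRing Λ] in
private lemma F10b_trunc' (Q : ℕ) (f : G × M.I → Λ) (x : G × M.I) (h : ¬ M.L.l x.1 ≤ Q) :
    trunc M Q f x = 0 := by
  unfold trunc
  rw [Finsupp.onFinset_apply]
  exact if_neg h

private lemma F10b_tH_add (a b : Ch M Λ) (z : G × M.I) :
    tH M T m (a + b) z = tH M T m a z + tH M T m b z := by
  unfold tH
  exact Finsupp.sum_add_index' (fun _ => zero_mul _) (fun _ _ _ => add_mul _ _ _)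

private lemma F10b_tH_smul (l : Λ) (a : Ch M Λ) (z : G × M.I) :
    tH M T m (l • a) z = l * tH M T m a z := by
  unfold tH
  rw [Finsupp.sum_smul_index (fun _ => zero_mul _), Finsupp.mul_sum]
  refine Finsupp.sum_congr fun y _ => ?_
  rw [mul_assoc]

/-- `a ↦ trunc Q (tH a)` -/
private noncomputable def F10b_t (Q : ℕ) : Ch M Λ →ₗ[Λ] Ch M Λ where
  toFun a := trunc M Q (tH M T m a)
  map_add' a b := by
    ext z
    rw [Finsupp.add_apply]
    by_cases h : M.L.l z.1 ≤ Q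
    · rw [F10b_trunc M Q _ z h, F10b_trunc M Q _ z h, F10b_trunc M Q _ z h, F10b_tH_add]
    · rw [F10b_trunc' M Q _ z h, F10b_trunc' M Q _ z h, F10b_trunc' M Q _ z h, add_zero]
  map_smul' l a := by
    ext z
    rw [RingHom.id_apply, Finsupp.smul_apply, smul_eq_mul]
    by_cases h : M.L.l z.1 ≤ Q
    · rw [F10b_trunc M Q _ z h, F10b_trunc M Q _ z h, F10b_tH_smul]
    · rw [F10b_trunc' M Q _ z h, F10b_trunc' M Q _ z h, mul_zero]

private lemma F10b_Ho (Q : ℕ) (a : Ch M Λ) : Ho M T m Q a =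
    op M T M.Ph (trunc M Q (tH M T m (op M T M.Ps a))) - op M T M.h a := by
  have h1 : Ho M T m Q =
      op M T M.Ph ∘ₗ F10b_t M T m Q ∘ₗ op M T M.Ps - op M T M.h := by
    apply Finsupp.lhom_ext'
    intro x
    apply LinearMap.ext_ring
    rw [LinearMap.comp_apply, LinearMap.comp_apply, LinearMap.sub_apply, LinearMap.comp_apply,
      LinearMap.comp_apply]
    show Ho M T m Q (Finsupp.single x 1) = op M T M.Ph (trunc M Q (tH M T m
      (op M T M.Ps (Finsupp.single x 1)))) - op M T M.h (Finsupp.single x 1)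
    unfold Ho
    rw [Finsupp.linearCombination_single, one_smul]
    have h2 : ∀ A : Matrix M.I M.I (ZG G),
        op M T A (Finsupp.single x 1) = bl T x.1 (row A x) := by
      intro A
      unfold op
      rw [lo_single, one_smul]
    rw [h2, h2]
  rw [h1]
  rfl

end

theorem F10b (h0 : St_F0) (h6 : St_F6) (h7 : St_F7) (ha : St_F10a) : St_F10b := by
  intro G _ M Λ _ _ T V g0 m hAdm
  obtain ⟨N2, hN2⟩ := ha G M Λ T V g0 m hAdm
  obtain ⟨h7a, _⟩ := h7 G M Λ T m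
  obtain ⟨⟨hFD, hFE, hFPs, hFPh, hFh, hFDH, hFEH⟩, _⟩ := h0 G M Λ T
  obtain ⟨h61, h62, _⟩ := h6 G M Λ T V hAdm.good
  have hcu : M.c + 1 = M.u := rfl
  have hsup : ∀ (A : Matrix M.I M.I (ZG G)), Five M A → ∀ (b : Ch M Λ) (z : G × M.I),
      op M T A b z ≠ 0 → ∃ y, b y ≠ 0 ∧ M.L.l (y.1⁻¹ * z.1) ≤ M.c := by
    intro A hA b z hz
    obtain ⟨y, hy1, hy2⟩ := F10b_supp _ _ _ hz
    exact ⟨y, hy1, hA _ _ _ (h7a A y z hy2)⟩
  refine ⟨N2 + 5 * M.u + g0, fun Q x y hx hQ hy => ?_⟩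
  set s : Ch M Λ := Finsupp.single x 1 with hs
  have hsV : ∀ z, s z ≠ 0 → z.1 ∈ V := by
    intro z hz
    classical
    have h1 : z = x := by
      by_contra hne
      apply hz
      rw [hs, Finsupp.single_apply, if_neg (fun h => hne h.symm)]
    rw [h1]
    exact hAdm.far x.1 (by omega)
  have hs1 : ∀ z, s z ≠ 0 → z = x := by
    intro z hz
    classical
    by_contra hne
    apply hz
    rw [hs, Finsupp.single_apply, if_neg (fun h => hne h.symm)]
  set b : Ch M Λ := op M T M.Ps s with hb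
  have hbN : ∀ z, b z ≠ 0 → N2 < M.L.l z.1 := by
    intro z hz
    obtain ⟨w, hw1, hw2⟩ := hsup _ hFPs s z hz
    rw [hs1 w hw1] at hw2
    have h3 := F10b_len M.L x.1 z.1
    omega
  obtain ⟨hb1, hb2⟩ := hN2 b hbN
  set ξ : Ch M Λ := trunc M Q (tH M T m b) with hξ
  have hξV : ∀ z, ξ z ≠ 0 → z.1 ∈ V := by
    intro z hz
    apply hAdm.far
    by_contra hle
    apply hz
    by_cases h : M.L.l z.1 ≤ Q
    · rw [hξ, F10b_trunc M Q _ z h]
      exact hb1 z (by omega)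
    · rw [hξ, F10b_trunc' M Q _ z h]
  have e1 : op M T M.Ps (op M T M.D s) = op M T M.Dᴴ b := by
    rw [hb, h61 _ _ s hFD hFPs hsV, h61 _ _ s hFPs hFDH hsV, M.DPs]
  have e2 : op M T M.D (op M T M.Ph ξ) = op M T M.Ph (op M T M.Dᴴ ξ) := by
    rw [h61 _ _ ξ hFPh hFD hξV, h61 _ _ ξ hFDH hFPh hξV, M.DPh]
  have e3 : op M T M.Eᴴ b = b := by
    rw [hb, h61 _ _ s hFPs hFEH hsV, M.PsE]
  have e4 : op M T M.h (op M T M.D s) + op M T M.D (op M T M.h s) =
      op M T M.Ph b - op M T M.E s := by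
    rw [hb, h61 _ _ s hFD hFh hsV, h61 _ _ s hFh hFD hsV, h61 _ _ s hFPs hFPh hsV,
      ← (h62 _ _ s).2, ← (h62 _ _ s).1, M.homot, add_comm]
  set br : Ch M Λ := trunc M Q (tH M T m (op M T M.Dᴴ b)) + op M T M.Dᴴ ξ with hbr
  have e5 : op M T M.E s - op M T M.D (Ho M T m Q s) - Ho M T m Q (op M T M.D s) =
      op M T M.Ph (b - br) := by
    rw [F10b_Ho, F10b_Ho, e1, map_sub, e2, map_sub (op M T M.Ph) b br, hbr, map_add]
    have e6 : op M T M.Ph b = op M T M.h (op M T M.D s) + op M T M.D (op M T M.h s) +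
        op M T M.E s := by rw [e4, sub_add_cancel]
    rw [e6]
    abel
  rw [e5] at hy
  obtain ⟨z, hz1, hz2⟩ := hsup _ hFPh (b - br) y hy
  have h3 : Q < M.L.l z.1 + M.c := by
    by_contra hle
    apply hz1
    rw [Finsupp.sub_apply, hbr, Finsupp.add_apply, F10b_trunc M Q _ z (by omega),
      ← hb2 Q z (by omega), e3, sub_self]
  have h4 := F10b_len M.L z.1 y.1
  omega

end Pool.Agent.CPD
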