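import Pool.Agent.CPD.StG

/-!
# The Euler number of the geometric zone
-/

set_option autoImplicit false

namespace Pool.Agent.CPD

open Matrix

theorem int_hom {Λ : Type} [Ring Λ] (t : Λ →+ ℤ) (h : t 1 = 1) (z : ℤ) : t (z : Λ) = z := by
  have h1 : (z : Λ) = z • (1 : Λ) := by rw [zsmul_eq_mul, mul_one]
  rw [h1, map_zsmul, h, smul_eq_mul, mul_one]

theorem G6 (h14 : St_F14) (g1a : St_G1a) (g1b : St_G1b) (g5 : St_G5) (g0 : St_G0) : St_G6 := by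
  intro G _ _ M Λ _ _ T V gg m lev t ht1 hAdm hlev hAdmQ
  have hlQ : LevOK M Set.univ m (fun _ => 30) := (g0 G M ℚ (triv G ℚ)).2.2.2.2.1 m
  obtain ⟨N1, hN1⟩ := h14 G M Λ T V gg m hAdm
  obtain ⟨N2, hN2⟩ := h14 G M ℚ (triv G ℚ) Set.univ gg m hAdmQ
  have e5 := g5 G M gg m hAdmQ
  have e1 := g1a G M ℚ (triv G ℚ) Set.univ gg m (fun _ => 30) hAdmQ hlQ
  have e2 := g1b G M ℚ (triv G ℚ) Set.univ gg m (fun _ => 30) hAdmQ hlQ
  have e3 : Ev4 fun _ N' _ _ => N1 ≤ N' ∧ N2 ≤ N' :=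
    ⟨0, fun _ _ => ⟨max N1 N2, fun N' hN' => ⟨0, fun _ _ => ⟨0, fun _ _ =>
      ⟨le_trans (le_max_left _ _) hN', le_trans (le_max_right _ _) hN'⟩⟩⟩⟩⟩
  refine (e1.and e5).mono ?_
  rintro n ⟨h1, h5⟩
  refine (((h1.and e2).and h5).and e3).mono ?_
  intro n'
  refine Ev.mono ?_
  intro N'
  refine Ev.mono ?_
  intro N
  refine Ev.mono ?_
  rintro Q ⟨⟨⟨hAQ, hBQ⟩, h5'⟩, hNN, hNN'⟩ hA hB
  have hs := h5' hAQ hBQ
  -- common index set
  let S : Set (G × M.I) := (Bs M n ∪ Zs M N)ᶜ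
  let _ : Fintype S := hA.fin.fintype
  have key : ∀ x : S, ∀ y, M.L.l (x.1.1⁻¹ * y) ≤ 2 * M.u → OkV M V m y := by
    intro x y hy
    have hx : x.1 ∉ Bs M n := fun h => x.2 (Or.inl h)
    have h20 := hA.levW x.1 hx
    have h21 := hlev.lip x.1.1 y (by omega)
    exact hlev.ok y (by have : 20 ≤ lev x.1.1 := h20; omega)
  have key' : ∀ x : S, ∀ y, M.L.l (x.1.1⁻¹ * y) ≤ 2 * M.u → OkV M Set.univ m y := by
    intro x y _
    exact hlQ.ok y (by norm_num)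
  let kz : S → ℤ := fun x => ka M (triv G ℤ) m n' N' Q (Finsupp.single x.1 1) x.1
  have hL : str t (mkZone hA hB).degW ((mkZone hA hB).mat (mkZone hA hB).κ) =
      ∑ x : S, ((-1 : ℤ) ^ M.deg x.1.2) • kz x := by
    show ∑ x : S, ((-1 : ℤ) ^ M.deg x.1.2) •
      t (ka M T m n' N' Q (Finsupp.single x.1 1) x.1) = _
    refine Finset.sum_congr rfl fun x _ => ?_
    rw [hN1 n' N' Q x.1 hNN (key x), int_hom t ht1]
  have hQ : str (AddMonoidHom.id ℚ) (mkZone hAQ hBQ).degW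
      ((mkZone hAQ hBQ).mat (mkZone hAQ hBQ).κ) =
      ∑ x : S, ((-1 : ℤ) ^ M.deg x.1.2) • ((kz x : ℤ) : ℚ) := by
    show ∑ x : S, ((-1 : ℤ) ^ M.deg x.1.2) •
      (ka M (triv G ℚ) m n' N' Q (Finsupp.single x.1 1) x.1) = _
    refine Finset.sum_congr rfl fun x _ => ?_
    rw [hN2 n' N' Q x.1 hNN' (key' x)]
  rw [hL]
  rw [hQ] at hs
  have h9 : ((∑ x : S, ((-1 : ℤ) ^ M.deg x.1.2) • kz x : ℤ) : ℚ) = ((-2 : ℤ) : ℚ) := by
    push_cast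
    rw [← hs]
    refine Finset.sum_congr rfl fun x _ => ?_
    rw [smul_eq_mul, zsmul_eq_mul]
    push_cast
    rfl
  exact_mod_cast h9

end Pool.Agent.CPD
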