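import Pool.Agent.CPD.LiftDefs

/-!
# Combable PD₃-groups : the geometric zone
-/

set_option autoImplicit false

namespace Pool.Agent.CPD

open Matrix

/-- The properties of the zone which do not involve `θ` (see `Zone`). -/
structure ZoneA {Λ X : Type} [Ring Λ] (deg lev : X → ℕ) (B B' Z' Z : Set X)
    (D E H r : (X →₀ Λ) →ₗ[Λ] (X →₀ Λ)) : Prop where
  deg_le : ∀ x, deg x ≤ 3
  BB' : B ⊆ B'
  ZZ' : Z ⊆ Z'
  disj : Disjoint B' Z'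
  fin : ((B ∪ Z)ᶜ).Finite
  levW : ∀ x, x ∉ B → 20 ≤ lev x
  lev_D : ∀ x y, D (Finsupp.single x 1) y ≠ 0 → lev x ≤ lev y + 1
  lev_E : ∀ x y, E (Finsupp.single x 1) y ≠ 0 → lev x ≤ lev y + 1
  lev_H : ∀ x y, H (Finsupp.single x 1) y ≠ 0 → lev x ≤ lev y + 1
  lev_r : ∀ x y, r (Finsupp.single x 1) y ≠ 0 → lev x ≤ lev y + 1
  deg_D : ∀ x y, D (Finsupp.single x 1) y ≠ 0 → deg x = deg y + 1
  deg_E : ∀ x y, E (Finsupp.single x 1) y ≠ 0 → deg x = deg y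
  deg_H : ∀ x y, H (Finsupp.single x 1) y ≠ 0 → deg y = deg x + 1
  deg_r : ∀ x y, r (Finsupp.single x 1) y ≠ 0 → deg x = deg y
  DD : ∀ x, 5 ≤ lev x → D (D (Finsupp.single x 1)) = 0
  EE : ∀ x, 5 ≤ lev x → E (E (Finsupp.single x 1)) = E (Finsupp.single x 1)
  ED : ∀ x, 5 ≤ lev x → E (D (Finsupp.single x 1)) = D (Finsupp.single x 1)
  DE : ∀ x, 5 ≤ lev x → D (E (Finsupp.single x 1)) = D (Finsupp.single x 1)
  HE : ∀ x, 5 ≤ lev x → H (E (Finsupp.single x 1)) = H (Finsupp.single x 1)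
  EH : ∀ x, 5 ≤ lev x → E (H (Finsupp.single x 1)) = H (Finsupp.single x 1)
  flow : ∀ x, 5 ≤ lev x → E (Finsupp.single x 1) - r (Finsupp.single x 1) =
    D (H (Finsupp.single x 1)) + H (D (Finsupp.single x 1))
  D_B : ∀ x ∈ B, ∀ y, D (Finsupp.single x 1) y ≠ 0 → y ∈ B
  D_B' : ∀ x ∈ B', ∀ y, D (Finsupp.single x 1) y ≠ 0 → y ∈ B'
  D_Z : ∀ x ∈ Z, ∀ y, D (Finsupp.single x 1) y ≠ 0 → y ∈ Z
  D_Z' : ∀ x ∈ Z', ∀ y, D (Finsupp.single x 1) y ≠ 0 → y ∈ Z'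
  E_B : ∀ x ∈ B, ∀ y, E (Finsupp.single x 1) y ≠ 0 → y ∈ B'
  E_Z : ∀ x ∈ Z, ∀ y, E (Finsupp.single x 1) y ≠ 0 → y ∈ Z'
  r_B : ∀ x, 5 ≤ lev x → ∀ y, r (Finsupp.single x 1) y ≠ 0 → y ∈ B
  H_B : ∀ x ∈ B, 5 ≤ lev x → ∀ y, H (Finsupp.single x 1) y ≠ 0 → y ∈ B'

/-- The properties of the zone which involve `θ` (see `Zone`). -/
structure ZoneB {Λ X : Type} [Ring Λ] (deg lev : X → ℕ) (B' Z' Z : Set X)
    (D E H θ : (X →₀ Λ) →ₗ[Λ] (X →₀ Λ)) : Prop where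
  lev_θ : ∀ x y, θ (Finsupp.single x 1) y ≠ 0 → lev x ≤ lev y + 1
  deg_θ : ∀ x y, θ (Finsupp.single x 1) y ≠ 0 → deg y = deg x + 1
  θE : ∀ x, 5 ≤ lev x → θ (E (Finsupp.single x 1)) = θ (Finsupp.single x 1)
  Eθ : ∀ x, 5 ≤ lev x → E (θ (Finsupp.single x 1)) = θ (Finsupp.single x 1)
  θ_B' : ∀ x ∈ B', 5 ≤ lev x → θ (Finsupp.single x 1) = H (Finsupp.single x 1)
  θ_Z : ∀ x ∈ Z, ∀ y, θ (Finsupp.single x 1) y ≠ 0 → y ∈ Z'
  κ_Z' : ∀ x ∈ Z', ∀ y, (E (Finsupp.single x 1) - D (θ (Finsupp.single x 1)) -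
    θ (D (Finsupp.single x 1))) y ≠ 0 → y ∈ Z

/-- The zone. -/
noncomputable def mkZone {Λ X : Type} [Ring Λ] {deg lev : X → ℕ} {B B' Z' Z : Set X}
    {D E H r θ : (X →₀ Λ) →ₗ[Λ] (X →₀ Λ)} (hA : ZoneA deg lev B B' Z' Z D E H r)
    (hB : ZoneB deg lev B' Z' Z D E H θ) : Zone Λ where
  X := X
  deg := deg
  lev := lev
  B := B
  B' := B'
  Z' := Z'
  Z := Z
  D := D
  E := E
  H := H
  r := r
  θ := θ
  deg_le := hA.deg_le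
  BB' := hA.BB'
  ZZ' := hA.ZZ'
  disj := hA.disj
  fin := hA.fin
  levW := hA.levW
  lev_D := hA.lev_D
  lev_E := hA.lev_E
  lev_H := hA.lev_H
  lev_r := hA.lev_r
  lev_θ := hB.lev_θ
  deg_D := hA.deg_D
  deg_E := hA.deg_E
  deg_H := hA.deg_H
  deg_r := hA.deg_r
  deg_θ := hB.deg_θ
  DD := hA.DD
  EE := hA.EE
  ED := hA.ED
  DE := hA.DE
  HE := hA.HE
  EH := hA.EH
  θE := hB.θE
  Eθ := hB.Eθ
  flow := hA.flow
  D_B := hA.D_B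
  D_B' := hA.D_B'
  D_Z := hA.D_Z
  D_Z' := hA.D_Z'
  E_B := hA.E_B
  E_Z := hA.E_Z
  r_B := hA.r_B
  H_B := hA.H_B
  θ_B' := hB.θ_B'
  θ_Z := hB.θ_Z
  κ_Z' := hB.κ_Z'

/-- For all sufficiently large `n`. -/
def Ev (P : ℕ → Prop) : Prop := ∃ a, ∀ n, a ≤ n → P n

theorem Ev.and {P Q : ℕ → Prop} (hP : Ev P) (hQ : Ev Q) : Ev (fun n => P n ∧ Q n) := by
  obtain ⟨a, ha⟩ := hP
  obtain ⟨b, hb⟩ := hQ
  exact ⟨max a b, fun n hn => ⟨ha n (le_trans (le_max_left _ _) hn),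
    hb n (le_trans (le_max_right _ _) hn)⟩⟩

theorem Ev.mono {P Q : ℕ → Prop} (h : ∀ n, P n → Q n) (hP : Ev P) : Ev Q := by
  obtain ⟨a, ha⟩ := hP
  exact ⟨a, fun n hn => h n (ha n hn)⟩

/-- Four nested radii `n'`, `N'`, `N`, `Q`, each sufficiently large in terms of the previous
ones. -/
def Ev4 (P : ℕ → ℕ → ℕ → ℕ → Prop) : Prop :=
  Ev fun n' => Ev fun N' => Ev fun N => Ev fun Q => P n' N' N Q

theorem Ev4.and {P R : ℕ → ℕ → ℕ → ℕ → Prop} (hP : Ev4 P) (hR : Ev4 R) :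
    Ev4 (fun a b c d => P a b c d ∧ R a b c d) :=
  Ev.mono (fun _ h => Ev.mono (fun _ h => Ev.mono (fun _ h => Ev.and h.1 h.2)
    (Ev.and h.1 h.2)) (Ev.and h.1 h.2)) (Ev.and hP hR)

section

variable {G : Type} [Group G] (M : Geo G)

/-- The inner sets. -/
def Bs (n : ℕ) : Set (G × M.I) := {x | M.L.l x.1 + M.u * M.deg x.2 ≤ n}

/-- The outer sets. -/
def Zs (N : ℕ) : Set (G × M.I) := {x | N + M.u * M.deg x.2 ≤ M.L.l x.1}

/-- Level functions on `G` which are adapted to `V` and `m`. -/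
structure LevOK (V : Set G) (m : ℕ) (lev : G → ℕ) : Prop where
  ok : ∀ x, 3 ≤ lev x → OkV M V m x
  lip : ∀ x y, M.L.l (x⁻¹ * y) ≤ 3 * M.u → lev x ≤ lev y + 1
  line : ∀ x x' y j, M.L.l (x⁻¹ * x') ≤ M.u → m ≤ j → M.L.l ((M.σ x' j)⁻¹ * y) ≤ M.u →
    lev x ≤ lev y + 1
  cap : ∀ x, lev x ≤ 30
  big : ∃ g1, ∀ x, g1 < M.L.l x → lev x = 30

variable {Λ : Type} [Ring Λ] [StarRing Λ] (T : G → G → unitary Λ)

/-- The first half of the zone properties for given radii. -/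
def ZA (lev : G → ℕ) (m n n' N' N : ℕ) : Prop :=
  ZoneA (fun x : G × M.I => M.deg x.2) (fun x => lev x.1) (Bs M n) (Bs M n') (Zs M N') (Zs M N)
    (op M T M.D) (op M T M.E) (Hm M T m) (rm M T m)

/-- The second half of the zone properties for given radii. -/
def ZB (lev : G → ℕ) (m n' N' N Q : ℕ) : Prop :=
  ZoneB (fun x : G × M.I => M.deg x.2) (fun x => lev x.1) (Bs M n') (Zs M N') (Zs M N)
    (op M T M.D) (op M T M.E) (Hm M T m) (th M T m n' N' Q)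

end

/-- Equivariant operators on infinite chains with rational coefficients. -/
noncomputable def lf {G I : Type} [Group G] [Fintype I] (A : Matrix I I (ZG G))
    (c : G × I → ℚ) (y : G × I) : ℚ :=
  ∑ i, (A i y.2).coeff.sum (fun h n => (n : ℚ) * c (y.1 * h⁻¹, i))

end Pool.Agent.CPD
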