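import Pool.Agent.CPD.AlgDefs

/-!
# Combable PD₃-groups : the zone, abstractly

Everything about the finite zone between an inner ball and an outer region which is needed for
the algebra. Chains are finitely supported functions on a set `X` of cells.
-/

set_option autoImplicit false

namespace Pool.Agent.CPD

open Matrix

section

variable {Λ : Type} [Ring Λ]

/-- The part of a chain in `S`. -/
noncomputable def cut {X : Type} (S : Set X) : (X →₀ Λ) →ₗ[Λ] (X →₀ Λ) := by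
  classical
  exact (Finsupp.supported Λ Λ S).subtype ∘ₗ Finsupp.restrictDom Λ Λ S

theorem cut_apply_of_mem {X : Type} (S : Set X) (c : X →₀ Λ) {x : X} (hx : x ∈ S) :
    cut S c x = c x := by
  classical
  exact Finsupp.filter_apply_pos _ _ hx

theorem cut_apply_of_notMem {X : Type} (S : Set X) (c : X →₀ Λ) {x : X} (hx : x ∉ S) :
    cut S c x = 0 := by
  classical
  exact Finsupp.filter_apply_neg _ _ hx

end

/-- The pairing of a chain with a cochain: left linear in the chain. -/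
noncomputable def pair {X Λ : Type} [Ring Λ] (c : X →₀ Λ) (f : X → Λ) : Λ :=
  c.sum (fun x l => l * f x)

/-- The zone. `B ⊆ B'` are inner sets of cells, `Z ⊆ Z'` outer sets of cells, the zone is the
complement of `B ∪ Z`. `lev` is a safety level; identities hold for chains on cells of level at
least `5`, all operators lower the level by at most one, and all cells which are not in `B` have
level at least `20`. -/
structure Zone (Λ : Type) [Ring Λ] where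
  X : Type
  deg : X → ℕ
  lev : X → ℕ
  B : Set X
  B' : Set X
  Z' : Set X
  Z : Set X
  D : (X →₀ Λ) →ₗ[Λ] (X →₀ Λ)
  E : (X →₀ Λ) →ₗ[Λ] (X →₀ Λ)
  H : (X →₀ Λ) →ₗ[Λ] (X →₀ Λ)
  r : (X →₀ Λ) →ₗ[Λ] (X →₀ Λ)
  θ : (X →₀ Λ) →ₗ[Λ] (X →₀ Λ)
  deg_le : ∀ x, deg x ≤ 3
  BB' : B ⊆ B'
  ZZ' : Z ⊆ Z'
  disj : Disjoint B' Z'
  fin : ((B ∪ Z)ᶜ).Finite
  levW : ∀ x, x ∉ B → 20 ≤ lev x
  lev_D : ∀ x y, D (Finsupp.single x 1) y ≠ 0 → lev x ≤ lev y + 1
  lev_E : ∀ x y, E (Finsupp.single x 1) y ≠ 0 → lev x ≤ lev y + 1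
  lev_H : ∀ x y, H (Finsupp.single x 1) y ≠ 0 → lev x ≤ lev y + 1
  lev_r : ∀ x y, r (Finsupp.single x 1) y ≠ 0 → lev x ≤ lev y + 1
  lev_θ : ∀ x y, θ (Finsupp.single x 1) y ≠ 0 → lev x ≤ lev y + 1
  deg_D : ∀ x y, D (Finsupp.single x 1) y ≠ 0 → deg x = deg y + 1
  deg_E : ∀ x y, E (Finsupp.single x 1) y ≠ 0 → deg x = deg y
  deg_H : ∀ x y, H (Finsupp.single x 1) y ≠ 0 → deg y = deg x + 1
  deg_r : ∀ x y, r (Finsupp.single x 1) y ≠ 0 → deg x = deg y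
  deg_θ : ∀ x y, θ (Finsupp.single x 1) y ≠ 0 → deg y = deg x + 1
  DD : ∀ x, 5 ≤ lev x → D (D (Finsupp.single x 1)) = 0
  EE : ∀ x, 5 ≤ lev x → E (E (Finsupp.single x 1)) = E (Finsupp.single x 1)
  ED : ∀ x, 5 ≤ lev x → E (D (Finsupp.single x 1)) = D (Finsupp.single x 1)
  DE : ∀ x, 5 ≤ lev x → D (E (Finsupp.single x 1)) = D (Finsupp.single x 1)
  HE : ∀ x, 5 ≤ lev x → H (E (Finsupp.single x 1)) = H (Finsupp.single x 1)
  EH : ∀ x, 5 ≤ lev x → E (H (Finsupp.single x 1)) = H (Finsupp.single x 1)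
  θE : ∀ x, 5 ≤ lev x → θ (E (Finsupp.single x 1)) = θ (Finsupp.single x 1)
  Eθ : ∀ x, 5 ≤ lev x → E (θ (Finsupp.single x 1)) = θ (Finsupp.single x 1)
  flow : ∀ x, 5 ≤ lev x → E (Finsupp.single x 1) - r (Finsupp.single x 1) =
    D (H (Finsupp.single x 1)) + H (D (Finsupp.single x 1))
  D_B : ∀ x ∈ B, ∀ y, D (Finsupp.single x 1) y ≠ 0 → y ∈ B
  D_B' : ∀ x ∈ B', ∀ y, D (Finsupp.single x 1) y ≠ 0 → y ∈ B'
  D_Z : ∀ x ∈ Z, ∀ y, D (Finsupp.single x 1) y ≠ 0 → y ∈ Z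
  D_Z' : ∀ x ∈ Z', ∀ y, D (Finsupp.single x 1) y ≠ 0 → y ∈ Z'
  E_B : ∀ x ∈ B, ∀ y, E (Finsupp.single x 1) y ≠ 0 → y ∈ B'
  E_Z : ∀ x ∈ Z, ∀ y, E (Finsupp.single x 1) y ≠ 0 → y ∈ Z'
  r_B : ∀ x, 5 ≤ lev x → ∀ y, r (Finsupp.single x 1) y ≠ 0 → y ∈ B
  H_B : ∀ x ∈ B, 5 ≤ lev x → ∀ y, H (Finsupp.single x 1) y ≠ 0 → y ∈ B'
  θ_B' : ∀ x ∈ B', 5 ≤ lev x → θ (Finsupp.single x 1) = H (Finsupp.single x 1)
  θ_Z : ∀ x ∈ Z, ∀ y, θ (Finsupp.single x 1) y ≠ 0 → y ∈ Z'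
  κ_Z' : ∀ x ∈ Z', ∀ y, (E (Finsupp.single x 1) - D (θ (Finsupp.single x 1)) -
    θ (D (Finsupp.single x 1))) y ≠ 0 → y ∈ Z

namespace Zone

variable {Λ : Type} [Ring Λ] (A : Zone Λ)

/-- The set of cells of the zone. -/
def Ws : Set A.X := (A.B ∪ A.Z)ᶜ

/-- The type of cells of the zone. -/
abbrev W : Type := {x : A.X // x ∈ A.Ws}

noncomputable instance : Fintype A.W := A.fin.fintype

noncomputable instance : DecidableEq A.W := Classical.decEq _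

/-- Projection to the zone. -/
noncomputable def p : (A.X →₀ Λ) →ₗ[Λ] (A.X →₀ Λ) := cut A.Ws

/-- The endomorphism of the zone, on all chains. -/
noncomputable def κ : (A.X →₀ Λ) →ₗ[Λ] (A.X →₀ Λ) := A.E - A.D ∘ₗ A.θ - A.θ ∘ₗ A.D

/-- Degree on the zone. -/
def degW (x : A.W) : ℕ := A.deg x.1

/-- The matrix on the zone of an operator. -/
noncomputable def mat (F : (A.X →₀ Λ) →ₗ[Λ] (A.X →₀ Λ)) : Matrix A.W A.W Λ :=
  fun x y => F (Finsupp.single x.1 1) y.1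

/-- Extension by zero. -/
noncomputable def inc (v : A.W → Λ) : A.X →₀ Λ := ∑ x : A.W, Finsupp.single x.1 (v x)

/-- Restriction to the zone. -/
def res (c : A.X →₀ Λ) (x : A.W) : Λ := c x.1

/-- Data which make the image of `κ` on `H₁` of the zone cyclic: `v0` is a chain of degree `0` in
`Z`, far away, and every chain of degree `0` in `Z` is homologous inside `Z'` to a multiple of it. -/
structure Cyc1 (v0 : A.X →₀ Λ) : Prop where
  deg0 : ∀ x, v0 x ≠ 0 → A.deg x = 0 ∧ x ∈ A.Z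
  Ev0 : A.E v0 = v0
  gen : ∀ v : A.X →₀ Λ, (∀ x, v x ≠ 0 → A.deg x = 0 ∧ x ∈ A.Z) →
    ∃ (a : Λ) (e : A.X →₀ Λ), (∀ x, e x ≠ 0 → A.deg x = 1 ∧ x ∈ A.Z') ∧
      A.E v = a • v0 + A.D e

/-- Data which make the dual image of `κ` on `H³` of the zone cyclic: `b0` is a cochain of degree
`3` on the zone; every cochain `ν` of degree `3` on the complement of `B' ∪ Z'`, compatible with
`E`, is cohomologous in the zone to a multiple of `b0`. -/
structure Cyc3 (b0 : A.X → Λ) : Prop where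
  deg3 : ∀ x, b0 x ≠ 0 → A.deg x = 3 ∧ x ∈ A.Ws
  gen : ∀ ν : A.X → Λ, (∀ x, ν x ≠ 0 → A.deg x = 3 ∧ x ∉ A.B' ∧ x ∉ A.Z') →
    (∀ x, 10 ≤ A.lev x → pair (A.E (Finsupp.single x 1)) ν = ν x) →
    ∃ (b : Λ) (f : A.X → Λ), (∀ x, f x ≠ 0 → A.deg x = 2 ∧ x ∈ A.Ws) ∧
      ∀ x ∈ A.Ws, ν x = b0 x * b + pair (A.D (Finsupp.single x 1)) f

end Zone

end Pool.Agent.CPD
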