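import Pool.Agent.CPD.Basic
import Pool.Agent.CPD.ZoneDefs

/-!
# Combable PD₃-groups : the lifted flows

`M : Geo G` is the integral package, `T : G → G → unitary Λ` a system of coefficients. Operators
act on the left `Λ`-module `(G × M.I) →₀ Λ`.
-/

set_option autoImplicit false

namespace Pool.Agent.CPD

open Matrix

variable {G : Type} [Group G]

/-- Chains with coefficients in `Λ`. -/
abbrev Ch (M : Geo G) (Λ : Type) [Ring Λ] : Type := (G × M.I) →₀ Λ

/-- The unit of length. -/
def Geo.u (M : Geo G) : ℕ := M.c + 1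

/-- The radius up to which coefficient systems have to be multiplicative. -/
def Geo.R0 (M : Geo G) : ℕ := 10 * M.u ^ 2 + M.t0

section

variable (M : Geo G) {Λ : Type} [Ring Λ] [StarRing Λ] (T : G → G → unitary Λ)

/-- `T` is multiplicative up to the radius `R0` at all elements of `V`. -/
def GoodV (V : Set G) : Prop := ∀ v ∈ V, GoodAt M.L T M.R0 v

/-- All elements near `x`, and their combing lines from time `m` on, are in `V`. -/
def OkV (V : Set G) (m : ℕ) (x : G) : Prop :=
  ∀ y, M.L.l (x⁻¹ * y) ≤ 3 * M.u → y ∈ V ∧ ∀ j, m ≤ j → M.σ y j ∈ V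

/-- Admissible constants: `V` contains all elements of length `> g0`, `T` is good on `V`, and after
the time `m` combing lines are far from `1` until they stop. -/
structure Adm (V : Set G) (g0 m : ℕ) : Prop where
  good : GoodV M T V
  far : ∀ v, g0 < M.L.l v → v ∈ V
  late : ∀ x j, m ≤ j → j < M.τ x → g0 + 100 * M.u < M.L.l (M.σ x j)

/-- The lift of the equivariant operator with matrix `A`. -/
noncomputable def op (A : Matrix M.I M.I (ZG G)) : Ch M Λ →ₗ[Λ] Ch M Λ := lo T (row A)

/-- Transport from `x` back along its combing line to the point at time `j`. -/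
noncomputable def U (j : ℕ) (x : G) : unitary Λ := (tr T (M.σ x) j (M.τ x - j))⁻¹

/-- The lifted chain map at time `j`, on the cell `x`. -/
noncomputable def rT (j : ℕ) (x : G × M.I) : Ch M Λ :=
  (U M T j x.1 : Λ) • bl T (M.σ x.1 j) (M.rr j x)

/-- The lifted homotopy at time `j`, on the cell `x`. -/
noncomputable def hT (j : ℕ) (x : G × M.I) : Ch M Λ :=
  (U M T j x.1 : Λ) • bl T (M.σ x.1 j) (M.hh j x)

/-- After the time `JJ x` nothing happens near `x`. -/
noncomputable def JJ (x : G) : ℕ := (M.L.ball M.c).sup (fun g => M.τ (x * g))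

/-- The inward homotopy from time `m` on. -/
noncomputable def Hm (m : ℕ) : Ch M Λ →ₗ[Λ] Ch M Λ :=
  Finsupp.linearCombination Λ (fun x => ∑ j ∈ Finset.Ico m (JJ M x.1), hT M T j x)

/-- The lifted chain map at time `m`. -/
noncomputable def rm (m : ℕ) : Ch M Λ →ₗ[Λ] Ch M Λ := Finsupp.linearCombination Λ (rT M T m)

/-- The conjugate transpose of `Hm`, from finite chains to infinite chains. -/
noncomputable def tH (m : ℕ) (a : Ch M Λ) (x : G × M.I) : Λ :=
  a.sum (fun y l => l * star (Hm M T m (Finsupp.single x 1) y))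

/-- Truncation of an infinite chain. -/
noncomputable def trunc (Q : ℕ) (f : G × M.I → Λ) : Ch M Λ :=
  Finsupp.onFinset (M.L.ball Q ×ˢ (Finset.univ : Finset M.I))
    (fun x => by classical exact if M.L.l x.1 ≤ Q then f x else 0) (by
    intro x hx
    rw [Finset.mem_product]
    refine ⟨?_, Finset.mem_univ _⟩
    rw [Len.mem_ball]
    by_contra h
    exact hx (if_neg h))

/-- The outward homotopy, truncated at radius `Q`. -/
noncomputable def Ho (m Q : ℕ) : Ch M Λ →ₗ[Λ] Ch M Λ :=
  Finsupp.linearCombination Λ (fun x =>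
    op M T M.Ph (trunc M Q (tH M T m (bl T x.1 (row M.Ps x)))) - bl T x.1 (row M.h x))

/-- The homotopy of the zone: inward on cells of length `≤ n' + u`, outward on cells of length
`≥ N' - u`. -/
noncomputable def th (m n' N' Q : ℕ) : Ch M Λ →ₗ[Λ] Ch M Λ :=
  Hm M T m ∘ₗ cut {x | M.L.l x.1 ≤ n' + M.u} ∘ₗ op M T M.E +
    Ho M T m Q ∘ₗ cut {x | N' ≤ M.L.l x.1 + M.u} ∘ₗ op M T M.E

/-- The endomorphism of the zone. -/
noncomputable def ka (m n' N' Q : ℕ) : Ch M Λ →ₗ[Λ] Ch M Λ :=
  op M T M.E - op M T M.D ∘ₗ th M T m n' N' Q - th M T m n' N' Q ∘ₗ op M T M.D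

end

/-- The trivial coefficient system. -/
def triv (G Λ : Type) [Ring Λ] [StarRing Λ] : G → G → unitary Λ := fun _ _ => 1

end Pool.Agent.CPD
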