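import Pool.Agent.CPD.Words

/-!
# Orientable `PD₃`-groups

The definition used in the final statement.
-/

set_option autoImplicit false

namespace Pool.Agent.CPD

/-- A module over `ℤ[G]`. -/
structure GMod (G : Type) [Group G] where
  X : Type
  [ab : AddCommGroup X]
  [mod : Module (ZG G) X]

attribute [instance] GMod.ab GMod.mod

section

variable {G : Type} [Group G]

/-- Homomorphisms of `ℤ[G]`-modules. -/
abbrev GHom (A B : GMod G) : Type := A.X →ₗ[ZG G] B.X

/-- The value of a homomorphism. -/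
noncomputable def GHom.ap {A B : GMod G} (φ : GHom A B) (x : A.X) : B.X := φ x

/-- The module `ℤ[G]`. -/
noncomputable def GMod.free (G : Type) [Group G] : GMod G := ⟨ZG G⟩

/-- `g` as an element of `ℤ[G]`. -/
noncomputable def gr (g : G) : ZG G := MonoidAlgebra.single g (1 : ℤ)

/-- The action of `g`. -/
noncomputable def GMod.act {A : GMod G} (g : G) (x : A.X) : A.X := gr g • x

/-- Finitely generated projective modules. -/
def GMod.IsFP (A : GMod G) : Prop := Module.Finite (ZG G) A.X ∧ Module.Projective (ZG G) A.X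

/-- Exactness at the middle module. -/
def IsExactAt {A B C : GMod G} (φ : GHom A B) (ψ : GHom B C) : Prop :=
  ∀ x : B.X, ψ.ap x = 0 ↔ ∃ y : A.X, φ.ap y = x

end

/-- A resolution of finite length of the trivial module `ℤ` by finitely generated projective
`ℤ[G]`-modules. -/
structure Reso (G : Type) [Group G] where
  P : ℕ → GMod G
  fp : ∀ i, (P i).IsFP
  len : ∃ n : ℕ, ∀ i, n < i → Subsingleton (P i).X
  d : ∀ i, GHom (P (i + 1)) (P i)
  aug : (P 0).X →+ ℤ
  aug_act : ∀ (g : G) (x : (P 0).X), aug (GMod.act g x) = aug x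
  aug_surj : ∀ n : ℤ, ∃ x, aug x = n
  exact_zero : ∀ x, aug x = 0 ↔ ∃ y, (d 0).ap y = x
  exact_succ : ∀ i, IsExactAt (d (i + 1)) (d i)

section

variable {G : Type} [Group G]

/-- The cochains `Hom(P i, ℤ[G])`. -/
abbrev Reso.Coch (F : Reso G) (i : ℕ) : Type := GHom (F.P i) (GMod.free G)

/-- The value of a cochain, an element of `ℤ[G]`. -/
noncomputable def Reso.ev (F : Reso G) {i : ℕ} (φ : F.Coch i) (x : (F.P i).X) : ZG G := φ.ap x

/-- Cocycles. -/
def Reso.IsCocycle (F : Reso G) (i : ℕ) (φ : F.Coch i) : Prop :=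
  ∀ x, F.ev φ ((F.d i).ap x) = 0

/-- `φ` is the coboundary of some cochain. -/
def Reso.IsCoboundary (F : Reso G) (i : ℕ) (φ : F.Coch (i + 1)) : Prop :=
  ∃ ψ : F.Coch i, ∀ x, F.ev φ x = F.ev ψ ((F.d i).ap x)

/-- `w` induces an isomorphism of `H³(G; ℤ[G])` with `ℤ`, for which `G` acts trivially: on the
cocycles, `w` is additive, onto, zero exactly on coboundaries, and invariant under `G`. -/
structure Reso.IsOrientation (F : Reso G) (w : F.Coch 3 → ℤ) : Prop where
  add : ∀ φ ψ χ : F.Coch 3, F.IsCocycle 3 φ → F.IsCocycle 3 ψ →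
    (∀ x, F.ev χ x = F.ev φ x + F.ev ψ x) → w χ = w φ + w ψ
  onto : ∀ n : ℤ, ∃ φ, F.IsCocycle 3 φ ∧ w φ = n
  ker : ∀ φ, F.IsCocycle 3 φ → (w φ = 0 ↔ F.IsCoboundary 2 φ)
  inv : ∀ (g : G) (φ ψ : F.Coch 3), F.IsCocycle 3 φ → (∀ x, F.ev ψ x = F.ev φ x * gr g) →
    w ψ = w φ

end

/-- `G` is an orientable `PD₃`-group: it is of type `FP`, `Hⁱ(G; ℤ[G]) = 0` for `i ≠ 3`, and
`H³(G; ℤ[G])` is infinite cyclic with trivial action of `G`. -/
def OrientablePD3 (G : Type) [Group G] : Prop :=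
  ∃ F : Reso G,
    (∀ φ, F.IsCocycle 0 φ → ∀ x, F.ev φ x = 0) ∧
    (∀ i, i + 1 ≠ 3 → ∀ φ, F.IsCocycle (i + 1) φ → F.IsCoboundary i φ) ∧
    ∃ w : F.Coch 3 → ℤ, F.IsOrientation w

end Pool.Agent.CPD
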