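import Pool.Agent.CPD.Defs
import Pool.Agent.CPD.PDDefs

/-!
# The two definitions of orientable `PD₃`-groups
-/

set_option autoImplicit false

namespace Pool.Agent.CPD

variable {G : Type} [Group G]

/-- The resolution in unbundled form. -/
def Reso.toFPRes (F : Reso G) : FPRes G where
  P i := (F.P i).X
  fin i := (F.fp i).1
  proj i := (F.fp i).2
  len := F.len
  d i := F.d i
  aug := F.aug
  aug_smul := F.aug_act
  aug_surj := F.aug_surj
  exact_zero := F.exact_zero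
  exact_succ := F.exact_succ

theorem OrientablePD3.isOrientablePD3 (h : OrientablePD3 G) : IsOrientablePD3 G := by
  obtain ⟨F, h0, h1, w, hw⟩ := h
  have hcoc : ∀ (i : ℕ) (φ : F.toFPRes.P i →ₗ[ZG G] ZG G), φ ∈ F.toFPRes.cocycles i →
      F.IsCocycle i φ := by
    intro i φ hφ x
    have h2 : φ ∘ₗ F.toFPRes.d i = 0 := hφ
    exact LinearMap.congr_fun h2 x
  refine ⟨F.toFPRes, ?_, ?_, ?_⟩
  · intro φ hφ
    refine LinearMap.ext fun x => ?_
    exact h0 φ (hcoc 0 φ hφ) x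
  · intro i hi φ hφ
    obtain ⟨ψ, hψ⟩ := h1 i hi φ (hcoc (i + 1) φ hφ)
    refine ⟨ψ, ?_⟩
    refine LinearMap.ext fun x => ?_
    exact hψ x
  · let w' : F.toFPRes.cocycles 3 →+ ℤ := AddMonoidHom.mk' (fun φ => w φ.1) (by
      intro φ ψ
      exact hw.add φ.1 ψ.1 (φ + ψ).1 (hcoc 3 _ φ.2) (hcoc 3 _ ψ.2) (fun x => rfl))
    refine ⟨w', ?_, ?_, ?_⟩
    · intro n
      obtain ⟨φ, hφ, hn⟩ := hw.onto n
      refine ⟨⟨φ, ?_⟩, hn⟩
      change LinearMap.comp φ (F.toFPRes.d 3) = 0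
      refine LinearMap.ext fun x => ?_
      exact hφ x
    · intro φ
      refine (hw.ker φ.1 (hcoc 3 _ φ.2)).trans ⟨?_, ?_⟩
      · rintro ⟨ψ, hψ⟩
        refine ⟨ψ, ?_⟩
        refine LinearMap.ext fun x => ?_
        exact hψ x
      · rintro ⟨ψ, hψ⟩
        refine ⟨ψ, fun x => ?_⟩
        exact LinearMap.congr_fun hψ x
    · intro g φ φ' h
      refine hw.inv g φ.1 φ'.1 (hcoc 3 _ φ.2) (fun x => ?_)
      exact LinearMap.congr_fun h x

end Pool.Agent.CPD
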