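import Pool.Agent.CPD.Basic

/-!
# Statements, part D : from loops in complements to asymptotic local systems

`hol f τ g w` is the product of the edge labels `τ` along the path which starts at `g` and reads
`w`. Final theorem of this part: `St_D4`, the reduction of 1-connectedness at infinity to the
triviality at infinity of all asymptotic local systems.
-/

set_option autoImplicit false

namespace Pool.Agent.CPD

/-- Product of edge labels along a word. -/
def hol {G α π : Type} [Group G] [Group π] (f : α → G) (τ : G → (α × Bool) → π) :
    G → List (α × Bool) → π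
  | _, [] => 1
  | g, a :: w => τ g a * hol f τ (g * letter f a) w

/-- The edge labels satisfy the relations of the complement of `K`. -/
structure IsLabel {G α π : Type} [Group G] [Group π] (f : α → G) (R : Set (List (α × Bool)))
    (K : Set G) (τ : G → (α × Bool) → π) : Prop where
  edge : ∀ g a b, g ∉ K → g * letter f (a, b) ∉ K →
    τ g (a, b) * τ (g * letter f (a, b)) (a, !b) = 1
  cell : ∀ r ∈ R, ∀ g, Avoids f K g r → hol f τ g r = 1

/-- The conclusion about an asymptotic local system: products along closed sequences with steps
of length at most `R`, outside a finite set, are trivial. -/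
def TrivAtInf {G π : Type} [Group G] [Group π] (L : Len G) (T : G → G → π) : Prop :=
  ∀ R : ℕ, ∃ D : Set G, D.Finite ∧ ∀ (n : ℕ) (p : ℕ → G), p 0 = p n → (∀ i ≤ n, p i ∉ D) →
    (∀ i < n, L.l ((p i)⁻¹ * p (i + 1)) ≤ R) → tr T p 0 n = 1

/-- [D0] Elementary facts on words: `value` and `hol` of a concatenation, `Avoids` of a
concatenation, formal inverses.
Proof. Inductions on lists. `winv w := (w.map (fun a => (a.1, !a.2))).reverse`. The last clause: a
word followed by its formal inverse is homotopic (moves outside `K`) to the empty insertion, by
induction on `w` (last letter first: `w = w' ++ [a]`, `w ++ winv w = w' ++ a :: a⁻¹ :: winv w'`,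
one `back` move inside the context `u`, `v`). -/
def St_D0 : Prop := ∀ (G α : Type) [Group G] (f : α → G),
  (∀ u v : List (α × Bool), value f (u ++ v) = value f u * value f v) ∧
  (∀ w : List (α × Bool),
    value f ((w.map (fun a => (a.1, !a.2))).reverse) = (value f w)⁻¹) ∧
  (∀ (K : Set G) (g : G) (u v : List (α × Bool)),
    Avoids f K g (u ++ v) ↔ Avoids f K g u ∧ Avoids f K (g * value f u) v) ∧
  (∀ (K : Set G) (g : G) (w : List (α × Bool)),
    Avoids f K g w ↔ Avoids f K (g * value f w) ((w.map (fun a => (a.1, !a.2))).reverse)) ∧
  (∀ (π : Type) [Group π] (τ : G → (α × Bool) → π) (g : G) (u v : List (α × Bool)),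
    hol f τ g (u ++ v) = hol f τ g u * hol f τ (g * value f u) v) ∧
  (∀ (R : Set (List (α × Bool))) (K : Set G) (g : G) (u w v : List (α × Bool)),
    Avoids f K g (u ++ v) → Avoids f K (g * value f u) w →
    Relation.EqvGen (Move f R K g) (u ++ w ++ (w.map (fun a => (a.1, !a.2))).reverse ++ v)
      (u ++ v))

/-- [D1] (uses D0) Contexts: homotopies may be put in a context.
Proof. If `Move f R K (g * value f u) w w'` then `Move f R K g (u ++ w ++ v) (u ++ w' ++ v)` when
`u ++ w' ++ v` avoids `K` (associativity of `++`); a homotopy class consists of words with the same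
value, and if one word of the class avoids `K` all do (a `Move` has both sides avoiding `K`: the
longer one by hypothesis and the shorter one because its vertices are among those of the longer
one, the inserted piece having value `1`: for `rel` this needs `value f r = 1`). Then induct on
`EqvGen`. -/
def St_D1 : Prop := ∀ (G α : Type) [Group G] (f : α → G) (R : Set (List (α × Bool))),
  (∀ r ∈ R, value f r = 1) →
  (∀ (K : Set G) (g : G) (w w' : List (α × Bool)), Relation.EqvGen (Move f R K g) w w' →
    value f w = value f w' ∧ (Avoids f K g w ↔ Avoids f K g w')) ∧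
  (∀ (K : Set G) (g : G) (u w w' v : List (α × Bool)), Avoids f K g (u ++ w ++ v) →
    Relation.EqvGen (Move f R K (g * value f u)) w w' →
    Relation.EqvGen (Move f R K g) (u ++ w ++ v) (u ++ w' ++ v))

/-- [D2] (uses D0, D1) The edge group. For every `K` there are a group `π` and labels `τ`
satisfying the relations of the complement of `K`, such that a closed path outside `K` with
trivial product is null-homotopic outside `K`.

Proof. Fix nothing: `π := ∏_g Perm (Q g)ᵐᵒᵖ` (or `PresentedGroup` on `G × (α × Bool)` with the two
kinds of relations and homomorphisms to the groups below). For a base vertex `g` let `Q g` be the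
quotient of `{w | value f w = 1 ∧ Avoids f K g w}` by `EqvGen (Move f R K g)`. For every `v ∈ G` choose,
if there is one, a word `c_v` with `Avoids f K g c_v` and `g * value f c_v = v`, and `c_g = []` if
`g ∉ K`. For an edge `(v, a)` with `v, v a ∉ K` and `v` reachable from `g` outside `K` (then so is
`v a`) let `s_(v,a) : Q g → Q g`, `[w] ↦ [w ++ c_v ++ [a] ++ winv c_(va)]`; it is well defined (D1) and
bijective with inverse `s_(va, a⁻¹)` (D0 last clause, twice). For the other edges take the
identity. In `(Perm (Q g))ᵐᵒᵖ` (product = composition from left to right) put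
`τ_g(v,a) = s_(v,a)`. Relations: `edge` is clear. In general, for a word `u` with
`Avoids f K v u`, `v` reachable: the product along `u` from `v` is `[w] ↦ [w ++ c_v ++ u ++ winv
c_(v u)]` (induction on `u`, cancelling `winv c c`); for `u = r ∈ R`: `c_v ++ r ++ winv c_v ~ c_v ++ winv
c_v ~ []`, so `cell` holds (if `v` is not reachable no vertex of the path is, all labels are the
identity). If `w` is a closed path at `g` outside `K` with `hol f τ g w = 1` then the component `g`
gives `[[] ++ c_g ++ w ++ winv c_g] = [[]]`, i.e. `[w] = [[]]`. (If `g ∈ K` there is nothing to prove: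
`Avoids f K g w` fails.) -/
def St_D2 : Prop := ∀ (G α : Type) [Group G] (f : α → G) (R : Set (List (α × Bool))) (K : Set G),
  (∀ r ∈ R, value f r = 1) →
  ∃ (π : Type) (_ : Group π) (τ : G → (α × Bool) → π), IsLabel f R K τ ∧
    ∀ (g : G) (w : List (α × Bool)), value f w = 1 → Avoids f K g w → hol f τ g w = 1 →
      Relation.EqvGen (Move f R K g) w []

/-- [D3] (uses D0) Labels define an asymptotic local system.
Proof. `K` finite, `α` and `R` finite. Claim: for every word `u` with `value f u = 1`,
`hol f τ g u = 1` for all `g` outside a finite set. Let `N` be the set of `x ∈ FreeGroup α` such that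
every word `u` with `FreeGroup.mk u = x` satisfies `value f u = 1` and `∀ᶠ g in cofinite,
hol f τ g u = 1`. (a) If `u` reduces to `u'` by deleting `a a⁻¹` then `hol f τ g u = hol f τ g u'`
for all `g` outside a finite set: the two vertices involved are `g s`, `g s'` for fixed `s, s'`, and
`{g | g s ∈ K}` is finite (injectivity of right multiplication); so whether
`∀ᶠ g, hol f τ g u = 1` depends only on `FreeGroup.mk u` (`FreeGroup.Red`, `FreeGroup.red.exact`).
(b) `N` is a normal subgroup: products and inverses by D0 (translate the exceptional set),
conjugates `u r u⁻¹`. (c) `N` contains `mk r`, `r ∈ R` (`cell`; `Avoids f K g r` holds for all `g`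
outside a finite set). So `N ⊇ normalClosure = ker (lift f)`, and `value f u = FreeGroup.lift f (mk u)`.
Now choose for `h ∈ G` a word `c_h` with `value f c_h = h` (surjectivity), and `T v h := hol f τ v c_h`.
`T v h * T (v h) h' * (T v (h h'))⁻¹` is for almost all `v` the product along
`c_h c_h' winv(c_(hh'))` (formal inverses: `hol` along `winv u` is the inverse for almost all
starting vertices, by `edge`). Similarly `T v (letter f a) = τ v a` for almost all `v`
(word `c_h ++ [a⁻¹]`, `h = letter f a`). -/
def St_D3 : Prop := ∀ (G α π : Type) [Group G] [Group π] [Finite α] (f : α → G)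
  (R : Set (List (α × Bool))) (K : Set G) (τ : G → (α × Bool) → π),
  IsPresentation f R → R.Finite → K.Finite → IsLabel f R K τ →
  ∃ T : G → G → π, IsALS T ∧ ∀ a : α × Bool, ∀ᶠ v in Filter.cofinite, T v (letter f a) = τ v a

/-- [D4] (uses D0, D2, D3) If all asymptotic local systems on `G` are trivial at infinity (with
respect to some length function) then `G` is 1-connected at infinity, for every finite
presentation.
Proof. `R` consists of words with value `1` (they are in the kernel). `K` finite: D2 gives `π, τ`; D3
gives `T`; `TrivAtInf` with `R :=` the maximum of `L.l (letter f a)` gives a finite `D₀`. `D := D₀ ∪ K ∪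
{v | ∃ a, T v (letter f a) ≠ τ v a}`. For a closed word `w` at `g` outside `D` let `p i := g * value f
(w.take i)`, `n = w.length`; `tr T p 0 n = hol f τ g w` (induction on the word, generalizing the
start; `(p i)⁻¹ * p (i+1)` is the value of the `i`-th letter). So `hol f τ g w = 1` and D2 applies
(`Avoids f D g w → Avoids f K g w`). -/
def St_D4 : Prop := ∀ (G : Type) [Group G] (L : Len G),
  (∀ (π : Type) [Group π] (T : G → G → π), IsALS T → TrivAtInf L T) →
  ∀ (α : Type) [Finite α] (f : α → G) (R : Set (List (α × Bool))), R.Finite →
    IsPresentation f R → OneConnectedAtInfinity f R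

end Pool.Agent.CPD
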