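import Pool.Agent.CPD.Basic

/-!
# Statements, part E : from the definitions to the integral package `Geo`

Matrices over `ℤ[G]` act on row vectors `I → ℤ[G]`; integral chains `(G × I) →₀ ℤ` are the same
as row vectors (`toV`). Final theorem of this part: `St_EGeo`.
-/

set_option autoImplicit false

namespace Pool.Agent.CPD

open Matrix

/-- The row vector of an integral chain. -/
noncomputable def toV {G I : Type} [Group G] (c : (G × I) →₀ ℤ) (i : I) : ZG G :=
  MonoidAlgebra.ofCoeff (c.comapDomain (fun g => (g, i))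
    (fun _ _ _ _ h => congrArg Prod.fst h))

/-- The augmentation of an integral chain. -/
noncomputable def augZ {G I : Type} [Group G] (e : I → ℤ) (c : (G × I) →₀ ℤ) : ℤ :=
  c.sum (fun x n => n * e x.2)

/-- Translation of chains. -/
noncomputable def tl {G I : Type} [Group G] (g : G) (c : (G × I) →₀ ℤ) : (G × I) →₀ ℤ :=
  c.mapDomain (fun x => (g * x.1, x.2))

/-- The dual conditions in the definition of orientable `PD₃`-groups. -/
def DualPD {G : Type} [Group G] (F : FPRes G) : Prop :=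
  (∀ φ ∈ F.cocycles 0, φ = 0) ∧
    (∀ i, i + 1 ≠ 3 → ∀ φ ∈ F.cocycles (i + 1), ∃ ψ : F.P i →ₗ[ZG G] ZG G, φ = ψ ∘ₗ F.d i) ∧
    ∃ w : F.cocycles 3 →+ ℤ, Function.Surjective w ∧
      (∀ φ, w φ = 0 ↔ ∃ ψ : F.P 2 →ₗ[ZG G] ZG G, (φ : F.P 3 →ₗ[ZG G] ZG G) = ψ ∘ₗ F.d 2) ∧
      ∀ (g : G) (φ φ' : F.cocycles 3), (φ' : F.P 3 →ₗ[ZG G] ZG G) = rmul g φ → w φ' = w φ

/-- A matrix model of a resolution of length three. -/
structure Model {G : Type} [Group G] (F : FPRes G) (I : Type) [Fintype I] [DecidableEq I]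
    (deg : I → ℕ) (D E : Matrix I I (ZG G)) where
  s : ∀ i, F.P i →ₗ[ZG G] (I → ZG G)
  p : ∀ i, (I → ZG G) →ₗ[ZG G] F.P i
  deg_le : ∀ i, deg i ≤ 3
  ps : ∀ i x, p i (s i x) = x
  s_deg : ∀ i x j, s i x j ≠ 0 → deg j = i
  p_deg : ∀ i v, (∀ j, deg j = i → v j = 0) → p i v = 0
  E_eq : ∀ v, v ᵥ* E = ∑ i ∈ Finset.range 4, s i (p i v)
  D_eq : ∀ v, v ᵥ* D = ∑ i ∈ Finset.range 3, s i (F.d i (p (i + 1) v))

/-- A combing with respect to a length function. -/
structure Comb {G : Type} [Group G] (L : Len G) (σ : G → ℕ → G) (τ : G → ℕ) (k : ℕ) : Prop where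
  start : ∀ x, σ x 0 = 1
  stop : ∀ x j, τ x ≤ j → σ x j = x
  step : ∀ x j, L.l ((σ x j)⁻¹ * σ x (j + 1)) ≤ 1
  fellow : ∀ x y j, L.l (x⁻¹ * y) ≤ 1 → L.l ((σ x j)⁻¹ * σ y j) ≤ k
  departure : ∀ R : ℕ, ∃ t : ℕ, ∀ x i j, i ≤ j → j ≤ τ x →
    L.l ((σ x i)⁻¹ * σ x j) ≤ R → j - i ≤ t

/-- `x` and `y` are joined inside `S` by a path with steps of length at most one. -/
def Joined {G : Type} [Group G] (L : Len G) (S : Set G) (x y : G) : Prop :=
  Relation.ReflTransGen (fun a b => a ∈ S ∧ b ∈ S ∧ L.l (a⁻¹ * b) ≤ 1) x y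

/-- [E0] The word length of a finite generating set is a length function in the sense of `Len`.
Proof. Words exist by surjectivity of `FreeGroup.lift f` (`FreeGroup.mk`). `l (x y)`: concatenate;
`l x⁻¹`: formal inverse; balls: finitely many words of length `≤ n`; `l x = 0`: empty word. `path`:
`l x = n + 1`, take a minimal word `w ++ [a]`, `s := (letter f a)⁻¹`: `x s = value f w`, so `l (x s) ≤ n`,
and `≥ n` as `l x ≤ l (x s) + l s⁻¹ ≤ l (x s) + 1`; `l s ≤ 1` and `l s ≠ 0` since `l (x s) ≠ l x`. -/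
def St_E0 : Prop := ∀ (G : Type) [Group G] (n : ℕ) (f : Fin n → G),
  Function.Surjective (FreeGroup.lift f) → ∃ L : Len G, ∀ x, L.l x = wlen f x

/-- [E1] Chains and row vectors.
Proof. Coefficientwise: `(toV c i).coeff g = c (g, i)`. `opZ A c = ∑_x c x • row A x`,
`row_apply`; `(a * b).coeff g = ∑_h a.coeff h * b.coeff (h⁻¹ g)`. `au` is the sum of the coefficients.
`opZ A` commutes with translations (`row A (g x) = tl g (row A x)`). Check everything on
`Finsupp.single`. -/
def St_E1 : Prop := ∀ (G I : Type) [Group G] [Fintype I] [DecidableEq I],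
  (∀ (A : Matrix I I (ZG G)) (c : (G × I) →₀ ℤ), toV (opZ A c) = toV c ᵥ* A) ∧
  (∀ c c' : (G × I) →₀ ℤ, toV (c + c') = toV c + toV c') ∧
  (∀ c c' : (G × I) →₀ ℤ, toV c = toV c' → c = c') ∧
  (∀ v : I → ZG G, ∃ c : (G × I) →₀ ℤ, toV c = v) ∧
  (∀ (e : I → ℤ) (c : (G × I) →₀ ℤ), augZ e c = ∑ i, au (toV c i) * e i) ∧
  (∀ (A B : Matrix I I (ZG G)) (c : (G × I) →₀ ℤ), opZ (A * B) c = opZ B (opZ A c)) ∧
  (∀ (A : Matrix I I (ZG G)) (g : G) (c : (G × I) →₀ ℤ), opZ A (tl g c) = tl g (opZ A c)) ∧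
  (∀ (e : I → ℤ) (g : G) (c : (G × I) →₀ ℤ), augZ e (tl g c) = augZ e c) ∧
  (∀ (g : G) (c : (G × I) →₀ ℤ) (y : G × I), tl g c y = c (g⁻¹ * y.1, y.2))

/-- [E2a] Truncation to length three.
Proof. Let `F` satisfy `DualPD`, `B_i := range (F.d i) ⊆ P_i` (image of `P_(i+1)`). Claim: for
`i ≥ 3`, `B_i` has a complement in `P_i` (there is a linear `ρ : P_i → P_i` with image in `B_i` which is
the identity on `B_i`). Downward induction from `i > n` where `P_i` is a subsingleton. Step: let
`B_(i+1)` be complemented in `P_(i+1)` (`i ≥ 3`), with projection `ρ'`, `q := 1 - ρ' : P_(i+1) → P_(i+1)`,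
`Q := range q`, a finitely generated projective module; `q` kills `B_(i+1) = ker (F.d i)` (exactness)
and `F.d i` maps `Q` isomorphically onto `B_i`. `q` is a `P_(i+1)`-valued cocycle: `q ∘ F.d (i+1) = 0`.
`P_(i+1)` is a direct summand of a free module `ZG^m`; the `m` coordinates of `q` (composed with the
inclusion) are cocycles in `cocycles (i+1)`, `i + 1 ≠ 3`, so `= ψ_j ∘ F.d i`; put them together and
project back to `P_(i+1)`: `q = Ψ ∘ F.d i`, `Ψ : P_i → P_(i+1)`. `ρ := F.d i ∘ q ∘ Ψ`: image in `B_i`, and on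
`F.d i y`: `F.d i (q (Ψ (F.d i y))) = F.d i (q (q y)) = F.d i (q y) = F.d i y` (`y - q y ∈ ker`).
New resolution `F'`: `P'_i = P_i` (`i ≤ 2`), `P'_3 = P_3 / B_3` (projective, as a complement of `B_3`
in `P_3`; finite), `P'_i = 0` (`i ≥ 4`, `PUnit`), `d'_2` induced by `F.d 2` (it kills `B_3`; injective
by exactness). Duals: cocycles in degree `3` of `F'`: all homomorphisms `P_3 / B_3 → ZG` = those
`P_3 → ZG` which vanish on `B_3` = `F.cocycles 3`; so `w` and the conditions in degree `3` carry over;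
degrees `0, 1, 2` unchanged; degrees `≥ 4` trivial. (Define `P'` by cases on `i`; a convenient way is
`P' : ℕ → Type | 0 => F.P 0 | 1 => F.P 1 | 2 => F.P 2 | 3 => F.P 3 ⧸ B | _ + 4 => PUnit`.) -/
def St_E2a : Prop := ∀ (G : Type) [Group G], IsOrientablePD3 G →
  ∃ F : FPRes G, (∀ i, 3 < i → Subsingleton (F.P i)) ∧ DualPD F

/-- [E2b] Matrix models exist.
Proof. `P_i` is finite and projective: there are `n_i`, a surjection `(Fin n_i → ZG) → P_i` and a
section. `I := Σ i : Fin 4, Fin (n_i)`, `deg ⟨i, _⟩ = i`, `s i`, `p i` by extension by zero and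
restriction to the block `i` (for `i > 3`: `0`; `P_i` is a subsingleton). `E`, `D`: the matrices of the
linear maps `v ↦ ∑ s i (p i v)` and `v ↦ ∑ s i (F.d i (p (i+1) v))` (`LinearMap.toMatrixRight'`, or
`E i j = (image of Pi.single i 1) j`). -/
def St_E2b : Prop := ∀ (G : Type) [Group G] (F : FPRes G),
  (∀ i, 3 < i → Subsingleton (F.P i)) →
  ∃ (I : Type) (_ : Fintype I) (_ : DecidableEq I) (deg : I → ℕ) (D E : Matrix I I (ZG G)),
    Nonempty (Model F I deg D E)

/-- [E2c] The primal resolution of a model.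
Proof. `e j := F.aug (p 0 (Pi.single j 1))`. `EE`: `p i (∑_k s k (p k v)) = p i v` (`ps`, and
`p i (s k x) = 0` for `k ≠ i` by `s_deg`, `p_deg`). `ED = D = DE`, `DD = 0` (`F.d i (F.d (i+1) x) = 0` from
`exact_succ`). Degrees: apply `E_eq`, `D_eq` to `Pi.single i 1`, which is homogeneous. `F.aug` is linear
over the augmentation: `F.aug (a • x) = au a * F.aug x` (`aug_smul`, additivity, single elements); so
`∑_i au (v i) * e i = F.aug (p 0 v)`. `De`: `F.aug (F.d 0 x) = 0`. `Ee`. `surj`: `v = s 0 x` with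
`F.aug x = 1`. `exact`: `v E = v`, `v D = 0`, `F.aug (p 0 v) = 0`: for `i = 0`: `p 0 v = F.d 0 y_0`; for
`1 ≤ i ≤ 3`: `s (i-1) (F.d (i-1) (p i v)) = 0` (degree parts of `v D = 0`), so `F.d (i-1) (p i v) = 0`
and `p i v = F.d i y_i` (`y_3 ∈ P_4 = 0`, so `p 3 v = 0`). `u := ∑_{i ≤ 2} s (i+1) y_i`: `u E = u`,
`u D = ∑ s i (F.d i y_i) = ∑ s i (p i v) = v E = v`. -/
def St_E2c : Prop := ∀ (G : Type) [Group G] (F : FPRes G) (I : Type) [Fintype I] [DecidableEq I]
  (deg : I → ℕ) (D E : Matrix I I (ZG G)), (∀ i, 3 < i → Subsingleton (F.P i)) →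
  Model F I deg D E → ∃ e : I → ℤ, Res deg D E e

/-- [E2d] The dual resolution of a model.
Proof. A row vector `u` corresponds to the column vector `c = star u`; `(u ᵥ* Aᴴ) = star (A *ᵥ c)`. So
`u Eᴴ = u ↔ E c = c` and `u Dᴴ = 0 ↔ D c = 0`. For a column `c` with `E c = c` and `i ≤ 3` let
`φ_i(x) := (s i x) ⬝ᵥ c` (a homomorphism `P_i → ZG`). `φ_i ∘ F.d i = 0` if `D c = 0`:
`(s i (F.d i y)) ⬝ c = ((s (i+1) y) ᵥ* D) ⬝ c = (s (i+1) y) ⬝ (D c) = 0` for `i ≤ 2`, and `P_4 = 0`.
Conversely from `ψ : P_i → ZG` the column `c_j = ψ (p i (Pi.single j 1))` satisfies `E c = c`,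
`(s i x) ⬝ c = ψ x`, and `(D c)_j = ψ (F.d i (p (i+1) (Pi.single j 1)))`.
`w j := wF (φ_(j))` with `φ_(j) x = (s 3 x)_j` (a cocycle, `P_4 = 0`) for `deg j = 3`, `w j = 0`
otherwise, `wF` the given map. `wF` of `φ_i` for a column `c` (degree `3`): `x ↦ ∑_j (s 3 x)_j c_j`,
additivity and invariance under `rmul g` give `wF = ∑_j w j * au (c_j)` and
`au (star a) = au a`. The clauses `EE, ED, DE, DD, E_deg, D_deg` are the conjugate transposes of those
of the primal side (prove them as in E2c, or take `Res deg D E e` from E2c, whose statement may be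
assumed; degrees: `deg ≤ 3`). `De` (dual): `∑_j au ((Dᴴ) i j) w j = wF (ψ ∘ F.d 2) = 0` with
`ψ x = (s 2 x)_i`. `surj`: from surjectivity of `wF`. `exact` in dual degree `0` (`deg = 3`): `wF φ = 0`
gives `φ = ψ ∘ F.d 2`; in dual degree `3 - i`, `i = 1, 2`: second clause of `DualPD` (`i = i' + 1 ≠ 3`);
in dual degree `3` (`i = 0`): first clause, `φ_0 = 0`, so the part of `c` of degree `0` is `0` (`c = E c`:
`c_j = φ_0 (p 0 (Pi.single j 1))`). Assemble the homogeneous parts. -/
def St_E2d : Prop := ∀ (G : Type) [Group G] (F : FPRes G) (I : Type) [Fintype I] [DecidableEq I]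
  (deg : I → ℕ) (D E : Matrix I I (ZG G)) (e : I → ℤ), (∀ i, 3 < i → Subsingleton (F.P i)) →
  DualPD F → Model F I deg D E → Res deg D E e →
  ∃ w : I → ℤ, Res (fun i => 3 - deg i) Dᴴ Eᴴ w

/-- [E3a] Comparison, existence of a chain map covering the identity of `ℤ`.
Proof. Construct rows `F_i ∈ (I → ZG)` of degree `deg i` (with respect to `deg'`), by induction on
the degree `n = deg i ≤ 3`: claim `C(n)`: there is a matrix `F` with zero rows in degrees `≥ n`,
`F i j ≠ 0 → deg i = deg' j`, `E F = F = F E'`, `(D F) i = (F D') i` for rows `i` of degree `< n`, and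
`∑_j au (F i j) e' j = e i` if `n > 0`, `deg i = 0`. Step, degree `0`: let `o` be a row vector with
`o E' = o`, aug `1`, take its part of degree `0` (still `o E' = o` as `E'` preserves degrees, aug
unchanged); `G i := e i • o` for `deg i = 0`, `F := E G` (rows of degree `0`): `E F = F`, `F E' = F`,
aug: `∑_j au (E i j) e j = e i`. Step `n ≥ 1`: for `deg i = n` the row `v := (D F) i = ∑_j D i j F_j`
(rows of degree `n - 1`) satisfies `v E' = v`, `v D' = ((D F) D') i = (D (F D')) i = (D D F) i = 0`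
(rows of degree `n - 1` of `F D'` are those of `D F`; for `n = 1`: `v D' = 0` by degrees and aug `v =
∑_j au (D i j) e j = 0`), so there is `u_i` with `u_i E' = u_i`, `u_i D' = v`, which may be taken
homogeneous of degree `n`. `G i := u_i`, new rows `(E G) i`: `(E G) D' = E (D F) = D F` on rows of
degree `n`. `C(4)` is the claim. (`au (∑ a_j b_j) = ∑ au a_j au b_j`.) -/
def St_E3a : Prop := ∀ (G : Type) [Group G] (I : Type) [Fintype I] [DecidableEq I]
  (deg deg' : I → ℕ) (D E D' E' : Matrix I I (ZG G)) (e e' : I → ℤ),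
  (∀ i, deg i ≤ 3) → Res deg D E e → Res deg' D' E' e' →
  ∃ F : Matrix I I (ZG G), (∀ i j, F i j ≠ 0 → deg i = deg' j) ∧ E * F = F ∧ F * E' = F ∧
    D * F = F * D' ∧ ∀ i, ∑ j, au (F i j) * e' j = e i

/-- [E3b] Comparison, homotopy: a chain map which covers zero is null-homotopic.
Proof. As in E3a: construct `h` with zero rows in degrees `≥ n`, `h i j ≠ 0 → deg j = deg i + 1`,
`E h = h = h E`, and `A i = (h D + D h) i` for `deg i < n`. Step: for `deg i = n` the row
`v := A i - (D h) i` satisfies `v E = v`, `v D = (A D) i - (D h D) i = (D A) i - (D (A - D h)) i = 0`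
(rows of degree `n - 1`: `h D = A - D h`, and `D D = 0`), aug `v = 0` (`n = 0`: hypothesis; `n ≥ 1`: by
degree), so `v = u_i D`, `u_i E = u_i`, homogeneous of degree `n + 1`; new rows `(E G) i`, `G i = u_i`:
`(E G) D = E v-matrix = v` (`E A = A`, `E D = D`). `C(4)`: all rows. -/
def St_E3b : Prop := ∀ (G : Type) [Group G] (I : Type) [Fintype I] [DecidableEq I]
  (deg : I → ℕ) (D E A : Matrix I I (ZG G)) (e : I → ℤ),
  (∀ i, deg i ≤ 3) → Res deg D E e → (∀ i j, A i j ≠ 0 → deg i = deg j) → E * A = A →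
  A * E = A → D * A = A * D → (∀ i, ∑ j, au (A i j) * e j = 0) →
  ∃ h : Matrix I I (ZG G), (∀ i j, h i j ≠ 0 → deg j = deg i + 1) ∧ E * h = h ∧ h * E = h ∧
    A = h * D + D * h

/-- [E4] (uses E2a, E2b, E2c, E2d, E3a, E3b) Duality data exist.
Proof. `Ps` from E3a for `(deg, D, E, e) → (3 - deg, Dᴴ, Eᴴ, w)`, `Ph` in the other direction, `h` from
E3b for `A = Ps Ph - E` (aug: `∑_j au ((Ps Ph) i j) e j = e i = ∑_j au (E i j) e j`). Degrees:
`deg i = 3 - deg j` and `deg j ≤ 3`. -/
def St_E4 : Prop := ∀ (G : Type) [Group G], IsOrientablePD3 G → Nonempty (PDM G)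

/-- [E5] (uses E1) Uniform filling.
Proof. `Z` := the integral chains `c` supported in `{(g, i) | L.l g ≤ R}` with `E c = c`, `D c = 0`,
`aug c = 0`, homogeneous of degree `i`: a subgroup of a finitely generated free abelian group, so
finitely generated (`ℤ` noetherian); there are finitely many generators `c_k`, each is `D b_k` with
`E b_k = b_k` (`exact` through E1; take the part of degree `i + 1`); the supports of the `b_k` are in
some ball `R'`; do it for `i = 0, ..., 3` and take the maximum (`i ≥ 4`: `c = 0` if all degrees are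
`≤ 3`; in general only finitely many degrees occur because `I` is finite; for the others `c = 0`,
`b = 0`). A chain near `g` is translated to `1` (`tl g⁻¹`), filled, translated back. -/
def St_E5 : Prop := ∀ (G : Type) [Group G] (L : Len G) (I : Type) [Fintype I] [DecidableEq I]
  (deg : I → ℕ) (D E : Matrix I I (ZG G)) (e : I → ℤ), Res deg D E e → ∀ R : ℕ, ∃ R' : ℕ,
  ∀ (g : G) (i : ℕ) (c : (G × I) →₀ ℤ),
    (∀ y, c y ≠ 0 → L.l (g⁻¹ * y.1) ≤ R ∧ deg y.2 = i) →
    opZ E c = c → opZ D c = 0 → augZ e c = 0 →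
    ∃ b : (G × I) →₀ ℤ, (∀ y, b y ≠ 0 → L.l (g⁻¹ * y.1) ≤ R' ∧ deg y.2 = i + 1) ∧
      opZ E b = b ∧ opZ D b = c

/-- [E6a] (uses E1) Sets with finite boundary are finite or cofinite.
Proof. Let `V ⊆ G` be such that `{v | v ∈ V, ∃ s, l s ≤ 1, v s ∉ V}` is finite. For every `ρ` the set of `g`
such that `1_V` is not constant on the ball of radius `ρ` about `g` is finite (a path of length `ρ`
from `g` must cross the boundary within distance `ρ`; balls are finite; `path` of `Len` gives
geodesics). `f : G × I → ℤ`, `f (g, i) := 1_V g * e i`; `f' := f` composed with `E`: `f'(x) = ∑_y row E x y f y`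
(`= f x` up to finite support: `∑_j au (E i j) e j = e i`, row supported in a ball). `f'` composed with
`D`: `q(x) := ∑_y row D x y f y` has finite support (where `1_V` is constant on the ball of radius
`ρ ≥` propagation of `D`, `q(x) = ± ∑_j au (D i j) e j = 0`). `q` is a finitely supported function on
`X`, of degree `1`, i.e. `q = ` a row vector `u` of the dual complex up to the involution:
put `u := ` the chain `q` (`u(x) = q(x)`), then `opZ (Dᴴ) u (y) = ∑_x q(x) row D y x` `= 0` (`D D = 0`) and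
`opZ (Eᴴ) u = u` (`(E D) = D`): entries `row (Aᴴ) x y = row A y x`. Dual degree of `u` is `2`, its
`w`-augmentation is `0`, so (exactness of the dual, E1) `u = opZ (Dᴴ) u'`, `u'` finitely supported:
`q(x) = ∑_y row D x y u'(y)`. So `f - u'` (extended to chains by pairing) vanishes on `D c` for every
integral chain `c`. Let `o` be an integral chain with `E o = o`, aug `1`, degree `0`. For `g, g' ∈ G` the chain
`tl g o - tl g' o` is fixed by `E`, of augmentation `0`, killed by `D` (degree `0`), so it is `D c`. So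
`⟨f, tl g o⟩ - ⟨u', tl g o⟩` does not depend on `g`. For `g` outside a finite set the second term is `0`
and `1_V` is constant on the support of `tl g o`, so `⟨f, tl g o⟩ = 1_V(g)`. So `1_V` is constant off a
finite set. -/
def St_E6a : Prop := ∀ (G : Type) [Group G] (L : Len G) (M : PDM G) (V : Set G),
  {v | v ∈ V ∧ ∃ s, L.l s ≤ 1 ∧ v * s ∉ V}.Finite → V.Finite ∨ (Vᶜ).Finite

/-- [E6b] (uses E6a) One-endedness.
Proof. `G` infinite. Fix `R`, `S := {v | R < l v}`. For `x ∈ S` let `C(x) := {y | Joined L S x y}`. Its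
boundary (elements `y ∈ C(x)` with a neighbour outside `C(x)`): the neighbour is not in `S`, so
`l y ≤ R + 1`: finite. By E6a `C(x)` is finite or cofinite. Every `C(x)` contains an element of length
`R + 1` (follow a geodesic from `x` to `1` (`path`) until length `R + 1`), so there are finitely many
classes; `S` is cofinite and `G` infinite, so one class is cofinite (otherwise `S` would be finite); two
cofinite classes intersect, so exactly one class `C` is cofinite. `R1 := max` of `l` on the finite set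
`Cᶜ`, and `≥ R`. -/
def St_E6b : Prop := ∀ (G : Type) [Group G] [Infinite G] (L : Len G), Nonempty (PDM G) →
  ∀ R : ℕ, ∃ R1 : ℕ, R ≤ R1 ∧ ∀ x y, R1 < L.l x → R1 < L.l y → Joined L {v | R < L.l v} x y

/-- [E7] Combings for the word length are combings for `Len`, and neighbours at distance `R` stay
`k R`-close.
Proof. `l (x⁻¹ y) ≤ 1` means `x = y` or `y = x * letter f a`. For distance `R`: induction along a
geodesic (`path`). -/
def St_E7 : Prop := ∀ (G : Type) [Group G],
  (∀ (n : ℕ) (f : Fin n → G) (σ : G → ℕ → G) (τ : G → ℕ) (L : Len G),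
    (∀ x, L.l x = wlen f x) → IsCombing f σ τ → ∃ k, Comb L σ τ k) ∧
  (∀ (L : Len G) (σ : G → ℕ → G) (τ : G → ℕ) (k : ℕ), Comb L σ τ k →
    ∀ (R : ℕ) (x y : G) (j : ℕ), L.l (x⁻¹ * y) ≤ R → L.l ((σ x j)⁻¹ * σ y j) ≤ k * R)

/-- [E8] (uses E1, E5, E7) The integral flow, chain maps `r_j`.
Proof. Claim `C(n)`, `n ≤ 4`, by induction: there are `c` and `rr : ℕ → X → chains` with all the
properties below for cells `x` of degree `< n`, and `rr j x = 0` for cells of degree `≥ n`
(properties involving `rr j` of other cells only involve cells of degree `≤ deg x`). Let `ρ` be a bound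
for the lengths in the supports of the entries of `D`, `E`. Step: for `deg x = n` define first
`r' j x`: if `τ y ≤ j` for all `y` with `l (x⁻¹ y) ≤ c + ρ` put `r' j x := row E x`. Otherwise: `n = 0`:
`r' j x := e(x) • tl (σ x j) o` (`o` of degree `0`, `E o = o`, aug `1`). `n ≥ 1`: `v := ext (rr j) (row D x)`
satisfies `E v = v`, `D v = ext (rr j) (opZ D (row D x)) = 0` (property `D r = r D` in degree `n - 1`;
for `n = 1`: `D v = 0` by degree and `aug v = aug (row D x) = 0`), it is supported within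
`c + k ρ` of `σ x j` (E7), so by E5 there is `b` within `R'` of `σ x j`, degree `n`, `E b = b`, `D b = v`:
`r' j x := b`. In the first case also `D (r' j x) = row (E D) x = row D x` and, since all cells `y` of
`row D x` are finished (`l (y⁻¹ z) ≤ c → l (x⁻¹ z) ≤ c + ρ`), `v = ext (rr j) (row D x) = opZ E (row D x) =
row D x`: so `D (r' j x) = v` in both cases; and `row E x` is supported within `ρ` of `x = σ x j`.
Finally `rr j x := ext (r' j) (row E x)` for `deg x = n`: `E`-fixed, `ext (rr j) (row E x) = ext (r' j)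
(opZ E (row E x)) = rr j x`, `D (rr j x) = ∑_y E(x,y) ext (rr j) (row D y) = ext (rr j) (row (E D) x) =
ext (rr j) (row D x)`; supported within `max(..) + k ρ` of `σ x j`; `rr j x = row (E E) x = row E x` if
`τ y ≤ j` for all `y` with `l (x⁻¹ y) ≤ c + 2 ρ`; aug: `∑ E(x,y) e(y) = e(x)`. Take for the new `c` a
bound for all these radii (all properties are monotone in `c`). -/
def St_E8 : Prop := ∀ (G : Type) [Group G] (L : Len G) (M : PDM G) (σ : G → ℕ → G) (τ : G → ℕ)
  (k : ℕ), Comb L σ τ k → ∃ (c : ℕ) (rr : ℕ → (G × M.I) → ((G × M.I) →₀ ℤ)),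
    (∀ j x, opZ M.E (rr j x) = rr j x) ∧
    (∀ j x, ext (rr j) (row M.E x) = rr j x) ∧
    (∀ j x, opZ M.D (rr j x) = ext (rr j) (row M.D x)) ∧
    (∀ j x, augZ M.e (rr j x) = M.e x.2) ∧
    (∀ j x y, rr j x y ≠ 0 → L.l ((σ x.1 j)⁻¹ * y.1) ≤ c ∧ M.deg y.2 = M.deg x.2) ∧
    (∀ j x, (∀ y, L.l (x.1⁻¹ * y) ≤ c → τ y ≤ j) → rr j x = row M.E x)

/-- [E9] (uses E1, E5, E7) The integral flow, homotopies `h_j`.
Proof. As in E8, by induction on the degree `n` of `x`: `h' j x := 0` if `τ y ≤ j` for all `y` with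
`l (x⁻¹ y) ≤ c + ρ`; else fill `v := rr (j+1) x - rr j x - ext (hh j) (row D x)`: `E v = v`,
`D v = ext (rr (j+1) - rr j) (row D x) - ext (rr (j+1) - rr j - hh j D) (row D x) = 0`, for `n = 0`
`aug v = 0` and `D v = 0` by degree; it is supported near `σ x j` (`σ x (j+1)` is within `1`); so
`v = D (h' j x)`, `h' j x` of degree `n + 1` near `σ x j` (for `n = 3`: degree `4`, so the filling is `0`
and `v = 0`). In the finished case `v = 0` (both `rr` are `row E x`, `hh = 0` on the cells of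
`row D x`). `hh j x := ext (h' j) (row E x)`. Then `D (hh j x) = ∑ E(x,y) v_y = rr (j+1) x - rr j x -
ext (hh j) (row D x)` (`ext (rr j) (row E x) = rr j x`, `row (E D) x = row D x`). -/
def St_E9 : Prop := ∀ (G : Type) [Group G] (L : Len G) (M : PDM G) (σ : G → ℕ → G) (τ : G → ℕ)
  (k c : ℕ) (rr : ℕ → (G × M.I) → ((G × M.I) →₀ ℤ)), Comb L σ τ k →
    (∀ j x, opZ M.E (rr j x) = rr j x) →
    (∀ j x, ext (rr j) (row M.E x) = rr j x) →
    (∀ j x, opZ M.D (rr j x) = ext (rr j) (row M.D x)) →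
    (∀ j x, augZ M.e (rr j x) = M.e x.2) →
    (∀ j x y, rr j x y ≠ 0 → L.l ((σ x.1 j)⁻¹ * y.1) ≤ c ∧ M.deg y.2 = M.deg x.2) →
    (∀ j x, (∀ y, L.l (x.1⁻¹ * y) ≤ c → τ y ≤ j) → rr j x = row M.E x) →
  ∃ (c' : ℕ) (hh : ℕ → (G × M.I) → ((G × M.I) →₀ ℤ)),
    (∀ j x, rr (j + 1) x - rr j x = opZ M.D (hh j x) + ext (hh j) (row M.D x)) ∧
    (∀ j x, opZ M.E (hh j x) = hh j x) ∧
    (∀ j x, ext (hh j) (row M.E x) = hh j x) ∧
    (∀ j x y, hh j x y ≠ 0 → L.l ((σ x.1 j)⁻¹ * y.1) ≤ c' ∧ M.deg y.2 = M.deg x.2 + 1) ∧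
    (∀ j x, (∀ y, L.l (x.1⁻¹ * y) ≤ c' → τ y ≤ j) → hh j x = 0)

/-- [EGeo] (uses E0, E4, E7, E8, E9) The integral package exists.
Proof. Take `L` (E0), `k` (E7), `M` (E4), `rr, hh` (E8, E9), `c` := a bound for all constants (`k`, the two
constants of the flows, the lengths in the supports of the entries of the five matrices). `esc`:
departure with radius `R`, `i = 0` (`σ x 0 = 1`): if `l (σ x j) ≤ R`, `j < τ x` then `j ≤ t`; so `m = t + 1`.
`dep`: departure with radius `10 (c + 1)` applied to `j ≤ τ x` and `τ x` (`σ x (τ x) = x`). -/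
def St_EGeo : Prop := ∀ (G : Type) [Group G], IsOrientablePD3 G → Combable G → Nonempty (Geo G)

end Pool.Agent.CPD
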