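import Pool.Agent.CPD.LiftDefs

/-!
# Statements, part F : the lifted flows

`M : Geo G`; `u = c + 1`. Cells are `x = (g, i)`, `|x| = M.L.l x.1`. `x → y` stands for
`T x.1 (x.1⁻¹ * y.1)`. `op A` is the lift of the equivariant matrix `A`. Admissible data:
`Adm M T V g0 m`; a cell `x` is Ok if `OkV M V m x.1`.
-/

set_option autoImplicit false

namespace Pool.Agent.CPD

open Matrix

/-- The five matrices of the package. -/
def Five {G : Type} [Group G] (M : Geo G) (A : Matrix M.I M.I (ZG G)) : Prop :=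
  ∀ i j g, (A i j).coeff g ≠ 0 → M.L.l g ≤ M.c

/-- [F0] Elementary facts. (1) `Five` holds for `D, E, Ps, Ph, h` and for the conjugate transposes
`Dᴴ, Eᴴ`. (2) a path with steps of length `≤ 1` moves at most `n` in `n` steps. (3) product law:
`tr` along such a path is `T (p a) ((p a)⁻¹ p (a+n))` if all its points are good for a radius `≥ n`.
(4) `U j x = 1` for `j ≥ τ x`; `(U j x)⁻¹ = T (σ x j) ((σ x j)⁻¹ σ x (j+1)) (U (j+1) x)⁻¹` if
`σ x j` is good. (5) `l (σ x j) ≤ j`. (6) admissible data: `x` is Ok if `|x| > g0 + 3 u`.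
Proof. (1) fields and `star_coeff`, `l g⁻¹ = l g`. (2) triangle inequality. (3) induction on `n`:
`T(p a, p_(a+1)) T(p_(a+1), p_(a+n)) = T(p a, p_(a+n))`, `GoodAt` at `p a`; `n = 0`: `T v 1 = 1` from
`T v 1 * T v 1 = T v 1`. (4) definition of `tr`, for `j ≥ τ x` both sides are `1` (`σ x` constant,
`T v 1 = 1`). (5) from (2) and `start`. (6) `y` within `3 u` of `x` has `|y| > g0`; `σ y j`, `j ≥ m`:
`late` if `j < τ y`, else `σ y j = y`. -/
def St_F0 : Prop := ∀ (G : Type) [Group G] (M : Geo G) (Λ : Type) [Ring Λ] [StarRing Λ]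
  (T : G → G → unitary Λ),
  (Five M M.D ∧ Five M M.E ∧ Five M M.Ps ∧ Five M M.Ph ∧ Five M M.h ∧
    Five M M.Dᴴ ∧ Five M M.Eᴴ) ∧
  (∀ (p : ℕ → G), (∀ i, M.L.l ((p i)⁻¹ * p (i + 1)) ≤ 1) → ∀ a n,
    M.L.l ((p a)⁻¹ * p (a + n)) ≤ n) ∧
  (∀ (p : ℕ → G) (K a n : ℕ), (∀ i, M.L.l ((p i)⁻¹ * p (i + 1)) ≤ 1) → n ≤ K → 1 ≤ K →
    (∀ i, a ≤ i → i ≤ a + n → GoodAt M.L T K (p i)) →
    tr T p a n = T (p a) ((p a)⁻¹ * p (a + n))) ∧
  (∀ j x, M.τ x ≤ j → U M T j x = 1) ∧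
  (∀ j x, GoodAt M.L T M.R0 (M.σ x j) → (U M T j x)⁻¹ =
    T (M.σ x j) ((M.σ x j)⁻¹ * M.σ x (j + 1)) * (U M T (j + 1) x)⁻¹) ∧
  (∀ j x, M.L.l (M.σ x j) ≤ j) ∧
  (∀ (V : Set G) (g0 m : ℕ), Adm M T V g0 m → ∀ x, g0 + 3 * M.u < M.L.l x → OkV M V m x)

/-- [F1] Lifting laws at one good base point.
Proof. Coefficients. (1) at `z`: `∑_y c(y) T(b, b⁻¹y) A(y,z) T(y, y⁻¹z)` and
`T(b,b⁻¹y) T(y,y⁻¹z) = T(b, b⁻¹z)` (`GoodAt` at `b`, `h = b⁻¹ y`, `h' = y⁻¹ z`). (2) at `y`: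
`T(b,b⁻¹b') T(b', b'⁻¹y) = T(b, b⁻¹y)`. (3) `T b 1 * T b 1 = T b 1`. (4) `h' = h⁻¹` and (3). -/
def St_F1 : Prop := ∀ (G : Type) [Group G] (L : Len G) (I : Type) [Fintype I] [DecidableEq I]
  (Λ : Type) [Ring Λ] [StarRing Λ] (T : G → G → unitary Λ) (K : ℕ) (b : G), GoodAt L T K b →
  (∀ (A : Matrix I I (ZG G)) (c : (G × I) →₀ ℤ), (∀ i j g, (A i j).coeff g ≠ 0 → L.l g ≤ K) →
    (∀ y, c y ≠ 0 → L.l (b⁻¹ * y.1) ≤ K) → lo T (row A) (bl T b c) = bl T b (opZ A c)) ∧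
  (∀ (b' : G) (c : (G × I) →₀ ℤ), L.l (b⁻¹ * b') ≤ K → (∀ y, c y ≠ 0 → L.l (b'⁻¹ * y.1) ≤ K) →
    ((T b (b⁻¹ * b') : unitary Λ) : Λ) • bl T b' c = bl T b c) ∧
  T b 1 = 1 ∧ (∀ h, L.l h ≤ K → T (b * h) h⁻¹ = (T b h)⁻¹)

/-- [F2] (uses F0, F1) The ladder.
Proof. Let `Vj(x) = (U j x)⁻¹`. Claim `Vj(x) T(x,x⁻¹y) = T(σ x j, (σ x j)⁻¹ σ y j) Vj(y)`, downward
induction on `j` from `max (τ x) (τ y)`, where both `V` are `1` and `σ x j = x`, `σ y j = y`. Step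
(F0 (4)): `Vj(x) T(x→y) = T(σxj → σx(j+1)) V(j+1)(x) T(x→y) = T(σxj → σx(j+1)) T(σx(j+1) → σy(j+1))
V(j+1)(y) = T(σxj → σy(j+1)) V(j+1)(y) = T(σxj → σyj) T(σyj → σy(j+1)) V(j+1)(y)`; all distances are
`≤ c u + 1 ≤ R0` (`fellow` along a geodesic of length `≤ u`: `L.l ((σ x i)⁻¹ σ y i) ≤ c * l (x⁻¹ y)`,
by induction with `Len.path`). -/
def St_F2 : Prop := ∀ (G : Type) [Group G] (M : Geo G) (Λ : Type) [Ring Λ] [StarRing Λ]
  (T : G → G → unitary Λ) (V : Set G), GoodV M T V →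
  (∀ x y i, M.L.l ((M.σ x i)⁻¹ * M.σ y i) ≤ M.c * M.L.l (x⁻¹ * y)) ∧
  ∀ (x y : G) (j : ℕ), M.L.l (x⁻¹ * y) ≤ M.u → (∀ i, j ≤ i → M.σ x i ∈ V ∧ M.σ y i ∈ V) →
    T x (x⁻¹ * y) * U M T j y = U M T j x * T (M.σ x j) ((M.σ x j)⁻¹ * M.σ y j)

/-- [F3] (uses F0, F1, F2) Calculus at a fixed time `j ≥ m`, for an Ok cell `x`.
Proof. (1) `op A` is `Λ`-linear and F1 (1) at `b = σ x j`, `K = R0`. (2) the left side is
`∑_z A(x,z) T(x→z) U j z • bl (σ z j) (f z)`; by F2 `= U j x • ∑_z A(x,z) T(σxj → σzj) • bl (σ z j) (f z)`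
and F1 (2) at `b = σ x j`, `b' = σ z j` (distance `≤ c c`), `= U j x • ∑_z A(x,z) bl (σ x j) (f z)`.
(`z` within `c` of `x` has all `σ z i ∈ V`, `i ≥ m`.) -/
def St_F3 : Prop := ∀ (G : Type) [Group G] (M : Geo G) (Λ : Type) [Ring Λ] [StarRing Λ]
  (T : G → G → unitary Λ) (V : Set G) (m j : ℕ) (x : G × M.I), GoodV M T V → OkV M V m x.1 →
  m ≤ j → ∀ (A : Matrix M.I M.I (ZG G)) (f : G × M.I → ((G × M.I) →₀ ℤ)), Five M A →
    (∀ z y, f z y ≠ 0 → M.L.l ((M.σ z.1 j)⁻¹ * y.1) ≤ M.c) →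
    op M T A ((U M T j x.1 : Λ) • bl T (M.σ x.1 j) (f x)) =
      (U M T j x.1 : Λ) • bl T (M.σ x.1 j) (opZ A (f x)) ∧
    Finsupp.linearCombination Λ (fun z => (U M T j z.1 : Λ) • bl T (M.σ z.1 j) (f z))
      (op M T A (Finsupp.single x 1)) =
      (U M T j x.1 : Λ) • bl T (M.σ x.1 j) (ext f (row A x))

/-- [F4] (uses F0, F1, F2, F3) The lifted flow identity at Ok cells.
Proof. For `j ≥ m`: `rT (j+1) x - rT j x = D (hT j x) + (hT j)(D x)` (linear extension): by F3 the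
right side is `U j x • bl (σ x j) (D hh_j x + ext hh_j (row D x))`; `rT (j+1) x = U (j+1) x •
bl (σ x (j+1)) (rr (j+1) x)` and `bl (σ x (j+1)) c = T(σx(j+1) → σxj) • bl (σ x j) c` (F1 (2)),
`U (j+1) x T(σx(j+1) → σxj) = U j x` (F0 (4), inverses); then `f_id`. Sum over `m ≤ j < J`, `J` larger
than `JJ` of `x.1` and of all `z.1`, `z` in the support of `row D x`, and than `m`: `hh j z = 0` for
`j ≥ JJ z.1` (`f_hfin`: `l (z⁻¹ y) ≤ c → τ y ≤ JJ z`), so the sums in `Hm` may be extended to `J`; and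
`rT J x = U J x • bl (σ x J) (row E x) = bl x (row E x) = E x` (`f_rfin`, `U J x = 1`, `σ x J = x`). -/
def St_F4 : Prop := ∀ (G : Type) [Group G] (M : Geo G) (Λ : Type) [Ring Λ] [StarRing Λ]
  (T : G → G → unitary Λ) (V : Set G) (m : ℕ) (x : G × M.I), GoodV M T V → OkV M V m x.1 →
  op M T M.E (Finsupp.single x 1) - rm M T m (Finsupp.single x 1) =
    op M T M.D (Hm M T m (Finsupp.single x 1)) + Hm M T m (op M T M.D (Finsupp.single x 1))

/-- [F5] (uses F0, F1, F2, F3) `E` is absorbed by `Hm` and `rm`, at Ok cells.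
Proof. F3 with `A = E` and `f = hh j`, `rr j`, with `f_Eh`, `f_hE`, `f_Er`, `f_rE`; sum over `j` up to a
common bound `J` as in F4. -/
def St_F5 : Prop := ∀ (G : Type) [Group G] (M : Geo G) (Λ : Type) [Ring Λ] [StarRing Λ]
  (T : G → G → unitary Λ) (V : Set G) (m : ℕ) (x : G × M.I), GoodV M T V → OkV M V m x.1 →
  op M T M.E (Hm M T m (Finsupp.single x 1)) = Hm M T m (Finsupp.single x 1) ∧
  Hm M T m (op M T M.E (Finsupp.single x 1)) = Hm M T m (Finsupp.single x 1) ∧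
  op M T M.E (rm M T m (Finsupp.single x 1)) = rm M T m (Finsupp.single x 1) ∧
  rm M T m (op M T M.E (Finsupp.single x 1)) = rm M T m (Finsupp.single x 1)

/-- [F6] (uses F0, F1) Composition of lifts.
Proof. F1 (1) at `b = x.1` and `opZ (A * B) = opZ B ∘ opZ A` (the product of matrices over the group
ring), `opZ A (row B x)`: `op B (op A x) = op B (bl x (row A x)) = bl x (opZ B (row A x)) =
bl x (row (A * B) x)`. Additivity: `row (A + B) x = row A x + row B x`, `bl_add`. Second form for chains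
supported in `V × I` by linearity. -/
def St_F6 : Prop := ∀ (G : Type) [Group G] (M : Geo G) (Λ : Type) [Ring Λ] [StarRing Λ]
  (T : G → G → unitary Λ) (V : Set G), GoodV M T V →
  (∀ (A B : Matrix M.I M.I (ZG G)) (a : Ch M Λ), Five M A → Five M B →
    (∀ x, a x ≠ 0 → x.1 ∈ V) → op M T B (op M T A a) = op M T (A * B) a) ∧
  (∀ (A B : Matrix M.I M.I (ZG G)) (a : Ch M Λ), op M T (A + B) a = op M T A a + op M T B a ∧
    op M T (A - B) a = op M T A a - op M T B a) ∧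
  (∀ a : Ch M Λ, op M T 0 a = 0)

/-- [F7] Supports and degrees.
Proof. Definitions (`row_apply`, `bl_apply`, `f_rsup`, `f_rdeg`). The last clause: for each of the
finitely many cells `x` with `|x| ≤ n`, only the `j < JJ x.1` have `hh j x ≠ 0` (`f_hfin`), and each
`hh j x`, `rr j x` (`j ≤ JJ x.1`, `rr j x = row E x` afterwards) has finite support. -/
def St_F7 : Prop := ∀ (G : Type) [Group G] (M : Geo G) (Λ : Type) [Ring Λ] [StarRing Λ]
  (T : G → G → unitary Λ) (m : ℕ),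
  (∀ (A : Matrix M.I M.I (ZG G)) (x y : G × M.I), op M T A (Finsupp.single x 1) y ≠ 0 →
    (A x.2 y.2).coeff (x.1⁻¹ * y.1) ≠ 0) ∧
  (∀ (A : Matrix M.I M.I (ZG G)) (x y : G × M.I), op M T A (Finsupp.single x 1) y =
    (((A x.2 y.2).coeff (x.1⁻¹ * y.1) : ℤ) : Λ) * (T x.1 (x.1⁻¹ * y.1) : Λ)) ∧
  (∀ x y : G × M.I, rm M T m (Finsupp.single x 1) y ≠ 0 →
    M.L.l ((M.σ x.1 m)⁻¹ * y.1) ≤ M.c ∧ M.deg y.2 = M.deg x.2) ∧
  (∀ x y : G × M.I, Hm M T m (Finsupp.single x 1) y ≠ 0 → ∃ j, m ≤ j ∧ M.hh j x y ≠ 0 ∧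
    M.L.l ((M.σ x.1 j)⁻¹ * y.1) ≤ M.c ∧ M.deg y.2 = M.deg x.2 + 1) ∧
  (∀ n : ℕ, ∃ n' : ℕ, ∀ (x y : G × M.I) (j : ℕ), M.L.l x.1 ≤ n →
    (M.hh j x y ≠ 0 ∨ M.rr j x y ≠ 0) → M.L.l y.1 ≤ n')

/-- [F8] (uses F0, F1) Entries of `Hm` near the diagonal.
Proof. `Hm x y = ∑_{m ≤ j < JJ} U j x * hh j x y * T(σxj → y)`. If `hh j x y ≠ 0` then
`l ((σ x j)⁻¹ x) ≤ c + 8 u ≤ 10 (c + 1)`, so `j ≥ τ x` or `τ x - j ≤ t0` (`dep`). In the second case
`(U j x)⁻¹ = tr T (σ x) j (τ x - j) = T(σxj → x)` by F0 (3) (`K = R0`, all `σ x i`, `i ≥ j ≥ m`, are in `V`;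
`σ x (τ x) = x`), also in the first case (both `1`, `σ x j = x`). `T(σxj → x) T(x → y) = T(σxj → y)`
(good at `σ x j`, radius `R0`), so `U j x * T(σxj → y) = T(x → y)`. Sum: `(∑ hh j x y) T(x → y)`, and
the integer is the value for the trivial system with `Λ = ℤ` (`U = 1`, `T = 1`). -/
def St_F8 : Prop := ∀ (G : Type) [Group G] (M : Geo G) (Λ : Type) [Ring Λ] [StarRing Λ]
  (T : G → G → unitary Λ) (V : Set G) (m : ℕ) (x y : G × M.I), GoodV M T V → OkV M V m x.1 →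
  M.L.l (x.1⁻¹ * y.1) ≤ 8 * M.u →
  Hm M T m (Finsupp.single x 1) y =
    ((Hm M (triv G ℤ) m (Finsupp.single x 1) y : ℤ) : Λ) * (T x.1 (x.1⁻¹ * y.1) : Λ)

/-- [F9] (uses F1) Transposition law.
Proof. The left side is `∑_y A(x,y) T(x→y) star (ξ y)`, the right side
`star (∑_y ξ y * A(x,y) * T(y→x)) = ∑_y star (T(y→x)) A(x,y) star (ξ y)` (`row Aᴴ y x = row A x y` by
`star_coeff`), and `star (T(y→x)) = T(y→x)⁻¹ = T(x→y)` by F1 (4) at `b = y`, `h = y⁻¹ x`, for the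
`y` with `A(x,y) ≠ 0` and `ξ y ≠ 0`, which are in `V`. -/
def St_F9 : Prop := ∀ (G : Type) [Group G] (M : Geo G) (Λ : Type) [Ring Λ] [StarRing Λ]
  (T : G → G → unitary Λ) (V : Set G) (A : Matrix M.I M.I (ZG G)) (ξ : Ch M Λ) (x : G × M.I),
  GoodV M T V → Five M A → (∀ y, ξ y ≠ 0 → M.L.l (x.1⁻¹ * y.1) ≤ M.c → y.1 ∈ V) →
  pair (op M T A (Finsupp.single x 1)) (fun y => star (ξ y)) = star (op M T Aᴴ ξ x)

/-- [F10a] (uses F0, F4, F6, F7, F9) The transposed flow identity, for chains which are far away.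
Proof. Let `N2` be larger than `m + 5 u`, `g0 + 20 u` and than all `|y|` with `hh j z y ≠ 0`, `j` any,
`|z| ≤ g0 + 10 u` (F7). Let `b` be supported in `|y| > N2 + u`, so `op Dᴴ b`, `op Eᴴ b` are supported in
`|y| > N2`. (1) `tH b z = ∑ b y * star (Hm z y) = 0` for `|z| ≤ g0 + 10 u`, and the same for `op Dᴴ b`.
(2) `z` with `|z| > g0 + 3 u` is Ok (F0 (6)); F4 at `z`: `E z - r z = D H z + H D z`. Evaluate at `y`, apply
`star`, multiply by `b y` from the left and sum over `y`. Terms: `∑ b y star ((E z) y) =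
star (pair (E z) (star ∘ b)) = (op Eᴴ b) z` (F9; `star` of `pair`: `star (∑ (E z) y * star (b y)) =
∑ b y * star ((E z) y)`). `(r z) y ≠ 0` implies `|y| ≤ m + c`: `0`. `(D H z) y = ∑_v (H z) v * (D v) y`:
`∑_y b y star ((D v) y) = (op Dᴴ b) v` by F9, so the term is `∑_v (op Dᴴ b) v star ((H z) v) =
tH (op Dᴴ b) z`. `(H D z) y = ∑_v (D z) v (H v) y`: `∑_v [∑_y b y star ((H v) y)] star ((D z) v) =
∑_v (tH b v) star ((D z) v)`; the `v` are within `c` of `z`, `|v| ≤ Q`, so `tH b v = trunc Q (tH b) v`,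
and by F9 (for the chain `trunc Q (tH b)`, supported in `|v| > g0 + 10 u`, in `V`) it is
`op Dᴴ (trunc Q (tH b)) z`. (3) `z` with `|z| ≤ g0 + 3 u`: all terms are `0`: `(op Eᴴ b) z = 0` as
`N2` is large, and (1) for `z` and the `v` within `c` of `z`. -/
def St_F10a : Prop := ∀ (G : Type) [Group G] (M : Geo G) (Λ : Type) [Ring Λ] [StarRing Λ]
  (T : G → G → unitary Λ) (V : Set G) (g0 m : ℕ), Adm M T V g0 m → ∃ N2 : ℕ,
  ∀ b : Ch M Λ, (∀ y, b y ≠ 0 → N2 < M.L.l y.1) →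
    (∀ z : G × M.I, M.L.l z.1 ≤ g0 + 10 * M.u → tH M T m b z = 0) ∧
    (∀ (Q : ℕ) (z : G × M.I), M.L.l z.1 + M.c ≤ Q →
      op M T M.Eᴴ b z = tH M T m (op M T M.Dᴴ b) z + op M T M.Dᴴ (trunc M Q (tH M T m b)) z)

/-- [F10b] (uses F0, F6, F7, F10a) The outward flow.
Proof. `N1 := N2 + 5 u + g0`. For `|x| > N1` put `b = op Ps x = bl x (row Ps x)`, supported in
`|y| > N2 + u`. `Ho` is linear and for any chain `a`: `Ho a = op Ph (trunc Q (tH (op Ps a))) - op h a`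
(check on cells; `tH`, `trunc` are additive and left linear in the chain). `op Ps (op D x) =
op (D Ps) x = op (Ps Dᴴ) x = op Dᴴ b` (F6, `x ∈ V`). So `Ho (D x) = op Ph (trunc Q (tH (op Dᴴ b))) -
op (D h) x`. `op D (Ho x) = op D (op Ph ξ) - op (h D) x`, `ξ = trunc Q (tH b)` supported in `V`
(F10a (1)), `op D (op Ph ξ) = op (Ph D) ξ = op (Dᴴ Ph) ξ = op Ph (op Dᴴ ξ)`. Sum:
`D Ho x + Ho D x = op Ph (trunc Q (tH (op Dᴴ b)) + op Dᴴ ξ) - op (h D + D h) x`. By F10a the bracket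
agrees with `op Eᴴ b` at all `z` with `|z| ≤ Q - c` (so `trunc Q` is the identity there), and
`op Eᴴ b = op (Ps Eᴴ) x = b` is supported in `|z| ≤ |x| + c ≤ Q - c`; so the bracket is `b + err` with
`err` supported in `|z| + c > Q`. `op Ph b = op (Ps Ph) x`, `op (h D + D h) x = op (Ps Ph - E) x`. So
`E x - D Ho x - Ho D x = - op Ph err`, supported in `|y| + 2 c > Q`. -/
def St_F10b : Prop := ∀ (G : Type) [Group G] (M : Geo G) (Λ : Type) [Ring Λ] [StarRing Λ]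
  (T : G → G → unitary Λ) (V : Set G) (g0 m : ℕ), Adm M T V g0 m → ∃ N1 : ℕ,
  ∀ (Q : ℕ) (x y : G × M.I), N1 < M.L.l x.1 → M.L.l x.1 + 10 * M.u ≤ Q →
    (op M T M.E (Finsupp.single x 1) - op M T M.D (Ho M T m Q (Finsupp.single x 1)) -
      Ho M T m Q (op M T M.D (Finsupp.single x 1))) y ≠ 0 → Q < M.L.l y.1 + 4 * M.u

/-- [F11] (uses F7) The outward flow does not come back, and raises the degree by one.
Proof. `Ho x y ≠ 0`: either `y` within `c` of `x` (the `h` part), or there are `a` within `c` of `x`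
(`Ps`), `z` with `hh j z a ≠ 0`, and `y` within `c` of `z` (`Ph`). Given `R` let `n'` be the bound of F7 for
`n = R + u`, `R' := n' + R + 2 u`: if `|y| ≤ R` then `|z| ≤ R + c`, `|a| ≤ n'`, `|x| ≤ n' + c ≤ R'`.
Degrees: `deg a = 3 - deg x`, `deg a = deg z + 1`, `deg y = 3 - deg z`, so `deg y = deg x + 1`
(`Ps_deg`, `f_hdeg`, `Ph_deg`, all degrees `≤ 3`). -/
def St_F11 : Prop := ∀ (G : Type) [Group G] (M : Geo G) (Λ : Type) [Ring Λ] [StarRing Λ]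
  (T : G → G → unitary Λ) (m : ℕ),
  (∀ R : ℕ, ∃ R' : ℕ, ∀ (Q : ℕ) (x y : G × M.I), R' < M.L.l x.1 →
    Ho M T m Q (Finsupp.single x 1) y ≠ 0 → R < M.L.l y.1) ∧
  (∀ (Q : ℕ) (x y : G × M.I), Ho M T m Q (Finsupp.single x 1) y ≠ 0 →
    M.deg y.2 = M.deg x.2 + 1)

/-- [F12] (uses F6, F10a) `E` is absorbed by the outward flow, far away.
Proof. `Ho a = op Ph (trunc Q (tH (op Ps a))) - op h a`. For `a = op E x`: `op Ps (op E x) =
op (E Ps) x = op Ps x`, `op h (op E x) = op (E h) x = op h x`. `op E (op Ph ξ) = op (Ph E) ξ = op Ph ξ` for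
`ξ = trunc Q (tH b)` supported in `V` (F10a (1), `b = op Ps x` far away), `op E (op h x) = op (h E) x`. -/
def St_F12 : Prop := ∀ (G : Type) [Group G] (M : Geo G) (Λ : Type) [Ring Λ] [StarRing Λ]
  (T : G → G → unitary Λ) (V : Set G) (g0 m : ℕ), Adm M T V g0 m → ∃ N1 : ℕ,
  ∀ (Q : ℕ) (x : G × M.I), N1 < M.L.l x.1 →
    op M T M.E (Ho M T m Q (Finsupp.single x 1)) = Ho M T m Q (Finsupp.single x 1) ∧
    Ho M T m Q (op M T M.E (Finsupp.single x 1)) = Ho M T m Q (Finsupp.single x 1)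

/-- [F13] (uses F0, F1, F7, F8, F10a) Entries of the outward flow near the diagonal.
Proof. `Ho x y = ∑_z [|z| ≤ Q] (∑_a Ps(x,a) T(x→a) star (Hm z a)) Ph(z,y) T(z→y) - h(x,y) T(x→y)`,
`a` within `c` of `x`, `z` within `c` of `y`, so `a` within `4 u` of `z`. Far away (`|x|` large) all of
them are in `V` and Ok. F8: `Hm z a = n(z,a) T(z→a)`, `star` of it is `n(z,a) T(a→z)` (F1 (4)), and
`T(x→a) T(a→z) T(z→y) = T(x→y)` (goodness, `R0 ≥ 10 u²`). So `Ho x y` is an integer times `T(x→y)`; the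
integer is the same expression for the trivial system over `ℤ`. -/
def St_F13 : Prop := ∀ (G : Type) [Group G] (M : Geo G) (Λ : Type) [Ring Λ] [StarRing Λ]
  (T : G → G → unitary Λ) (V : Set G) (g0 m : ℕ), Adm M T V g0 m → ∃ N1 : ℕ,
  ∀ (Q : ℕ) (x y : G × M.I), N1 < M.L.l x.1 → M.L.l (x.1⁻¹ * y.1) ≤ 2 * M.u →
    Ho M T m Q (Finsupp.single x 1) y =
      ((Ho M (triv G ℤ) m Q (Finsupp.single x 1) y : ℤ) : Λ) * (T x.1 (x.1⁻¹ * y.1) : Λ)

/-- [F14] (uses F1, F7, F8, F13) Trace locality: the diagonal entries of `ka` are the integers of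
the trivial system.
Proof. `th x y` for `l (x⁻¹ y) ≤ u`: `∑_a E(x,a) T(x→a) ([|a| ≤ n' + u] Hm a y + [N' ≤ |a| + u] Ho a y)`,
`a` within `c` of `x`, `y` within `2 u` of `a`; F8 (cells `a` Ok) and F13 (`|a| ≥ N' - u > N1`) and
`T(x→a) T(a→y) = T(x→y)` give `th x y = (integer of the trivial system) T(x→y)`. Then `ka x x =
E(x,x) T(x,1) - ∑_y th x y D(y,x) T(y→x) - ∑_y D(x,y) T(x→y) th y x` with `T(x→y) T(y→x) = T x 1 = 1`.
(`y` within `c` of `x`; the hypothesis makes all cells within `2 u` Ok, in particular in `V`.) -/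
def St_F14 : Prop := ∀ (G : Type) [Group G] (M : Geo G) (Λ : Type) [Ring Λ] [StarRing Λ]
  (T : G → G → unitary Λ) (V : Set G) (g0 m : ℕ), Adm M T V g0 m → ∃ N1 : ℕ,
  ∀ (n' N' Q : ℕ) (x : G × M.I), N1 ≤ N' → (∀ y, M.L.l (x.1⁻¹ * y) ≤ 2 * M.u → OkV M V m y) →
    ka M T m n' N' Q (Finsupp.single x 1) x =
      ((ka M (triv G ℤ) m n' N' Q (Finsupp.single x 1) x : ℤ) : Λ)

end Pool.Agent.CPD
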