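import Pool.Agent.CPD.ZoneDefs

/-!
# Statements, part Z : algebra of the zone

`A : Zone Λ`, `D, E, H, r, θ` its operators, `κ = E - D θ - θ D`, `p` the projection to the zone,
`k = p κ`. A chain is called good of level `s` if all cells of its support have level `≥ s`. All
operators lower the level by at most one; so `κ` lowers it by at most two.
-/

set_option autoImplicit false

namespace Pool.Agent.CPD

open Matrix

/-- [Z0] Propagation of supports and of identities.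
Proof. A chain is the finite sum `∑ c x • single x 1`; a value of the image at `y` is nonzero only
if some term is. Third clause: levels. Fourth: `p c` and `c - p c`. -/
def St_Z0 : Prop := ∀ (Λ X : Type) [Ring Λ],
  (∀ (F : (X →₀ Λ) →ₗ[Λ] (X →₀ Λ)) (P Q : X → Prop),
    (∀ x, P x → ∀ y, F (Finsupp.single x 1) y ≠ 0 → Q y) →
    ∀ c : X →₀ Λ, (∀ x, c x ≠ 0 → P x) → ∀ y, F c y ≠ 0 → Q y) ∧
  (∀ (F F' : (X →₀ Λ) →ₗ[Λ] (X →₀ Λ)) (P : X → Prop),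
    (∀ x, P x → F (Finsupp.single x 1) = F' (Finsupp.single x 1)) →
    ∀ c : X →₀ Λ, (∀ x, c x ≠ 0 → P x) → F c = F' c) ∧
  (∀ (S : Set X) (c : X →₀ Λ), (∀ x, c x ≠ 0 → x ∈ S) → cut S c = c) ∧
  (∀ (S : Set X) (c : X →₀ Λ), (∀ x, c x ≠ 0 → x ∉ S) → cut S c = 0) ∧
  (∀ (F : (X →₀ Λ) →ₗ[Λ] (X →₀ Λ)) (f : X → Λ) (c : X →₀ Λ),
    pair (F c) f = pair c (fun x => pair (F (Finsupp.single x 1)) f)) ∧
  (∀ (f : X → Λ) (c c' : X →₀ Λ) (a : Λ), pair (c + c') f = pair c f + pair c' f ∧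
    pair (a • c) f = a * pair c f)

/-- [Z1] (uses Z0) Behaviour of `κ` on good chains.
Proof. All identities of `Zone` hold on cells of level `≥ 5`, so on chains of level `≥ 5`; below, for
a chain of level `≥ 8`, they are used on chains of level `≥ 6`.
(1) `κ E = E E - D θ E - θ D E = E - D θ - θ D = κ` and `E κ = κ` (`E D θ = D θ`, `E θ D = θ D`).
(2) `κ D = E D - D θ D - θ D D = D - D θ D = D E - D D θ - D θ D = D κ`.
(3) on `B'`: `θ = H` on `x` and on `D x ∈ B'`, so `κ x = E x - D H x - H D x = r x`, supported in `B`.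
(4) on `Z'`: `κ x` is supported in `Z` (`κ_Z'`). (5) `c - p c` is supported in `B ∪ Z` (split it:
`cut B`, `cut Z`), so `p κ (c - p c) = 0` by (3), (4). (6) `D (c - p c)` is supported in `B ∪ Z`.
(7) `κ κ c = κ E c - κ D θ c - κ θ D c = κ c - D κ θ c - κ θ D c` by (1), (2) (`θ c` has level `≥ 9`). -/
def St_Z1 : Prop := ∀ (Λ : Type) [Ring Λ] (A : Zone Λ),
  (∀ c : A.X →₀ Λ, (∀ x, c x ≠ 0 → 8 ≤ A.lev x) →
    A.κ (A.E c) = A.κ c ∧ A.E (A.κ c) = A.κ c ∧ A.κ (A.D c) = A.D (A.κ c)) ∧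
  (∀ c : A.X →₀ Λ, (∀ x, c x ≠ 0 → 10 ≤ A.lev x) →
    A.κ (A.κ c) = A.κ c - A.D (A.κ (A.θ c)) - A.κ (A.θ (A.D c))) ∧
  (∀ c : A.X →₀ Λ, (∀ x, c x ≠ 0 → 8 ≤ A.lev x ∧ x ∈ A.B') → ∀ y, A.κ c y ≠ 0 → y ∈ A.B) ∧
  (∀ c : A.X →₀ Λ, (∀ x, c x ≠ 0 → x ∈ A.Z') → ∀ y, A.κ c y ≠ 0 → y ∈ A.Z) ∧
  (∀ c : A.X →₀ Λ, (∀ x, c x ≠ 0 → 8 ≤ A.lev x) → A.p (A.κ c) = A.p (A.κ (A.p c))) ∧
  (∀ c : A.X →₀ Λ, A.p (A.D c) = A.p (A.D (A.p c)))

/-- [Z2] (uses Z0, Z1) `k = p κ` is a chain map of the zone, homotopic to its square.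
Proof. `c` supported in the zone (so good of level `≥ 20`). `p D p κ c = p D κ c` (Z1, last) `= p κ D c
= p κ p D c` (Z1, last but one; `D c` is good). `p D p D c = p D D c = 0`. `k k c = p κ p κ c = p κ κ c =
p κ c - p D κ θ c - p κ θ D c = k c - p D (p κ θ c) - p κ θ D c`, and `p κ θ D c = p κ θ (p D c)`: `D c - p D c`
is supported in `B ∪ Z` and good; on `B` (good): `θ` is `H` and maps into `B'` (`θ_B'`, `H_B`), then `κ` maps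
into `B` (Z1); on `Z`: `θ` maps into `Z'` and `κ` into `Z`; so `p κ θ` kills it. -/
def St_Z2 : Prop := ∀ (Λ : Type) [Ring Λ] (A : Zone Λ) (c : A.X →₀ Λ),
  (∀ x, c x ≠ 0 → x ∈ A.Ws) →
  A.p (A.D (A.p (A.D c))) = 0 ∧
  A.p (A.D (A.p (A.κ c))) = A.p (A.κ (A.p (A.D c))) ∧
  A.p (A.κ (A.p (A.κ c))) = A.p (A.κ c) - A.p (A.D (A.p (A.κ (A.θ c)))) -
    A.p (A.κ (A.θ (A.p (A.D c))))

/-- [Z3] (uses Z0, Z1, Z2) The computations (5.3), (5.4), (5.5).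
Proof. (5.3) `c` in the zone, `D c = 0` (degree `0`): `p κ c = p κ E c`, `E c = D H c + H D c + r c =
D H c + r c`, `r c` supported in `B` and good, so `p κ r c = 0`; `p κ D H c = p D κ H c = p D (p κ p H c)`.
(5.4) `c` in the zone with `p D c = 0`: `D c = u_B + u_Z`, `u_B = cut B (D c)`, `u_Z = cut Z (D c)`.
`p κ c = p E c - p D θ c - p θ u_B - p θ u_Z`, `θ u_B = H u_B`. Apply `p κ`: `p κ p E c = p κ E c` and
`E c = D H c + H u_B + H u_Z + r c` so it is `p κ D H c + p κ H u_B + p κ H u_Z + 0`; `p κ p θ u_B =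
p κ H u_B` cancels; `p κ p θ u_Z = p κ θ u_Z = 0` (`θ u_Z` in `Z'`, `κ` maps it to `Z`); `p κ p D θ c =
p κ D θ c = p D κ θ c`. So `k k c = k (p H u_Z) + p D (p κ H c - p κ θ c)`. And `k c = k k c + p D (p κ θ c)`
by Z2 (`p D c = 0`).
(5.5) `e` supported in `Z'`: `H D e = E e - r e - D H e`; `p κ p H D e = p κ H D e = p κ E e - p κ r e - p κ D H e =
p κ e - 0 - p D κ H e`, `p κ e = 0` (Z1). -/
def St_Z3 : Prop := ∀ (Λ : Type) [Ring Λ] (A : Zone Λ),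
  (∀ c : A.X →₀ Λ, (∀ x, c x ≠ 0 → x ∈ A.Ws ∧ A.deg x = 0) →
    A.p (A.κ c) = A.p (A.D (A.p (A.κ (A.p (A.H c)))))) ∧
  (∀ c : A.X →₀ Λ, (∀ x, c x ≠ 0 → x ∈ A.Ws) → A.p (A.D c) = 0 →
    A.p (A.κ c) = A.p (A.κ (A.p (A.H (cut A.Z (A.D c))))) +
      A.p (A.D (A.p (A.κ (A.H c))))) ∧
  (∀ e : A.X →₀ Λ, (∀ x, e x ≠ 0 → x ∈ A.Z') →
    A.p (A.κ (A.p (A.H (A.D e)))) = - A.p (A.D (A.p (A.κ (A.p (A.H e))))))

/-- [Z4] (uses Z0) Matrices and chains.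
Proof. Coordinates. `inc v` is the chain `∑ v x • x`; `res (F (inc v)) = v ᵥ* mat F` by linearity;
`res c = res (p c)`, `inc (res c) = p c`; `(mat F *ᵥ f) x = pair (p (F x)) f` for `f` extended by zero. -/
def St_Z4 : Prop := ∀ (Λ : Type) [Ring Λ] (A : Zone Λ),
  (∀ (F : (A.X →₀ Λ) →ₗ[Λ] (A.X →₀ Λ)) (v : A.W → Λ), A.res (F (A.inc v)) = v ᵥ* A.mat F) ∧
  (∀ v : A.W → Λ, A.res (A.inc v) = v) ∧
  (∀ c : A.X →₀ Λ, A.inc (A.res c) = A.p c) ∧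
  (∀ c : A.X →₀ Λ, A.res (A.p c) = A.res c) ∧
  (∀ (v : A.W → Λ) (x : A.X), A.inc v x ≠ 0 → x ∈ A.Ws) ∧
  (∀ (v : A.W → Λ) (n : ℕ), Hg A.degW n v → ∀ x, A.inc v x ≠ 0 → A.deg x = n) ∧
  (∀ (F : (A.X →₀ Λ) →ₗ[Λ] (A.X →₀ Λ)) (f : A.X → Λ), (∀ x, f x ≠ 0 → x ∈ A.Ws) →
    ∀ x : A.W, (A.mat F *ᵥ (fun y : A.W => f y.1)) x = pair (F (Finsupp.single x.1 1)) f) ∧
  (∀ F F' : (A.X →₀ Λ) →ₗ[Λ] (A.X →₀ Λ), A.mat (F ∘ₗ A.p ∘ₗ F') = A.mat F' * A.mat F) ∧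
  (∀ F F' : (A.X →₀ Λ) →ₗ[Λ] (A.X →₀ Λ), A.mat (F + F') = A.mat F + A.mat F')

/-- [Z5] (uses Z0, Z2, Z4) The matrices `d = mat D`, `k = mat κ` of the zone.
Proof. Z2 on single cells of the zone, in matrix form: `mat (F ∘ p ∘ F') = mat F' * mat F`. The
homotopy is `- mat (κ ∘ θ)`: `k k - k = - (mat(κθ) d + d mat(κθ))` (row convention: `D (p κ θ c)` is
`mat (κ ∘ θ) * mat D`). Degrees from `deg_D`, `deg_E`, `deg_θ`. -/
def St_Z5 : Prop := ∀ (Λ : Type) [Ring Λ] (A : Zone Λ),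
  (∀ x, A.degW x ≤ 3) ∧ Dn A.degW (A.mat A.D) ∧ A.mat A.D * A.mat A.D = 0 ∧
  Zr A.degW (A.mat A.κ) ∧ A.mat A.D * A.mat A.κ = A.mat A.κ * A.mat A.D ∧
  NullH A.degW (A.mat A.D) (A.mat A.κ * A.mat A.κ - A.mat A.κ)

/-- [Z6] (uses Z0, Z3, Z4) Degree zero: the hypothesis (a) of Lemma K.
Proof. Z3 (5.3) for `c = inc x`. -/
def St_Z6 : Prop := ∀ (Λ : Type) [Ring Λ] (A : Zone Λ) (x : A.W → Λ), Hg A.degW 0 x →
  ∃ y : A.W → Λ, x ᵥ* A.mat A.κ = y ᵥ* A.mat A.D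

/-- [Z7] (uses Z0, Z1, Z2, Z3, Z4) `H₁` is cyclic: the hypothesis (b) of Lemma K, with
`z = res (κ (p (H v0)))`.
Proof. `c0 := p H v0`, degree `1`. `p D c0 = p D H v0 = p (E v0 - r v0 - H D v0) = p v0 = 0` (`D v0 = 0` in
degree `0`; `v0` is supported in `Z`, `r v0` in `B`). `z = res (k c0)`: a cycle (`p D k c0 = k p D c0 = 0`).
`k k c0 = k c0 - p D (..)` (Z2 with `p D c0 = 0`), apply `k` once more (chain map) to see
`k z - z` is a boundary. For a cycle `x` of degree `1`, `c = inc x`, `p D c = 0`: Z3 (5.4):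
`k c = k (p H u) + p D (..)`, `u = cut Z (D c)` of degree `0` in `Z`. By `Cyc1`: `E u = a v0 + D e`, `e` in
`Z'`. `H u = H E u` (`HE`, good) `= a H v0 + H D e`, `k (p H u) = a z + k p H D e = a z - p D (..)` (5.5). -/
def St_Z7 : Prop := ∀ (Λ : Type) [Ring Λ] (A : Zone Λ) (v0 : A.X →₀ Λ), A.Cyc1 v0 →
  Hg A.degW 1 (A.res (A.κ (A.p (A.H v0)))) ∧
  A.res (A.κ (A.p (A.H v0))) ᵥ* A.mat A.D = 0 ∧
  (∃ y : A.W → Λ, A.res (A.κ (A.p (A.H v0))) ᵥ* A.mat A.κ =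
    A.res (A.κ (A.p (A.H v0))) + y ᵥ* A.mat A.D) ∧
  ∀ x : A.W → Λ, Hg A.degW 1 x → x ᵥ* A.mat A.D = 0 → ∃ (a : Λ) (y : A.W → Λ),
    x ᵥ* A.mat A.κ = a • A.res (A.κ (A.p (A.H v0))) + y ᵥ* A.mat A.D

/-- [Z8] (uses Z0, Z1, Z2, Z4, Z5) `H³` is cyclic: the hypothesis (c) of Lemma K, with
`yv = k b0`.
Proof. `yv x = pair (κ x) b0 = (mat κ *ᵥ b0) x`. `k yv - yv = (k k - k) b0 = -(e d + d e) b0`, `e` the
homotopy of Z5; `d b0 = 0` (column vectors: `d x y ≠ 0`, `deg y = 3` needs `deg x = 4`), so it is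
`d (- e b0)`. Let `u` be a column vector of degree `3`, extended by zero to `A.X`, and
`ν x := pair (κ x) u` if `deg x = 3`, `x ∉ B'`, `x ∉ Z'`, else `0`. Claim: for `lev x ≥ 8`,
`deg x = 3`: `ν x = pair (κ x) u` also for `x ∈ B' ∪ Z'` (both sides are `0`: Z1 (3), (4), `u` is
supported in the zone). So for `lev x ≥ 10`, `pair (E x) ν = pair (κ E x) u` (`E x` has level `≥ 9`)
`= pair (κ x) u = ν x` (other degrees: both sides vanish). `Cyc3` gives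
`b, f`. For a cell `x` of the zone, `(k k u) x = pair (k k x) u = pair (κ (p κ x)) u = pair (p κ x) ν`
(cells of the zone, degree `3`) `= pair (p κ x) b0 * b + pair (D (p κ x)) f = yv x * b + pair (p D p κ x) f =
yv x * b + pair (p κ p D x) f = yv x * b + (d (k f)) x`. So `k k u = yv b + d (k f)`, and
`k u - k k u = (e d + d e) u = d (e u)`. -/
def St_Z8 : Prop := ∀ (Λ : Type) [Ring Λ] (A : Zone Λ) (b0 : A.X → Λ), A.Cyc3 b0 →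
  Hg A.degW 3 (A.mat A.κ *ᵥ (fun y : A.W => b0 y.1)) ∧
  (∃ v : A.W → Λ, A.mat A.κ *ᵥ (A.mat A.κ *ᵥ (fun y : A.W => b0 y.1)) =
    A.mat A.κ *ᵥ (fun y : A.W => b0 y.1) + A.mat A.D *ᵥ v) ∧
  ∀ u : A.W → Λ, Hg A.degW 3 u → ∃ (b : Λ) (v : A.W → Λ), A.mat A.κ *ᵥ u =
    (fun x => (A.mat A.κ *ᵥ (fun y : A.W => b0 y.1)) x * b) + A.mat A.D *ᵥ v

/-- [Z9] (uses Z5, Z6, Z7, Z8 and LK of part A) The conclusion about the zone: the class of `b0`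
is free. If `b0 λ` is a coboundary of the zone then `λ = 0`.
Proof. Lemma K with `d = mat D`, `k = mat κ`, `z`, `yv = k b0` gives `o` with `o d = 0`, `o ⬝ yv = 1`.
`b0 λ = d f` on the zone (hypothesis), so `yv λ = k (b0 λ) = k d f = d (k f)`, and
`λ = (o ⬝ yv) λ = o ⬝ (d (k f)) = (o d) ⬝ (k f) = 0`. -/
def St_Z9 : Prop := ∀ (Λ : Type) [Ring Λ] (A : Zone Λ) (t : Λ →+ ℤ) (v0 : A.X →₀ Λ)
  (b0 : A.X → Λ),
  (∀ a b, t (a * b) = t (b * a)) → t 1 = 1 →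
  (∀ (n : Type) [Fintype n] [DecidableEq n] (q : Matrix n n Λ), q * q = q →
    ∑ i, t (q i i) = 0 → q = 0) →
  A.Cyc1 v0 → A.Cyc3 b0 → str t A.degW (A.mat A.κ) = -2 →
  ∀ (l : Λ) (f : A.X → Λ), (∀ x, f x ≠ 0 → x ∈ A.Ws) →
    (∀ x ∈ A.Ws, b0 x * l = pair (A.D (Finsupp.single x 1)) f) → l = 0

/-- [Z10] (uses Z0 - Z8 and EU of part A) The Euler number of the zone over `ℚ`.
All cells have level `≥ 20`. `ε` is an augmentation, `v0` has augmentation `1`, `Om` is a truncated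
fundamental class, and cycles of degree `1` in `Z` bound in `Z'`.

Proof. Apply EU with `d = mat D`, `k = mat κ`, `z = res (κ (p (H v0)))`, `yv = k b0`,
`φ x := pair (cut Z (D x)) ε` (for `deg x = 1`, else `0`) and `Om' = res Om`. Verify its hypotheses:
(Z5, Z6, Z7, Z8) and:
(φ1) for every finite chain `c` of degree `1`: `φ (p c) := ∑ (p c)(x) φ x = pair (cut Z (D c)) ε`:
`D c = D p c + D (cut B c) + D (cut Z c)`, `D (cut B c)` is in `B`, `D (cut Z c)` in `Z` with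
augmentation `0`. (φ2) `d φ = 0`: for `c = D x`, `x` of degree `2` in the zone: `φ (p D x) =
pair (cut Z (D D x)) ε = 0`. (φ3) `φ (k x) = φ x` for cycles `x` of the zone, degree `1`: `p D x = 0`,
`D x = u_B + u_Z`; `E D x = D x` gives `E u_B - u_B = u_Z - E u_Z`, supported in `B'` and in `Z'`, so both
sides vanish: `E u_B = u_B`, `E u_Z = u_Z`. `κ x = E x - D θ x - H u_B - θ u_Z`; `φ (p E x) =
pair (cut Z (D E x)) ε = φ x`; `φ (p D θ x) = 0`; `φ (p H u_B) = pair (cut Z (D H u_B)) ε`,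
`D H u_B = E u_B - r u_B - H D u_B = u_B - r u_B` (degree `0`), in `B`: `0`; `φ (p θ u_Z) =
pair (cut Z (D θ u_Z)) ε`, `D θ u_Z = E u_Z - κ u_Z - θ D u_Z = u_Z - κ u_Z`, in `Z`, augmentation of
`D θ u_Z` is `0`: so `0`. (φ4) `φ (p H v0) = pair (cut Z (D H v0)) ε = pair (cut Z (v0 - r v0)) ε =
pair v0 ε = 1`, and `z = k (p H v0)`, so `z ⬝ φ = φ (k p H v0) = 1` by (φ3) (`p D p H v0 = 0`, see Z7).
(Om) `p Om`: `p D p Om = p D Om = 0` (`D Om` in `Z`). `p κ p Om = p κ Om = p (E Om - D θ Om - θ D Om)`,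
`θ Om = 0` (degree `4`), `θ D Om` in `Z` (hypothesis), `p E Om = p Om` (`E Om - Om` in `Z`). So
`k (p Om) = p Om`, `≠ 0` by hypothesis.
(H2) `x` a cycle of degree `2` of the zone: `D x = u_B + u_Z`, as above `E u_Z = u_Z`, and
`D u_B + D u_Z = 0` with supports in `B`, `Z`: `D u_Z = 0`. Hypothesis: `u_Z = D e`, `e` in `Z'`.
(5.4): `k x = k (p H D e) + p D (..)`, (5.5): `k (p H D e) = - p D (..)`. So `k x` is a boundary. -/
def St_Z10 : Prop := ∀ (A : Zone ℚ) (v0 Om : A.X →₀ ℚ) (b0 ε : A.X → ℚ),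
  (∀ x, 20 ≤ A.lev x) → A.Cyc1 v0 → A.Cyc3 b0 →
  (∀ x, ε x ≠ 0 → A.deg x = 0) →
  (∀ x, pair (A.D (Finsupp.single x 1)) ε = 0) →
  (∀ x, pair (A.E (Finsupp.single x 1)) ε = ε x) → pair v0 ε = 1 →
  (∀ x, Om x ≠ 0 → A.deg x = 3) → (∀ x, A.D Om x ≠ 0 → x ∈ A.Z) →
  (∀ x, (A.E Om - Om) x ≠ 0 → x ∈ A.Z) → (∀ x, A.θ (A.D Om) x ≠ 0 → x ∈ A.Z) →
  A.p Om ≠ 0 →
  (∀ u : A.X →₀ ℚ, (∀ x, u x ≠ 0 → A.deg x = 1 ∧ x ∈ A.Z) → A.D u = 0 → A.E u = u →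
    ∃ e : A.X →₀ ℚ, (∀ x, e x ≠ 0 → A.deg x = 2 ∧ x ∈ A.Z') ∧ A.D e = u) →
  str (AddMonoidHom.id ℚ) A.degW (A.mat A.κ) = -2

end Pool.Agent.CPD
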