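import Pool.Agent.CPD.GeoDefs
import Pool.Agent.CPD.StA
import Pool.Agent.CPD.StD
import Pool.Agent.CPD.StE
import Pool.Agent.CPD.StF
import Pool.Agent.CPD.StZ

/-!
# Statements, part G : geometry of the zone and the conclusion

`M : Geo G`, cells `x = (g, i)`, `|x| = M.L.l x.1`, `u = c + 1`. `Ev4 P`: `P n' N' N Q` for all radii
which are large, each in terms of the previous ones.
-/

set_option autoImplicit false

namespace Pool.Agent.CPD

open Matrix

/-- [G0] Level functions. (1) an asymptotic local system is good at all far elements, for every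
radius. (2) admissible data exist: with `V = {v | g0 < |v|}`. (3) adapted level functions, for these
`V` and for `V = univ`.
Proof. (1) balls are finite, finite intersections of cofinite sets, and a finite set is contained in
a ball. (2) `g0` from (1) with `K = R0`, `m` from `esc` with `R = g0 + 100 u`. (3) `lev x :=
min 30 ((|x| - g0) / (3 u))` (natural subtraction and division, `u ≥ 1`). `ok`: `|x| ≥ g0 + 9 u`, F0 (6) or
directly. `lip`: `|y| ≥ |x| - 3 u`. `line`: if `j < τ x'` then `|σ x' j| > g0 + 100 u`, `|y| > g0 + 99 u`,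
`lev y = 30`; if `j ≥ τ x'` then `σ x' j = x'` and `y` is within `2 u` of `x`. For `univ`: the constant `30`. -/
def St_G0 : Prop := ∀ (G : Type) [Group G] (M : Geo G) (Λ : Type) [Ring Λ] [StarRing Λ]
  (T : G → G → unitary Λ),
  (IsALS T → ∀ K : ℕ, ∃ g : ℕ, ∀ v, g < M.L.l v → GoodAt M.L T K v) ∧
  (IsALS T → ∃ g0 m : ℕ, Adm M T {v | g0 < M.L.l v} g0 m) ∧
  (∀ g0 m : ℕ, Adm M T {v | g0 < M.L.l v} g0 m →
    ∃ lev : G → ℕ, LevOK M {v | g0 < M.L.l v} m lev) ∧
  (∀ g0 m : ℕ, Adm M T {v | g0 < M.L.l v} g0 m → Adm M (triv G ℚ) Set.univ g0 m) ∧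
  (∀ m : ℕ, LevOK M Set.univ m (fun _ => 30)) ∧ IsALS (triv G Λ)

/-- [G1a] (uses F0, F4, F5, F6, F7) The zone, part A.
Proof. `g1` from `big`. `n ≥ m + 10 u`, `n ≥ g1 + 10 u`. `n' ≥ n + 10 u` and `n' ≥ (bound of F7 for n) +
10 u`; `N' ≥ n' + 10 u`; `N ≥ N' + 10 u`. Sets: `Bs`, `Zs` are nested and disjoint; the complement of
`Bs n ∪ Zs N` is contained in `|x| < N + 3 u`: finite. `levW`: `x ∉ Bs n` has `|x| > n - 3 u ≥ g1`: level
`30`. Levels and degrees of `D, E`: F7 (`(A x.2 y.2).coeff (x⁻¹y) ≠ 0` gives `l ≤ c`, `lip`, and `D_deg`,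
`E_deg` of `resP`); of `H, r`: F7 and `line` (with `x' = x`). Identities at level `≥ 5`: `ok` gives
`OkV`, in particular `x.1 ∈ V`; `DD, EE, ED, DE` from F6 (a single cell is supported in `V`) and
`resP`; `HE, EH` from F5, `flow` from F4. `D_B`: `|y| ≤ |x| + c`, `deg y + 1 = deg x`, so
`|y| + u deg y ≤ |x| + c + u deg x - u ≤ n`; `D_Z`: `|y| ≥ |x| - c ≥ N + u deg x - c ≥ N + u deg y`.
`E_B`, `E_Z`: radii. `r_B`: `|y| ≤ |σ x m| + c ≤ m + c` (F0 (5)). `H_B`: F7. -/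
def St_G1a : Prop := ∀ (G : Type) [Group G] (M : Geo G) (Λ : Type) [Ring Λ] [StarRing Λ]
  (T : G → G → unitary Λ) (V : Set G) (g0 m : ℕ) (lev : G → ℕ), Adm M T V g0 m →
  LevOK M V m lev → Ev fun n => Ev4 fun n' N' N _ => ZA M T lev m n n' N' N

/-- [G1b] (uses F0, F5, F6, F7, F10b, F11, F12) The zone, part B.
Proof. `θ = Hm ∘ cut1 ∘ E + Ho ∘ cut2 ∘ E`, `cut1 = {|x| ≤ n' + u}`, `cut2 = {N' ≤ |x| + u}`. Let `N1` be
large for F10b, F12 and `R'_1` the value of F11 for `R = g1`. `n' ≥ 0`, `N' ≥ n' + 10 u`, `N' ≥ N1 + 10 u`,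
`N' ≥ R'_1 + 10 u`; `N ≥ N' + 10 u` and `N ≥ R'(N' + 10 u) + 10 u` (F11); `Q ≥ N + 20 u` and `Q ≥
R'(N + 10 u) + 30 u` (F11). `lev_θ`: `y` in `Hm a`, `a` within `c` of `x`: `line` with `x' = a`; `y` in
`Ho a`, `|a| ≥ N' - u > R'_1`: `|y| > g1`, level `30`. `deg_θ`: F7, F11. `θE`: `E (E x) = E x` (F6) at level
`≥ 5`. `Eθ`: `E (Hm a) = Hm a` for the cells `a` of `E x` (level `≥ 4`, so Ok) by F5, `E (Ho a) = Ho a` by
F12. `θ_B'`: the cells of `E x` have `|a| ≤ n' + c`, so `cut1` is the identity and `cut2` is `0`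
(`n' + 2 u < N'`): `θ x = Hm (E x) = Hm x` (F5). `θ_Z`: cells of `E x` have `|a| ≥ N - c`: `θ x = Ho (E x)`,
F11 gives `|y| > N' + 10 u`, so `y ∈ Zs N'`. `κ_Z'`: `|x| ≥ N' + u deg x`; the cells of `E x` have
`|a| ≥ N' - c`, `cut1 = 0`, `cut2 = id`: `θ x = Ho (E x) = Ho x` (F12), similarly `θ (D x) = Ho (E D x) =
Ho (D x)` (cells of `D x` have `|a| ≥ N'`, `a ∈ V`). If `|x| + 10 u ≤ Q`: F10b: `|y| > Q - 4 u ≥ N + 3 u`.
If `|x| + 10 u > Q`: each of the three terms is supported in `|y| > N + 3 u` (F7, F11 with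
`R = N + 10 u`). -/
def St_G1b : Prop := ∀ (G : Type) [Group G] (M : Geo G) (Λ : Type) [Ring Λ] [StarRing Λ]
  (T : G → G → unitary Λ) (V : Set G) (g0 m : ℕ) (lev : G → ℕ), Adm M T V g0 m →
  LevOK M V m lev → Ev4 fun n' N' N Q => ZB M T lev m n' N' N Q

/-- [G2a] (uses E1, F1) Local connectivity of a resolution, and its lift at good elements.
Proof. `o`: the chain of a row vector `v` with `v E = v`, aug `1` (E1), take the part of degree `0`.
`ex i` (`deg i = 0`): the chain `row E (1,i) - e i • o` is fixed by `E`, of degree `0`, of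
augmentation `0` (`Ee`), killed by `D` (degree): it is `opZ D b` (`exact`, E1), `b` fixed by `E`, part of
degree `1`. `es h`: `o - tl h o` similarly. `ρ`: bound for the supports of `o`, `ex i` (`i ∈ I`), `es h`
(`l h ≤ R`), `R`, and for the lengths in the supports of the entries of `D`, `E`. Lift: translate the
integral identities by `g` (`row E (g,i) = tl g (row E (1,i))`, `opZ` commutes with `tl`), apply
`bl T g` (additive; `bl T g (n • c) = (n : Λ) • bl T g c`), F1 (1) (`K = ρ`) and F1 (2) for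
`bl T g (tl (g h) o) = T g h • bl T (g h) (tl (g h) o)`. -/
def St_G2a : Prop := ∀ (G : Type) [Group G] (L : Len G) (I : Type) [Fintype I] [DecidableEq I]
  (deg : I → ℕ) (D E : Matrix I I (ZG G)) (e : I → ℤ), Res deg D E e → ∀ R : ℕ,
  ∃ (ρ : ℕ) (o : (G × I) →₀ ℤ) (ex : I → (G × I) →₀ ℤ) (es : G → (G × I) →₀ ℤ),
    R ≤ ρ ∧ opZ E o = o ∧ augZ e o = 1 ∧
    (∀ x, o x ≠ 0 → deg x.2 = 0 ∧ L.l x.1 ≤ ρ) ∧
    (∀ i x, ex i x ≠ 0 → deg x.2 = 1 ∧ L.l x.1 ≤ ρ) ∧
    (∀ h x, L.l h ≤ R → es h x ≠ 0 → deg x.2 = 1 ∧ L.l x.1 ≤ ρ) ∧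
    (∀ i, deg i = 0 → row E (1, i) = e i • o + opZ D (ex i)) ∧
    (∀ h, L.l h ≤ R → o = tl h o + opZ D (es h)) ∧
    ∀ (Λ : Type) [Ring Λ] [StarRing Λ] (T : G → G → unitary Λ) (g : G), GoodAt L T ρ g →
      lo T (row E) (bl T g (tl g o)) = bl T g (tl g o) ∧
      (∀ i, deg i = 0 → lo T (row E) (Finsupp.single (g, i) 1) =
        (e i : Λ) • bl T g (tl g o) + lo T (row D) (bl T g (tl g (ex i)))) ∧
      (∀ h, L.l h ≤ R → bl T g (tl g o) = (T g h : Λ) • bl T (g * h) (tl (g * h) o) +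
        lo T (row D) (bl T g (tl g (es h))))

/-- [G2b] (uses nothing but the hypotheses, which are the last clauses of G2a) Transport along a
path: the chains at the two ends differ by the product of `T` and the boundary of a chain near the
path.
Proof. Induction on `k` (start `a` general): `bl (p a) = T(p a, h) • bl (p (a+1)) + D (bl (p a) (es h))`,
`h = (p a)⁻¹ p (a+1)`, and `tr T p a (k+1) = T (p a) h * tr T p (a+1) k`. Supports: `bl T g (tl g c)` is
supported in the cells `x` with `L.l (g⁻¹ x.1) ≤ ρ`. -/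
def St_G2b : Prop := ∀ (G : Type) [Group G] (L : Len G) (I : Type) [Fintype I] [DecidableEq I]
  (deg : I → ℕ) (D : Matrix I I (ZG G)) (Λ : Type) [Ring Λ] [StarRing Λ]
  (T : G → G → unitary Λ) (R ρ : ℕ) (o : (G × I) →₀ ℤ) (es : G → (G × I) →₀ ℤ) (S : Set G),
  (∀ h x, L.l h ≤ R → es h x ≠ 0 → deg x.2 = 1 ∧ L.l x.1 ≤ ρ) →
  (∀ g ∈ S, ∀ h, L.l h ≤ R → bl T g (tl g o) = (T g h : Λ) • bl T (g * h) (tl (g * h) o) +
    lo T (row D) (bl T g (tl g (es h)))) →
  ∀ (k : ℕ) (p : ℕ → G), (∀ i < k, p i ∈ S) → (∀ i < k, L.l ((p i)⁻¹ * p (i + 1)) ≤ R) →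
  ∃ e : (G × I) →₀ Λ, (∀ x, e x ≠ 0 → deg x.2 = 1 ∧ ∃ i < k, L.l ((p i)⁻¹ * x.1) ≤ ρ) ∧
    bl T (p 0) (tl (p 0) o) =
      ((tr T p 0 k : unitary Λ) : Λ) • bl T (p k) (tl (p k) o) + lo T (row D) e

/-- [G2] (uses E6b, F0, F6, F7, F10b, F11, G0, G2a, G2b) `H₁` of the zone is cyclic, geometrically.
Proof. G2a for `resP` with `R = 1`: `ρ, o, ex, es`. For `N'` given: `S := {v | N' + 10 u + 2 ρ + g2 < |v|}`,
`g2` such that `T` is `ρ`-good beyond `g2` (G0 (1)), and `> g0`, `N1` (F10b). `R1` := the radius of E6b for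
`S`. `N ≥` value of F11 for `R = N' + 10 u`, plus `10 u`, `≥ N1 + 10 u`, `≥ g0 + 10 u`. Choose `g1` with
`|g1| > N + 10 u + ρ + R1` (exists: `G` infinite, balls finite), `c0 := tl g1 o`, `v0 := bl T g1 c0`: degree
`0`, supported in `Zs N`, `E v0 = v0` (G2a). `gen`: let `v` be of degree `0`, supported in `Zs N`. Choose
`Q''` with `Q'' ≥ |x| + 10 u` for all `x` in the support and `Q'' ≥ R1 + 10 u + ρ`, ... F10b on the cells of
`v`: `E v = D (Ho'' v) + Ho'' (D v) + gv`, `D v = 0` (degree), `gv` supported in `|y| > Q'' - 4 u`, of degree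
`0`; `Ho'' v` of degree `1` supported in `|y| > N' + 10 u` (F11), so in `Zs N'`. `E gv = gv`: `E E v = E v`
and `E D (Ho'' v) = D (Ho'' v)` (F6; cells of `Ho'' v` are in `V`). So `gv = E gv = ∑ gv(y) • E y` and
`E y = e(y) • o~_(y.1) + D (..)` (G2a, `y.1` good), the chain `(..)` within `ρ` of `y`. For every `y.1`
(`|y.1| > R1`) a path from `y.1` to `g1` inside `S` (E6b: convert `Joined` = `ReflTransGen` into a
function `ℕ → G`; steps `≤ 1`): `o~_(y.1) = hol • v0 + D e_y`, `e_y` within `ρ` of the path (G2b), so in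
`Zs N'`. Sum up: `E v = a • v0 + D e`. -/
def St_G2 : Prop := ∀ (G : Type) [Group G] [Infinite G] (M : Geo G) (Λ : Type) [Ring Λ]
  [StarRing Λ] (T : G → G → unitary Λ) (V : Set G) (g0 m : ℕ) (lev : G → ℕ), IsALS T →
  Adm M T V g0 m → LevOK M V m lev → ∀ n : ℕ, Ev4 fun n' N' N Q =>
    ∀ (hA : ZA M T lev m n n' N' N) (hB : ZB M T lev m n' N' N Q),
      ∃ (g1 : G) (c0 : (G × M.I) →₀ ℤ), augZ M.e c0 = 1 ∧ (mkZone hA hB).Cyc1 (bl T g1 c0)

/-- [G3a] (uses F0, F6, F7, F10a, F9) Pushing a dual chain outward. `N` (here `a`) is a dual chain of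
degree `3`, supported off `B' ∪ Z'`, fixed by `Eᴴ`; it is `op Dᴴ F1` plus a chain in a collar.
Proof. `n'` so large that cells off `Bs n'` are beyond `N2` of F10a. `op Dᴴ a = 0` (degree: `Dᴴ` maps
degree `i` to degree `i + 1`, `deg ≤ 3`). F10a: for `|z| + c ≤ Q3`, `a z = (op Eᴴ a) z = op Dᴴ F1 z` with
`F1 = trunc Q3 (tH a)`. `F1 z ≠ 0`: `|z| ≤ Q3`, `deg z = 2`, and there is `y ∉ Bs n'` with `Hm z y ≠ 0`, so
`z ∉ Bs n` (F7: for `n' ≥` the bound for `n`, `H` maps `Bs n` into `Bs n'`), and `|z| > g0 + 10 u`.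
`a - op Dᴴ F1` is supported in `Q3 < |z| + c` and (if `Q3 ≥ N' + 10 u`) in `|z| ≤ Q3 + c`, has degree `3`,
and is fixed by `Eᴴ` (`op Eᴴ (op Dᴴ F1) = op (Dᴴ Eᴴ) F1 = op Dᴴ F1`, as `(E D)ᴴ = Dᴴ Eᴴ`; `F1` in
`V`). -/
def St_G3a : Prop := ∀ (G : Type) [Group G] (M : Geo G) (Λ : Type) [Ring Λ] [StarRing Λ]
  (T : G → G → unitary Λ) (V : Set G) (g0 m : ℕ), Adm M T V g0 m → ∀ n : ℕ,
  Ev fun n' => Ev fun N' => Ev fun Q3 => ∀ a : Ch M Λ,
    (∀ x, a x ≠ 0 → M.deg x.2 = 3 ∧ x ∉ Bs M n' ∧ x ∉ Zs M N') → op M T M.Eᴴ a = a →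
    ∃ F a' : Ch M Λ, a = op M T M.Dᴴ F + a' ∧
      (∀ x, F x ≠ 0 → M.deg x.2 = 2 ∧ x ∉ Bs M n ∧ M.L.l x.1 ≤ Q3) ∧
      (∀ x, a' x ≠ 0 → M.deg x.2 = 3 ∧ Q3 < M.L.l x.1 + M.u ∧ M.L.l x.1 ≤ Q3 + M.u) ∧
      op M T M.Eᴴ a' = a'

/-- [G3b] (uses F0, F6, F9, G0, G2a, G2b, E6b, G3a) `H³` of the zone is cyclic, geometrically, and
monodromy. `R` is a bound for the steps of loops.
Proof. G2a for `resQ` (degrees `3 - deg`, matrices `Dᴴ, Eᴴ`, augmentation `w`) with the radius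
`max R 1`: `ρ, o, ex, es`. `n ≥ g2 + 10 u` with `T` `ρ`-good beyond `g2`, `g2 ≥ g0`. `S := {v | n + 10 u +
2 ρ < |v|}`, `R1` from E6b for `S`, plus `ρ + n + 10 u`. Let the loop `p` be outside the ball `R1`,
`v := p 0`. `n', N'` large for G3a and `n' ≥ n`; choose `Q3` (depending on `n', N'`) large for G3a,
`Q3 ≥ R1 + 10 u`; for each of the finitely many `y ∈ G` with `Q3 < |y| + u`, `|y| ≤ Q3 + u` choose a path
in `S` from `y` to `v` (E6b). `N` larger than `Q3 + 10 u + ρ`, than all lengths on these paths and on the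
loop plus `10 u + ρ`. `b0 x := star (bl T v (tl v o) x)`: degree `3`, within `ρ` of `v`, in the zone
(`|v| > R1`). `gen`: for `ν` let `a := ∑ star (ν x) • x` (finite support: `ν` vanishes on `B' ∪ Z'`). For all
`z`: `(op Eᴴ a) z = star (pair (E z) ν)` (F9) which is `star (ν z) = a z` if `lev z ≥ 10`; if `lev z < 10` then
`z ∈ Bs n` and both sides are `0` (`E_B`: cells of `E z` are in `B'`; for `a z`: `Bs n ⊆ Bs n'`). (F9 needs the
cells of `a` in `V`: cells off `B` have level `≥ 20 ≥ 3`, `ok`.) G3a: `a = Dᴴ F + a'`, `a' = Eᴴ a' =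
∑ a'(y) • Eᴴ y = ∑ a'(y) w(y) • o~_(y.1) + Dᴴ (..)` and `o~_(y.1) = hol • o~_v + Dᴴ (..)` (G2b). So
`a = b' • o~_v + Dᴴ F'`, `F'` of degree `2` supported in the zone (off `Bs n`: the local chains are
within `ρ` of elements of `S`, or of the collar; below `N` by the choice of `N`). Apply `star` at a cell
`x` of the zone: `ν x = b0 x * star b' + star ((op Dᴴ F') x)` and by F9 the last term is
`pair (D x) (star ∘ F')`. Monodromy: G2b for the loop: `o~_v = l • o~_v + Dᴴ e`, `l = tr T p 0 k`, `e` near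
the loop, in the zone; `star`: `b0 x * (1 - star l) = pair (D x) (star ∘ e)`. -/
def St_G3b : Prop := ∀ (G : Type) [Group G] [Infinite G] (M : Geo G) (Λ : Type) [Ring Λ]
  [StarRing Λ] (T : G → G → unitary Λ) (V : Set G) (g0 m : ℕ) (lev : G → ℕ), IsALS T →
  Adm M T V g0 m → LevOK M V m lev → ∀ R : ℕ, Ev fun n => ∃ R1 : ℕ,
    ∀ (k : ℕ) (p : ℕ → G), p 0 = p k → (∀ i ≤ k, R1 < M.L.l (p i)) →
      (∀ i < k, M.L.l ((p i)⁻¹ * p (i + 1)) ≤ R) → Ev4 fun n' N' N Q =>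
        ∀ (hA : ZA M T lev m n n' N' N) (hB : ZB M T lev m n' N' N Q),
          ∃ b0 : G × M.I → Λ, (mkZone hA hB).Cyc3 b0 ∧
            ∃ f : G × M.I → Λ, (∀ x, f x ≠ 0 → x ∈ (mkZone hA hB).Ws) ∧
              ∀ x ∈ (mkZone hA hB).Ws, b0 x * (1 - star ((tr T p 0 k : unitary Λ) : Λ)) =
                pair (op M T M.D (Finsupp.single x 1)) f

/-- [G4a] (uses F1) Calculus of equivariant operators on infinite rational chains.
Proof. `lf A c y = ∑_i ∑_h A_{i,y.2}(h) c (y.1 h⁻¹, i) = ∑_x c x * row A x y` (finite sum over the `x`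
with `row A x y ≠ 0`). Associativity: exchange the order of finite sums, coefficients of a product.
Transposed: `row Aᴴ x y = row A y x`. Agreement with `op` for the trivial system on finite chains. -/
def St_G4a : Prop := ∀ (G : Type) [Group G] (M : Geo G),
  (∀ (A B : Matrix M.I M.I (ZG G)) (c : G × M.I → ℚ), lf B (lf A c) = lf (A * B) c) ∧
  (∀ (A B : Matrix M.I M.I (ZG G)) (c : G × M.I → ℚ), lf (A + B) c = lf A c + lf B c ∧
    lf (A - B) c = lf A c - lf B c) ∧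
  (∀ (A : Matrix M.I M.I (ZG G)) (c c' : G × M.I → ℚ), lf A (c + c') = lf A c + lf A c' ∧
    lf A (c - c') = lf A c - lf A c') ∧
  (∀ (A : Matrix M.I M.I (ZG G)) (a : Ch M ℚ), (fun x => op M (triv G ℚ) A a x) =
    lf A (fun x => a x)) ∧
  (∀ (A : Matrix M.I M.I (ZG G)) (f : G × M.I → ℚ) (x : G × M.I),
    pair (op M (triv G ℚ) A (Finsupp.single x 1)) f = lf Aᴴ f x) ∧
  (∀ (A : Matrix M.I M.I (ZG G)) (c : G × M.I → ℚ) (y : G × M.I), Five M A → lf A c y ≠ 0 →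
    ∃ x, c x ≠ 0 ∧ (A x.2 y.2).coeff (x.1⁻¹ * y.1) ≠ 0 ∧ M.L.l (x.1⁻¹ * y.1) ≤ M.c)

/-- [G4b] (uses E1, G4a) `H₂` with infinite rational chains vanishes.
Proof. `c` of degree `2` with `lf D c = 0`, `lf E c = c`. `f := lf Ps c` (degree `1`). `lf Dᴴ f =
lf (Ps Dᴴ) c = lf (D Ps) c = lf Ps (lf D c) = 0`, `lf Eᴴ f = f`. For finite chains `a`:
`⟨f, D a⟩ = ⟨lf Dᴴ f, a⟩ = 0` and `⟨f, E a⟩ = ⟨f, a⟩` (`⟨f, a⟩ = pair a f`). Claim: if `a` is a finite
rational chain of degree `1` with `D a = 0` then `⟨f, a⟩ = 0`: a multiple of `E a` is integral, fixed by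
`E`, killed by `D`, of augmentation `0` (degree `1`), so it is `D b` (`exact`, E1). So there is a linear
functional on the subspace `D (degree 1)` of the rational chains with `D a ↦ ⟨f, a⟩`; extend it
(`LinearMap.exists_extend`) to all finite chains of degree `0`; `f' x` := its value on `x` (`0` off
degree `0`). Then `lf Dᴴ f' x = pair (D x) f' = f x` for `x` of degree `1`, and both are `0` otherwise. So
`f = lf Dᴴ f'`. `c = lf E c = lf (Ps Ph) c - lf (h D + D h) c = lf Ph (lf Dᴴ f') - lf D (lf h c) -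
lf h (lf D c) = lf D (lf Ph f' - lf h c)` (`Dᴴ Ph = Ph D`). Degree of `lf Ph f'` and `lf h c`: `3`. -/
def St_G4b : Prop := ∀ (G : Type) [Group G] (M : Geo G) (c : G × M.I → ℚ),
  (∀ x, c x ≠ 0 → M.deg x.2 = 2) → lf M.D c = 0 → lf M.E c = c →
  ∃ b : G × M.I → ℚ, (∀ x, b x ≠ 0 → M.deg x.2 = 3) ∧ lf M.D b = c

/-- [G4c] (uses E1, F6, F7, F10a, G4a, G4b) Cycles of degree one which are far away bound far away.
Proof. Trivial system, `V = univ`. Let `u` be of degree `1`, supported in `Zs N`, `D u = 0`, `E u = u`.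
`b := op Ps u`: `op Dᴴ b = op Ps (op D u) = 0`, `op Eᴴ b = b`. `F10a` for all `Q`: `b z = lf Dᴴ (tH b) z` for
all `z` (`Q = |z| + 2 u`; `op Dᴴ (trunc Q f) z = lf Dᴴ f z` if `|z| + c ≤ Q`). `q := lf Ph (tH b) - lf h u`
(functions). `lf D q = lf Ph (lf Dᴴ (tH b)) - lf D (lf h u) = lf Ph b - lf D (lf h u) = lf (Ps Ph) u -
lf (h D) u = lf (E + D h) u = u + lf h (lf D u) = u`, `lf E q = q`, degree `2`, and `q` is supported in
`Zs N'` if `N` is large: `q z ≠ 0` implies: `z` within `c` of a cell of `u`, or `z` within `c` of `z'`,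
`hh j z' a ≠ 0` (some `j`), `a` within `c` of a cell of `u`; F7 for the radius `N' + 10 u`. `u = D e'` with a
finite rational chain `e'` of degree `2`, `E e' = e'` (a multiple of `u` is integral; `exact`). `e' - q`
satisfies G4b: `= lf D b'`, `b'` of degree `3`. Let `P` be larger than `N' + 10 u` and `b'_P` the finite
chain `b'` cut at `|x| ≤ P`; `e := e' - D (b'_P)` is finite and equals `q + lf D (b' - b'_P)`, supported
in `Zs N'`. `D e = D e' = u`. -/
def St_G4c : Prop := ∀ (G : Type) [Group G] (M : Geo G) (m : ℕ) (g0 : ℕ),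
  Adm M (triv G ℚ) Set.univ g0 m → Ev fun N' => Ev fun N => ∀ u : Ch M ℚ,
    (∀ x, u x ≠ 0 → M.deg x.2 = 1 ∧ x ∈ Zs M N) → op M (triv G ℚ) M.D u = 0 →
    op M (triv G ℚ) M.E u = u →
    ∃ e : Ch M ℚ, (∀ x, e x ≠ 0 → M.deg x.2 = 2 ∧ x ∈ Zs M N') ∧ op M (triv G ℚ) M.D e = u

/-- [G4d] (uses F7, F11, G4a) The truncated fundamental class.
Proof. `Om := ∑_{|g| ≤ P, i} w i • (g, i)`, `P` large. `w i ≠ 0` only for `deg i = 3` (`e_deg` of `resQ`).
`(D Om) y = ∑_{|x| ≤ P} w(x) row D x y`, for `|y| ≤ P - c` it is the full sum `∑_i au (D i y.2) w i = 0`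
(`De` of `resQ`: `∑_j au ((Dᴴ) i j) w j = 0`, `au (star a) = au a`); so `D Om` is supported in
`|y| > P - c`; the same for `E Om - Om` (`Ee`). `θ (D Om)`: the cells of `E (D Om)` have `|a| > P - 2 c`,
`cut1 = 0`, `Ho a` is supported in `|y| > N + 10 u` by F11 if `P` is large (in terms of `N` only). `p Om ≠ 0`:
there is `i` with `w i ≠ 0` (`surj`), and `g` with `|g| = n + 5 u` (`G` infinite: elements of every
length by `path`), `(g, i)` is in the zone as `N > n + 10 u`. -/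
def St_G4d : Prop := ∀ (G : Type) [Group G] [Infinite G] (M : Geo G) (m : ℕ), ∀ n : ℕ,
  Ev4 fun n' N' N Q => ∃ Om : Ch M ℚ, (∀ x, Om x ≠ 0 → M.deg x.2 = 3) ∧
    (∀ x, op M (triv G ℚ) M.D Om x ≠ 0 → x ∈ Zs M N) ∧
    (∀ x, (op M (triv G ℚ) M.E Om - Om) x ≠ 0 → x ∈ Zs M N) ∧
    (∀ x, th M (triv G ℚ) m n' N' Q (op M (triv G ℚ) M.D Om) x ≠ 0 → x ∈ Zs M N) ∧
    cut ((Bs M n ∪ Zs M N)ᶜ) Om ≠ 0

/-- [G5] (uses G0, G2, G3b, G4a, G4c, G4d, Z10) The Euler number of the geometric zone over `ℚ`.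
Proof. Z10 for `A = mkZone hA hB`, with `lev = 30`, `v0 = bl triv g1 c0` (G2), `b0` (G3b for the
constant loop of length `0` at an element of length `> R1`; `R = 1`), `Om` (G4d), `ε x = M.e x.2`:
`pair (D x) ε = ∑_j au (D x.2 j) e j = 0`, `pair (E x) ε = e x.2`, `pair (bl triv g1 c0) ε =
augZ e c0 = 1`; last hypothesis: G4c. Combine the eventual quantifiers. -/
def St_G5 : Prop := ∀ (G : Type) [Group G] [Infinite G] (M : Geo G) (g0 m : ℕ),
  Adm M (triv G ℚ) Set.univ g0 m → Ev fun n => Ev4 fun n' N' N Q =>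
    ∀ (hA : ZA M (triv G ℚ) (fun _ => 30) m n n' N' N)
      (hB : ZB M (triv G ℚ) (fun _ => 30) m n' N' N Q),
      str (AddMonoidHom.id ℚ) (mkZone hA hB).degW ((mkZone hA hB).mat (mkZone hA hB).κ) = -2

/-- [G6] (uses F14, G1a, G1b, G5, G0) The Euler number of the geometric zone over `Λ`.
Proof. `(mkZone hA hB).κ = ka M T m n' N' Q` by definition, so the diagonal entries are, by F14, the
integers `κ_ℤ x x` (cells of the zone have level `≥ 20`; all `y` within `2 u` have level `≥ 19`, so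
`OkV`), and `t` of such an entry is the integer. The same for the trivial system over `ℚ` (F14 with
`V = univ`), where the alternating sum is `-2` by G5 (the ℚ-zone exists for the same radii by G1a,
G1b). The index sets are the same (the cells off `Bs n ∪ Zs N`). -/
def St_G6 : Prop := ∀ (G : Type) [Group G] [Infinite G] (M : Geo G) (Λ : Type) [Ring Λ]
  [StarRing Λ] (T : G → G → unitary Λ) (V : Set G) (g0 m : ℕ) (lev : G → ℕ) (t : Λ →+ ℤ),
  t 1 = 1 → Adm M T V g0 m → LevOK M V m lev → Adm M (triv G ℚ) Set.univ g0 m →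
  Ev fun n => Ev4 fun n' N' N Q =>
    ∀ (hA : ZA M T lev m n n' N' N) (hB : ZB M T lev m n' N' N Q),
      str t (mkZone hA hB).degW ((mkZone hA hB).mat (mkZone hA hB).κ) = -2

/-- [G7] (uses TR1, KAP of part A, Z9, G0, G1a, G1b, G2, G3b, G6) The core theorem: every
asymptotic local system with values in a group is trivial at infinity.
Proof. `Λ = ℤ[π]` with the involution of `Basic`, `T' v h := ⟨single (T v h) 1, _⟩ ∈ unitary Λ` (a
group homomorphism `π → unitary Λ` composed with `T`, so `IsALS T'`, and `tr T' = single (tr T) 1`),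
`t` := coefficient at `1` (TR1, KAP). If `G` is finite take `D = univ`. Let `G` be infinite, `R` given.
`g0, m, lev` (G0). Choose `n` large for G1a, G2 (all `n`), G3b (`R`), G6; `R1` from G3b; `D := {v | |v| ≤
R1}`. For a closed sequence `p` outside `D` choose `n', N', N, Q` such that G1a, G1b give `hA`, `hB` and
G2, G3b, G6 hold. Z9 with `l = 1 - star (single (tr T p 0 k) 1)`: `l = 0`, so `single (tr T p 0 k)⁻¹ 1 =
single 1 1`, `tr T p 0 k = 1`. -/
def St_G7 : Prop := ∀ (G : Type) [Group G] (M : Geo G) (π : Type) [Group π] (T : G → G → π),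
  IsALS T → TrivAtInf M.L T

/-- [FIN] (uses EGeo, D4, G7) The theorem.
Proof. Immediate. -/
def St_FIN : Prop := ∀ (G : Type) [Group G], IsOrientablePD3 G → Combable G →
  ∀ (α : Type) [Finite α] (f : α → G) (R : Set (List (α × Bool))), R.Finite →
    IsPresentation f R → OneConnectedAtInfinity f R

end Pool.Agent.CPD
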