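import Pool.Agent.CPD.StA

/-!
# CPD [TR1]: the coefficient at `1` is a trace
-/

set_option autoImplicit false

namespace Pool.Agent.CPD

theorem TR1 : St_TR1 := by
  classical
  intro π _ a b
  induction a using MonoidAlgebra.induction_linear with
  | zero => rw [zero_mul, mul_zero]
  | add x y hx hy =>
    rw [add_mul, mul_add, MonoidAlgebra.coeff_add, MonoidAlgebra.coeff_add, Finsupp.add_apply,
      Finsupp.add_apply, hx, hy]
  | single g r =>
    induction b using MonoidAlgebra.induction_linear with
    | zero => rw [zero_mul, mul_zero]
    | add x y hx hy =>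
      rw [add_mul, mul_add, MonoidAlgebra.coeff_add, MonoidAlgebra.coeff_add, Finsupp.add_apply,
        Finsupp.add_apply, hx, hy]
    | single h s =>
      rw [MonoidAlgebra.single_mul_single, MonoidAlgebra.single_mul_single,
        MonoidAlgebra.coeff_single, MonoidAlgebra.coeff_single, Finsupp.single_apply,
        Finsupp.single_apply, mul_comm r s]
      have e : g * h = 1 ↔ h * g = 1 := mul_eq_one_comm
      by_cases h1 : g * h = 1
      · rw [if_pos h1, if_pos (e.mp h1)]
      · rw [if_neg h1, if_neg fun h2 => h1 (e.mpr h2)]

end Pool.Agent.CPD
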