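import Mathlib

/-!
# Combable Poincaré duality groups of dimension three : definitions

* presentations, homotopy of loops in complements, 1-connectedness at infinity;
* bounded combings with a departure function;
* the integral group ring.
-/

set_option autoImplicit false

namespace Pool.Agent.CPD

/-! ## Words, presentations, 1-connectedness at infinity -/

section Words

variable {G α : Type} [Group G]

/-- The element of `G` named by a letter. -/
def letter (f : α → G) (a : α × Bool) : G := if a.2 then f a.1 else (f a.1)⁻¹

/-- The element of `G` named by a word. -/
def value (f : α → G) (w : List (α × Bool)) : G := (w.map (letter f)).prod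

/-- The path of the Cayley graph which starts at `g` and reads the word `w` has all its vertices
outside `K`. -/
def Avoids (f : α → G) (K : Set G) (g : G) (w : List (α × Bool)) : Prop :=
  ∀ n ≤ w.length, g * value f (w.take n) ∉ K

/-- Elementary homotopies, in the complement of `K` in the Cayley 2-complex, between paths which
start at `g`: insertion of a backtrack, or of the boundary word of a 2-cell, all vertices being
outside `K`. -/
inductive Move (f : α → G) (R : Set (List (α × Bool))) (K : Set G) (g : G) :
    List (α × Bool) → List (α × Bool) → Prop
  | back (u v : List (α × Bool)) (a : α) (b : Bool) :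
      Avoids f K g (u ++ (a, b) :: (a, !b) :: v) →
      Move f R K g (u ++ v) (u ++ (a, b) :: (a, !b) :: v)
  | rel (u r v : List (α × Bool)) : r ∈ R → Avoids f K g (u ++ r ++ v) →
      Move f R K g (u ++ v) (u ++ r ++ v)

/-- `⟨α | R⟩` is a presentation of `G`, through the map `f` on the generators. -/
def IsPresentation (f : α → G) (R : Set (List (α × Bool))) : Prop :=
  Function.Surjective (FreeGroup.lift f) ∧
    (FreeGroup.lift f).ker = Subgroup.normalClosure (FreeGroup.mk '' R)

/-- The Cayley 2-complex of the presentation is 1-connected at infinity: for every finite `K`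
there is a finite `D ⊇ K` such that every loop outside `D` is null-homotopic outside `K`. -/
def OneConnectedAtInfinity (f : α → G) (R : Set (List (α × Bool))) : Prop :=
  ∀ K : Set G, K.Finite → ∃ D : Set G, D.Finite ∧ K ⊆ D ∧
    ∀ (g : G) (w : List (α × Bool)), value f w = 1 → Avoids f D g w →
      Relation.EqvGen (Move f R K g) w []

/-- Word length. -/
noncomputable def wlen (f : α → G) (g : G) : ℕ :=
  sInf {n | ∃ w : List (α × Bool), w.length = n ∧ value f w = g}

/-- A bounded combing with a departure function, with respect to the generators `f`: `σ x` is a
path from `1` to `x` which has arrived at time `τ x`; paths to neighbours stay uniformly close at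
all times; a path can be close to itself only at close times. -/
structure IsCombing (f : α → G) (σ : G → ℕ → G) (τ : G → ℕ) : Prop where
  start : ∀ x, σ x 0 = 1
  stop : ∀ x j, τ x ≤ j → σ x j = x
  step : ∀ x j, wlen f ((σ x j)⁻¹ * σ x (j + 1)) ≤ 1
  fellow : ∃ k : ℕ, ∀ x a j, wlen f ((σ x j)⁻¹ * σ (x * letter f a) j) ≤ k
  departure : ∀ R : ℕ, ∃ t : ℕ, ∀ x i j, i ≤ j → j ≤ τ x →
    wlen f ((σ x i)⁻¹ * σ x j) ≤ R → j - i ≤ t

/-- `G` has a finite generating set with a bounded combing with a departure function. -/
def Combable (G : Type) [Group G] : Prop :=
  ∃ (n : ℕ) (f : Fin n → G) (σ : G → ℕ → G) (τ : G → ℕ),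
    Function.Surjective (FreeGroup.lift f) ∧ IsCombing f σ τ

end Words

/-- The integral group ring. -/
abbrev ZG (G : Type) [Group G] : Type := MonoidAlgebra ℤ G

end Pool.Agent.CPD
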