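import Pool.Agent.CPD.Z2

/-!
# CPD, Z3: the computations (5.3), (5.4), (5.5)
-/

set_option autoImplicit false

namespace Pool.Agent.CPD

open Matrix

/-- [Z3] -/
theorem Z3 (h0 : St_Z0) (h1 : St_Z1) (h2 : St_Z2) : St_Z3 := by
  intro Λ _ A
  obtain ⟨q1, q2, q3, q4, q5, q6⟩ := h1 Λ A
  have hr : ∀ c : A.X →₀ Λ, Z1Good A 9 c → A.p (A.κ (A.r c)) = 0 := by
    intro c g
    exact Z1_p0B h0 _ (q3 (A.r c) fun x hx =>
      ⟨Z1Good.r h0 g x hx, A.BB' (Z1_rB h0 (g.mono (by norm_num)) x hx)⟩)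
  have hE : ∀ c : A.X →₀ Λ, Z1Good A 5 c → A.E c = A.r c + A.D (A.H c) + A.H (A.D c) := by
    intro c g
    have h := Z1_flow h0 g
    rw [add_assoc, ← h]
    abel
  refine ⟨?_, ?_, ?_⟩
  · intro c hc
    have g : Z1Good A 20 c := Z2_good fun x hx => (hc x hx).1
    have hD : A.D c = 0 := by
      ext y
      by_contra hy
      exact (h0 Λ A.X).1 A.D (fun x => A.deg x = 0) (fun _ => False)
        (fun x hx y hy => by have := A.deg_D x y hy; omega) c (fun x hx => (hc x hx).2) y hy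
    rw [← (q1 c (g.mono (by norm_num))).1, hE c (g.mono (by norm_num)), hD, map_zero, add_zero,
      map_add, map_add, hr c (g.mono (by norm_num)), zero_add,
      (q1 (A.H c) (Z1Good.H h0 (g.mono (by norm_num)))).2.2, q6,
      q5 (A.H c) (Z1Good.H h0 (g.mono (by norm_num)))]
  · intro c hc hpD
    have g : Z1Good A 20 c := Z2_good hc
    have gD : Z1Good A 19 (A.D c) := Z1Good.D h0 g
    have gZ : Z1Good A 19 (cut A.Z (A.D c)) := by
      intro x hx
      by_cases h3 : x ∈ A.Z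
      · rw [cut_apply_of_mem _ _ h3] at hx
        exact gD x hx
      · exact absurd (cut_apply_of_notMem A.Z _ h3) hx
    have hZ : ∀ x, cut A.Z (A.D c) x ≠ 0 → x ∈ A.Z := by
      intro x hx
      by_contra h3
      exact hx (cut_apply_of_notMem A.Z _ h3)
    set u : A.X →₀ Λ := A.D c - cut A.Z (A.D c) with hu
    have gu : Z1Good A 19 u := gD.sub gZ
    have huB : ∀ x, u x ≠ 0 → x ∈ A.B := by
      intro x hx
      rw [hu, Finsupp.sub_apply] at hx
      by_cases h3 : x ∈ A.Z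
      · rw [cut_apply_of_mem _ _ h3, sub_self] at hx
        exact absurd rfl hx
      · rw [cut_apply_of_notMem _ _ h3, sub_zero] at hx
        by_contra h4
        apply hx
        have h5 : x ∈ A.Ws := fun h6 => h6.elim h4 h3
        have h6 : cut A.Ws (A.D c) x = 0 := by
          have h7 : cut A.Ws (A.D c) = 0 := hpD
          rw [h7]
          rfl
        rwa [cut_apply_of_mem _ _ h5] at h6
    have hDc : A.D c = u + cut A.Z (A.D c) := by rw [hu]; abel
    -- `k k c`
    have e1 : A.p (A.κ (A.p (A.κ c))) = A.p (A.D (A.p (A.κ (A.H c)))) +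
        A.p (A.κ (A.p (A.H (cut A.Z (A.D c))))) - A.p (A.D (A.p (A.κ (A.θ c)))) := by
      rw [← q5 (A.κ c) (Z1Good.κ h0 (g.mono (by norm_num)))]
      have e2 : A.κ c = A.r c + A.D (A.H c) + A.H u + A.H (cut A.Z (A.D c)) - A.D (A.θ c) -
          A.θ u - A.θ (cut A.Z (A.D c)) := by
        rw [Z1_κ, hE c (g.mono (by norm_num))]
        conv_lhs => rw [hDc, map_add, map_add]
        abel
      have e3 : A.p (A.κ (A.θ (cut A.Z (A.D c)))) = 0 := Z2_θZ h0 h1 _ hZ
      have e4 : A.θ u = A.H u :=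
        Z1_θB' h0 (gu.mono (by norm_num)) fun x hx => A.BB' (huB x hx)
      rw [e2]
      simp only [map_add, map_sub]
      rw [e3, e4, hr c (g.mono (by norm_num)),
        (q1 (A.H c) (Z1Good.H h0 (g.mono (by norm_num)))).2.2,
        (q1 (A.θ c) (Z1Good.θ h0 (g.mono (by norm_num)))).2.2, q6 (A.κ (A.H c)),
        q6 (A.κ (A.θ c)),
        q5 (A.H (cut A.Z (A.D c))) (Z1Good.H h0 (gZ.mono (by norm_num)))]
      abel
    have e5 := (h2 Λ A c hc).2.2
    rw [hpD, map_zero, map_zero, map_zero, sub_zero, e1] at e5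
    have e6 : A.p (A.κ c) = A.p (A.D (A.p (A.κ (A.H c)))) +
        A.p (A.κ (A.p (A.H (cut A.Z (A.D c))))) - A.p (A.D (A.p (A.κ (A.θ c)))) +
        A.p (A.D (A.p (A.κ (A.θ c)))) := by
      rw [e5]
      abel
    rw [e6]
    abel
  · intro e he
    have g : Z1Good A 20 e := fun x hx => A.levW x fun hB =>
      (Set.disjoint_left.1 A.disj (A.BB' hB)) (he x hx)
    have e1 : A.H (A.D e) = A.E e - A.r e - A.D (A.H e) := by
      rw [hE e (g.mono (by norm_num))]
      abel
    rw [← q5 (A.H (A.D e)) (Z1Good.H h0 (Z1Good.D h0 (g.mono (by norm_num)))), e1, map_sub,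
      map_sub, map_sub, map_sub, (q1 e (g.mono (by norm_num))).1, hr e (g.mono (by norm_num)),
      Z1_p0Z h0 _ (q4 e he), (q1 (A.H e) (Z1Good.H h0 (g.mono (by norm_num)))).2.2,
      q6 (A.κ (A.H e)), q5 (A.H e) (Z1Good.H h0 (g.mono (by norm_num))), sub_zero, zero_sub]

end Pool.Agent.CPD
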